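import Pool.Agent.H560R2.Av4
import Pool.Agent.H560R2.Neg5
import Pool.Agent.H520R2.HalfChain

/-! A hard distribution for the half-clique problem. -/

namespace Pool.Agent.H560R2

open Finset Pool.Agent.H520R2 Pool.Agent.H520R2.NM Pool.Agent.H520R2.HC

lemma word_free (N n : ℕ) (H : SimpleGraph (Fin n)) (p : Fin N) :
    FreeOutB H 1 (fun G => word N n G p) := by
  classical
  by_cases h : ∃ a b : Fin n, a < b ∧ (a : ℕ) * n + b = p
  · obtain ⟨a, b, hab, hp⟩ := h
    have key : ∀ G : SimpleGraph (Fin n), word N n G p = true ↔ G.Adj a b := by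
      intro G
      simp only [word, decide_eq_true_eq]
      constructor
      · rintro ⟨a', b', _, h2, h3⟩
        obtain ⟨h4, h5⟩ := code_inj (h3.trans hp.symm)
        rw [← h4, ← h5]
        exact h2
      · intro h
        exact ⟨a, b, hab, h, hp⟩
    by_cases hH : H.Adj a b
    · refine ⟨{s(a, b)}, ?_, by simp, fun G G' h1 h2 h3 => ?_⟩
      · intro e he
        rw [Finset.mem_singleton] at he
        rw [he]
        exact hH
      · rw [key] at h3 ⊢
        exact h2 a b (by simp) h3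
    · refine ⟨∅, by simp, by simp, fun G G' h1 h2 h3 => ?_⟩
      rw [key] at h3 ⊢
      exact (h1 a b hH).mp h3
  · refine ⟨∅, by simp, by simp, fun G G' h1 h2 h3 => ?_⟩
    exfalso
    simp only [word, decide_eq_true_eq] at h3
    obtain ⟨a, b, h4, -, h5⟩ := h3
    exact h ⟨a, b, h4, h5⟩

lemma update_equiv {κ κ' α : Type} [DecidableEq κ] [DecidableEq κ'] (e : κ ≃ κ') (y : κ' → α)
    (J : κ') (X : α) : (fun q => Function.update y J X (e q)) =
      Function.update (fun q => y (e q)) (e.symm J) X := by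
  funext q
  by_cases hq : q = e.symm J
  · subst hq
    rw [Function.update_self, Equiv.apply_symm_apply, Function.update_self]
  · rw [Function.update_of_ne hq, Function.update_of_ne]
    intro h
    exact hq (by rw [← h, Equiv.symm_apply_apply])

lemma word_mem' {N s : ℕ} (hs : s = Nat.sqrt N) (H : SimpleGraph (Fin s)) :
    List.ofFn (word N s H) ∈ HalfClique ↔ ∃ S : Finset (Fin s), s ≤ 2 * S.card ∧
        ∀ a ∈ S, ∀ b ∈ S, a ≠ b → H.Adj a b := by
  subst hs
  exact word_mem N H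

/-- the arithmetic of the number of copies -/
lemma copies_num {N s x q z : ℕ} (hsN : N < (s + 1) * (s + 1)) (hx2 : s < 8 * (x + 1))
    (hx1 : 1 ≤ x) (hq0 : 0 < q) (hxq : q ≤ x) (hz : 512 * q ≤ z) :
    N / z ≤ x * (x / q) := by
  have g1 : N / z * z ≤ N := Nat.div_mul_le_self _ _
  set M := N / z with hMdef
  have g2 : M * (512 * q) ≤ N := le_trans (Nat.mul_le_mul_left _ hz) g1
  have g3 : N < (16 * x) * (16 * x) := by
    refine lt_of_lt_of_le hsN (Nat.mul_le_mul ?_ ?_) <;> omega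
  have g4 : x ≤ 2 * (q * (x / q)) := by
    have h1 : x < q * (x / q + 1) := Nat.lt_mul_div_succ x hq0
    have h2 : 1 ≤ x / q := Nat.div_pos hxq hq0
    have h3 : q * 1 ≤ q * (x / q) := Nat.mul_le_mul_left _ h2
    have h4 : q * (x / q + 1) = q * (x / q) + q := by ring
    omega
  have g5 : x * x ≤ 2 * q * (x * (x / q)) := by
    calc x * x ≤ x * (2 * (q * (x / q))) := Nat.mul_le_mul_left _ g4
      _ = _ := by ring
  have g6 : M * (512 * q) < (x * (x / q)) * (512 * q) := by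
    calc M * (512 * q) ≤ N := g2
      _ < (16 * x) * (16 * x) := g3
      _ = 256 * (x * x) := by ring
      _ ≤ 256 * (2 * q * (x * (x / q))) := Nat.mul_le_mul_left _ g5
      _ = _ := by ring
  exact (Nat.lt_of_mul_lt_mul_right g6).le

open Classical in
/-- A hard distribution for the half-clique problem. -/
theorem half_hard (N d c : ℕ) (hd : 1 ≤ d) (hc : 1 ≤ c) (hcd : 4 * c ≤ 4 ^ d)
    (hN : 2 ^ 176 * (Nat.log 2 (c * d) + 1) ^ 16 * (c * d) ^ 8 ≤ N) :
    ∃ (Λ : Type) (_ : Fintype Λ) (_ : Nonempty Λ) (D : Λ → Fin N → Bool),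
      ∀ (n : ℕ) (C : Circuit (Fin N) n) (out : Wire (Fin N) n),
        4 * c * (C.size + C.fanins.sum) ≤ 4 ^ d →
        c * (C.fanins.map (· + 1)).prod ≤
          N / (2 ^ 51 * (Nat.log 2 (c * d) + 1) ^ 4 * (c * d) ^ 2) →
        2 * c * (univ.filter (fun l => (out.eval (D l) (C.vals (D l)) = true ↔
          List.ofFn (D l) ∈ HalfClique))).card < (c + 2) * Fintype.card Λ := by
  have hcd1 : 1 ≤ c * d := Nat.mul_pos hc hd
  obtain ⟨lam, h0, h1, h2⟩ := exists_lam2 (c * d) hcd1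
  obtain ⟨F, _, _, _, hq⟩ := exists_field lam h0
  set q := 2 ^ lam with hqd
  set u := Nat.log 2 (c * d) + 1 with hu
  have hlam : 1 ≤ lam := by omega
  have hd4 : 1024 * (c * d) ≤ q := by
    refine le_trans ?_ h1
    have : 1 ≤ lam * (lam + 1) := Nat.mul_pos hlam (by omega)
    calc 1024 * (c * d) = (1024 * (c * d)) * 1 := by ring
      _ ≤ (1024 * (c * d)) * (lam * (lam + 1)) := Nat.mul_le_mul_left _ this
      _ = _ := by ring
  have hddc : d ≤ c * d := Nat.le_mul_of_pos_left _ hc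
  have hq2 : q ^ 2 ≤ 2 ^ 42 * u ^ 4 * (c * d) ^ 2 := by
    calc q ^ 2 ≤ (2 ^ 21 * u ^ 2 * (c * d)) ^ 2 := Nat.pow_le_pow_left h2 2
      _ = _ := by ring
  obtain ⟨s, hs⟩ : ∃ s, s = Nat.sqrt N := ⟨_, rfl⟩
  have hsN : N < (s + 1) * (s + 1) := by rw [hs]; exact Nat.lt_succ_sqrt N
  have hq4 : 16 * q ^ 4 ≤ s := by
    rw [hs, Nat.le_sqrt]
    calc 16 * q ^ 4 * (16 * q ^ 4) ≤ (16 * (2 ^ 21 * u ^ 2 * (c * d)) ^ 4) *
          (16 * (2 ^ 21 * u ^ 2 * (c * d)) ^ 4) :=
          Nat.mul_le_mul (Nat.mul_le_mul_left _ (Nat.pow_le_pow_left h2 4))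
            (Nat.mul_le_mul_left _ (Nat.pow_le_pow_left h2 4))
      _ = 2 ^ 176 * u ^ 16 * (c * d) ^ 8 := by ring
      _ ≤ N := hN
  have e0 : 1024 ≤ q := by omega
  have e1 : 2 * d ≤ q := by omega
  have e2 : q * (2 * d) ≤ q ^ 2 := by rw [sq]; exact Nat.mul_le_mul_left _ e1
  have e2' : 2 * d * q ≤ q ^ 2 := by rw [mul_comm]; exact e2
  have e8 : q ^ 2 * q ^ 2 = q ^ 4 := by ring
  have e9 : 1024 * q ≤ q ^ 2 := by rw [sq]; exact Nat.mul_le_mul_right _ e0
  have e10 : 1024 * q ^ 2 ≤ q ^ 4 := by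
    rw [← e8]
    apply Nat.mul_le_mul_right
    omega
  have hι : Fintype.card (F × F) = q ^ 2 := by rw [Fintype.card_prod, sq, hq]
  have hCl : Fintype.card (PCl F (2 * d)) = 2 * d + (q * (2 * d) + q) := by
    simp [PCl, hq]
  have hSt : Fintype.card (PSt F (2 * d)) = 2 * d * q + (q * (2 * d) * q ^ 2 + q ^ 2) := by
    simp [PSt, hq, sq]
  obtain ⟨x, hx⟩ : ∃ x, x = s / 8 := ⟨_, rfl⟩
  have hx1 : 8 * x ≤ s := by rw [hx]; exact Nat.mul_div_le s 8
  have hx2 : s < 8 * (x + 1) := by rw [hx]; omega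
  have hxq : q ^ 4 ≤ x := by omega
  have e11 : q * (2 * d) * q ^ 2 ≤ q ^ 4 := by
    rw [← e8]
    exact Nat.mul_le_mul_right _ e2
  have hb : Fintype.card (PSt F (2 * d)) ≤ 2 * q ^ 4 := by
    rw [hSt]; omega
  have hcl : Fintype.card (PCl F (2 * d)) ≤ q ^ 4 := by
    rw [hCl]; omega
  set p := (s + 1) / 2 - (1 + Fintype.card (PCl F (2 * d))) with hp
  have hp1 : 1 + Fintype.card (PCl F (2 * d)) + p = (s + 1) / 2 := by omega
  -- the rectangle
  obtain ⟨A, -, hAc⟩ := Finset.exists_subset_card_eq (s := (univ : Finset (Fin s))) (n := x) (by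
    rw [Finset.card_univ, Fintype.card_fin]; omega)
  obtain ⟨B, hB, hBc⟩ := Finset.exists_subset_card_eq (s := Aᶜ) (n := x) (by
    rw [Finset.card_compl, Fintype.card_fin, hAc]; omega)
  have hAB : Disjoint A B := by
    rw [Finset.disjoint_left]
    intro v hv hv'
    exact (Finset.mem_compl.mp (hB hv')) hv
  set K' := x / q ^ 2 with hK'
  have hq2pos : 0 < q ^ 2 := by positivity
  have hK'1 : q ^ 2 * K' ≤ x := Nat.mul_div_le x (q ^ 2)
  have hq2x : q ^ 2 ≤ x := by omega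
  have hK'pos : 0 < K' := Nat.div_pos hq2x hq2pos
  obtain ⟨ψ, hψA, hψB⟩ := psi_exists (St := PSt F (2 * d)) (ι := F × F) pst x K' p A B hAB
    hAc.ge (by rw [hι, hBc]; exact hK'1) (by rw [hAc, hBc]; omega)
  have hHr : ∀ k w, (rect A B hAB).Adj (ψ (Sum.inl k)) (ψ (Sum.inr (Sum.inl (Sum.inl w)))) :=
    fun k w => Or.inl ⟨hψA k, hψB w⟩
  -- the number of copies
  have hxpos : 0 < x := by omega
  have hM : N / (2 ^ 51 * u ^ 4 * (c * d) ^ 2) ≤ x * K' := by
    refine copies_num hsN hx2 hxpos hq2pos hq2x ?_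
    calc 512 * q ^ 2 ≤ 512 * (2 ^ 42 * u ^ 4 * (c * d) ^ 2) := Nat.mul_le_mul_left _ hq2
      _ = _ := by ring
  have hmpos : 0 < x * K' := Nat.mul_pos hxpos hK'pos
  -- the family
  obtain ⟨Ng, _, _, neg, hneg, havg⟩ := poly_avg (F := F) d lam c hd hc hcd (by rw [hq])
    (by
      rw [hq]
      calc 1024 * lam * (lam + 1) * d * c = 1024 * lam * (lam + 1) * (c * d) := by ring
        _ ≤ _ := h1)
  let e : Fin x × Fin K' ≃ Fin (x * K') := finProdFinEquiv
  let E0 : (Fin x × Fin K' → Set (F × F)) → SimpleGraph (Fin s) :=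
    fun y => gPsi pcls pcmp pst x K' p ψ ⊥ y
  let E : (Fin (x * K') → Set (F × F)) → Fin N → Bool := fun y => word N s (E0 (fun J => y (e J)))
  have hclique : ∀ y, (∃ T : Finset (Fin s), s ≤ 2 * T.card ∧
      ∀ a ∈ T, ∀ b ∈ T, a ≠ b → (E0 y).Adj a b) ↔ ∃ j, fPoly (2 * d) (y j) := by
    intro y
    have h := gPsi_clique (cls := pcls) (cmp := pcmp) (pst_inj (F := F) (d := 2 * d)) hK'pos
      (ψ := ψ) (P := ⊥) (by intro u v h; exact absurd h (by simp)) (by
        rw [hp1]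
        intro c hcl
        rw [SimpleGraph.isNClique_iff] at hcl
        obtain ⟨a, ha, b, hb, hab⟩ := Finset.one_lt_card.mp (show 1 < c.card by omega)
        exact hcl.1 ha hb hab) y
    rw [hp1] at h
    have h' : (∃ T : Finset (Fin s), s ≤ 2 * T.card ∧
        ∀ a ∈ T, ∀ b ∈ T, a ≠ b → (E0 y).Adj a b) ↔
        ∃ c : Finset (Fin s), (E0 y).IsClique (c : Set (Fin s)) ∧ (s + 1) / 2 ≤ c.card := by
      constructor
      · rintro ⟨T, t1, t2⟩
        exact ⟨T, fun a ha b hb hab => t2 a ha b hb hab, by omega⟩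
      · rintro ⟨T, t1, t2⟩
        exact ⟨T, by omega, fun a ha b hb hab => t1 ha hb hab⟩
    rw [h']
    refine h.trans ?_
    constructor
    · rintro ⟨j, hj⟩; exact ⟨j, (csp_iff (by omega) (y j)).mp hj⟩
    · rintro ⟨j, hj⟩; exact ⟨j, (csp_iff (by omega) (y j)).mpr hj⟩
  have hf0 : ¬ fPoly (F := F) (2 * d) ∅ := by
    rintro ⟨c, hc⟩
    exact hc 0
  have hmono : ∀ y y', (∀ j, y j ⊆ y' j) → E y ≤ E y' := by
    intro y y' h
    exact word_mono (gPsi_mono (fun j => h _))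
  have hR : ∀ y : Fin (x * K') → Set (F × F),
      List.ofFn (E y) ∈ HalfClique ↔ ∃ j, fPoly (2 * d) (y j) := by
    intro y
    refine (word_mem' hs (E0 (fun J => y (e J)))).trans ((hclique _).trans ?_)
    constructor
    · rintro ⟨j, hj⟩; exact ⟨e j, hj⟩
    · rintro ⟨j, hj⟩
      exact ⟨e.symm j, by rw [Equiv.apply_symm_apply]; exact hj⟩
  have hadv : ∀ (z : Fin (x * K') → Set (F × F)) (J : Fin (x * K')) (g : Set (F × F) → Bool),
      MComp (blockBase E z J) (4 ^ d / (4 * c)) g →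
      ((univ.filter (fun p : Fin (2 * d) → F => g (grf p : Set (F × F)) = true)).card : ℚ) *
            Fintype.card Ng * (2 * c) ≤
          ((univ.filter (fun ω : Ng => g (neg ω) = true)).card : ℚ) *
            Fintype.card (Fin (2 * d) → F) * (2 * c) +
            Fintype.card Ng * Fintype.card (Fin (2 * d) → F) := by
    intro z J g hg
    refine havg (blockBase E z J) ?_ _ g hg (Nat.mul_div_le _ _)
    intro b hb
    have hb' : b ∈ blockBase (fun y => inp (fun (l : Fin N) G => word N s G l)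
        (gPsi pcls pcmp pst x K' p ψ ⊥ y)) (fun J => z (e J)) (e.symm J) := by
      obtain ⟨b', hb', rfl⟩ := hb
      refine ⟨b', hb', ?_⟩
      funext X
      show b' (word N s (E0 (fun q => Function.update z J X (e q)))) = _
      rw [update_equiv e z J X]
      rfl
    obtain ⟨T, hT1, hT2⟩ := block_narrow hHr (fun (l : Fin N) G => word N s G l) 1
      (fun l => word_free N s _ l) (fun J => z (e J)) (e.symm J) b hb'
    exact ⟨T, by omega, hT2⟩
  obtain ⟨Λ, i1, i2, D, hD⟩ := hard_dist (x * K') hmpos (fun p : Fin (2 * d) → F => (grf p : Set (F × F)))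
    neg c (4 ^ d / (4 * c)) E hmono (fPoly (2 * d)) (fun p => ⟨p, fun a => by
      rw [Finset.mem_coe, mem_grf]⟩) hneg hf0 (fun x => List.ofFn x ∈ HalfClique) hR hadv
  refine ⟨Λ, i1, i2, D, fun n C out hsz hK => ?_⟩
  refine hD n C out ?_ (hK.trans hM)
  rw [Nat.le_div_iff_mul_le (by omega)]
  linarith

end Pool.Agent.H560R2
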