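import Pool.Agent.H560R2.Eth7

/-! The rank of submatrices is bisubmodular. -/

set_option linter.unusedSectionVars false
set_option linter.unusedVariables false

namespace Pool.Agent.H560R2

open Finset

section

variable {K : Type} [Field K] {X Y : Type} [Fintype X] [Fintype Y] [DecidableEq X] [DecidableEq Y]

lemma finrank_map_ker {E : Type} [AddCommGroup E] [Module K E] [FiniteDimensional K E]
    (π : E →ₗ[K] E) (T : Submodule K E) (h : LinearMap.ker π ≤ T) :
    Module.finrank K (T.map π) + Module.finrank K (LinearMap.ker π) = Module.finrank K T := by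
  have h1 := LinearMap.finrank_range_add_finrank_ker (π.domRestrict T)
  rw [LinearMap.range_domRestrict, LinearMap.ker_domRestrict] at h1
  rw [← h1]
  congr 1
  exact (LinearEquiv.finrank_eq (Submodule.comapSubtypeEquivOfLe h)).symm

/-- restriction to the columns in `V` -/
def pr' (V : Y → Bool) : (Y → K) →ₗ[K] (Y → K) :=
  LinearMap.pi (fun y => if V y = true then LinearMap.proj y else 0)

lemma pr'_apply (V : Y → Bool) (v : Y → K) (y : Y) :
    pr' V v y = if V y = true then v y else 0 := by
  unfold pr'
  rw [LinearMap.pi_apply]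
  split_ifs <;> simp

/-- the vectors that vanish on `V` -/
def Lk (K : Type) [Field K] {Y : Type} (V : Y → Bool) : Submodule K (Y → K) where
  carrier := {v | ∀ y, V y = true → v y = 0}
  add_mem' := by
    intro a b ha hb y hy
    rw [Pi.add_apply, ha y hy, hb y hy, add_zero]
  zero_mem' := fun y _ => rfl
  smul_mem' := by
    intro c a ha y hy
    rw [Pi.smul_apply, ha y hy, smul_zero]

lemma mem_Lk {V : Y → Bool} {v : Y → K} : v ∈ Lk K V ↔ ∀ y, V y = true → v y = 0 := Iff.rfl

lemma ker_pr' (V : Y → Bool) : LinearMap.ker (pr' (K := K) V) = Lk K V := by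
  ext v
  rw [LinearMap.mem_ker, mem_Lk]
  constructor
  · intro h y hy
    have := congrFun h y
    rw [pr'_apply, if_pos hy] at this
    exact this
  · intro h
    funext y
    rw [pr'_apply]
    split_ifs with hy
    · exact h y hy
    · rfl

/-- the rows in `U` and all vectors that vanish on `V` -/
def Tk (A : Matrix X Y K) (U : X → Bool) (V : Y → Bool) : Submodule K (Y → K) :=
  Submodule.span K (A '' {x | U x = true}) ⊔ Lk K V

lemma rank_Tk (A : Matrix X Y K) (U : X → Bool) (V : Y → Bool) :
    (msk A U V).rank + Module.finrank K (Lk K V) = Module.finrank K (Tk A U V) := by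
  have h1 := finrank_map_ker (pr' (K := K) V) (Tk A U V) (by
    rw [ker_pr']; exact le_sup_right)
  rw [ker_pr'] at h1
  rw [← h1]
  congr 1
  rw [Matrix.rank_eq_finrank_span_row]
  have e : (Tk A U V).map (pr' V) = Submodule.span K (Set.range (msk A U V).row) := by
    unfold Tk
    rw [Submodule.map_sup, Submodule.map_span]
    have e1 : (Lk K V).map (pr' V) = ⊥ := by
      rw [← ker_pr', eq_bot_iff]
      rintro _ ⟨v, hv, rfl⟩
      rw [Submodule.mem_bot]
      exact LinearMap.mem_ker.mp hv
    rw [e1, sup_bot_eq]
    apply le_antisymm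
    · rw [Submodule.span_le]
      rintro _ ⟨_, ⟨x, hx, rfl⟩, rfl⟩
      apply Submodule.subset_span
      refine ⟨x, ?_⟩
      funext y
      rw [pr'_apply]
      simp only [Set.mem_ofPred_eq] at hx
      simp only [Matrix.row, msk, Matrix.of_apply, hx, true_and]
    · rw [Submodule.span_le]
      rintro _ ⟨x, rfl⟩
      by_cases hx : U x = true
      · apply Submodule.subset_span
        refine ⟨_, ⟨x, hx, rfl⟩, ?_⟩
        funext y
        rw [pr'_apply]
        simp only [Matrix.row, msk, Matrix.of_apply, hx, true_and]
      · have : (msk A U V).row x = 0 := by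
          funext y
          simp [Matrix.row, msk, hx]
        rw [this]
        exact Submodule.zero_mem _
  rw [e]

/-- Bisubmodularity of the rank. -/
theorem rank_bisub (A : Matrix X Y K) (U U' : X → Bool) (V V' : Y → Bool) :
    (msk A (fun x => U x && U' x) (fun y => V y || V' y)).rank +
      (msk A (fun x => U x || U' x) (fun y => V y && V' y)).rank ≤
      (msk A U V).rank + (msk A U' V').rank := by
  have h1 := rank_Tk A (fun x => U x && U' x) (fun y => V y || V' y)
  have h2 := rank_Tk A (fun x => U x || U' x) (fun y => V y && V' y)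
  have h3 := rank_Tk A U V
  have h4 := rank_Tk A U' V'
  have l1 : Lk K (fun y => V y || V' y) = Lk K V ⊓ Lk K V' := by
    ext v
    rw [Submodule.mem_inf, mem_Lk, mem_Lk, mem_Lk]
    constructor
    · intro h
      exact ⟨fun y hy => h y (by simp [hy]), fun y hy => h y (by simp [hy])⟩
    · rintro ⟨ha, hb⟩ y hy
      rcases Bool.or_eq_true_iff.mp hy with hy | hy
      · exact ha y hy
      · exact hb y hy
  have l2 : Lk K (fun y => V y && V' y) = Lk K V ⊔ Lk K V' := by
    apply le_antisymm
    · intro v hv
      rw [Submodule.mem_sup]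
      refine ⟨fun y => if V y = true then 0 else v y, ?_, fun y => if V y = true then v y else 0,
        ?_, ?_⟩
      · intro y hy
        simp only [hy, if_true]
      · intro y hy
        beta_reduce
        by_cases hV : V y = true
        · rw [if_pos hV]
          exact hv y (by simp [hV, hy])
        · rw [if_neg hV]
      · funext y
        rw [Pi.add_apply]
        split_ifs <;> simp
    · apply sup_le
      · intro v hv y hy
        rw [Bool.and_eq_true] at hy
        exact hv y hy.1
      · intro v hv y hy
        rw [Bool.and_eq_true] at hy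
        exact hv y hy.2
  have t1 : Tk A (fun x => U x && U' x) (fun y => V y || V' y) ≤ Tk A U V ⊓ Tk A U' V' := by
    unfold Tk
    rw [l1]
    apply sup_le
    · rw [Submodule.span_le]
      rintro _ ⟨x, hx, rfl⟩
      have hx' : (U x && U' x) = true := hx
      rw [Bool.and_eq_true] at hx'
      exact ⟨Submodule.mem_sup_left (Submodule.subset_span ⟨x, hx'.1, rfl⟩),
        Submodule.mem_sup_left (Submodule.subset_span ⟨x, hx'.2, rfl⟩)⟩
    · exact inf_le_inf le_sup_right le_sup_right
  have t2 : Tk A (fun x => U x || U' x) (fun y => V y && V' y) ≤ Tk A U V ⊔ Tk A U' V' := by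
    unfold Tk
    rw [l2]
    apply sup_le
    · rw [Submodule.span_le]
      rintro _ ⟨x, hx, rfl⟩
      have hx' : (U x || U' x) = true := hx
      rcases Bool.or_eq_true_iff.mp hx' with hx' | hx'
      · exact Submodule.mem_sup_left (Submodule.mem_sup_left
          (Submodule.subset_span ⟨x, hx', rfl⟩))
      · exact Submodule.mem_sup_right (Submodule.mem_sup_left
          (Submodule.subset_span ⟨x, hx', rfl⟩))
    · exact sup_le_sup le_sup_right le_sup_right
  have m1 := Submodule.finrank_mono t1
  have m2 := Submodule.finrank_mono t2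
  have m3 := Submodule.finrank_sup_add_finrank_inf_eq (Tk A U V) (Tk A U' V')
  have m4 := Submodule.finrank_sup_add_finrank_inf_eq (Lk K V) (Lk K V')
  rw [l1] at h1
  rw [l2] at h2
  omega

/-- covering by a list of functions -/
lemma rank_cover (A : Matrix X Y K) {Z : Type} (α : X → Z) (β : Y → Z) (P : List (Z → Bool)) :
    ∀ (U : X → Bool) (V : Y → Bool), (∀ x, U x = true → ∃ g ∈ P, g (α x) = true) →
      (∀ y, V y = true → ∀ g ∈ P, g (β y) = false) → (msk A U V).rank ≤
      (P.map (fun g => (msk A (fun x => g (α x)) (fun y => !(g (β y)))).rank)).sum := by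
  induction P with
  | nil =>
    intro U V hU hV
    rw [msk_empty A U V (fun x y h1 _ => by
      obtain ⟨g, hg, -⟩ := hU x h1
      exact absurd hg (by simp))]
    exact Nat.zero_le _
  | cons f P ih =>
    intro U V hU hV
    have hsplit : msk A U V = msk A (fun x => U x && f (α x)) V +
        msk A (fun x => U x && !(f (α x))) V := by
      ext x y
      simp only [msk, Matrix.of_apply, Matrix.add_apply]
      by_cases h1 : U x = true <;> by_cases h2 : V y = true <;>
        by_cases h3 : f (α x) = true <;> simp [h1, h2, h3]
    rw [hsplit, List.map_cons, List.sum_cons]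
    refine (rk_add _ _).trans (Nat.add_le_add ?_ ?_)
    · refine rk_msk_le A _ _ _ _ (fun x hx => ?_) (fun y hy => ?_)
      · rw [Bool.and_eq_true] at hx
        exact hx.2
      · rw [hV y hy f List.mem_cons_self]
        rfl
    · refine ih _ _ (fun x hx => ?_) (fun y hy g hg => hV y hy g (List.mem_cons_of_mem _ hg))
      rw [Bool.and_eq_true, Bool.not_eq_true'] at hx
      obtain ⟨g, hg, hgx⟩ := hU x hx.1
      rcases List.mem_cons.mp hg with rfl | hg
      · rw [hx.2] at hgx
        exact absurd hgx (by simp)
      · exact ⟨g, hg, hgx⟩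

end

end Pool.Agent.H560R2
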