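import Pool.Agent.H560R2.Cmp1

/-! Comparator circuits with few arbitrary gates. -/

set_option linter.unusedSectionVars false
set_option linter.unusedVariables false

namespace Pool.Agent.H560R2

open Finset

/-- Gates of a circuit with `W` wires: `cmp i j` compares the wires `i` and `j`, and `free S op`
applies an arbitrary function `op` to the wires in `S` (for instance NOT to one wire). -/
inductive CG (W : ℕ) : Type
  | cmp (i j : Fin W) : CG W
  | free (S : Finset (Fin W)) (op : ({k // k ∈ S} → Bool) → {k // k ∈ S} → Bool) : CG W

namespace CG

variable {W : ℕ}

/-- The action of a gate on the values of the wires: a comparator puts the AND of its two inputs on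
the wire `i` and their OR on the wire `j`. -/
def app : CG W → (Fin W → Bool) → Fin W → Bool
  | cmp i j, v => fun k => if k = i then v i && v j else if k = j then v i || v j else v k
  | free S op, v => fun k => if h : k ∈ S then op (fun l => v l.1) ⟨k, h⟩ else v k

/-- The action of a list of gates, in this order. -/
def run : List (CG W) → (Fin W → Bool) → Fin W → Bool
  | [], v => v
  | g :: L, v => run L (g.app v)

/-- the bits that enter the arbitrary gates -/
def probes : List (CG W) → (Fin W → Bool) → List (Fin W → Bool)
  | [], _ => []
  | cmp i j :: L, v => probes L ((cmp i j).app v)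
  | free S op :: L, v => (fun k => decide (k ∈ S) && v k) :: probes L ((free S op).app v)

/-- The product over all gates `free S op` of the numbers `|S| + 1`, for instance `2 ^ r` if these
are `r` NOT gates. -/
def prod : List (CG W) → ℕ
  | [] => 1
  | cmp _ _ :: L => prod L
  | free S _ :: L => (S.card + 1) * prod L

/-- a number that increases if the probes change -/
def rnk : List (CG W) → (Fin W → Bool) → ℕ
  | [], _ => 0
  | cmp i j :: L, v => rnk L ((cmp i j).app v)
  | free S op :: L, v => (S.filter (fun k => v k = true)).card * prod L +
      rnk L ((free S op).app v)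

lemma rnk_lt (L : List (CG W)) : ∀ v, rnk L v < prod L := by
  induction L with
  | nil => intro v; simp [rnk, prod]
  | cons g L ih =>
    intro v
    rcases g with ⟨i, j⟩ | ⟨S, op⟩
    · exact ih _
    · simp only [rnk, prod]
      have h1 := ih ((free S op).app v)
      have h2 : (S.filter (fun k => v k = true)).card ≤ S.card := Finset.card_filter_le _ _
      have h3 := Nat.mul_le_mul_right (prod L) h2
      have h4 : (S.card + 1) * prod L = S.card * prod L + prod L := by ring
      omega

lemma cmp_mono (i j : Fin W) {v v' : Fin W → Bool} (h : v ≤ v') :
    (cmp i j).app v ≤ (cmp i j).app v' := by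
  intro k
  simp only [app]
  split_ifs
  · exact Pool.Agent.H520R2.NM.band_mono (h i) (h j)
  · exact Pool.Agent.H520R2.NM.bor_mono (h i) (h j)
  · exact h k

lemma free_mono {S : Finset (Fin W)} (op : ({k // k ∈ S} → Bool) → {k // k ∈ S} → Bool)
    {v v' : Fin W → Bool} (h : v ≤ v') (hS : ∀ k ∈ S, v k = v' k) :
    (free S op).app v ≤ (free S op).app v' := by
  intro k
  simp only [app]
  have : (fun l : {k // k ∈ S} => v l.1) = fun l => v' l.1 := funext fun l => hS l.1 l.2
  rw [this]
  split_ifs
  · exact le_rfl
  · exact h k

lemma rnk_mono (L : List (CG W)) : ∀ v v', v ≤ v' →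
    probes L v = probes L v' ∨ rnk L v < rnk L v' := by
  induction L with
  | nil => intro v v' _; exact Or.inl rfl
  | cons g L ih =>
    intro v v' hv
    rcases g with ⟨i, j⟩ | ⟨S, op⟩
    · exact ih _ _ (cmp_mono i j hv)
    · by_cases hS : ∀ k ∈ S, v k = v' k
      · have e1 : (fun k => decide (k ∈ S) && v k) = fun k => decide (k ∈ S) && v' k := by
          funext k
          by_cases hk : k ∈ S
          · rw [hS k hk]
          · simp [hk]
        have e2 : S.filter (fun k => v k = true) = S.filter (fun k => v' k = true) := by
          apply Finset.filter_congr
          intro k hk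
          rw [hS k hk]
        rcases ih _ _ (free_mono op hv hS) with h | h
        · left
          simp only [probes, e1, h]
        · right
          simp only [rnk, e2]
          omega
      · right
        push Not at hS
        obtain ⟨k, hk, hne⟩ := hS
        have hlt : (S.filter (fun k => v k = true)).card < (S.filter (fun k => v' k = true)).card := by
          apply Finset.card_lt_card
          rw [Finset.ssubset_iff_of_subset]
          · refine ⟨k, ?_, ?_⟩
            · rw [Finset.mem_filter]
              refine ⟨hk, ?_⟩
              by_contra hc
              rw [Bool.not_eq_true] at hc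
              have := hv k
              rw [hc] at this
              exact hne (by rw [hc]; exact le_bot_iff.mp this)
            · rw [Finset.mem_filter]
              rintro ⟨-, hc⟩
              have := hv k
              rw [hc] at this
              exact hne (by rw [hc]; exact (top_le_iff.mp this).symm)
          · intro l hl
            rw [Finset.mem_filter] at hl ⊢
            refine ⟨hl.1, ?_⟩
            have := hv l
            rw [hl.2] at this
            exact top_le_iff.mp this
        simp only [rnk]
        have h1 := rnk_lt L ((free S op).app v)
        have h2 := Nat.mul_le_mul_right (prod L) hlt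
        have h3 : ((S.filter (fun k => v k = true)).card + 1) * prod L =
          (S.filter (fun k => v k = true)).card * prod L + prod L := by ring
        rw [Nat.succ_eq_add_one, h3] at h2
        omega

/-- Along a chain whose probes change at every step. -/
theorem chain_lt (L : List (CG W)) (m : ℕ) (v : ℕ → Fin W → Bool)
    (hv : ∀ i < m, v i ≤ v (i + 1)) (hp : ∀ i < m, probes L (v i) ≠ probes L (v (i + 1))) :
    m < prod L := by
  have h : ∀ i ≤ m, i ≤ rnk L (v i) := by
    intro i
    induction i with
    | zero => intro _; exact Nat.zero_le _
    | succ i ih =>
      intro hi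
      have h1 := ih (by omega)
      rcases rnk_mono L _ _ (hv i (by omega)) with h2 | h2
      · exact absurd h2 (hp i (by omega))
      · omega
  have h1 := h m le_rfl
  have h2 := rnk_lt L (v m)
  omega

variable {Z : Type}

/-- the tapped functions and the output of the circuit with frozen arbitrary gates -/
noncomputable def fz (o : Fin W) : List (CG W) → (Fin W → Bool) → (Fin W → Z → Bool) →
    List (Z → Bool)
  | [], _, U => [U o]
  | cmp i j :: L, v0, U => fz o L ((cmp i j).app v0) (fun k => if k = i then
      (fun z => U i z && U j z) else if k = j then (fun z => U i z || U j z) else U k)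
  | free S op :: L, v0, U => (S.filter (fun k => v0 k = false)).toList.map U ++
      fz o L ((free S op).app v0) (fun k => if k ∈ S then (fun _ => (free S op).app v0 k) else U k)

lemma fz_spec (o : Fin W) (L : List (CG W)) : ∀ (v0 : Fin W → Bool) (U : Fin W → Z → Bool) (z : Z),
    (∀ k, v0 k ≤ U k z) →
    (probes L (fun k => U k z) = probes L v0 →
      ((∃ g ∈ fz o L v0 U, g z = true) ↔ run L (fun k => U k z) o = true)) ∧
    (probes L (fun k => U k z) ≠ probes L v0 → ∃ g ∈ fz o L v0 U, g z = true) := by
  induction L with
  | nil =>
    intro v0 U z _
    refine ⟨fun _ => ?_, fun h => absurd rfl h⟩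
    simp [fz, run]
  | cons g L ih =>
    intro v0 U z hv
    rcases g with ⟨i, j⟩ | ⟨S, op⟩
    · have e : (fun k => (if k = i then (fun z => U i z && U j z) else if k = j then
          (fun z => U i z || U j z) else U k) z) = (cmp i j).app (fun k => U k z) := by
        funext k
        simp only [app]
        split_ifs <;> rfl
      have := ih ((cmp i j).app v0) (fun k => if k = i then (fun z => U i z && U j z) else
        if k = j then (fun z => U i z || U j z) else U k) z (fun k => by
          have h1 := congrFun e k
          rw [h1]
          exact cmp_mono i j (v := v0) (v' := fun k => U k z) hv k)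
      rw [e] at this
      exact this
    · by_cases hS : ∀ k ∈ S, U k z = v0 k
      · have e : (fun k => (if k ∈ S then (fun _ => (free S op).app v0 k) else U k) z) =
            (free S op).app (fun k => U k z) := by
          funext k
          have h1 : (fun l : {k // k ∈ S} => U l.1 z) = fun l => v0 l.1 :=
            funext fun l => hS l.1 l.2
          by_cases hk : k ∈ S
          · simp only [app, if_pos hk, dif_pos hk, h1]
          · simp only [app, if_neg hk, dif_neg hk]
        have := ih ((free S op).app v0) (fun k => if k ∈ S then
          (fun _ => (free S op).app v0 k) else U k) z (fun k => by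
            by_cases hk : k ∈ S
            · rw [if_pos hk]
            · rw [if_neg hk]
              simp only [app, dif_neg hk]
              exact hv k)
        rw [e] at this
        have hhead : (fun k => decide (k ∈ S) && U k z) = fun k => decide (k ∈ S) && v0 k := by
          funext k
          by_cases hk : k ∈ S
          · rw [hS k hk]
          · simp [hk]
        have hpr : probes (free S op :: L) (fun k => U k z) = probes (free S op :: L) v0 ↔
            probes L ((free S op).app (fun k => U k z)) = probes L ((free S op).app v0) := by
          simp only [probes, hhead, List.cons.injEq, true_and]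
        have htap : (∃ g ∈ fz o (free S op :: L) v0 U, g z = true) ↔
            ∃ g ∈ fz o L ((free S op).app v0) (fun k => if k ∈ S then
              (fun _ => (free S op).app v0 k) else U k), g z = true := by
          constructor
          · rintro ⟨g, hg, hgz⟩
            simp only [fz, List.mem_append, List.mem_map, Finset.mem_toList,
              Finset.mem_filter] at hg
            rcases hg with ⟨k, ⟨hk, hk0⟩, rfl⟩ | hg
            · rw [hS k hk, hk0] at hgz
              exact absurd hgz (by simp)
            · exact ⟨g, hg, hgz⟩
          · rintro ⟨g, hg, hgz⟩
            exact ⟨g, List.mem_append_right _ hg, hgz⟩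
        rw [htap, Ne, hpr]
        exact this
      · push Not at hS
        obtain ⟨k, hk, hne⟩ := hS
        have hk0 : v0 k = false := by
          by_contra hc
          rw [Bool.not_eq_false] at hc
          have := hv k
          rw [hc] at this
          exact hne (by rw [hc]; exact top_le_iff.mp this)
        have hk1 : U k z = true := by
          rw [hk0] at hne
          simpa using hne
        have hex : ∃ g ∈ fz o (free S op :: L) v0 U, g z = true := by
          refine ⟨U k, List.mem_append_left _ (List.mem_map.mpr ⟨k, ?_, rfl⟩), hk1⟩
          rw [Finset.mem_toList, Finset.mem_filter]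
          exact ⟨hk, hk0⟩
        refine ⟨fun h => ?_, fun _ => hex⟩
        simp only [probes, List.cons.injEq] at h
        have := congrFun h.1 k
        simp only [hk, decide_true, Bool.true_and] at this
        exact absurd this hne

section

variable {K : Type} [Field K] {X Y : Type} [Fintype X] [Fintype Y] [DecidableEq X] [DecidableEq Y]
  {A : Matrix X Y K} {α : X → Z} {β : Y → Z}

/-- the rank measure of a function -/
noncomputable def mu (A : Matrix X Y K) (α : X → Z) (β : Y → Z) (g : Z → Bool) : ℕ :=
  (msk A (fun x => g (α x)) (fun y => !(g (β y)))).rank

lemma mu_const (c : Bool) : mu A α β (fun _ => c) = 0 := by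
  unfold mu
  apply msk_empty
  intro x y h1 h2
  simp only [h1, Bool.not_true] at h2
  exact absurd h2 (by simp)

lemma mu_bisub (f g : Z → Bool) : mu A α β (fun z => f z && g z) + mu A α β (fun z => f z || g z) ≤
    mu A α β f + mu A α β g := by
  unfold mu
  have := rank_bisub A (fun x => f (α x)) (fun x => g (α x)) (fun y => !(f (β y)))
    (fun y => !(g (β y)))
  simp only [Bool.not_and, Bool.not_or]
  exact this

lemma fz_rank (o : Fin W) (L : List (CG W)) : ∀ (v0 : Fin W → Bool) (U : Fin W → Z → Bool),
    ((fz o L v0 U).map (mu A α β)).sum ≤ ∑ k, mu A α β (U k) := by
  induction L with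
  | nil =>
    intro v0 U
    simp only [fz, List.map_cons, List.map_nil, List.sum_cons, List.sum_nil, add_zero]
    exact Finset.single_le_sum (f := fun k => mu A α β (U k)) (fun _ _ => Nat.zero_le _)
      (Finset.mem_univ o)
  | cons g L ih =>
    intro v0 U
    rcases g with ⟨i, j⟩ | ⟨S, op⟩
    · refine (ih _ _).trans ?_
      by_cases hij : i = j
      · subst hij
        apply Finset.sum_le_sum
        intro k _
        by_cases hk : k = i
        · subst hk
          simp only [if_true, Bool.and_self]
          exact le_rfl
        · simp only [if_neg hk]
          exact le_rfl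
      · have hj : j ∈ univ.erase i := Finset.mem_erase.mpr ⟨fun h => hij h.symm, mem_univ _⟩
        rw [← Finset.add_sum_erase univ _ (mem_univ i), ← Finset.add_sum_erase _ _ hj]
        rw [← Finset.add_sum_erase univ (fun k => mu A α β (U k)) (mem_univ i),
          ← Finset.add_sum_erase _ (fun k => mu A α β (U k)) hj]
        have h1 := mu_bisub (A := A) (α := α) (β := β) (U i) (U j)
        have h2 : ∑ k ∈ (univ.erase i).erase j, mu A α β (if k = i then
            (fun z => U i z && U j z) else if k = j then (fun z => U i z || U j z) else U k) =
            ∑ k ∈ (univ.erase i).erase j, mu A α β (U k) := by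
          apply Finset.sum_congr rfl
          intro k hk
          rw [Finset.mem_erase, Finset.mem_erase] at hk
          rw [if_neg hk.2.1, if_neg hk.1]
        rw [h2]
        simp only [if_true, if_neg (fun h : j = i => hij h.symm)]
        omega
    · simp only [fz, List.map_append, List.sum_append, List.map_map]
      have h1 := ih ((free S op).app v0) (fun k => if k ∈ S then
        (fun _ => (free S op).app v0 k) else U k)
      have h2 : ((S.filter (fun k => v0 k = false)).toList.map (mu A α β ∘ U)).sum ≤
          ∑ k ∈ S, mu A α β (U k) := by
        rw [Finset.sum_map_toList]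
        exact Finset.sum_le_sum_of_subset (Finset.filter_subset _ _)
      have h3 : ∑ k, mu A α β (if k ∈ S then (fun _ => (free S op).app v0 k) else U k) =
          ∑ k ∈ Sᶜ, mu A α β (U k) := by
        rw [← Finset.sum_add_sum_compl S]
        have e1 : ∑ k ∈ S, mu A α β (if k ∈ S then (fun _ => (free S op).app v0 k) else U k) =
            0 := by
          apply Finset.sum_eq_zero
          intro k hk
          rw [if_pos hk, mu_const]
        rw [e1, zero_add]
        apply Finset.sum_congr rfl
        intro k hk
        rw [Finset.mem_compl] at hk
        rw [if_neg hk]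
      rw [h3] at h1
      have h4 := Finset.sum_add_sum_compl S (fun k => mu A α β (U k))
      omega

end

end CG

/-- Comparator circuits with few arbitrary gates have many wires. -/
theorem Blk.comparator {K : Type} [Field K] {s M : ℕ} {I : Type} {F : (I → Bool) → Prop}
    (h : Blk K s M F) {W : ℕ} (L : List (CG W)) (o : Fin W) (ini : (I → Bool) → Fin W → Bool)
    (hini : ∀ k, (∃ c, ∀ x, ini x k = c) ∨ ∃ i, ∀ x, ini x k = x i)
    (hF : ∀ x, CG.run L (ini x) o = true ↔ F x) (hM : CG.prod L ≤ M) : 2 ^ s ≤ W := by
  classical
  obtain ⟨Ω, f, loc, ⟨X, Y, _, _, _, _, A, α, β, r, hr, a1, a2, a3, a4⟩, hbot, hfl⟩ := h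
  have hmono : ∀ x x' : I → Bool, x ≤ x' → ini x ≤ ini x' := by
    intro x x' hx k
    rcases hini k with ⟨c, hc⟩ | ⟨i, hi⟩
    · rw [hc, hc]
    · rw [hi, hi]
      exact hx i
  by_contra hcon
  obtain ⟨Y', k1, k2, k3⟩ := chain_core (κ := Fin M) (m := M)
    (fun X => ¬ f X) (fun _ => false) hbot id (fun _ _ h => h)
    (fun Y' => CG.probes L (ini (fil loc Y'))) (by
      intro y J hy hyJ
      by_contra hcon2
      push Not at hcon2
      let v0 : Fin W → Bool := ini (fil loc y)
      let U : Fin W → (Ω → Bool) → Bool := fun k z => ini (fil loc (Function.update y J z)) k
      have hle : ∀ z k, v0 k ≤ U k z := fun z k => hmono _ _ (fil_le loc y J z hyJ) k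
      have hcov := rank_cover A α β (CG.fz o L v0 U) (fun _ => true) (fun _ => true)
        (by
          intro x _
          have hs := CG.fz_spec o L v0 U (α x) (hle _)
          by_cases hp : CG.probes L (fun k => U k (α x)) = CG.probes L v0
          · refine (hs.1 hp).mpr ?_
            exact (hF _).mpr ((hfl _).mpr ⟨J, by rw [Function.update_self]; exact a1 x⟩)
          · exact hs.2 hp)
        (by
          intro y' _ g hg
          have hs := CG.fz_spec o L v0 U (β y') (hle _)
          have hp : CG.probes L (fun k => U k (β y')) = CG.probes L v0 := hcon2 _ (a2 y')
          by_contra hc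
          rw [Bool.not_eq_false] at hc
          have := (hs.1 hp).mp ⟨g, hg, hc⟩
          obtain ⟨J', hJ'⟩ := (hfl _).mp ((hF _).mp this)
          by_cases hJ : J' = J
          · subst hJ
            rw [Function.update_self] at hJ'
            exact a2 y' hJ'
          · rw [Function.update_of_ne hJ] at hJ'
            exact hy J' hJ')
      rw [msk_true] at hcov
      have h5 := CG.fz_rank (A := A) (α := α) (β := β) o L v0 U
      have h6 : ∑ k, CG.mu A α β (U k) ≤ W * r := by
        refine (Finset.sum_le_card_nsmul _ _ r ?_).trans (by simp)
        intro k _
        rcases hini k with ⟨c, hc⟩ | ⟨i, hi⟩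
        · have : U k = fun _ => c := funext fun z => hc _
          rw [this, CG.mu_const]
          exact Nat.zero_le _
        · rcases fil_coord loc y J i with ⟨c, hc⟩ | ⟨ω, hω⟩
          · have : U k = fun _ => c := funext fun z => (hi _).trans (hc z)
            rw [this, CG.mu_const]
            exact Nat.zero_le _
          · have : U k = fun z => z ω := funext fun z => (hi _).trans (hω z)
            rw [this]
            have := a3 ω (fun x => α x ω) (fun y => !(β y ω)) (fun x hx => hx) (fun y hy => by
              simpa using hy)
            rw [one_mul] at this
            exact this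
      have h7 : A.rank ≤ W * r := hcov.trans (h5.trans h6)
      exact hcon (Nat.le_of_mul_le_mul_right (a4.trans h7) hr))
  have := CG.chain_lt L M (fun i => ini (fil loc (Y' i))) (fun i hi => by
    obtain ⟨J, X', hJ, hX⟩ := k1 i hi
    apply hmono
    rw [hX]
    exact fil_le loc (Y' i) J X' hJ) k2
  omega

end Pool.Agent.H560R2
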