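import Pool.Agent.H560R2.Cmp2

/-! Systems of linear equations over the field with two elements. -/

set_option linter.unusedSectionVars false
set_option linter.unusedVariables false

namespace Pool.Agent.H560R2

open Finset

/-- solvability of the selected equations -/
def solv {N m : ℕ} (G : Fin m → (Fin 8 → Fin N) × ZMod 2) (x : Fin m → Bool) : Prop :=
  ∃ a : Fin N → ZMod 2, ∀ i, x i = true → ∑ j, a ((G i).1 j) = (G i).2

lemma not_vio_iff (b : Bool) (τ : Fin 8 → Bool) : ¬ vio b τ ↔
    ∑ j, (if τ j = true then (1 : ZMod 2) else 0) = if b = true then 1 else 0 := by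
  unfold vio
  rw [Nat.not_odd_iff_even, even_iff_two_dvd, ← ZMod.natCast_eq_zero_iff]
  have h1 : ∑ j, (if τ j = true then (1 : ZMod 2) else 0) =
      ((univ.filter (fun j => τ j = true)).card : ZMod 2) := by
    rw [Finset.card_filter]
    push_cast
    rfl
  rw [h1]
  push_cast
  have h2 : ∀ u v : ZMod 2, u + v = 0 ↔ v = u := by decide
  rw [h2]

/-- sparse systems with many hard blocks -/
theorem lin_blocks : ∃ c : ℕ, 0 < c ∧ ∀ N M : ℕ, 0 < M → c * M ≤ N →
    ∃ (m s : ℕ) (G : Fin m → (Fin 8 → Fin N) × ZMod 2), m ≤ N ∧ N ≤ c * M * (s + 1) ∧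
      ∀ (K : Type) [Field K], (2 : K) ≠ 0 →
        Blk K s M (fun x : Fin m → Bool => ¬ solv G x) := by
  obtain ⟨c, hc, h⟩ := xor_blocks
  refine ⟨c, hc, fun N M hM hN => ?_⟩
  obtain ⟨m, s, G, h1, h2, h3⟩ := h N M hM hN
  refine ⟨m, s, fun i => ((G i).1, if (G i).2 = true then 1 else 0), h1, h2, fun K _ hK => ?_⟩
  have e : (fun x : Fin m → Bool => ¬ ∃ a : Fin N → Bool, ∀ i, x i = true →
      ¬ vio (G i).2 (fun j => a ((G i).1 j))) = fun x : Fin m → Bool => ¬ solv
        (fun i => ((G i).1, if (G i).2 = true then (1 : ZMod 2) else 0)) x := by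
    funext x
    rw [eq_iff_iff, not_iff_not]
    unfold solv
    constructor
    · rintro ⟨a, ha⟩
      refine ⟨fun v => if a v = true then 1 else 0, fun i hi => ?_⟩
      exact (not_vio_iff _ _).mp (ha i hi)
    · rintro ⟨a, ha⟩
      refine ⟨fun v => decide (a v = 1), fun i hi => ?_⟩
      rw [not_vio_iff]
      refine Eq.trans ?_ (ha i hi)
      apply Finset.sum_congr rfl
      intro j _
      have : ∀ u : ZMod 2, (if decide (u = 1) = true then (1 : ZMod 2) else 0) = u := by decide
      exact this _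
  have := h3 K hK
  rw [e] at this
  exact this

/-- the rows of the span program: the coefficients and the right hand side -/
def lrow {N m : ℕ} (G : Fin m → (Fin 8 → Fin N) × ZMod 2) (i : Fin m) : Fin (N + 1) → ZMod 2 :=
  Fin.snoc (α := fun _ => ZMod 2) (fun v => ∑ j, if (G i).1 j = v then 1 else 0) (G i).2

/-- the target -/
def ltgt (N : ℕ) : Fin (N + 1) → ZMod 2 := Fin.snoc (α := fun _ => ZMod 2) (fun _ => 0) 1

/-- A linear span program over the field with two elements. -/
theorem solv_span {N m : ℕ} (G : Fin m → (Fin 8 → Fin N) × ZMod 2) (x : Fin m → Bool) :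
    ltgt N ∈ Submodule.span (ZMod 2) (lrow G '' {i | x i = true}) ↔ ¬ solv G x := by
  classical
  have hdot : ∀ (a : Fin N → ZMod 2) (i : Fin m), ∑ v, (∑ j, if (G i).1 j = v then
      (1 : ZMod 2) else 0) * a v = ∑ j, a ((G i).1 j) := by
    intro a i
    simp only [Finset.sum_mul]
    rw [Finset.sum_comm]
    apply Finset.sum_congr rfl
    intro j _
    rw [Finset.sum_eq_single ((G i).1 j)]
    · simp
    · intro v _ hv
      rw [if_neg (fun h => hv h.symm), zero_mul]
    · intro h
      exact absurd (mem_univ _) h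
  have h2 : ∀ u v : ZMod 2, u + v = 0 ↔ u = v := by decide
  constructor
  · rintro hmem ⟨a, ha⟩
    -- the functional
    let φ : (Fin (N + 1) → ZMod 2) →ₗ[ZMod 2] ZMod 2 :=
      ∑ v : Fin N, a v • LinearMap.proj v.castSucc + LinearMap.proj (Fin.last N)
    have hφ : ∀ u, φ u = ∑ v : Fin N, a v * u v.castSucc + u (Fin.last N) := by
      intro u
      simp [φ, LinearMap.sum_apply]
    have hker : Submodule.span (ZMod 2) (lrow G '' {i | x i = true}) ≤ LinearMap.ker φ := by
      rw [Submodule.span_le]
      rintro _ ⟨i, hi, rfl⟩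
      rw [SetLike.mem_coe, LinearMap.mem_ker, hφ]
      simp only [lrow, Fin.snoc_castSucc, Fin.snoc_last]
      rw [h2, ← ha i hi, ← hdot a i]
      apply Finset.sum_congr rfl
      intro v _
      rw [mul_comm]
    have := hker hmem
    rw [LinearMap.mem_ker, hφ] at this
    simp [ltgt] at this
  · intro hns
    by_contra hmem
    obtain ⟨φ, hφ1, hφ2⟩ := Submodule.exists_le_ker_of_notMem hmem
    have hone : ∀ u : ZMod 2, u ≠ 0 → u = 1 := by decide
    apply hns
    refine ⟨fun v => φ (Pi.single v.castSucc 1), fun i hi => ?_⟩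
    have h3 : φ (lrow G i) = 0 := hφ2 (Submodule.subset_span ⟨i, hi, rfl⟩)
    have h4 : ∀ u : Fin (N + 1) → ZMod 2, φ u =
        ∑ v : Fin N, u v.castSucc * φ (Pi.single v.castSucc 1) + u (Fin.last N) *
          φ (Pi.single (Fin.last N) 1) := by
      intro u
      have e : u = ∑ v, u v • (Pi.single v (1 : ZMod 2) : Fin (N + 1) → ZMod 2) := by
        funext w
        rw [Finset.sum_apply]
        simp only [Pi.smul_apply, Pi.single_apply, smul_eq_mul, mul_ite, mul_one, mul_zero]
        rw [Finset.sum_ite_eq univ w]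
        simp
      conv_lhs => rw [e]
      rw [map_sum, Fin.sum_univ_castSucc]
      simp only [map_smul, smul_eq_mul]
    have htl : Pi.single (Fin.last N) (1 : ZMod 2) = ltgt N := by
      funext w
      unfold ltgt
      refine Fin.lastCases ?_ (fun v => ?_) w
      · simp
      · rw [Pi.single_apply, if_neg (Fin.castSucc_lt_last v).ne, Fin.snoc_castSucc]
    have h5 : φ (Pi.single (Fin.last N) 1) = 1 := by
      rw [htl]
      exact hone _ hφ1
    rw [h4, h5, mul_one] at h3
    simp only [lrow, Fin.snoc_castSucc, Fin.snoc_last] at h3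
    rw [h2, hdot (fun v => φ (Pi.single v.castSucc 1)) i] at h3
    exact h3

end Pool.Agent.H560R2
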