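import Pool.Agent.H560R2.Av5

/-! The embedding of many copies of POLY into the half-clique problem. -/

namespace Pool.Agent.H560R2

open Finset Pool.Agent.H520R2 Pool.Agent.H520R2.NM Pool.Agent.H520R2.HC

/-- Many copies of POLY inside the half-clique problem. -/
theorem half_embed {F : Type} [Field F] [Fintype F] [DecidableEq F] (N D q z : ℕ) (hD : 1 ≤ D)
    (hq : Fintype.card F = q) (hDq : D ≤ q) (hN : 16 * q ^ 4 ≤ Nat.sqrt N)
    (hz : 512 * q ^ 2 ≤ z) :
    ∃ (m : ℕ) (E : (Fin m → Set (F × F)) → Fin N → Bool), N / z ≤ m ∧ 0 < m ∧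
      (∀ y y', (∀ j, y j ⊆ y' j) → E y ≤ E y') ∧
      (∀ y, List.ofFn (E y) ∈ HalfClique ↔ ∃ j, fPoly D (y j)) ∧
      ∀ y J p, ∃ T : Finset (F × F), T.card ≤ 1 ∧
        LeafOn T (fun X => E (Function.update y J X) p = true) := by
  classical
  have hq2' : 2 ≤ q := by
    rw [← hq]
    exact Fintype.one_lt_card
  obtain ⟨s, hs⟩ : ∃ s, s = Nat.sqrt N := ⟨_, rfl⟩
  have hsN : N < (s + 1) * (s + 1) := by rw [hs]; exact Nat.lt_succ_sqrt N
  rw [← hs] at hN
  have e2 : q * D ≤ q ^ 2 := by rw [sq]; exact Nat.mul_le_mul_left _ hDq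
  have e2' : D * q ≤ q ^ 2 := by rw [mul_comm]; exact e2
  have e8 : q ^ 2 * q ^ 2 = q ^ 4 := by ring
  have e9 : 2 * q ≤ q ^ 2 := by rw [sq]; exact Nat.mul_le_mul_right _ hq2'
  have e10 : 4 * q ^ 2 ≤ q ^ 4 := by
    rw [← e8]
    apply Nat.mul_le_mul_right
    omega
  have hι : Fintype.card (F × F) = q ^ 2 := by rw [Fintype.card_prod, sq, hq]
  have hCl : Fintype.card (PCl F D) = D + (q * D + q) := by
    simp [PCl, hq]
  have hSt : Fintype.card (PSt F D) = D * q + (q * D * q ^ 2 + q ^ 2) := by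
    simp [PSt, hq, sq]
  obtain ⟨x, hx⟩ : ∃ x, x = s / 8 := ⟨_, rfl⟩
  have hx1 : 8 * x ≤ s := by rw [hx]; exact Nat.mul_div_le s 8
  have hx2 : s < 8 * (x + 1) := by rw [hx]; omega
  have hxq : q ^ 4 ≤ x := by omega
  have e11 : q * D * q ^ 2 ≤ q ^ 4 := by
    rw [← e8]
    exact Nat.mul_le_mul_right _ e2
  have hb : Fintype.card (PSt F D) ≤ 2 * q ^ 4 := by
    rw [hSt]; omega
  have hcl : Fintype.card (PCl F D) ≤ q ^ 4 := by
    rw [hCl]; omega
  have hq4pos : 16 ≤ q ^ 4 := by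
    calc 16 = 2 ^ 4 := by norm_num
      _ ≤ q ^ 4 := Nat.pow_le_pow_left hq2' 4
  set p := (s + 1) / 2 - (1 + Fintype.card (PCl F D)) with hp
  have hp1 : 1 + Fintype.card (PCl F D) + p = (s + 1) / 2 := by omega
  -- the rectangle
  obtain ⟨A, -, hAc⟩ := Finset.exists_subset_card_eq (s := (univ : Finset (Fin s))) (n := x) (by
    rw [Finset.card_univ, Fintype.card_fin]; omega)
  obtain ⟨B, hB, hBc⟩ := Finset.exists_subset_card_eq (s := Aᶜ) (n := x) (by
    rw [Finset.card_compl, Fintype.card_fin, hAc]; omega)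
  have hAB : Disjoint A B := by
    rw [Finset.disjoint_left]
    intro v hv hv'
    exact (Finset.mem_compl.mp (hB hv')) hv
  set K' := x / q ^ 2 with hK'
  have hq2pos : 0 < q ^ 2 := by positivity
  have hK'1 : q ^ 2 * K' ≤ x := Nat.mul_div_le x (q ^ 2)
  have hq2x : q ^ 2 ≤ x := by omega
  have hK'pos : 0 < K' := Nat.div_pos hq2x hq2pos
  obtain ⟨ψ, hψA, hψB⟩ := psi_exists (St := PSt F D) (ι := F × F) pst x K' p A B hAB
    hAc.ge (by rw [hι, hBc]; exact hK'1) (by rw [hAc, hBc]; omega)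
  have hHr : ∀ k w, (rect A B hAB).Adj (ψ (Sum.inl k)) (ψ (Sum.inr (Sum.inl (Sum.inl w)))) :=
    fun k w => Or.inl ⟨hψA k, hψB w⟩
  have hxpos : 0 < x := by omega
  let e : Fin x × Fin K' ≃ Fin (x * K') := finProdFinEquiv
  let E0 : (Fin x × Fin K' → Set (F × F)) → SimpleGraph (Fin s) :=
    fun y => gPsi pcls pcmp pst x K' p ψ ⊥ y
  have hclique : ∀ y, (∃ T : Finset (Fin s), s ≤ 2 * T.card ∧
      ∀ a ∈ T, ∀ b ∈ T, a ≠ b → (E0 y).Adj a b) ↔ ∃ j, fPoly D (y j) := by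
    intro y
    have h := gPsi_clique (cls := pcls) (cmp := pcmp) (pst_inj (F := F) (d := D)) hK'pos
      (ψ := ψ) (P := ⊥) (by intro u v h; exact absurd h (by simp)) (by
        rw [hp1]
        intro c hcl
        rw [SimpleGraph.isNClique_iff] at hcl
        obtain ⟨a, ha, b, hb, hab⟩ := Finset.one_lt_card.mp (show 1 < c.card by omega)
        exact hcl.1 ha hb hab) y
    rw [hp1] at h
    have h' : (∃ T : Finset (Fin s), s ≤ 2 * T.card ∧
        ∀ a ∈ T, ∀ b ∈ T, a ≠ b → (E0 y).Adj a b) ↔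
        ∃ c : Finset (Fin s), (E0 y).IsClique (c : Set (Fin s)) ∧ (s + 1) / 2 ≤ c.card := by
      constructor
      · rintro ⟨T, t1, t2⟩
        exact ⟨T, fun a ha b hb hab => t2 a ha b hb hab, by omega⟩
      · rintro ⟨T, t1, t2⟩
        exact ⟨T, by omega, fun a ha b hb hab => t1 ha hb hab⟩
    rw [h']
    refine h.trans ?_
    constructor
    · rintro ⟨j, hj⟩; exact ⟨j, (csp_iff hD (y j)).mp hj⟩
    · rintro ⟨j, hj⟩; exact ⟨j, (csp_iff hD (y j)).mpr hj⟩
  refine ⟨x * K', fun y => word N s (E0 (fun J => y (e J))),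
    copies_num hsN hx2 hxpos hq2pos hq2x hz, Nat.mul_pos hxpos hK'pos, ?_, ?_, ?_⟩
  · intro y y' h
    exact word_mono (gPsi_mono (fun j => h _))
  · intro y
    refine (word_mem' hs (E0 (fun J => y (e J)))).trans ((hclique _).trans ?_)
    constructor
    · rintro ⟨j, hj⟩; exact ⟨e j, hj⟩
    · rintro ⟨j, hj⟩
      exact ⟨e.symm j, by rw [Equiv.apply_symm_apply]; exact hj⟩
  · intro y J pp
    have hb' : (fun X => word N s (E0 (fun q => Function.update y J X (e q))) pp) ∈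
        blockBase (fun y => inp (fun (l : Fin N) G => word N s G l)
        (gPsi pcls pcmp pst x K' p ψ ⊥ y)) (fun J => y (e J)) (e.symm J) := by
      refine ⟨fun z => z pp, Or.inr ⟨pp, rfl⟩, ?_⟩
      funext X
      rw [update_equiv e y J X]
      rfl
    obtain ⟨T, hT1, hT2⟩ := block_narrow hHr (fun (l : Fin N) G => word N s G l) 1
      (fun l => word_free N s _ l) (fun J => y (e J)) (e.symm J) _ hb'
    exact ⟨T, hT1, hT2⟩

end Pool.Agent.H560R2
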