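import Pool.Agent.H560R2.Spread2

/-! A robust sunflower lemma for matchings. -/

set_option linter.unusedSectionVars false

namespace Pool.Agent.H560R2

open Finset

section

variable {E V : Type} [Fintype E] [DecidableEq E] [Fintype V] [DecidableEq V]

/-- vertices covered by a set of edges -/
def vs (ends : E → Finset V) (S : Finset E) : Finset V := S.biUnion ends

/-- matchings -/
def IsMt (ends : E → Finset V) (S : Finset E) : Prop :=
  ∀ e ∈ S, ∀ f ∈ S, e ≠ f → Disjoint (ends e) (ends f)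

/-- the edges that touch `W` -/
def touch (ends : E → Finset V) (W : Finset V) : Finset E :=
  univ.filter (fun e => ¬ Disjoint (ends e) W)

variable {ends : E → Finset V}

lemma mem_vs {S : Finset E} {v : V} : v ∈ vs ends S ↔ ∃ e ∈ S, v ∈ ends e := Finset.mem_biUnion

lemma mem_touch {W : Finset V} {e : E} : e ∈ touch ends W ↔ ¬ Disjoint (ends e) W := by
  simp [touch]

lemma IsMt.mono {S S' : Finset E} (h : IsMt ends S) (hS : S' ⊆ S) : IsMt ends S' :=
  fun e he f hf hef => h e (hS he) f (hS hf) hef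

lemma IsMt.card_vs (h2 : ∀ e, (ends e).card = 2) {S : Finset E} (h : IsMt ends S) :
    (vs ends S).card = 2 * S.card := by
  unfold vs
  rw [Finset.card_biUnion (fun e he f hf hef => h e he f hf hef)]
  simp [h2, mul_comm]

lemma card_vs_le (h2 : ∀ e, (ends e).card = 2) (S : Finset E) :
    (vs ends S).card ≤ 2 * S.card := by
  unfold vs
  refine Finset.card_biUnion_le.trans ?_
  simp [h2, mul_comm]

/-- edges inside a set of vertices -/
def ins (ends : E → Finset V) (X : Finset V) : Finset E := univ.filter (fun e => ends e ⊆ X)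

lemma card_ins_le (h2 : ∀ e, (ends e).card = 2) (hinj : Function.Injective ends)
    (X : Finset V) : (ins ends X).card ≤ X.card ^ 2 := by
  have h1 : (ins ends X).card ≤ (X.powersetCard 2).card := by
    apply Finset.card_le_card_of_injOn ends
    · intro e he
      rw [Finset.mem_coe, ins, Finset.mem_filter] at he
      rw [Finset.mem_coe, Finset.mem_powersetCard]
      exact ⟨he.2, h2 e⟩
    · exact fun _ _ _ _ h => hinj h
  refine h1.trans ?_
  rw [Finset.card_powersetCard]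
  exact Nat.choose_le_pow _ _

lemma pow_le_two (x : ℚ) (L : ℕ) (hx : 0 ≤ x) (hL : L * x ≤ 1 / 2) : (1 + x) ^ L ≤ 2 := by
  rcases Nat.eq_zero_or_pos L with rfl | hpos
  · norm_num
  have hLq : (1 : ℚ) ≤ L := by exact_mod_cast hpos
  have hx1 : x ≤ 1 / 2 := by nlinarith
  have h1 : (1 : ℚ) + L * (-x) ≤ (1 + -x) ^ L := one_add_mul_le_pow (by linarith) L
  have h2 : (1 / 2 : ℚ) ≤ (1 + -x) ^ L := by linarith
  have h3 : (1 + x) ^ L * (1 + -x) ^ L ≤ 1 := by
    rw [← mul_pow]
    apply pow_le_one₀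
    · nlinarith
    · nlinarith
  have h4 : (0 : ℚ) < (1 + x) ^ L := by positivity
  nlinarith

/-- the subfamily with the fixed edges `Y` and the fixed hubs `T` -/
def hub (ends : E → Finset V) (𝒮 : Finset (Finset E)) (Y : Finset E) (T : Finset V) :
    Finset (Finset E) :=
  𝒮.filter (fun S => Y ⊆ S ∧ T ⊆ vs ends (S \ Y) ∧ ∀ e ∈ S \ Y, ¬ ends e ⊆ T)

lemma mem_hub {𝒮 : Finset (Finset E)} {Y : Finset E} {T : Finset V} {S : Finset E} :
    S ∈ hub ends 𝒮 Y T ↔ S ∈ 𝒮 ∧ Y ⊆ S ∧ T ⊆ vs ends (S \ Y) ∧ ∀ e ∈ S \ Y, ¬ ends e ⊆ T := by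
  simp [hub]

lemma hub_spread (h2 : ∀ e, (ends e).card = 2) (hinj : Function.Injective ends) (r R l : ℕ)
    (hr : 0 < r) (hl : 0 < l) (hR : 8 * l ^ 2 * r ^ 2 ≤ R) (𝒮 : Finset (Finset E))
    (hS : ∀ S ∈ 𝒮, S.card = l ∧ IsMt ends S) (Y : Finset E) (T : Finset V)
    (hmax : ∀ Y' T', (hub ends 𝒮 Y' T').card * R ^ Y'.card * r ^ T'.card ≤
      (hub ends 𝒮 Y T).card * R ^ Y.card * r ^ T.card) (Z : Finset V) :
    ((hub ends 𝒮 Y T).filter (fun S => Z ⊆ vs ends (S \ Y) \ T)).card * r ^ Z.card ≤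
      2 * (hub ends 𝒮 Y T).card := by
  classical
  set I := hub ends 𝒮 Y T with hI
  have hRpos : 0 < R := lt_of_lt_of_le (by positivity) hR
  have hrq : (0 : ℚ) < r := by exact_mod_cast hr
  have hRq : (0 : ℚ) < R := by exact_mod_cast hRpos
  rcases (I.filter (fun S => Z ⊆ vs ends (S \ Y) \ T)).eq_empty_or_nonempty with h0 | ⟨S0, hS0⟩
  · rw [h0]; simp
  -- the size of `T ∪ Z`
  have hTZ : Disjoint T Z := by
    obtain ⟨-, h⟩ := Finset.mem_filter.mp hS0
    rw [Finset.disjoint_right]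
    intro v hv
    exact (Finset.mem_sdiff.mp (h hv)).2
  have hTZc : (T ∪ Z).card ≤ 2 * l := by
    obtain ⟨h1, h⟩ := Finset.mem_filter.mp hS0
    rw [hI, mem_hub] at h1
    have h3 : T ∪ Z ⊆ vs ends (S0 \ Y) := Finset.union_subset h1.2.2.1
      (h.trans Finset.sdiff_subset)
    refine (Finset.card_le_card h3).trans ((card_vs_le h2 _).trans ?_)
    have h4 : (S0 \ Y).card ≤ S0.card := Finset.card_le_card Finset.sdiff_subset
    have := (hS S0 h1.1).1
    omega
  set X := ins ends (T ∪ Z) with hX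
  have hXc : X.card ≤ 4 * l ^ 2 := by
    refine (card_ins_le h2 hinj _).trans ((Nat.pow_le_pow_left hTZc 2).trans (le_of_eq ?_))
    ring
  -- the parts
  let pt : Finset E → Finset (Finset E) := fun E' =>
    (I.filter (fun S => Z ⊆ vs ends (S \ Y) \ T)).filter
      (fun S => (S \ Y).filter (fun e => ends e ⊆ T ∪ Z) = E')
  have hpt : ∀ E' ∈ X.powerset, ((pt E').card : ℚ) * (r : ℚ) ^ Z.card ≤
      I.card * ((r : ℚ) ^ 2 / R) ^ E'.card := by
    intro E' _
    rcases (pt E').eq_empty_or_nonempty with h0 | ⟨S1, hS1⟩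
    · rw [h0, Finset.card_empty, Nat.cast_zero, zero_mul]
      positivity
    obtain ⟨h1, h3⟩ := Finset.mem_filter.mp hS1
    obtain ⟨h4, h5⟩ := Finset.mem_filter.mp h1
    rw [hI, mem_hub] at h4
    have hE'S : E' ⊆ S1 \ Y := by rw [← h3]; exact Finset.filter_subset _ _
    have hE'Y : (Y ∪ E').card = Y.card + E'.card := by
      apply Finset.card_union_of_disjoint
      rw [Finset.disjoint_right]
      intro e he
      exact (Finset.mem_sdiff.mp (hE'S he)).2
    have hE'm : IsMt ends E' := (hS S1 h4.1).2.mono (hE'S.trans Finset.sdiff_subset)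
    have hvs : vs ends E' ⊆ T ∪ Z := by
      intro v hv
      obtain ⟨e, he, hve⟩ := mem_vs.mp hv
      rw [← h3, Finset.mem_filter] at he
      exact he.2 hve
    have hcard : ((T ∪ Z) \ vs ends E').card + 2 * E'.card = T.card + Z.card := by
      rw [← hE'm.card_vs h2, Finset.card_sdiff_add_card_eq_card hvs,
        Finset.card_union_of_disjoint hTZ]
    have hsub : pt E' ⊆ hub ends 𝒮 (Y ∪ E') ((T ∪ Z) \ vs ends E') := by
      intro S hS'
      obtain ⟨k1, k3⟩ := Finset.mem_filter.mp hS'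
      obtain ⟨k4, k5⟩ := Finset.mem_filter.mp k1
      rw [hI, mem_hub] at k4
      have hsd : E' ⊆ S \ Y := by rw [← k3]; exact Finset.filter_subset _ _
      rw [mem_hub]
      refine ⟨k4.1, Finset.union_subset k4.2.1 (hsd.trans Finset.sdiff_subset), ?_, ?_⟩
      · intro v hv
        obtain ⟨hv1, hv2⟩ := Finset.mem_sdiff.mp hv
        have hv3 : v ∈ vs ends (S \ Y) := by
          rcases Finset.mem_union.mp hv1 with h | h
          · exact k4.2.2.1 h
          · exact (Finset.mem_sdiff.mp (k5 h)).1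
        obtain ⟨e, he, hve⟩ := mem_vs.mp hv3
        refine mem_vs.mpr ⟨e, ?_, hve⟩
        rw [Finset.mem_sdiff, Finset.mem_union]
        obtain ⟨he1, he2⟩ := Finset.mem_sdiff.mp he
        refine ⟨he1, ?_⟩
        rintro (h | h)
        · exact he2 h
        · exact hv2 (mem_vs.mpr ⟨e, h, hve⟩)
      · intro e he hsubT
        rw [Finset.mem_sdiff, Finset.mem_union, not_or] at he
        apply he.2.2
        rw [← k3, Finset.mem_filter, Finset.mem_sdiff]
        exact ⟨⟨he.1, he.2.1⟩, hsubT.trans Finset.sdiff_subset⟩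
    have hm := hmax (Y ∪ E') ((T ∪ Z) \ vs ends E')
    have hm2 : (pt E').card * R ^ (Y ∪ E').card * r ^ ((T ∪ Z) \ vs ends E').card ≤
        I.card * R ^ Y.card * r ^ T.card :=
      (Nat.mul_le_mul_right _ (Nat.mul_le_mul_right _ (Finset.card_le_card hsub))).trans hm
    have hm3 : ((pt E').card : ℚ) * (R : ℚ) ^ (Y.card + E'.card) *
        (r : ℚ) ^ ((T ∪ Z) \ vs ends E').card ≤ I.card * (R : ℚ) ^ Y.card * (r : ℚ) ^ T.card := by
      rw [← hE'Y]
      exact_mod_cast hm2
    have hm4 : (((pt E').card : ℚ) * (r : ℚ) ^ Z.card) *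
        ((R : ℚ) ^ E'.card * ((R : ℚ) ^ Y.card * (r : ℚ) ^ T.card)) ≤
        (I.card * ((r : ℚ) ^ 2) ^ E'.card) * ((R : ℚ) ^ Y.card * (r : ℚ) ^ T.card) := by
      calc (((pt E').card : ℚ) * (r : ℚ) ^ Z.card) *
            ((R : ℚ) ^ E'.card * ((R : ℚ) ^ Y.card * (r : ℚ) ^ T.card))
          = ((pt E').card : ℚ) * (R : ℚ) ^ (Y.card + E'.card) *
              (r : ℚ) ^ (T.card + Z.card) := by rw [pow_add, pow_add]; ring
        _ = (((pt E').card : ℚ) * (R : ℚ) ^ (Y.card + E'.card) *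
              (r : ℚ) ^ ((T ∪ Z) \ vs ends E').card) * ((r : ℚ) ^ 2) ^ E'.card := by
            rw [← hcard, pow_add (r : ℚ) _ (2 * E'.card), pow_mul]; ring
        _ ≤ (I.card * (R : ℚ) ^ Y.card * (r : ℚ) ^ T.card) * ((r : ℚ) ^ 2) ^ E'.card :=
            mul_le_mul_of_nonneg_right hm3 (by positivity)
        _ = _ := by ring
    have hpos2 : (0 : ℚ) < (R : ℚ) ^ Y.card * (r : ℚ) ^ T.card := by positivity
    rw [← mul_assoc] at hm4
    have hm5 := le_of_mul_le_mul_right hm4 hpos2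
    rw [div_pow, mul_div_assoc']
    rw [le_div_iff₀ (by positivity)]
    exact hm5
  -- summation
  have hsum : ((I.filter (fun S => Z ⊆ vs ends (S \ Y) \ T)).card : ℚ) ≤
      ∑ E' ∈ X.powerset, ((pt E').card : ℚ) := by
    have : (I.filter (fun S => Z ⊆ vs ends (S \ Y) \ T)).card ≤
        ∑ E' ∈ X.powerset, (pt E').card := by
      rw [Finset.card_eq_sum_card_fiberwise (t := X.powerset)
        (f := fun S => (S \ Y).filter (fun e => ends e ⊆ T ∪ Z))]
      intro S _
      rw [Finset.mem_coe, Finset.mem_powerset]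
      intro e he
      rw [hX, ins, Finset.mem_filter]
      exact ⟨mem_univ _, (Finset.mem_filter.mp he).2⟩
    exact_mod_cast this
  have hx : (0 : ℚ) ≤ (r : ℚ) ^ 2 / R := by positivity
  have hpow : (1 + (r : ℚ) ^ 2 / R) ^ X.card ≤ 2 := by
    apply pow_le_two _ _ hx
    rw [mul_div_assoc', div_le_div_iff₀ hRq (by norm_num)]
    have h1 : (8 * (l : ℚ) ^ 2 * (r : ℚ) ^ 2) ≤ R := by exact_mod_cast hR
    have h3 : (X.card : ℚ) ≤ 4 * (l : ℚ) ^ 2 := by exact_mod_cast hXc
    have h4 : (X.card : ℚ) * (r : ℚ) ^ 2 ≤ 4 * (l : ℚ) ^ 2 * (r : ℚ) ^ 2 :=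
      mul_le_mul_of_nonneg_right h3 (by positivity)
    linarith
  have hfin : ((I.filter (fun S => Z ⊆ vs ends (S \ Y) \ T)).card : ℚ) * (r : ℚ) ^ Z.card ≤
      2 * I.card := by
    calc ((I.filter (fun S => Z ⊆ vs ends (S \ Y) \ T)).card : ℚ) * (r : ℚ) ^ Z.card
        ≤ (∑ E' ∈ X.powerset, ((pt E').card : ℚ)) * (r : ℚ) ^ Z.card :=
          mul_le_mul_of_nonneg_right hsum (by positivity)
      _ = ∑ E' ∈ X.powerset, ((pt E').card : ℚ) * (r : ℚ) ^ Z.card := by rw [Finset.sum_mul]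
      _ ≤ ∑ E' ∈ X.powerset, I.card * ((r : ℚ) ^ 2 / R) ^ E'.card := Finset.sum_le_sum hpt
      _ = I.card * (1 + (r : ℚ) ^ 2 / R) ^ X.card := by
          rw [← Finset.mul_sum]
          congr 1
          rw [add_comm, ← Finset.sum_pow_mul_eq_add_pow]
          simp
      _ ≤ I.card * 2 := mul_le_mul_of_nonneg_left hpow (Nat.cast_nonneg _)
      _ = _ := by ring
  exact_mod_cast hfin

variable {Q : ℕ} [NeZero Q]

/-- Robust sunflower lemma for matchings. -/
theorem robust_matching (h2 : ∀ e, (ends e).card = 2) (hinj : Function.Injective ends)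
    (B J r R l : ℕ) (hr : 64 * Q ≤ r) (hR : 8 * l ^ 2 * r ^ 2 ≤ R) (hJ : 2 * l < 2 ^ J)
    (𝒮 : Finset (Finset E)) (hS : ∀ S ∈ 𝒮, S.card = l ∧ IsMt ends S)
    (hbig : R ^ l < 𝒮.card) :
    ∃ Y : Finset E, (∃ S ∈ 𝒮, Y ⊂ S) ∧
      {ω : Fin B → Fin J → V → Fin Q | ∀ S ∈ 𝒮, Y ⊆ S → ¬ S \ Y ⊆ touch ends (WB ω)}.ncard *
        2 ^ B ≤ ((Q ^ Fintype.card V) ^ J) ^ B := by
  classical
  have hQ0 : 0 < Q := Nat.pos_of_ne_zero (NeZero.ne Q)
  have hrpos : 0 < r := by omega
  rcases Nat.eq_zero_or_pos l with rfl | hl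
  · exfalso
    have : 𝒮 ⊆ {∅} := by
      intro S hSS
      rw [Finset.mem_singleton]
      exact Finset.card_eq_zero.mp (hS S hSS).1
    have := Finset.card_le_card this
    simp at this hbig
    omega
  have hRpos : 0 < R := lt_of_lt_of_le (by positivity) hR
  obtain ⟨⟨Y, T⟩, -, hmax⟩ := Finset.exists_max_image (univ : Finset (Finset E × Finset V))
    (fun p => (hub ends 𝒮 p.1 p.2).card * R ^ p.1.card * r ^ p.2.card) ⟨(∅, ∅), mem_univ _⟩
  have hmax' : ∀ Y' T', (hub ends 𝒮 Y' T').card * R ^ Y'.card * r ^ T'.card ≤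
      (hub ends 𝒮 Y T).card * R ^ Y.card * r ^ T.card := fun Y' T' => hmax (Y', T') (mem_univ _)
  set I := hub ends 𝒮 Y T with hI
  have h0 : hub ends 𝒮 ∅ ∅ = 𝒮 := by
    ext S
    rw [mem_hub]
    refine ⟨fun h => h.1, fun h => ⟨h, Finset.empty_subset _, Finset.empty_subset _, ?_⟩⟩
    intro e _ hsub
    have := Finset.card_le_card hsub
    rw [h2] at this
    simp at this
  have hbig2 : R ^ l < I.card * R ^ Y.card * r ^ T.card := by
    have := hmax' ∅ ∅
    rw [h0] at this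
    simp only [Finset.card_empty, pow_zero, mul_one] at this
    omega
  have hIpos : 0 < I.card := by
    by_contra hcon
    have : I.card = 0 := by omega
    rw [this] at hbig2
    simp at hbig2
  obtain ⟨S0, hS0⟩ := Finset.card_pos.mp hIpos
  have hS0' := hS0
  rw [hI, mem_hub] at hS0'
  have hYS : Y ⊂ S0 := by
    refine ⟨hS0'.2.1, fun hsub => ?_⟩
    have hYe : Y = S0 := Finset.Subset.antisymm hS0'.2.1 hsub
    have hT : T = ∅ := by
      have := hS0'.2.2.1
      rw [hYe, Finset.sdiff_self] at this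
      exact Finset.subset_empty.mp this
    have hI1 : I ⊆ {S0} := by
      intro S hSI
      rw [hI, mem_hub] at hSI
      rw [Finset.mem_singleton]
      have h3 : S0 ⊆ S := by rw [← hYe]; exact hSI.2.1
      exact (Finset.eq_of_subset_of_card_le h3 (by rw [(hS S hSI.1).1, (hS S0 hS0'.1).1])).symm
    have := Finset.card_le_card hI1
    rw [Finset.card_singleton] at this
    rw [hT, hYe, (hS S0 hS0'.1).1] at hbig2
    simp only [Finset.card_empty, pow_zero, mul_one] at hbig2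
    have : I.card * R ^ l ≤ 1 * R ^ l := Nat.mul_le_mul_right _ this
    omega
  refine ⟨Y, ⟨S0, hS0'.1, hYS⟩, ?_⟩
  have hspread := hub_spread h2 hinj r R l hrpos hl hR 𝒮 hS Y T hmax'
  have hph := phase (Q := Q) J r hr I (fun S => vs ends (S \ Y) \ T) (2 * I.card) (by
    intro S hSI
    rw [hI, mem_hub] at hSI
    refine lt_of_le_of_lt ((Finset.card_le_card Finset.sdiff_subset).trans
      ((card_vs_le h2 _).trans ?_)) hJ
    have h4 : (S \ Y).card ≤ S.card := Finset.card_le_card Finset.sdiff_subset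
    have := (hS S hSI.1).1
    omega) hspread
  have hfail : (failJ Q J I (fun S => vs ends (S \ Y) \ T)).card * 2 ≤
      (Q ^ Fintype.card V) ^ J := by
    have hIq : (0 : ℚ) < (I.card : ℚ) := by exact_mod_cast hIpos
    have h1 : ((failJ Q J I (fun S => vs ends (S \ Y) \ T)).card : ℚ) ≤
        2 * cJ J * ((Q : ℚ) ^ (Fintype.card V)) ^ J := by
      refine le_of_mul_le_mul_right ?_ hIq
      calc _ ≤ _ := hph
        _ = _ := by push_cast; ring
    have h3 : ((failJ Q J I (fun S => vs ends (S \ Y) \ T)).card : ℚ) ≤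
        1 / 2 * ((Q : ℚ) ^ (Fintype.card V)) ^ J := by
      refine h1.trans (mul_le_mul_of_nonneg_right ?_ (by positivity))
      have := cJ_le J
      linarith
    have h4 : ((failJ Q J I (fun S => vs ends (S \ Y) \ T)).card : ℚ) * 2 ≤
        ((Q : ℚ) ^ (Fintype.card V)) ^ J := by linarith
    exact_mod_cast h4
  have hsub : {ω : Fin B → Fin J → V → Fin Q |
      ∀ S ∈ 𝒮, Y ⊆ S → ¬ S \ Y ⊆ touch ends (WB ω)} ⊆
      ((Fintype.piFinset (fun _ : Fin B => failJ Q J I (fun S => vs ends (S \ Y) \ T)) :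
        Finset (Fin B → Fin J → V → Fin Q)) : Set (Fin B → Fin J → V → Fin Q)) := by
    intro ω hω
    rw [Finset.mem_coe, Fintype.mem_piFinset]
    intro b
    rw [mem_failJ]
    intro S hSI hsub
    rw [hI, mem_hub] at hSI
    apply hω S hSI.1 hSI.2.1
    intro e he
    rw [mem_touch]
    -- a vertex of `e` outside `T`
    obtain ⟨v, hv, hvT⟩ := Finset.not_subset.mp (hSI.2.2.2 e he)
    have hv2 : v ∈ vs ends (S \ Y) \ T := by
      rw [Finset.mem_sdiff]
      exact ⟨mem_vs.mpr ⟨e, he, hv⟩, hvT⟩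
    have hv3 := hsub hv2
    obtain ⟨j, hj⟩ := (mem_WJ _ _).mp hv3
    rw [Finset.not_disjoint_iff]
    exact ⟨v, hv, (mem_WB _ _).mpr ⟨b, j, hj⟩⟩
  refine (Nat.mul_le_mul_right _ (Set.ncard_le_ncard hsub (Set.toFinite _))).trans ?_
  rw [Set.ncard_coe_finset, Fintype.card_piFinset]
  simp only [Finset.prod_const, Finset.card_univ, Fintype.card_fin]
  rw [← mul_pow]
  exact Nat.pow_le_pow_left hfail B

end

end Pool.Agent.H560R2
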