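import Pool.Agent.H560R2.Mat1
import Pool.Agent.H560R2.Spread3

/-! Closed families of matchings, and chains of such families. -/

set_option linter.unusedSectionVars false

namespace Pool.Agent.H560R2

open Finset

section

variable {E V : Type} [Fintype E] [DecidableEq E] [Fintype V] [DecidableEq V]
  {ends : E → Finset V} {Q : ℕ} [NeZero Q]

open Classical in
/-- the terms: matchings with at most `w` edges -/
noncomputable def Tm (ends : E → Finset V) (w : ℕ) : Finset (Finset E) :=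
  univ.filter (fun S => S.card ≤ w ∧ IsMt ends S)

lemma mem_Tm {w : ℕ} {S : Finset E} : S ∈ Tm ends w ↔ S.card ≤ w ∧ IsMt ends S := by
  simp [Tm]

/-- `x` contains a member of `D` -/
def sat (D : Finset (Finset E)) (x : Finset E) : Prop := ∃ S ∈ D, S ⊆ x

lemma sat_mono {D D' : Finset (Finset E)} {x : Finset E} (h : sat D x) (hD : D ⊆ D') :
    sat D' x := by
  obtain ⟨S, hS, hx⟩ := h
  exact ⟨S, hD hS, hx⟩

/-- `Y` is almost implied by `D` -/
def sml (ends : E → Finset V) (Q B J : ℕ) [NeZero Q] (D : Finset (Finset E)) (Y : Finset E) :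
    Prop :=
  {ω : Fin B → Fin J → V → Fin Q | ¬ sat D (touch ends (WB ω) ∪ Y)}.ncard * 2 ^ B ≤
    ((Q ^ Fintype.card V) ^ J) ^ B

lemma sml_mono {B J : ℕ} {D D' : Finset (Finset E)} {Y : Finset E}
    (h : sml ends Q B J D Y) (hD : D ⊆ D') : sml ends Q B J D' Y := by
  refine (Nat.mul_le_mul_right _ (Set.ncard_le_ncard ?_ (Set.toFinite _))).trans h
  intro ω hω hs
  exact hω (sat_mono hs hD)

/-- closed families -/
def clsd (ends : E → Finset V) (Q B J w : ℕ) [NeZero Q] (D : Finset (Finset E)) : Prop :=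
  D ⊆ Tm ends w ∧ ∀ Y ∈ Tm ends w, sml ends Q B J D Y → Y ∈ D

lemma clsd.up {B J w : ℕ} {D : Finset (Finset E)} (h : clsd ends Q B J w D) {S Y : Finset E}
    (hS : S ∈ D) (hSY : S ⊆ Y) (hY : Y ∈ Tm ends w) : Y ∈ D := by
  apply h.2 Y hY
  have : {ω : Fin B → Fin J → V → Fin Q | ¬ sat D (touch ends (WB ω) ∪ Y)} = ∅ := by
    ext ω
    simp only [Set.mem_ofPred_eq, Set.mem_empty_iff_false, iff_false, not_not]
    exact ⟨S, hS, hSY.trans Finset.subset_union_right⟩
  unfold sml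
  rw [this, Set.ncard_empty, zero_mul]
  exact Nat.zero_le _

open Classical in
/-- the closure -/
noncomputable def clo (ends : E → Finset V) (Q B J w : ℕ) [NeZero Q] (D : Finset (Finset E)) :
    Finset (Finset E) :=
  (Tm ends w).filter (fun Y => ∀ C, clsd ends Q B J w C → D ⊆ C → Y ∈ C)

lemma mem_clo {B J w : ℕ} {D : Finset (Finset E)} {Y : Finset E} :
    Y ∈ clo ends Q B J w D ↔ Y ∈ Tm ends w ∧ ∀ C, clsd ends Q B J w C → D ⊆ C → Y ∈ C := by
  simp [clo]

lemma clsd_clo {B J w : ℕ} (D : Finset (Finset E)) :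
    clsd ends Q B J w (clo ends Q B J w D) := by
  refine ⟨fun Y hY => (mem_clo.mp hY).1, fun Y hY hs => mem_clo.mpr ⟨hY, fun C hC hDC => ?_⟩⟩
  exact hC.2 Y hY (sml_mono hs (fun Z hZ => (mem_clo.mp hZ).2 C hC hDC))

lemma clo_mono {B J w : ℕ} {D D' : Finset (Finset E)} (h : D ⊆ D') :
    clo ends Q B J w D ⊆ clo ends Q B J w D' := by
  intro Y hY
  obtain ⟨h1, h2⟩ := mem_clo.mp hY
  exact mem_clo.mpr ⟨h1, fun C hC hDC => h2 C hC (h.trans hDC)⟩

lemma subset_clo {B J w : ℕ} {D : Finset (Finset E)} (h : D ⊆ Tm ends w) :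
    D ⊆ clo ends Q B J w D := fun Y hY => mem_clo.mpr ⟨h hY, fun C _ hDC => hDC hY⟩

/-- the error of the closure -/
lemma clo_error (B J w : ℕ) (D : Finset (Finset E)) (hD : D ⊆ Tm ends w) :
    {ω : Fin B → Fin J → V → Fin Q | sat (clo ends Q B J w D) (touch ends (WB ω)) ∧
      ¬ sat D (touch ends (WB ω))}.ncard * 2 ^ B ≤
      (Tm ends w).card * ((Q ^ Fintype.card V) ^ J) ^ B := by
  classical
  set Om := ((Q ^ Fintype.card V) ^ J) ^ B with hOm
  let P : Finset (Finset E) → Prop := fun 𝒴 => D ⊆ 𝒴 ∧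
    {ω : Fin B → Fin J → V → Fin Q | sat 𝒴 (touch ends (WB ω)) ∧
      ¬ sat D (touch ends (WB ω))}.ncard * 2 ^ B ≤ 𝒴.card * Om
  have hne : D ∈ (Tm ends w).powerset.filter P := by
    rw [Finset.mem_filter, Finset.mem_powerset]
    refine ⟨hD, subset_rfl, ?_⟩
    have : {ω : Fin B → Fin J → V → Fin Q | sat D (touch ends (WB ω)) ∧
      ¬ sat D (touch ends (WB ω))} = ∅ := by
      ext ω
      simp
    rw [this, Set.ncard_empty, zero_mul]
    exact Nat.zero_le _
  obtain ⟨𝒴, h𝒴, hmax⟩ := Finset.exists_max_image _ Finset.card ⟨D, hne⟩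
  obtain ⟨h1, h2, h3⟩ := Finset.mem_filter.mp h𝒴
  rw [Finset.mem_powerset] at h1
  have hcl : clsd ends Q B J w 𝒴 := by
    refine ⟨h1, fun Y hY hs => ?_⟩
    by_contra hnot
    have hmem : insert Y 𝒴 ∈ (Tm ends w).powerset.filter P := by
      rw [Finset.mem_filter, Finset.mem_powerset]
      refine ⟨Finset.insert_subset hY h1, h2.trans (Finset.subset_insert _ _), ?_⟩
      have hsub : {ω : Fin B → Fin J → V → Fin Q | sat (insert Y 𝒴) (touch ends (WB ω)) ∧
          ¬ sat D (touch ends (WB ω))} ⊆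
          {ω | sat 𝒴 (touch ends (WB ω)) ∧ ¬ sat D (touch ends (WB ω))} ∪
          {ω | ¬ sat 𝒴 (touch ends (WB ω) ∪ Y)} := by
        rintro ω ⟨k1, k2⟩
        by_cases k3 : sat 𝒴 (touch ends (WB ω))
        · exact Or.inl ⟨k3, k2⟩
        · right
          obtain ⟨S, hS, hx⟩ := k1
          rcases Finset.mem_insert.mp hS with rfl | hS
          · show ¬ sat 𝒴 (touch ends (WB ω) ∪ S)
            rw [Finset.union_eq_left.mpr hx]
            exact k3
          · exact absurd ⟨S, hS, hx⟩ k3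
      rw [Finset.card_insert_of_notMem hnot]
      calc _ ≤ ({ω : Fin B → Fin J → V → Fin Q | sat 𝒴 (touch ends (WB ω)) ∧
              ¬ sat D (touch ends (WB ω))} ∪
            {ω | ¬ sat 𝒴 (touch ends (WB ω) ∪ Y)}).ncard * 2 ^ B :=
            Nat.mul_le_mul_right _ (Set.ncard_le_ncard hsub (Set.toFinite _))
        _ ≤ ({ω : Fin B → Fin J → V → Fin Q | sat 𝒴 (touch ends (WB ω)) ∧
              ¬ sat D (touch ends (WB ω))}.ncard +
            {ω : Fin B → Fin J → V → Fin Q | ¬ sat 𝒴 (touch ends (WB ω) ∪ Y)}.ncard) * 2 ^ B :=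
            Nat.mul_le_mul_right _ (Set.ncard_union_le _ _)
        _ ≤ 𝒴.card * Om + Om := by
            rw [add_mul]
            exact Nat.add_le_add h3 hs
        _ = (𝒴.card + 1) * Om := by ring
    have := hmax _ hmem
    rw [Finset.card_insert_of_notMem hnot] at this
    omega
  have hle : clo ends Q B J w D ⊆ 𝒴 := fun Y hY => (mem_clo.mp hY).2 𝒴 hcl h2
  refine le_trans (Nat.mul_le_mul_right _ (Set.ncard_le_ncard ?_ (Set.toFinite _)))
    (h3.trans (Nat.mul_le_mul_right _ (Finset.card_le_card h1)))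
  rintro ω ⟨k1, k2⟩
  exact ⟨sat_mono k1 hle, k2⟩

/-- the error of the closures of a chain of families -/
lemma chain_error (B J w : ℕ) (U : ℝ → Finset (Finset E)) (hU : ∀ a, U a ⊆ Tm ends w)
    (hanti : ∀ a a', a ≤ a' → U a' ⊆ U a) :
    {ω : Fin B → Fin J → V → Fin Q | ∃ a, sat (clo ends Q B J w (U a)) (touch ends (WB ω)) ∧
      ¬ sat (U a) (touch ends (WB ω))}.ncard * 2 ^ B ≤
      ((Tm ends w).card + 1) * ((Tm ends w).card * ((Q ^ Fintype.card V) ^ J) ^ B) := by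
  classical
  let 𝒰 : Finset (Finset (Finset E)) := (Tm ends w).powerset.filter (fun D => ∃ a, U a = D)
  have hcard : 𝒰.card ≤ (Tm ends w).card + 1 := by
    rw [← Finset.card_range ((Tm ends w).card + 1)]
    apply Finset.card_le_card_of_injOn Finset.card
    · intro D hD
      rw [Finset.mem_coe, Finset.mem_filter, Finset.mem_powerset] at hD
      rw [Finset.mem_coe, Finset.mem_range]
      have := Finset.card_le_card hD.1
      omega
    · intro D hD D' hD' hc
      rw [Finset.mem_coe, Finset.mem_filter] at hD hD'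
      obtain ⟨-, a, rfl⟩ := hD
      obtain ⟨-, a', rfl⟩ := hD'
      rcases le_total a a' with h | h
      · exact (Finset.eq_of_subset_of_card_le (hanti _ _ h) hc.le).symm
      · exact Finset.eq_of_subset_of_card_le (hanti _ _ h) hc.ge
  have hsub : {ω : Fin B → Fin J → V → Fin Q | ∃ a, sat (clo ends Q B J w (U a))
      (touch ends (WB ω)) ∧ ¬ sat (U a) (touch ends (WB ω))} ⊆
      ⋃ D ∈ 𝒰, {ω : Fin B → Fin J → V → Fin Q | sat (clo ends Q B J w D)
        (touch ends (WB ω)) ∧ ¬ sat D (touch ends (WB ω))} := by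
    rintro ω ⟨a, h1, h2⟩
    simp only [Set.mem_iUnion]
    exact ⟨U a, Finset.mem_filter.mpr ⟨Finset.mem_powerset.mpr (hU a), a, rfl⟩, h1, h2⟩
  calc _ ≤ (∑ D ∈ 𝒰, {ω : Fin B → Fin J → V → Fin Q | sat (clo ends Q B J w D)
        (touch ends (WB ω)) ∧ ¬ sat D (touch ends (WB ω))}.ncard) * 2 ^ B :=
        Nat.mul_le_mul_right _ ((Set.ncard_le_ncard hsub (Set.toFinite _)).trans
          (Finset.set_ncard_biUnion_le _ _))
    _ = ∑ D ∈ 𝒰, {ω : Fin B → Fin J → V → Fin Q | sat (clo ends Q B J w D)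
        (touch ends (WB ω)) ∧ ¬ sat D (touch ends (WB ω))}.ncard * 2 ^ B := by
        rw [Finset.sum_mul]
    _ ≤ ∑ D ∈ 𝒰, (Tm ends w).card * ((Q ^ Fintype.card V) ^ J) ^ B := by
        apply Finset.sum_le_sum
        intro D hD
        exact clo_error B J w D (Finset.mem_powerset.mp (Finset.mem_filter.mp hD).1)
    _ = 𝒰.card * ((Tm ends w).card * ((Q ^ Fintype.card V) ^ J) ^ B) := by simp
    _ ≤ _ := Nat.mul_le_mul_right _ hcard

open Classical in
/-- minimal members of the families of a chain, of size `l` -/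
noncomputable def minc (D : ℝ → Finset (Finset E)) (l : ℕ) : Finset (Finset E) :=
  univ.filter (fun S => S.card = l ∧ ∃ a, S ∈ D a ∧ ∀ S' ∈ D a, ¬ S' ⊂ S)

lemma mem_minc {D : ℝ → Finset (Finset E)} {l : ℕ} {S : Finset E} :
    S ∈ minc D l ↔ S.card = l ∧ ∃ a, S ∈ D a ∧ ∀ S' ∈ D a, ¬ S' ⊂ S := by
  simp [minc]

/-- The minimal members of all families of a chain of closed families are few. -/
theorem minc_thin (h2 : ∀ e, (ends e).card = 2) (hinj : Function.Injective ends)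
    (B J w r R l : ℕ) (hr : 64 * Q ≤ r) (hR : 8 * l ^ 2 * r ^ 2 ≤ R) (hJ : 2 * l < 2 ^ J)
    (hlw : l ≤ w) (D : ℝ → Finset (Finset E)) (hD : ∀ a, clsd ends Q B J w (D a))
    (hanti : ∀ a a', a ≤ a' → D a' ⊆ D a) : (minc D l).card ≤ R ^ l := by
  classical
  by_contra hcon
  push Not at hcon
  have hmt : ∀ S ∈ minc D l, S.card = l ∧ IsMt ends S := by
    intro S hS
    obtain ⟨h1, a, h3, -⟩ := mem_minc.mp hS
    exact ⟨h1, (mem_Tm.mp ((hD a).1 h3)).2⟩
  obtain ⟨Y, ⟨S0, hS0, hYS0⟩, hY⟩ := robust_matching (Q := Q) h2 hinj B J r R l hr hR hJ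
    (minc D l) hmt hcon
  -- thresholds
  have hth : ∀ S : {S // S ∈ (minc D l).filter (fun S => Y ⊆ S)}, ∃ a, S.1 ∈ D a ∧
      ∀ S' ∈ D a, ¬ S' ⊂ S.1 := fun S => (mem_minc.mp (Finset.mem_filter.mp S.2).1).2
  choose a ha1 ha2 using hth
  have hne : (univ : Finset {S // S ∈ (minc D l).filter (fun S => Y ⊆ S)}).Nonempty :=
    ⟨⟨S0, Finset.mem_filter.mpr ⟨hS0, hYS0.1⟩⟩, mem_univ _⟩
  obtain ⟨S1, -, hS1⟩ := Finset.exists_min_image univ a hne
  have hYS1 : Y ⊆ S1.1 := (Finset.mem_filter.mp S1.2).2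
  have hlt : Y ⊂ S1.1 := by
    refine ⟨hYS1, fun hsub => ?_⟩
    have e : Y = S1.1 := Finset.Subset.antisymm hYS1 hsub
    have k1 := Finset.card_lt_card hYS0
    rw [e, (hmt S1.1 (Finset.mem_filter.mp S1.2).1).1, (hmt S0 hS0).1] at k1
    omega
  have hYT : Y ∈ Tm ends w := by
    rw [mem_Tm]
    have k1 := Finset.card_lt_card hlt
    have k2 := hmt S1.1 (Finset.mem_filter.mp S1.2).1
    exact ⟨by omega, k2.2.mono hYS1⟩
  refine ha2 S1 Y ((hD (a S1)).2 Y hYT ?_) hlt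
  refine le_trans (Nat.mul_le_mul_right _ (Set.ncard_le_ncard ?_ (Set.toFinite _))) hY
  intro ω hω S hS hYS hsub
  apply hω
  refine ⟨S, ?_, ?_⟩
  · exact hanti _ _ (hS1 ⟨S, Finset.mem_filter.mpr ⟨hS, hYS⟩⟩ (mem_univ _)) (ha1 _)
  · intro e he
    by_cases heY : e ∈ Y
    · exact Finset.mem_union_right _ heY
    · exact Finset.mem_union_left _ (hsub (Finset.mem_sdiff.mpr ⟨he, heY⟩))

/-- a satisfied family has a minimal member inside the input -/
lemma exists_minc {D : ℝ → Finset (Finset E)} {a : ℝ} {x : Finset E} (h : sat (D a) x) :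
    ∃ S ∈ D a, S ⊆ x ∧ S ∈ minc D S.card := by
  classical
  obtain ⟨S0, hS0, hx0⟩ := h
  obtain ⟨S, hS, hmin⟩ := Finset.exists_min_image ((D a).filter (fun S => S ⊆ x)) Finset.card
    ⟨S0, Finset.mem_filter.mpr ⟨hS0, hx0⟩⟩
  obtain ⟨h1, h3⟩ := Finset.mem_filter.mp hS
  refine ⟨S, h1, h3, mem_minc.mpr ⟨rfl, a, h1, fun S' hS' hlt => ?_⟩⟩
  have k1 := hmin S' (Finset.mem_filter.mpr ⟨hS', hlt.1.trans h3⟩)
  have k2 := Finset.card_lt_card hlt
  omega

end

end Pool.Agent.H560R2
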