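import Pool.Agent.H560R2.Mono2

/-! Jukna's criterion for programs of monotone real gates with at most two inputs, with leaves that
are real monotone functions of few variables. -/

namespace Pool.Agent.H560R2

open Finset

section switching

variable {ι : Type*} [Fintype ι] [DecidableEq ι]

/-- `m` hits all clauses of `K` -/
def Hits (K : Set (Finset ι)) (m : Finset ι) : Prop := ∀ c ∈ K, ∃ i ∈ c, i ∈ m

lemma evC_of_hits {K : Set (Finset ι)} {m : Finset ι} (h : Hits K m) {x : Set ι}
    (hx : ∀ i ∈ m, i ∈ x) : evC K x := by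
  intro c hc
  obtain ⟨i, hi, him⟩ := h c hc
  exact ⟨i, hi, hx i him⟩

/-- the next clause, common to all members of a chain of CNFs -/
lemma chain_choice {A : Type*} (K : A → Set (Finset ι)) (hch : ∀ a b, K a ⊆ K b ∨ K b ⊆ K a)
    (s : ℕ) (hs : ∀ a, ∀ c ∈ K a, c.card ≤ s) (m : Finset ι) :
    ∃ κ : Finset ι, κ.card ≤ s ∧ ∀ a, ¬ Hits (K a) m → κ ∈ K a ∧ ∀ i ∈ κ, i ∉ m := by
  classical
  by_cases h : ∃ a, ¬ Hits (K a) m
  · -- choose a smallest such member of the chain
    obtain ⟨n, hn, hmin⟩ : ∃ n, (∃ a, ¬ Hits (K a) m ∧ (K a).ncard = n) ∧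
        ∀ n', (∃ a, ¬ Hits (K a) m ∧ (K a).ncard = n') → n ≤ n' := by
      have hex : ∃ n, ∃ a, ¬ Hits (K a) m ∧ (K a).ncard = n := by
        obtain ⟨a, ha⟩ := h
        exact ⟨_, a, ha, rfl⟩
      exact ⟨Nat.find hex, Nat.find_spec hex, fun n' hn' => Nat.find_min' hex hn'⟩
    obtain ⟨a0, ha0, hn0⟩ := hn
    have ha0' := ha0
    unfold Hits at ha0'
    push Not at ha0'
    obtain ⟨κ, hκ, hκm⟩ := ha0'
    refine ⟨κ, hs a0 κ hκ, fun a ha => ⟨?_, hκm⟩⟩
    have hle : (K a0).ncard ≤ (K a).ncard := by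
      rw [hn0]
      exact hmin _ ⟨a, ha, rfl⟩
    rcases hch a0 a with h1 | h1
    · exact h1 hκ
    · have : K a = K a0 := Set.eq_of_subset_of_ncard_le h1 hle (Set.toFinite _)
      rw [this]
      exact hκ
  · push Not at h
    exact ⟨∅, by simp, fun a ha => absurd (h a) ha⟩

/-- The tree argument for a conjunction of members of several chains of CNFs. -/
lemma switchR {τ A : Type*} [Fintype τ] (K : τ → A → Set (Finset ι))
    (hch : ∀ t a b, K t a ⊆ K t b ∨ K t b ⊆ K t a)
    (s : ℕ) (hs : ∀ t a, ∀ c ∈ K t a, c.card ≤ s) (j : ℕ) :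
    ∃ E : Finset (Finset ι), (∀ m ∈ E, m.card = j) ∧ E.card ≤ (Fintype.card τ * s) ^ j ∧
      ∀ (b : τ → A) (x : Set ι), (∀ t, evC (K t (b t)) x) →
        (∃ m : Finset ι, m.card < j ∧ (∀ i ∈ m, i ∈ x) ∧ ∀ t, Hits (K t (b t)) m) ∨
        evD (E : Set (Finset ι)) x := by
  classical
  induction j with
  | zero =>
    refine ⟨{∅}, by simp, by simp, fun b x _ => Or.inr ⟨∅, by simp, by simp⟩⟩
  | succ j ih =>
    obtain ⟨E, hE, hEc, hx⟩ := ih
    choose κ hκs hκ using fun (t : τ) (m : Finset ι) => chain_choice (K t) (hch t) s (hs t) m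
    refine ⟨E.biUnion (fun m => ((univ : Finset τ).biUnion (fun t => κ t m)).filter
      (fun i => i ∉ m) |>.image (fun i => insert i m)), ?_, ?_, ?_⟩
    · intro m hm
      simp only [Finset.mem_biUnion, Finset.mem_image, Finset.mem_filter] at hm
      obtain ⟨m', hm', i, ⟨-, hi⟩, rfl⟩ := hm
      rw [Finset.card_insert_of_notMem hi, hE m' hm']
    · calc _ ≤ ∑ m ∈ E, (((univ : Finset τ).biUnion (fun t => κ t m)).filter
            (fun i => i ∉ m) |>.image (fun i => insert i m)).card := Finset.card_biUnion_le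
        _ ≤ ∑ m ∈ E, Fintype.card τ * s := by
            apply Finset.sum_le_sum
            intro m _
            refine Finset.card_image_le.trans ((Finset.card_filter_le _ _).trans ?_)
            refine Finset.card_biUnion_le.trans ?_
            calc ∑ t : τ, (κ t m).card ≤ ∑ _t : τ, s := Finset.sum_le_sum (fun t _ => hκs t m)
              _ = _ := by simp
        _ = E.card * (Fintype.card τ * s) := by simp
        _ ≤ (Fintype.card τ * s) ^ j * (Fintype.card τ * s) := Nat.mul_le_mul_right _ hEc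
        _ = _ := (pow_succ _ j).symm
    · intro b x hbx
      rcases hx b x hbx with ⟨m, hm1, hm2, hm3⟩ | ⟨m, hm, hmx⟩
      · exact Or.inl ⟨m, by omega, hm2, hm3⟩
      · by_cases hall : ∀ t, Hits (K t (b t)) m
        · exact Or.inl ⟨m, by rw [hE m hm]; omega, hmx, hall⟩
        · right
          push Not at hall
          obtain ⟨t, ht⟩ := hall
          obtain ⟨h1, h2⟩ := hκ t m (b t) ht
          obtain ⟨i, hi, hix⟩ := hbx t _ h1
          refine ⟨insert i m, ?_, ?_⟩
          · rw [Finset.mem_coe, Finset.mem_biUnion]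
            refine ⟨m, hm, ?_⟩
            rw [Finset.mem_image]
            refine ⟨i, ?_, rfl⟩
            rw [Finset.mem_filter, Finset.mem_biUnion]
            exact ⟨⟨t, mem_univ _, hi⟩, h2 i hi⟩
          · intro k hk
            rcases Finset.mem_insert.mp hk with rfl | hk
            · exact hix
            · exact hmx k hk

end switching

section

variable {X : Type*}

/-- Programs of monotone real gates with at most two inputs over the functions of `B`. -/
inductive RProg (B : Set (X → ℝ)) : List (X → ℝ) → Prop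
  | nil : RProg B []
  | gate {L : List (X → ℝ)} (w : ℕ) (hw : w ≤ 2) (φ : (Fin w → ℝ) → ℝ) (hφ : Monotone φ)
      (f : Fin w → X → ℝ) (hL : RProg B L) (hf : ∀ j, f j ∈ B ∨ f j ∈ L) :
      RProg B ((fun x => φ (fun j => f j x)) :: L)

end

section approx

variable {ι : Type*} [Fintype ι] [DecidableEq ι]

/-- a real leaf function: monotone and depending only on the variables of `T` -/
def LeafOnR (T : Finset ι) (ψ : Set ι → ℝ) : Prop :=
  ∀ x x' : Set ι, (∀ e ∈ T, e ∈ x → e ∈ x') → ψ x ≤ ψ x'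

/-- the approximators of a function -/
structure Apx (r s : ℕ) (E E' : Finset (Finset ι)) (f : Set ι → ℝ) (C D : ℝ → Set (Finset ι)) :
    Prop where
  hC : ∀ a, ∀ c ∈ C a, c.card ≤ s
  hD : ∀ a, ∀ m ∈ D a, m.card ≤ r
  monoC : ∀ a a', a ≤ a' → C a ⊆ C a'
  antiD : ∀ a a', a ≤ a' → D a' ⊆ D a
  le : ∀ a x, evD (D a) x → evC (C a) x
  pos : ∀ x, evD (E : Set (Finset ι)) x ∨ ∀ a ≤ f x, evD (D a) x
  neg : ∀ a x, evC (C a) x → evC (E' : Set (Finset ι)) x → a ≤ f x

lemma Apx.mono {r s : ℕ} {E E' F F' : Finset (Finset ι)} {f : Set ι → ℝ}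
    {C D : ℝ → Set (Finset ι)} (h : Apx r s E E' f C D) (hE : E ⊆ F) (hE' : E' ⊆ F') :
    Apx r s F F' f C D where
  hC := h.hC
  hD := h.hD
  monoC := h.monoC
  antiD := h.antiD
  le := h.le
  pos x := (h.pos x).imp (evD_mono_left (by exact_mod_cast hE)) id
  neg a x hx hE2 := h.neg a x hx (evC_anti_left (by exact_mod_cast hE') hE2)

lemma leaf_apx {T : Finset ι} {ψ : Set ι → ℝ} (h : LeafOnR T ψ) {r s : ℕ} (hr : T.card ≤ r)
    (hs : T.card ≤ s) (E E' : Finset (Finset ι)) :
    ∃ C D, Apx r s E E' ψ C D := by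
  classical
  have hD : ∀ a x, evD {m | m ⊆ T ∧ a ≤ ψ (m : Set ι)} x ↔ a ≤ ψ x := by
    intro a x
    constructor
    · rintro ⟨m, ⟨hmT, hm⟩, hmx⟩
      exact hm.trans (h _ _ (fun e _ he => hmx e he))
    · intro ha
      refine ⟨T.filter (fun i => i ∈ x), ⟨Finset.filter_subset _ _, ha.trans (h _ _ ?_)⟩, ?_⟩
      · intro e he hex
        simp [he, hex]
      · intro i hi
        exact (Finset.mem_filter.mp hi).2
  have hC : ∀ a x, evC {c | c ⊆ T ∧ ¬ a ≤ ψ ((T \ c : Finset ι) : Set ι)} x ↔ a ≤ ψ x := by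
    intro a x
    constructor
    · intro hx
      by_contra hcon
      have hmem : (T.filter (fun i => i ∉ x)) ∈
          {c : Finset ι | c ⊆ T ∧ ¬ a ≤ ψ ((T \ c : Finset ι) : Set ι)} := by
        refine ⟨Finset.filter_subset _ _, fun hψ => hcon (hψ.trans (h _ _ ?_))⟩
        intro e he hee
        simp only [Finset.coe_sdiff, Finset.coe_filter, Set.mem_diff, Finset.mem_coe,
          Set.mem_ofPred_eq, not_and, not_not] at hee
        exact hee.2 he
      obtain ⟨i, hi, hix⟩ := hx _ hmem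
      exact (Finset.mem_filter.mp hi).2 hix
    · rintro hψ c ⟨hcT, hc⟩
      by_contra hcon
      push Not at hcon
      apply hc
      refine hψ.trans (h x _ ?_)
      intro e he hex
      simp only [Finset.coe_sdiff, Set.mem_diff, Finset.mem_coe]
      exact ⟨he, fun hec => hcon e hec hex⟩
  refine ⟨fun a => {c | c ⊆ T ∧ ¬ a ≤ ψ ((T \ c : Finset ι) : Set ι)},
    fun a => {m | m ⊆ T ∧ a ≤ ψ (m : Set ι)}, ?_, ?_, ?_, ?_, ?_, ?_, ?_⟩
  · rintro a c ⟨hc, -⟩
    exact (Finset.card_le_card hc).trans hs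
  · rintro a c ⟨hc, -⟩
    exact (Finset.card_le_card hc).trans hr
  · rintro a a' haa c ⟨h1, h2⟩
    exact ⟨h1, fun h3 => h2 (haa.trans h3)⟩
  · rintro a a' haa m ⟨h1, h2⟩
    exact ⟨h1, haa.trans h2⟩
  · intro a x hx
    exact (hC a x).mpr ((hD a x).mp hx)
  · intro x
    exact Or.inr (fun a ha => (hD a x).mpr ha)
  · intro a x hx _
    exact (hC a x).mp hx

/-- Main approximation lemma for real programs. -/
theorem approxR (B : Set (Set ι → ℝ)) (w r s : ℕ) (hwr : w ≤ r) (hws : w ≤ s)
    (hleaf : ∀ b ∈ B, ∃ T : Finset ι, T.card ≤ w ∧ LeafOnR T b)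
    {L : List (Set ι → ℝ)} (hL : RProg B L) :
    ∃ (E E' : Finset (Finset ι)), E.card ≤ L.length * (2 * s) ^ (r + 1) ∧
      (∀ m ∈ E, m.card = r + 1) ∧
      E'.card ≤ L.length * r ^ (s + 1) ∧ (∀ m ∈ E', m.card = s + 1) ∧
      ∀ f, (f ∈ B ∨ f ∈ L) → ∃ C D, Apx r s E E' f C D := by
  classical
  induction hL with
  | nil =>
    refine ⟨∅, ∅, by simp, by simp, by simp, by simp, ?_⟩
    intro f hf
    rcases hf with hf | hf
    · obtain ⟨T, hT, hl⟩ := hleaf f hf
      exact leaf_apx hl (hT.trans hwr) (hT.trans hws) _ _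
    · simp at hf
  | @gate L k hk φ hφ f hL hf ih =>
    obtain ⟨E, E', hEc, hE, hEc', hE', H⟩ := ih
    choose C D hA using fun j => H (f j) (hf j)
    -- switching
    obtain ⟨E1, hE1, hE1c, hsw⟩ := switchR (fun j : Fin k => C j)
      (fun j a b => (le_total a b).imp ((hA j).monoC a b) ((hA j).monoC b a)) s
      (fun j a => (hA j).hC a) (r + 1)
    let Dg : ℝ → Set (Finset ι) := fun a =>
      {m | m.card ≤ r ∧ ∃ b : Fin k → ℝ, a ≤ φ b ∧ ∀ j, Hits (C j (b j)) m}
    have hDg : ∀ a a', a ≤ a' → Dg a' ⊆ Dg a := by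
      rintro a a' haa m ⟨h1, b, h2, h3⟩
      exact ⟨h1, b, haa.trans h2, h3⟩
    obtain ⟨E2, hE2, hE2c, hsw2⟩ := switchR (fun (_ : Fin 1) => Dg)
      (fun _ a b => (le_total a b).symm.imp (hDg b a) (hDg a b)) r (fun _ a m hm => hm.1) (s + 1)
    rw [Fintype.card_fin, one_mul] at hE2c
    let Cg : ℝ → Set (Finset ι) := fun a => {κ | κ.card ≤ s ∧ Hits (Dg a) κ}
    have hE1c' : E1.card ≤ (2 * s) ^ (r + 1) := by
      refine hE1c.trans (Nat.pow_le_pow_left ?_ _)
      rw [Fintype.card_fin]
      exact Nat.mul_le_mul_right _ hk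
    refine ⟨E ∪ E1, E' ∪ E2, ?_, ?_, ?_, ?_, ?_⟩
    · calc (E ∪ E1).card ≤ E.card + E1.card := Finset.card_union_le _ _
        _ ≤ L.length * (2 * s) ^ (r + 1) + (2 * s) ^ (r + 1) := Nat.add_le_add hEc hE1c'
        _ = _ := by rw [List.length_cons]; ring
    · intro m hm
      rcases Finset.mem_union.mp hm with h | h
      · exact hE m h
      · exact hE1 m h
    · calc (E' ∪ E2).card ≤ E'.card + E2.card := Finset.card_union_le _ _
        _ ≤ L.length * r ^ (s + 1) + r ^ (s + 1) := Nat.add_le_add hEc' hE2c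
        _ = _ := by rw [List.length_cons]; ring
    · intro m hm
      rcases Finset.mem_union.mp hm with h | h
      · exact hE' m h
      · exact hE2 m h
    · intro g hg
      have hold : (g ∈ B ∨ g ∈ L) → ∃ C D, Apx r s (E ∪ E1) (E' ∪ E2) g C D := by
        intro h
        obtain ⟨C0, D0, h0⟩ := H g h
        exact ⟨C0, D0, h0.mono Finset.subset_union_left Finset.subset_union_left⟩
      rcases hg with hg | hg
      · exact hold (Or.inl hg)
      rcases List.mem_cons.mp hg with rfl | hg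
      · refine ⟨Cg, Dg, ?_⟩
        exact
          { hC := fun a c hc => hc.1
            hD := fun a m hm => hm.1
            monoC := by
              rintro a a' haa κ ⟨h1, h2⟩
              exact ⟨h1, fun m hm => h2 m (hDg a a' haa hm)⟩
            antiD := hDg
            le := by
              rintro a x ⟨m, hm, hmx⟩ κ ⟨hκ1, hκ2⟩
              obtain ⟨i, hi, hik⟩ := hκ2 m hm
              exact ⟨i, hik, hmx i hi⟩
            pos := by
              intro x
              by_cases hEx : evD (E : Set (Finset ι)) x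
              · exact Or.inl (evD_mono_left (by simp) hEx)
              · have hc : ∀ j, evC (C j (f j x)) x := by
                  intro j
                  rcases (hA j).pos x with h | h
                  · exact absurd h hEx
                  · exact (hA j).le _ _ (h _ le_rfl)
                rcases hsw (fun j => f j x) x hc with ⟨m, h1, h2, h3⟩ | h
                · right
                  intro a ha
                  exact ⟨m, ⟨by omega, fun j => f j x, ha, h3⟩, h2⟩
                · left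
                  exact evD_mono_left (by simp) h
            neg := by
              intro a x hx hEx
              have hEx1 : evC (E' : Set (Finset ι)) x := evC_anti_left (by simp) hEx
              have hEx2 : evC (E2 : Set (Finset ι)) x := evC_anti_left (by simp) hEx
              have hDx : evD (Dg a) x := by
                by_contra hcon
                rcases hsw2 (fun _ => a) xᶜ (fun _ => (evC_compl _ _).mpr hcon) with
                  ⟨κ, h1, h2, h3⟩ | h
                · obtain ⟨i, hi, hix⟩ := hx κ ⟨by omega, h3 0⟩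
                  exact h2 i hi hix
                · exact (evD_compl _ x).mp h hEx2
              obtain ⟨m, ⟨-, b, hb, hm⟩, hmx⟩ := hDx
              refine hb.trans (hφ ?_)
              intro j
              exact (hA j).neg _ _ (evC_of_hits (hm j) hmx) hEx1 }
      · exact hold (Or.inr hg)

/-- The criterion for real programs. -/
theorem criterionR (B : Set (Set ι → ℝ)) (w r s : ℕ) (hwr : w ≤ r) (hws : w ≤ s)
    (hleaf : ∀ b ∈ B, ∃ T : Finset ι, T.card ≤ w ∧ LeafOnR T b)
    {L : List (Set ι → ℝ)} (hL : RProg B L) (f : Set ι → ℝ) (hf : f ∈ B ∨ f ∈ L) (θ : ℝ) :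
    (∃ E' : Finset (Finset ι), E'.card ≤ L.length * r ^ (s + 1) ∧ (∀ m ∈ E', m.card = s + 1) ∧
      ∀ x, evC (E' : Set (Finset ι)) x → θ ≤ f x) ∨
    (∃ (E : Finset (Finset ι)) (I : Finset ι), E.card ≤ L.length * (2 * s) ^ (r + 1) ∧
      (∀ m ∈ E, m.card = r + 1) ∧ I.card ≤ s ∧
      ∀ x, θ ≤ f x → evD (E : Set (Finset ι)) x ∨ ∃ i ∈ I, i ∈ x) := by
  obtain ⟨E, E', h1, h2, h3, h4, H⟩ := approxR B w r s hwr hws hleaf hL
  obtain ⟨C, D, hA⟩ := H f hf
  by_cases hC : C θ = ∅
  · left
    refine ⟨E', h3, h4, fun x hx => hA.neg θ x ?_ hx⟩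
    rw [hC]
    intro c hc
    exact absurd hc (Set.notMem_empty c)
  · right
    obtain ⟨I, hI⟩ := Set.nonempty_iff_ne_empty.mpr hC
    refine ⟨E, I, h1, h2, hA.hC θ I hI, fun x hx => ?_⟩
    rcases hA.pos x with h | h
    · exact Or.inl h
    · exact Or.inr (hA.le θ x (h θ hx) I hI)

end approx

end Pool.Agent.H560R2
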