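import Pool.Agent.H560R2.Mat2
import Pool.Agent.H560R2.Real1

/-! Approximation of monotone real programs by chains of closed families of matchings. -/

set_option linter.unusedSectionVars false
set_option linter.unusedVariables false

namespace Pool.Agent.H560R2

open Finset

section

variable {E V : Type} [Fintype E] [DecidableEq E] [Fintype V] [DecidableEq V]
  {ends : E → Finset V} {Q : ℕ} [NeZero Q]

/-- probability that the random set contains a vertex -/
lemma card_wb (B J : ℕ) (v : V) :
    {ω : Fin B → Fin J → V → Fin Q | v ∈ WB ω}.ncard * Q ≤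
      B * J * ((Q ^ Fintype.card V) ^ J) ^ B := by
  classical
  have hOm : (univ : Finset (Fin B → Fin J → V → Fin Q)).card =
      ((Q ^ Fintype.card V) ^ J) ^ B := by simp
  have h1 : ∀ (b : Fin B) (j : Fin J),
      {ω : Fin B → Fin J → V → Fin Q | ω b j v = 0}.ncard * Q ≤
        ((Q ^ Fintype.card V) ^ J) ^ B := by
    intro b j
    let A : Finset (Fin B → Fin J → V → Fin Q) := univ.filter (fun ω => ω b j v = 0)
    have hA : {ω : Fin B → Fin J → V → Fin Q | ω b j v = 0} = (A : Set _) := by
      ext ω; simp [A]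
    rw [hA, Set.ncard_coe_finset, ← hOm]
    have : A.card * Q = (A ×ˢ (univ : Finset (Fin Q))).card := by
      rw [Finset.card_product, Finset.card_univ, Fintype.card_fin]
    rw [this]
    apply Finset.card_le_card_of_injOn
      (fun p => Function.update p.1 b (Function.update (p.1 b) j
        (Function.update (p.1 b j) v p.2)))
    · intro p _
      exact Finset.mem_coe.mpr (mem_univ _)
    · rintro ⟨ω, c⟩ hp ⟨ω', c'⟩ hp' heq
      have e1 : ω b j v = 0 := by
        have := (Finset.mem_product.mp (Finset.mem_coe.mp hp)).1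
        simpa [A] using this
      have e2 : ω' b j v = 0 := by
        have := (Finset.mem_product.mp (Finset.mem_coe.mp hp')).1
        simpa [A] using this
      simp only at heq
      have hb : ∀ b' j' v', Function.update ω b (Function.update (ω b) j
          (Function.update (ω b j) v c)) b' j' v' = Function.update ω' b
          (Function.update (ω' b) j (Function.update (ω' b j) v c')) b' j' v' := by
        intro b' j' v'
        rw [heq]
      have hc : c = c' := by
        have := hb b j v
        simpa using this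
      have hω : ω = ω' := by
        funext b' j' v'
        have h3 := hb b' j' v'
        by_cases hb' : b' = b
        · subst hb'
          rw [Function.update_self, Function.update_self] at h3
          by_cases hj' : j' = j
          · subst hj'
            rw [Function.update_self, Function.update_self] at h3
            by_cases hv' : v' = v
            · subst hv'
              rw [e1, e2]
            · rwa [Function.update_of_ne hv', Function.update_of_ne hv'] at h3
          · rwa [Function.update_of_ne hj', Function.update_of_ne hj'] at h3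
        · rwa [Function.update_of_ne hb', Function.update_of_ne hb'] at h3
      rw [hω, hc]
  have hsub : {ω : Fin B → Fin J → V → Fin Q | v ∈ WB ω} ⊆
      ⋃ p ∈ (univ : Finset (Fin B × Fin J)),
        {ω : Fin B → Fin J → V → Fin Q | ω p.1 p.2 v = 0} := by
    intro ω hω
    obtain ⟨b, j, h⟩ := (mem_WB ω v).mp hω
    simp only [Set.mem_iUnion]
    exact ⟨(b, j), mem_univ _, h⟩
  calc _ ≤ (∑ p ∈ (univ : Finset (Fin B × Fin J)),
        {ω : Fin B → Fin J → V → Fin Q | ω p.1 p.2 v = 0}.ncard) * Q :=
        Nat.mul_le_mul_right _ ((Set.ncard_le_ncard hsub (Set.toFinite _)).trans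
          (Finset.set_ncard_biUnion_le _ _))
    _ = ∑ p ∈ (univ : Finset (Fin B × Fin J)),
        {ω : Fin B → Fin J → V → Fin Q | ω p.1 p.2 v = 0}.ncard * Q := by rw [Finset.sum_mul]
    _ ≤ ∑ p ∈ (univ : Finset (Fin B × Fin J)), ((Q ^ Fintype.card V) ^ J) ^ B :=
        Finset.sum_le_sum (fun p _ => h1 p.1 p.2)
    _ = _ := by simp

lemma Om_pos (B J : ℕ) : 0 < ((Q ^ Fintype.card V) ^ J) ^ B := by
  have : 0 < Q := Nat.pos_of_ne_zero (NeZero.ne Q)
  positivity

lemma card_Om (B J : ℕ) : (Set.univ : Set (Fin B → Fin J → V → Fin Q)).ncard =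
    ((Q ^ Fintype.card V) ^ J) ^ B := by
  rw [Set.ncard_univ, Nat.card_eq_fintype_card]
  simp

/-- probability that the random set touches an edge -/
lemma card_touch (h2 : ∀ e, (ends e).card = 2) (B J : ℕ) (hBJ : 0 < B * J)
    (hQ : 8 * (B * J) ≤ Q) (e : E) :
    {ω : Fin B → Fin J → V → Fin Q | e ∈ touch ends (WB ω)}.ncard * 4 ≤
      ((Q ^ Fintype.card V) ^ J) ^ B := by
  classical
  have hsub : {ω : Fin B → Fin J → V → Fin Q | e ∈ touch ends (WB ω)} ⊆
      ⋃ v ∈ ends e, {ω : Fin B → Fin J → V → Fin Q | v ∈ WB ω} := by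
    intro ω hω
    have hω' := mem_touch.mp hω
    rw [Finset.not_disjoint_iff] at hω'
    obtain ⟨v, h1, h3⟩ := hω'
    simp only [Set.mem_iUnion]
    exact ⟨v, h1, h3⟩
  have h1 : {ω : Fin B → Fin J → V → Fin Q | e ∈ touch ends (WB ω)}.ncard * Q ≤
      2 * (B * J * ((Q ^ Fintype.card V) ^ J) ^ B) := by
    calc _ ≤ (∑ v ∈ ends e, {ω : Fin B → Fin J → V → Fin Q | v ∈ WB ω}.ncard) * Q :=
          Nat.mul_le_mul_right _ ((Set.ncard_le_ncard hsub (Set.toFinite _)).trans
            (Finset.set_ncard_biUnion_le _ _))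
      _ = ∑ v ∈ ends e, {ω : Fin B → Fin J → V → Fin Q | v ∈ WB ω}.ncard * Q := by
          rw [Finset.sum_mul]
      _ ≤ ∑ v ∈ ends e, B * J * ((Q ^ Fintype.card V) ^ J) ^ B :=
          Finset.sum_le_sum (fun v _ => card_wb B J v)
      _ = _ := by simp [h2]
  have h3 : {ω : Fin B → Fin J → V → Fin Q | e ∈ touch ends (WB ω)}.ncard * (8 * (B * J)) ≤
      2 * (B * J * ((Q ^ Fintype.card V) ^ J) ^ B) := (Nat.mul_le_mul_left _ hQ).trans h1
  have h4 : (2 * (B * J)) *
      ({ω : Fin B → Fin J → V → Fin Q | e ∈ touch ends (WB ω)}.ncard * 4) ≤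
      (2 * (B * J)) * ((Q ^ Fintype.card V) ^ J) ^ B := by
    calc _ = {ω : Fin B → Fin J → V → Fin Q | e ∈ touch ends (WB ω)}.ncard * (8 * (B * J)) := by
          ring
      _ ≤ _ := h3
      _ = _ := by ring
  exact Nat.le_of_mul_le_mul_left h4 (by omega)

/-- approximators -/
structure Apm (ends : E → Finset V) (Q B J w : ℕ) [NeZero Q] {P : Type} (gr : P → Finset E)
    (Ep : Set P) (En : Set (Fin B → Fin J → V → Fin Q)) (f : Set E → ℝ)
    (D : ℝ → Finset (Finset E)) : Prop where
  closed : ∀ a, clsd ends Q B J w (D a)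
  anti : ∀ a a', a ≤ a' → D a' ⊆ D a
  pos : ∀ p, p ∉ Ep → ∀ a ≤ f (gr p : Set E), sat (D a) (gr p)
  neg : ∀ ω, ω ∉ En → ∀ a, sat (D a) (touch ends (WB ω)) →
    a ≤ f (touch ends (WB ω) : Set E)

lemma Apm.mono {B J w : ℕ} {P : Type} {gr : P → Finset E} {Ep Ep' : Set P}
    {En En' : Set (Fin B → Fin J → V → Fin Q)} {f : Set E → ℝ} {D : ℝ → Finset (Finset E)}
    (h : Apm ends Q B J w gr Ep En f D) (h1 : Ep ⊆ Ep') (h2 : En ⊆ En') :
    Apm ends Q B J w gr Ep' En' f D where
  closed := h.closed
  anti := h.anti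
  pos p hp := h.pos p (fun hh => hp (h1 hh))
  neg ω hω := h.neg ω (fun hh => hω (h2 hh))

lemma leaf_apm (h2 : ∀ e, (ends e).card = 2) (B J w : ℕ) (hB : 3 ≤ B) (hJ : 0 < J) (hw : 0 < w)
    (hQ : 8 * (B * J) ≤ Q) {P : Type} (gr : P → Finset E) (hgr : ∀ p, IsMt ends (gr p))
    (Ep : Set P) (En : Set (Fin B → Fin J → V → Fin Q)) {T : Finset E} (hT : T.card ≤ 1)
    {ψ : Set E → ℝ} (hψ : LeafOnR T ψ) : ∃ D, Apm ends Q B J w gr Ep En ψ D := by
  classical
  refine ⟨fun a => (Tm ends w).filter (fun S => a ≤ ψ (S : Set E)), ?_, ?_, ?_, ?_⟩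
  · intro a
    refine ⟨Finset.filter_subset _ _, fun Y hY hs => ?_⟩
    rw [Finset.mem_filter]
    refine ⟨hY, ?_⟩
    by_contra hcon
    -- the good samples
    have hbad : {ω : Fin B → Fin J → V → Fin Q | ∃ e ∈ T, e ∈ touch ends (WB ω)}.ncard * 4 ≤
        ((Q ^ Fintype.card V) ^ J) ^ B := by
      have hsub : {ω : Fin B → Fin J → V → Fin Q | ∃ e ∈ T, e ∈ touch ends (WB ω)} ⊆
          ⋃ e ∈ T, {ω : Fin B → Fin J → V → Fin Q | e ∈ touch ends (WB ω)} := by
        rintro ω ⟨e, he, h⟩
        simp only [Set.mem_iUnion]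
        exact ⟨e, he, h⟩
      calc _ ≤ (∑ e ∈ T, {ω : Fin B → Fin J → V → Fin Q | e ∈ touch ends (WB ω)}.ncard) * 4 :=
            Nat.mul_le_mul_right _ ((Set.ncard_le_ncard hsub (Set.toFinite _)).trans
              (Finset.set_ncard_biUnion_le _ _))
        _ = ∑ e ∈ T, {ω : Fin B → Fin J → V → Fin Q | e ∈ touch ends (WB ω)}.ncard * 4 := by
            rw [Finset.sum_mul]
        _ ≤ ∑ e ∈ T, ((Q ^ Fintype.card V) ^ J) ^ B :=
            Finset.sum_le_sum (fun e _ => card_touch h2 B J (by positivity) hQ e)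
        _ = T.card * ((Q ^ Fintype.card V) ^ J) ^ B := by simp
        _ ≤ 1 * ((Q ^ Fintype.card V) ^ J) ^ B := Nat.mul_le_mul_right _ hT
        _ = _ := one_mul _
    have hcov : (Set.univ : Set (Fin B → Fin J → V → Fin Q)) ⊆
        {ω | ∃ e ∈ T, e ∈ touch ends (WB ω)} ∪
        {ω | ¬ sat ((Tm ends w).filter (fun S => a ≤ ψ (S : Set E)))
          (touch ends (WB ω) ∪ Y)} := by
      intro ω _
      by_cases h : ∃ e ∈ T, e ∈ touch ends (WB ω)
      · exact Or.inl h
      · right
        rintro ⟨S, hS, hsub⟩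
        apply hcon
        refine (Finset.mem_filter.mp hS).2.trans (hψ _ _ ?_)
        intro e he heS
        rcases Finset.mem_union.mp (hsub (Finset.mem_coe.mp heS)) with h4 | h4
        · exact absurd ⟨e, he, h4⟩ h
        · exact h4
    have h5 := (Set.ncard_le_ncard hcov (Set.toFinite _)).trans (Set.ncard_union_le _ _)
    rw [card_Om] at h5
    unfold sml at hs
    have h6 : (2 : ℕ) ^ 3 ≤ 2 ^ B := Nat.pow_le_pow_right (by norm_num) hB
    have h7 : {ω : Fin B → Fin J → V → Fin Q | ¬ sat ((Tm ends w).filter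
        (fun S => a ≤ ψ (S : Set E))) (touch ends (WB ω) ∪ Y)}.ncard * 2 ^ 3 ≤
        ((Q ^ Fintype.card V) ^ J) ^ B := (Nat.mul_le_mul_left _ h6).trans hs
    have h8 := Om_pos (V := V) (Q := Q) B J
    omega
  · intro a a' haa S hS
    rw [Finset.mem_filter] at hS ⊢
    exact ⟨hS.1, haa.trans hS.2⟩
  · intro p _ a ha
    refine ⟨T ∩ gr p, ?_, Finset.inter_subset_right⟩
    rw [Finset.mem_filter, mem_Tm]
    refine ⟨⟨(Finset.card_le_card Finset.inter_subset_left).trans (hT.trans hw),
      (hgr p).mono Finset.inter_subset_right⟩, ha.trans (hψ _ _ ?_)⟩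
    intro e he hep
    rw [Finset.mem_coe, Finset.mem_inter]
    exact ⟨he, hep⟩
  · rintro ω _ a ⟨S, hS, hsub⟩
    refine (Finset.mem_filter.mp hS).2.trans (hψ _ _ ?_)
    intro e _ heS
    exact hsub heS

/-- all minimal members of a chain -/
noncomputable def mina (w : ℕ) (D : ℝ → Finset (Finset E)) : Finset (Finset E) :=
  (Finset.range (w + 1)).biUnion (minc D)

lemma card_mina (h2 : ∀ e, (ends e).card = 2) (hinj : Function.Injective ends)
    (B J w r R : ℕ) (hr : 64 * Q ≤ r) (hR : 8 * w ^ 2 * r ^ 2 ≤ R) (hR1 : 1 ≤ R)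
    (hJ : 2 * w < 2 ^ J) (D : ℝ → Finset (Finset E)) (hD : ∀ a, clsd ends Q B J w (D a))
    (hanti : ∀ a a', a ≤ a' → D a' ⊆ D a) : (mina w D).card ≤ (w + 1) * R ^ w := by
  unfold mina
  refine Finset.card_biUnion_le.trans ?_
  calc ∑ l ∈ Finset.range (w + 1), (minc D l).card ≤ ∑ l ∈ Finset.range (w + 1), R ^ w := by
        apply Finset.sum_le_sum
        intro l hl
        have hlw : l ≤ w := by
          have := Finset.mem_range.mp hl
          omega
        refine (minc_thin h2 hinj B J w r R l hr ?_ (by omega) hlw D hD hanti).trans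
          (Nat.pow_le_pow_right hR1 hlw)
        exact (Nat.mul_le_mul_right _ (Nat.mul_le_mul_left _ (Nat.pow_le_pow_left hlw 2))).trans hR
    _ = _ := by simp

/-- Main approximation lemma. -/
theorem approxM (h2 : ∀ e, (ends e).card = 2) (hinj : Function.Injective ends)
    (B J w r R K : ℕ) (hB : 3 ≤ B) (hJ0 : 0 < J) (hw : 0 < w) (hQ : 8 * (B * J) ≤ Q)
    (hr : 64 * Q ≤ r) (hR : 8 * w ^ 2 * r ^ 2 ≤ R) (hR1 : 1 ≤ R) (hJ : 2 * w < 2 ^ J)
    (B0 : Set (Set E → ℝ)) (hleaf : ∀ b ∈ B0, ∃ T : Finset E, T.card ≤ 1 ∧ LeafOnR T b)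
    {P : Type} [Fintype P] (gr : P → Finset E) (hgr : ∀ p, IsMt ends (gr p))
    (hind : ∀ Y : Finset E, Y.card = w + 1 →
      {p : P | Y ⊆ gr p}.ncard * K ^ (w + 1) ≤ Fintype.card P)
    {L : List (Set E → ℝ)} (hL : RProg B0 L) :
    ∃ (Ep : Set P) (En : Set (Fin B → Fin J → V → Fin Q)),
      Ep.ncard * K ^ (w + 1) ≤ L.length * (((w + 1) * R ^ w) ^ 2 * Fintype.card P) ∧
      En.ncard * 2 ^ B ≤ L.length * (((Tm ends w).card + 1) * ((Tm ends w).card *
        ((Q ^ Fintype.card V) ^ J) ^ B)) ∧
      ∀ f, (f ∈ B0 ∨ f ∈ L) → ∃ D, Apm ends Q B J w gr Ep En f D := by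
  classical
  induction hL with
  | nil =>
    refine ⟨∅, ∅, by simp, by simp, ?_⟩
    intro f hf
    rcases hf with hf | hf
    · obtain ⟨T, hT, hl⟩ := hleaf f hf
      exact leaf_apm h2 B J w hB hJ0 hw hQ gr hgr _ _ hT hl
    · simp at hf
  | @gate L k hk φ hφ f hL hf ih =>
    obtain ⟨Ep, En, hEp, hEn, H⟩ := ih
    choose D hA using fun j => H (f j) (hf j)
    let U : ℝ → Finset (Finset E) := fun a => (Tm ends w).filter
      (fun S => ∃ b : Fin k → ℝ, a ≤ φ b ∧ ∀ j, S ∈ D j (b j))
    have hU : ∀ a, U a ⊆ Tm ends w := fun a => Finset.filter_subset _ _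
    have hUa : ∀ a a', a ≤ a' → U a' ⊆ U a := by
      intro a a' haa S hS
      rw [Finset.mem_filter] at hS ⊢
      obtain ⟨h1, b, h3, h4⟩ := hS
      exact ⟨h1, b, haa.trans h3, h4⟩
    let En1 : Set (Fin B → Fin J → V → Fin Q) := {ω | ∃ a,
      sat (clo ends Q B J w (U a)) (touch ends (WB ω)) ∧ ¬ sat (U a) (touch ends (WB ω))}
    let Ep1 : Set P := {p | ∃ T : Fin k → Finset E, (∀ j, T j ∈ mina w (D j)) ∧
      (∀ j, T j ⊆ gr p) ∧ w < (univ.biUnion T).card}
    have hEn1 := chain_error (ends := ends) (Q := Q) B J w U hU hUa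
    have hEp1 : Ep1.ncard * K ^ (w + 1) ≤ ((w + 1) * R ^ w) ^ 2 * Fintype.card P := by
      have hsub : Ep1 ⊆ ⋃ T ∈ (Fintype.piFinset (fun j => mina w (D j))).filter
          (fun T : Fin k → Finset E => w < (univ.biUnion T).card),
          {p : P | univ.biUnion T ⊆ gr p} := by
        rintro p ⟨T, h1, h3, h4⟩
        simp only [Set.mem_iUnion]
        refine ⟨T, Finset.mem_filter.mpr ⟨Fintype.mem_piFinset.mpr h1, h4⟩, ?_⟩
        intro e he
        obtain ⟨j, -, hj⟩ := Finset.mem_biUnion.mp he
        exact h3 j hj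
      have hone : ∀ T ∈ (Fintype.piFinset (fun j => mina w (D j))).filter
          (fun T : Fin k → Finset E => w < (univ.biUnion T).card),
          {p : P | univ.biUnion T ⊆ gr p}.ncard * K ^ (w + 1) ≤ Fintype.card P := by
        intro T hT
        obtain ⟨Y, hY1, hY2⟩ := Finset.exists_subset_card_eq
          (show w + 1 ≤ (univ.biUnion T).card from (Finset.mem_filter.mp hT).2)
        refine le_trans (Nat.mul_le_mul_right _ (Set.ncard_le_ncard ?_ (Set.toFinite _)))
          (hind Y hY2)
        intro p hp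
        exact hY1.trans hp
      have hprod : (Fintype.piFinset (fun j => mina w (D j))).card ≤ ((w + 1) * R ^ w) ^ 2 := by
        rw [Fintype.card_piFinset]
        calc ∏ j, (mina w (D j)).card ≤ ∏ _j : Fin k, (w + 1) * R ^ w := by
              apply Finset.prod_le_prod'
              intro j _
              exact card_mina h2 hinj B J w r R hr hR hR1 hJ (D j) (hA j).closed (hA j).anti
          _ = ((w + 1) * R ^ w) ^ k := by simp
          _ ≤ _ := Nat.pow_le_pow_right (by positivity) hk
      calc Ep1.ncard * K ^ (w + 1)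
          ≤ (∑ T ∈ (Fintype.piFinset (fun j => mina w (D j))).filter
              (fun T : Fin k → Finset E => w < (univ.biUnion T).card),
              {p : P | univ.biUnion T ⊆ gr p}.ncard) * K ^ (w + 1) :=
            Nat.mul_le_mul_right _ ((Set.ncard_le_ncard hsub (Set.toFinite _)).trans
              (Finset.set_ncard_biUnion_le _ _))
        _ = ∑ T ∈ (Fintype.piFinset (fun j => mina w (D j))).filter
              (fun T : Fin k → Finset E => w < (univ.biUnion T).card),
              {p : P | univ.biUnion T ⊆ gr p}.ncard * K ^ (w + 1) := by rw [Finset.sum_mul]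
        _ ≤ ∑ T ∈ (Fintype.piFinset (fun j => mina w (D j))).filter
              (fun T : Fin k → Finset E => w < (univ.biUnion T).card), Fintype.card P :=
            Finset.sum_le_sum hone
        _ = ((Fintype.piFinset (fun j => mina w (D j))).filter
              (fun T : Fin k → Finset E => w < (univ.biUnion T).card)).card * Fintype.card P := by
            simp
        _ ≤ _ := Nat.mul_le_mul_right _ ((Finset.card_filter_le _ _).trans hprod)
    refine ⟨Ep ∪ Ep1, En ∪ En1, ?_, ?_, ?_⟩
    · calc (Ep ∪ Ep1).ncard * K ^ (w + 1) ≤ (Ep.ncard + Ep1.ncard) * K ^ (w + 1) :=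
            Nat.mul_le_mul_right _ (Set.ncard_union_le _ _)
        _ ≤ L.length * (((w + 1) * R ^ w) ^ 2 * Fintype.card P) +
            ((w + 1) * R ^ w) ^ 2 * Fintype.card P := by
            rw [add_mul]
            exact Nat.add_le_add hEp hEp1
        _ = _ := by rw [List.length_cons]; ring
    · calc (En ∪ En1).ncard * 2 ^ B ≤ (En.ncard + En1.ncard) * 2 ^ B :=
            Nat.mul_le_mul_right _ (Set.ncard_union_le _ _)
        _ ≤ L.length * (((Tm ends w).card + 1) * ((Tm ends w).card *
              ((Q ^ Fintype.card V) ^ J) ^ B)) + ((Tm ends w).card + 1) * ((Tm ends w).card *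
              ((Q ^ Fintype.card V) ^ J) ^ B) := by
            rw [add_mul]
            exact Nat.add_le_add hEn hEn1
        _ = _ := by rw [List.length_cons]; ring
    · intro g hg
      have hold : (g ∈ B0 ∨ g ∈ L) → ∃ D, Apm ends Q B J w gr (Ep ∪ Ep1) (En ∪ En1) g D := by
        intro h
        obtain ⟨D0, h0⟩ := H g h
        exact ⟨D0, h0.mono Set.subset_union_left Set.subset_union_left⟩
      rcases hg with hg | hg
      · exact hold (Or.inl hg)
      rcases List.mem_cons.mp hg with rfl | hg
      · refine ⟨fun a => clo ends Q B J w (U a), ?_⟩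
        exact
          { closed := fun a => clsd_clo _
            anti := fun a a' haa => clo_mono (hUa a a' haa)
            pos := by
              intro p hp a ha
              have hp1 : p ∉ Ep := fun h => hp (Or.inl h)
              have hp2 : p ∉ Ep1 := fun h => hp (Or.inr h)
              choose T hT1 hT2 hT3 using fun j =>
                exists_minc ((hA j).pos p hp1 (f j (gr p : Set E)) le_rfl)
              have hTw : ∀ j, (T j).card ≤ w := fun j => (mem_Tm.mp (((hA j).closed _).1 (hT1 j))).1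
              have hsub : univ.biUnion T ⊆ gr p := by
                intro e he
                obtain ⟨j, -, hj⟩ := Finset.mem_biUnion.mp he
                exact hT2 j hj
              have hcw : (univ.biUnion T).card ≤ w := by
                by_contra hcon
                apply hp2
                refine ⟨T, fun j => ?_, hT2, by omega⟩
                unfold mina
                rw [Finset.mem_biUnion]
                exact ⟨(T j).card, Finset.mem_range.mpr (by have := hTw j; omega), hT3 j⟩
              have hTm : univ.biUnion T ∈ Tm ends w := mem_Tm.mpr ⟨hcw, (hgr p).mono hsub⟩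
              refine ⟨univ.biUnion T, subset_clo (hU a) ?_, hsub⟩
              rw [Finset.mem_filter]
              exact ⟨hTm, fun j => f j (gr p : Set E), ha, fun j =>
                ((hA j).closed _).up (hT1 j) (Finset.subset_biUnion_of_mem T (mem_univ j)) hTm⟩
            neg := by
              intro ω hω a hs
              have hω1 : ω ∉ En := fun h => hω (Or.inl h)
              have hω2 : ω ∉ En1 := fun h => hω (Or.inr h)
              have hs2 : sat (U a) (touch ends (WB ω)) := by
                by_contra hcon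
                exact hω2 ⟨a, hs, hcon⟩
              obtain ⟨S, hS, hsub⟩ := hs2
              obtain ⟨-, b, h3, h4⟩ := Finset.mem_filter.mp hS
              refine h3.trans (hφ (fun j => ?_))
              exact (hA j).neg ω hω1 (b j) ⟨S, h4 j, hsub⟩ }
      · exact hold (Or.inr hg)

end

end Pool.Agent.H560R2
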