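import Pool.Agent.H560R2.Mat3
import Pool.Agent.H560R2.Spread5

/-! Exponential lower bound for monotone real programs for bipartite perfect matching. -/

set_option linter.unusedSectionVars false
set_option linter.unusedVariables false

namespace Pool.Agent.H560R2

open Finset

section

variable {n : ℕ}

/-- the two ends of an edge of `K_{n,n}` -/
def bends (e : Fin n × Fin n) : Finset (Fin n ⊕ Fin n) := {Sum.inl e.1, Sum.inr e.2}

lemma bends_card (e : Fin n × Fin n) : (bends e).card = 2 := by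
  unfold bends
  rw [Finset.card_pair]
  simp

lemma bends_inj : Function.Injective (bends (n := n)) := by
  intro e f h
  have h1 : Sum.inl e.1 ∈ bends f := by rw [← h]; simp [bends]
  have h2 : Sum.inr e.2 ∈ bends f := by rw [← h]; simp [bends]
  simp only [bends, Finset.mem_insert, Finset.mem_singleton, Sum.inl.injEq, reduceCtorEq,
    or_false, Sum.inr.injEq, false_or] at h1 h2
  exact Prod.ext h1 h2

/-- the graph of a permutation -/
def pgr (σ : Equiv.Perm (Fin n)) : Finset (Fin n × Fin n) := univ.filter (fun e => σ e.1 = e.2)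

lemma mem_pgr {σ : Equiv.Perm (Fin n)} {e : Fin n × Fin n} : e ∈ pgr σ ↔ σ e.1 = e.2 := by
  simp [pgr]

lemma pgr_mt (σ : Equiv.Perm (Fin n)) : IsMt bends (pgr σ) := by
  intro e he f hf hef
  rw [mem_pgr] at he hf
  rw [Finset.disjoint_left]
  intro v hv hv'
  apply hef
  simp only [bends, Finset.mem_insert, Finset.mem_singleton] at hv hv'
  rcases hv with rfl | rfl
  · rcases hv' with h | h
    · have h1 : e.1 = f.1 := Sum.inl.inj h
      exact Prod.ext h1 (by rw [← he, ← hf, h1])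
    · exact absurd h (by simp)
  · rcases hv' with h | h
    · exact absurd h (by simp)
    · have h1 : e.2 = f.2 := Sum.inr.inj h
      exact Prod.ext (σ.injective (by rw [he, hf, h1])) h1

/-- permutations through many given pairs are rare -/
lemma card_perm (w : ℕ) : ∀ (k : ℕ) (Y : Finset (Fin n × Fin n)), Y.card = k → k ≤ w + 1 →
    {σ : Equiv.Perm (Fin n) | Y ⊆ pgr σ}.ncard * (n - w) ^ k ≤
      Fintype.card (Equiv.Perm (Fin n)) := by
  classical
  intro k
  induction k with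
  | zero =>
    intro Y _ _
    rw [pow_zero, mul_one]
    calc _ ≤ (Set.univ : Set (Equiv.Perm (Fin n))).ncard :=
          Set.ncard_le_ncard (Set.subset_univ _) (Set.toFinite _)
      _ = _ := by rw [Set.ncard_univ, Nat.card_eq_fintype_card]
  | succ k ih =>
    intro Y hY hk
    obtain ⟨e, he⟩ : Y.Nonempty := Finset.card_pos.mp (by omega)
    have hY' : (Y.erase e).card = k := by rw [Finset.card_erase_of_mem he]; omega
    have ih' := ih (Y.erase e) hY' (by omega)
    -- free values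
    let Fr : Finset (Fin n) := univ \ (Y.erase e).image Prod.snd
    have hFr : n - w ≤ Fr.card := by
      have h1 : ((Y.erase e).image Prod.snd).card ≤ k := Finset.card_image_le.trans hY'.le
      have h2 : Fr.card = n - ((Y.erase e).image Prod.snd).card := by
        rw [Finset.card_sdiff_of_subset (Finset.subset_univ _), Finset.card_univ,
          Fintype.card_fin]
      omega
    let A : Finset (Equiv.Perm (Fin n)) := univ.filter (fun σ => Y ⊆ pgr σ)
    let A' : Finset (Equiv.Perm (Fin n)) := univ.filter (fun σ => Y.erase e ⊆ pgr σ)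
    have hA : {σ : Equiv.Perm (Fin n) | Y ⊆ pgr σ} = (A : Set _) := by ext σ; simp [A]
    have hA' : {σ : Equiv.Perm (Fin n) | Y.erase e ⊆ pgr σ} = (A' : Set _) := by
      ext σ; simp [A']
    rw [hA, Set.ncard_coe_finset]
    rw [hA', Set.ncard_coe_finset] at ih'
    have hmul : A.card * Fr.card ≤ A'.card := by
      rw [← Finset.card_product]
      apply Finset.card_le_card_of_injOn (fun p => p.1.trans (Equiv.swap e.2 p.2))
      · rintro ⟨σ, j⟩ hp
        obtain ⟨h1, h2⟩ := Finset.mem_product.mp (Finset.mem_coe.mp hp)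
        have h3 : Y ⊆ pgr σ := (Finset.mem_filter.mp h1).2
        have h4 : j ∉ (Y.erase e).image Prod.snd := (Finset.mem_sdiff.mp h2).2
        rw [Finset.mem_coe, Finset.mem_filter]
        refine ⟨mem_univ _, fun f hf => ?_⟩
        rw [mem_pgr]
        have hfY : f ∈ Y := Finset.mem_of_mem_erase hf
        have hfσ := mem_pgr.mp (h3 hfY)
        have heσ := mem_pgr.mp (h3 he)
        show Equiv.swap e.2 j (σ f.1) = f.2
        rw [hfσ]
        apply Equiv.swap_apply_of_ne_of_ne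
        · intro heq
          apply Finset.ne_of_mem_erase hf
          exact Prod.ext (σ.injective (by rw [hfσ, heσ, heq])) heq
        · intro heq
          apply h4
          rw [Finset.mem_image]
          exact ⟨f, hf, heq⟩
      · rintro ⟨σ, j⟩ hp ⟨σ', j'⟩ hp' heq
        obtain ⟨h1, -⟩ := Finset.mem_product.mp (Finset.mem_coe.mp hp)
        obtain ⟨h1', -⟩ := Finset.mem_product.mp (Finset.mem_coe.mp hp')
        have heσ := mem_pgr.mp ((Finset.mem_filter.mp h1).2 he)
        have heσ' := mem_pgr.mp ((Finset.mem_filter.mp h1').2 he)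
        simp only at heq
        have hj : j = j' := by
          have := congrArg (fun τ : Equiv.Perm (Fin n) => τ e.1) heq
          simp only [Equiv.trans_apply] at this
          rwa [heσ, heσ', Equiv.swap_apply_left, Equiv.swap_apply_left] at this
        subst hj
        have hσ : σ = σ' := by
          apply Equiv.ext
          intro i
          have := congrArg (fun τ : Equiv.Perm (Fin n) => τ i) heq
          simp only [Equiv.trans_apply] at this
          exact (Equiv.swap e.2 j).injective this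
        rw [hσ]
    calc A.card * (n - w) ^ (k + 1) = (A.card * (n - w)) * (n - w) ^ k := by
          rw [pow_succ]; ring
      _ ≤ (A.card * Fr.card) * (n - w) ^ k :=
          Nat.mul_le_mul_right _ (Nat.mul_le_mul_left _ hFr)
      _ ≤ A'.card * (n - w) ^ k := Nat.mul_le_mul_right _ hmul
      _ ≤ _ := ih'

/-- large covers are rare -/
lemma card_large {V : Type} [Fintype V] [DecidableEq V] {Q : ℕ} [NeZero Q] (B J m : ℕ)
    (hV : Fintype.card V = 2 * m) (hm : 0 < m) (hBJ : 0 < B * J) (hQ : 8 * (B * J) ≤ Q) :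
    {ω : Fin B → Fin J → V → Fin Q | m ≤ (WB ω).card}.ncard * 4 ≤
      ((Q ^ Fintype.card V) ^ J) ^ B := by
  classical
  let Om := ((Q ^ Fintype.card V) ^ J) ^ B
  let A : Finset (Fin B → Fin J → V → Fin Q) := univ.filter (fun ω => m ≤ (WB ω).card)
  have hA : {ω : Fin B → Fin J → V → Fin Q | m ≤ (WB ω).card} = (A : Set _) := by
    ext ω; simp [A]
  have h2 : A.card * m ≤ ∑ v : V, {ω : Fin B → Fin J → V → Fin Q | v ∈ WB ω}.ncard := by
    calc A.card * m = ∑ ω ∈ A, m := by simp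
      _ ≤ ∑ ω ∈ A, (WB ω).card :=
          Finset.sum_le_sum (fun ω hω => (Finset.mem_filter.mp hω).2)
      _ ≤ ∑ ω : Fin B → Fin J → V → Fin Q, (WB ω).card :=
          Finset.sum_le_sum_of_subset (Finset.subset_univ _)
      _ = ∑ ω : Fin B → Fin J → V → Fin Q, ∑ v : V, (if v ∈ WB ω then 1 else 0) := by
          apply Finset.sum_congr rfl
          intro ω _
          simp
      _ = ∑ v : V, ∑ ω : Fin B → Fin J → V → Fin Q, (if v ∈ WB ω then 1 else 0) :=
          Finset.sum_comm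
      _ = ∑ v : V, {ω : Fin B → Fin J → V → Fin Q | v ∈ WB ω}.ncard := by
          apply Finset.sum_congr rfl
          intro v _
          have : {ω : Fin B → Fin J → V → Fin Q | v ∈ WB ω} =
              ((univ.filter (fun ω : Fin B → Fin J → V → Fin Q => v ∈ WB ω) :
                Finset (Fin B → Fin J → V → Fin Q)) : Set _) := by ext ω; simp
          rw [this, Set.ncard_coe_finset]
          simp
  have h3 : A.card * m * Q ≤ (2 * m) * (B * J * Om) := by
    calc A.card * m * Q ≤ (∑ v : V, {ω : Fin B → Fin J → V → Fin Q | v ∈ WB ω}.ncard) * Q :=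
          Nat.mul_le_mul_right _ h2
      _ = ∑ v : V, {ω : Fin B → Fin J → V → Fin Q | v ∈ WB ω}.ncard * Q := by
          rw [Finset.sum_mul]
      _ ≤ ∑ v : V, B * J * Om := Finset.sum_le_sum (fun v _ => card_wb B J v)
      _ = _ := by
          rw [Finset.sum_const, Finset.card_univ, hV, smul_eq_mul]
  rw [hA, Set.ncard_coe_finset]
  have h4 : (2 * m * (B * J)) * (A.card * 4) ≤ (2 * m * (B * J)) * Om := by
    calc (2 * m * (B * J)) * (A.card * 4) = A.card * m * (8 * (B * J)) := by ring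
      _ ≤ A.card * m * Q := Nat.mul_le_mul_left _ hQ
      _ ≤ _ := h3
      _ = _ := by ring
  exact Nat.le_of_mul_le_mul_left h4 (by positivity)

/-- Monotone real programs for bipartite perfect matching are exponentially long. -/
theorem match_lower (w lam : ℕ) (hw : 1 ≤ w) (hn : n < 2 ^ lam)
    (hbig : 2 ^ 59 * (lam + 1) ^ 8 * w ^ 8 ≤ n)
    (B0 : Set (Set (Fin n × Fin n) → ℝ))
    (hleaf : ∀ b ∈ B0, ∃ T : Finset (Fin n × Fin n), T.card ≤ 1 ∧ LeafOnR T b)
    {L : List (Set (Fin n × Fin n) → ℝ)} (hL : RProg B0 L) (f : Set (Fin n × Fin n) → ℝ)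
    (hf : f ∈ B0 ∨ f ∈ L) (θ : ℝ)
    (hpos : ∀ σ : Equiv.Perm (Fin n), θ ≤ f {e | σ e.1 = e.2})
    (hneg : ∀ W : Finset (Fin n ⊕ Fin n), W.card < n →
      ¬ θ ≤ f {e | Sum.inl e.1 ∈ W ∨ Sum.inr e.2 ∈ W}) : 2 ^ w ≤ L.length := by
  classical
  by_contra hcon
  push Not at hcon
  have hnpos : 0 < n := lt_of_lt_of_le (by positivity) hbig
  have hlam : 1 ≤ lam := by
    by_contra h
    have : lam = 0 := by omega
    rw [this] at hn
    omega
  obtain ⟨B, hBdef⟩ : ∃ B, B = 8 * lam * w := ⟨_, rfl⟩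
  obtain ⟨J, hJdef⟩ : ∃ J, J = lam + 1 := ⟨_, rfl⟩
  obtain ⟨Q, hQdef⟩ : ∃ Q, Q = 8 * (B * J) := ⟨_, rfl⟩
  have hB3 : 3 ≤ B := by rw [hBdef]; nlinarith
  have hJ0 : 0 < J := by omega
  have hQ0 : 0 < Q := by rw [hQdef]; positivity
  have : NeZero Q := ⟨hQ0.ne'⟩
  obtain ⟨r, hrdef⟩ : ∃ r, r = 64 * Q := ⟨_, rfl⟩
  obtain ⟨R, hRdef⟩ : ∃ R, R = 8 * w ^ 2 * r ^ 2 := ⟨_, rfl⟩
  obtain ⟨K, hKdef⟩ : ∃ K, K = n - w := ⟨_, rfl⟩
  have hw0 : 0 < w := hw
  have hr0 : 0 < r := by rw [hrdef]; positivity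
  have hR1 : 1 ≤ R := by rw [hRdef]; exact Nat.succ_le_of_lt (by positivity)
  have hRval : 16 * R ^ 2 = 2 ^ 58 * (lam ^ 4 * (lam + 1) ^ 4) * w ^ 8 := by
    rw [hRdef, hrdef, hQdef, hBdef, hJdef]; ring
  have hlam8 : lam ^ 4 * (lam + 1) ^ 4 ≤ (lam + 1) ^ 8 := by
    calc lam ^ 4 * (lam + 1) ^ 4 ≤ (lam + 1) ^ 4 * (lam + 1) ^ 4 :=
          Nat.mul_le_mul_right _ (Nat.pow_le_pow_left (by omega) 4)
      _ = _ := by ring
  have hKR : 16 * R ^ 2 + w ≤ n := by
    rw [hRval]
    have h1 : 2 ^ 58 * (lam ^ 4 * (lam + 1) ^ 4) * w ^ 8 ≤ 2 ^ 58 * (lam + 1) ^ 8 * w ^ 8 :=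
      Nat.mul_le_mul_right _ (Nat.mul_le_mul_left _ hlam8)
    have h2 : w ≤ 2 ^ 58 * (lam + 1) ^ 8 * w ^ 8 := by
      calc w ≤ w ^ 8 := Nat.le_self_pow (by norm_num) w
        _ ≤ (2 ^ 58 * (lam + 1) ^ 8) * w ^ 8 := Nat.le_mul_of_pos_left _ (by positivity)
    have h3 : 2 ^ 59 * (lam + 1) ^ 8 * w ^ 8 = 2 ^ 58 * (lam + 1) ^ 8 * w ^ 8 +
        2 ^ 58 * (lam + 1) ^ 8 * w ^ 8 := by ring
    calc 2 ^ 58 * (lam ^ 4 * (lam + 1) ^ 4) * w ^ 8 + w ≤
        2 ^ 58 * (lam + 1) ^ 8 * w ^ 8 + 2 ^ 58 * (lam + 1) ^ 8 * w ^ 8 := Nat.add_le_add h1 h2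
      _ = 2 ^ 59 * (lam + 1) ^ 8 * w ^ 8 := h3.symm
      _ ≤ n := hbig
  have hK16 : 16 * R ^ 2 ≤ K := by omega
  have hK4 : 4 * R ≤ K := by
    refine le_trans ?_ hK16
    nlinarith
  have hwn : w < 2 ^ lam := by omega
  have hJ2 : 2 * w < 2 ^ J := by
    rw [hJdef, pow_succ]; omega
  obtain ⟨Ep, En, hEp, hEn, H⟩ := approxM (ends := bends (n := n)) (Q := Q) bends_card bends_inj
    B J w r R K hB3 hJ0 hw hQdef.ge hrdef.ge hRdef.ge hR1 hJ2 B0 hleaf pgr pgr_mt
    (fun Y hY => by
      rw [hKdef]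
      exact card_perm (n := n) w (w + 1) Y hY le_rfl) hL
  obtain ⟨D, hD⟩ := H f hf
  set Om := ((Q ^ Fintype.card (Fin n ⊕ Fin n)) ^ J) ^ B with hOm
  have hOmpos : 0 < Om := Om_pos B J
  by_cases hempty : ∅ ∈ D θ
  · -- the negative tests
    have hcov : (Set.univ : Set (Fin B → Fin J → (Fin n ⊕ Fin n) → Fin Q)) ⊆
        En ∪ {ω | n ≤ (WB ω).card} := by
      intro ω _
      by_cases h : n ≤ (WB ω).card
      · exact Or.inr h
      · left
        by_contra hω
        have h1 := hD.neg ω hω θ ⟨∅, hempty, Finset.empty_subset _⟩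
        apply hneg (WB ω) (by omega)
        have e : (touch bends (WB ω) : Set (Fin n × Fin n)) =
            {e | Sum.inl e.1 ∈ WB ω ∨ Sum.inr e.2 ∈ WB ω} := by
          ext e
          rw [Finset.mem_coe, mem_touch, Finset.not_disjoint_iff]
          simp [bends]
        rw [← e]
        exact h1
    have h1 := (Set.ncard_le_ncard hcov (Set.toFinite _)).trans (Set.ncard_union_le _ _)
    rw [card_Om] at h1
    have hlarge := card_large (V := Fin n ⊕ Fin n) (Q := Q) B J n
      (by rw [Fintype.card_sum, Fintype.card_fin]; ring) hnpos (by positivity) hQdef.ge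
    have h3 : 3 * Om ≤ 4 * En.ncard := by omega
    -- the error is small
    set Tc := (Tm (bends (n := n)) w).card with hTc
    have hT1 : Tc ≤ 2 ^ (2 * lam * w) := by
      have h4 : Tc ≤ ((univ : Finset (Finset (Fin n × Fin n))).filter
          (fun Y => Y.card ≤ w)).card := by
        apply Finset.card_le_card
        intro S hS
        rw [Finset.mem_filter]
        exact ⟨mem_univ _, (mem_Tm.mp hS).1⟩
      refine h4.trans ((card_small_sets w).trans ?_)
      rw [pow_mul]
      apply Nat.pow_le_pow_left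
      rw [Fintype.card_prod, Fintype.card_fin]
      have h5 : n + 1 ≤ 2 ^ lam := hn
      calc n * n + 1 ≤ (n + 1) * (n + 1) := by nlinarith
        _ ≤ 2 ^ lam * 2 ^ lam := Nat.mul_le_mul h5 h5
        _ = 2 ^ (2 * lam) := by rw [← pow_add]; congr 1; ring
    have hT2 : Tc + 1 ≤ 2 ^ (2 * lam * w + 1) := by
      have : 1 ≤ 2 ^ (2 * lam * w) := Nat.one_le_two_pow
      rw [pow_succ]; omega
    have h4 : En.ncard * 2 ^ B ≤ 2 ^ w * (2 ^ (2 * lam * w + 1) * (2 ^ (2 * lam * w) * Om)) :=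
      hEn.trans (Nat.mul_le_mul hcon.le (Nat.mul_le_mul hT2 (Nat.mul_le_mul_right _ hT1)))
    have h5 : 4 * (2 ^ w * (2 ^ (2 * lam * w + 1) * (2 ^ (2 * lam * w) * Om))) ≤ 2 ^ B * Om := by
      calc 4 * (2 ^ w * (2 ^ (2 * lam * w + 1) * (2 ^ (2 * lam * w) * Om)))
          = 2 ^ (2 + w + (2 * lam * w + 1) + 2 * lam * w) * Om := by
            rw [pow_add, pow_add, pow_add]; ring
        _ ≤ 2 ^ B * Om := by
            apply Nat.mul_le_mul_right
            apply Nat.pow_le_pow_right (by norm_num)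
            rw [hBdef]
            nlinarith
    have h6 : 2 ^ B * (3 * Om) ≤ 2 ^ B * Om := by
      calc 2 ^ B * (3 * Om) ≤ 2 ^ B * (4 * En.ncard) := Nat.mul_le_mul_left _ h3
        _ = 4 * (En.ncard * 2 ^ B) := by ring
        _ ≤ 4 * (2 ^ w * (2 ^ (2 * lam * w + 1) * (2 ^ (2 * lam * w) * Om))) :=
            Nat.mul_le_mul_left _ h4
        _ ≤ _ := h5
    have h7 := Nat.le_of_mul_le_mul_left h6 (by positivity)
    omega
  · -- the positive tests
    set Pc := Fintype.card (Equiv.Perm (Fin n)) with hPc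
    have hPpos : 0 < Pc := Fintype.card_pos
    let g : Finset (Fin n × Fin n) → Prop := fun x => sat (D θ) x
    have hmem : ∀ l, ∀ S ∈ Mint g l, S ∈ D θ ∧ S ∈ minc D l := by
      intro l S hS
      obtain ⟨h1, ⟨S', hS', hsub⟩, h3⟩ := (mem_Mint g l S).mp hS
      have hSS : S' = S := by
        by_contra hne
        exact h3 S' (Finset.ssubset_iff_subset_ne.mpr ⟨hsub, hne⟩) ⟨S', hS', subset_rfl⟩
      rw [hSS] at hS'
      exact ⟨hS', mem_minc.mpr ⟨h1, θ, hS', fun S'' hS'' hlt => h3 S'' hlt ⟨S'', hS'', subset_rfl⟩⟩⟩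
    have hthin : ∀ l, 0 < l → l ≤ w → (Mint g l).card ≤ R ^ l := by
      intro l _ hl
      refine (Finset.card_le_card (fun S hS => (hmem l S hS).2)).trans
        (minc_thin bends_card bends_inj B J w r R l hrdef.ge ?_ (by omega) hl D hD.closed
          hD.anti)
      rw [hRdef]
      exact Nat.mul_le_mul_right _ (Nat.mul_le_mul_left _ (Nat.pow_le_pow_left hl 2))
    have hcount := count_pos (pgr (n := n)) R 0 w (Nat.zero_le _) (by omega)
      (fun Y hY => by
        refine le_trans (Nat.mul_le_mul_left _ (Nat.pow_le_pow_left hK4 _)) ?_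
        rw [hKdef]
        exact card_perm w Y.card Y rfl (by omega)) g hthin
      {σ | sat (D θ) (pgr σ)} (by
        intro σ hσ
        obtain ⟨Y, hY1, hY2⟩ := exists_minterm g (pgr σ) hσ
        have h3 := (hmem _ Y hY2).1
        refine ⟨Y, hY1, hY2, ?_, (mem_Tm.mp ((hD.closed θ).1 h3)).1⟩
        rcases Nat.eq_zero_or_pos Y.card with h4 | h4
        · exfalso
          rw [Finset.card_eq_zero] at h4
          rw [h4] at h3
          exact hempty h3
        · exact h4)
    have hcov : (Set.univ : Set (Equiv.Perm (Fin n))) ⊆ Ep ∪ {σ | sat (D θ) (pgr σ)} := by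
      intro σ _
      by_cases h : σ ∈ Ep
      · exact Or.inl h
      · right
        apply hD.pos σ h θ
        have e : (pgr σ : Set (Fin n × Fin n)) = {e | σ e.1 = e.2} := by
          ext e
          rw [Finset.mem_coe, mem_pgr]
          rfl
        rw [e]
        exact hpos σ
    have h1 := (Set.ncard_le_ncard hcov (Set.toFinite _)).trans (Set.ncard_union_le _ _)
    rw [Set.ncard_univ, Nat.card_eq_fintype_card, ← hPc] at h1
    have h2 : (Pc : ℚ) ≤ Ep.ncard + Pc * (1 / 3 * (1 / 4) ^ 0) := by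
      have h3 : (Pc : ℚ) ≤ Ep.ncard + ({σ | sat (D θ) (pgr σ)} : Set (Equiv.Perm (Fin n))).ncard := by
        exact_mod_cast h1
      linarith
    rw [pow_zero, mul_one] at h2
    have h3 : 2 * Pc ≤ 3 * Ep.ncard := by
      have : (2 * Pc : ℚ) ≤ 3 * Ep.ncard := by linarith
      exact_mod_cast this
    -- the error is small
    have hw1 : (w + 1) ^ 2 ≤ 4 ^ w := by
      have h5 : w + 1 ≤ 2 ^ w := Nat.lt_two_pow_self
      calc (w + 1) ^ 2 ≤ (2 ^ w) ^ 2 := Nat.pow_le_pow_left h5 2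
        _ = 4 ^ w := by rw [← pow_mul, mul_comm, pow_mul]; norm_num
    have h4 : Ep.ncard * K ^ (w + 1) ≤ 2 ^ w * ((4 ^ w * (R ^ 2) ^ w) * Pc) := by
      refine hEp.trans (Nat.mul_le_mul hcon.le (Nat.mul_le_mul_right _ ?_))
      calc ((w + 1) * R ^ w) ^ 2 = (w + 1) ^ 2 * (R ^ 2) ^ w := by
            rw [mul_pow, ← pow_mul, ← pow_mul, mul_comm w 2]
        _ ≤ _ := Nat.mul_le_mul_right _ hw1
    have h5 : 2 ^ w * ((4 ^ w * (R ^ 2) ^ w) * Pc) * 2 ^ w ≤ K ^ w * Pc := by
      calc 2 ^ w * ((4 ^ w * (R ^ 2) ^ w) * Pc) * 2 ^ w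
          = ((2 * 4 * R ^ 2 * 2) ^ w) * Pc := by
            rw [mul_pow, mul_pow, mul_pow]; ring
        _ = (16 * R ^ 2) ^ w * Pc := by ring_nf
        _ ≤ _ := Nat.mul_le_mul_right _ (Nat.pow_le_pow_left hK16 w)
    have hK2 : 2 ≤ K := by omega
    have hKw : 0 < K ^ w := by positivity
    have h6 : (2 * Pc) * (K * K ^ w) ≤ 3 * (K ^ w * Pc) := by
      calc (2 * Pc) * (K * K ^ w) ≤ (3 * Ep.ncard) * (K * K ^ w) := Nat.mul_le_mul_right _ h3
        _ = 3 * (Ep.ncard * K ^ (w + 1)) := by rw [pow_succ]; ring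
        _ ≤ 3 * (2 ^ w * ((4 ^ w * (R ^ 2) ^ w) * Pc)) := Nat.mul_le_mul_left _ h4
        _ ≤ 3 * (2 ^ w * ((4 ^ w * (R ^ 2) ^ w) * Pc) * 2 ^ w) := by
            apply Nat.mul_le_mul_left
            exact Nat.le_mul_of_pos_right _ (by positivity)
        _ ≤ _ := Nat.mul_le_mul_left _ h5
    have h7 : (Pc * K ^ w) * (2 * K) ≤ (Pc * K ^ w) * 3 := by
      calc _ = (2 * Pc) * (K * K ^ w) := by ring
        _ ≤ _ := h6
        _ = _ := by ring
    have h8 := Nat.le_of_mul_le_mul_left h7 (by positivity)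
    omega

end

end Pool.Agent.H560R2
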