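import Pool.Agent.H560R2.Real1

/-! POLY needs exponentially long programs of monotone real gates. -/

namespace Pool.Agent.H560R2

open Finset

section poly

variable {F : Type} [Field F] [Fintype F] [DecidableEq F]

/-- Lower bound for monotone real programs (with leaves of width `≤ d - 1`) computing POLY. -/
theorem poly_lowerR (d lam : ℕ) (hd : 2 ≤ d) (hq : Fintype.card F ≤ 2 ^ lam)
    (hq2 : 2 * d * (d * lam + 1) ≤ Fintype.card F) (B : Set (Set (F × F) → ℝ))
    (hleaf : ∀ b ∈ B, ∃ T : Finset (F × F), T.card ≤ d - 1 ∧ LeafOnR T b)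
    {L : List (Set (F × F) → ℝ)} (hL : RProg B L) (f : Set (F × F) → ℝ) (hf : f ∈ B ∨ f ∈ L)
    (θ : ℝ) (ho : ∀ x, θ ≤ f x ↔ fPoly d x) : 2 ^ d ≤ L.length := by
  classical
  set q := Fintype.card F with hqdef
  set t := L.length with ht
  have hlam : 1 ≤ lam := by
    by_contra hcon
    have : lam = 0 := by omega
    subst this
    simp at hq hq2
    omega
  rcases criterionR B (d - 1) (d - 1) d le_rfl (by omega) hleaf hL f hf θ with
    ⟨E', hE'c, hE', H⟩ | ⟨E, I, hEc, hE, hI, H⟩
  · -- negative tests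
    set Q := 2 * d with hQ
    have hQpos : 0 < Q := by omega
    let z : Fin Q := ⟨0, hQpos⟩
    set N := Fintype.card (F × F) with hN
    have hNq : N = q * q := by rw [hN, Fintype.card_prod]
    have hcover : (univ : Finset (F × F → Fin Q)) ⊆
        (E'.biUnion (fun c => univ.filter (fun κ : F × F → Fin Q => ∀ v ∈ c, κ v = z))) ∪
        ((univ : Finset (Fin d → F)).biUnion (fun c => univ.filter
          (fun κ : F × F → Fin Q => ∀ v ∈ (univ : Finset F).image (fun a => (a, polyVal c a)),
            κ v ≠ z))) := by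
      intro κ _
      by_cases hκ : evC (E' : Set (Finset (F × F))) {v | κ v ≠ z}
      · have := (ho _).mp (H _ hκ)
        obtain ⟨c, hc⟩ := this
        apply Finset.mem_union_right
        rw [Finset.mem_biUnion]
        refine ⟨c, mem_univ _, ?_⟩
        rw [Finset.mem_filter]
        refine ⟨mem_univ _, ?_⟩
        intro v hv
        obtain ⟨a, _, rfl⟩ := Finset.mem_image.mp hv
        exact hc a
      · apply Finset.mem_union_left
        unfold evC at hκ
        push Not at hκ
        obtain ⟨c, hc, hc2⟩ := hκ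
        rw [Finset.mem_biUnion]
        refine ⟨c, hc, ?_⟩
        rw [Finset.mem_filter]
        refine ⟨mem_univ _, ?_⟩
        intro v hv
        have := hc2 v hv
        simpa using this
    have hcount := Finset.card_le_card hcover
    rw [Finset.card_univ, Fintype.card_fun, Fintype.card_fin, ← hN] at hcount
    have hd1N : d + 1 ≤ N := by
      rw [hNq]
      have h1 : 2 * d * 1 ≤ q := le_trans (Nat.mul_le_mul_left _ (Nat.le_add_left 1 _)) hq2
      have h2 : 1 ≤ q := by omega
      nlinarith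
    have hA : (E'.biUnion (fun c => univ.filter
        (fun κ : F × F → Fin Q => ∀ v ∈ c, κ v = z))).card ≤
        (t * (d - 1) ^ (d + 1)) * Q ^ (N - (d + 1)) := by
      refine Finset.card_biUnion_le.trans ?_
      calc ∑ c ∈ E', (univ.filter (fun κ : F × F → Fin Q => ∀ v ∈ c, κ v = z)).card
          = ∑ c ∈ E', Q ^ (N - (d + 1)) := by
            apply Finset.sum_congr rfl
            intro c hc
            rw [card_zero_on, hE' c hc]
        _ = E'.card * Q ^ (N - (d + 1)) := by simp
        _ ≤ _ := Nat.mul_le_mul_right _ hE'c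
    have hB : ((univ : Finset (Fin d → F)).biUnion (fun c => univ.filter
          (fun κ : F × F → Fin Q => ∀ v ∈ (univ : Finset F).image (fun a => (a, polyVal c a)),
            κ v ≠ z))).card ≤ q ^ d * ((Q - 1) ^ q * Q ^ (N - q)) := by
      refine Finset.card_biUnion_le.trans ?_
      have hcg : ∀ c : Fin d → F, ((univ : Finset F).image (fun a => (a, polyVal c a))).card = q := by
        intro c
        rw [Finset.card_image_of_injective _ (fun a b h => (Prod.mk.inj h).1), Finset.card_univ]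
      calc _ = ∑ c : Fin d → F, (Q - 1) ^ q * Q ^ (N - q) := by
            apply Finset.sum_congr rfl
            intro c _
            rw [card_nonzero_on, hcg c]
        _ = _ := by simp [hqdef]
        _ ≤ _ := le_rfl
    have hcount2 : Q ^ N ≤ (t * (d - 1) ^ (d + 1)) * Q ^ (N - (d + 1)) +
        q ^ d * ((Q - 1) ^ q * Q ^ (N - q)) :=
      hcount.trans ((Finset.card_union_le _ _).trans (Nat.add_le_add hA hB))
    have hdecay : 2 * (q ^ d * (Q - 1) ^ q) ≤ Q ^ q := by
      have h1 := pow_decay Q (d * lam + 1) q hQpos hq2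
      have h2 : 2 * q ^ d ≤ 2 ^ (d * lam + 1) := by
        rw [pow_succ, mul_comm d lam, pow_mul, mul_comm]
        exact Nat.mul_le_mul_right _ (Nat.pow_le_pow_left hq d)
      calc 2 * (q ^ d * (Q - 1) ^ q) = (2 * q ^ d) * (Q - 1) ^ q := by ring
        _ ≤ 2 ^ (d * lam + 1) * (Q - 1) ^ q := Nat.mul_le_mul_right _ h2
        _ ≤ Q ^ q := h1
    have hqN : q ≤ N := by
      rw [hNq]
      have : 1 ≤ q := Fintype.card_pos
      nlinarith
    have hsplit : Q ^ q * Q ^ (N - q) = Q ^ N := by
      rw [← pow_add]; congr 1; omega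
    have hsplit2 : Q ^ (d + 1) * Q ^ (N - (d + 1)) = Q ^ N := by
      rw [← pow_add]; congr 1; omega
    have h5 : 2 * (q ^ d * ((Q - 1) ^ q * Q ^ (N - q))) ≤ Q ^ N := by
      rw [← hsplit]
      calc 2 * (q ^ d * ((Q - 1) ^ q * Q ^ (N - q))) =
          (2 * (q ^ d * (Q - 1) ^ q)) * Q ^ (N - q) := by ring
        _ ≤ _ := Nat.mul_le_mul_right _ hdecay
    have h6 : Q ^ N ≤ 2 * ((t * (d - 1) ^ (d + 1)) * Q ^ (N - (d + 1))) := by omega
    rw [← hsplit2] at h6
    have h7 : Q ^ (d + 1) ≤ 2 * (t * (d - 1) ^ (d + 1)) := by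
      have hp : 0 < Q ^ (N - (d + 1)) := Nat.pow_pos hQpos
      have : Q ^ (d + 1) * Q ^ (N - (d + 1)) ≤
          (2 * (t * (d - 1) ^ (d + 1))) * Q ^ (N - (d + 1)) := by
        calc _ ≤ _ := h6
          _ = _ := by ring
      exact Nat.le_of_mul_le_mul_right this hp
    have h8 : 2 ^ (d + 1) * (d - 1) ^ (d + 1) ≤ Q ^ (d + 1) := by
      rw [← mul_pow]
      apply Nat.pow_le_pow_left
      omega
    have h9 : 2 ^ (d + 1) * (d - 1) ^ (d + 1) ≤ (2 * t) * (d - 1) ^ (d + 1) := by
      calc _ ≤ _ := h8.trans h7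
        _ = _ := by ring
    have h10 : 2 ^ (d + 1) ≤ 2 * t :=
      Nat.le_of_mul_le_mul_right h9 (Nat.pow_pos (by omega))
    rw [pow_succ] at h10
    omega
  · -- positive tests
    have hd' : d - 1 + 1 = d := by omega
    rw [hd'] at hEc hE
    have hcover : (univ : Finset (Fin d → F)) ⊆
        (E.biUnion (fun m => univ.filter (fun c : Fin d → F => ∀ v ∈ m, polyVal c v.1 = v.2))) ∪
        (I.biUnion (fun v => univ.filter (fun c : Fin d → F => polyVal c v.1 = v.2))) := by
      intro c _
      have hx : fPoly d {v : F × F | polyVal c v.1 = v.2} := ⟨c, fun a => rfl⟩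
      rcases H _ ((ho _).mpr hx) with ⟨m, hm, hmx⟩ | ⟨v, hv, hvx⟩
      · apply Finset.mem_union_left
        rw [Finset.mem_biUnion]
        exact ⟨m, hm, by rw [Finset.mem_filter]; exact ⟨mem_univ _, hmx⟩⟩
      · apply Finset.mem_union_right
        rw [Finset.mem_biUnion]
        exact ⟨v, hv, by rw [Finset.mem_filter]; exact ⟨mem_univ _, hvx⟩⟩
    have hcount := Finset.card_le_card hcover
    rw [Finset.card_univ, Fintype.card_fun, Fintype.card_fin, ← hqdef] at hcount
    have hA : (E.biUnion (fun m => univ.filter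
        (fun c : Fin d → F => ∀ v ∈ m, polyVal c v.1 = v.2))).card ≤ t * (2 * d) ^ d := by
      refine Finset.card_biUnion_le.trans ?_
      calc _ ≤ ∑ m ∈ E, 1 := Finset.sum_le_sum (fun m hm => card_through_many m (hE m hm))
        _ = E.card := by simp
        _ ≤ _ := hEc
    obtain ⟨d', rfl⟩ : ∃ d', d = d' + 1 := ⟨d - 1, by omega⟩
    have hB : (I.biUnion (fun v => univ.filter
        (fun c : Fin (d' + 1) → F => polyVal c v.1 = v.2))).card ≤ (d' + 1) * q ^ d' := by
      refine Finset.card_biUnion_le.trans ?_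
      calc _ ≤ ∑ v ∈ I, q ^ d' := Finset.sum_le_sum (fun v _ => card_through_point v.1 v.2)
        _ = I.card * q ^ d' := by simp
        _ ≤ _ := Nat.mul_le_mul_right _ hI
    have hc2 : q ^ (d' + 1) ≤ t * (2 * (d' + 1)) ^ (d' + 1) + (d' + 1) * q ^ d' :=
      hcount.trans ((Finset.card_union_le _ _).trans (Nat.add_le_add hA hB))
    set d := d' + 1 with hdd
    have hdl1 : 1 ≤ d * lam := by
      calc 1 = 1 * 1 := rfl
        _ ≤ d * lam := Nat.mul_le_mul (by omega) hlam
    have hq12 : 2 * d * 2 ≤ q := le_trans (Nat.mul_le_mul_left _ (by omega)) hq2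
    have hlam2 : 2 ≤ lam := by
      by_contra hcon
      have : lam ≤ 1 := by omega
      have h1 : 2 ^ lam ≤ 2 ^ 1 := Nat.pow_le_pow_right (by norm_num) this
      omega
    have hdl : 4 ≤ d * lam := by
      calc 4 = 2 * 2 := rfl
        _ ≤ d * lam := Nat.mul_le_mul hd hlam2
    have hq4 : 8 * d ≤ q := by
      refine le_trans ?_ hq2
      calc 8 * d = 2 * d * 4 := by ring
        _ ≤ 2 * d * (d * lam + 1) := Nat.mul_le_mul_left _ (by omega)
    have h1 : 2 * (d * q ^ d') ≤ q ^ (d' + 1) := by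
      rw [pow_succ, mul_comm (q ^ d') q, ← mul_assoc]
      exact Nat.mul_le_mul_right _ (by omega)
    have h2 : q ^ (d' + 1) ≤ 2 * (t * (2 * d) ^ (d' + 1)) := by
      have hc3 : q ^ (d' + 1) ≤ t * (2 * d) ^ (d' + 1) + d * q ^ d' := hc2
      omega
    have h3 : (4 * (2 * d)) ^ (d' + 1) ≤ 2 * (t * (2 * d) ^ (d' + 1)) :=
      (Nat.pow_le_pow_left (by omega) _).trans h2
    rw [mul_pow] at h3
    have h4 : 4 ^ (d' + 1) * (2 * d) ^ (d' + 1) ≤ (2 * t) * (2 * d) ^ (d' + 1) := by
      calc _ ≤ _ := h3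
        _ = _ := by ring
    have h5 : 4 ^ (d' + 1) ≤ 2 * t := Nat.le_of_mul_le_mul_right h4 (Nat.pow_pos (by omega))
    have h6 : 2 * 2 ^ d ≤ 4 ^ (d' + 1) := by
      have : (4 : ℕ) ^ (d' + 1) = 2 ^ (d' + 1) * 2 ^ (d' + 1) := by
        rw [← mul_pow]; norm_num
      rw [this, hdd]
      apply Nat.mul_le_mul_right
      calc 2 = 2 ^ 1 := rfl
        _ ≤ 2 ^ (d' + 1) := Nat.pow_le_pow_right (by norm_num) (by omega)
    omega

end poly

end Pool.Agent.H560R2
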