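import Pool.Agent.H560R2.Real3
import Pool.Agent.H560R2.Real2
import Pool.Agent.H560R2.Dep2

/-! Real circuits: counting changes along a chain, and the chain argument. -/

namespace Pool.Agent.H560R2

open Finset

section rank

variable {I : Type} {s : ℕ} {T : Finset (Fin s)} {w : Fin s → ℕ}
  {a : ∀ i, Fin (w i) → I ⊕ Fin s}
  {op : ∀ i, (Fin (w i) → ℝ) → ℝ} {θ : ∀ i, Fin (w i) → ℝ} {val : (I → Bool) → Fin s → ℝ}

open Classical in
/-- the code of the bits entering the gates of `T` -/
noncomputable def rk (T : Finset (Fin s)) (a : ∀ i, Fin (w i) → I ⊕ Fin s)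
    (θ : ∀ i, Fin (w i) → ℝ) (val : (I → Bool) → Fin s → ℝ) (x : I → Bool) : ℕ → ℕ
  | 0 => 0
  | k + 1 => if h : k < s then
      (if (⟨k, h⟩ : Fin s) ∈ T then rk T a θ val x k * (w ⟨k, h⟩ + 1) +
        (univ.filter (fun j => prb a θ val x ⟨k, h⟩ j)).card
      else rk T a θ val x k) else rk T a θ val x k

lemma rk_lt (x : I → Bool) : ∀ k ≤ s, rk T a θ val x k <
    ∏ i ∈ T.filter (fun i => i.val < k), (w i + 1) := by
  classical
  intro k
  induction k with
  | zero => intro _; simp [rk]
  | succ k ih =>
    intro hk
    have h0 : k < s := hk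
    have h1 := ih (by omega)
    rw [rk, dif_pos h0]
    by_cases hT : (⟨k, h0⟩ : Fin s) ∈ T
    · rw [if_pos hT]
      have hf : T.filter (fun i => i.val < k + 1) =
          insert ⟨k, h0⟩ (T.filter (fun i => i.val < k)) := by
        ext i
        rw [Finset.mem_insert, Finset.mem_filter, Finset.mem_filter]
        constructor
        · rintro ⟨h2, h3⟩
          by_cases hik : i = ⟨k, h0⟩
          · exact Or.inl hik
          · have : (i : ℕ) ≠ k := fun h => hik (Fin.ext h)
            exact Or.inr ⟨h2, by omega⟩
        · rintro (rfl | ⟨h2, h3⟩)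
          · exact ⟨hT, by simp⟩
          · exact ⟨h2, by omega⟩
      rw [hf, Finset.prod_insert (by simp)]
      have h2 : (univ.filter (fun j => prb a θ val x ⟨k, h0⟩ j)).card ≤ w ⟨k, h0⟩ := by
        refine (Finset.card_filter_le _ _).trans ?_
        simp
      calc _ ≤ rk T a θ val x k * (w ⟨k, h0⟩ + 1) + w ⟨k, h0⟩ := by omega
        _ < (rk T a θ val x k + 1) * (w ⟨k, h0⟩ + 1) := by
          have : (rk T a θ val x k + 1) * (w ⟨k, h0⟩ + 1) =
            rk T a θ val x k * (w ⟨k, h0⟩ + 1) + (w ⟨k, h0⟩ + 1) := by ring
          omega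
        _ ≤ _ := by
          rw [mul_comm]
          exact Nat.mul_le_mul_left _ h1
    · rw [if_neg hT]
      have hf : T.filter (fun i => i.val < k + 1) = T.filter (fun i => i.val < k) := by
        ext i
        rw [Finset.mem_filter, Finset.mem_filter]
        constructor
        · rintro ⟨h2, h3⟩
          have : (i : ℕ) ≠ k := by
            intro h
            have : i = ⟨k, h0⟩ := Fin.ext h
            rw [this] at h2
            exact hT h2
          exact ⟨h2, by omega⟩
        · rintro ⟨h2, h3⟩
          exact ⟨h2, by omega⟩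
      rw [hf]
      exact h1

lemma rk_mono (htop : ∀ i j k, a i j = Sum.inr k → k < i)
    (hmon : ∀ i ∉ T, w i ≤ 2 ∧ Monotone (op i))
    (hT : ∀ i ∈ T, ∀ z z' : Fin (w i) → ℝ, (∀ j, θ i j ≤ z j ↔ θ i j ≤ z' j) → op i z = op i z')
    (hval : ∀ x i, val x i = op i (fun j => Sum.elim (bit x) (val x) (a i j)))
    {x y : I → Bool} (hxy : x ≤ y) : ∀ k ≤ s, rk T a θ val x k < rk T a θ val y k ∨
      (rk T a θ val x k = rk T a θ val y k ∧
        (∀ i ∈ T, i.val < k → ∀ j, (prb a θ val x i j ↔ prb a θ val y i j)) ∧
        ∀ i : Fin s, i.val < k → val x i ≤ val y i) := by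
  classical
  intro k
  induction k with
  | zero =>
    intro _
    exact Or.inr ⟨rfl, fun i _ hi => absurd hi (Nat.not_lt_zero _),
      fun i hi => absurd hi (Nat.not_lt_zero _)⟩
  | succ k ih =>
    intro hk
    have h0 : k < s := hk
    rw [rk, rk, dif_pos h0, dif_pos h0]
    set g : Fin s := ⟨k, h0⟩ with hg
    -- wires are monotone
    have hwires : (∀ i : Fin s, i.val < k → val x i ≤ val y i) → ∀ j,
        Sum.elim (bit x) (val x) (a g j) ≤ Sum.elim (bit y) (val y) (a g j) := by
      intro h j
      rcases hm : a g j with p | m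
      · exact bit_mono hxy p
      · exact h m (htop g j m hm)
    have hle : ∀ z : I → Bool, (univ.filter (fun j => prb a θ val z g j)).card ≤ w g := by
      intro z
      refine (Finset.card_filter_le _ _).trans ?_
      simp
    rcases ih (by omega) with h1 | ⟨h1, h2, h3⟩
    · left
      by_cases hgT : g ∈ T
      · rw [if_pos hgT, if_pos hgT]
        have h4 : (rk T a θ val x k + 1) * (w g + 1) ≤ rk T a θ val y k * (w g + 1) :=
          Nat.mul_le_mul_right _ h1
        have h5 : (rk T a θ val x k + 1) * (w g + 1) =
          rk T a θ val x k * (w g + 1) + (w g + 1) := by ring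
        have h6 := hle x
        omega
      · rw [if_neg hgT, if_neg hgT]
        exact h1
    · by_cases hgT : g ∈ T
      · rw [if_pos hgT, if_pos hgT]
        have hsub : (univ.filter (fun j => prb a θ val x g j)) ⊆
            (univ.filter (fun j => prb a θ val y g j)) := by
          intro j hj
          rw [Finset.mem_filter] at hj ⊢
          refine ⟨mem_univ _, ?_⟩
          have h6 : prb a θ val x g j := hj.2
          unfold prb at h6 ⊢
          exact h6.trans (hwires h3 j)
        rcases Nat.lt_or_ge (univ.filter (fun j => prb a θ val x g j)).card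
          (univ.filter (fun j => prb a θ val y g j)).card with hlt | hge
        · left
          rw [h1]
          omega
        · right
          have heq := Finset.eq_of_subset_of_card_le hsub hge
          have hall : ∀ j, (prb a θ val x g j ↔ prb a θ val y g j) := by
            intro j
            have := Finset.ext_iff.mp heq j
            simp only [Finset.mem_filter, Finset.mem_univ, true_and] at this
            exact this
          refine ⟨by rw [h1, heq], ?_, ?_⟩
          · intro i hi hik j
            by_cases hig : i = g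
            · subst hig
              exact hall j
            · have : (i : ℕ) ≠ k := fun h => hig (Fin.ext h)
              exact h2 i hi (by omega) j
          · intro i hik
            by_cases hig : i = g
            · subst hig
              rw [hval x, hval y]
              exact (hT g hgT _ _ hall).le
            · have : (i : ℕ) ≠ k := fun h => hig (Fin.ext h)
              exact h3 i (by omega)
      · rw [if_neg hgT, if_neg hgT]
        right
        refine ⟨h1, ?_, ?_⟩
        · intro i hi hik j
          have : (i : ℕ) ≠ k := by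
            intro h
            have : i = g := Fin.ext h
            rw [this] at hi
            exact hgT hi
          exact h2 i hi (by omega) j
        · intro i hik
          by_cases hig : i = g
          · subst hig
            rw [hval x, hval y]
            exact (hmon g hgT).2 (hwires h3)
          · have : (i : ℕ) ≠ k := fun h => hig (Fin.ext h)
            exact h3 i (by omega)

/-- a chain with a change at every step is short -/
theorem chain_leR (htop : ∀ i j k, a i j = Sum.inr k → k < i)
    (hmon : ∀ i ∉ T, w i ≤ 2 ∧ Monotone (op i))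
    (hT : ∀ i ∈ T, ∀ z z' : Fin (w i) → ℝ, (∀ j, θ i j ≤ z j ↔ θ i j ≤ z' j) → op i z = op i z')
    (hval : ∀ x i, val x i = op i (fun j => Sum.elim (bit x) (val x) (a i j)))
    (m : ℕ) (x : ℕ → I → Bool) (hx : ∀ i < m, x i ≤ x (i + 1))
    (hp : ∀ i < m, ∃ t ∈ T, ∃ j, ¬ (prb a θ val (x i) t j ↔ prb a θ val (x (i + 1)) t j)) :
    m < ∏ i ∈ T, (w i + 1) := by
  have h : ∀ i ≤ m, i ≤ rk T a θ val (x i) s := by
    intro i
    induction i with
    | zero => intro _; exact Nat.zero_le _
    | succ i ih =>
      intro hi
      have h1 := ih (by omega)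
      rcases rk_mono htop hmon hT hval (hx i (by omega)) s le_rfl with h2 | ⟨_, h2, _⟩
      · omega
      · exfalso
        obtain ⟨t, ht, j, hj⟩ := hp i (by omega)
        exact hj (h2 t ht t.isLt j)
  have h1 := h m le_rfl
  have h2 := rk_lt (T := T) (a := a) (θ := θ) (val := val) (x m) s le_rfl
  have hTf : T.filter (fun i => i.val < s) = T :=
    Finset.filter_true_of_mem (fun i _ => i.isLt)
  rw [hTf] at h2
  omega

end rank

section chain

variable {I α : Type} {s : ℕ} {T : Finset (Fin s)} {w : Fin s → ℕ}
  {a : ∀ i, Fin (w i) → I ⊕ Fin s}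
  {op : ∀ i, (Fin (w i) → ℝ) → ℝ} {θ : ∀ i, Fin (w i) → ℝ} {val : (I → Bool) → Fin s → ℝ}

/-- The chain argument for real circuits. -/
theorem chainR {m : ℕ} (htop : ∀ i j k, a i j = Sum.inr k → k < i)
    (hmon : ∀ i ∉ T, w i ≤ 2 ∧ Monotone (op i))
    (hT : ∀ i ∈ T, ∀ z z' : Fin (w i) → ℝ, (∀ j, θ i j ≤ z j ↔ θ i j ≤ z' j) → op i z = op i z')
    (hval : ∀ x i, val x i = op i (fun j => Sum.elim (bit x) (val x) (a i j)))
    (o : Fin s) (τ : ℝ) (f : Set α → Prop) (hf0 : ¬ f ∅)
    (E : (Fin m → Set α) → I → Bool) (hmono : ∀ y y', (∀ j, y j ⊆ y' j) → E y ≤ E y')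
    (hC : ∀ y, τ ≤ val (E y) o ↔ ∃ j, f (y j))
    (hlow : ∀ (y : Fin m → Set α) (J : Fin m) (L : List (Set α → ℝ)) (g : Set α → ℝ),
      RProg {h | ∃ b ∈ RB I, h = fun X => b (E (Function.update y J X))} L →
      (g ∈ {h : Set α → ℝ | ∃ b ∈ RB I, h = fun X => b (E (Function.update y J X))} ∨ g ∈ L) →
      L.length ≤ s + ∑ i ∈ T, w i → ¬ ∀ X, τ ≤ g X ↔ f X) :
    ∃ x : ℕ → I → Bool, (∀ i < m, x i ≤ x (i + 1) ∧
      ∃ t ∈ T, ∃ j, ¬ (prb a θ val (x i) t j ↔ prb a θ val (x (i + 1)) t j)) ∧
      ∀ i ≤ m, ∃ y : Fin m → Set α, x i = E y ∧ ∀ j, ¬ f (y j) := by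
  classical
  let pr : (Fin m → Set α) → (∀ t : Fin s, Fin (w t) → Prop) := fun y t j =>
    t ∈ T ∧ prb a θ val (E y) t j
  obtain ⟨Y, h1, h2, h3⟩ := chain_core (κ := Fin m) (m := m) (fun X => ¬ f X) ∅ hf0 id
    (fun _ _ h => h) pr (by
      intro y J hy hyJ
      by_contra hcon
      push Not at hcon
      obtain ⟨L, G, hL, hlen, hG, hGx⟩ := flipR htop hmon hT hval o τ (E y)
      have hle : ∀ X, E y ≤ E (Function.update y J X) := by
        intro X
        apply hmono
        intro j
        by_cases hj : j = J
        · rw [hj, hyJ]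
          exact Set.empty_subset _
        · rw [Function.update_of_ne hj]
      have hval' : ∀ X : Set α, τ ≤ val (E (Function.update y J X)) o ↔ f X := by
        intro X
        rw [hC]
        constructor
        · rintro ⟨j, hj⟩
          by_cases hjJ : j = J
          · rw [hjJ, Function.update_self] at hj
            exact hj
          · rw [Function.update_of_ne hjJ] at hj
            exact absurd hj (hy j)
        · intro hX
          exact ⟨J, by rw [Function.update_self]; exact hX⟩
      refine hlow y J _ (fun X => G (E (Function.update y J X)))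
        (hL.comp (B' := {h | ∃ b ∈ RB I, h = fun X => b (E (Function.update y J X))})
          (fun X => E (Function.update y J X)) (fun b hb => ⟨b, hb, rfl⟩)) ?_ ?_ ?_
      · rcases hG with h | h
        · exact Or.inl ⟨G, h, rfl⟩
        · exact Or.inr (List.mem_map.mpr ⟨G, h, rfl⟩)
      · rw [List.length_map]
        exact hlen
      · intro X
        rw [hGx _ (hle X), hval' X]
        constructor
        · rintro (⟨t, ht, j, hj⟩ | h)
          · by_contra hX
            have := congrFun (congrFun (hcon X hX) t) j
            simp only [pr, ht, true_and] at this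
            apply hj
            rw [this]
          · exact h
        · exact Or.inr)
  refine ⟨fun i => E (Y i), fun i hi => ⟨?_, ?_⟩, fun i hi => ⟨Y i, rfl, h3 i hi⟩⟩
  · obtain ⟨J, X, hJ, hX⟩ := h1 i hi
    show E (Y i) ≤ E (Y (i + 1))
    apply hmono
    intro j
    rw [hX]
    by_cases hj : j = J
    · rw [hj, hJ]
      exact Set.empty_subset _
    · rw [Function.update_of_ne hj]
  · by_contra hcon
    push Not at hcon
    apply h2 i hi
    funext t j
    simp only [pr]
    by_cases ht : t ∈ T
    · have := hcon t ht j
      simp only [ht, true_and]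
      exact propext (by tauto)
    · simp only [ht, false_and]

end chain

end Pool.Agent.H560R2
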