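import Pool.Agent.H560R2.Mat4
import Pool.Agent.H560R2.Real4

/-! Linear feasibility: doubly stochastic matrices with prescribed zeros. -/

set_option linter.unusedSectionVars false
set_option linter.unusedVariables false

namespace Pool.Agent.H560R2

open Finset

section dual

variable {α : Type}

lemma RProg.dual {B : Set (Set α → ℝ)} {L : List (Set α → ℝ)} (h : RProg B L) :
    RProg {g | ∃ b ∈ B, g = fun Z => - b Zᶜ} (L.map (fun f Z => - f Zᶜ)) := by
  induction h with
  | nil => exact RProg.nil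
  | @gate L w hw φ hφ f hL hf ih =>
    rw [List.map_cons]
    have e : (fun Z : Set α => -(fun x => φ (fun j => f j x)) Zᶜ) =
        fun Z => (fun u : Fin w → ℝ => - φ (fun j => - u j)) (fun j => - f j Zᶜ) := by
      funext Z
      simp
    rw [e]
    refine RProg.gate w hw (fun u => - φ (fun j => - u j)) ?_ (fun j Z => - f j Zᶜ) ih
      (fun j => ?_)
    · intro u v huv
      apply neg_le_neg
      apply hφ
      intro j
      exact neg_le_neg (huv j)
    · rcases hf j with h | h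
      · exact Or.inl ⟨f j, h, rfl⟩
      · exact Or.inr (List.mem_map.mpr ⟨f j, h, rfl⟩)

lemma LeafOnR.dual {T : Finset α} {ψ : Set α → ℝ} (h : LeafOnR T ψ) :
    LeafOnR T (fun Z => - ψ Zᶜ) := by
  intro x x' hx
  apply neg_le_neg
  apply h
  intro e he hex hee
  exact hex (hx e he hee)

end dual

section

variable {n : ℕ}

/-- the lower bound in terms of the deleted edges -/
theorem match_lower_dual (w lam : ℕ) (hw : 1 ≤ w) (hn : n < 2 ^ lam)
    (hbig : 2 ^ 59 * (lam + 1) ^ 8 * w ^ 8 ≤ n)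
    (B0 : Set (Set (Fin n × Fin n) → ℝ))
    (hleaf : ∀ b ∈ B0, ∃ T : Finset (Fin n × Fin n), T.card ≤ 1 ∧ LeafOnR T b)
    {L : List (Set (Fin n × Fin n) → ℝ)} (hL : RProg B0 L) (g : Set (Fin n × Fin n) → ℝ)
    (hg : g ∈ B0 ∨ g ∈ L) (τ : ℝ)
    (hpos : ∀ σ : Equiv.Perm (Fin n), ¬ τ ≤ g {e | σ e.1 ≠ e.2})
    (hneg : ∀ W : Finset (Fin n ⊕ Fin n), W.card < n →
      τ ≤ g {e | Sum.inl e.1 ∉ W ∧ Sum.inr e.2 ∉ W}) : 2 ^ w ≤ L.length := by
  classical
  obtain ⟨σ0, -, hσ0⟩ := Finset.exists_min_image (univ : Finset (Equiv.Perm (Fin n)))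
    (fun σ => - g ({e | σ e.1 = e.2}ᶜ)) ⟨1, mem_univ _⟩
  have hc : ∀ σ : Equiv.Perm (Fin n), ({e : Fin n × Fin n | σ e.1 = e.2}ᶜ : Set _) =
      {e | σ e.1 ≠ e.2} := by
    intro σ
    ext e
    simp
  have := match_lower w lam hw hn hbig {g | ∃ b ∈ B0, g = fun Z => - b Zᶜ} (by
    rintro _ ⟨b, hb, rfl⟩
    obtain ⟨T, hT, h⟩ := hleaf b hb
    exact ⟨T, hT, h.dual⟩) hL.dual (fun Z => - g Zᶜ) (by
      rcases hg with h | h
      · exact Or.inl ⟨g, h, rfl⟩
      · exact Or.inr (List.mem_map.mpr ⟨g, h, rfl⟩)) (- g ({e | σ0 e.1 = e.2}ᶜ))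
    (fun σ => hσ0 σ (mem_univ _)) (by
      intro W hW h
      have h1 := hneg W hW
      have h2 := hpos σ0
      rw [hc] at h
      have e : ({e : Fin n × Fin n | Sum.inl e.1 ∈ W ∨ Sum.inr e.2 ∈ W}ᶜ : Set _) =
          {e | Sum.inl e.1 ∉ W ∧ Sum.inr e.2 ∉ W} := by
        ext e
        simp
      rw [e] at h
      apply h2
      linarith)
  rwa [List.length_map] at this

/-- there is a doubly stochastic matrix with zeros on `z` -/
def BF (n : ℕ) (z : Set (Fin n × Fin n)) : Prop :=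
  ∃ y : Fin n × Fin n → ℝ, (∀ e, 0 ≤ y e) ∧ (∀ e ∈ z, y e ≤ 0) ∧ (∀ e, y e ≤ 1) ∧
    (∀ u, ∑ v, y (u, v) = 1) ∧ ∀ v, ∑ u, y (u, v) = 1

lemma BF_perm (σ : Equiv.Perm (Fin n)) (z : Set (Fin n × Fin n))
    (hz : ∀ e ∈ z, σ e.1 ≠ e.2) : BF n z := by
  classical
  refine ⟨fun e => if σ e.1 = e.2 then 1 else 0, ?_, ?_, ?_, ?_, ?_⟩
  · intro e
    dsimp only
    split_ifs <;> norm_num
  · intro e he
    simp [hz e he]
  · intro e
    dsimp only
    split_ifs <;> norm_num
  · intro u
    simp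
  · intro v
    have : ∀ u, (σ u = v) ↔ (u = σ.symm v) := fun u => by
      rw [Equiv.eq_symm_apply]
    simp [this]

lemma BF_cover (W : Finset (Fin n ⊕ Fin n)) (hW : W.card < n) :
    ¬ BF n {e | Sum.inl e.1 ∉ W ∧ Sum.inr e.2 ∉ W} := by
  classical
  rintro ⟨y, h0, hz, -, hr, hc⟩
  -- the total weight
  have htot : ∑ u : Fin n, ∑ v : Fin n, y (u, v) = n := by simp [hr]
  -- each entry is covered
  have hle : ∀ u v, y (u, v) ≤ (if Sum.inl u ∈ W then y (u, v) else 0) +
      (if Sum.inr v ∈ W then y (u, v) else 0) := by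
    intro u v
    have h1 := h0 (u, v)
    by_cases hu : Sum.inl u ∈ W
    · by_cases hv : Sum.inr v ∈ W
      · simp [hu, hv, h1]
      · simp [hu, hv]
    · by_cases hv : Sum.inr v ∈ W
      · simp [hu, hv]
      · have := hz (u, v) ⟨hu, hv⟩
        simp [hu, hv, this]
  have h1 : ∑ u : Fin n, ∑ v : Fin n, y (u, v) ≤
      ∑ u : Fin n, ∑ v : Fin n, (if Sum.inl u ∈ W then y (u, v) else 0) +
      ∑ u : Fin n, ∑ v : Fin n, (if Sum.inr v ∈ W then y (u, v) else 0) := by
    rw [← Finset.sum_add_distrib]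
    apply Finset.sum_le_sum
    intro u _
    rw [← Finset.sum_add_distrib]
    exact Finset.sum_le_sum (fun v _ => hle u v)
  have h2 : ∑ u : Fin n, ∑ v : Fin n, (if Sum.inl u ∈ W then y (u, v) else 0) =
      (univ.filter (fun u : Fin n => (Sum.inl u : Fin n ⊕ Fin n) ∈ W)).card := by
    have : ∀ u : Fin n, ∑ v : Fin n, (if Sum.inl u ∈ W then y (u, v) else 0) =
        if Sum.inl u ∈ W then 1 else 0 := by
      intro u
      by_cases hu : Sum.inl u ∈ W
      · simp [hu, hr]
      · simp [hu]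
    simp only [this]
    simp
  have h3 : ∑ u : Fin n, ∑ v : Fin n, (if Sum.inr v ∈ W then y (u, v) else 0) =
      (univ.filter (fun v : Fin n => (Sum.inr v : Fin n ⊕ Fin n) ∈ W)).card := by
    rw [Finset.sum_comm]
    have : ∀ v : Fin n, ∑ u : Fin n, (if Sum.inr v ∈ W then y (u, v) else 0) =
        if Sum.inr v ∈ W then 1 else 0 := by
      intro v
      by_cases hv : Sum.inr v ∈ W
      · simp [hv, hc]
      · simp [hv]
    simp only [this]
    simp
  have h4 : (univ.filter (fun u : Fin n => (Sum.inl u : Fin n ⊕ Fin n) ∈ W)).card +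
      (univ.filter (fun v : Fin n => (Sum.inr v : Fin n ⊕ Fin n) ∈ W)).card = W.card := by
    have h5 : ((univ.filter (fun u : Fin n => (Sum.inl u : Fin n ⊕ Fin n) ∈ W)).disjSum
        (univ.filter (fun v : Fin n => (Sum.inr v : Fin n ⊕ Fin n) ∈ W))) = W := by
      ext x
      rcases x with u | v <;> simp
    rw [← Finset.card_disjSum, h5]
  rw [htot, h2, h3] at h1
  have h5 : (n : ℝ) ≤ (W.card : ℝ) := by
    rw [← h4]
    push_cast
    exact h1
  have h6 : n ≤ W.card := by exact_mod_cast h5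
  omega

variable {M s : ℕ} {T : Finset (Fin s)} {w : Fin s → ℕ}
  {a : ∀ i, Fin (w i) → (Fin M × (Fin n × Fin n)) ⊕ Fin s}
  {op : ∀ i, (Fin (w i) → ℝ) → ℝ} {θ : ∀ i, Fin (w i) → ℝ}
  {val : ((Fin M × (Fin n × Fin n)) → Bool) → Fin s → ℝ}

/-- real circuits with few arbitrary gates for the block system -/
theorem blocks_real (d lam : ℕ) (hd : 1 ≤ d) (hn : n < 2 ^ lam)
    (hbig : 2 ^ 59 * (lam + 1) ^ 8 * d ^ 8 ≤ n)
    (htop : ∀ i j k, a i j = Sum.inr k → k < i)
    (hmon : ∀ i ∉ T, w i ≤ 2 ∧ Monotone (op i))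
    (hT : ∀ i ∈ T, ∀ z z' : Fin (w i) → ℝ, (∀ j, θ i j ≤ z j ↔ θ i j ≤ z' j) → op i z = op i z')
    (hval : ∀ x i, val x i = op i (fun j => Sum.elim (bit x) (val x) (a i j)))
    (o : Fin s) (τ : ℝ)
    (ho : ∀ x, τ ≤ val x o ↔ ∃ J, ¬ BF n {e | x (J, e) = true})
    (hsize : s + ∑ i ∈ T, w i < 2 ^ d) : M < ∏ i ∈ T, (w i + 1) := by
  classical
  have hbf0 : ¬ ¬ BF n ∅ := not_not.mpr (BF_perm 1 ∅ (fun e he => absurd he (Set.notMem_empty e)))
  let E : (Fin M → Set (Fin n × Fin n)) → (Fin M × (Fin n × Fin n)) → Bool :=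
    fun y p => decide (p.2 ∈ y p.1)
  obtain ⟨x, hx1, -⟩ := chainR (m := M) htop hmon hT hval o τ (fun z => ¬ BF n z) hbf0 E (by
      intro y y' h p
      show decide (p.2 ∈ y p.1) ≤ decide (p.2 ∈ y' p.1)
      rw [Bool.le_iff_imp, decide_eq_true_iff, decide_eq_true_iff]
      exact fun hp => h p.1 hp)
    (fun y => by
      rw [ho]
      have : ∀ J, {e : Fin n × Fin n | E y (J, e) = true} = y J := by
        intro J
        ext e
        simp [E]
      simp only [this]) (by
      intro y J L g hL hg hlen hgf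
      have := match_lower_dual d lam hd hn hbig _ (by
        rintro _ ⟨b, hb, rfl⟩
        rcases hb with ⟨c, rfl⟩ | ⟨p, rfl⟩
        · exact ⟨∅, by simp, fun x x' _ => le_rfl⟩
        · have key : ∀ x x' : Set (Fin n × Fin n), (p.1 = J → p.2 ∈ x → p.2 ∈ x') →
              bit (E (Function.update y J x)) p ≤ bit (E (Function.update y J x')) p := by
            intro x x' h
            unfold bit
            by_cases h1 : E (Function.update y J x) p = true
            · have h2 : E (Function.update y J x') p = true := by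
                simp only [E, decide_eq_true_eq] at h1 ⊢
                by_cases hp : p.1 = J
                · rw [hp, Function.update_self] at h1 ⊢
                  exact h hp h1
                · rw [Function.update_of_ne hp] at h1 ⊢
                  exact h1
              rw [if_pos h1, if_pos h2]
            · rw [if_neg h1]
              split_ifs <;> norm_num
          exact ⟨{p.2}, by simp, fun x x' h => key x x' (fun _ => h p.2 (by simp))⟩) hL g hg τ
        (fun σ => by
          rw [hgf]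
          exact not_not.mpr (BF_perm σ _ (fun e he => he)))
        (fun W hW => by
          rw [hgf]
          exact BF_cover W hW)
      omega)
  exact chain_leR htop hmon hT hval M x (fun i hi => (hx1 i hi).1) (fun i hi => (hx1 i hi).2)

end

end Pool.Agent.H560R2
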