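import Pool.Agent.H560R2.Mat5

/-! A linear system with coefficients in `{-1, 0, 1}`, and real algorithms for it. -/

set_option linter.unusedSectionVars false
set_option linter.unusedVariables false

namespace Pool.Agent.H560R2

open Finset

/-- the rows of the system -/
abbrev Rw (M n : ℕ) : Type := (Fin M × (Fin n × Fin n)) ⊕ ((Fin M × (Fin n × Fin n)) ⊕
  ((Fin M × (Fin n ⊕ Fin n)) ⊕ (Fin M × (Fin n ⊕ Fin n))))

lemma card_Rw (M n : ℕ) : Fintype.card (Rw M n) = 2 * (M * (n * n)) + 4 * (M * n) := by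
  simp only [Fintype.card_sum, Fintype.card_prod, Fintype.card_fin]
  ring

/-- the matrix -/
def Mtx (M n : ℕ) : Matrix (Rw M n) (Fin M × (Fin n × Fin n)) ℝ := fun r p =>
  Sum.elim (fun q => if p = q then (1 : ℝ) else 0)
    (Sum.elim (fun q => if p = q then (-1 : ℝ) else 0)
      (Sum.elim (fun q => if p.1 = q.1 ∧ q.2 ∈ bends p.2 then (1 : ℝ) else 0)
        (fun q => if p.1 = q.1 ∧ q.2 ∈ bends p.2 then (-1 : ℝ) else 0))) r

lemma Mtx_values (M n : ℕ) (r : Rw M n) (p : Fin M × (Fin n × Fin n)) :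
    Mtx M n r p = -1 ∨ Mtx M n r p = 0 ∨ Mtx M n r p = 1 := by
  unfold Mtx
  rcases r with q | q | q | q <;> simp only [Sum.elim_inl, Sum.elim_inr] <;> split_ifs <;> simp

/-- the right-hand side -/
noncomputable def rhs {M n : ℕ} (x : Fin M × (Fin n × Fin n) → Bool) : Rw M n → ℝ :=
  Sum.elim (fun _ => 0) (Sum.elim (fun q => bit x q - 1) (Sum.elim (fun _ => 1) (fun _ => -1)))

lemma rhs_values {M n : ℕ} (x : Fin M × (Fin n × Fin n) → Bool) (r : Rw M n) :
    rhs x r = -1 ∨ rhs x r = 0 ∨ rhs x r = 1 := by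
  unfold rhs bit
  rcases r with q | q | q | q
  · simp
  · simp only [Sum.elim_inr, Sum.elim_inl]
    split_ifs <;> simp
  · simp
  · simp

lemma sum_left {M n : ℕ} (y : Fin M × (Fin n × Fin n) → ℝ) (J : Fin M) (u : Fin n) (c : ℝ) :
    ∑ p : Fin M × (Fin n × Fin n),
      (if p.1 = J ∧ (Sum.inl u : Fin n ⊕ Fin n) ∈ bends p.2 then c else 0) * y p =
    c * ∑ v, y (J, (u, v)) := by
  rw [Fintype.sum_prod_type, Finset.sum_eq_single J]
  · rw [Fintype.sum_prod_type, Finset.sum_eq_single u]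
    · rw [Finset.mul_sum]
      apply Finset.sum_congr rfl
      intro v _
      simp [bends]
    · intro u' _ hu'
      apply Finset.sum_eq_zero
      intro v _
      simp [bends, hu'.symm]
    · simp
  · intro J' _ hJ'
    apply Finset.sum_eq_zero
    intro e _
    simp [hJ']
  · simp

lemma sum_right {M n : ℕ} (y : Fin M × (Fin n × Fin n) → ℝ) (J : Fin M) (v : Fin n) (c : ℝ) :
    ∑ p : Fin M × (Fin n × Fin n),
      (if p.1 = J ∧ (Sum.inr v : Fin n ⊕ Fin n) ∈ bends p.2 then c else 0) * y p =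
    c * ∑ u, y (J, (u, v)) := by
  rw [Fintype.sum_prod_type, Finset.sum_eq_single J]
  · rw [Fintype.sum_prod_type_right, Finset.sum_eq_single v]
    · rw [Finset.mul_sum]
      apply Finset.sum_congr rfl
      intro u _
      simp [bends]
    · intro v' _ hv'
      apply Finset.sum_eq_zero
      intro u _
      simp [bends, hv'.symm]
    · simp
  · intro J' _ hJ'
    apply Finset.sum_eq_zero
    intro e _
    simp [hJ']
  · simp

/-- feasibility of the system -/
theorem feas_iff {M n : ℕ} (x : Fin M × (Fin n × Fin n) → Bool) :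
    (∃ y : Fin M × (Fin n × Fin n) → ℝ, ∀ i, rhs x i ≤ ∑ j, Mtx M n i j * y j) ↔
      ∀ J, BF n {e | x (J, e) = true} := by
  classical
  constructor
  · rintro ⟨y, hy⟩ J
    have h1 : ∀ e, 0 ≤ y (J, e) := by
      intro e
      have := hy (Sum.inl (J, e))
      simpa [rhs, Mtx] using this
    have h2 : ∀ e, bit x (J, e) - 1 ≤ - y (J, e) := by
      intro e
      have := hy (Sum.inr (Sum.inl (J, e)))
      simpa [rhs, Mtx] using this
    have h3 : ∀ v : Fin n ⊕ Fin n, (1 : ℝ) ≤ ∑ p : Fin M × (Fin n × Fin n),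
        (if p.1 = J ∧ v ∈ bends p.2 then (1 : ℝ) else 0) * y p :=
      fun v => hy (Sum.inr (Sum.inr (Sum.inl (J, v))))
    have h4 : ∀ v : Fin n ⊕ Fin n, (-1 : ℝ) ≤ ∑ p : Fin M × (Fin n × Fin n),
        (if p.1 = J ∧ v ∈ bends p.2 then (-1 : ℝ) else 0) * y p :=
      fun v => hy (Sum.inr (Sum.inr (Sum.inr (J, v))))
    refine ⟨fun e => y (J, e), h1, ?_, ?_, ?_, ?_⟩
    · intro e he
      have := h2 e
      unfold bit at this
      rw [if_pos (show x (J, e) = true from he)] at this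
      linarith
    · intro e
      have := h2 e
      have h5 : 0 ≤ bit x (J, e) := by unfold bit; split_ifs <;> norm_num
      linarith
    · intro u
      have h5 := h3 (Sum.inl u)
      have h6 := h4 (Sum.inl u)
      rw [sum_left] at h5 h6
      linarith
    · intro v
      have h5 := h3 (Sum.inr v)
      have h6 := h4 (Sum.inr v)
      rw [sum_right] at h5 h6
      linarith
  · intro h
    choose y h1 h2 h3 h4 h5 using h
    refine ⟨fun p => y p.1 p.2, ?_⟩
    rintro (⟨J, e⟩ | ⟨J, e⟩ | ⟨J, v⟩ | ⟨J, v⟩)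
    · have := h1 J e
      simpa [rhs, Mtx] using this
    · have e1 : rhs x (Sum.inr (Sum.inl (J, e))) = bit x (J, e) - 1 := rfl
      have e2 : ∑ j, Mtx M n (Sum.inr (Sum.inl (J, e))) j * y j.1 j.2 = - y J e := by
        simp [Mtx]
      rw [e1, e2]
      unfold bit
      by_cases hx : x (J, e) = true
      · rw [if_pos hx]
        have := h2 J e hx
        linarith
      · rw [if_neg hx]
        have := h3 J e
        linarith
    · show (1 : ℝ) ≤ ∑ p : Fin M × (Fin n × Fin n),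
        (if p.1 = J ∧ v ∈ bends p.2 then (1 : ℝ) else 0) * y p.1 p.2
      rcases v with u | v
      · rw [sum_left (fun p => y p.1 p.2)]
        simp [h4 J u]
      · rw [sum_right (fun p => y p.1 p.2)]
        simp [h5 J v]
    · show (-1 : ℝ) ≤ ∑ p : Fin M × (Fin n × Fin n),
        (if p.1 = J ∧ v ∈ bends p.2 then (-1 : ℝ) else 0) * y p.1 p.2
      rcases v with u | v
      · rw [sum_left (fun p => y p.1 p.2)]
        simp [h4 J u]
      · rw [sum_right (fun p => y p.1 p.2)]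
        simp [h5 J v]

section alg

variable {M n s : ℕ} {T : Finset (Fin s)} {w : Fin s → ℕ}
  {a : ∀ i, Fin (w i) → Rw M n ⊕ Fin s}
  {op : ∀ i, (Fin (w i) → ℝ) → ℝ} {θ : ∀ i, Fin (w i) → ℝ}
  {val : (Rw M n → ℝ) → Fin s → ℝ}

/-- real algorithms for the system -/
theorem lp_real (d lam : ℕ) (hM : 0 < M) (hd : 1 ≤ d) (hn : n < 2 ^ lam)
    (hbig : 2 ^ 59 * (lam + 1) ^ 8 * d ^ 8 ≤ n)
    (htop : ∀ i j k, a i j = Sum.inr k → k < i)
    (hmon : ∀ i ∉ T, w i ≤ 2 ∧ Monotone (op i))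
    (hT : ∀ i ∈ T, ∀ z z' : Fin (w i) → ℝ, (∀ j, θ i j ≤ z j ↔ θ i j ≤ z' j) → op i z = op i z')
    (hval : ∀ b i, val b i = op i (fun j => Sum.elim b (val b) (a i j)))
    (o : Fin s) (τ : ℝ)
    (ho : ∀ b : Rw M n → ℝ, (∀ i, b i = -1 ∨ b i = 0 ∨ b i = 1) →
      (τ ≤ val b o ↔ ¬ ∃ y : Fin M × (Fin n × Fin n) → ℝ, ∀ i, b i ≤ ∑ j, Mtx M n i j * y j))
    (hsize : s + ∑ i ∈ T, w i < 2 ^ d) : M < ∏ i ∈ T, (w i + 1) := by
  classical
  have hnpos : 0 < n := lt_of_lt_of_le (by positivity) hbig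
  -- the input bit of a row
  let co : Rw M n → Option (Fin M × (Fin n × Fin n)) :=
    Sum.elim (fun _ => none) (Sum.elim (fun q => some q) (fun _ => none))
  let ct : Rw M n → ℝ := Sum.elim (fun _ => 0) (Sum.elim (fun _ => 0)
    (Sum.elim (fun _ => 1) (fun _ => -1)))
  let e0 : Fin M × (Fin n × Fin n) := (⟨0, hM⟩, (⟨0, hnpos⟩, ⟨0, hnpos⟩))
  have hrhs : ∀ (x : Fin M × (Fin n × Fin n) → Bool) r,
      rhs x r = (co r).elim (ct r) (fun q => bit x q - 1) := by
    intro x r
    rcases r with q | q | q | q <;> rfl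
  let cv : (i : Fin s) → (j : Fin (w i)) → ℝ → ℝ := fun i j t =>
    Sum.elim (fun r => (co r).elim (ct r) (fun _ => t - 1)) (fun _ => t) (a i j)
  have hcv : ∀ i j (z z' : ℝ), z ≤ z' → cv i j z ≤ cv i j z' := by
    intro i j z z' hz
    simp only [cv]
    rcases a i j with r | k
    · simp only [Sum.elim_inl]
      rcases co r with _ | q
      · exact le_rfl
      · simp only [Option.elim_some]
        linarith
    · exact hz
  refine blocks_real (M := M) (n := n) (T := T) (w := w)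
    (a := fun i j => Sum.elim (fun r => Sum.inl ((co r).getD e0)) (fun k => Sum.inr k) (a i j))
    (op := fun i z => op i (fun j => cv i j (z j)))
    (θ := fun i j => Sum.elim (fun r => θ i j + 1) (fun _ => θ i j) (a i j))
    (val := fun x => val (rhs x)) d lam hd hn hbig ?_ ?_ ?_ ?_ o τ ?_ hsize
  · intro i j k hk
    rcases h : a i j with r | k'
    · rw [h] at hk
      simp at hk
    · rw [h] at hk
      simp only [Sum.elim_inr, Sum.inr.injEq] at hk
      rw [← hk]
      exact htop i j k' h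
  · intro i hi
    exact ⟨(hmon i hi).1, fun z z' hz => (hmon i hi).2 (fun j => hcv i j _ _ (hz j))⟩
  · intro i hi z z' hz
    apply hT i hi
    intro j
    have := hz j
    simp only [cv]
    rcases hm : a i j with r | k
    · simp only [hm, Sum.elim_inl] at this ⊢
      rcases co r with _ | q
      · exact Iff.rfl
      · simp only [Option.elim_some]
        constructor
        · intro h
          have := this.mp (by linarith)
          linarith
        · intro h
          have := this.mpr (by linarith)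
          linarith
    · simp only [hm, Sum.elim_inr] at this ⊢
      exact this
  · intro x i
    rw [hval]
    congr 1
    funext j
    simp only [cv]
    rcases a i j with r | k
    · simp only [Sum.elim_inl]
      rw [hrhs]
      rcases co r with _ | q
      · rfl
      · rfl
    · rfl
  · intro x
    rw [ho (rhs x) (rhs_values x), feas_iff]
    push Not
    rfl

end alg

/-- choice of the parameters -/
lemma exists_size (d : ℕ) (hd : 1 ≤ d) : ∃ lam, 2 ^ 120 * d ^ 9 < 2 ^ lam ∧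
    2 ^ 59 * (lam + 1) ^ 8 * d ^ 8 ≤ 2 ^ 120 * d ^ 9 := by
  obtain ⟨u, hu⟩ : ∃ u, u = Nat.log 2 d := ⟨_, rfl⟩
  have h1 : d < 2 ^ (u + 1) := by rw [hu]; exact Nat.lt_pow_succ_log_self (by norm_num) d
  have h2 : 2 ^ u ≤ d := by rw [hu]; exact Nat.pow_log_le_self 2 (by omega)
  have hpow : ∀ v : ℕ, (130 + 9 * v) ^ 8 ≤ 130 ^ 8 * 2 ^ v := by
    intro v
    induction v with
    | zero => simp
    | succ v ih =>
      have h3 : ∀ x : ℕ, 130 ≤ x → (x + 9) ^ 8 ≤ 2 * x ^ 8 := by
        intro x hx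
        have h4 : (x + 9) * 130 ≤ 139 * x := by omega
        have h5 : ((x + 9) * 130) ^ 8 ≤ (139 * x) ^ 8 := Nat.pow_le_pow_left h4 8
        rw [mul_pow, mul_pow] at h5
        have h6 : (139 : ℕ) ^ 8 ≤ 2 * 130 ^ 8 := by norm_num
        have h7 : (x + 9) ^ 8 * 130 ^ 8 ≤ (2 * x ^ 8) * 130 ^ 8 := by
          calc _ ≤ _ := h5
            _ ≤ (2 * 130 ^ 8) * x ^ 8 := Nat.mul_le_mul_right _ h6
            _ = _ := by ring
        exact Nat.le_of_mul_le_mul_right h7 (by norm_num)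
      calc (130 + 9 * (v + 1)) ^ 8 = ((130 + 9 * v) + 9) ^ 8 := by ring
        _ ≤ 2 * (130 + 9 * v) ^ 8 := h3 _ (by omega)
        _ ≤ 2 * (130 ^ 8 * 2 ^ v) := Nat.mul_le_mul_left _ ih
        _ = _ := by rw [pow_succ]; ring
  refine ⟨129 + 9 * u, ?_, ?_⟩
  · calc 2 ^ 120 * d ^ 9 < 2 ^ 120 * (2 ^ (u + 1)) ^ 9 :=
          Nat.mul_lt_mul_of_pos_left (Nat.pow_lt_pow_left h1 (by norm_num)) (by norm_num)
      _ = 2 ^ (129 + 9 * u) := by
          rw [← pow_mul, ← pow_add]
          congr 1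
          ring
  · have h3 : 2 ^ 59 * (129 + 9 * u + 1) ^ 8 ≤ 2 ^ 120 * d := by
      calc 2 ^ 59 * (129 + 9 * u + 1) ^ 8 = 2 ^ 59 * (130 + 9 * u) ^ 8 := by ring
        _ ≤ 2 ^ 59 * (130 ^ 8 * 2 ^ u) := Nat.mul_le_mul_left _ (hpow u)
        _ = (2 ^ 59 * 130 ^ 8) * 2 ^ u := by ring
        _ ≤ 2 ^ 120 * 2 ^ u := Nat.mul_le_mul_right _ (by norm_num)
        _ ≤ _ := Nat.mul_le_mul_left _ h2
    calc _ ≤ (2 ^ 120 * d) * d ^ 8 := Nat.mul_le_mul_right _ h3
      _ = _ := by ring

end Pool.Agent.H560R2
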