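import Pool.Agent.H560R2.Mat5
import Pool.Agent.H560R2.Av4

/-! Average-case lower bound for bipartite perfect matching. -/

set_option linter.unusedSectionVars false
set_option linter.unusedVariables false

namespace Pool.Agent.H560R2

open Finset Pool.Agent.H520R2

section toR

variable {X : Type}

/-- a Boolean function as a real function -/
def rl (b : X → Bool) : X → ℝ := fun x => if b x = true then 1 else 0

lemma MProg.toR {B : Set (X → Bool)} {L : List (X → Bool)} (h : MProg B L) :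
    RProg {g | ∃ b ∈ B, g = rl b} (L.map rl) := by
  have hmem : ∀ (L : List (X → Bool)) (f : X → Bool), (f ∈ B ∨ f ∈ L) →
      (rl f ∈ {g | ∃ b ∈ B, g = rl b} ∨ rl f ∈ L.map rl) := by
    rintro L f (h | h)
    · exact Or.inl ⟨f, h, rfl⟩
    · exact Or.inr (List.mem_map.mpr ⟨f, h, rfl⟩)
  induction h with
  | nil => exact RProg.nil
  | @and L f g hL hf hg ih =>
    rw [List.map_cons]
    have e : rl (fun x => f x && g x) =
        fun x => (fun u : Fin 2 → ℝ => min (u 0) (u 1)) (fun j => (![rl f, rl g] j) x) := by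
      funext x
      simp only [rl, Matrix.cons_val_zero, Matrix.cons_val_one]
      by_cases h1 : f x = true <;> by_cases h2 : g x = true <;> simp [h1, h2]
    rw [e]
    refine RProg.gate 2 le_rfl (fun u : Fin 2 → ℝ => min (u 0) (u 1)) ?_ ![rl f, rl g] ih
      (fun j => ?_)
    · intro u v huv
      exact min_le_min (huv 0) (huv 1)
    · fin_cases j
      · exact hmem _ _ hf
      · exact hmem _ _ hg
  | @or L f g hL hf hg ih =>
    rw [List.map_cons]
    have e : rl (fun x => f x || g x) =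
        fun x => (fun u : Fin 2 → ℝ => max (u 0) (u 1)) (fun j => (![rl f, rl g] j) x) := by
      funext x
      simp only [rl, Matrix.cons_val_zero, Matrix.cons_val_one]
      by_cases h1 : f x = true <;> by_cases h2 : g x = true <;> simp [h1, h2]
    rw [e]
    refine RProg.gate 2 le_rfl (fun u : Fin 2 → ℝ => max (u 0) (u 1)) ?_ ![rl f, rl g] ih
      (fun j => ?_)
    · intro u v huv
      exact max_le_max (huv 0) (huv 1)
    · fin_cases j
      · exact hmem _ _ hf
      · exact hmem _ _ hg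

end toR

section

variable {n : ℕ}

open Classical in
/-- Average-case bound for monotone real programs. -/
theorem match_avg (w lam c : ℕ) (hw : 1 ≤ w) (hc : 1 ≤ c) (hn : n < 2 ^ lam)
    (hbig : 2 ^ 59 * (lam + 1) ^ 8 * w ^ 8 * c ≤ n) :
    ∃ (Pt : Type) (_ : Fintype Pt) (_ : Nonempty Pt) (W : Pt → Finset (Fin n ⊕ Fin n)),
      (∀ p, (W p).card < n) ∧
      ∀ (B0 : Set (Set (Fin n × Fin n) → ℝ))
        (hleaf : ∀ b ∈ B0, ∃ T : Finset (Fin n × Fin n), T.card ≤ 1 ∧ LeafOnR T b)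
        (L : List (Set (Fin n × Fin n) → ℝ)) (hL : RProg B0 L) (f : Set (Fin n × Fin n) → ℝ)
        (hf : f ∈ B0 ∨ f ∈ L) (θ : ℝ) (hlen : 8 * c * L.length ≤ 2 ^ w),
        (univ.filter (fun σ : Equiv.Perm (Fin n) => θ ≤ f {e | σ e.1 = e.2})).card *
            Fintype.card Pt * (2 * c) ≤
          (univ.filter (fun p : Pt =>
            θ ≤ f {e | Sum.inl e.1 ∈ W p ∨ Sum.inr e.2 ∈ W p})).card *
            Fintype.card (Equiv.Perm (Fin n)) * (2 * c) +
          Fintype.card Pt * Fintype.card (Equiv.Perm (Fin n)) := by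
  have hnpos : 0 < n := lt_of_lt_of_le (by positivity) hbig
  have hlam : 1 ≤ lam := by
    by_contra h
    have : lam = 0 := by omega
    rw [this] at hn
    omega
  obtain ⟨B, hBdef⟩ : ∃ B, B = 8 * lam * w := ⟨_, rfl⟩
  obtain ⟨J, hJdef⟩ : ∃ J, J = lam + 1 := ⟨_, rfl⟩
  obtain ⟨Q, hQdef⟩ : ∃ Q, Q = 8 * (B * J) := ⟨_, rfl⟩
  have hB3 : 3 ≤ B := by rw [hBdef]; nlinarith
  have hJ0 : 0 < J := by omega
  have hQ0 : 0 < Q := by rw [hQdef]; positivity
  have : NeZero Q := ⟨hQ0.ne'⟩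
  obtain ⟨r, hrdef⟩ : ∃ r, r = 64 * Q := ⟨_, rfl⟩
  obtain ⟨R, hRdef⟩ : ∃ R, R = 8 * w ^ 2 * r ^ 2 := ⟨_, rfl⟩
  obtain ⟨K, hKdef⟩ : ∃ K, K = n - w := ⟨_, rfl⟩
  have hw0 : 0 < w := hw
  have hr0 : 0 < r := by rw [hrdef]; positivity
  have hR1 : 1 ≤ R := by rw [hRdef]; exact Nat.succ_le_of_lt (by positivity)
  have hRval : 16 * R ^ 2 = 2 ^ 58 * (lam ^ 4 * (lam + 1) ^ 4) * w ^ 8 := by
    rw [hRdef, hrdef, hQdef, hBdef, hJdef]; ring
  have hlam8 : lam ^ 4 * (lam + 1) ^ 4 ≤ (lam + 1) ^ 8 := by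
    calc lam ^ 4 * (lam + 1) ^ 4 ≤ (lam + 1) ^ 4 * (lam + 1) ^ 4 :=
          Nat.mul_le_mul_right _ (Nat.pow_le_pow_left (by omega) 4)
      _ = _ := by ring
  have hKR : 16 * R ^ 2 * c + w ≤ n := by
    rw [hRval]
    have h1 : 2 ^ 58 * (lam ^ 4 * (lam + 1) ^ 4) * w ^ 8 * c ≤
        2 ^ 58 * (lam + 1) ^ 8 * w ^ 8 * c :=
      Nat.mul_le_mul_right _ (Nat.mul_le_mul_right _ (Nat.mul_le_mul_left _ hlam8))
    have h2 : w ≤ 2 ^ 58 * (lam + 1) ^ 8 * w ^ 8 * c := by
      calc w ≤ w ^ 8 := Nat.le_self_pow (by norm_num) w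
        _ ≤ (2 ^ 58 * (lam + 1) ^ 8) * w ^ 8 := Nat.le_mul_of_pos_left _ (by positivity)
        _ ≤ _ := Nat.le_mul_of_pos_right _ hc
    have h3 : 2 ^ 59 * (lam + 1) ^ 8 * w ^ 8 * c = 2 ^ 58 * (lam + 1) ^ 8 * w ^ 8 * c +
        2 ^ 58 * (lam + 1) ^ 8 * w ^ 8 * c := by ring
    calc 2 ^ 58 * (lam ^ 4 * (lam + 1) ^ 4) * w ^ 8 * c + w ≤
        2 ^ 58 * (lam + 1) ^ 8 * w ^ 8 * c + 2 ^ 58 * (lam + 1) ^ 8 * w ^ 8 * c :=
          Nat.add_le_add h1 h2
      _ = 2 ^ 59 * (lam + 1) ^ 8 * w ^ 8 * c := h3.symm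
      _ ≤ n := hbig
  have hK16c : 16 * R ^ 2 * c ≤ K := by omega
  have hK16 : 16 * R ^ 2 ≤ K := (Nat.le_mul_of_pos_right _ hc).trans hK16c
  have hK4 : 4 * R * c ≤ K := by
    refine le_trans (Nat.mul_le_mul_right _ ?_) hK16c
    nlinarith
  have hwn : w < 2 ^ lam := by omega
  have hJ2 : 2 * w < 2 ^ J := by
    rw [hJdef, pow_succ]; omega
  set Om := ((Q ^ Fintype.card (Fin n ⊕ Fin n)) ^ J) ^ B with hOm
  have hOmpos : 0 < Om := Om_pos B J
  let Pt := {ω : Fin B → Fin J → (Fin n ⊕ Fin n) → Fin Q // (WB ω).card < n}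
  have hlarge := card_large (V := Fin n ⊕ Fin n) (Q := Q) B J n
    (by rw [Fintype.card_sum, Fintype.card_fin]; ring) hnpos (by positivity) hQdef.ge
  have hPtc : 3 * Om ≤ 4 * Fintype.card Pt := by
    have h1 := Set.ncard_add_ncard_compl {ω : Fin B → Fin J → (Fin n ⊕ Fin n) → Fin Q |
      n ≤ (WB ω).card}
    have h2 : Fintype.card Pt = {ω : Fin B → Fin J → (Fin n ⊕ Fin n) → Fin Q |
        n ≤ (WB ω).card}ᶜ.ncard := by
      rw [← Nat.card_eq_fintype_card, ← Nat.card_coe_set_eq]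
      apply Nat.card_congr
      apply Equiv.subtypeEquivRight
      intro ω
      show _ ↔ ¬ n ≤ (WB ω).card
      omega
    have h3 : Nat.card (Fin B → Fin J → (Fin n ⊕ Fin n) → Fin Q) = Om := by
      rw [← Set.ncard_univ, card_Om]
    rw [h3] at h1
    omega
  have hPtpos : 0 < Fintype.card Pt := by omega
  refine ⟨Pt, inferInstance, Fintype.card_pos_iff.mp hPtpos, fun ω => WB ω.1,
    fun ω => ω.2, ?_⟩
  intro B0 hleaf L hL f hf θ hlen
  obtain ⟨Ep, En, hEp, hEn, H⟩ := approxM (ends := bends (n := n)) (Q := Q) bends_card bends_inj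
    B J w r R K hB3 hJ0 hw hQdef.ge hrdef.ge hRdef.ge hR1 hJ2 B0 hleaf pgr pgr_mt
    (fun Y hY => by
      rw [hKdef]
      exact card_perm (n := n) w (w + 1) Y hY le_rfl) hL
  obtain ⟨D, hD⟩ := H f hf
  set Pc := Fintype.card (Equiv.Perm (Fin n)) with hPc
  have hPpos : 0 < Pc := Fintype.card_pos
  set P := (univ.filter (fun σ : Equiv.Perm (Fin n) => θ ≤ f {e | σ e.1 = e.2})).card with hP
  set T := (univ.filter (fun p : Pt =>
    θ ≤ f {e | Sum.inl e.1 ∈ WB p.1 ∨ Sum.inr e.2 ∈ WB p.1})).card with hT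
  have hPle : P ≤ Pc := by
    rw [hP, hPc, ← Finset.card_univ]
    exact Finset.card_filter_le _ _
  by_cases hempty : ∅ ∈ D θ
  · -- true on almost all covers
    have hbad : (univ.filter (fun p : Pt =>
        ¬ θ ≤ f {e | Sum.inl e.1 ∈ WB p.1 ∨ Sum.inr e.2 ∈ WB p.1})).card ≤ En.ncard := by
      rw [← Set.ncard_coe_finset]
      apply Set.ncard_le_ncard_of_injOn (fun p : Pt => p.1) _ _ (Set.toFinite _)
      · intro ω hω
        rw [Finset.mem_coe, Finset.mem_filter] at hω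
        by_contra hcon
        apply hω.2
        have h1 := hD.neg ω.1 hcon θ ⟨∅, hempty, Finset.empty_subset _⟩
        have e : (touch bends (WB ω.1) : Set (Fin n × Fin n)) =
            {e | Sum.inl e.1 ∈ WB ω.1 ∨ Sum.inr e.2 ∈ WB ω.1} := by
          ext e
          rw [Finset.mem_coe, mem_touch, Finset.not_disjoint_iff]
          simp [bends]
        rw [← e]
        exact h1
      · intro ω _ ω' _ h
        exact Subtype.ext h
    have hsplit := Finset.card_filter_add_card_filter_not (s := (univ : Finset Pt))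
      (fun p : Pt => θ ≤ f {e | Sum.inl e.1 ∈ WB p.1 ∨ Sum.inr e.2 ∈ WB p.1})
    rw [Finset.card_univ, ← hT] at hsplit
    -- the error is small
    set Tc := (Tm (bends (n := n)) w).card with hTc
    have hT1 : Tc ≤ 2 ^ (2 * lam * w) := by
      have h4 : Tc ≤ ((univ : Finset (Finset (Fin n × Fin n))).filter
          (fun Y => Y.card ≤ w)).card := by
        apply Finset.card_le_card
        intro S hS
        rw [Finset.mem_filter]
        exact ⟨mem_univ _, (mem_Tm.mp hS).1⟩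
      refine h4.trans ((card_small_sets w).trans ?_)
      rw [pow_mul]
      apply Nat.pow_le_pow_left
      rw [Fintype.card_prod, Fintype.card_fin]
      have h5 : n + 1 ≤ 2 ^ lam := hn
      calc n * n + 1 ≤ (n + 1) * (n + 1) := by nlinarith
        _ ≤ 2 ^ lam * 2 ^ lam := Nat.mul_le_mul h5 h5
        _ = 2 ^ (2 * lam) := by rw [← pow_add]; congr 1; ring
    have hT2 : Tc + 1 ≤ 2 ^ (2 * lam * w + 1) := by
      have : 1 ≤ 2 ^ (2 * lam * w) := Nat.one_le_two_pow
      rw [pow_succ]; omega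
    have h4 : (8 * c * En.ncard) * 2 ^ B ≤
        2 ^ w * (2 ^ (2 * lam * w + 1) * (2 ^ (2 * lam * w) * Om)) := by
      calc (8 * c * En.ncard) * 2 ^ B = 8 * c * (En.ncard * 2 ^ B) := by ring
        _ ≤ 8 * c * (L.length * ((Tc + 1) * (Tc * Om))) := Nat.mul_le_mul_left _ hEn
        _ = (8 * c * L.length) * ((Tc + 1) * (Tc * Om)) := by ring
        _ ≤ _ := Nat.mul_le_mul hlen (Nat.mul_le_mul hT2 (Nat.mul_le_mul_right _ hT1))
    have h5 : 2 ^ w * (2 ^ (2 * lam * w + 1) * (2 ^ (2 * lam * w) * Om)) ≤ Om * 2 ^ B := by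
      calc 2 ^ w * (2 ^ (2 * lam * w + 1) * (2 ^ (2 * lam * w) * Om))
          = Om * 2 ^ (w + (2 * lam * w + 1) + 2 * lam * w) := by
            rw [pow_add, pow_add]; ring
        _ ≤ Om * 2 ^ B := by
            apply Nat.mul_le_mul_left
            apply Nat.pow_le_pow_right (by norm_num)
            rw [hBdef]
            nlinarith
    have h6 := Nat.le_of_mul_le_mul_right (h4.trans h5) (by positivity)
    have h7 : (Fintype.card Pt - T) * (2 * c) ≤ Fintype.card Pt := by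
      have h8 : Fintype.card Pt - T ≤ En.ncard := by omega
      have h9 : (Fintype.card Pt - T) * (8 * c) ≤ Om := by
        calc _ ≤ En.ncard * (8 * c) := Nat.mul_le_mul_right _ h8
          _ = 8 * c * En.ncard := by ring
          _ ≤ Om := h6
      have h10 : (Fintype.card Pt - T) * (8 * c) = 4 * ((Fintype.card Pt - T) * (2 * c)) := by ring
      omega
    have h8 : Fintype.card Pt * (2 * c) ≤ T * (2 * c) + Fintype.card Pt := by
      have h9 : Fintype.card Pt ≤ T + (Fintype.card Pt - T) := by omega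
      calc Fintype.card Pt * (2 * c) ≤ (T + (Fintype.card Pt - T)) * (2 * c) :=
            Nat.mul_le_mul_right _ h9
        _ = T * (2 * c) + (Fintype.card Pt - T) * (2 * c) := by ring
        _ ≤ _ := Nat.add_le_add_left h7 _
    calc P * Fintype.card Pt * (2 * c) ≤ Pc * Fintype.card Pt * (2 * c) :=
          Nat.mul_le_mul_right _ (Nat.mul_le_mul_right _ hPle)
      _ = Pc * (Fintype.card Pt * (2 * c)) := by ring
      _ ≤ Pc * (T * (2 * c) + Fintype.card Pt) := Nat.mul_le_mul_left _ h8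
      _ = _ := by ring
  · -- false on most matchings
    let g : Finset (Fin n × Fin n) → Prop := fun x => sat (D θ) x
    have hmem : ∀ l, ∀ S ∈ Mint g l, S ∈ D θ ∧ S ∈ minc D l := by
      intro l S hS
      obtain ⟨h1, ⟨S', hS', hsub⟩, h3⟩ := (mem_Mint g l S).mp hS
      have hSS : S' = S := by
        by_contra hne
        exact h3 S' (Finset.ssubset_iff_subset_ne.mpr ⟨hsub, hne⟩) ⟨S', hS', subset_rfl⟩
      rw [hSS] at hS'
      exact ⟨hS', mem_minc.mpr ⟨h1, θ, hS', fun S'' hS'' hlt => h3 S'' hlt ⟨S'', hS'', subset_rfl⟩⟩⟩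
    have hthin : ∀ l, l ≤ w → (Mint g l).card ≤ R ^ l := by
      intro l hl
      refine (Finset.card_le_card (fun S hS => (hmem l S hS).2)).trans
        (minc_thin bends_card bends_inj B J w r R l hrdef.ge ?_ (by omega) hl D hD.closed
          hD.anti)
      rw [hRdef]
      exact Nat.mul_le_mul_right _ (Nat.mul_le_mul_left _ (Nat.pow_le_pow_left hl 2))
    have hcount := count_pos' (pgr (n := n)) R w c (by omega)
      (fun Y hY1 hY => by
        refine le_trans ?_ (card_perm w Y.card Y rfl (by omega))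
        rw [mul_assoc]
        apply Nat.mul_le_mul_left
        rw [← hKdef]
        calc (4 * R) ^ Y.card * c ≤ (4 * R) ^ Y.card * c ^ Y.card :=
              Nat.mul_le_mul_left _ (Nat.le_self_pow (by omega) c)
          _ = (4 * R * c) ^ Y.card := by rw [mul_pow (4 * R) c]
          _ ≤ _ := Nat.pow_le_pow_left hK4 _) g hthin
      {σ | sat (D θ) (pgr σ)} (by
        intro σ hσ
        obtain ⟨Y, hY1, hY2⟩ := exists_minterm g (pgr σ) hσ
        have h3 := (hmem _ Y hY2).1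
        refine ⟨Y, hY1, hY2, ?_, (mem_Tm.mp ((hD.closed θ).1 h3)).1⟩
        rcases Nat.eq_zero_or_pos Y.card with h4 | h4
        · exfalso
          rw [Finset.card_eq_zero] at h4
          rw [h4] at h3
          exact hempty h3
        · exact h4)
    have hcov : ((univ.filter (fun σ : Equiv.Perm (Fin n) => θ ≤ f {e | σ e.1 = e.2}) :
        Finset (Equiv.Perm (Fin n))) : Set _) ⊆ Ep ∪ {σ | sat (D θ) (pgr σ)} := by
      intro σ hσ
      rw [Finset.mem_coe, Finset.mem_filter] at hσ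
      by_cases h : σ ∈ Ep
      · exact Or.inl h
      · right
        apply hD.pos σ h θ
        have e : (pgr σ : Set (Fin n × Fin n)) = {e | σ e.1 = e.2} := by
          ext e
          rw [Finset.mem_coe, mem_pgr]
          rfl
        rw [e]
        exact hσ.2
    have h1 := (Set.ncard_le_ncard hcov (Set.toFinite _)).trans (Set.ncard_union_le _ _)
    rw [Set.ncard_coe_finset, ← hP] at h1
    -- the error is small
    have hw1 : (w + 1) ^ 2 ≤ 4 ^ w := by
      have h5 : w + 1 ≤ 2 ^ w := Nat.lt_two_pow_self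
      calc (w + 1) ^ 2 ≤ (2 ^ w) ^ 2 := Nat.pow_le_pow_left h5 2
        _ = 4 ^ w := by rw [← pow_mul, mul_comm, pow_mul]; norm_num
    have h4 : (8 * c * Ep.ncard) * K ^ (w + 1) ≤ 2 ^ w * ((4 ^ w * (R ^ 2) ^ w) * Pc) := by
      calc (8 * c * Ep.ncard) * K ^ (w + 1) = 8 * c * (Ep.ncard * K ^ (w + 1)) := by ring
        _ ≤ 8 * c * (L.length * (((w + 1) * R ^ w) ^ 2 * Pc)) := Nat.mul_le_mul_left _ hEp
        _ = (8 * c * L.length) * (((w + 1) * R ^ w) ^ 2 * Pc) := by ring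
        _ ≤ _ := by
            refine Nat.mul_le_mul hlen (Nat.mul_le_mul_right _ ?_)
            calc ((w + 1) * R ^ w) ^ 2 = (w + 1) ^ 2 * (R ^ 2) ^ w := by
                  rw [mul_pow, ← pow_mul, ← pow_mul, mul_comm w 2]
              _ ≤ _ := Nat.mul_le_mul_right _ hw1
    have h5 : 2 ^ w * ((4 ^ w * (R ^ 2) ^ w) * Pc) ≤ Pc * K ^ w := by
      calc 2 ^ w * ((4 ^ w * (R ^ 2) ^ w) * Pc) = Pc * (8 * R ^ 2) ^ w := by
            rw [mul_pow]
            have : (8 : ℕ) ^ w = 2 ^ w * 4 ^ w := by rw [← mul_pow]; norm_num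
            rw [this]
            ring
        _ ≤ _ := Nat.mul_le_mul_left _ (Nat.pow_le_pow_left (by omega) w)
    have hK1 : 1 ≤ K := by
      have : 1 ≤ 16 * R ^ 2 := by
        have : 0 < R ^ 2 := by positivity
        omega
      omega
    have h6 : 8 * c * Ep.ncard ≤ Pc := by
      have hKw : 0 < K ^ w := by positivity
      refine Nat.le_of_mul_le_mul_right ?_ hKw
      calc (8 * c * Ep.ncard) * K ^ w ≤ (8 * c * Ep.ncard) * K ^ (w + 1) :=
            Nat.mul_le_mul_left _ (Nat.pow_le_pow_right hK1 (by omega))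
        _ ≤ _ := h4.trans h5
    have h7 : P * (2 * c) ≤ Pc := by
      have h8 : (P : ℚ) ≤ Ep.ncard + ({σ | sat (D θ) (pgr σ)} : Set (Equiv.Perm (Fin n))).ncard := by
        exact_mod_cast h1
      have h9 : (8 * c * Ep.ncard : ℚ) ≤ Pc := by exact_mod_cast h6
      have hc0 : (0 : ℚ) ≤ 2 * c := by positivity
      have h10 := mul_le_mul_of_nonneg_right h8 hc0
      have hP0 : (0 : ℚ) ≤ Pc := Nat.cast_nonneg _
      have h11 : (P : ℚ) * (2 * c) ≤ Pc := by
        have h12 : ((Ep.ncard : ℚ) + ({σ | sat (D θ) (pgr σ)} : Set (Equiv.Perm (Fin n))).ncard) *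
            (2 * c) = (8 * c * Ep.ncard) * (1 / 4) +
            (({σ | sat (D θ) (pgr σ)} : Set (Equiv.Perm (Fin n))).ncard : ℚ) * c * 2 := by ring
        rw [h12] at h10
        linarith
      exact_mod_cast h11
    calc P * Fintype.card Pt * (2 * c) = (P * (2 * c)) * Fintype.card Pt := by ring
      _ ≤ Pc * Fintype.card Pt := Nat.mul_le_mul_right _ h7
      _ = Fintype.card Pt * Pc := by ring
      _ ≤ _ := Nat.le_add_left _ _

open Classical in
/-- Average-case bound for monotone Boolean programs, in terms of the deleted edges. -/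
theorem match_avg_dual (w lam c : ℕ) (hw : 1 ≤ w) (hc : 1 ≤ c) (hn : n < 2 ^ lam)
    (hbig : 2 ^ 59 * (lam + 1) ^ 8 * w ^ 8 * c ≤ n) :
    ∃ (Pt : Type) (_ : Fintype Pt) (_ : Nonempty Pt) (W : Pt → Finset (Fin n ⊕ Fin n)),
      (∀ p, (W p).card < n) ∧
      ∀ (Bs : Set (Set (Fin n × Fin n) → Bool))
        (_ : ∀ b ∈ Bs, ∃ T : Finset (Fin n × Fin n), T.card ≤ 1 ∧ LeafOnR T (rl b))
        (s : ℕ) (g : Set (Fin n × Fin n) → Bool) (_ : MComp Bs s g) (_ : 8 * c * s ≤ 2 ^ w),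
        ((univ.filter (fun p : Pt =>
            g {e | Sum.inl e.1 ∉ W p ∧ Sum.inr e.2 ∉ W p} = true)).card : ℚ) *
            Fintype.card (Equiv.Perm (Fin n)) * (2 * c) ≤
          ((univ.filter (fun σ : Equiv.Perm (Fin n) =>
            g {e | σ e.1 ≠ e.2} = true)).card : ℚ) * Fintype.card Pt * (2 * c) +
          Fintype.card (Equiv.Perm (Fin n)) * Fintype.card Pt := by
  obtain ⟨Pt, i1, i2, W, hW, H⟩ := match_avg (n := n) w lam c hw hc hn hbig
  refine ⟨Pt, i1, i2, W, hW, ?_⟩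
  intro Bs hBs s g hg hs
  obtain ⟨L, hL, hLs, hgL⟩ := hg
  have hc' : ∀ σ : Equiv.Perm (Fin n), ({e : Fin n × Fin n | σ e.1 = e.2}ᶜ : Set _) =
      {e | σ e.1 ≠ e.2} := by
    intro σ
    ext e
    simp
  have hc2 : ∀ W : Finset (Fin n ⊕ Fin n),
      ({e : Fin n × Fin n | Sum.inl e.1 ∈ W ∨ Sum.inr e.2 ∈ W}ᶜ : Set _) =
      {e | Sum.inl e.1 ∉ W ∧ Sum.inr e.2 ∉ W} := by
    intro W
    ext e
    simp
  have h := H {g | ∃ b ∈ {g | ∃ b ∈ Bs, g = rl b}, g = fun Z => - b Zᶜ} (by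
      rintro _ ⟨_, ⟨b, hb, rfl⟩, rfl⟩
      obtain ⟨T, hT, h⟩ := hBs b hb
      exact ⟨T, hT, h.dual⟩) _ (MProg.toR hL).dual (fun Z => - rl g Zᶜ) (by
      rcases hgL with h | h
      · exact Or.inl ⟨rl g, ⟨g, h, rfl⟩, rfl⟩
      · exact Or.inr (List.mem_map.mpr ⟨rl g, List.mem_map.mpr ⟨g, h, rfl⟩, rfl⟩)) 0 (by
      rw [List.length_map, List.length_map]
      exact (Nat.mul_le_mul_left _ hLs).trans hs)
  simp only [hc', hc2] at h
  have hval : ∀ Z : Set (Fin n × Fin n), (0 ≤ - rl g Z) ↔ ¬ g Z = true := by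
    intro Z
    unfold rl
    by_cases hZ : g Z = true
    · simp [hZ]
    · simp [hZ]
  simp only [hval] at h
  have s1 := Finset.card_filter_add_card_filter_not (s := (univ : Finset (Equiv.Perm (Fin n))))
    (fun σ => g {e | σ e.1 ≠ e.2} = true)
  have s2 := Finset.card_filter_add_card_filter_not (s := (univ : Finset Pt))
    (fun p => g {e | Sum.inl e.1 ∉ W p ∧ Sum.inr e.2 ∉ W p} = true)
  rw [Finset.card_univ] at s1 s2
  have s1' : (((univ.filter (fun σ : Equiv.Perm (Fin n) => g {e | σ e.1 ≠ e.2} = true)).card +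
    (univ.filter (fun σ : Equiv.Perm (Fin n) => ¬ g {e | σ e.1 ≠ e.2} = true)).card : ℕ) : ℚ) =
    Fintype.card (Equiv.Perm (Fin n)) := by exact_mod_cast s1
  have s2' : (((univ.filter (fun p : Pt =>
      g {e | Sum.inl e.1 ∉ W p ∧ Sum.inr e.2 ∉ W p} = true)).card +
    (univ.filter (fun p : Pt =>
      ¬ g {e | Sum.inl e.1 ∉ W p ∧ Sum.inr e.2 ∉ W p} = true)).card : ℕ) : ℚ) =
    Fintype.card Pt := by exact_mod_cast s2
  have h' : (((univ.filter (fun σ : Equiv.Perm (Fin n) => ¬ g {e | σ e.1 ≠ e.2} = true)).card *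
            Fintype.card Pt * (2 * c) : ℕ) : ℚ) ≤
          (((univ.filter (fun p : Pt =>
            ¬ g {e | Sum.inl e.1 ∉ W p ∧ Sum.inr e.2 ∉ W p} = true)).card *
            Fintype.card (Equiv.Perm (Fin n)) * (2 * c) +
          Fintype.card Pt * Fintype.card (Equiv.Perm (Fin n)) : ℕ) : ℚ) := by
    exact_mod_cast h
  push_cast at h' s1' s2'
  have e1 : (((univ.filter (fun σ : Equiv.Perm (Fin n) => ¬ g {e | σ e.1 ≠ e.2} = true)).card : ℕ)
      : ℚ) = Fintype.card (Equiv.Perm (Fin n)) -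
      ((univ.filter (fun σ : Equiv.Perm (Fin n) => g {e | σ e.1 ≠ e.2} = true)).card : ℚ) := by
    linarith
  have e2 : (((univ.filter (fun p : Pt =>
            ¬ g {e | Sum.inl e.1 ∉ W p ∧ Sum.inr e.2 ∉ W p} = true)).card : ℕ) : ℚ) =
      Fintype.card Pt - ((univ.filter (fun p : Pt =>
            g {e | Sum.inl e.1 ∉ W p ∧ Sum.inr e.2 ∉ W p} = true)).card : ℚ) := by
    linarith
  rw [e1, e2] at h'
  nlinarith [h']

end

end Pool.Agent.H560R2
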