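import Pool.Agent.H560R2.Mat7
import Pool.Agent.H560R2.Mat6

/-! A hard distribution for bipartite perfect matching. -/

set_option linter.unusedSectionVars false
set_option linter.unusedVariables false

namespace Pool.Agent.H560R2

open Finset Pool.Agent.H520R2 Pool.Agent.H520R2.NM

/-- every perfect matching uses a deleted edge -/
def NoPM (m : ℕ) (z : Set (Fin m × Fin m)) : Prop := ¬ ∃ σ : Equiv.Perm (Fin m), ∀ i, (i, σ i) ∉ z

lemma NoPM_cover {m : ℕ} (W : Finset (Fin m ⊕ Fin m)) (hW : W.card < m) :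
    NoPM m {e | Sum.inl e.1 ∉ W ∧ Sum.inr e.2 ∉ W} := by
  classical
  rintro ⟨σ, hσ⟩
  have h1 : (univ : Finset (Fin m)).card ≤ W.card := by
    apply Finset.card_le_card_of_injOn (fun i => if Sum.inl i ∈ W then Sum.inl i else Sum.inr (σ i))
    · intro i _
      simp only
      by_cases hi : Sum.inl i ∈ W
      · rw [if_pos hi]; exact hi
      · rw [if_neg hi]
        by_contra hcon
        exact hσ i ⟨hi, hcon⟩
    · intro i _ j _ hij
      simp only at hij
      by_cases hi : Sum.inl i ∈ W
      · by_cases hj : Sum.inl j ∈ W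
        · rw [if_pos hi, if_pos hj] at hij
          exact Sum.inl.inj hij
        · rw [if_pos hi, if_neg hj] at hij
          exact absurd hij (by simp)
      · by_cases hj : Sum.inl j ∈ W
        · rw [if_neg hi, if_pos hj] at hij
          exact absurd hij (by simp)
        · rw [if_neg hi, if_neg hj] at hij
          exact σ.injective (Sum.inr.inj hij)
  rw [Finset.card_univ, Fintype.card_fin] at h1
  omega

/-- the vertices on one side: blocks and the rest -/
noncomputable def side (n m M : ℕ) (h : M * m ≤ n) : (Fin M × Fin m) ⊕ Fin (n - M * m) ≃ Fin n :=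
  (Equiv.sumCongr finProdFinEquiv (Equiv.refl _)).trans (finSumFinEquiv.trans (finCongr (by omega)))

/-- the deleted edges of the graph with blocks `y` -/
noncomputable def delE {n m M : ℕ} (h : M * m ≤ n) (y : Fin M → Set (Fin m × Fin m)) :
    Fin n × Fin n → Bool := by
  classical
  exact fun p => match (side n m M h).symm p.1, (side n m M h).symm p.2 with
    | Sum.inl a, Sum.inl b => decide (a.1 = b.1 → (a.2, b.2) ∈ y a.1)
    | Sum.inr a, Sum.inr b => decide (a ≠ b)
    | _, _ => true

lemma delE_ll {n m M : ℕ} (h : M * m ≤ n) (y : Fin M → Set (Fin m × Fin m)) {p : Fin n × Fin n}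
    {a b} (ha : (side n m M h).symm p.1 = Sum.inl a) (hb : (side n m M h).symm p.2 = Sum.inl b) :
    delE h y p = true ↔ (a.1 = b.1 → (a.2, b.2) ∈ y a.1) := by
  classical
  unfold delE
  simp only [ha, hb, decide_eq_true_eq]

lemma delE_rr {n m M : ℕ} (h : M * m ≤ n) (y : Fin M → Set (Fin m × Fin m)) {p : Fin n × Fin n}
    {a b} (ha : (side n m M h).symm p.1 = Sum.inr a) (hb : (side n m M h).symm p.2 = Sum.inr b) :
    delE h y p = true ↔ a ≠ b := by
  classical
  unfold delE
  simp only [ha, hb, decide_eq_true_eq]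

lemma delE_lr {n m M : ℕ} (h : M * m ≤ n) (y : Fin M → Set (Fin m × Fin m)) {p : Fin n × Fin n}
    {a b} (ha : (side n m M h).symm p.1 = Sum.inl a) (hb : (side n m M h).symm p.2 = Sum.inr b) :
    delE h y p = true := by
  classical
  unfold delE
  simp only [ha, hb]

lemma delE_rl {n m M : ℕ} (h : M * m ≤ n) (y : Fin M → Set (Fin m × Fin m)) {p : Fin n × Fin n}
    {a b} (ha : (side n m M h).symm p.1 = Sum.inr a) (hb : (side n m M h).symm p.2 = Sum.inl b) :
    delE h y p = true := by
  classical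
  unfold delE
  simp only [ha, hb]

lemma delE_mono {n m M : ℕ} (h : M * m ≤ n) (y y' : Fin M → Set (Fin m × Fin m))
    (hy : ∀ j, y j ⊆ y' j) : delE h y ≤ delE h y' := by
  intro p
  rw [Bool.le_iff_imp]
  rcases ha : (side n m M h).symm p.1 with a | a <;> rcases hb : (side n m M h).symm p.2 with b | b
  · rw [delE_ll h y ha hb, delE_ll h y' ha hb]
    exact fun h1 h2 => hy _ (h1 h2)
  · rw [delE_lr h y ha hb, delE_lr h y' ha hb]
    exact fun h => h
  · rw [delE_rl h y ha hb, delE_rl h y' ha hb]
    exact fun h => h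
  · rw [delE_rr h y ha hb, delE_rr h y' ha hb]
    exact fun h => h

lemma delE_pm {n m M : ℕ} (h : M * m ≤ n) (y : Fin M → Set (Fin m × Fin m)) :
    (¬ ∃ σ : Equiv.Perm (Fin n), ∀ i, delE h y (i, σ i) = false) ↔ ∃ j, NoPM m (y j) := by
  classical
  unfold NoPM
  rw [← not_forall, not_iff_not]
  set e := side n m M h with he
  constructor
  · rintro ⟨σ, hσ⟩ J
    have hσ' : ∀ x : (Fin M × Fin m) ⊕ Fin (n - M * m), delE h y (e x, σ (e x)) = false :=
      fun x => hσ (e x)
    have key : ∀ i : Fin m, ∃ j : Fin m, e.symm (σ (e (Sum.inl (J, i)))) = Sum.inl (J, j) ∧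
        (i, j) ∉ y J := by
      intro i
      have h1 := hσ' (Sum.inl (J, i))
      have ha : (side n m M h).symm (e (Sum.inl (J, i)), σ (e (Sum.inl (J, i)))).1 =
          Sum.inl (J, i) := by
        show e.symm (e _) = _
        rw [Equiv.symm_apply_apply]
      rcases hb : e.symm (σ (e (Sum.inl (J, i)))) with ⟨J', j⟩ | b
      · have h2 := delE_ll h y (p := (e (Sum.inl (J, i)), σ (e (Sum.inl (J, i))))) ha hb
        have h3 : ¬ (J = J' → (i, j) ∈ y J) := by
          intro h4
          have := h2.mpr h4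
          rw [h1] at this
          exact absurd this (by simp)
        push Not at h3
        obtain ⟨h4, h5⟩ := h3
        subst h4
        exact ⟨j, rfl, h5⟩
      · have h2 := delE_lr h y (p := (e (Sum.inl (J, i)), σ (e (Sum.inl (J, i))))) ha hb
        rw [h1] at h2
        exact absurd h2 (by simp)
    choose τ hτ1 hτ2 using key
    have hinj : Function.Injective τ := by
      intro i i' hii
      have h1 := hτ1 i
      have h2 := hτ1 i'
      rw [← hii, ← h1] at h2
      have h3 := e.injective (σ.injective (e.symm.injective h2))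
      have h4 := Sum.inl.inj h3
      exact (Prod.mk.inj h4).2.symm
    exact ⟨Equiv.ofBijective τ (Finite.injective_iff_bijective.mp hinj), hτ2⟩
  · intro H
    choose τ hτ using H
    refine ⟨(e.symm.trans (Equiv.sumCongr (Equiv.prodShear (Equiv.refl _) τ) (Equiv.refl _))).trans
      e, ?_⟩
    intro u
    obtain ⟨x, rfl⟩ := e.surjective u
    have hu : (((e.symm.trans (Equiv.sumCongr (Equiv.prodShear (Equiv.refl _) τ)
        (Equiv.refl _))).trans e) (e x)) =
        e (Equiv.sumCongr (Equiv.prodShear (Equiv.refl _) τ) (Equiv.refl _) x) := by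
      simp
    rw [hu, Bool.eq_false_iff]
    intro hcon
    rcases x with ⟨J, i⟩ | a
    · have h1 := (delE_ll h y (p := (e (Sum.inl (J, i)),
        e (Equiv.sumCongr (Equiv.prodShear (Equiv.refl _) τ) (Equiv.refl _) (Sum.inl (J, i)))))
        (a := (J, i)) (b := (J, τ J i)) (by
          show e.symm (e _) = _
          rw [Equiv.symm_apply_apply]) (by
          show e.symm (e _) = _
          rw [Equiv.symm_apply_apply]
          rfl)).mp hcon
      exact hτ J i (h1 rfl)
    · have h1 := (delE_rr h y (p := (e (Sum.inr a),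
        e (Equiv.sumCongr (Equiv.prodShear (Equiv.refl _) τ) (Equiv.refl _) (Sum.inr a))))
        (a := a) (b := a) (by
          show e.symm (e _) = _
          rw [Equiv.symm_apply_apply]) (by
          show e.symm (e _) = _
          rw [Equiv.symm_apply_apply]
          rfl)).mp hcon
      exact h1 rfl

lemma delE_leaf {n m M : ℕ} (h : M * m ≤ n) (y : Fin M → Set (Fin m × Fin m)) (J : Fin M)
    (b : Set (Fin m × Fin m) → Bool) (hb : b ∈ blockBase (delE h) y J) :
    ∃ T : Finset (Fin m × Fin m), T.card ≤ 1 ∧ LeafOnR T (rl b) := by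
  classical
  obtain ⟨b', hb', rfl⟩ := hb
  have hrl : ∀ (g : Set (Fin m × Fin m) → Bool) (x x' : Set (Fin m × Fin m)),
      (g x = true → g x' = true) → rl g x ≤ rl g x' := by
    intro g x x' hg
    unfold rl
    by_cases h1 : g x = true
    · rw [if_pos h1, if_pos (hg h1)]
    · rw [if_neg h1]
      split_ifs <;> norm_num
  rcases hb' with ⟨c, rfl⟩ | ⟨p, rfl⟩
  · exact ⟨∅, by simp, fun x x' _ => le_rfl⟩
  · rcases ha : (side n m M h).symm p.1 with a | a <;>
      rcases hb : (side n m M h).symm p.2 with b | b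
    · refine ⟨{(a.2, b.2)}, by simp, fun x x' hx => hrl _ _ _ ?_⟩
      rw [delE_ll h _ ha hb, delE_ll h _ ha hb]
      intro h1 h2
      have h3 := h1 h2
      by_cases h4 : a.1 = J
      · rw [h4, Function.update_self] at h3 ⊢
        exact hx _ (by simp) h3
      · rwa [Function.update_of_ne h4] at h3 ⊢
    · refine ⟨∅, by simp, fun x x' hx => hrl _ _ _ ?_⟩
      intro _
      exact delE_lr h _ ha hb
    · refine ⟨∅, by simp, fun x x' hx => hrl _ _ _ ?_⟩
      intro _
      exact delE_rl h _ ha hb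
    · refine ⟨∅, by simp, fun x x' hx => hrl _ _ _ ?_⟩
      rw [delE_rr h _ ha hb, delE_rr h _ ha hb]
      exact fun h => h

open Classical in
/-- A hard distribution for bipartite perfect matching (in terms of the deleted edges). -/
theorem match_hard (n d c : ℕ) (hd : 1 ≤ d) (hc : 1 ≤ c) :
    ∃ (Λ : Type) (_ : Fintype Λ) (_ : Nonempty Λ) (D : Λ → Fin n × Fin n → Bool),
      ∀ (s : ℕ) (C : Circuit (Fin n × Fin n) s) (out : Wire (Fin n × Fin n) s),
        8 * c * (C.size + C.fanins.sum) ≤ 2 ^ d →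
        c * (C.fanins.map (· + 1)).prod ≤ n / (2 ^ 120 * (c * d) ^ 9) →
        2 * c * (univ.filter (fun l => (out.eval (D l) (C.vals (D l)) = true ↔
          ¬ ∃ σ : Equiv.Perm (Fin n), ∀ i, D l (i, σ i) = false))).card <
          (c + 2) * Fintype.card Λ := by
  have hcd1 : 1 ≤ c * d := Nat.mul_pos hc hd
  obtain ⟨lam, h1, h2⟩ := exists_size (c * d) hcd1
  set m := 2 ^ 120 * (c * d) ^ 9 with hm
  by_cases hM : n / m = 0
  · refine ⟨Unit, inferInstance, inferInstance, fun _ _ => false, fun s C out _ hK => ?_⟩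
    exfalso
    rw [hM] at hK
    have h3 : 0 < (C.fanins.map (· + 1)).prod := by
      apply List.prod_pos
      intro x hx
      obtain ⟨y, -, rfl⟩ := List.mem_map.mp hx
      omega
    have : 0 < c * (C.fanins.map (· + 1)).prod := Nat.mul_pos hc h3
    omega
  have hMm : n / m * m ≤ n := Nat.div_mul_le_self _ _
  set M := n / m with hMdef
  have hbig : 2 ^ 59 * (lam + 1) ^ 8 * d ^ 8 * c ≤ m := by
    refine le_trans ?_ h2
    calc 2 ^ 59 * (lam + 1) ^ 8 * d ^ 8 * c ≤ 2 ^ 59 * (lam + 1) ^ 8 * d ^ 8 * c ^ 8 :=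
          Nat.mul_le_mul_left _ (Nat.le_self_pow (by norm_num) c)
      _ = _ := by ring
  obtain ⟨Pt, i1, i2, W, hW, H⟩ := match_avg_dual (n := m) d lam c hd hc h1 hbig
  obtain ⟨Λ, i3, i4, D, hD⟩ := hard_dist M (Nat.pos_of_ne_zero hM)
    (fun p : Pt => ({e | Sum.inl e.1 ∉ W p ∧ Sum.inr e.2 ∉ W p} : Set (Fin m × Fin m)))
    (fun σ : Equiv.Perm (Fin m) => ({e | σ e.1 ≠ e.2} : Set (Fin m × Fin m)))
    c (2 ^ d / (8 * c)) (delE hMm) (delE_mono hMm) (NoPM m) (fun p => NoPM_cover (W p) (hW p))
    (fun σ h => h ⟨σ, fun i hi => hi rfl⟩) (fun h => h ⟨1, fun i hi => hi⟩)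
    (fun z => ¬ ∃ σ : Equiv.Perm (Fin n), ∀ i, z (i, σ i) = false) (delE_pm hMm)
    (fun z J g hg => by
      have := H (blockBase (delE hMm) z J) (fun b hb => delE_leaf hMm z J b hb) _ g hg
        (Nat.mul_div_le _ _)
      linarith)
  refine ⟨Λ, i3, i4, D, fun s C out h3 h4 => ?_⟩
  have h5 := hD s C out (by
    rw [Nat.le_div_iff_mul_le (by omega)]
    linarith) h4
  convert h5

end Pool.Agent.H560R2
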