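import Pool.Agent.H560R2.Real1

/-! Real circuits: freezing the gates that are not monotone, and counting changes. -/

namespace Pool.Agent.H560R2

open Finset

section prog

variable {X X' : Type*}

lemma RProg.comp {B : Set (X → ℝ)} {B' : Set (X' → ℝ)} (E : X' → X)
    (hE : ∀ b ∈ B, (fun y => b (E y)) ∈ B') {L : List (X → ℝ)} (h : RProg B L) :
    RProg B' (L.map (fun f y => f (E y))) := by
  induction h with
  | nil => exact RProg.nil
  | @gate L w hw φ hφ f hL hf ih =>
    rw [List.map_cons]
    refine RProg.gate w hw φ hφ (fun j y => f j (E y)) ih (fun j => ?_)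
    rcases hf j with h | h
    · exact Or.inl (hE _ h)
    · exact Or.inr (List.mem_map.mpr ⟨f j, h, rfl⟩)

lemma RProg.mono_of [Preorder X] {B : Set (X → ℝ)} (hB : ∀ b ∈ B, Monotone b) {L : List (X → ℝ)}
    (h : RProg B L) : ∀ f, (f ∈ B ∨ f ∈ L) → Monotone f := by
  induction h with
  | nil =>
    intro f hf
    rcases hf with hf | hf
    · exact hB f hf
    · simp at hf
  | @gate L w hw φ hφ f hL hf ih =>
    intro g hg
    rcases hg with hg | hg
    · exact hB g hg
    · rcases List.mem_cons.mp hg with rfl | hg
      · intro x y hxy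
        exact hφ (fun j => ih (f j) (hf j) hxy)
      · exact ih g (Or.inr hg)

end prog

section circ

variable {I : Type} {s : ℕ}

/-- the value of an input bit -/
noncomputable def bit (x : I → Bool) (p : I) : ℝ := if x p = true then 1 else 0

/-- constants and variables -/
def RB (I : Type) : Set ((I → Bool) → ℝ) := {f | (∃ c, f = fun _ => c) ∨ ∃ p, f = fun x => bit x p}

lemma bit_mono {x y : I → Bool} (h : x ≤ y) (p : I) : bit x p ≤ bit y p := by
  unfold bit
  have := h p
  rcases hx : x p with _ | _ <;> rcases hy : y p with _ | _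
  · simp
  · simp
  · rw [hx, hy] at this
    exact absurd this (by simp)
  · simp

lemma RB_mono : ∀ b ∈ RB I, Monotone b := by
  rintro b (⟨c, rfl⟩ | ⟨p, rfl⟩) x y hxy
  · exact le_rfl
  · exact bit_mono hxy p

variable {T : Finset (Fin s)} {w : Fin s → ℕ} {a : ∀ i, Fin (w i) → I ⊕ Fin s}
  {op : ∀ i, (Fin (w i) → ℝ) → ℝ} {θ : ∀ i, Fin (w i) → ℝ} {val : (I → Bool) → Fin s → ℝ}

open Classical in
/-- freezing the gates of `T` -/
theorem frozenR (htop : ∀ i j k, a i j = Sum.inr k → k < i)
    (hmon : ∀ i ∉ T, w i ≤ 2 ∧ Monotone (op i)) (x0 : I → Bool) :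
    ∀ k ≤ s, ∃ (L : List ((I → Bool) → ℝ)) (ρ : Fin s → (I → Bool) → ℝ),
      RProg (RB I) L ∧ L.length ≤ k ∧ (∀ i : Fin s, i.val < k → ρ i ∈ RB I ∨ ρ i ∈ L) ∧
      ∀ i : Fin s, i.val < k → ∀ x, ρ i x = if i ∈ T then val x0 i else
        op i (fun j => Sum.elim (bit x) (fun k => ρ k x) (a i j)) := by
  intro k
  induction k with
  | zero =>
    intro _
    exact ⟨[], fun _ _ => 0, RProg.nil, le_rfl, fun i hi => absurd hi (Nat.not_lt_zero _),
      fun i hi => absurd hi (Nat.not_lt_zero _)⟩
  | succ k ih =>
    intro hk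
    obtain ⟨L, ρ, hL, hlen, hav, heq⟩ := ih (by omega)
    let g : Fin s := ⟨k, hk⟩
    -- changing `ρ` at `g` does not affect earlier equations
    have hkeep : ∀ (u : (I → Bool) → ℝ) (i : Fin s), i.val ≤ k → ∀ x j,
        Sum.elim (bit x) (fun k => Function.update ρ g u k x) (a i j) =
        Sum.elim (bit x) (fun k => ρ k x) (a i j) := by
      intro u i hi x j
      rcases hm : a i j with p | m
      · rfl
      · have h1 := htop i j m hm
        have : m ≠ g := by
          rintro rfl
          have h2 : (g : ℕ) < i := h1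
          have h3 : (g : ℕ) = k := rfl
          omega
        simp only [Sum.elim_inr, Function.update_of_ne this]
    by_cases hgT : g ∈ T
    · refine ⟨L, Function.update ρ g (fun _ => val x0 g), hL, by omega, ?_, ?_⟩
      · intro i hi
        by_cases hig : i = g
        · subst hig
          rw [Function.update_self]
          exact Or.inl (Or.inl ⟨_, rfl⟩)
        · rw [Function.update_of_ne hig]
          apply hav
          have : (i : ℕ) ≠ k := fun h => hig (Fin.ext h)
          omega
      · intro i hi x
        simp only [hkeep _ i (by omega)]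
        by_cases hig : i = g
        · subst hig
          rw [Function.update_self, if_pos hgT]
        · rw [Function.update_of_ne hig]
          apply heq
          have : (i : ℕ) ≠ k := fun h => hig (Fin.ext h)
          omega
    · let f : Fin (w g) → (I → Bool) → ℝ := fun j x => Sum.elim (bit x) (fun k => ρ k x) (a g j)
      have hf : ∀ j, f j ∈ RB I ∨ f j ∈ L := by
        intro j
        rcases hm : a g j with p | m
        · left
          right
          refine ⟨p, ?_⟩
          funext x
          simp only [f, hm, Sum.elim_inl]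
        · have h1 : (m : ℕ) < k := htop g j m hm
          have : f j = ρ m := by
            funext x
            simp only [f, hm, Sum.elim_inr]
          rw [this]
          exact hav m h1
      refine ⟨(fun x => op g (fun j => f j x)) :: L,
        Function.update ρ g (fun x => op g (fun j => f j x)),
        RProg.gate (w g) (hmon g hgT).1 (op g) (hmon g hgT).2 f hL hf, ?_, ?_, ?_⟩
      · rw [List.length_cons]; omega
      · intro i hi
        by_cases hig : i = g
        · subst hig
          rw [Function.update_self]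
          exact Or.inr List.mem_cons_self
        · rw [Function.update_of_ne hig]
          have : (i : ℕ) ≠ k := fun h => hig (Fin.ext h)
          rcases hav i (by omega) with h | h
          · exact Or.inl h
          · exact Or.inr (List.mem_cons_of_mem _ h)
      · intro i hi x
        simp only [hkeep _ i (by omega)]
        by_cases hig : i = g
        · subst hig
          rw [Function.update_self, if_neg hgT]
        · rw [Function.update_of_ne hig]
          apply heq
          have : (i : ℕ) ≠ k := fun h => hig (Fin.ext h)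
          omega

/-- the OR with a finite set of thresholds -/
lemma or_thr {X P : Type*} {B : Set (X → ℝ)} {L : List (X → ℝ)} (hL : RProg B L) (u : X → ℝ)
    (hu : u ∈ B ∨ u ∈ L) (τ : ℝ) (v : P → X → ℝ) (th : P → ℝ) (S : Finset P)
    (hv : ∀ p ∈ S, v p ∈ B ∨ v p ∈ L) :
    ∃ L' G, RProg B L' ∧ L'.length ≤ L.length + S.card ∧ (∀ f ∈ L, f ∈ L') ∧ (G ∈ B ∨ G ∈ L') ∧
      ∀ x, τ ≤ G x ↔ (τ ≤ u x ∨ ∃ p ∈ S, th p ≤ v p x) := by
  classical
  induction S using Finset.induction_on with
  | empty => exact ⟨L, u, hL, by simp, fun f h => h, hu, fun x => by simp⟩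
  | insert p S hp ih =>
    obtain ⟨L', G, h1, h2, h3, h4, h5⟩ := ih (fun q hq => hv q (Finset.mem_insert_of_mem hq))
    let φ : (Fin 2 → ℝ) → ℝ := fun z => if th p ≤ z 1 then max (z 0) τ else z 0
    have hφ : Monotone φ := by
      intro z z' hz
      have e0 := hz 0
      have e1 := hz 1
      simp only [φ]
      by_cases c1 : th p ≤ z 1
      · rw [if_pos c1, if_pos (c1.trans e1)]
        exact max_le_max e0 le_rfl
      · rw [if_neg c1]
        split_ifs
        · exact e0.trans (le_max_left _ _)
        · exact e0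
    let f : Fin 2 → X → ℝ := fun j => if j = 0 then G else v p
    refine ⟨(fun x => φ (fun j => f j x)) :: L', fun x => φ (fun j => f j x),
      RProg.gate 2 le_rfl φ hφ f h1 ?_, ?_, fun g hg => List.mem_cons_of_mem _ (h3 g hg),
      Or.inr List.mem_cons_self, ?_⟩
    · intro j
      by_cases hj : j = 0
      · simp only [f, hj, if_true]
        exact h4
      · simp only [f, hj, if_false]
        rcases hv p (Finset.mem_insert_self _ _) with h | h
        · exact Or.inl h
        · exact Or.inr (h3 _ h)
    · rw [List.length_cons, Finset.card_insert_of_notMem hp]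
      omega
    · intro x
      have e : φ (fun j => f j x) = if th p ≤ v p x then max (G x) τ else G x := by
        simp [φ, f]
      show τ ≤ φ (fun j => f j x) ↔ _
      rw [e]
      by_cases c1 : th p ≤ v p x
      · rw [if_pos c1]
        constructor
        · intro _
          exact Or.inr ⟨p, Finset.mem_insert_self _ _, c1⟩
        · intro _
          exact le_max_right _ _
      · rw [if_neg c1, h5]
        constructor
        · rintro (h | ⟨q, hq, h⟩)
          · exact Or.inl h
          · exact Or.inr ⟨q, Finset.mem_insert_of_mem hq, h⟩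
        · rintro (h | ⟨q, hq, h⟩)
          · exact Or.inl h
          · rcases Finset.mem_insert.mp hq with rfl | hq
            · exact absurd h c1
            · exact Or.inr ⟨q, hq, h⟩

/-- the bits that enter the gates of `T` -/
def prb (a : ∀ i, Fin (w i) → I ⊕ Fin s) (θ : ∀ i, Fin (w i) → ℝ) (val : (I → Bool) → Fin s → ℝ)
    (x : I → Bool) (i : Fin s) (j : Fin (w i)) : Prop :=
  θ i j ≤ Sum.elim (bit x) (val x) (a i j)

/-- the flip lemma -/
theorem flipR (htop : ∀ i j k, a i j = Sum.inr k → k < i)
    (hmon : ∀ i ∉ T, w i ≤ 2 ∧ Monotone (op i))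
    (hT : ∀ i ∈ T, ∀ z z' : Fin (w i) → ℝ, (∀ j, θ i j ≤ z j ↔ θ i j ≤ z' j) → op i z = op i z')
    (hval : ∀ x i, val x i = op i (fun j => Sum.elim (bit x) (val x) (a i j)))
    (o : Fin s) (τ : ℝ) (x0 : I → Bool) :
    ∃ (L : List ((I → Bool) → ℝ)) (G : (I → Bool) → ℝ), RProg (RB I) L ∧
      L.length ≤ s + ∑ i ∈ T, w i ∧ (G ∈ RB I ∨ G ∈ L) ∧
      ∀ x, x0 ≤ x → (τ ≤ G x ↔ ((∃ i ∈ T, ∃ j, ¬ (prb a θ val x i j ↔ prb a θ val x0 i j)) ∨
        τ ≤ val x o)) := by
  classical
  obtain ⟨L, ρ, hL, hlen, hav, heq⟩ := frozenR (val := val) htop hmon x0 s le_rfl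
  -- frozen wires
  let fw : (I → Bool) → ∀ i, Fin (w i) → ℝ := fun x i j => Sum.elim (bit x) (fun k => ρ k x) (a i j)
  have hwav : ∀ i j, (fun x => fw x i j) ∈ RB I ∨ (fun x => fw x i j) ∈ L := by
    intro i j
    rcases hm : a i j with p | m
    · left
      right
      refine ⟨p, ?_⟩
      funext x
      simp only [fw, hm, Sum.elim_inl]
    · have : (fun x => fw x i j) = ρ m := by
        funext x
        simp only [fw, hm, Sum.elim_inr]
      rw [this]
      exact hav m m.isLt
  have hmono : ∀ f, (f ∈ RB I ∨ f ∈ L) → Monotone f := hL.mono_of RB_mono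
  -- equal values imply equal wires
  have hwire : ∀ x (i : Fin s), (∀ k < i, ρ k x = val x k) → ∀ j,
      fw x i j = Sum.elim (bit x) (val x) (a i j) := by
    intro x i h j
    simp only [fw]
    rcases hm : a i j with p | m
    · rfl
    · simp only [Sum.elim_inr]
      exact h m (htop i j m hm)
  have c0 : ∀ i, ρ i x0 = val x0 i := by
    intro i
    induction i using WellFoundedLT.induction with
    | ind i ih =>
      rw [heq i i.isLt x0]
      by_cases hi : i ∈ T
      · rw [if_pos hi]
      · rw [if_neg hi, hval]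
        congr 1
        funext j
        exact hwire x0 i ih j
  have hw0 : ∀ i j, fw x0 i j = Sum.elim (bit x0) (val x0) (a i j) :=
    fun i j => hwire x0 i (fun k _ => c0 k) j
  have c1 : ∀ x, (∀ i ∈ T, ∀ j, (θ i j ≤ fw x i j ↔ θ i j ≤ fw x0 i j)) →
      ∀ i, ρ i x = val x i := by
    intro x hx i
    induction i using WellFoundedLT.induction with
    | ind i ih =>
      rw [heq i i.isLt x]
      by_cases hi : i ∈ T
      · rw [if_pos hi, hval x0, hval x]
        apply hT i hi
        intro j
        rw [← hw0, ← hwire x i ih j]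
        exact (hx i hi j).symm
      · rw [if_neg hi, hval x]
        congr 1
        funext j
        exact hwire x i ih j
  have c2 : ∀ x, (∀ i ∈ T, ∀ j, (prb a θ val x i j ↔ prb a θ val x0 i j)) →
      ∀ i, ρ i x = val x i := by
    intro x hx i
    induction i using WellFoundedLT.induction with
    | ind i ih =>
      rw [heq i i.isLt x]
      by_cases hi : i ∈ T
      · rw [if_pos hi, hval x0, hval x]
        apply hT i hi
        intro j
        exact (hx i hi j).symm
      · rw [if_neg hi, hval x]
        congr 1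
        funext j
        exact hwire x i ih j
  let S : Finset (Σ i : Fin s, Fin (w i)) :=
    (T.sigma (fun _ => univ)).filter (fun p => ¬ θ p.1 p.2 ≤ fw x0 p.1 p.2)
  have hSc : S.card ≤ ∑ i ∈ T, w i := by
    refine (Finset.card_filter_le _ _).trans ?_
    rw [Finset.card_sigma]
    simp
  obtain ⟨L', G, h1, h2, h3, h4, h5⟩ := or_thr hL (ρ o) (hav o o.isLt) τ
    (fun (p : Σ i : Fin s, Fin (w i)) x => fw x p.1 p.2) (fun p => θ p.1 p.2) S
    (fun p _ => hwav p.1 p.2)
  refine ⟨L', G, h1, by omega, h4, ?_⟩
  intro x hx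
  rw [h5]
  by_cases hall : ∀ i ∈ T, ∀ j, (prb a θ val x i j ↔ prb a θ val x0 i j)
  · have hρ := c2 x hall
    have hno : ¬ ∃ i ∈ T, ∃ j, ¬ (prb a θ val x i j ↔ prb a θ val x0 i j) := by
      rintro ⟨i, hi, j, h⟩
      exact h (hall i hi j)
    have hnoS : ¬ ∃ p ∈ S, θ p.1 p.2 ≤ fw x p.1 p.2 := by
      rintro ⟨⟨i, j⟩, hp, h⟩
      rw [Finset.mem_filter, Finset.mem_sigma] at hp
      apply hp.2
      have h6 := hall i hp.1.1 j
      unfold prb at h6
      rw [← hwire x i (fun k _ => hρ k) j, ← hw0] at h6
      exact h6.mp h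
    rw [hρ o]
    constructor
    · rintro (h | h)
      · exact Or.inr h
      · exact absurd h hnoS
    · rintro (h | h)
      · exact absurd h hno
      · exact Or.inl h
  · have hyes : ∃ i ∈ T, ∃ j, ¬ (prb a θ val x i j ↔ prb a θ val x0 i j) := by
      by_contra hcon
      push Not at hcon
      apply hall
      intro i hi j
      have := hcon i hi j
      tauto
    have hfchg : ¬ ∀ i ∈ T, ∀ j, (θ i j ≤ fw x i j ↔ θ i j ≤ fw x0 i j) := by
      intro h
      have hρ := c1 x h
      apply hall
      intro i hi j
      have h6 := h i hi j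
      rw [hwire x i (fun k _ => hρ k) j, hw0] at h6
      exact h6
    have hS : ∃ p ∈ S, θ p.1 p.2 ≤ fw x p.1 p.2 := by
      push Not at hfchg
      obtain ⟨i, hi, j, hj⟩ := hfchg
      have hm : fw x0 i j ≤ fw x i j := hmono _ (hwav i j) hx
      rcases hj with ⟨h6, h7⟩ | ⟨h6, h7⟩
      · refine ⟨⟨i, j⟩, ?_, h6⟩
        rw [Finset.mem_filter, Finset.mem_sigma]
        exact ⟨⟨hi, mem_univ _⟩, not_le.mpr h7⟩
      · exfalso
        linarith
    constructor
    · intro _
      exact Or.inl hyes
    · intro _
      exact Or.inr hS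

end circ

end Pool.Agent.H560R2
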