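import Pool.Agent.H560R2.Real4
import Pool.Agent.H560R2.Half1

/-! Real circuits for the half-clique problem. -/

namespace Pool.Agent.H560R2

open Finset Pool.Agent.H520R2.HC

lemma exists_lam3 (d : ℕ) (hd : 1 ≤ d) : ∃ lam : ℕ, lam ≠ 0 ∧
    2 * d * (d * lam + 1) ≤ 2 ^ lam ∧
    2 ^ lam ≤ 128 * (Nat.log 2 d + 1) * d ^ 2 := by
  set u := Nat.log 2 d + 1 with hu
  have hu1 : 1 ≤ u := by omega
  set M := 64 * u * d ^ 2 with hM
  have hMpos : 1 < M := by
    have : 1 ≤ u * d ^ 2 := Nat.mul_pos hu1 (by positivity)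
    calc 1 < 64 * 1 := by norm_num
      _ ≤ 64 * (u * d ^ 2) := Nat.mul_le_mul_left _ this
      _ = M := by rw [hM]; ring
  refine ⟨Nat.clog 2 M, ?_, ?_, ?_⟩
  · exact (Nat.clog_pos (by norm_num) hMpos).ne'
  · have h1 : M ≤ 2 ^ Nat.clog 2 M := Nat.le_pow_clog (by norm_num) M
    refine le_trans ?_ h1
    have hclog : Nat.clog 2 M ≤ 8 * u := by
      apply Nat.clog_le_of_le_pow
      have hdlt : d < 2 ^ u := Nat.lt_pow_succ_log_self (by norm_num) d
      have hu2 : u ≤ 2 ^ (u - 1) := by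
        have : u - 1 < 2 ^ (u - 1) := Nat.lt_two_pow_self
        omega
      calc M ≤ 2 ^ 6 * 2 ^ (u - 1) * (2 ^ u) ^ 2 := by
            rw [hM]
            exact Nat.mul_le_mul (Nat.mul_le_mul_left _ hu2) (Nat.pow_le_pow_left hdlt.le 2)
        _ = 2 ^ (6 + (u - 1) + u * 2) := by
            rw [← pow_mul, ← pow_add, ← pow_add]
        _ ≤ 2 ^ (8 * u) := Nat.pow_le_pow_right (by norm_num) (by omega)
    have hud : 1 ≤ u * d := Nat.mul_pos hu1 hd
    calc 2 * d * (d * Nat.clog 2 M + 1) ≤ 2 * d * (d * (8 * u) + u * d) := by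
          apply Nat.mul_le_mul_left
          exact Nat.add_le_add (Nat.mul_le_mul_left _ hclog) hud
      _ = 18 * u * d ^ 2 := by ring
      _ ≤ 64 * u * d ^ 2 := by
          apply Nat.mul_le_mul_right
          apply Nat.mul_le_mul_right
          norm_num
      _ = M := by rw [hM]
  · have h2 : 2 ^ (Nat.clog 2 M - 1) < M := Nat.pow_pred_clog_lt_self (by norm_num) hMpos
    have h3 : 0 < Nat.clog 2 M := Nat.clog_pos (by norm_num) hMpos
    obtain ⟨k, hk⟩ : ∃ k, Nat.clog 2 M = k + 1 := ⟨Nat.clog 2 M - 1, by omega⟩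
    rw [hk] at h2 ⊢
    simp only [Nat.add_sub_cancel] at h2
    calc 2 ^ (k + 1) = 2 * 2 ^ k := by rw [pow_succ]; ring
      _ ≤ 2 * M := by omega
      _ = _ := by rw [hM]; ring

section

variable {N s : ℕ} {T : Finset (Fin s)} {w : Fin s → ℕ}
  {a : ∀ i, Fin (w i) → Fin N ⊕ Fin s}
  {op : ∀ i, (Fin (w i) → ℝ) → ℝ} {θ : ∀ i, Fin (w i) → ℝ} {val : (Fin N → Bool) → Fin s → ℝ}

/-- Real circuits for the half-clique problem: many changes of the gates that are not monotone. -/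
theorem half_real (d : ℕ) (hd : 2 ≤ d)
    (hN : 2 ^ 64 * (Nat.log 2 d + 1) ^ 8 * d ^ 16 ≤ N)
    (htop : ∀ i j k, a i j = Sum.inr k → k < i)
    (hmon : ∀ i ∉ T, w i ≤ 2 ∧ Monotone (op i))
    (hT : ∀ i ∈ T, ∀ z z' : Fin (w i) → ℝ, (∀ j, θ i j ≤ z j ↔ θ i j ≤ z' j) → op i z = op i z')
    (hval : ∀ x i, val x i = op i (fun j => Sum.elim (bit x) (val x) (a i j)))
    (o : Fin s) (τ : ℝ) (ho : ∀ x, τ ≤ val x o ↔ List.ofFn x ∈ HalfClique)
    (hsize : s + ∑ i ∈ T, w i < 2 ^ d) :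
    ∃ x : ℕ → Fin N → Bool, (∀ i < N / (2 ^ 23 * (Nat.log 2 d + 1) ^ 2 * d ^ 4), x i ≤ x (i + 1) ∧
      ∃ t ∈ T, ∃ j, ¬ (prb a θ val (x i) t j ↔ prb a θ val (x (i + 1)) t j)) ∧
      ∀ i ≤ N / (2 ^ 23 * (Nat.log 2 d + 1) ^ 2 * d ^ 4), List.ofFn (x i) ∉ HalfClique := by
  classical
  obtain ⟨lam, h0, h1, h2⟩ := exists_lam3 d (by omega)
  obtain ⟨F, _, _, _, hq⟩ := exists_field lam h0
  set q := 2 ^ lam with hqd
  set u := Nat.log 2 d + 1 with hu
  have hdq : d ≤ q := by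
    refine le_trans ?_ h1
    calc d = 1 * d * 1 := by ring
      _ ≤ 2 * d * (d * lam + 1) :=
        Nat.mul_le_mul (Nat.mul_le_mul_right _ (by norm_num)) (Nat.le_add_left 1 _)
  obtain ⟨m, E, hm, hmpos, hmono, hR, hnar⟩ := half_embed (F := F) N d q
    (2 ^ 23 * u ^ 2 * d ^ 4) (by omega) hq hdq (by
      rw [Nat.le_sqrt]
      calc 16 * q ^ 4 * (16 * q ^ 4) ≤ (16 * (128 * u * d ^ 2) ^ 4) *
            (16 * (128 * u * d ^ 2) ^ 4) :=
            Nat.mul_le_mul (Nat.mul_le_mul_left _ (Nat.pow_le_pow_left h2 4))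
              (Nat.mul_le_mul_left _ (Nat.pow_le_pow_left h2 4))
        _ = 2 ^ 64 * u ^ 8 * d ^ 16 := by ring
        _ ≤ N := hN) (by
      calc 512 * q ^ 2 ≤ 512 * (128 * u * d ^ 2) ^ 2 :=
            Nat.mul_le_mul_left _ (Nat.pow_le_pow_left h2 2)
        _ = _ := by ring)
  have hf0 : ¬ fPoly (F := F) d ∅ := by
    rintro ⟨c, hc⟩
    exact hc 0
  obtain ⟨x, hx1, hx2⟩ := chainR (m := m) htop hmon hT hval o τ (fPoly (F := F) d) hf0 E hmono
    (fun y => (ho (E y)).trans (hR y)) (by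
      intro y J L g hL hg hlen hgf
      have := poly_lowerR (F := F) d lam hd (by rw [hq]) (by rw [hq]; exact h1) _ (by
        rintro _ ⟨b, hb, rfl⟩
        rcases hb with ⟨c, rfl⟩ | ⟨p, rfl⟩
        · exact ⟨∅, by simp, fun x x' _ => le_rfl⟩
        · obtain ⟨T', hT1, hT2⟩ := hnar y J p
          refine ⟨T', by omega, fun x x' h => ?_⟩
          show bit (E (Function.update y J x)) p ≤ bit (E (Function.update y J x')) p
          unfold bit
          by_cases hx : E (Function.update y J x) p = true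
          · rw [if_pos hx, if_pos (hT2 x x' h hx)]
          · rw [if_neg hx]
            split_ifs <;> norm_num) hL g hg τ hgf
      omega)
  refine ⟨x, fun i hi => hx1 i (by omega), fun i hi => ?_⟩
  obtain ⟨y, hy1, hy2⟩ := hx2 i (by omega)
  rw [hy1, hR]
  push Not
  exact hy2

end

end Pool.Agent.H560R2
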