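import Pool.Agent.H560R2.Real3

/-! Building real circuits gate by gate. -/

namespace Pool.Agent.H560R2

open Finset

/-- `F` is a set of functions that are computed on the wires of a circuit with `s` gates, `t` of
them NOT gates (applied to a threshold) and the others monotone real gates with two inputs -/
def Bdb (N s t : ℕ) (F : Set ((Fin N → Bool) → ℝ)) : Prop :=
  ∃ (isN : Fin s → Bool) (l r : Fin s → Fin N ⊕ Fin s) (φ : Fin s → ℝ → ℝ → ℝ) (θ : Fin s → ℝ)
    (val : (Fin N → Bool) → Fin s → ℝ),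
    (∑ i, if isN i = true then 1 else 0) = t ∧
    (∀ i u u' v v', u ≤ u' → v ≤ v' → φ i u v ≤ φ i u' v') ∧
    (∀ i k, l i = Sum.inr k ∨ r i = Sum.inr k → k < i) ∧
    (∀ x i, val x i = if isN i = true then
      (if θ i ≤ Sum.elim (bit x) (val x) (l i) then 0 else 1) else
      φ i (Sum.elim (bit x) (val x) (l i)) (Sum.elim (bit x) (val x) (r i))) ∧
    ∀ f ∈ F, ∃ c : Fin N ⊕ Fin s, ∀ x, f x = Sum.elim (bit x) (val x) c

lemma Bdb.zero (N : ℕ) : Bdb N 0 0 {f | ∃ p, f = fun x => bit x p} := by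
  refine ⟨Fin.elim0, Fin.elim0, Fin.elim0, Fin.elim0, Fin.elim0, fun _ => Fin.elim0, by simp,
    fun i => i.elim0, fun i => i.elim0, fun _ i => i.elim0, ?_⟩
  rintro f ⟨p, rfl⟩
  exact ⟨Sum.inl p, fun x => rfl⟩

lemma Bdb.anti {N s t : ℕ} {F F' : Set ((Fin N → Bool) → ℝ)} (h : Bdb N s t F) (hF : F' ⊆ F) :
    Bdb N s t F' := by
  obtain ⟨isN, l, r, φ, θ, val, h1, h2, h3, h4, h5⟩ := h
  exact ⟨isN, l, r, φ, θ, val, h1, h2, h3, h4, fun f hf => h5 f (hF hf)⟩

/-- old wires in the extended circuit -/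
def liftW {N s : ℕ} : Fin N ⊕ Fin s → Fin N ⊕ Fin (s + 1) := Sum.map id Fin.castSucc

lemma liftW_elim {N s : ℕ} (x : Fin N → Bool) (v : Fin s → ℝ) (u : ℝ) (c : Fin N ⊕ Fin s) :
    Sum.elim (bit x) (Fin.snoc (α := fun _ => ℝ) v u) (liftW c) = Sum.elim (bit x) v c := by
  rcases c with p | k
  · rfl
  · simp only [liftW, Sum.map_inr, Sum.elim_inr, Fin.snoc_castSucc]

lemma liftW_lt {N s : ℕ} {c : Fin N ⊕ Fin s} {i : Fin s} {k : Fin (s + 1)}
    (h : ∀ k, c = Sum.inr k → k < i) (hk : liftW c = Sum.inr k) : k < i.castSucc := by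
  rcases c with p | k'
  · simp [liftW] at hk
  · simp only [liftW, Sum.map_inr, Sum.inr.injEq] at hk
    rw [← hk]
    exact Fin.castSucc_lt_castSucc_iff.mpr (h k' rfl)

lemma liftW_last {N s : ℕ} {c : Fin N ⊕ Fin s} {k : Fin (s + 1)}
    (hk : liftW c = Sum.inr k) : k < Fin.last s := by
  rcases c with p | k'
  · simp [liftW] at hk
  · simp only [liftW, Sum.map_inr, Sum.inr.injEq] at hk
    rw [← hk]
    exact Fin.castSucc_lt_last k'

/-- adding a gate -/
lemma Bdb.add {N s t : ℕ} {F : Set ((Fin N → Bool) → ℝ)} (h : Bdb N s t F) (b : Bool)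
    (ψ : ℝ → ℝ → ℝ) (hψ : ∀ u u' v v', u ≤ u' → v ≤ v' → ψ u v ≤ ψ u' v') (τ : ℝ)
    {f g : (Fin N → Bool) → ℝ} (hf : f ∈ F) (hg : g ∈ F) :
    Bdb N (s + 1) (t + if b = true then 1 else 0)
      (insert (fun x => if b = true then (if τ ≤ f x then 0 else 1) else ψ (f x) (g x)) F) := by
  obtain ⟨isN, l, r, φ, θ, val, h1, h2, h3, h4, h5⟩ := h
  obtain ⟨cf, hcf⟩ := h5 f hf
  obtain ⟨cg, hcg⟩ := h5 g hg
  refine ⟨Fin.snoc (α := fun _ => Bool) isN b,
    Fin.snoc (α := fun _ => Fin N ⊕ Fin (s + 1)) (fun i => liftW (l i)) (liftW cf),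
    Fin.snoc (α := fun _ => Fin N ⊕ Fin (s + 1)) (fun i => liftW (r i)) (liftW cg),
    Fin.snoc (α := fun _ => ℝ → ℝ → ℝ) φ ψ, Fin.snoc (α := fun _ => ℝ) θ τ,
    fun x => Fin.snoc (α := fun _ => ℝ) (val x)
      (if b = true then (if τ ≤ f x then 0 else 1) else ψ (f x) (g x)), ?_, ?_, ?_, ?_, ?_⟩
  · rw [Fin.sum_univ_castSucc]
    simp only [Fin.snoc_castSucc, Fin.snoc_last]
    rw [h1]
  · intro i
    refine Fin.lastCases ?_ (fun i => ?_) i
    · simp only [Fin.snoc_last]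
      exact hψ
    · simp only [Fin.snoc_castSucc]
      exact h2 i
  · intro i k hk
    revert hk
    refine Fin.lastCases ?_ (fun i => ?_) i
    · simp only [Fin.snoc_last]
      rintro (hk | hk)
      · exact liftW_last hk
      · exact liftW_last hk
    · simp only [Fin.snoc_castSucc]
      rintro (hk | hk)
      · exact liftW_lt (fun k hk => h3 i k (Or.inl hk)) hk
      · exact liftW_lt (fun k hk => h3 i k (Or.inr hk)) hk
  · intro x i
    refine Fin.lastCases ?_ (fun i => ?_) i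
    · simp only [Fin.snoc_last]
      rw [liftW_elim, liftW_elim, ← hcf, ← hcg]
    · simp only [Fin.snoc_castSucc]
      rw [liftW_elim, liftW_elim, ← h4]
  · intro f' hf'
    rcases Set.mem_insert_iff.mp hf' with rfl | hf'
    · refine ⟨Sum.inr (Fin.last s), fun x => ?_⟩
      simp only [Sum.elim_inr, Fin.snoc_last]
    · obtain ⟨c, hc⟩ := h5 f' hf'
      refine ⟨liftW c, fun x => ?_⟩
      rw [liftW_elim, hc]

lemma Bdb.gate {N s t : ℕ} {F : Set ((Fin N → Bool) → ℝ)} (h : Bdb N s t F)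
    (ψ : ℝ → ℝ → ℝ) (hψ : ∀ u u' v v', u ≤ u' → v ≤ v' → ψ u v ≤ ψ u' v')
    {f g : (Fin N → Bool) → ℝ} (hf : f ∈ F) (hg : g ∈ F) :
    Bdb N (s + 1) t (insert (fun x => ψ (f x) (g x)) F) := by
  have := h.add false ψ hψ 0 hf hg
  simpa using this

lemma Bdb.not {N s t : ℕ} {F : Set ((Fin N → Bool) → ℝ)} (h : Bdb N s t F) (τ : ℝ)
    {f : (Fin N → Bool) → ℝ} (hf : f ∈ F) :
    Bdb N (s + 1) (t + 1) (insert (fun x => if τ ≤ f x then 0 else 1) F) := by
  have := h.add true (fun _ _ => 0) (fun _ _ _ _ _ _ => le_rfl) τ hf hf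
  simpa using this

/-- from the builder to circuits -/
theorem Bdb.circuit {N s t : ℕ} {F : Set ((Fin N → Bool) → ℝ)} (h : Bdb N s t F)
    {f : (Fin N → Bool) → ℝ} (hf : f ∈ F) (hfb : ∀ p, f ≠ fun x => bit x p) :
    ∃ (T : Finset (Fin s)) (w : Fin s → ℕ) (a : (i : Fin s) → Fin (w i) → Fin N ⊕ Fin s)
      (op : (i : Fin s) → (Fin (w i) → ℝ) → ℝ) (θ : (i : Fin s) → Fin (w i) → ℝ)
      (val : (Fin N → Bool) → Fin s → ℝ) (out : Fin s),
      T.card = t ∧ (∀ i ∈ T, w i = 1) ∧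
      (∀ i j k, a i j = Sum.inr k → k < i) ∧
      (∀ i ∉ T, w i ≤ 2 ∧ Monotone (op i)) ∧
      (∀ i ∈ T, ∀ z z' : Fin (w i) → ℝ, (∀ j, θ i j ≤ z j ↔ θ i j ≤ z' j) → op i z = op i z') ∧
      (∀ x i, val x i = op i (fun j => Sum.elim (bit x) (val x) (a i j))) ∧
      ∀ x, val x out = f x := by
  classical
  obtain ⟨isN, l, r, φ, θ, val, h1, h2, h3, h4, h5⟩ := h
  obtain ⟨c, hc⟩ := h5 f hf
  rcases c with p | out
  · exact absurd (funext hc) (hfb p)
  let w : Fin s → ℕ := fun i => if isN i = true then 1 else 2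
  let get : ∀ i, (Fin (w i) → ℝ) → ℕ → ℝ := fun i z k => if h : k < w i then z ⟨k, h⟩ else 0
  have hget : ∀ i z z', (∀ j, z j ≤ z' j) → ∀ k, get i z k ≤ get i z' k := by
    intro i z z' hz k
    simp only [get]
    split_ifs
    · exact hz _
    · exact le_rfl
  refine ⟨univ.filter (fun i => isN i = true), w,
    fun i j => if (j : ℕ) = 0 then l i else r i,
    fun i z => if isN i = true then (if θ i ≤ get i z 0 then 0 else 1) else
      φ i (get i z 0) (get i z 1), fun i _ => θ i, val, out, ?_, ?_, ?_, ?_, ?_, ?_, ?_⟩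
  · rw [Finset.card_filter]
    exact h1
  · intro i hi
    rw [Finset.mem_filter] at hi
    simp only [w, hi.2, if_true]
  · intro i j k hk
    simp only at hk
    by_cases hj : (j : ℕ) = 0
    · rw [if_pos hj] at hk
      exact h3 i k (Or.inl hk)
    · rw [if_neg hj] at hk
      exact h3 i k (Or.inr hk)
  · intro i hi
    rw [Finset.mem_filter] at hi
    have hi' : ¬ isN i = true := fun h => hi ⟨mem_univ _, h⟩
    refine ⟨by simp only [w, if_neg hi']; exact le_rfl, ?_⟩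
    intro z z' hz
    simp only [if_neg hi']
    exact h2 i _ _ _ _ (hget i z z' hz 0) (hget i z z' hz 1)
  · intro i hi z z' hz
    rw [Finset.mem_filter] at hi
    have hw : 0 < w i := by simp only [w, hi.2, if_true]; exact Nat.one_pos
    simp only [hi.2, if_true, get, dif_pos hw]
    have := hz ⟨0, hw⟩
    by_cases h6 : θ i ≤ z ⟨0, hw⟩
    · rw [if_pos h6, if_pos (this.mp h6)]
    · rw [if_neg h6, if_neg (fun h7 => h6 (this.mpr h7))]
  · intro x i
    rw [h4]
    have hw : 0 < w i := by simp only [w]; split_ifs <;> norm_num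
    by_cases hi : isN i = true
    · simp only [hi, if_true, get, dif_pos hw]
    · have hw2 : 1 < w i := by simp only [w, if_neg hi]; norm_num
      simp only [if_neg hi, get, dif_pos hw, dif_pos hw2, if_true, one_ne_zero, if_false]
  · intro x
    rw [hc]
    rfl

end Pool.Agent.H560R2
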