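import Pool.Agent.H560R2.Real6

/-! Every Boolean function has small real circuits with `⌈log (N+1)⌉` NOT gates. -/

namespace Pool.Agent.H560R2

open Finset

/-- weighted sums -/
noncomputable def wsum {N : ℕ} (c : Fin N → ℝ) (k : ℕ) (x : Fin N → Bool) : ℝ :=
  ∑ p ∈ univ.filter (fun p : Fin N => p.val < k), c p * bit x p

lemma wsum_succ {N : ℕ} (c : Fin N → ℝ) (k : ℕ) (hk : k < N) (x : Fin N → Bool) :
    wsum c (k + 1) x = wsum c k x + c ⟨k, hk⟩ * bit x ⟨k, hk⟩ := by
  unfold wsum
  have : (univ.filter (fun p : Fin N => p.val < k + 1)) =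
      insert ⟨k, hk⟩ (univ.filter (fun p : Fin N => p.val < k)) := by
    ext p
    simp only [mem_filter, mem_univ, true_and, mem_insert, Fin.ext_iff]
    omega
  rw [this, Finset.sum_insert (by simp)]
  ring

lemma Bdb.sum {N s t : ℕ} {F : Set ((Fin N → Bool) → ℝ)} (h : Bdb N s t F)
    (hbit : ∀ p, (fun x => bit x p) ∈ F) (h1 : 1 ≤ N) (c : Fin N → ℝ) (hc : ∀ p, 0 ≤ c p) :
    ∀ k ≤ N, Bdb N (s + (k + 1)) t (insert (wsum c k) F) := by
  intro k
  induction k with
  | zero =>
    intro _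
    have h2 := h.gate (fun _ _ => 0) (fun _ _ _ _ _ _ => le_rfl) (hbit ⟨0, h1⟩) (hbit ⟨0, h1⟩)
    have : wsum c 0 = (fun _ => (0 : ℝ)) := by
      funext x
      simp [wsum]
    rw [this]
    exact h2
  | succ k ih =>
    intro hk
    have hk' : k < N := hk
    have h2 := (ih (by omega)).gate (fun u v => u + c ⟨k, hk'⟩ * v)
      (fun u u' v v' hu hv => add_le_add hu (mul_le_mul_of_nonneg_left hv (hc _)))
      (Set.mem_insert _ _) (Set.mem_insert_of_mem _ (hbit ⟨k, hk'⟩))
    have e : (fun x => wsum c k x + c ⟨k, hk'⟩ * bit x ⟨k, hk'⟩) = wsum c (k + 1) := by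
      funext x
      rw [wsum_succ c k hk' x]
    rw [e] at h2
    have h3 := h2.anti (F' := insert (wsum c (k + 1)) F)
      (Set.insert_subset_insert (Set.subset_insert _ _))
    exact h3

/-- number of ones -/
def wt {N : ℕ} (x : Fin N → Bool) : ℕ := (univ.filter (fun p => x p = true)).card

/-- the number coded in binary -/
def vl {N : ℕ} (x : Fin N → Bool) : ℕ := ∑ p ∈ univ.filter (fun p => x p = true), 2 ^ (p : ℕ)

lemma vl_lt {N : ℕ} (x : Fin N → Bool) : vl x < 2 ^ N := by
  have h1 : vl x ≤ ∑ p : Fin N, 2 ^ (p : ℕ) :=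
    Finset.sum_le_sum_of_subset (Finset.filter_subset _ _)
  have h2 : ∑ p : Fin N, 2 ^ (p : ℕ) = 2 ^ N - 1 := by
    rw [Fin.sum_univ_eq_sum_range (fun i => 2 ^ i) N, Nat.geomSum_eq (le_refl 2)]
    simp
  have h3 : 1 ≤ 2 ^ N := Nat.one_le_two_pow
  omega

lemma vl_inj {N : ℕ} {x y : Fin N → Bool} (h : vl x = vl y) : x = y := by
  have key : ∀ z : Fin N → Bool, vl z =
      ∑ i ∈ (univ.filter (fun p => z p = true)).map Fin.valEmbedding, 2 ^ i := by
    intro z
    rw [Finset.sum_map]
    rfl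
  rw [key, key] at h
  have h2 := Finset.geomSum_injective (le_refl 2) h
  funext p
  have h3 := Finset.ext_iff.mp h2 p.val
  simp only [Finset.mem_map, Finset.mem_filter, Finset.mem_univ, true_and,
    Fin.valEmbedding_apply] at h3
  have e : ∀ z : Fin N → Bool, (∃ a, z a = true ∧ (a : ℕ) = p) ↔ z p = true := by
    intro z
    constructor
    · rintro ⟨a, ha, hap⟩
      rw [← Fin.ext hap]
      exact ha
    · intro hz
      exact ⟨p, hz, rfl⟩
  rw [e, e] at h3
  rw [Bool.eq_iff_iff]
  exact h3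

lemma wt_le {N : ℕ} (x : Fin N → Bool) : wt x ≤ N := by
  refine (Finset.card_filter_le _ _).trans ?_
  simp

lemma wsum_top {N : ℕ} (c : Fin N → ℝ) (x : Fin N → Bool) :
    wsum c N x = ∑ p ∈ univ.filter (fun p => x p = true), c p := by
  unfold wsum
  rw [Finset.filter_true_of_mem (fun p _ => p.isLt), Finset.sum_filter]
  apply Finset.sum_congr rfl
  intro p _
  unfold bit
  split_ifs <;> simp

lemma wsum_e {N : ℕ} (x : Fin N → Bool) :
    wsum (fun p => (2 : ℝ) ^ N + 2 ^ (p : ℕ)) N x = 2 ^ N * wt x + vl x := by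
  rw [wsum_top, Finset.sum_add_distrib, Finset.sum_const, nsmul_eq_mul]
  unfold wt vl
  push_cast
  ring

lemma wsum_e' {N : ℕ} (x : Fin N → Bool) :
    wsum (fun p => (2 : ℝ) ^ (N + 1) - 2 ^ (p : ℕ)) N x = 2 ^ (N + 1) * wt x - vl x := by
  rw [wsum_top, Finset.sum_sub_distrib, Finset.sum_const, nsmul_eq_mul]
  unfold wt vl
  push_cast
  ring

/-- Every Boolean function has small real circuits with few NOT gates. -/
theorem all_functions (N : ℕ) (hN : 1 ≤ N) (f : (Fin N → Bool) → Bool) :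
    ∃ g : (Fin N → Bool) → ℝ, Bdb N (2 * N + 3 * Nat.clog 2 (N + 1) + 6) (Nat.clog 2 (N + 1)) {g} ∧
      (∀ p, g ≠ fun x => bit x p) ∧ ∀ x, 3 ≤ g x ↔ f x = true := by
  classical
  obtain ⟨r, hr⟩ : ∃ r, r = Nat.clog 2 (N + 1) := ⟨_, rfl⟩
  rw [← hr]
  have hr2 : N + 1 ≤ 2 ^ r := by rw [hr]; exact Nat.le_pow_clog (by norm_num) _
  have hwt : ∀ x : Fin N → Bool, wt x < 2 ^ r := fun x => by have := wt_le x; omega
  -- the functions
  let e : (Fin N → Bool) → ℝ := fun x => 2 ^ N * wt x + vl x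
  let e' : (Fin N → Bool) → ℝ := fun x => 2 ^ (N + 1) * wt x - vl x
  let z : ℕ → (Fin N → Bool) → ℝ := fun i x => ((wt x % 2 ^ i : ℕ) : ℝ)
  let v : ℕ → (Fin N → Bool) → ℝ := fun i x =>
    ((2 : ℝ) ^ r - 2 ^ i) - ((wt x : ℝ) - ((wt x % 2 ^ i : ℕ) : ℝ))
  let F0 : Set ((Fin N → Bool) → ℝ) := {f | ∃ p, f = fun x => bit x p}
  have hb0 : ∀ p, (fun x : Fin N → Bool => bit x p) ∈ F0 := fun p => ⟨p, rfl⟩
  have s1 : Bdb N (0 + (N + 1)) 0 (insert e F0) := by
    have h := (Bdb.zero N).sum hb0 hN (fun p => (2 : ℝ) ^ N + 2 ^ (p : ℕ)) (fun p => by positivity)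
      N le_rfl
    have : wsum (fun p => (2 : ℝ) ^ N + 2 ^ (p : ℕ)) N = e := by
      funext x
      exact wsum_e x
    rw [this] at h
    exact h
  have s2 : Bdb N (0 + (N + 1) + (N + 1)) 0 (insert e' (insert e F0)) := by
    have h := s1.sum (fun p => Set.mem_insert_of_mem _ (hb0 p)) hN
      (fun p => (2 : ℝ) ^ (N + 1) - 2 ^ (p : ℕ)) (fun p => by
        have : (2 : ℝ) ^ (p : ℕ) ≤ 2 ^ (N + 1) :=
          pow_le_pow_right₀ (by norm_num) (by have := p.isLt; omega)
        linarith) N le_rfl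
    have : wsum (fun p => (2 : ℝ) ^ (N + 1) - 2 ^ (p : ℕ)) N = e' := by
      funext x
      exact wsum_e' x
    rw [this] at h
    exact h
  have s3 : Bdb N (0 + (N + 1) + (N + 1) + 1) 0 (insert (z r) (insert e' (insert e F0))) := by
    have h := s2.gate (fun a _ => ((⌊a / 2 ^ N⌋ : ℤ) : ℝ)) (by
      intro u u' v v' hu _
      have : u / 2 ^ N ≤ u' / 2 ^ N := div_le_div_of_nonneg_right hu (by positivity)
      exact_mod_cast Int.floor_le_floor this)
      (Set.mem_insert_of_mem _ (Set.mem_insert e F0)) (Set.mem_insert_of_mem _ (Set.mem_insert e F0))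
    have : (fun x => ((⌊e x / 2 ^ N⌋ : ℤ) : ℝ)) = z r := by
      funext x
      have h1 : e x / 2 ^ N = (wt x : ℝ) + (vl x : ℝ) / 2 ^ N := by
        simp only [e]
        field_simp
      have h2 : (vl x : ℝ) / 2 ^ N < 1 := by
        rw [div_lt_one (by positivity)]
        exact_mod_cast vl_lt x
      have h3 : (0 : ℝ) ≤ (vl x : ℝ) / 2 ^ N := by positivity
      have h4 : ⌊e x / 2 ^ N⌋ = (wt x : ℤ) := by
        rw [Int.floor_eq_iff, h1]
        constructor
        · push_cast; linarith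
        · push_cast; linarith
      rw [h4]
      simp only [z]
      rw [Nat.mod_eq_of_lt (hwt x)]
      push_cast
      rfl
    rw [this] at h
    exact h
  have s4 : Bdb N (0 + (N + 1) + (N + 1) + 1 + 1) 0
      (insert (v r) (insert (z r) (insert e' (insert e F0)))) := by
    have h := s3.gate (fun _ _ => 0) (fun _ _ _ _ _ _ => le_rfl) (Set.mem_insert _ _)
      (Set.mem_insert _ _)
    have : (fun _ : Fin N → Bool => (0 : ℝ)) = v r := by
      funext x
      simp only [v]
      rw [Nat.mod_eq_of_lt (hwt x)]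
      ring
    rw [this] at h
    exact h
  have s5 : ∀ i ≤ r, Bdb N (0 + (N + 1) + (N + 1) + 1 + 1 + 3 * i) i
      {v (r - i), z (r - i), e', e} := by
    intro i
    induction i with
    | zero =>
      intro _
      refine s4.anti ?_
      intro f hf
      simp only [Set.mem_insert_iff, Set.mem_singleton_iff, Nat.sub_zero] at hf ⊢
      tauto
    | succ i ih =>
      intro hi
      have h0 := ih (by omega)
      obtain ⟨j, hj⟩ : ∃ j, j = r - (i + 1) := ⟨_, rfl⟩
      have hj1 : r - i = j + 1 := by omega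
      rw [hj1] at h0
      rw [← hj]
      -- the next digit
      have h1 := h0.not ((2 : ℝ) ^ j) (f := z (j + 1)) (by simp)
      let nb : (Fin N → Bool) → ℝ := fun x => if (2 : ℝ) ^ j ≤ z (j + 1) x then 0 else 1
      have h2 := h1.gate (fun a b => a + 2 ^ j * b - 2 ^ j) (by
        intro u u' v v' hu hv
        have := mul_le_mul_of_nonneg_left hv (by positivity : (0 : ℝ) ≤ 2 ^ j)
        linarith) (f := z (j + 1)) (g := nb) (Set.mem_insert_of_mem _ (by simp))
        (Set.mem_insert _ _)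
      have h3 := h2.gate (fun a b => a + 2 ^ j * b) (by
        intro u u' v v' hu hv
        have := mul_le_mul_of_nonneg_left hv (by positivity : (0 : ℝ) ≤ 2 ^ j)
        linarith) (f := v (j + 1)) (g := nb)
        (Set.mem_insert_of_mem _ (Set.mem_insert_of_mem _ (by simp)))
        (Set.mem_insert_of_mem _ (Set.mem_insert _ _))
      have hdig : ∀ x : Fin N → Bool, (2 ^ j ≤ wt x % 2 ^ (j + 1) ∧ wt x % 2 ^ (j + 1) = wt x % 2 ^ j + 2 ^ j) ∨
          (¬ 2 ^ j ≤ wt x % 2 ^ (j + 1) ∧ wt x % 2 ^ (j + 1) = wt x % 2 ^ j) := by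
        intro x
        have hm : wt x % 2 ^ (j + 1) % 2 ^ j = wt x % 2 ^ j :=
          Nat.mod_mod_of_dvd _ (pow_dvd_pow 2 (Nat.le_succ j))
        have hlt : wt x % 2 ^ (j + 1) < 2 ^ (j + 1) := Nat.mod_lt _ (by positivity)
        have h2j : 2 ^ (j + 1) = 2 * 2 ^ j := by rw [pow_succ]; ring
        obtain ⟨w, hw⟩ : ∃ w, w = wt x % 2 ^ (j + 1) := ⟨_, rfl⟩
        rw [← hw] at hm hlt ⊢
        by_cases hc : 2 ^ j ≤ w
        · left
          refine ⟨hc, ?_⟩
          have h9 : w % 2 ^ j = w - 2 ^ j := by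
            rw [Nat.mod_eq_sub_mod hc]
            exact Nat.mod_eq_of_lt (by omega)
          omega
        · right
          refine ⟨hc, ?_⟩
          have h9 : w % 2 ^ j = w := Nat.mod_eq_of_lt (by omega)
          omega
      have hnb : ∀ x : Fin N → Bool, nb x = if 2 ^ j ≤ wt x % 2 ^ (j + 1) then 0 else 1 := by
        intro x
        simp only [nb, z]
        have : ((2 : ℝ) ^ j ≤ ((wt x % 2 ^ (j + 1) : ℕ) : ℝ)) ↔ 2 ^ j ≤ wt x % 2 ^ (j + 1) := by
          exact_mod_cast Iff.rfl
        simp only [this]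
      have ez : (fun x => z (j + 1) x + 2 ^ j * nb x - 2 ^ j) = z j := by
        funext x
        rw [hnb]
        rcases hdig x with ⟨h6, h7⟩ | ⟨h6, h7⟩
        · rw [if_pos h6]
          simp only [z]
          rw [h7]
          push_cast
          ring
        · rw [if_neg h6]
          simp only [z]
          rw [h7]
          ring
      have ev : (fun x => v (j + 1) x + 2 ^ j * nb x) = v j := by
        funext x
        rw [hnb]
        rcases hdig x with ⟨h6, h7⟩ | ⟨h6, h7⟩
        · rw [if_pos h6]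
          simp only [v]
          rw [h7]
          push_cast
          ring
        · rw [if_neg h6]
          simp only [v]
          rw [h7]
          ring
      rw [ez, ev] at h3
      refine (h3.anti ?_)
      intro f hf
      simp only [Set.mem_insert_iff, Set.mem_singleton_iff] at hf ⊢
      tauto
  have s6 := s5 r le_rfl
  rw [Nat.sub_self] at s6
  -- the decreasing code
  let K : ℝ := 3 * 2 ^ N * (2 ^ r - 1)
  have s7 := s6.gate (fun a b => 3 * 2 ^ N * a + b) (by
    intro u u' v v' hu hv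
    have := mul_le_mul_of_nonneg_left hu (by positivity : (0 : ℝ) ≤ 3 * 2 ^ N)
    linarith) (f := v 0) (g := e') (by simp) (by simp)
  have eB : (fun x => 3 * 2 ^ N * v 0 x + e' x) = fun x => K - e x := by
    funext x
    simp only [v, e', e, K, pow_zero, Nat.mod_one]
    push_cast
    ring
  rw [eB] at s7
  let G : ℝ → ℝ → ℝ := fun a b => if ∃ x, f x = true ∧ e x ≤ a ∧ K - e x ≤ b then 3 else 2
  have s8 := s7.gate G (by
    intro u u' v v' hu hv
    simp only [G]
    by_cases h1 : ∃ x, f x = true ∧ e x ≤ u ∧ K - e x ≤ v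
    · obtain ⟨x, h2, h3, h4⟩ := h1
      rw [if_pos ⟨x, h2, h3, h4⟩, if_pos ⟨x, h2, h3.trans hu, h4.trans hv⟩]
    · rw [if_neg h1]
      split_ifs <;> norm_num) (f := e) (g := fun x => K - e x)
    (Set.mem_insert_of_mem _ (by simp)) (Set.mem_insert _ _)
  refine ⟨fun x => G (e x) (K - e x), ?_, ?_, ?_⟩
  · have : 0 + (N + 1) + (N + 1) + 1 + 1 + 3 * r + 1 + 1 = 2 * N + 3 * r + 6 := by ring
    rw [this] at s8
    exact s8.anti (by
      intro f hf
      rw [Set.mem_singleton_iff] at hf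
      rw [hf]
      exact Set.mem_insert _ _)
  · intro p hp
    have h1 := congrFun hp (fun _ => false)
    simp only [G, bit] at h1
    split_ifs at h1 <;> norm_num at h1
  · intro x
    have heinj : ∀ y, e y = e x → y = x := by
      intro y hy
      simp only [e] at hy
      have h1 : 2 ^ N * wt y + vl y = 2 ^ N * wt x + vl x := by exact_mod_cast hy
      apply vl_inj
      have h2 := congrArg (· % 2 ^ N) h1
      simp only [Nat.mul_add_mod] at h2
      rw [Nat.mod_eq_of_lt (vl_lt y), Nat.mod_eq_of_lt (vl_lt x)] at h2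
      exact h2
    simp only [G]
    constructor
    · intro h
      by_cases h1 : ∃ y, f y = true ∧ e y ≤ e x ∧ K - e y ≤ K - e x
      · obtain ⟨y, h2, h3, h4⟩ := h1
        rw [← heinj y (by linarith)]
        exact h2
      · rw [if_neg h1] at h
        norm_num at h
    · intro h
      rw [if_pos ⟨x, h, le_rfl, le_rfl⟩]

end Pool.Agent.H560R2
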