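import Pool.Agent.H560R2.Cmp1

/-! The rank of a matrix with transitive symmetries is robust under the deletion of rows and
columns. -/

set_option linter.unusedSectionVars false
set_option linter.unusedVariables false

namespace Pool.Agent.H560R2

open Finset

section

variable {K : Type} [Field K] {X Y : Type} [Fintype X] [Fintype Y] [DecidableEq X] [DecidableEq Y]

/-- deletion of rows -/
lemma rk_rows (A : Matrix X Y K) {Γ : Type} [Fintype Γ] (gx : Γ → X → X) (gy : Γ → Y → Y)
    (hA : ∀ g x y, A (gx g x) (gy g y) = A x y)
    (hg : ∀ x, Function.Bijective (fun g => gx g x)) (U : X → Bool) :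
    (univ.filter (fun x => U x = true)).card * A.rank ≤
      Fintype.card X * (msk A U (fun _ => true)).rank := by
  classical
  obtain ⟨κ, a, ha, hspan, hli⟩ := exists_linearIndependent' K A.row
  have : Finite κ := Finite.of_injective a ha
  have : Fintype κ := Fintype.ofFinite κ
  have hD : Fintype.card κ = A.rank := by
    rw [Matrix.rank_eq_finrank_span_row, ← hspan, finrank_span_eq_card hli]
  -- for each group element
  have h1 : ∀ g : Γ, (univ.filter (fun b : κ => U (gx g (a b)) = true)).card ≤
      (msk A U (fun _ => true)).rank := by
    intro g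
    let L : (Y → K) →ₗ[K] (Y → K) := LinearMap.funLeft K K (gy g)
    have hL : ∀ x, L (A.row (gx g x)) = A.row x := by
      intro x
      funext y
      exact hA g x y
    have hli2 : LinearIndependent K (fun b : κ => A.row (gx g (a b))) := by
      apply LinearIndependent.of_comp L
      have : (L ∘ fun b : κ => A.row (gx g (a b))) = A.row ∘ a := by
        funext b
        exact hL (a b)
      rw [this]
      exact hli
    let S := {b : κ // U (gx g (a b)) = true}
    have hli3 : LinearIndependent K (fun b : S => A.row (gx g (a b.1))) :=
      hli2.comp (fun b : S => b.1) Subtype.val_injective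
    have hcard : Fintype.card S = (univ.filter (fun b : κ => U (gx g (a b)) = true)).card :=
      Fintype.card_subtype _
    rw [← hcard, ← finrank_span_eq_card hli3, Matrix.rank_eq_finrank_span_row]
    apply Submodule.finrank_mono
    rw [Submodule.span_le]
    rintro _ ⟨b, rfl⟩
    apply Submodule.subset_span
    refine ⟨gx g (a b.1), ?_⟩
    funext y
    simp only [Matrix.row, msk, Matrix.of_apply, b.2, true_and, if_true]
  -- sum over the group
  have h2 : ∑ g : Γ, (univ.filter (fun b : κ => U (gx g (a b)) = true)).card =
      Fintype.card κ * (univ.filter (fun x => U x = true)).card := by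
    simp only [Finset.card_filter]
    rw [Finset.sum_comm, ← smul_eq_mul, ← Finset.card_univ, ← Finset.sum_const]
    apply Finset.sum_congr rfl
    intro b _
    exact Function.Bijective.sum_comp (hg (a b)) (fun x => if U x = true then 1 else 0)
  have h3 : ∑ g : Γ, (univ.filter (fun b : κ => U (gx g (a b)) = true)).card ≤
      Fintype.card Γ * (msk A U (fun _ => true)).rank := by
    refine (Finset.sum_le_card_nsmul _ _ _ (fun g _ => h1 g)).trans ?_
    rw [Finset.card_univ, smul_eq_mul]
  rw [h2, hD] at h3
  rcases isEmpty_or_nonempty X with hX | ⟨⟨x⟩⟩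
  · have : (univ.filter (fun x => U x = true)).card = 0 := by
      rw [Finset.card_eq_zero, Finset.univ_eq_empty, Finset.filter_empty]
    rw [this, zero_mul]
    exact Nat.zero_le _
  · have hc : Fintype.card Γ = Fintype.card X := Fintype.card_of_bijective (hg x)
    rw [hc] at h3
    rw [mul_comm]
    exact h3

/-- deletion of columns -/
lemma rk_cols (A : Matrix X Y K) {Γ : Type} [Fintype Γ] (gx : Γ → X → X) (gy : Γ → Y → Y)
    (hA : ∀ g x y, A (gx g x) (gy g y) = A x y)
    (hg : ∀ y, Function.Bijective (fun g => gy g y)) (V : Y → Bool) :
    (univ.filter (fun y => V y = true)).card * A.rank ≤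
      Fintype.card Y * (msk A (fun _ => true) V).rank := by
  have h := rk_rows A.transpose gy gx (fun g y x => hA g x y) hg V
  have e : msk A.transpose V (fun _ => true) = (msk A (fun _ => true) V).transpose := by
    ext y x
    simp [msk]
  rw [e, Matrix.rank_transpose, Matrix.rank_transpose] at h
  exact h

/-- deletion of rows and columns -/
theorem rk_robust (A : Matrix X Y K) {Γ Δ : Type} [Fintype Γ] [Fintype Δ]
    (gx : Γ → X → X) (gy : Γ → Y → Y) (hA : ∀ g x y, A (gx g x) (gy g y) = A x y)
    (hg : ∀ x, Function.Bijective (fun g => gx g x))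
    (dx : Δ → X → X) (dy : Δ → Y → Y) (hA' : ∀ g x y, A (dx g x) (dy g y) = A x y)
    (hd : ∀ y, Function.Bijective (fun g => dy g y)) (U : X → Bool) (V : Y → Bool) :
    ((univ.filter (fun x => U x = true)).card * Fintype.card Y +
      (univ.filter (fun y => V y = true)).card * Fintype.card X) * A.rank ≤
      Fintype.card X * Fintype.card Y * (A.rank + (msk A U V).rank) := by
  have h1 := rk_rows A gx gy hA hg U
  have h2 := rk_cols A dx dy hA' hd V
  have h3 := rank_bisub A U (fun _ => true) V (fun _ => true)
  simp only [Bool.and_true, Bool.or_true] at h3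
  rw [msk_true] at h3
  set a := (univ.filter (fun x => U x = true)).card
  set b := (univ.filter (fun y => V y = true)).card
  set D := A.rank
  set u := (msk A U (fun _ => true)).rank
  set v := (msk A (fun _ => true) V).rank
  set w := (msk A U V).rank
  calc (a * Fintype.card Y + b * Fintype.card X) * D =
        Fintype.card Y * (a * D) + Fintype.card X * (b * D) := by ring
    _ ≤ Fintype.card Y * (Fintype.card X * u) + Fintype.card X * (Fintype.card Y * v) :=
        Nat.add_le_add (Nat.mul_le_mul_left _ h1) (Nat.mul_le_mul_left _ h2)
    _ = Fintype.card X * Fintype.card Y * (u + v) := by ring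
    _ ≤ Fintype.card X * Fintype.card Y * (D + w) := Nat.mul_le_mul_left _ (by omega)

end

end Pool.Agent.H560R2
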