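import Pool.Agent.H560R2.Rob9

/-! Hard distributions of sparse 3-CNFs with blocks of growing sizes: the gap relative to the number
of selected clauses. -/

set_option linter.unusedSectionVars false
set_option linter.unusedVariables false

namespace Pool.Agent.H560R2

open Finset

/-- every assignment falsifies a fraction `1 / e` of the selected clauses -/
def FarR {N m : ℕ} (G : Fin m → Fin 3 → Fin N × Bool) (e : ℕ) (x : Fin m → Bool) : Prop :=
  (∃ i, x i = true) ∧ ∀ a : Fin N → Bool, (univ.filter (fun i => x i = true)).card ≤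
    e * (univ.filter (fun i => x i = true ∧ ∀ l, a (G i l).1 ≠ (G i l).2)).card

lemma geo_sum (h : ℕ) (hh : 0 < h) (n : ℕ) :
    ∑ j ∈ range n, 2 ^ (j / h) + h = 2 ^ (n / h) * (h + n % h) := by
  induction n with
  | zero => simp
  | succ n ih =>
    rw [Finset.sum_range_succ]
    by_cases hr : n % h + 1 = h
    · have h1 : (n + 1) % h = 0 := by
        rw [Nat.add_mod]
        rcases Nat.lt_or_ge 1 h with h2 | h2
        · rw [Nat.mod_eq_of_lt h2, hr, Nat.mod_self]
        · have : h = 1 := by omega
          subst this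
          simp [Nat.mod_one]
      have h2 : (n + 1) / h = n / h + 1 := by
        have e1 := Nat.div_add_mod n h
        have e2 := Nat.div_add_mod (n + 1) h
        rw [h1] at e2
        have e3 : h * ((n + 1) / h) = h * (n / h + 1) := by
          rw [Nat.mul_add, Nat.mul_one]
          omega
        exact Nat.eq_of_mul_eq_mul_left hh e3
      rw [h1, h2, pow_succ]
      have : h + n % h + 1 = h + h := by omega
      calc ∑ j ∈ range n, 2 ^ (j / h) + 2 ^ (n / h) + h =
            (∑ j ∈ range n, 2 ^ (j / h) + h) + 2 ^ (n / h) := by ring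
        _ = 2 ^ (n / h) * (h + n % h + 1) := by rw [ih]; ring
        _ = _ := by rw [this]; ring
    · have hlt := Nat.mod_lt n hh
      have h1 : (n + 1) % h = n % h + 1 := by
        rw [Nat.add_mod]
        rcases Nat.lt_or_ge 1 h with h2 | h2
        · rw [Nat.mod_eq_of_lt h2, Nat.mod_eq_of_lt (by omega)]
        · omega
      have h2 : (n + 1) / h = n / h := by
        have e1 := Nat.div_add_mod n h
        have e2 := Nat.div_add_mod (n + 1) h
        rw [h1] at e2
        have e3 : h * ((n + 1) / h) = h * (n / h) := by omega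
        exact Nat.eq_of_mul_eq_mul_left hh e3
      rw [h1, h2]
      calc ∑ j ∈ range n, 2 ^ (j / h) + 2 ^ (n / h) + h =
            (∑ j ∈ range n, 2 ^ (j / h) + h) + 2 ^ (n / h) := by ring
        _ = 2 ^ (n / h) * (h + n % h + 1) := by rw [ih]; ring
        _ = _ := by ring

lemma geo_sum_le (h : ℕ) (hh : 0 < h) (n : ℕ) :
    ∑ j ∈ range n, 2 ^ (j / h) ≤ 2 * h * 2 ^ (n / h) := by
  have h1 := geo_sum h hh n
  have h2 := Nat.mod_lt n hh
  have h3 : 2 ^ (n / h) * (h + n % h) ≤ 2 ^ (n / h) * (2 * h) := Nat.mul_le_mul_left _ (by omega)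
  have h4 : 2 * h * 2 ^ (n / h) = 2 ^ (n / h) * (2 * h) := Nat.mul_comm _ _
  omega

lemma geo_sum_le' (h : ℕ) (hh : 0 < h) (i : ℕ) :
    ∑ j ∈ range (i + 1), 2 ^ (j / h) ≤ 2 * h * 2 ^ (i / h) := by
  have h1 := geo_sum h hh i
  have h2 := Nat.mod_lt i hh
  rw [Finset.sum_range_succ]
  have h3 : 2 ^ (i / h) * (h + i % h) + 2 ^ (i / h) ≤ 2 ^ (i / h) * (2 * h) := by
    calc 2 ^ (i / h) * (h + i % h) + 2 ^ (i / h) = 2 ^ (i / h) * (h + i % h + 1) := by ring
      _ ≤ _ := Nat.mul_le_mul_left _ (by omega)
  have h4 : 2 * h * 2 ^ (i / h) = 2 ^ (i / h) * (2 * h) := Nat.mul_comm _ _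
  omega

/-- The hard distributions of 3-CNFs, with blocks of growing sizes. -/
theorem gap_dist : ∃ c : ℕ, 0 < c ∧ ∀ N M h : ℕ, 0 < M → 0 < h →
    c * (∑ j ∈ range M, 2 ^ (j / h)) ≤ N →
    ∃ (m s : ℕ) (G : Fin m → Fin 3 → Fin N × Bool) (Ω P Ng : Fin M → Type)
      (_ : ∀ j, Fintype (P j)) (_ : ∀ j, Nonempty (P j)) (_ : ∀ j, Fintype (Ng j))
      (_ : ∀ j, Nonempty (Ng j)) (α : ∀ j, P j → Ω j → Bool) (β : ∀ j, Ng j → Ω j → Bool)
      (loc : Fin m → Option (Σ j, Ω j)), m ≤ 2 * N ∧
      N ≤ c * (∑ j ∈ range M, 2 ^ (j / h)) * (s + 1) ∧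
      Function.Injective G ∧
      (∀ y i, ∃ a : Fin N → Bool, ∀ l, filH loc (stH β y i) l = true →
          ∃ k, a (G l k).1 = (G l k).2) ∧
      (∀ (i : Fin M) (y : ∀ j, Ng j) (p : P i),
        FarR G (c * h) (filH loc (Function.update (stH β y i) i (α i p)))) ∧
      ∀ (K : Type) [Field K], (2 : K) ≠ 0 → ∀ j, AHard K s (α j) (β j) := by
  classical
  obtain ⟨u, hu⟩ : ∃ u, u = 1025 := ⟨_, rfl⟩
  obtain ⟨q, hq⟩ : ∃ q, q = 2 ^ u := ⟨_, rfl⟩
  have hq0 : 0 < q := by rw [hq]; positivity
  obtain ⟨D, hD⟩ : ∃ D, D = q ^ 8 * 2 ^ 8 := ⟨_, rfl⟩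
  have hD0 : 0 < D := by rw [hD]; positivity
  let c : ℕ := 1024 * q + 2048 * D * 20
  have hc0 : 0 < c := by positivity
  refine ⟨c, hc0, fun N M h hM hh hN => ?_⟩
  set B := ∑ j ∈ range M, 2 ^ (j / h) with hB
  have hB0 : 0 < B := by
    rw [hB]
    exact Finset.sum_pos (fun j _ => by positivity) ⟨0, Finset.mem_range.mpr hM⟩
  set s := N / (c * B) with hs
  have hcB : 0 < c * B := Nat.mul_pos hc0 hB0
  have hs1 : 0 < s := by rw [hs]; exact Nat.div_pos hN hcB
  let sz : Fin M → ℕ := fun j => s * 2 ^ (j.val / h)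
  have hsz : ∀ j, 0 < sz j := fun j => by positivity
  have hsB : ∑ j, sz j = s * B := by
    rw [hB, Finset.mul_sum, Finset.sum_range]
  have hsBN : c * (s * B) ≤ N := by
    calc c * (s * B) = s * (c * B) := by ring
      _ ≤ N := Nat.div_mul_le_self N (c * B)
  choose ν b hfar hhard using fun j => ahard u q (sz j) hu hq (hsz j)
  -- counting
  have hcW : ∀ j, Fintype.card (Wv (2048 * sz j) (1024 * sz j) q) =
      1024 * sz j * q + 2048 * sz j * D * 9 := by
    intro j
    rw [Fintype.card_sum, Fintype.card_prod, Fintype.card_prod, card_Om, Fintype.card_fin,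
      Fintype.card_fin, Fintype.card_fin, hD]
  have hcMW : Fintype.card (Σ j : Fin M, Wv (2048 * sz j) (1024 * sz j) q) ≤ N := by
    rw [Fintype.card_sigma]
    calc ∑ j, Fintype.card (Wv (2048 * sz j) (1024 * sz j) q) ≤ ∑ j, c * sz j := by
          apply Finset.sum_le_sum
          intro j _
          rw [hcW j]
          simp only [c]
          nlinarith [Nat.zero_le (2048 * sz j * D * 11)]
      _ = c * (s * B) := by rw [← Finset.mul_sum, hsB]
      _ ≤ N := hsBN
  have hcMW' : Fintype.card (Σ j : Fin M, Wv (2048 * sz j) (1024 * sz j) q) ≤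
      Fintype.card (Fin N) := by rw [Fintype.card_fin]; exact hcMW
  obtain ⟨emb⟩ := Function.Embedding.nonempty_of_card_le hcMW'
  let C := Σ j : Fin M, (Om (2048 * sz j) q × (Fin 8 ⊕ Bool))
  have hcC : ∀ j : Fin M, Fintype.card (Om (2048 * sz j) q × (Fin 8 ⊕ Bool)) =
      2048 * sz j * D * 10 := by
    intro j
    rw [Fintype.card_prod, card_Om, Fintype.card_sum, Fintype.card_fin, Fintype.card_bool, hD]
  let eq := Fintype.equivFin C
  let G0 : C → Fin 3 → Fin N × Bool := fun p l => (emb ⟨p.1, (cl (ν p.1) p.2 l).1⟩,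
    (cl (ν p.1) p.2 l).2)
  have hG0 : Function.Injective G0 := by
    rintro ⟨j, p⟩ ⟨j', p'⟩ hpp
    have h1 : ∀ l, (⟨j, (cl (ν j) p l).1⟩ : Σ j : Fin M, Wv (2048 * sz j) (1024 * sz j) q) =
        ⟨j', (cl (ν j') p' l).1⟩ ∧ (cl (ν j) p l).2 = (cl (ν j') p' l).2 := by
      intro l
      have := congrFun hpp l
      simp only [G0, Prod.mk.injEq] at this
      exact ⟨emb.injective this.1, this.2⟩
    have hj : j = j' := congrArg Sigma.fst (h1 0).1
    subst hj
    congr 1
    refine cl_inj (ν j) (funext fun l => ?_)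
    have h2 := (h1 l).1
    rw [Sigma.mk.injEq] at h2
    exact Prod.ext (eq_of_heq h2.2) (h1 l).2
  have hPne : ∀ j, Nonempty ((Fin (1024 * sz j) → Fin q) × (Fin (1024 * sz j) → Bool)) :=
    fun j => ⟨(fun _ => ⟨0, hq0⟩, fun _ => false)⟩
  refine ⟨Fintype.card C, s, fun i => G0 (eq.symm i), fun j => Om (2048 * sz j) q,
    fun j => (Fin (1024 * sz j) → Fin q) × (Fin (1024 * sz j) → Bool),
    fun j => Fin (1024 * sz j) → Fin q → Bool,
    fun j => inferInstance, hPne, fun j => inferInstance, fun j => inferInstance,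
    fun j => apos q (ν j) (b j), fun j => bneg q (ν j),
    fun i => some ⟨(eq.symm i).1, (eq.symm i).2.1⟩, ?_, ?_, hG0.comp eq.symm.injective, ?_, ?_,
    ?_⟩
  · -- number of clauses
    rw [Fintype.card_sigma]
    calc ∑ j : Fin M, Fintype.card (Om (2048 * sz j) q × (Fin 8 ⊕ Bool)) ≤
          ∑ j : Fin M, 2 * Fintype.card (Wv (2048 * sz j) (1024 * sz j) q) := by
          apply Finset.sum_le_sum
          intro j _
          rw [hcC, hcW]
          nlinarith [Nat.zero_le (1024 * sz j * q), Nat.zero_le (2048 * sz j * D)]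
      _ = 2 * Fintype.card (Σ j : Fin M, Wv (2048 * sz j) (1024 * sz j) q) := by
          rw [← Finset.mul_sum, Fintype.card_sigma]
      _ ≤ 2 * N := Nat.mul_le_mul_left _ hcMW
  · have := Nat.lt_div_mul_add hcB (a := N)
    calc N ≤ N / (c * B) * (c * B) + c * B := this.le
      _ = c * B * (s + 1) := by rw [← hs]; ring
  · -- satisfiable
    intro y i
    have hY : ∀ J, ¬ fcnf q (ν J) (stH (fun j => bneg q (ν j)) y i J) := by
      intro J
      simp only [stH]
      split_ifs
      · exact bneg_sat (ν J) (y J)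
      · intro h
        obtain ⟨ω, hω, -⟩ := h (fun _ _ => false)
        exact absurd hω (by simp)
    choose a ha using fun J => cl_ext (ν J) _ (hY J)
    refine ⟨fun v => if hv : ∃ p, emb p = v then a hv.choose.1 hv.choose.2 else false, ?_⟩
    intro l hl
    obtain ⟨k, hk⟩ := ha (eq.symm l).1 (eq.symm l).2.1 (eq.symm l).2.2 hl
    refine ⟨k, ?_⟩
    have hex : ∃ p, emb p = (G0 (eq.symm l) k).1 := ⟨_, rfl⟩
    beta_reduce
    rw [dif_pos hex]
    have hch : hex.choose = ⟨(eq.symm l).1, (cl (ν (eq.symm l).1) (eq.symm l).2 k).1⟩ :=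
      emb.injective hex.choose_spec
    rw [hch]
    exact hk
  · -- far from satisfiable
    intro J y p
    set x := filH (fun i => some (⟨(eq.symm i).1, (eq.symm i).2.1⟩ :
      Σ j : Fin M, Om (2048 * sz j) q)) (Function.update (stH (fun j => bneg q (ν j)) y J) J
        (apos q (ν J) (b J) p)) with hx
    have hfal : ∀ a : Fin N → Bool, sz J ≤ (univ.filter (fun i => x i = true ∧
        ∀ l, a (G0 (eq.symm i) l).1 ≠ (G0 (eq.symm i) l).2)).card := by
      intro a
      have h1 := hfar J p (fun v c => a (emb ⟨J, Sum.inl (v, c)⟩))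
      refine le_trans (by omega) h1 |>.trans ?_
      have h2 : ∀ ω : Om (2048 * sz J) q,
          (∀ j, a (emb ⟨J, Sum.inl (ν J ω.1 j, ω.2.1 j)⟩) = ω.2.2 j) →
          ∃ c, ∀ l, a (emb ⟨J, (cl (ν J) (ω, c) l).1⟩) ≠ (cl (ν J) (ω, c) l).2 := by
        intro ω hω
        by_contra hcon
        push Not at hcon
        exact cl_aux (ν J) (fun w => a (emb ⟨J, w⟩)) ω hcon hω
      choose! cc hcc using h2
      refine Finset.card_le_card_of_injOn (fun ω => eq ⟨J, (ω, cc ω)⟩) ?_ ?_
      · intro ω hω
        simp only [Finset.coe_filter, Finset.mem_univ, true_and, Set.mem_ofPred_eq] at hω ⊢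
        constructor
        · have key : ∀ z : C, z = ⟨J, (ω, cc ω)⟩ →
              (Function.update (stH (fun j => bneg q (ν j)) y J) J
                (apos q (ν J) (b J) p)) z.1 z.2.1 = true := by
            rintro z rfl
            simp only [Function.update_self]
            exact hω.1
          exact key _ (eq.symm_apply_apply _)
        · intro l
          have key : ∀ z : C, z = ⟨J, (ω, cc ω)⟩ → a (G0 z l).1 ≠ (G0 z l).2 := by
            rintro z rfl
            exact hcc ω hω.2 l
          exact key _ (eq.symm_apply_apply _)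
      · intro ω _ ω' _ h
        have h3 := eq.injective h
        rw [Sigma.mk.injEq] at h3
        exact (Prod.mk.inj (eq_of_heq h3.2)).1
    refine ⟨?_, fun a => ?_⟩
    · have h1 := hfal (fun _ => false)
      have h2 : (univ.filter (fun i => x i = true ∧
        ∀ l, (fun _ => false : Fin N → Bool) (G0 (eq.symm i) l).1 ≠
          (G0 (eq.symm i) l).2)).Nonempty := by
        rw [← Finset.card_pos]
        exact lt_of_lt_of_le (hsz J) h1
      obtain ⟨i, hi⟩ := h2
      exact ⟨i, (Finset.mem_filter.mp hi).2.1⟩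
    · have hsel : (univ.filter (fun i => x i = true)).card ≤ 2048 * D * 10 * (2 * h * sz J) := by
        have h1 : (univ.filter (fun i => x i = true)).card ≤
            ((univ.filter (fun j : Fin M => j.val < J.val + 1)).sigma
              (fun j => (univ : Finset (Om (2048 * sz j) q × (Fin 8 ⊕ Bool))))).card := by
          refine Finset.card_le_card_of_injOn (fun i => eq.symm i) ?_ ?_
          · intro i hi
            simp only [Finset.coe_filter, Finset.mem_univ, true_and, Set.mem_ofPred_eq] at hi
            rw [Finset.mem_coe, Finset.mem_sigma]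
            refine ⟨?_, Finset.mem_univ _⟩
            rw [Finset.mem_filter]
            refine ⟨Finset.mem_univ _, ?_⟩
            by_contra hcon
            have hne : (eq.symm i).1 ≠ J := by
              intro h
              rw [h] at hcon
              omega
            have hcon' : ¬ (eq.symm i).1.val < J.val := by
              intro h
              exact hcon (Nat.lt_succ_of_lt h)
            rw [hx] at hi
            unfold filH at hi
            simp only [Function.update_of_ne hne, stH] at hi
            rw [if_neg hcon'] at hi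
            exact absurd hi (by simp)
          · intro i _ i' _ h
            exact eq.symm.injective h
        refine h1.trans ?_
        rw [Finset.card_sigma]
        calc ∑ j ∈ univ.filter (fun j : Fin M => j.val < J.val + 1),
              (univ : Finset (Om (2048 * sz j) q × (Fin 8 ⊕ Bool))).card
            = ∑ j ∈ univ.filter (fun j : Fin M => j.val < J.val + 1),
              2048 * D * 10 * s * 2 ^ (j.val / h) := by
              apply Finset.sum_congr rfl
              intro j _
              rw [Finset.card_univ, hcC j]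
              simp only [sz]
              ring
          _ = 2048 * D * 10 * s * ∑ j ∈ univ.filter (fun j : Fin M => j.val < J.val + 1),
              2 ^ (j.val / h) := by rw [Finset.mul_sum]
          _ ≤ 2048 * D * 10 * s * ∑ j ∈ range (J.val + 1), 2 ^ (j / h) := by
              apply Nat.mul_le_mul_left
              rw [← Finset.sum_image (s := univ.filter (fun j : Fin M => j.val < J.val + 1))
                (g := fun j : Fin M => j.val) (f := fun j : ℕ => 2 ^ (j / h))
                (fun j _ j' _ h => Fin.ext h)]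
              apply Finset.sum_le_sum_of_subset
              intro j hj
              obtain ⟨j', hj', rfl⟩ := Finset.mem_image.mp hj
              exact Finset.mem_range.mpr (Finset.mem_filter.mp hj').2
          _ ≤ 2048 * D * 10 * s * (2 * h * 2 ^ (J.val / h)) :=
              Nat.mul_le_mul_left _ (geo_sum_le' h hh J.val)
          _ = _ := by simp only [sz]; ring
      refine hsel.trans ?_
      calc 2048 * D * 10 * (2 * h * sz J) = 2048 * D * 20 * h * sz J := by ring
        _ ≤ c * h * sz J := by
            apply Nat.mul_le_mul_right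
            apply Nat.mul_le_mul_right
            simp only [c]
            omega
        _ ≤ _ := Nat.mul_le_mul_left _ (hfal a)
  · -- hardness
    intro K _ h2 j
    exact (hhard j K h2).mono (Nat.le_mul_of_pos_right _ (by positivity))

end Pool.Agent.H560R2
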