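import Pool.Agent.H560R2.Sw3

/-! Adaptive computations: rounds of tests, chosen by the answers of the earlier rounds. -/

set_option linter.unusedSectionVars false
set_option linter.unusedVariables false

namespace Pool.Agent.H560R2

open Finset

section

variable {w : ℕ → ℕ}

/-- number of positive answers in round `i` -/
def acnt (A : (i : ℕ) → Fin (w i) → Bool) (i : ℕ) : ℕ := (univ.filter (fun k => A i k = true)).card

/-- mixed radix number of the first `n` rounds -/
def arnk (A : (i : ℕ) → Fin (w i) → Bool) : ℕ → ℕ
  | 0 => 0
  | n + 1 => arnk A n * (w n + 1) + acnt A n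

lemma acnt_le (A : (i : ℕ) → Fin (w i) → Bool) (i : ℕ) : acnt A i ≤ w i := by
  unfold acnt
  refine (Finset.card_filter_le _ _).trans ?_
  simp

lemma arnk_lt (A : (i : ℕ) → Fin (w i) → Bool) :
    ∀ n, arnk A n < ∏ i ∈ Finset.range n, (w i + 1) := by
  intro n
  induction n with
  | zero => simp [arnk]
  | succ n ih =>
    rw [Finset.prod_range_succ]
    simp only [arnk]
    have h1 := acnt_le A n
    have h2 : (arnk A n + 1) * (w n + 1) ≤ (∏ j ∈ Finset.range n, (w j + 1)) * (w n + 1) :=
      Nat.mul_le_mul_right _ ih
    have h3 : (arnk A n + 1) * (w n + 1) = arnk A n * (w n + 1) + (w n + 1) := by ring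
    omega

lemma arnk_mono {A A' : (i : ℕ) → Fin (w i) → Bool}
    (h : ∀ i, (∀ j < i, A j = A' j) → A i ≤ A' i) :
    ∀ n, ((∀ j < n, A j = A' j) ∧ arnk A n = arnk A' n) ∨ arnk A n < arnk A' n := by
  classical
  intro n
  induction n with
  | zero => exact Or.inl ⟨fun j hj => absurd hj (by omega), rfl⟩
  | succ n ih =>
    rcases ih with ⟨h1, h2⟩ | h1
    · have hp := h n h1
      have hsub : univ.filter (fun k => A n k = true) ⊆ univ.filter (fun k => A' n k = true) := by
        intro k hk
        rw [Finset.mem_filter] at hk ⊢
        refine ⟨mem_univ _, ?_⟩
        have := hp k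
        rw [hk.2] at this
        exact top_le_iff.mp this
      by_cases he : A n = A' n
      · left
        refine ⟨fun j hj => ?_, ?_⟩
        · by_cases hjn : j = n
          · subst hjn; exact he
          · exact h1 j (by omega)
        · simp only [arnk, h2, acnt, he]
      · right
        simp only [arnk, h2]
        have : acnt A n < acnt A' n := by
          refine Finset.card_lt_card ⟨hsub, fun hsup => he ?_⟩
          funext k
          by_cases hk : A' n k = true
          · have := hsup (Finset.mem_filter.mpr ⟨mem_univ k, hk⟩)
            rw [(Finset.mem_filter.mp this).2, hk]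
          · have h3 := hp k
            rw [Bool.not_eq_true] at hk
            rw [hk] at h3 ⊢
            exact le_bot_iff.mp h3
        omega
    · right
      simp only [arnk]
      have h2 := acnt_le A n
      have h3 : (arnk A n + 1) * (w n + 1) ≤ arnk A' n * (w n + 1) := Nat.mul_le_mul_right _ h1
      have h4 : (arnk A n + 1) * (w n + 1) = arnk A n * (w n + 1) + (w n + 1) := by ring
      omega

variable {K : Type} [Field K] {I : Type}

/-- adaptive computations -/
theorem Blk.adaptive {S M : ℕ} {F : (I → Bool) → Prop} (h : Blk K S M F) (d : ℕ)
    (test : (i : ℕ) → Fin (w i) → ((j : ℕ) → Fin (w j) → Bool) → (I → Bool) → Bool)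
    (hdep : ∀ i k A A' x, (∀ j < i, A j = A' j) → test i k A x = test i k A' x)
    (hmono : ∀ i k A x x', x ≤ x' → test i k A x ≤ test i k A x')
    (size : (i : ℕ) → Fin (w i) → ((j : ℕ) → Fin (w j) → Bool) → ℕ)
    (hRB : ∀ i k A, RBall K (size i k A) (test i k A))
    (ans : (I → Bool) → (i : ℕ) → Fin (w i) → Bool)
    (hans : ∀ x i k, ans x i k = test i k (ans x) x)
    (last : ((j : ℕ) → Fin (w j) → Bool) → (I → Bool) → Bool)
    (hldep : ∀ A A' x, (∀ j < d, A j = A' j) → last A x = last A' x)
    (lsize : ((j : ℕ) → Fin (w j) → Bool) → ℕ)
    (hlRB : ∀ A, RBall K (lsize A) (last A))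
    (ho : ∀ x, last (ans x) x = true ↔ F x)
    (hM : ∏ i ∈ Finset.range d, (w i + 1) ≤ M) :
    ∃ A : (j : ℕ) → Fin (w j) → Bool,
      2 ^ S ≤ lsize A + ∑ i ∈ Finset.range d, ∑ k, size i k A := by
  classical
  by_contra hcon
  push Not at hcon
  obtain ⟨Ω, f, loc, hh, hbot, hfl⟩ := h
  let fl : (Fin M → Ω → Bool) → I → Bool := fil loc
  have hfill : ∀ Y, last (ans (fl Y)) (fl Y) = true ↔ ∃ J, f (Y J) :=
    fun Y => (ho _).trans (hfl Y)
  have hle : ∀ (Y : Fin M → Ω → Bool) (J : Fin M) (X : Ω → Bool),
      Y J = (fun _ => false) → fl Y ≤ fl (Function.update Y J X) := fil_le loc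
  let pr : (Fin M → Ω → Bool) → ((i : ℕ) → Fin (w i) → Bool) := fun Y i k =>
    if i < d then ans (fl Y) i k else false
  have hstepm : ∀ x x', x ≤ x' → ∀ i, (∀ j < i, ans x j = ans x' j) → ans x i ≤ ans x' i := by
    intro x x' hx i hi k
    rw [hans, hans x', ← hdep i k (ans x) (ans x') x' hi]
    exact hmono i k _ _ _ hx
  obtain ⟨Y, k1, k2, k3⟩ := chain_core (κ := Fin M) (m := M)
    (fun X => ¬ f X) (fun _ => false) hbot id (fun _ _ h => h) pr (by
      intro y J hy hyJ
      by_contra hcon2
      push Not at hcon2
      have hagree : ∀ X, ¬ f X → ∀ i < d, ans (fl (Function.update y J X)) i = ans (fl y) i := by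
        intro X hX i hi
        funext k
        have := congrFun (congrFun (hcon2 X hX) i) k
        simp only [pr, if_pos hi] at this
        exact this
      let A := ans (fl y)
      let E : Finset (Σ i : ℕ, Fin (w i)) :=
        ((Finset.range d).sigma (fun i => univ)).filter (fun e => A e.1 e.2 = false)
      let P : List (ℕ × ((I → Bool) → Bool)) := (lsize A, last A) ::
        E.toList.map (fun e => (size e.1 e.2 A, test e.1 e.2 A))
      have hsum : (P.map Prod.fst).sum ≤ lsize A + ∑ i ∈ Finset.range d, ∑ k, size i k A := by
        simp only [P, List.map_cons, List.sum_cons, List.map_map]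
        have e1 : (E.toList.map (Prod.fst ∘ fun e : (Σ i : ℕ, Fin (w i)) =>
            (size e.1 e.2 A, test e.1 e.2 A))).sum = ∑ e ∈ E, size e.1 e.2 A :=
          Finset.sum_map_toList E _
        rw [e1]
        have e2 : ∑ e ∈ E, size e.1 e.2 A ≤
            ∑ e ∈ (Finset.range d).sigma (fun i => (univ : Finset (Fin (w i)))),
              size e.1 e.2 A :=
          Finset.sum_le_sum_of_subset (Finset.filter_subset _ _)
        rw [Finset.sum_sigma] at e2
        exact Nat.add_le_add_left e2 _
      have hRBg : RBall K (P.map Prod.fst).sum (fun x => P.any (fun p => p.2 x)) := by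
        refine RBall.any P ?_
        intro p hp
        rcases List.mem_cons.mp hp with rfl | hp
        · exact hlRB A
        · obtain ⟨e, -, rfl⟩ := List.mem_map.mp hp
          exact hRB e.1 e.2 A
      have hiff : ∀ X, P.any (fun p => p.2 (fl (Function.update y J X))) = true ↔ f X := by
        intro X
        constructor
        · intro hP
          by_contra hX
          have hag := hagree X hX
          rw [List.any_eq_true] at hP
          obtain ⟨p, hp, hpt⟩ := hP
          rcases List.mem_cons.mp hp with rfl | hp
          · -- the last test
            simp only at hpt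
            rw [hldep A (ans (fl (Function.update y J X))) _ (fun j hj => (hag j hj).symm),
              hfill] at hpt
            obtain ⟨J', hJ'⟩ := hpt
            by_cases hJ : J' = J
            · subst hJ
              rw [Function.update_self] at hJ'
              exact hX hJ'
            · rw [Function.update_of_ne hJ] at hJ'
              exact hy J' hJ'
          · obtain ⟨⟨i, k⟩, he, rfl⟩ := List.mem_map.mp hp
            rw [Finset.mem_toList] at he
            simp only [E, Finset.mem_filter, Finset.mem_sigma, Finset.mem_range] at he
            simp only at hpt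
            have hi : i < d := he.1.1
            rw [hdep i k A (ans (fl (Function.update y J X))) _
              (fun j hj => (hag j (by omega)).symm), ← hans, hag i hi] at hpt
            have h0 : A i k = false := he.2
            rw [show ans (fl y) i k = A i k from rfl, h0] at hpt
            exact absurd hpt (by simp)
        · intro hX
          rw [List.any_eq_true]
          set x' := fl (Function.update y J X) with hx'
          have hlast : last (ans x') x' = true := (hfill _).mpr ⟨J, by rwa [Function.update_self]⟩
          by_cases hall : ∀ i < d, ans x' i = A i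
          · refine ⟨(lsize A, last A), List.mem_cons_self, ?_⟩
            simp only
            rw [← hldep (ans x') A x' hall]
            exact hlast
          · push Not at hall
            have hex : ∃ i, i < d ∧ ans x' i ≠ A i := hall
            let i := Nat.find hex
            obtain ⟨hi, hne⟩ := Nat.find_spec hex
            have hmin : ∀ j < i, A j = ans x' j := by
              intro j hj
              by_contra hcc
              exact Nat.find_min hex hj ⟨by omega, fun h => hcc h.symm⟩
            obtain ⟨k, hk⟩ := Function.ne_iff.mp hne
            have hle2 : A i k ≤ ans x' i k := hstepm (fl y) x' (hle y J X hyJ) i hmin k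
            have hA : A i k = false := by
              by_contra hc
              rw [Bool.not_eq_false] at hc
              apply hk
              rw [hc] at hle2
              rw [show ans x' (Nat.find hex) k = true from top_le_iff.mp hle2]
              exact hc.symm
            have hT : ans x' i k = true := by
              by_contra hc
              rw [Bool.not_eq_true] at hc
              apply hk
              exact hc.trans hA.symm
            refine ⟨(size i k A, test i k A), ?_, ?_⟩
            · refine List.mem_cons_of_mem _ (List.mem_map.mpr ⟨⟨i, k⟩, ?_, rfl⟩)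
              rw [Finset.mem_toList]
              simp only [E, Finset.mem_filter, Finset.mem_sigma, Finset.mem_range]
              exact ⟨⟨hi, mem_univ _⟩, hA⟩
            · simp only
              rw [hdep i k A (ans x') x' hmin, ← hans]
              exact hT
      have hlow := hh.lower hRBg (fun X => fl (Function.update y J X))
        (fil_coord loc y J)
        (fun X hX => (hiff X).mpr hX) (fun X hX => by
          rw [← Bool.not_eq_true, hiff]
          exact hX)
      have := hcon A
      omega)
  -- the rank increases
  have hstep : ∀ i ≤ M, i ≤ arnk (ans (fl (Y i))) d := by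
    intro i
    induction i with
    | zero => intro _; exact Nat.zero_le _
    | succ i ih =>
      intro hi
      have h3 := ih (by omega)
      obtain ⟨J, X, hJ, hX⟩ := k1 i (by omega)
      have h4 : fl (Y i) ≤ fl (Y (i + 1)) := by
        rw [hX]
        exact hle _ _ _ hJ
      rcases arnk_mono (hstepm _ _ h4) d with ⟨h5, -⟩ | h5
      · exfalso
        apply k2 i (by omega)
        funext j k
        by_cases hc : j < d
        · simp only [pr, if_pos hc]
          rw [h5 j hc]
        · simp only [pr, if_neg hc]
      · omega
  have h6 := hstep M le_rfl
  have h7 := arnk_lt (ans (fl (Y M))) d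
  omega

end

end Pool.Agent.H560R2
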