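import Pool.Agent.H560R2.Rob8
import Pool.Agent.H560R2.Sw4
import Pool.Agent.H560R2.Cmp3

/-! Hard distributions of systems of linear equations over the field with two elements. -/

set_option linter.unusedSectionVars false
set_option linter.unusedVariables false
set_option linter.constructorNameAsVariable false

namespace Pool.Agent.H560R2

open Finset

lemma RBall.subst {K : Type} [Field K] {I I' : Type} {n m : ℕ} {g : (I → Bool) → Bool}
    (hg : RBall K n g) (h : I → (I' → Bool) → Bool) (hh : ∀ i, RBall K m (h i)) :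
    RBall K (n * m) (fun x => g (fun i => h i x)) := by
  intro X Y _ _ _ _ A Z α β r ζ hζ
  have h1 := hg X Y A Z α β (m * r) (fun z i => h i (ζ z)) (fun i U V hU hV => by
    rw [one_mul]
    exact hh i X Y A Z α β r ζ hζ U V hU hV)
  intro U V hU hV
  have := h1 U V hU hV
  rw [Nat.mul_assoc]
  exact this

lemma RBall.all {K : Type} [Field K] {I J : Type} [DecidableEq J] (T : Finset J)
    (f : J → (I → Bool) → Bool) (hf : ∀ j, RBall K 1 (f j)) :
    RBall K T.card (fun x => decide (∀ j ∈ T, f j x = true)) := by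
  induction T using Finset.induction_on with
  | empty =>
    have : (fun x : I → Bool => decide (∀ j ∈ (∅ : Finset J), f j x = true)) = fun _ => true := by
      funext x
      simp
    rw [this]
    exact (RBall.const true).weak (Nat.zero_le _)
  | insert a T ha ih =>
    have : (fun x : I → Bool => decide (∀ j ∈ insert a T, f j x = true)) =
        fun x => f a x && decide (∀ j ∈ T, f j x = true) := by
      funext x
      rw [Bool.eq_iff_iff, Bool.and_eq_true, decide_eq_true_iff, decide_eq_true_iff]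
      exact Finset.forall_mem_insert _ _ _
    rw [this, Finset.card_insert_of_notMem ha, Nat.add_comm]
    exact (hf a).and ih

lemma RBall.congr {K : Type} [Field K] {I : Type} {n : ℕ} {g g' : (I → Bool) → Bool}
    (hg : RBall K n g) (h : ∀ x, g x = true ↔ g' x = true) : RBall K n g' := by
  have e : g = g' := by
    funext x
    rw [Bool.eq_iff_iff]
    exact h x
  rw [← e]
  exact hg

lemma vio_ex (c : Bool) : ∃ τ : Fin 8 → Bool, vio c τ := by
  rcases c with _ | _
  · exact ⟨fun j => decide (j = 0), by decide⟩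
  · exact ⟨fun _ => false, by decide⟩

/-- sum of a sign vector -/
def sz2 (τ : Fin 8 → Bool) : ZMod 2 := ∑ j, (if τ j = true then (1 : ZMod 2) else 0)

lemma vio_iff (c : Bool) (τ : Fin 8 → Bool) : vio c τ ↔ sz2 τ = (if c = true then 1 else 0) + 1 := by
  have h1 := not_vio_iff c τ
  have h2 : ∀ u v : ZMod 2, u = v + 1 ↔ ¬ u = v := by decide
  rw [h2]
  unfold sz2
  rw [← h1, not_not]

lemma sz2_xor (τ z : Fin 8 → Bool) : sz2 (fun j => xor (τ j) (z j)) = sz2 τ + sz2 z := by
  unfold sz2
  rw [← Finset.sum_add_distrib]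
  apply Finset.sum_congr rfl
  intro j _
  have : ∀ a b : Bool, (if (a ^^ b) = true then (1 : ZMod 2) else 0) =
      (if a = true then 1 else 0) + (if b = true then 1 else 0) := by decide
  exact this _ _

lemma vio_dec (τ : Fin 8 → Bool) : vio (decide (vio true τ)) τ := by
  by_cases h : vio true τ
  · simp only [h, decide_true]
  · simp only [h, decide_false]
    rw [vio_iff] at h ⊢
    have : ∀ u : ZMod 2, ¬ u = 1 + 1 → u = 0 + 1 := by decide
    simp only [if_true] at h
    simpa using this _ h

lemma vio_congr (b c : Bool) (τ τ' z : Fin 8 → Bool) (h : vio c τ) (h' : vio c τ')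
    (hz : vio b (fun j => xor (τ j) (z j))) : vio b (fun j => xor (τ' j) (z j)) := by
  rw [vio_iff] at h h' hz ⊢
  rw [sz2_xor] at hz ⊢
  rw [h', ← h]
  exact hz

section

variable {m n q : ℕ}

/-- an equation is selected if all clauses that follow from it are selected -/
def a2 (x : Om m q → Bool) (ω : Fin m × (Fin 8 → Fin q) × Bool) : Bool :=
  decide (∀ τ, vio ω.2.2 τ → x (ω.1, ω.2.1, τ) = true)

lemma a2_zero (ω : Fin m × (Fin 8 → Fin q) × Bool) : a2 (fun _ => false) ω = false := by
  unfold a2
  rw [decide_eq_false_iff_not]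
  intro h
  obtain ⟨τ, hτ⟩ := vio_ex ω.2.2
  exact absurd (h τ hτ) (by simp)

lemma a2_sat (ν : Fin m → Fin 8 → Fin n) (y : Fin n → Fin q → Bool)
    (ω : Fin m × (Fin 8 → Fin q) × Bool) (h : a2 (bneg q ν y) ω = true) :
    ¬ vio ω.2.2 (fun j => y (ν ω.1 j) (ω.2.1 j)) := by
  intro hv
  unfold a2 at h
  rw [decide_eq_true_iff] at h
  have := h _ hv
  simp [bneg] at this

lemma a2_far (ν : Fin m → Fin 8 → Fin n) (b : Fin m → Bool)
    (p : (Fin n → Fin q) × (Fin n → Bool)) (a : Fin n → Fin q → Bool) (d : ℕ)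
    (h : d ≤ (univ.filter (fun ω : Om m q => apos q ν b p ω = true ∧
      ∀ j, a (ν ω.1 j) (ω.2.1 j) = ω.2.2 j)).card) :
    d ≤ (univ.filter (fun ω : Fin m × (Fin 8 → Fin q) × Bool => a2 (apos q ν b p) ω = true ∧
      vio ω.2.2 (fun j => a (ν ω.1 j) (ω.2.1 j)))).card := by
  classical
  refine h.trans (Finset.card_le_card_of_injOn
    (fun ω => (ω.1, ω.2.1, decide (vio true ω.2.2))) ?_ ?_)
  · intro ω hω
    simp only [Finset.coe_filter, Finset.mem_univ, true_and, Set.mem_ofPred_eq] at hω ⊢
    obtain ⟨h1, h2⟩ := hω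
    have h3 : (fun j => a (ν ω.1 j) (ω.2.1 j)) = ω.2.2 := funext h2
    rw [h3]
    refine ⟨?_, vio_dec _⟩
    unfold a2
    rw [decide_eq_true_iff]
    intro τ' hτ'
    unfold apos at h1 ⊢
    rw [decide_eq_true_iff] at h1 ⊢
    exact ⟨vio_congr _ _ _ _ _ (vio_dec ω.2.2) hτ' h1.1, h1.2⟩
  · intro ω hω ω' hω' heq
    simp only [Finset.coe_filter, Finset.mem_univ, true_and, Set.mem_ofPred_eq] at hω hω'
    simp only [Prod.mk.injEq] at heq
    obtain ⟨e1, e2, -⟩ := heq
    refine Prod.ext e1 (Prod.ext e2 ?_)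
    funext j
    rw [← hω.2 j, ← hω'.2 j, e1, e2]

theorem AHard.a2 {K : Type} [Field K] {s : ℕ} {P N : Type} [Fintype P] [Fintype N]
    {α : P → Om m q → Bool} {β : N → Om m q → Bool} (h : AHard K (s + 8) α β) :
    AHard K s (fun p => a2 (α p)) (fun y => a2 (β y)) := by
  classical
  intro I k g hg ζ hζ
  let ζ' : (Om m q → Bool) → I × (Fin 8 → Bool) → Bool := fun z i' =>
    if h : ∃ ω, ∀ z, ζ z i'.1 = z ω then
      (if vio h.choose.2.2 i'.2 then z (h.choose.1, h.choose.2.1, i'.2) else true)
    else ζ (fun _ => false) i'.1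
  let g' : (I × (Fin 8 → Bool) → Bool) → Bool := fun x' =>
    g (fun i => decide (∀ τ ∈ (univ : Finset (Fin 8 → Bool)), x' (i, τ) = true))
  have key : ∀ z, g' (ζ' z) = g (ζ (Pool.Agent.H560R2.a2 z)) := by
    intro z
    simp only [g']
    congr 1
    funext i
    by_cases hi : ∃ ω, ∀ z, ζ z i = z ω
    · rw [hi.choose_spec (Pool.Agent.H560R2.a2 z)]
      unfold Pool.Agent.H560R2.a2
      rw [Bool.eq_iff_iff, decide_eq_true_iff, decide_eq_true_iff]
      constructor
      · intro h τ hτ
        have := h τ (mem_univ _)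
        simp only [ζ', dif_pos hi, if_pos hτ] at this
        exact this
      · intro h τ _
        simp only [ζ', dif_pos hi]
        by_cases hτ : vio hi.choose.2.2 τ
        · rw [if_pos hτ]
          exact h τ hτ
        · rw [if_neg hτ]
    · rcases hζ i with ⟨c, hc⟩ | hω
      · rw [hc, Bool.eq_iff_iff, decide_eq_true_iff]
        constructor
        · intro h
          have := h (fun _ => false) (mem_univ _)
          simp only [ζ', dif_neg hi, hc] at this
          exact this
        · intro h τ _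
          simp only [ζ', dif_neg hi, hc]
          exact h
      · exact absurd hω hi
  have hg' : RBall K (k * 256) g' := by
    refine RBall.subst hg (fun i x' => decide (∀ τ ∈ (univ : Finset (Fin 8 → Bool)),
      x' (i, τ) = true)) (fun i => ?_)
    have h1 := RBall.all (K := K) (univ : Finset (Fin 8 → Bool))
      (fun τ (x' : I × (Fin 8 → Bool) → Bool) => x' (i, τ)) (fun τ => RBall.var (i, τ))
    rw [Finset.card_univ, Fintype.card_fun, Fintype.card_bool, Fintype.card_fin] at h1
    have h256 : (2 : ℕ) ^ 8 = 256 := by norm_num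
    rw [h256] at h1
    refine RBall.congr h1 (fun x' => ?_)
    simp only [decide_eq_true_eq]
  have h2 := h (I × (Fin 8 → Bool)) (k * 256) g' hg' ζ' (by
    rintro ⟨i, τ⟩
    by_cases hi : ∃ ω, ∀ z, ζ z i = z ω
    · by_cases hτ : vio hi.choose.2.2 τ
      · right
        refine ⟨(hi.choose.1, hi.choose.2.1, τ), fun z => ?_⟩
        simp only [ζ', dif_pos hi, if_pos hτ]
      · left
        refine ⟨true, fun z => ?_⟩
        simp only [ζ', dif_pos hi, if_neg hτ]
    · left
      refine ⟨ζ (fun _ => false) i, fun z => ?_⟩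
      simp only [ζ', dif_neg hi])
  simp only [key] at h2
  refine Nat.le_of_mul_le_mul_left ?_ (show 0 < 256 by norm_num)
  have e1 : 2 ^ (s + 8) = 256 * 2 ^ s := by rw [pow_add]; ring
  rw [e1] at h2
  calc 256 * (2 ^ s * ((univ.filter (fun p => g (ζ (Pool.Agent.H560R2.a2 (α p))) = true)).card *
        Fintype.card N)) = 256 * 2 ^ s * ((univ.filter (fun p =>
          g (ζ (Pool.Agent.H560R2.a2 (α p))) = true)).card * Fintype.card N) := by ring
    _ ≤ _ := h2
    _ = _ := by ring

end

/-- every assignment falsifies at least `d` of the selected equations -/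
def FarL {N m : ℕ} (G : Fin m → (Fin 8 → Fin N) × ZMod 2) (d : ℕ) (x : Fin m → Bool) : Prop :=
  ∀ a : Fin N → ZMod 2, d ≤ (univ.filter (fun i => x i = true ∧ ∑ j, a ((G i).1 j) ≠ (G i).2)).card

/-- The hard distributions of linear systems. -/
theorem xor_dist : ∃ c : ℕ, 0 < c ∧ ∀ N M : ℕ, 0 < M → c * M ≤ N →
    ∃ (m s : ℕ) (G : Fin m → (Fin 8 → Fin N) × ZMod 2) (Ω P Ng : Type) (_ : Fintype P)
      (_ : Nonempty P) (_ : Fintype Ng) (_ : Nonempty Ng) (α : P → Ω → Bool) (β : Ng → Ω → Bool)
      (loc : Fin m → Option (Fin M × Ω)), m ≤ N ∧ N ≤ c * M * (s + 1) ∧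
      (∀ y i, solv G (fil loc (stB β y i))) ∧
      (∀ l, FarL G s (farD loc α β l)) ∧
      ∀ (K : Type) [Field K], (2 : K) ≠ 0 → AHard K s α β := by
  classical
  obtain ⟨u, hu⟩ : ∃ u, u = 1025 := ⟨_, rfl⟩
  obtain ⟨q, hq⟩ : ∃ q, q = 2 ^ u := ⟨_, rfl⟩
  have hq0 : 0 < q := by rw [hq]; positivity
  obtain ⟨D, hD⟩ : ∃ D, D = q ^ 8 * 2 := ⟨_, rfl⟩
  let c : ℕ := 9 * (1024 * q + 2048 * D)
  have hc0 : 0 < c := by positivity
  refine ⟨c, hc0, fun N M hM hN => ?_⟩
  set s := N / (c * M) with hs
  have hcM : 0 < c * M := Nat.mul_pos hc0 hM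
  have hs1 : 0 < s := by
    rw [hs]; exact Nat.div_pos hN hcM
  have hsN : M * (c * s) ≤ N := by
    calc M * (c * s) = s * (c * M) := by ring
      _ ≤ N := Nat.div_mul_le_self N (c * M)
  obtain ⟨ν, b, hfar, hhard⟩ := ahard u q (s + 8) hu hq (by omega)
  -- counting
  have hcMW : Fintype.card (Fin M × (Fin (1024 * (s + 8)) × Fin q)) ≤ Fintype.card (Fin N) := by
    rw [Fintype.card_prod, Fintype.card_prod, Fintype.card_fin, Fintype.card_fin,
      Fintype.card_fin, Fintype.card_fin]
    refine le_trans (Nat.mul_le_mul_left M ?_) hsN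
    simp only [c]
    calc 1024 * (s + 8) * q ≤ 1024 * (9 * s) * q :=
          Nat.mul_le_mul_right _ (Nat.mul_le_mul_left _ (by omega))
      _ = 9 * (1024 * q) * s := by ring
      _ ≤ _ := Nat.mul_le_mul_right _ (Nat.mul_le_mul_left _ (Nat.le_add_right _ _))
  obtain ⟨emb⟩ := Function.Embedding.nonempty_of_card_le hcMW
  let C := Fin M × (Fin (2048 * (s + 8)) × (Fin 8 → Fin q) × Bool)
  have hcC : Fintype.card C = M * (2048 * (s + 8) * D) := by
    simp only [C, Fintype.card_prod, Fintype.card_fin, Fintype.card_bool, Fintype.card_fun, hD]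
  let eq := Fintype.equivFin C
  let G0 : C → (Fin 8 → Fin N) × ZMod 2 := fun p =>
    (fun j => emb (p.1, (ν p.2.1 j, p.2.2.1 j)), if p.2.2.2 = true then 1 else 0)
  have hPne : Nonempty ((Fin (1024 * (s + 8)) → Fin q) × (Fin (1024 * (s + 8)) → Bool)) :=
    ⟨(fun _ => ⟨0, hq0⟩, fun _ => false)⟩
  refine ⟨Fintype.card C, s, fun i => G0 (eq.symm i), Fin (2048 * (s + 8)) × (Fin 8 → Fin q) × Bool,
    (Fin (1024 * (s + 8)) → Fin q) × (Fin (1024 * (s + 8)) → Bool),
    Fin (1024 * (s + 8)) → Fin q → Bool,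
    inferInstance, hPne, inferInstance, inferInstance, fun p => a2 (apos q ν b p),
    fun y => a2 (bneg q ν y), fun i => some ((eq.symm i).1, (eq.symm i).2), ?_, ?_, ?_, ?_, ?_⟩
  · -- number of equations
    rw [hcC]
    refine le_trans (Nat.mul_le_mul_left M ?_) hsN
    simp only [c]
    calc 2048 * (s + 8) * D ≤ 2048 * (9 * s) * D :=
          Nat.mul_le_mul_right _ (Nat.mul_le_mul_left _ (by omega))
      _ = 9 * (2048 * D) * s := by ring
      _ ≤ _ := Nat.mul_le_mul_right _ (Nat.mul_le_mul_left _ (Nat.le_add_left _ _))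
  · have := Nat.lt_div_mul_add hcM (a := N)
    calc N ≤ N / (c * M) * (c * M) + c * M := this.le
      _ = c * M * (s + 1) := by rw [← hs]; ring
  · -- solvable
    intro y i
    refine ⟨fun v => if hv : ∃ p, emb p = v then
      (if y hv.choose.1 hv.choose.2.1 hv.choose.2.2 = true then 1 else 0) else 0, ?_⟩
    intro l hl
    have hst : a2 (bneg q ν (y (eq.symm l).1)) (eq.symm l).2 = true := by
      have h1 : stB (fun y => a2 (bneg q ν y)) y i (eq.symm l).1 (eq.symm l).2 = true := hl
      simp only [stB] at h1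
      split_ifs at h1 with h2
      · exact h1
    have h3 := a2_sat ν _ _ hst
    rw [not_vio_iff] at h3
    refine Eq.trans ?_ h3
    apply Finset.sum_congr rfl
    intro j _
    have hex : ∃ p, emb p = (G0 (eq.symm l)).1 j := ⟨_, rfl⟩
    have hch : hex.choose = ((eq.symm l).1, (ν (eq.symm l).2.1 j, (eq.symm l).2.2.1 j)) :=
      emb.injective hex.choose_spec
    beta_reduce
    rw [dif_pos hex, hch]
  · -- far
    intro lam a
    obtain ⟨J, y, p⟩ := lam
    have h1 := a2_far ν b p (fun v c => decide (a (emb (J, (v, c))) = 1)) _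
      (hfar p (fun v c => decide (a (emb (J, (v, c))) = 1)))
    refine le_trans (by omega) h1 |>.trans ?_
    refine Finset.card_le_card_of_injOn (fun ω => eq (J, ω)) ?_ ?_
    · intro ω hω
      simp only [Finset.coe_filter, Finset.mem_univ, true_and, Set.mem_ofPred_eq] at hω ⊢
      constructor
      · show farD _ _ _ (J, y, p) _ = true
        unfold farD fil
        simp only [Equiv.symm_apply_apply, Function.update_self]
        exact hω.1
      · simp only [Equiv.symm_apply_apply, G0]
        intro heq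
        apply absurd hω.2
        rw [not_vio_iff]
        refine Eq.trans ?_ heq
        apply Finset.sum_congr rfl
        intro j _
        have : ∀ u : ZMod 2, (if decide (u = 1) = true then (1 : ZMod 2) else 0) = u := by decide
        exact this _
    · intro ω _ ω' _ h
      exact congrArg (fun z : C => z.2) (eq.injective h)
  · intro K _ h2
    exact (hhard K h2).a2

end Pool.Agent.H560R2
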