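import Pool.Agent.H560R2.Rob11

/-! Adaptive computations against the hard distributions. -/

set_option linter.unusedSectionVars false
set_option linter.unusedVariables false

namespace Pool.Agent.H560R2

open Finset

section

variable {K : Type} [Field K] {I : Type} {w : ℕ → ℕ}

/-- adaptive computations -/
theorem probe_adaptive (d : ℕ)
    (test : (i : ℕ) → Fin (w i) → ((j : ℕ) → Fin (w j) → Bool) → (I → Bool) → Bool)
    (hdep : ∀ i k A A' x, (∀ j < i, A j = A' j) → test i k A x = test i k A' x)
    (hmono : ∀ i k A x x', x ≤ x' → test i k A x ≤ test i k A x')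
    (size : (i : ℕ) → Fin (w i) → ((j : ℕ) → Fin (w j) → Bool) → ℕ)
    (hRB : ∀ i k A, RBall K (size i k A) (test i k A))
    (ans : (I → Bool) → (i : ℕ) → Fin (w i) → Bool)
    (hans : ∀ x i k, ans x i k = test i k (ans x) x)
    (last : ((j : ℕ) → Fin (w j) → Bool) → (I → Bool) → Bool)
    (hldep : ∀ A A' x, (∀ j < d, A j = A' j) → last A x = last A' x)
    (lsize : ((j : ℕ) → Fin (w j) → Bool) → ℕ)
    (hlRB : ∀ A, RBall K (lsize A) (last A)) (B κ : ℕ)
    (hB : ∀ A, lsize A + ∑ i ∈ Finset.range d, ∑ k, size i k A ≤ B)
    (hκ : ∏ i ∈ Finset.range d, (w i + 1) ≤ κ + 1) :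
    Probe K κ B (fun x => last (ans x) x) := by
  classical
  let pr : (I → Bool) → ((i : ℕ) → Fin (w i) → Bool) := fun x i k =>
    if i < d then ans x i k else false
  have hstepm : ∀ x x', x ≤ x' → ∀ i, (∀ j < i, ans x j = ans x' j) → ans x i ≤ ans x' i := by
    intro x x' hx i hi k
    rw [hans, hans x', ← hdep i k (ans x) (ans x') x' hi]
    exact hmono i k _ _ _ hx
  have hpreq : ∀ x x', pr x = pr x' → ∀ i < d, ans x i = ans x' i := by
    intro x x' h i hi
    funext k
    have := congrFun (congrFun h i) k
    simpa only [pr, if_pos hi] using this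
  refine ⟨_, pr, fun M x hx J hJ => changes_of_rank pr (fun x => arnk (ans x) d) _ ?_ ?_ ?_ x hx J
    hJ, ?_⟩
  · intro x x' hx
    rcases arnk_mono (hstepm _ _ hx) d with ⟨-, h⟩ | h
    · exact h.le
    · exact h.le
  · intro x x' hx hne
    rcases arnk_mono (hstepm _ _ hx) d with ⟨h, -⟩ | h
    · exfalso
      apply hne
      funext j k
      by_cases hc : j < d
      · simp only [pr, if_pos hc]
        rw [h j hc]
      · simp only [pr, if_neg hc]
    · exact h
  · intro x
    have := arnk_lt (ans x) d
    omega
  · intro x0
    let A := ans x0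
    let E : Finset (Σ i : ℕ, Fin (w i)) :=
      ((Finset.range d).sigma (fun i => univ)).filter (fun e => A e.1 e.2 = false)
    let P : List (ℕ × ((I → Bool) → Bool)) := (lsize A, last A) ::
      E.toList.map (fun e => (size e.1 e.2 A, test e.1 e.2 A))
    have hsum : (P.map Prod.fst).sum ≤ lsize A + ∑ i ∈ Finset.range d, ∑ k, size i k A := by
      simp only [P, List.map_cons, List.sum_cons, List.map_map]
      have e1 : (E.toList.map (Prod.fst ∘ fun e : (Σ i : ℕ, Fin (w i)) =>
          (size e.1 e.2 A, test e.1 e.2 A))).sum = ∑ e ∈ E, size e.1 e.2 A :=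
        Finset.sum_map_toList E _
      rw [e1]
      have e2 : ∑ e ∈ E, size e.1 e.2 A ≤
          ∑ e ∈ (Finset.range d).sigma (fun i => (univ : Finset (Fin (w i)))),
            size e.1 e.2 A :=
        Finset.sum_le_sum_of_subset (Finset.filter_subset _ _)
      rw [Finset.sum_sigma] at e2
      exact Nat.add_le_add_left e2 _
    have hRBg : RBall K (P.map Prod.fst).sum (fun x => P.any (fun p => p.2 x)) := by
      refine RBall.any P ?_
      intro p hp
      rcases List.mem_cons.mp hp with rfl | hp
      · exact hlRB A
      · obtain ⟨e, -, rfl⟩ := List.mem_map.mp hp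
        exact hRB e.1 e.2 A
    refine ⟨_, hRBg.weak (hsum.trans (hB A)), fun x hx => ?_⟩
    rw [List.any_eq_true]
    constructor
    · rintro ⟨p, hp, hpt⟩
      by_cases heq : pr x = pr x0
      · right
        have hag := hpreq _ _ heq
        rcases List.mem_cons.mp hp with rfl | hp
        · simp only at hpt
          rw [hldep A (ans x) _ (fun j hj => (hag j hj).symm)] at hpt
          exact hpt
        · exfalso
          obtain ⟨⟨i, k⟩, he, rfl⟩ := List.mem_map.mp hp
          rw [Finset.mem_toList] at he
          simp only [E, Finset.mem_filter, Finset.mem_sigma, Finset.mem_range] at he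
          simp only at hpt
          have hi : i < d := he.1.1
          rw [hdep i k A (ans x) _ (fun j hj => (hag j (by omega)).symm), ← hans,
            hag i hi] at hpt
          have h0 : A i k = false := he.2
          rw [show ans x0 i k = A i k from rfl, h0] at hpt
          exact absurd hpt (by simp)
      · exact Or.inl heq
    · intro hor
      by_cases hall : ∀ i < d, ans x i = A i
      · have heq : pr x = pr x0 := by
          funext j k
          by_cases hc : j < d
          · simp only [pr, if_pos hc]
            rw [hall j hc]
          · simp only [pr, if_neg hc]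
        rcases hor with h | h
        · exact absurd heq h
        · refine ⟨(lsize A, last A), List.mem_cons_self, ?_⟩
          simp only
          rw [← hldep (ans x) A x hall]
          exact h
      · push Not at hall
        have hex : ∃ i, i < d ∧ ans x i ≠ A i := hall
        let i := Nat.find hex
        obtain ⟨hi, hne⟩ := Nat.find_spec hex
        have hmin : ∀ j < i, A j = ans x j := by
          intro j hj
          by_contra hcc
          exact Nat.find_min hex hj ⟨by omega, fun h => hcc h.symm⟩
        obtain ⟨k, hk⟩ := Function.ne_iff.mp hne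
        have hle2 : A i k ≤ ans x i k := hstepm x0 x hx i hmin k
        have hA : A i k = false := by
          by_contra hc
          rw [Bool.not_eq_false] at hc
          apply hk
          rw [hc] at hle2
          rw [show ans x (Nat.find hex) k = true from top_le_iff.mp hle2]
          exact hc.symm
        have hT : ans x i k = true := by
          by_contra hc
          rw [Bool.not_eq_true] at hc
          apply hk
          exact hc.trans hA.symm
        refine ⟨(size i k A, test i k A), ?_, ?_⟩
        · refine List.mem_cons_of_mem _ (List.mem_map.mpr ⟨⟨i, k⟩, ?_, rfl⟩)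
          rw [Finset.mem_toList]
          simp only [E, Finset.mem_filter, Finset.mem_sigma, Finset.mem_range]
          exact ⟨⟨hi, mem_univ _⟩, hA⟩
        · simp only
          rw [hdep i k A (ans x) x hmin, ← hans]
          exact hT

end

/-- the advantage of probe systems -/
theorem adv_probe {I Ω P N : Type} {M : ℕ} [Fintype P] [Fintype N] [Nonempty N] {K : Type}
    [Field K] {s : ℕ} {α : P → Ω → Bool} {β : N → Ω → Bool} (hA : AHard K s α β)
    (loc : I → Option (Fin M × Ω)) {κ S : ℕ} {out : (I → Bool) → Bool} (h : Probe K κ S out) :
    Adv M s κ S (farD loc α β) (satD (P := P) loc β) out := by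
  obtain ⟨π, pr, h1, h2⟩ := h
  exact adv_chain hA loc pr κ S (fun x hx J hJ => h1 M x hx J hJ) out h2

end Pool.Agent.H560R2
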