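import Pool.Agent.H560R2.Rob1

/-! The symmetric matrix of a system of equations lifted by an indexing gadget. -/

set_option linter.unusedSectionVars false
set_option linter.unusedVariables false

namespace Pool.Agent.H560R2

open Finset

section

variable {K : Type} [Field K]

lemma sg_xor (a b : Bool) : sg K (xor a b) = sg K a * sg K b := by
  cases a <;> cases b <;> simp [sg]

variable {V E : Type} [Fintype V] [DecidableEq V] [Fintype E] [DecidableEq E] {k q : ℕ}

/-- the shifted selected values -/
def ssel (p : (V → Fin q) × (V → Bool)) (y : V → Fin q → Bool) : V → Bool :=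
  fun v => xor (y v (p.1 v)) (p.2 v)

/-- the matrix -/
def ym (K : Type) [Field K] (q s : ℕ) (ν : E → Fin k → V) (b : E → Bool) :
    Matrix ((V → Fin q) × (V → Bool)) (V → Fin q → Bool) K :=
  Matrix.of fun p y => ∑ T ∈ univ.filter (fun T : Finset E => T.card ≤ s), tm K ν b T (ssel p y)

lemma ym_rank (h2 : (2 : K) ≠ 0) (s : ℕ) (ν : E → Fin k → V) (b : E → Bool)
    (hex : ∀ T : Finset E, T.card ≤ s → evs ν T = univ → T = ∅) :
    q ^ Fintype.card V ≤ (ym K q s ν b).rank := by
  classical
  let S : Matrix (V → Fin q) ((V → Fin q) × (V → Bool)) K := Matrix.of fun x p =>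
    if p = (x, fun _ => false) then 1 else 0
  have h : xm K q s ν b = S * ym K q s ν b := by
    ext x y
    rw [Matrix.mul_apply, Finset.sum_eq_single (x, fun _ => false)]
    · simp only [S, Matrix.of_apply, if_true, one_mul, xm, ym]
      have : ssel (x, fun _ => false) y = sel x y := by
        funext v
        simp [ssel, sel]
      rw [this]
    · intro p _ hp
      simp only [S, Matrix.of_apply, if_neg hp, zero_mul]
    · intro hn
      exact absurd (mem_univ _) hn
  have h3 := xm_rank (K := K) (q := q) h2 s ν b hex
  rw [h] at h3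
  exact h3.trans (Matrix.rank_mul_le_right _ _)

/-- symmetry of the rows -/
lemma ym_rows [NeZero q] (s : ℕ) (ν : E → Fin k → V) (b : E → Bool)
    (g p : (V → Fin q) × (V → Bool)) (y : V → Fin q → Bool) :
    ym K q s ν b (fun v => p.1 v + g.1 v, fun v => xor (p.2 v) (g.2 v))
      (fun v c => xor (y v (c - g.1 v)) (g.2 v)) = ym K q s ν b p y := by
  unfold ym
  rw [Matrix.of_apply, Matrix.of_apply]
  have : ssel (q := q) (fun v => p.1 v + g.1 v, fun v => xor (p.2 v) (g.2 v))
      (fun v c => xor (y v (c - g.1 v)) (g.2 v)) = ssel p y := by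
    funext v
    simp only [ssel, add_sub_cancel_right]
    cases y v (p.1 v) <;> cases p.2 v <;> cases g.2 v <;> rfl
  rw [this]

lemma ym_rows_bij [NeZero q] (p : (V → Fin q) × (V → Bool)) :
    Function.Bijective (fun g : (V → Fin q) × (V → Bool) =>
      ((fun v => p.1 v + g.1 v, fun v => xor (p.2 v) (g.2 v)) : (V → Fin q) × (V → Bool))) := by
  rw [← Finite.injective_iff_bijective]
  rintro ⟨g1, g2⟩ ⟨h1, h2⟩ h
  simp only [Prod.mk.injEq] at h
  obtain ⟨ha, hb⟩ := h
  congr 1
  · funext v
    exact add_left_cancel (congrFun ha v)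
  · funext v
    have := congrFun hb v
    revert this
    cases p.2 v <;> cases g2 v <;> cases h2 v <;> simp

/-- symmetry of the columns -/
lemma ym_cols (s : ℕ) (ν : E → Fin k → V) (b : E → Bool)
    (g : V → Fin q → Bool) (p : (V → Fin q) × (V → Bool)) (y : V → Fin q → Bool) :
    ym K q s ν b (p.1, fun v => xor (p.2 v) (g v (p.1 v)))
      (fun v c => xor (y v c) (g v c)) = ym K q s ν b p y := by
  unfold ym
  rw [Matrix.of_apply, Matrix.of_apply]
  have : ssel (q := q) (p.1, fun v => xor (p.2 v) (g v (p.1 v)))
      (fun v c => xor (y v c) (g v c)) = ssel p y := by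
    funext v
    simp only [ssel]
    cases y v (p.1 v) <;> cases p.2 v <;> cases g v (p.1 v) <;> rfl
  rw [this]

lemma ym_cols_bij (y : V → Fin q → Bool) :
    Function.Bijective (fun g : V → Fin q → Bool =>
      (fun v c => xor (y v c) (g v c) : V → Fin q → Bool)) := by
  rw [← Finite.injective_iff_bijective]
  intro g h hgh
  funext v c
  have := congrFun (congrFun hgh v) c
  revert this
  simp only
  cases y v c <;> cases g v c <;> cases h v c <;> simp

/-- The rank is robust. -/
theorem ym_robust [NeZero q] (s : ℕ) (ν : E → Fin k → V) (b : E → Bool)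
    (U : (V → Fin q) × (V → Bool) → Bool) (W : (V → Fin q → Bool) → Bool) :
    ((univ.filter (fun x => U x = true)).card * Fintype.card (V → Fin q → Bool) +
      (univ.filter (fun y => W y = true)).card * Fintype.card ((V → Fin q) × (V → Bool))) *
        (ym K q s ν b).rank ≤
      Fintype.card ((V → Fin q) × (V → Bool)) * Fintype.card (V → Fin q → Bool) *
        ((ym K q s ν b).rank + (msk (ym K q s ν b) U W).rank) :=
  rk_robust (ym K q s ν b)
    (fun (g : (V → Fin q) × (V → Bool)) p =>
      (fun v => p.1 v + g.1 v, fun v => xor (p.2 v) (g.2 v)))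
    (fun g y => fun v c => xor (y v (c - g.1 v)) (g.2 v))
    (fun g p y => ym_rows s ν b g p y) (fun p => ym_rows_bij p)
    (fun (g : V → Fin q → Bool) p => (p.1, fun v => xor (p.2 v) (g v (p.1 v))))
    (fun g y => fun v c => xor (y v c) (g v c))
    (fun g p y => ym_cols s ν b g p y) (fun y => ym_cols_bij y) U W

/-- The submatrix of a violated equation has small rank. -/
theorem ym_viol (s a : ℕ) (ν : E → Fin k → V) (b : E → Bool)
    (hex : ∀ T : Finset E, T.card = s → (evs ν T).card ≤ a) (hq : 0 < q)
    (e : E) (U : (V → Fin q) × (V → Bool) → Bool) (W : (V → Fin q → Bool) → Bool)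
    (hUW : ∀ p y, U p = true → W y = true →
      sg K (b e) * ∏ j, sg K (ssel p y (ν e j)) = -1) :
    (msk (ym K q s ν b) U W).rank ≤ 2 ^ Fintype.card E * q ^ a := by
  classical
  set R' := univ.filter (fun T : Finset E => e ∉ T ∧ T.card = s) with hR'
  let M : Finset E → Matrix ((V → Fin q) × (V → Bool)) (V → Fin q → Bool) K := fun T =>
    Matrix.of fun x y => if U x = true ∧ W y = true then tm K ν b T (ssel x y) else 0
  have hsum : msk (ym K q s ν b) U W = ∑ T ∈ R', M T := by
    ext x y
    rw [Matrix.sum_apply]
    simp only [msk, Matrix.of_apply, M]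
    by_cases h : U x = true ∧ W y = true
    · simp only [if_pos h]
      unfold ym
      rw [Matrix.of_apply]
      exact xm_cancel s ν b e (ssel x y) (hUW x y h.1 h.2)
    · simp only [if_neg h, Finset.sum_const_zero]
  rw [hsum]
  have hM : ∀ T ∈ R', (M T).rank ≤ q ^ a := by
    intro T hT
    rw [hR', Finset.mem_filter] at hT
    obtain ⟨-, -, hTs⟩ := hT
    let Cs := {i // i ∈ evs ν T} → Fin q
    let F : Matrix ((V → Fin q) × (V → Bool)) Cs K := Matrix.of fun x c =>
      if U x = true ∧ (fun i : {i // i ∈ evs ν T} => x.1 i.1) = c then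
        ∏ i ∈ evs ν T, sg K (x.2 i) else 0
    let G : Matrix Cs (V → Fin q → Bool) K := Matrix.of fun c y =>
      if W y = true then (∏ e ∈ T, sg K (b e)) * ∏ i : {i // i ∈ evs ν T}, sg K (y i.1 (c i))
        else 0
    have hEG : M T = F * G := by
      ext x y
      rw [Matrix.mul_apply]
      simp only [F, G, M, Matrix.of_apply]
      by_cases hU : U x = true
      · rw [Finset.sum_eq_single (fun i : {i // i ∈ evs ν T} => x.1 i.1)]
        · simp only [hU, true_and, if_true]
          by_cases hW : W y = true
          · rw [if_pos hW, if_pos hW, tm_eq]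
            have h1 : ∏ v ∈ evs ν T, sg K (ssel x y v) =
                (∏ v ∈ evs ν T, sg K (y v (x.1 v))) * ∏ v ∈ evs ν T, sg K (x.2 v) := by
              rw [← Finset.prod_mul_distrib]
              apply Finset.prod_congr rfl
              intro v _
              exact sg_xor _ _
            have h3 : ∏ i : {i // i ∈ evs ν T}, sg K (y i.1 (x.1 i.1)) =
                ∏ v ∈ evs ν T, sg K (y v (x.1 v)) :=
              Finset.prod_coe_sort (evs ν T) (fun i => sg K (y i (x.1 i)))
            rw [h1, h3]
            ring
          · rw [if_neg hW, if_neg hW, mul_zero]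
        · intro c _ hc
          rw [if_neg (fun h => hc h.2.symm), zero_mul]
        · intro hn
          exact absurd (Finset.mem_univ _) hn
      · rw [if_neg (fun h => hU h.1)]
        symm
        apply Finset.sum_eq_zero
        intro c _
        rw [if_neg (fun h => hU h.1), zero_mul]
    rw [hEG]
    refine (Matrix.rank_mul_le_left F G).trans ((Matrix.rank_le_card_width F).trans ?_)
    rw [Fintype.card_fun, Fintype.card_fin, Fintype.card_coe]
    exact Nat.pow_le_pow_right hq (hex T hTs)
  refine (rk_sum_le R' M _ hM).trans ?_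
  apply Nat.mul_le_mul_right
  refine (Finset.card_le_univ _).trans ?_
  rw [Fintype.card_finset]

end

end Pool.Agent.H560R2
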