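import Pool.Agent.H560R2.Rob2

/-! Distributions of satisfiable formulas and of formulas that are far from satisfiable. -/

set_option linter.unusedSectionVars false
set_option linter.unusedVariables false

namespace Pool.Agent.H560R2

open Finset

lemma vio_sum {k : ℕ} (τ : Fin k → Bool) : ∑ c : Bool, (if vio c τ then 1 else 16) = 17 := by
  rw [Fintype.sum_bool]
  unfold vio
  simp only [if_true, Bool.false_eq_true, if_false, zero_add]
  rcases Nat.even_or_odd (univ.filter (fun j => τ j = true)).card with h | h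
  · rw [if_pos (Even.one_add h), if_neg (Nat.not_odd_iff_even.mpr h)]
  · rw [if_neg, if_pos h]
    rw [Nat.not_odd_iff_even, add_comm]
    exact Odd.add_one h

/-- Some right hand sides are far from all right hand sides of solvable systems. -/
lemma exists_rhs_far (s : ℕ) (hs : 0 < s) (ν : Fin (2048 * s) → Fin 8 → Fin (1024 * s)) :
    ∃ b : Fin (2048 * s) → Bool, ∀ z : Fin (1024 * s) → Bool,
      128 * s ≤ (univ.filter (fun e => vio (b e) (fun j => z (ν e j)))).card := by
  classical
  by_contra hcon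
  push Not at hcon
  let bad : (Fin (1024 * s) → Bool) → Finset (Fin (2048 * s) → Bool) := fun z =>
    univ.filter (fun b => (univ.filter (fun e => vio (b e) (fun j => z (ν e j)))).card < 128 * s)
  have h1 : ∀ z, (bad z).card * 16 ^ (1920 * s) ≤ 17 ^ (2048 * s) := by
    intro z
    have e1 : ∑ b : Fin (2048 * s) → Bool,
        ∏ e, (if vio (b e) (fun j => z (ν e j)) then 1 else 16) = 17 ^ (2048 * s) := by
      have h2 := Finset.prod_univ_sum (ι := Fin (2048 * s)) (R := ℕ) (fun _ => (univ : Finset Bool))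
        (fun e c => if vio c (fun j => z (ν e j)) then 1 else 16)
      rw [Fintype.piFinset_univ] at h2
      rw [← h2, Finset.prod_congr rfl (g := fun _ => 17) (fun e _ => vio_sum _),
        Finset.prod_const, Finset.card_univ, Fintype.card_fin]
    rw [← e1, ← smul_eq_mul]
    refine (Finset.card_nsmul_le_sum (bad z) (fun b : Fin (2048 * s) → Bool =>
        ∏ e, (if vio (b e) (fun j => z (ν e j)) then 1 else 16)) _ ?_).trans ?_
    · intro b hb
      simp only [bad, Finset.mem_filter, Finset.mem_univ, true_and] at hb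
      rw [Finset.prod_ite, Finset.prod_const_one, one_mul, Finset.prod_const]
      apply Nat.pow_le_pow_right (by norm_num)
      have := Finset.card_filter_add_card_filter_not (s := (univ : Finset (Fin (2048 * s))))
        (fun e => vio (b e) (fun j => z (ν e j)))
      rw [Finset.card_univ, Fintype.card_fin] at this
      omega
    · exact Finset.sum_le_sum_of_subset (Finset.subset_univ _)
  have h2 : (univ : Finset (Fin (2048 * s) → Bool)) ⊆ univ.biUnion bad := by
    intro b _
    obtain ⟨z, hz⟩ := hcon b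
    rw [Finset.mem_biUnion]
    refine ⟨z, Finset.mem_univ _, ?_⟩
    simp only [bad, Finset.mem_filter, Finset.mem_univ, true_and]
    exact hz
  have h3 := (Finset.card_le_card h2).trans Finset.card_biUnion_le
  rw [Finset.card_univ, Fintype.card_fun, Fintype.card_fin, Fintype.card_bool] at h3
  have h4 : 2 ^ (2048 * s) * 16 ^ (1920 * s) ≤ 2 ^ (1024 * s) * 17 ^ (2048 * s) := by
    calc 2 ^ (2048 * s) * 16 ^ (1920 * s) ≤ (∑ z, (bad z).card) * 16 ^ (1920 * s) :=
          Nat.mul_le_mul_right _ h3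
      _ = ∑ z, (bad z).card * 16 ^ (1920 * s) := by rw [Finset.sum_mul]
      _ ≤ ∑ _z : Fin (1024 * s) → Bool, 17 ^ (2048 * s) := Finset.sum_le_sum (fun z _ => h1 z)
      _ = 2 ^ (1024 * s) * 17 ^ (2048 * s) := by
          rw [Finset.sum_const, Finset.card_univ, Fintype.card_fun, Fintype.card_fin,
            Fintype.card_bool, smul_eq_mul]
  have h5 : 2 ^ (1024 * s) * 17 ^ (2048 * s) < 2 ^ (2048 * s) * 16 ^ (1920 * s) := by
    have e1 : 2 ^ (2048 * s) * 16 ^ (1920 * s) = 2 ^ (1024 * s) * (2 ^ 68) ^ (128 * s) := by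
      rw [show (16 : ℕ) = 2 ^ 4 by norm_num, ← pow_mul, ← pow_mul, ← pow_add, ← pow_add]
      congr 1
      ring
    have e2 : 17 ^ (2048 * s) = (17 ^ 16) ^ (128 * s) := by
      rw [← pow_mul]
      congr 1
      ring
    rw [e1, e2]
    apply Nat.mul_lt_mul_of_pos_left _ (by positivity)
    exact Nat.pow_lt_pow_left (by norm_num) (by omega)
  omega

section

variable {m n q : ℕ}

/-- unsatisfiable formulas -/
def apos (q : ℕ) (ν : Fin m → Fin 8 → Fin n) (b : Fin m → Bool)
    (p : (Fin n → Fin q) × (Fin n → Bool)) (ω : Om m q) : Bool :=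
  decide (vio (b ω.1) (fun j => xor (ω.2.2 j) (p.2 (ν ω.1 j))) ∧
    ∀ j, p.1 (ν ω.1 j) = ω.2.1 j)

/-- satisfiable formulas -/
def bneg (q : ℕ) (ν : Fin m → Fin 8 → Fin n) (y : Fin n → Fin q → Bool) (ω : Om m q) : Bool :=
  !(decide (∀ j, y (ν ω.1 j) (ω.2.1 j) = ω.2.2 j))

lemma bneg_sat (ν : Fin m → Fin 8 → Fin n) (y : Fin n → Fin q → Bool) :
    ¬ fcnf q ν (bneg q ν y) := by
  intro hy
  obtain ⟨ω, h1, h3⟩ := hy y
  simp [bneg, h3] at h1

lemma apos_far (ν : Fin m → Fin 8 → Fin n) (b : Fin m → Bool) (d : ℕ)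
    (hb : ∀ z : Fin n → Bool, d ≤ (univ.filter (fun e => vio (b e) (fun j => z (ν e j)))).card)
    (p : (Fin n → Fin q) × (Fin n → Bool)) (a : Fin n → Fin q → Bool) :
    d ≤ (univ.filter (fun ω : Om m q => apos q ν b p ω = true ∧
      ∀ j, a (ν ω.1 j) (ω.2.1 j) = ω.2.2 j)).card := by
  classical
  refine (hb (fun v => xor (a v (p.1 v)) (p.2 v))).trans ?_
  refine Finset.card_le_card_of_injOn (fun e => (e, (fun j => p.1 (ν e j)),
    fun j => a (ν e j) (p.1 (ν e j)))) ?_ ?_
  · intro e he
    simp only [Finset.coe_filter, Finset.mem_univ, true_and, Set.mem_ofPred_eq] at he ⊢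
    refine ⟨?_, fun j => trivial⟩
    unfold apos
    rw [decide_eq_true_eq]
    exact ⟨he, fun j => rfl⟩
  · intro e _ e' _ h
    exact (Prod.mk.inj h).1

end

/-- average-case hardness -/
def AHard (K : Type) [Field K] (s : ℕ) {Ω P N : Type} [Fintype P] [Fintype N]
    (α : P → Ω → Bool) (β : N → Ω → Bool) : Prop :=
  ∀ (I : Type) (n : ℕ) (g : (I → Bool) → Bool), RBall K n g → ∀ ζ : (Ω → Bool) → I → Bool,
    (∀ i, (∃ c, ∀ z, ζ z i = c) ∨ ∃ ω, ∀ z, ζ z i = z ω) →
    2 ^ s * ((univ.filter (fun p => g (ζ (α p)) = true)).card * Fintype.card N) ≤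
      2 ^ s * ((univ.filter (fun y => g (ζ (β y)) = true)).card * Fintype.card P) +
        n * (Fintype.card P * Fintype.card N)

/-- the hard distributions -/
theorem ahard (u q s : ℕ) (hu : u = 1025) (hq : q = 2 ^ u) (hs : 0 < s) :
    ∃ (ν : Fin (2048 * s) → Fin 8 → Fin (1024 * s)) (b : Fin (2048 * s) → Bool),
      (∀ (p : (Fin (1024 * s) → Fin q) × (Fin (1024 * s) → Bool))
        (a : Fin (1024 * s) → Fin q → Bool), 128 * s ≤ (univ.filter (fun ω : Om (2048 * s) q =>
          apos q ν b p ω = true ∧ ∀ j, a (ν ω.1 j) (ω.2.1 j) = ω.2.2 j)).card) ∧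
      ∀ (K : Type) [Field K], (2 : K) ≠ 0 → AHard K s (apos q ν b) (bneg q ν) := by
  classical
  have hq0 : 0 < q := by rw [hq]; positivity
  have : NeZero q := ⟨hq0.ne'⟩
  obtain ⟨ν, hν⟩ := exists_expander s (2048 * s) (1024 * s) le_rfl (by omega) (by omega)
  obtain ⟨b, hb⟩ := exists_rhs_far s hs ν
  refine ⟨ν, b, fun p a => apos_far ν b _ hb p a, fun K _ h2 => ?_⟩
  have hrank := ym_rank (K := K) (q := q) h2 s ν b (by
    intro T hT hev
    by_contra hne
    have hpos : 0 < T.card := Finset.card_pos.mpr (Finset.nonempty_iff_ne_empty.mpr hne)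
    have h1 := hν T hpos hT
    have h3 := evs_card ν T
    rw [hev, Finset.card_univ] at h3
    omega)
  rw [Fintype.card_fin] at hrank
  have hev : ∀ T : Finset (Fin (2048 * s)), T.card = s → (evs ν T).card ≤ 1022 * s - 2 := by
    intro T hT
    have h1 := hν T (by omega) (by omega)
    have h3 := evs_card ν T
    rw [Fintype.card_fin] at h3
    omega
  have hviol := fun (e : Fin (2048 * s)) U W h => ym_viol (K := K) (q := q) s (1022 * s - 2)
    ν b hev hq0 e U W h
  rw [Fintype.card_fin] at hviol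
  obtain ⟨r, hr⟩ : ∃ r, r = 2 ^ (2048 * s) * q ^ (1022 * s - 2) := ⟨_, rfl⟩
  rw [← hr] at hviol
  have hr0 : 0 < r := by rw [hr]; positivity
  have hbig : 2 ^ s * r ≤ (ym K q s ν b).rank := by
    refine le_trans ?_ hrank
    rw [hr, hq]
    rw [← pow_mul, ← pow_mul, ← pow_add, ← pow_add]
    apply Nat.pow_le_pow_right (by norm_num)
    rw [hu]
    omega
  intro I t g hg ζ hζ
  have h5 := hg _ _ (ym K q s ν b) (Om (2048 * s) q → Bool) (apos q ν b) (bneg q ν) r ζ (by
    intro i
    rcases hζ i with ⟨c, hc⟩ | ⟨ω, hω⟩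
    · simp only [hc]
      exact (RB.const c).weak (by norm_num)
    · simp only [hω]
      apply RB.single
      apply hviol ω.1
      intro p y hp hy
      simp only [apos, decide_eq_true_eq] at hp
      simp only [bneg, Bool.not_not, decide_eq_true_eq] at hy
      have h6 := vio_sg (K := K) (b ω.1) _ hp.1
      have h7 : ∀ j, ssel p y (ν ω.1 j) = xor (ω.2.2 j) (p.2 (ν ω.1 j)) := by
        intro j
        unfold ssel
        rw [hp.2 j, hy j]
      simp only [h7]
      exact h6)
  have h6 := h5 (fun p => g (ζ (apos q ν b p))) (fun y => !(g (ζ (bneg q ν y)))) (fun x hx => hx)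
    (fun y hy => by simpa using hy)
  have h7 := ym_robust (K := K) (q := q) s ν b (fun p => g (ζ (apos q ν b p)))
    (fun y => !(g (ζ (bneg q ν y))))
  have h8 := Finset.card_filter_add_card_filter_not
    (s := (univ : Finset (Fin (1024 * s) → Fin q → Bool)))
    (fun y => g (ζ (bneg q ν y)) = true)
  rw [Finset.card_univ] at h8
  have h9 : (univ.filter (fun y : Fin (1024 * s) → Fin q → Bool =>
      (!(g (ζ (bneg q ν y)))) = true)).card =
      (univ.filter (fun y => ¬ g (ζ (bneg q ν y)) = true)).card := by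
    congr 1
    ext y
    simp
  rw [h9] at h7
  clear h9 h5 hviol
  set a := (univ.filter (fun p => g (ζ (apos q ν b p)) = true)).card
  set w := (univ.filter (fun y => g (ζ (bneg q ν y)) = true)).card
  set w' := (univ.filter (fun y => ¬ g (ζ (bneg q ν y)) = true)).card
  set D := (ym K q s ν b).rank
  set P := Fintype.card ((Fin (1024 * s) → Fin q) × (Fin (1024 * s) → Bool))
  set N := Fintype.card (Fin (1024 * s) → Fin q → Bool)
  set R := (msk (ym K q s ν b) (fun p => g (ζ (apos q ν b p)))
    (fun y => !(g (ζ (bneg q ν y))))).rank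
  have k1 : a * N * D ≤ w * P * D + P * N * (t * r) := by
    have e1 : (a * N + w' * P) * D = a * N * D + w' * P * D := by ring
    have e2 : P * N * (D + R) = w * P * D + w' * P * D + P * N * R := by
      rw [← h8]; ring
    have e3 : P * N * R ≤ P * N * (t * r) := Nat.mul_le_mul_left _ h6
    rw [e1, e2] at h7
    omega
  rcases Nat.le_total (a * N) (w * P) with hle | hle
  · exact (Nat.mul_le_mul_left _ hle).trans (Nat.le_add_right _ _)
  · obtain ⟨x, hx⟩ := Nat.exists_eq_add_of_le hle
    rw [hx]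
    rw [hx] at k1
    have k2 : x * D ≤ P * N * (t * r) := by
      have : (w * P + x) * D = w * P * D + x * D := by ring
      omega
    have k3 : x * (2 ^ s * r) ≤ P * N * (t * r) := (Nat.mul_le_mul_left _ hbig).trans k2
    have k4 : (x * 2 ^ s) * r ≤ (P * N * t) * r := by
      calc (x * 2 ^ s) * r = x * (2 ^ s * r) := by ring
        _ ≤ P * N * (t * r) := k3
        _ = _ := by ring
    have k5 := Nat.le_of_mul_le_mul_right k4 hr0
    calc 2 ^ s * (w * P + x) = 2 ^ s * (w * P) + x * 2 ^ s := by ring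
      _ ≤ 2 ^ s * (w * P) + P * N * t := Nat.add_le_add_left k5 _
      _ = _ := by ring

end Pool.Agent.H560R2
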