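import Pool.Agent.H560R2.Rob3
import Pool.Agent.H560R2.Av3

/-! The chain argument on average, for blocks of small rank measure. -/

set_option linter.unusedSectionVars false
set_option linter.unusedVariables false

namespace Pool.Agent.H560R2

open Finset

section

variable {I Ω P N : Type} {M : ℕ}

/-- the state of the chain -/
def stB (β : N → Ω → Bool) (y : Fin M → N) (i : ℕ) : Fin M → Ω → Bool :=
  fun j => if j.val < i then β (y j) else fun _ => false

lemma stB_mono (loc : I → Option (Fin M × Ω)) (β : N → Ω → Bool) (y : Fin M → N) (i : ℕ) :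
    fil loc (stB β y i) ≤ fil loc (stB β y (i + 1)) := by
  intro l
  unfold fil
  rcases loc l with _ | p
  · exact le_rfl
  · simp only [stB]
    by_cases h : p.1.val < i
    · rw [if_pos h, if_pos (by omega)]
    · rw [if_neg h]
      exact Bool.false_le _

lemma stB_self (β : N → Ω → Bool) (y : Fin M → N) (i : Fin M) : stB β y i i = fun _ => false := by
  simp [stB]

lemma stB_update (β : N → Ω → Bool) (y : Fin M → N) (i : Fin M) (ω : N) :
    stB β (Function.update y i ω) i = stB β y i := by
  funext j
  simp only [stB]
  by_cases h : j.val < i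
  · rw [if_pos h, if_pos h]
    have : j ≠ i := by rintro rfl; omega
    rw [Function.update_of_ne this]
  · rw [if_neg h, if_neg h]

lemma stB_succ (β : N → Ω → Bool) (y : Fin M → N) (i : Fin M) (ω : N) :
    stB β (Function.update y i ω) (i + 1) = Function.update (stB β y i) i (β ω) := by
  funext j
  by_cases hj : j = i
  · subst hj
    rw [Function.update_self]
    simp [stB]
  · rw [Function.update_of_ne hj]
    have : (j : ℕ) ≠ i := fun h => hj (Fin.ext h)
    simp only [stB, Function.update_of_ne hj]
    by_cases h : j.val < i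
    · rw [if_pos h, if_pos (by omega)]
    · rw [if_neg h, if_neg (by omega)]

open Classical in
/-- The chain argument on average. -/
theorem rchainB [Fintype P] [Fintype N] [Nonempty N] {K : Type} [Field K] {s : ℕ}
    {α : P → Ω → Bool} {β : N → Ω → Bool} (hA : AHard K s α β)
    (loc : I → Option (Fin M × Ω)) {π : Type} (pr : (I → Bool) → π) (κ S : ℕ)
    (hκ : ∀ x : ℕ → I → Bool, (∀ i < M, x i ≤ x (i + 1)) →
      ((Finset.range M).filter (fun i => pr (x i) ≠ pr (x (i + 1)))).card ≤ κ)
    (out : (I → Bool) → Bool)
    (hg : ∀ x0, ∃ g, RBall K S g ∧ ∀ x, x0 ≤ x → (g x = true ↔ (pr x ≠ pr x0 ∨ out x = true))) :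
    (2 ^ s : ℚ) * ∑ i : Fin M, ∑ y : Fin M → N, ((univ.filter (fun p : P =>
        out (fil loc (Function.update (stB β y i) i (α p))) = true)).card : ℚ) ≤
      2 ^ s * (∑ i : Fin M, ((univ.filter (fun y : Fin M → N =>
        out (fil loc (stB β y (i + 1))) = true)).card : ℚ)) * Fintype.card P +
      (2 ^ s * κ + M * S) * ((Fintype.card (Fin M → N) : ℚ) * Fintype.card P) := by
  set Nn : ℚ := (Fintype.card N : ℚ) with hN
  set Pp : ℚ := (Fintype.card P : ℚ) with hP
  have hNpos : 0 < Nn := by
    rw [hN]
    exact_mod_cast Fintype.card_pos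
  have hP0 : 0 ≤ Pp := by rw [hP]; exact Nat.cast_nonneg _
  have h2s : (0 : ℚ) < 2 ^ s := by positivity
  let E : (Fin M → Ω → Bool) → I → Bool := fil loc
  let b : Fin M → (Fin M → N) → ℚ := fun i y => ((univ.filter (fun p : P =>
    out (E (Function.update (stB β y i) i (α p))) = true)).card : ℚ)
  let a : Fin M → (Fin M → N) → ℚ := fun i y => if out (E (stB β y (i + 1))) = true then 1 else 0
  let ch : Fin M → (Fin M → N) → ℚ := fun i y =>
    if pr (E (stB β y i)) ≠ pr (E (stB β y (i + 1))) then 1 else 0
  have hstep : ∀ i y, 2 ^ s * (b i y * Nn) ≤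
      2 ^ s * ((∑ ω : N, (a i (Function.update y i ω) + ch i (Function.update y i ω))) * Pp) +
        S * (Pp * Nn) := by
    intro i y
    have hle : ∀ X, E (stB β y i) ≤ E (Function.update (stB β y i) i X) := fun X =>
      fil_le loc (stB β y i) i X (stB_self β y i)
    obtain ⟨G, hG, hGx⟩ := hg (E (stB β y i))
    have h1 := hA I S G hG (fun X => E (Function.update (stB β y i) i X))
      (fil_coord loc (stB β y i) i)
    have h1' : (2 ^ s : ℚ) * (((univ.filter (fun p =>
        G (E (Function.update (stB β y i) i (α p))) = true)).card : ℚ) * Nn) ≤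
        2 ^ s * (((univ.filter (fun ω =>
        G (E (Function.update (stB β y i) i (β ω))) = true)).card : ℚ) * Pp) + S * (Pp * Nn) := by
      rw [hN, hP]
      exact_mod_cast h1
    have hb : b i y ≤ ((univ.filter (fun p =>
        G (E (Function.update (stB β y i) i (α p))) = true)).card : ℚ) := by
      simp only [b]
      have : (univ.filter (fun p : P => out (E (Function.update (stB β y i) i (α p))) = true)) ⊆
          (univ.filter (fun p => G (E (Function.update (stB β y i) i (α p))) = true)) := by
        intro p hp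
        rw [Finset.mem_filter] at hp ⊢
        exact ⟨mem_univ _, (hGx _ (hle _)).mpr (Or.inr hp.2)⟩
      exact_mod_cast Finset.card_le_card this
    have hw : ((univ.filter (fun ω =>
        G (E (Function.update (stB β y i) i (β ω))) = true)).card : ℚ) ≤
        ∑ ω : N, (a i (Function.update y i ω) + ch i (Function.update y i ω)) := by
      rw [Finset.card_filter]
      push_cast
      apply Finset.sum_le_sum
      intro ω _
      have ha0 : (0 : ℚ) ≤ a i (Function.update y i ω) := by
        simp only [a]; split_ifs <;> norm_num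
      have hc0 : (0 : ℚ) ≤ ch i (Function.update y i ω) := by
        simp only [ch]; split_ifs <;> norm_num
      by_cases hgω : G (E (Function.update (stB β y i) i (β ω))) = true
      · rw [if_pos hgω]
        rcases (hGx _ (hle _)).mp hgω with h | h
        · have : ch i (Function.update y i ω) = 1 := by
            simp only [ch]
            rw [if_pos]
            rw [stB_update, stB_succ]
            exact fun h' => h h'.symm
          rw [this]
          linarith
        · have : a i (Function.update y i ω) = 1 := by
            simp only [a]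
            rw [if_pos]
            rw [stB_succ]
            exact h
          rw [this]
          linarith
      · rw [if_neg hgω]
        linarith
    calc (2 : ℚ) ^ s * (b i y * Nn) ≤ 2 ^ s * (((univ.filter (fun p =>
          G (E (Function.update (stB β y i) i (α p))) = true)).card : ℚ) * Nn) :=
          mul_le_mul_of_nonneg_left (mul_le_mul_of_nonneg_right hb hNpos.le) h2s.le
      _ ≤ _ := h1'
      _ ≤ _ := by
          have h2 := mul_le_mul_of_nonneg_left (mul_le_mul_of_nonneg_right hw hP0) h2s.le
          linarith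
  have hsum : ∀ i, 2 ^ s * (∑ y, b i y) ≤
      2 ^ s * ((∑ y, (a i y + ch i y)) * Pp) + S * ((Fintype.card (Fin M → N) : ℚ) * Pp) := by
    intro i
    have h1 : 2 ^ s * ((∑ y, b i y) * Nn) ≤
        2 ^ s * ((∑ y, ∑ ω : N, (a i (Function.update y i ω) + ch i (Function.update y i ω))) * Pp) +
          Fintype.card (Fin M → N) * (S * (Pp * Nn)) := by
      have : (Fintype.card (Fin M → N) : ℚ) * (S * (Pp * Nn)) =
          ∑ _y : Fin M → N, S * (Pp * Nn) := by
        rw [Finset.sum_const, Finset.card_univ, nsmul_eq_mul]
      rw [this, Finset.sum_mul, Finset.mul_sum, Finset.sum_mul, Finset.mul_sum,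
        ← Finset.sum_add_distrib]
      exact Finset.sum_le_sum (fun y _ => hstep i y)
    rw [sum_update i (fun y => a i y + ch i y)] at h1
    refine le_of_mul_le_mul_right ?_ hNpos
    calc 2 ^ s * (∑ y, b i y) * Nn = 2 ^ s * ((∑ y, b i y) * Nn) := by ring
      _ ≤ _ := h1
      _ = _ := by rw [← hN]; ring
  have hall : 2 ^ s * (∑ i, ∑ y, b i y) ≤
      2 ^ s * ((∑ i, ∑ y, a i y) * Pp) + 2 ^ s * ((∑ i, ∑ y, ch i y) * Pp) +
        M * (S * ((Fintype.card (Fin M → N) : ℚ) * Pp)) := by
    rw [Finset.mul_sum]
    refine (Finset.sum_le_sum (fun i _ => hsum i)).trans (le_of_eq ?_)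
    rw [Finset.sum_add_distrib, Finset.sum_const, Finset.card_univ, Fintype.card_fin, nsmul_eq_mul]
    congr 1
    rw [← mul_add, ← add_mul, ← Finset.sum_add_distrib, ← Finset.mul_sum, ← Finset.sum_mul]
    congr 3
    funext i
    rw [Finset.sum_add_distrib]
  have hch : (∑ i, ∑ y, ch i y) ≤ Fintype.card (Fin M → N) * (κ : ℚ) := by
    rw [Finset.sum_comm]
    have h1 : ∀ y : Fin M → N, ∑ i, ch i y ≤ (κ : ℚ) := by
      intro y
      have h2 := hκ (fun i => E (stB β y i)) (fun i _ => stB_mono loc β y i)
      have h3 : ∑ i : Fin M, ch i y = (((Finset.range M).filter (fun i =>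
          pr (E (stB β y i)) ≠ pr (E (stB β y (i + 1))))).card : ℚ) := by
        rw [Finset.card_filter, Finset.sum_range]
        push_cast
        rfl
      rw [h3]
      exact_mod_cast h2
    calc ∑ y, ∑ i, ch i y ≤ ∑ _y : Fin M → N, (κ : ℚ) :=
          Finset.sum_le_sum (fun y _ => h1 y)
      _ = _ := by rw [Finset.sum_const, Finset.card_univ, nsmul_eq_mul]
  have ha : (∑ i, ∑ y, a i y) = ∑ i : Fin M, ((univ.filter (fun y : Fin M → N =>
      out (E (stB β y (i + 1))) = true)).card : ℚ) := by
    apply Finset.sum_congr rfl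
    intro i _
    rw [Finset.card_filter]
    push_cast
    rfl
  rw [ha] at hall
  have h9 := mul_le_mul_of_nonneg_left (mul_le_mul_of_nonneg_right hch hP0) h2s.le
  calc _ ≤ _ := hall
    _ ≤ 2 ^ s * ((∑ i : Fin M, ((univ.filter (fun y : Fin M → N =>
      out (E (stB β y (i + 1))) = true)).card : ℚ)) * Pp) +
        2 ^ s * ((Fintype.card (Fin M → N) * (κ : ℚ)) * Pp) +
        M * (S * ((Fintype.card (Fin M → N) : ℚ) * Pp)) := by linarith
    _ = _ := by ring

end

end Pool.Agent.H560R2
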