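import Pool.Agent.H560R2.Rob4

/-! Algorithms with few non-monotone parts against the hard distributions. -/

set_option linter.unusedSectionVars false
set_option linter.unusedVariables false

namespace Pool.Agent.H560R2

open Finset

section

variable {I Ω P N : Type} {M : ℕ}

/-- far formulas -/
def farD (loc : I → Option (Fin M × Ω)) (α : P → Ω → Bool) (β : N → Ω → Bool)
    (l : Fin M × (Fin M → N) × P) : I → Bool :=
  fil loc (Function.update (stB β l.2.1 l.1) l.1 (α l.2.2))

/-- satisfiable formulas -/
def satD (loc : I → Option (Fin M × Ω)) (β : N → Ω → Bool)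
    (l : Fin M × (Fin M → N) × P) : I → Bool :=
  fil loc (stB β l.2.1 (l.1 + 1))

/-- small advantage -/
def Adv (M s κ S : ℕ) {Λ : Type} [Fintype Λ] (far sat : Λ → I → Bool)
    (out : (I → Bool) → Bool) : Prop :=
  M * 2 ^ s * (univ.filter (fun l => out (far l) = true)).card ≤
    M * 2 ^ s * (univ.filter (fun l => out (sat l) = true)).card +
      (2 ^ s * κ + M * S) * Fintype.card Λ

theorem adv_chain [Fintype P] [Fintype N] [Nonempty N] {K : Type} [Field K] {s : ℕ}
    {α : P → Ω → Bool} {β : N → Ω → Bool} (hA : AHard K s α β)
    (loc : I → Option (Fin M × Ω)) {π : Type} (pr : (I → Bool) → π) (κ S : ℕ)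
    (hκ : ∀ x : ℕ → I → Bool, (∀ i < M, x i ≤ x (i + 1)) → ∀ J : Finset ℕ,
      (∀ i ∈ J, i < M ∧ pr (x i) ≠ pr (x (i + 1))) → J.card ≤ κ)
    (out : (I → Bool) → Bool)
    (hg : ∀ x0, ∃ g, RBall K S g ∧ ∀ x, x0 ≤ x → (g x = true ↔ (pr x ≠ pr x0 ∨ out x = true))) :
    Adv M s κ S (farD loc α β) (satD (P := P) loc β) out := by
  classical
  have h := rchainB hA loc pr κ S (fun x hx => hκ x hx _ (fun i hi => by
    rw [Finset.mem_filter, Finset.mem_range] at hi
    exact hi)) out hg
  have e1 : (((univ.filter (fun l => out (farD loc α β l) = true)).card : ℕ) : ℚ) =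
      ∑ i : Fin M, ∑ y : Fin M → N, ((univ.filter (fun p : P =>
        out (fil loc (Function.update (stB β y i) i (α p))) = true)).card : ℚ) := by
    rw [Finset.card_filter]
    push_cast
    rw [Fintype.sum_prod_type]
    apply Finset.sum_congr rfl
    intro i _
    rw [Fintype.sum_prod_type]
    apply Finset.sum_congr rfl
    intro y _
    rw [Finset.card_filter]
    push_cast
    rfl
  have e2 : (((univ.filter (fun l => out (satD (P := P) loc β l) = true)).card : ℕ) : ℚ) =
      (∑ i : Fin M, ((univ.filter (fun y : Fin M → N =>
        out (fil loc (stB β y (i + 1))) = true)).card : ℚ)) * Fintype.card P := by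
    rw [Finset.card_filter]
    push_cast
    rw [Fintype.sum_prod_type, Finset.sum_mul]
    apply Finset.sum_congr rfl
    intro i _
    rw [Fintype.sum_prod_type, Finset.card_filter]
    push_cast
    rw [Finset.sum_mul]
    apply Finset.sum_congr rfl
    intro y _
    have : ∀ p : P, satD loc β (i, y, p) = fil loc (stB β y (i + 1)) := fun _ => rfl
    simp only [this]
    rw [Finset.sum_const, Finset.card_univ, nsmul_eq_mul, mul_comm]
  have e3 : (Fintype.card (Fin M × (Fin M → N) × P) : ℚ) =
      M * (Fintype.card (Fin M → N) * Fintype.card P) := by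
    rw [Fintype.card_prod, Fintype.card_prod, Fintype.card_fin]
    push_cast
    ring
  have goal : (M : ℚ) * 2 ^ s *
      (((univ.filter (fun l => out (farD loc α β l) = true)).card : ℕ) : ℚ) ≤
      M * 2 ^ s * (((univ.filter (fun l => out (satD (P := P) loc β l) = true)).card : ℕ) : ℚ) +
      (2 ^ s * κ + M * S) * (Fintype.card (Fin M × (Fin M → N) × P) : ℚ) := by
    rw [e1, e2, e3]
    have hM : (0 : ℚ) ≤ M := Nat.cast_nonneg _
    have := mul_le_mul_of_nonneg_left h hM
    linarith
  unfold Adv
  exact_mod_cast goal

/-- monotone functions -/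
theorem adv_mono [Fintype P] [Fintype N] [Nonempty N] {K : Type} [Field K] {s : ℕ}
    {α : P → Ω → Bool} {β : N → Ω → Bool} (hA : AHard K s α β)
    (loc : I → Option (Fin M × Ω)) (S : ℕ) (out : (I → Bool) → Bool) (h : RBall K S out) :
    Adv M s 0 S (farD loc α β) (satD (P := P) loc β) out :=
  adv_chain hA loc (fun _ => ()) 0 S (fun x _ J hJ => by
    rw [Nat.le_zero, Finset.card_eq_zero, Finset.eq_empty_iff_forall_notMem]
    intro i hi
    exact (hJ i hi).2 rfl) out (fun x0 => ⟨out, h, fun x _ => by simp⟩)

lemma changes_of_rank {π : Type} (pr : (I → Bool) → π) (rk : (I → Bool) → ℕ) (κ : ℕ)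
    (h1 : ∀ x x' : I → Bool, x ≤ x' → rk x ≤ rk x')
    (h2 : ∀ x x' : I → Bool, x ≤ x' → pr x ≠ pr x' → rk x < rk x') (h3 : ∀ x, rk x ≤ κ)
    (x : ℕ → I → Bool) (hx : ∀ i < M, x i ≤ x (i + 1)) (J : Finset ℕ)
    (hJ : ∀ i ∈ J, i < M ∧ pr (x i) ≠ pr (x (i + 1))) : J.card ≤ κ := by
  classical
  have key : ∀ k ≤ M, (J.filter (fun i => i < k)).card ≤ rk (x k) := by
    intro k
    induction k with
    | zero => intro _; simp
    | succ k ih =>
      intro hk
      have ih' := ih (by omega)
      have hs : J.filter (fun i => i < k + 1) ⊆
          (if k ∈ J then insert k (J.filter (fun i => i < k)) else J.filter (fun i => i < k)) := by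
        intro i hi
        rw [Finset.mem_filter] at hi
        by_cases hik : i = k
        · subst hik
          rw [if_pos hi.1]
          exact Finset.mem_insert_self _ _
        · split_ifs
          · exact Finset.mem_insert_of_mem (Finset.mem_filter.mpr ⟨hi.1, by omega⟩)
          · exact Finset.mem_filter.mpr ⟨hi.1, by omega⟩
      refine (Finset.card_le_card hs).trans ?_
      by_cases hkJ : k ∈ J
      · rw [if_pos hkJ]
        have := h2 _ _ (hx k (by omega)) (hJ k hkJ).2
        exact (Finset.card_insert_le _ _).trans (by omega)
      · rw [if_neg hkJ]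
        exact ih'.trans (h1 _ _ (hx k (by omega)))
  have h5 : J.filter (fun i => i < M) = J := Finset.filter_true_of_mem (fun i hi => (hJ i hi).1)
  have := key M le_rfl
  rw [h5] at this
  exact this.trans (h3 _)

/-- functions of few functions that are monotone when few bits are fixed -/
theorem adv_pieces [DecidableEq I] [Fintype P] [Fintype N] [Nonempty N] {K : Type} [Field K]
    {s : ℕ} {α : P → Ω → Bool} {β : N → Ω → Bool} (hA : AHard K s α β)
    (loc : I → Option (Fin M × Ω)) (Z : Finset I) (L : List (ℕ × ((I → Bool) → Bool)))
    (hL : ∀ x0 : I → Bool, ∀ p ∈ L, ∃ f : (I → Bool) → Bool, RBall K p.1 f ∧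
      (∀ x x' : I → Bool, x ≤ x' → f x ≤ f x') ∧
      ∀ x, (∀ i ∈ Z, x i = x0 i) → f x = p.2 x)
    (out : (I → Bool) → Bool)
    (hdet : ∀ x x' : I → Bool, (∀ i ∈ Z, x i = x' i) → (∀ p ∈ L, p.2 x = p.2 x') →
      out x = out x') :
    Adv M s ((L.length + 1) * (Z.card + 1) - 1) (Z.card + (L.map Prod.fst).sum)
      (farD loc α β) (satD (P := P) loc β) out := by
  classical
  let pr : (I → Bool) → ((i : {i // i ∈ Z}) → Bool) × List Bool := fun x =>
    (fun i => x i.1, L.map (fun p => p.2 x))
  have hpr : ∀ x x', pr x = pr x' ↔ (∀ i ∈ Z, x i = x' i) ∧ ∀ p ∈ L, p.2 x = p.2 x' := by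
    intro x x'
    simp only [pr, Prod.mk.injEq, List.map_inj_left]
    constructor
    · rintro ⟨h1, h2⟩
      exact ⟨fun i hi => congrFun h1 ⟨i, hi⟩, h2⟩
    · rintro ⟨h1, h2⟩
      exact ⟨funext fun i => h1 i.1 i.2, h2⟩
  -- monotonicity when `Z` is fixed
  have hmono : ∀ x x' : I → Bool, x ≤ x' → (∀ i ∈ Z, x i = x' i) → ∀ p ∈ L,
      p.2 x = true → p.2 x' = true := by
    intro x x' hx hZ p hp hpx
    obtain ⟨f, -, hf1, hf2⟩ := hL x p hp
    have e1 := hf2 x (fun _ _ => rfl)
    have e2 := hf2 x' (fun i hi => (hZ i hi).symm)
    have := hf1 x x' hx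
    rw [e1, e2, hpx] at this
    exact top_le_iff.mp this
  let rk : (I → Bool) → ℕ := fun x => (Z.filter (fun i => x i = true)).card * (L.length + 1) +
    L.countP (fun p => p.2 x)
  have hcnt : ∀ x, L.countP (fun p => p.2 x) ≤ L.length := fun x => List.countP_le_length
  have hZcase : ∀ x x' : I → Bool, x ≤ x' → (∃ i ∈ Z, x i ≠ x' i) → rk x < rk x' := by
    intro x x' hx hne
    obtain ⟨i, hi, hne⟩ := hne
    have h1 : (Z.filter (fun i => x i = true)).card < (Z.filter (fun i => x' i = true)).card := by
      apply Finset.card_lt_card
      rw [Finset.ssubset_iff_of_subset]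
      · have hi0 : x i = false := by
          by_contra hc
          rw [Bool.not_eq_false] at hc
          have := hx i
          rw [hc] at this hne
          exact hne (top_le_iff.mp this).symm
        have hi1 : x' i = true := by
          rw [hi0] at hne
          simpa using hne.symm
        exact ⟨i, Finset.mem_filter.mpr ⟨hi, hi1⟩, fun h => by
          rw [Finset.mem_filter, hi0] at h
          exact absurd h.2 (by simp)⟩
      · intro j hj
        rw [Finset.mem_filter] at hj ⊢
        refine ⟨hj.1, ?_⟩
        have := hx j
        rw [hj.2] at this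
        exact top_le_iff.mp this
    have h2 := hcnt x
    have h3 : ((Z.filter (fun i => x i = true)).card + 1) * (L.length + 1) ≤
        (Z.filter (fun i => x' i = true)).card * (L.length + 1) := Nat.mul_le_mul_right _ h1
    simp only [rk]
    have h4 : ((Z.filter (fun i => x i = true)).card + 1) * (L.length + 1) =
        (Z.filter (fun i => x i = true)).card * (L.length + 1) + (L.length + 1) := by ring
    omega
  have hZeq : ∀ x x' : I → Bool, (∀ i ∈ Z, x i = x' i) →
      (Z.filter (fun i => x i = true)) = (Z.filter (fun i => x' i = true)) := by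
    intro x x' h
    apply Finset.filter_congr
    intro i hi
    rw [h i hi]
  refine adv_chain hA loc pr _ _ (fun x hx J hJ => changes_of_rank pr rk _ ?_ ?_ ?_ x hx J hJ)
    out ?_
  · intro x x' hx
    by_cases hZ : ∀ i ∈ Z, x i = x' i
    · simp only [rk, hZeq x x' hZ]
      exact Nat.add_le_add_left (List.countP_mono_left (fun p hp => hmono x x' hx hZ p hp)) _
    · push Not at hZ
      exact (hZcase x x' hx hZ).le
  · intro x x' hx hne
    by_cases hZ : ∀ i ∈ Z, x i = x' i
    · rw [Ne, hpr, not_and] at hne
      have := hne hZ
      push Not at this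
      have h5 := countP_lt L (fun p => p.2 x) (fun p => p.2 x')
        (fun p hp => hmono x x' hx hZ p hp) this
      simp only [rk, hZeq x x' hZ]
      omega
    · push Not at hZ
      exact hZcase x x' hx hZ
  · intro x
    have h1 : (Z.filter (fun i => x i = true)).card ≤ Z.card := Finset.card_filter_le _ _
    have h2 := hcnt x
    have h3 := Nat.mul_le_mul_right (L.length + 1) h1
    simp only [rk]
    have h4 : (L.length + 1) * (Z.card + 1) = Z.card * (L.length + 1) + (L.length + 1) := by ring
    omega
  · intro x0
    by_cases ho : out x0 = true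
    · refine ⟨fun _ => true, (RBall.const true).weak (Nat.zero_le _), fun x hx => ?_⟩
      simp only [true_iff]
      by_cases hp : pr x = pr x0
      · right
        obtain ⟨h1, h2⟩ := (hpr _ _).mp hp
        rw [hdet x x0 h1 h2]
        exact ho
      · exact Or.inl hp
    · rw [Bool.not_eq_true] at ho
      choose! f hf1 hf2 hf3 using hL x0
      let Q1 : List (ℕ × ((I → Bool) → Bool)) :=
        ((Z.filter (fun i => x0 i = false)).toList).map (fun i => (1, fun x => x i))
      let Q2 : List (ℕ × ((I → Bool) → Bool)) :=
        (L.filter (fun p => !(p.2 x0))).map (fun p => (p.1, f p))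
      have hQ : ∀ p ∈ Q1 ++ Q2, RBall K p.1 p.2 := by
        intro p hp
        rcases List.mem_append.mp hp with hp | hp
        · obtain ⟨i, -, rfl⟩ := List.mem_map.mp hp
          exact RBall.var i
        · obtain ⟨p', hp', rfl⟩ := List.mem_map.mp hp
          exact hf1 p' (List.mem_of_mem_filter hp')
      refine ⟨_, (RBall.any (Q1 ++ Q2) hQ).weak ?_, fun x hx => ?_⟩
      · rw [List.map_append, List.sum_append]
        apply Nat.add_le_add
        · have : (Q1.map Prod.fst).sum = (Z.filter (fun i => x0 i = false)).card := by
            simp only [Q1, List.map_map]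
            have : (Prod.fst ∘ fun i => ((1 : ℕ), fun x : I → Bool => x i)) = fun _ => 1 := rfl
            rw [this, List.map_const', List.sum_replicate, Finset.length_toList, smul_eq_mul,
              mul_one]
          rw [this]
          exact Finset.card_filter_le _ _
        · have : (Q2.map Prod.fst) = (L.filter (fun p => !(p.2 x0))).map Prod.fst := by
            simp only [Q2, List.map_map]
            rfl
          rw [this]
          exact sum_filter_le L _
      · rw [List.any_eq_true]
        constructor
        · rintro ⟨p, hp, hpx⟩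
          left
          intro heq
          obtain ⟨h1, h2⟩ := (hpr _ _).mp heq
          rcases List.mem_append.mp hp with hp | hp
          · obtain ⟨i, hi, rfl⟩ := List.mem_map.mp hp
            rw [Finset.mem_toList, Finset.mem_filter] at hi
            have := h1 i hi.1
            simp only at hpx
            rw [hpx, hi.2] at this
            exact absurd this (by simp)
          · obtain ⟨p', hp', rfl⟩ := List.mem_map.mp hp
            obtain ⟨hp1, hp2⟩ := List.mem_filter.mp hp'
            simp only at hpx
            rw [hf3 p' hp1 x h1, h2 p' hp1] at hpx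
            rw [hpx] at hp2
            exact absurd hp2 (by simp)
        · intro hor
          have hne : pr x ≠ pr x0 := by
            rcases hor with h | h
            · exact h
            · intro heq
              obtain ⟨h1, h2⟩ := (hpr _ _).mp heq
              rw [hdet x x0 h1 h2, ho] at h
              exact absurd h (by simp)
          by_cases hZ : ∀ i ∈ Z, x i = x0 i
          · rw [Ne, hpr, not_and] at hne
            have := hne hZ
            push Not at this
            obtain ⟨p, hp, hpne⟩ := this
            have h0 : p.2 x0 = false := by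
              by_contra hc
              rw [Bool.not_eq_false] at hc
              have := hmono x0 x hx (fun i hi => (hZ i hi).symm) p hp hc
              rw [this, hc] at hpne
              exact hpne rfl
            have h1 : p.2 x = true := by
              rw [h0] at hpne
              simpa using hpne
            refine ⟨(p.1, f p), List.mem_append_right _ (List.mem_map.mpr ⟨p,
              List.mem_filter.mpr ⟨hp, by simp [h0]⟩, rfl⟩), ?_⟩
            simp only
            rw [hf3 p hp x hZ]
            exact h1
          · push Not at hZ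
            obtain ⟨i, hi, hne'⟩ := hZ
            have h0 : x0 i = false := by
              by_contra hc
              rw [Bool.not_eq_false] at hc
              have := hx i
              rw [hc] at this hne'
              exact hne' (top_le_iff.mp this)
            have h1 : x i = true := by
              rw [h0] at hne'
              simpa using hne'
            refine ⟨(1, fun x => x i), List.mem_append_left _ (List.mem_map.mpr ⟨i, ?_, rfl⟩), h1⟩
            rw [Finset.mem_toList]
            exact Finset.mem_filter.mpr ⟨hi, h0⟩

end

end Pool.Agent.H560R2
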