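import Pool.Agent.H560R2.Rob5

/-! Circuits, formulas and span programs against the hard distributions. -/

set_option linter.unusedSectionVars false
set_option linter.unusedVariables false

namespace Pool.Agent.H560R2

open Finset

section

variable {I : Type} {s : ℕ} {T : Finset (Fin s)} {w : Fin s → ℕ}
  {a : ∀ i, Fin (w i) → I ⊕ Fin s} {op : ∀ i, (Fin (w i) → Bool) → Bool} {dep : Fin s → ℕ}

/-- The flip lemma with depth, for all inputs above `x0`. -/
theorem flip_depth2 (hd1 : ∀ i, 1 ≤ dep i)
    (hdep : ∀ i j k, a i j = Sum.inr k → dep k < dep i)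
    (hmon : ∀ i ∉ T, w i ≤ 2 ∧ Monotone (op i)) {D : ℕ} (hD : ∀ i, dep i ≤ D)
    (val : (I → Bool) → Fin s → Bool)
    (hval : ∀ x i, val x i = op i (fun j => Sum.elim x (val x) (a i j)))
    (o : Fin s) (x0 : I → Bool) (k : ℕ) (hk : 1 + ∑ i ∈ T, w i ≤ 2 ^ k) :
    ∃ g, MD (pbase I) (D + k) g ∧ ∀ x, x0 ≤ x → (g x = true ↔
      ((∃ i ∈ T, ∃ j, Sum.elim x (val x) (a i j) ≠ Sum.elim x0 (val x0) (a i j)) ∨
        val x o = true)) := by
  classical
  set ρ := fro T w a op (fun i => val x0 i) D with hρ
  have hρeq : ∀ i x, ρ i x = if i ∈ T then val x0 i else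
      op i (fun j => Sum.elim x (fun l => ρ l x) (a i j)) := fun i x =>
    fro_eq hd1 hdep hD i x
  have hρMD : ∀ i, MD (pbase I) D (ρ i) := fun i =>
    (fro_depth hd1 hdep hmon hD (dep i) i rfl).mono (hD i)
  -- agreement
  have hagree : ∀ x, ((∀ i ∈ T, ∀ j, Sum.elim x (fun l => ρ l x) (a i j) =
      Sum.elim x0 (val x0) (a i j)) → ∀ i, ρ i x = val x i) := by
    intro x hx
    have : ∀ m i, dep i = m → ρ i x = val x i := by
      intro m
      induction m using Nat.strong_induction_on with
      | _ m ih =>
        intro i hi
        have hin : ∀ j, Sum.elim x (fun l => ρ l x) (a i j) = Sum.elim x (val x) (a i j) := by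
          intro j
          rcases hj : a i j with v | l
          · rfl
          · have := hdep i j l hj
            exact ih (dep l) (by omega) l rfl
        by_cases hT : i ∈ T
        · rw [hρeq, if_pos hT, hval, hval]
          congr 1
          funext j
          rw [← hin j]
          exact (hx i hT j).symm
        · rw [hρeq, if_neg hT, hval x i]
          congr 1
          funext j
          exact hin j
    exact fun i => this (dep i) i rfl
  have hagree2 : ∀ x, (∀ i ∈ T, ∀ j, Sum.elim x (val x) (a i j) =
      Sum.elim x0 (val x0) (a i j)) → ∀ i, ρ i x = val x i := by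
    intro x hx
    have : ∀ m i, dep i = m → ρ i x = val x i := by
      intro m
      induction m using Nat.strong_induction_on with
      | _ m ih =>
        intro i hi
        have hin : ∀ j, Sum.elim x (fun l => ρ l x) (a i j) = Sum.elim x (val x) (a i j) := by
          intro j
          rcases hj : a i j with v | l
          · rfl
          · have := hdep i j l hj
            exact ih (dep l) (by omega) l rfl
        by_cases hT : i ∈ T
        · rw [hρeq, if_pos hT, hval, hval]
          congr 1
          funext j
          exact (hx i hT j).symm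
        · rw [hρeq, if_neg hT, hval x i]
          congr 1
          funext j
          exact hin j
    exact fun i => this (dep i) i rfl
  -- the inputs of the gates in T
  let S : Finset (Σ i : Fin s, Fin (w i)) :=
    (T.sigma (fun i => (univ : Finset (Fin (w i))))).filter
      (fun p => Sum.elim x0 (val x0) (a p.1 p.2) = false)
  have hScard : S.card ≤ ∑ i ∈ T, w i := by
    refine (Finset.card_filter_le _ _).trans ?_
    rw [Finset.card_sigma]
    simp
  let fp : (Σ i : Fin s, Fin (w i)) → (I → Bool) → Bool := fun p x =>
    Sum.elim x (fun l => ρ l x) (a p.1 p.2)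
  have hfp : ∀ p, MD (pbase I) D (fp p) := by
    intro p
    rcases hj : a p.1 p.2 with v | l
    · have : fp p = fun x => x v := by
        funext x
        simp [fp, hj]
      rw [this]
      exact (MD.base (Or.inr ⟨v, rfl⟩)).mono (Nat.zero_le _)
    · have : fp p = ρ l := by
        funext x
        simp [fp, hj]
      rw [this]
      exact hρMD l
  let lst : List ((I → Bool) → Bool) := ρ o :: S.toList.map fp
  refine ⟨fun x => lst.any (fun f => f x), MD.any k lst (by simp [lst]) ?_ ?_, ?_⟩
  · simp only [lst, List.length_cons, List.length_map, Finset.length_toList]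
    omega
  · intro f hf
    rcases List.mem_cons.mp hf with rfl | hf
    · exact hρMD o
    · obtain ⟨p, -, rfl⟩ := List.mem_map.mp hf
      exact hfp p
  · intro x hx
    have hx0 : ∀ i, ρ i x0 = val x0 i := hagree2 x0 (fun _ _ _ => rfl)
    have hfpx0 : ∀ p, fp p x0 = Sum.elim x0 (val x0) (a p.1 p.2) := by
      intro p
      rcases hj : a p.1 p.2 with v | l
      · simp [fp, hj]
      · simp [fp, hj, hx0]
    by_cases hall : ∀ i ∈ T, ∀ j, Sum.elim x (fun l => ρ l x) (a i j) =
        Sum.elim x0 (val x0) (a i j)
    · have hrest : (S.toList.map fp).any (fun f => f x) = false := by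
        rw [List.any_eq_false]
        intro f hf
        obtain ⟨p, hp, rfl⟩ := List.mem_map.mp hf
        rw [Finset.mem_toList] at hp
        simp only [S, Finset.mem_filter, Finset.mem_sigma] at hp
        have := hall p.1 hp.1.1 p.2
        show ¬ (fp p x = true)
        have e : fp p x = false := by
          show Sum.elim x (fun l => ρ l x) (a p.1 p.2) = false
          rw [this]; exact hp.2
        rw [e]
        simp
      simp only [lst, List.any_cons, hrest, Bool.or_false]
      rw [hagree x hall o]
      constructor
      · exact Or.inr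
      · rintro (⟨i, hi, j, hij⟩ | h)
        · exfalso
          apply hij
          rw [← hall i hi j]
          rcases hj : a i j with v | l
          · rfl
          · exact (hagree x hall l).symm
        · exact h
    · have hchg : ∃ i ∈ T, ∃ j, Sum.elim x (val x) (a i j) ≠ Sum.elim x0 (val x0) (a i j) := by
        by_contra hcon
        push Not at hcon
        apply hall
        have h2 := hagree2 x hcon
        intro i hi j
        rw [← hcon i hi j]
        rcases hj : a i j with v | l
        · rfl
        · exact h2 l
      push Not at hall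
      obtain ⟨i, hi, j, hij⟩ := hall
      have hle : fp ⟨i, j⟩ x0 ≤ fp ⟨i, j⟩ x := (hfp ⟨i, j⟩).le_of_le x0 x hx
      rw [hfpx0] at hle
      have hne : fp ⟨i, j⟩ x ≠ Sum.elim x0 (val x0) (a i j) := hij
      have h0 : Sum.elim x0 (val x0) (a i j) = false := by
        by_contra hcon
        rw [Bool.not_eq_false] at hcon
        simp only at hle
        rw [hcon] at hle hne
        exact hne (top_le_iff.mp hle)
      have h1 : fp ⟨i, j⟩ x = true := by
        rw [h0] at hne
        simpa using hne
      simp only [lst, List.any_cons]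
      have : (S.toList.map fp).any (fun f => f x) = true := by
        rw [List.any_eq_true]
        refine ⟨fp ⟨i, j⟩, List.mem_map.mpr ⟨⟨i, j⟩, ?_, rfl⟩, h1⟩
        rw [Finset.mem_toList]
        simp only [S, Finset.mem_filter, Finset.mem_sigma]
        exact ⟨⟨hi, mem_univ _⟩, h0⟩
      rw [this, Bool.or_true]
      simp only [true_iff]
      exact Or.inl hchg

/-- circuits of small depth -/
theorem adv_circuit {Ω P N : Type} {M : ℕ} [Fintype P] [Fintype N] [Nonempty N] {K : Type}
    [Field K] {sh : ℕ} {α : P → Ω → Bool} {β : N → Ω → Bool} (hA : AHard K sh α β)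
    (loc : I → Option (Fin M × Ω)) (hd1 : ∀ i, 1 ≤ dep i)
    (hdep : ∀ i j k, a i j = Sum.inr k → k < i ∧ dep k < dep i)
    (hmon : ∀ i ∉ T, w i ≤ 2 ∧ Monotone (op i)) {D : ℕ} (hD : ∀ i, dep i ≤ D)
    (val : (I → Bool) → Fin s → Bool)
    (hval : ∀ x i, val x i = op i (fun j => Sum.elim x (val x) (a i j)))
    (o : Fin s) (t : ℕ) (ht : ∏ i ∈ T, (w i + 1) ≤ t + 1) :
    Adv M sh t (2 ^ D * (2 * (t + 1))) (farD loc α β) (satD (P := P) loc β)
      (fun x => val x o) := by
  classical
  have h1 : ∀ S : Finset (Fin s), 1 + ∑ i ∈ S, w i ≤ ∏ i ∈ S, (w i + 1) := by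
    intro S
    induction S using Finset.induction_on with
    | empty => simp
    | insert i S hi ih =>
      rw [Finset.sum_insert hi, Finset.prod_insert hi]
      nlinarith [Nat.zero_le (w i), Nat.zero_le (∑ i ∈ S, w i)]
  obtain ⟨k, hk⟩ : ∃ k, k = Nat.log 2 (t + 1) + 1 := ⟨_, rfl⟩
  have h2 : t + 1 < 2 ^ k := by rw [hk]; exact Nat.lt_pow_succ_log_self (by norm_num) _
  have h3 : 2 ^ k ≤ 2 * (t + 1) := by
    rw [hk, pow_succ, mul_comm]
    exact Nat.mul_le_mul_left _ (Nat.pow_log_le_self 2 (by omega))
  obtain ⟨C, -, -, -, c4, c5⟩ := to_circuit_iff T w a op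
    (fun i j k h => (hdep i j k h).1) hmon (fun p (x : I → Bool) => x p) val hval s le_rfl
  have hTf : T.filter (fun i => i.val < s) = T :=
    Finset.filter_true_of_mem (fun i _ => i.isLt)
  rw [hTf] at c4
  let pr : (I → Bool) → (∀ i : Fin s, Fin (w i) → Bool) := fun x i j =>
    if i ∈ T then Sum.elim x (val x) (a i j) else false
  have hpr : ∀ x x', pr x = pr x' ↔ ∀ i ∈ T, ∀ j, Sum.elim x (val x) (a i j) =
      Sum.elim x' (val x') (a i j) := by
    intro x x'
    constructor
    · intro h i hi j
      have := congrFun (congrFun h i) j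
      simpa only [pr, if_pos hi] using this
    · intro h
      funext i j
      simp only [pr]
      by_cases hi : i ∈ T
      · rw [if_pos hi, if_pos hi]
        exact h i hi j
      · rw [if_neg hi, if_neg hi]
  have hprC : ∀ x x', pr x ≠ pr x' → C.probes x ≠ C.probes x' := by
    intro x x' hne h
    exact hne ((hpr _ _).mpr (fun i hi j => (c5 x x').mp h i hi i.isLt j))
  refine adv_chain hA loc pr t _ (fun x hx J hJ => ?_) _ (fun x0 => ?_)
  · have h5 := changes_le C M x hx
    have h6 : J ⊆ (Finset.range M).filter (fun i => C.probes (x i) ≠ C.probes (x (i + 1))) := by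
      intro i hi
      rw [Finset.mem_filter, Finset.mem_range]
      exact ⟨(hJ i hi).1, hprC _ _ (hJ i hi).2⟩
    have h7 := Finset.card_le_card h6
    rw [c4] at h5
    omega
  · obtain ⟨g, hg, hgx⟩ := flip_depth2 (T := T) hd1 (fun i j k h => (hdep i j k h).2) hmon hD val
      hval o x0 k (by have := h1 T; omega)
    refine ⟨g, (RBall.of_MD hg).weak ?_, fun x hx => ?_⟩
    · rw [pow_add]
      exact Nat.mul_le_mul_left _ h3
    · rw [hgx x hx, Ne, hpr]
      push Not
      rfl

end

section

variable {I Ω P N : Type} {M : ℕ}

/-- formulas -/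
theorem adv_formula [Fintype P] [Fintype N] [Nonempty N] {K : Type} [Field K] {s : ℕ}
    {α : P → Ω → Bool} {β : N → Ω → Bool} (hA : AHard K s α β)
    (loc : I → Option (Fin M × Ω)) (φ : GF I) :
    Adv M s (6 * φ.free) (2 * φ.leaves) (farD loc α β) (satD (P := P) loc β) φ.eval := by
  classical
  have weak : ∀ κ κ' S S' : ℕ, κ ≤ κ' → S ≤ S' →
      Adv M s κ S (farD loc α β) (satD (P := P) loc β) φ.eval →
      Adv M s κ' S' (farD loc α β) (satD (P := P) loc β) φ.eval := by
    intro κ κ' S S' h1 h2 h
    unfold Adv at h ⊢
    refine h.trans (Nat.add_le_add_left (Nat.mul_le_mul_right _ ?_) _)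
    exact Nat.add_le_add (Nat.mul_le_mul_left _ h1) (Nat.mul_le_mul_left _ h2)
  by_cases hf : φ.free = 0
  · obtain ⟨n, h1, h2⟩ := GF.mono_of_free φ hf
    exact weak 0 _ n _ (Nat.zero_le _) (by omega) (adv_mono hA loc n φ.eval (RBall.of_ML h2))
  · obtain ⟨Q, q1, q2, q3, q4⟩ := GF.good φ
    refine weak _ _ _ _ ?_ ?_ (adv_pieces hA loc ∅ Q (fun x0 p hp =>
      ⟨p.2, RBall.of_ML (q1 p hp), (q1 p hp).le_of_le, fun _ _ => rfl⟩) φ.eval
      (fun x x' _ h => q4 x x' h))
    · simp only [Finset.card_empty, zero_add, mul_one, Nat.add_sub_cancel]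
      omega
    · simp only [Finset.card_empty, zero_add]
      exact q3

/-- span programs with positive labels -/
theorem adv_span [Fintype P] [Fintype N] [Nonempty N] {K : Type} [Field K] {s : ℕ}
    {α : P → Ω → Bool} {β : N → Ω → Bool} (hA : AHard K s α β)
    (loc : I → Option (Fin M × Ω)) (n d : ℕ) (lab : Fin n → I × Bool)
    (hlab : ∀ j, (lab j).2 = true) (row : Fin n → (Fin d → K)) (tgt : Fin d → K)
    (g : (I → Bool) → Bool)
    (hg : ∀ x, g x = true ↔ tgt ∈ Submodule.span K (row '' {j | x (lab j).1 = (lab j).2})) :
    Adv M s 0 n (farD loc α β) (satD (P := P) loc β) g :=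
  adv_mono hA loc n g (RBall.span (fun j => (lab j).1) row tgt g (fun x => by
    rw [hg]
    simp only [hlab]))

/-- functions of span programs with few negative literals -/
theorem adv_spans [DecidableEq I] [Fintype P] [Fintype N] [Nonempty N] {K : Type} [Field K] {s : ℕ}
    {α : P → Ω → Bool} {β : N → Ω → Bool} (hA : AHard K s α β)
    (loc : I → Option (Fin M × Ω)) (Z : Finset I) {r : ℕ}
    (size dim : Fin r → ℕ) (lab : (k : Fin r) → Fin (size k) → I × Bool)
    (hlab : ∀ k j, (lab k j).2 = false → (lab k j).1 ∈ Z)
    (row : (k : Fin r) → Fin (size k) → (Fin (dim k) → K)) (tgt : (k : Fin r) → (Fin (dim k) → K))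
    (Φ : (Fin r → Prop) → Prop) (g : (I → Bool) → Bool)
    (hΦ : ∀ x, g x = true ↔
      Φ (fun k => tgt k ∈ Submodule.span K (row k '' {j | x (lab k j).1 = (lab k j).2}))) :
    Adv M s ((r + 1) * (Z.card + 1) - 1) (Z.card + ∑ k, size k)
      (farD loc α β) (satD (P := P) loc β) g := by
  classical
  let acc : Fin r → (I → Bool) → Bool := fun k x =>
    decide (tgt k ∈ Submodule.span K (row k '' {j | x (lab k j).1 = (lab k j).2}))
  have h := adv_pieces hA loc Z ((List.finRange r).map (fun k => (size k, acc k)))
    (by
      intro x0 p hp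
      obtain ⟨k, -, rfl⟩ := List.mem_map.mp hp
      let fz : (I → Bool) → I → Bool := fun x i => if i ∈ Z then x0 i else x i
      let f : (I → Bool) → Bool := fun x =>
        decide (tgt k ∈ Submodule.span K (row k '' {j | fz x (lab k j).1 = (lab k j).2}))
      have hf : ∀ x, f x = true ↔
          tgt k ∈ Submodule.span K (row k '' {j | fz x (lab k j).1 = (lab k j).2}) :=
        fun x => decide_eq_true_iff
      refine ⟨f, ?_, ?_, ?_⟩
      · refine RBall.span' (I' := Fin (size k)) id (row k) (tgt k)
          (fun x j => decide (fz x (lab k j).1 = (lab k j).2)) (fun j => ?_) f (fun x => ?_)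
        · by_cases hv : (lab k j).1 ∈ Z
          · left
            refine ⟨decide (x0 (lab k j).1 = (lab k j).2), fun x => ?_⟩
            simp only [fz, hv, if_true]
          · right
            refine ⟨(lab k j).1, fun x => ?_⟩
            rcases hb : (lab k j).2 with _ | _
            · exact absurd (hlab k j hb) hv
            · simp only [fz, hv, if_false]
              cases x (lab k j).1 <;> simp
        · rw [hf]
          simp only [id, decide_eq_true_eq]
      · intro x x' hx
        rw [Bool.le_iff_imp, hf, hf]
        intro hmem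
        refine Submodule.span_mono (Set.image_mono ?_) hmem
        intro j hj
        simp only [Set.mem_ofPred_eq] at hj ⊢
        by_cases hv : (lab k j).1 ∈ Z
        · simp only [fz, hv, if_true] at hj ⊢
          exact hj
        · rcases hb : (lab k j).2 with _ | _
          · exact absurd (hlab k j hb) hv
          · simp only [fz, hv, if_false, hb] at hj ⊢
            have := hx (lab k j).1
            rw [hj] at this
            exact top_le_iff.mp this
      · intro x hxZ
        have : fz x = x := by
          funext i
          simp only [fz]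
          split_ifs with hi
          · exact (hxZ i hi).symm
          · rfl
        simp only [f, this]
        rfl)
    g (by
      intro x x' _ hp
      have e : (fun k => tgt k ∈ Submodule.span K (row k '' {j | x (lab k j).1 = (lab k j).2})) =
          fun k => tgt k ∈ Submodule.span K (row k '' {j | x' (lab k j).1 = (lab k j).2}) := by
        funext k
        have := hp (size k, acc k) (List.mem_map.mpr ⟨k, List.mem_finRange k, rfl⟩)
        simp only [acc, decide_eq_decide] at this
        exact propext this
      have h1 := hΦ x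
      have h2 := hΦ x'
      rw [e, ← h2] at h1
      cases hgx : g x <;> cases hgx' : g x' <;> simp_all)
  have e1 : ((List.finRange r).map (fun k => (size k, acc k))).length = r := by
    rw [List.length_map, List.length_finRange]
  have e2 : (((List.finRange r).map (fun k => (size k, acc k))).map Prod.fst).sum =
      ∑ k, size k := by
    rw [List.map_map]
    exact ((List.sum_ofFn (f := size)).symm ▸ (by rw [List.ofFn_eq_map]; rfl))
  rw [e1, e2] at h
  exact h

end

end Pool.Agent.H560R2
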