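import Pool.Agent.H560R2.Rob6

/-! Hard distributions of sparse 3-CNFs. -/

set_option linter.unusedSectionVars false
set_option linter.unusedVariables false

namespace Pool.Agent.H560R2

open Finset

/-- every assignment falsifies at least `d` of the selected clauses -/
def FarN {N m : ℕ} (G : Fin m → Fin 3 → Fin N × Bool) (d : ℕ) (x : Fin m → Bool) : Prop :=
  ∀ a : Fin N → Bool, d ≤ (univ.filter (fun i => x i = true ∧ ∀ l, a (G i l).1 ≠ (G i l).2)).card

/-- The hard distributions of 3-CNFs. -/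
theorem sat_dist : ∃ c : ℕ, 0 < c ∧ ∀ N M : ℕ, 0 < M → c * M ≤ N →
    ∃ (m s : ℕ) (G : Fin m → Fin 3 → Fin N × Bool) (Ω P Ng : Type) (_ : Fintype P)
      (_ : Nonempty P) (_ : Fintype Ng) (_ : Nonempty Ng) (α : P → Ω → Bool) (β : Ng → Ω → Bool)
      (loc : Fin m → Option (Fin M × Ω)), m ≤ 2 * N ∧ N ≤ c * M * (s + 1) ∧
      Function.Injective G ∧
      (∀ l, ∃ a : Fin N → Bool, ∀ i, satD (P := P) loc β l i = true →
          ∃ k, a (G i k).1 = (G i k).2) ∧
      (∀ l, FarN G s (farD loc α β l)) ∧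
      ∀ (K : Type) [Field K], (2 : K) ≠ 0 → AHard K s α β := by
  classical
  obtain ⟨u, hu⟩ : ∃ u, u = 1025 := ⟨_, rfl⟩
  obtain ⟨q, hq⟩ : ∃ q, q = 2 ^ u := ⟨_, rfl⟩
  have hq0 : 0 < q := by rw [hq]; positivity
  let c : ℕ := 1024 * q + 2048 * (q ^ 8 * 2 ^ 8) * 9
  have hc0 : 0 < c := by positivity
  refine ⟨c, hc0, fun N M hM hN => ?_⟩
  set s := N / (c * M) with hs
  have hcM : 0 < c * M := Nat.mul_pos hc0 hM
  have hs1 : 0 < s := by
    rw [hs]; exact Nat.div_pos hN hcM
  obtain ⟨ν, b, hfar, hhard⟩ := ahard u q s hu hq hs1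
  -- counting
  have hcW : Fintype.card (Wv (2048 * s) (1024 * s) q) ≤ c * s := by
    rw [Fintype.card_sum, Fintype.card_prod, Fintype.card_prod, card_Om, Fintype.card_fin,
      Fintype.card_fin, Fintype.card_fin]
    refine le_of_eq ?_
    simp only [c]; ring
  have hcMW : Fintype.card (Fin M × Wv (2048 * s) (1024 * s) q) ≤ Fintype.card (Fin N) := by
    rw [Fintype.card_prod, Fintype.card_fin, Fintype.card_fin]
    calc M * Fintype.card (Wv (2048 * s) (1024 * s) q) ≤ M * (c * s) :=
          Nat.mul_le_mul_left M hcW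
      _ = s * (c * M) := by ring
      _ ≤ N := Nat.div_mul_le_self N (c * M)
  obtain ⟨emb⟩ := Function.Embedding.nonempty_of_card_le hcMW
  let C := Fin M × (Om (2048 * s) q × (Fin 8 ⊕ Bool))
  let eq := Fintype.equivFin C
  let G0 : C → Fin 3 → Fin N × Bool := fun p l => (emb (p.1, (cl ν p.2 l).1), (cl ν p.2 l).2)
  have hG0 : Function.Injective G0 := by
    intro p p' hpp
    have h1 : ∀ l, p.1 = p'.1 ∧ cl ν p.2 l = cl ν p'.2 l := by
      intro l
      have := congrFun hpp l
      simp only [G0, Prod.mk.injEq] at this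
      have h2 := emb.injective this.1
      rw [Prod.mk.injEq] at h2
      exact ⟨h2.1, Prod.ext h2.2 this.2⟩
    exact Prod.ext (h1 0).1 (cl_inj ν (funext fun l => (h1 l).2))
  have hPne : Nonempty ((Fin (1024 * s) → Fin q) × (Fin (1024 * s) → Bool)) :=
    ⟨(fun _ => ⟨0, hq0⟩, fun _ => false)⟩
  refine ⟨Fintype.card C, s, fun i => G0 (eq.symm i), Om (2048 * s) q,
    (Fin (1024 * s) → Fin q) × (Fin (1024 * s) → Bool), Fin (1024 * s) → Fin q → Bool,
    inferInstance, hPne, inferInstance, inferInstance, apos q ν b, bneg q ν,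
    fun i => some ((eq.symm i).1, (eq.symm i).2.1), ?_, ?_, hG0.comp eq.symm.injective, ?_, ?_,
    hhard⟩
  · -- number of clauses
    have h1 : Fintype.card C = M * ((2048 * s) * (q ^ 8 * 2 ^ 8) * 10) := by
      simp only [C, Fintype.card_prod, Fintype.card_fin, Fintype.card_sum,
        Fintype.card_bool, Fintype.card_fun]
    rw [h1]
    rw [Fintype.card_prod, Fintype.card_fin, Fintype.card_fin, Fintype.card_sum,
      Fintype.card_prod, Fintype.card_prod, card_Om, Fintype.card_fin, Fintype.card_fin] at hcMW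
    have h2 : M * ((2048 * s) * (q ^ 8 * 2 ^ 8) * 9) ≤ N :=
      (Nat.mul_le_mul_left M (Nat.le_add_left _ _)).trans hcMW
    have h3 : M * ((2048 * s) * (q ^ 8 * 2 ^ 8) * 10) ≤
        2 * (M * ((2048 * s) * (q ^ 8 * 2 ^ 8) * 9)) := by
      have : 2 * (M * ((2048 * s) * (q ^ 8 * 2 ^ 8) * 9)) =
        M * ((2048 * s) * (q ^ 8 * 2 ^ 8) * 18) := by ring
      rw [this]
      exact Nat.mul_le_mul_left M (Nat.mul_le_mul_left _ (by norm_num))
    omega
  · have := Nat.lt_div_mul_add hcM (a := N)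
    calc N ≤ N / (c * M) * (c * M) + c * M := this.le
      _ = c * M * (s + 1) := by rw [← hs]; ring
  · -- satisfiable
    intro lam
    obtain ⟨i0, y, p⟩ := lam
    have hY : ∀ J, ¬ fcnf q ν (stB (bneg q ν) y (i0 + 1) J) := by
      intro J
      simp only [stB]
      split_ifs
      · exact bneg_sat ν (y J)
      · intro h
        obtain ⟨ω, hω, -⟩ := h (fun _ _ => false)
        exact absurd hω (by simp)
    choose a ha using fun J => cl_ext ν _ (hY J)
    refine ⟨fun v => if hv : ∃ p, emb p = v then a hv.choose.1 hv.choose.2 else false, ?_⟩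
    intro i hi
    obtain ⟨l, hl⟩ := ha (eq.symm i).1 (eq.symm i).2.1 (eq.symm i).2.2 hi
    refine ⟨l, ?_⟩
    have hex : ∃ p, emb p = (G0 (eq.symm i) l).1 := ⟨_, rfl⟩
    beta_reduce
    rw [dif_pos hex]
    have hch : hex.choose = ((eq.symm i).1, (cl ν (eq.symm i).2 l).1) :=
      emb.injective hex.choose_spec
    rw [hch]
    exact hl
  · -- far from satisfiable
    intro lam a
    obtain ⟨J, y, p⟩ := lam
    have h1 := hfar p (fun v c => a (emb (J, Sum.inl (v, c))))
    refine le_trans (by omega) h1 |>.trans ?_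
    have h2 : ∀ ω : Om (2048 * s) q, (∀ j, a (emb (J, Sum.inl (ν ω.1 j, ω.2.1 j))) = ω.2.2 j) →
        ∃ c, ∀ l, a (emb (J, (cl ν (ω, c) l).1)) ≠ (cl ν (ω, c) l).2 := by
      intro ω hω
      by_contra hcon
      push Not at hcon
      exact cl_aux ν (fun w => a (emb (J, w))) ω hcon hω
    choose! cc hcc using h2
    refine Finset.card_le_card_of_injOn (fun ω => eq (J, (ω, cc ω))) ?_ ?_
    · intro ω hω
      simp only [Finset.coe_filter, Finset.mem_univ, true_and, Set.mem_ofPred_eq] at hω ⊢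
      constructor
      · show farD _ _ _ (J, y, p) _ = true
        unfold farD fil
        simp only [Equiv.symm_apply_apply, Function.update_self]
        exact hω.1
      · intro l
        simp only [Equiv.symm_apply_apply, G0]
        exact hcc ω hω.2 l
    · intro ω _ ω' _ h
      exact congrArg (fun z : C => z.2.1) (eq.injective h)

end Pool.Agent.H560R2
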