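import Pool.Agent.H560R2.Rob7

/-! Probe systems: algorithms with few non-monotone parts. -/

set_option linter.unusedSectionVars false
set_option linter.unusedVariables false

namespace Pool.Agent.H560R2

open Finset

/-- `out` is given by a small monotone function as long as the probes do not change, and the probes
change at most `κ` times along each chain -/
def Probe (K : Type) [Field K] {I : Type} (κ S : ℕ) (out : (I → Bool) → Bool) : Prop :=
  ∃ (π : Type) (pr : (I → Bool) → π),
    (∀ (M : ℕ) (x : ℕ → I → Bool), (∀ i < M, x i ≤ x (i + 1)) → ∀ J : Finset ℕ,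
      (∀ i ∈ J, i < M ∧ pr (x i) ≠ pr (x (i + 1))) → J.card ≤ κ) ∧
    ∀ x0, ∃ g, RBall K S g ∧ ∀ x, x0 ≤ x → (g x = true ↔ (pr x ≠ pr x0 ∨ out x = true))

lemma Probe.weak {K : Type} [Field K] {I : Type} {κ κ' S S' : ℕ} {out : (I → Bool) → Bool}
    (h : Probe K κ S out) (h1 : κ ≤ κ') (h2 : S ≤ S') : Probe K κ' S' out := by
  obtain ⟨π, pr, a, b⟩ := h
  refine ⟨π, pr, fun M x hx J hJ => (a M x hx J hJ).trans h1, fun x0 => ?_⟩
  obtain ⟨g, g1, g2⟩ := b x0
  exact ⟨g, g1.weak h2, g2⟩

/-- monotone functions -/
theorem probe_mono {K : Type} [Field K] {I : Type} (S : ℕ) (out : (I → Bool) → Bool)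
    (h : RBall K S out) : Probe K 0 S out :=
  ⟨Unit, fun _ => (), fun M x _ J hJ => by
    rw [Nat.le_zero, Finset.card_eq_zero, Finset.eq_empty_iff_forall_notMem]
    intro i hi
    exact (hJ i hi).2 rfl, fun x0 => ⟨out, h, fun x _ => by simp⟩⟩

section

variable {I : Type}

/-- functions of few functions that are monotone when few bits are fixed -/
theorem probe_pieces [DecidableEq I] {K : Type} [Field K]
    (Z : Finset I) (L : List (ℕ × ((I → Bool) → Bool)))
    (hL : ∀ x0 : I → Bool, ∀ p ∈ L, ∃ f : (I → Bool) → Bool, RBall K p.1 f ∧
      (∀ x x' : I → Bool, x ≤ x' → f x ≤ f x') ∧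
      ∀ x, (∀ i ∈ Z, x i = x0 i) → f x = p.2 x)
    (out : (I → Bool) → Bool)
    (hdet : ∀ x x' : I → Bool, (∀ i ∈ Z, x i = x' i) → (∀ p ∈ L, p.2 x = p.2 x') →
      out x = out x') :
    Probe K ((L.length + 1) * (Z.card + 1) - 1) (Z.card + (L.map Prod.fst).sum) out := by
  classical
  let pr : (I → Bool) → ((i : {i // i ∈ Z}) → Bool) × List Bool := fun x =>
    (fun i => x i.1, L.map (fun p => p.2 x))
  have hpr : ∀ x x', pr x = pr x' ↔ (∀ i ∈ Z, x i = x' i) ∧ ∀ p ∈ L, p.2 x = p.2 x' := by
    intro x x'
    simp only [pr, Prod.mk.injEq, List.map_inj_left]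
    constructor
    · rintro ⟨h1, h2⟩
      exact ⟨fun i hi => congrFun h1 ⟨i, hi⟩, h2⟩
    · rintro ⟨h1, h2⟩
      exact ⟨funext fun i => h1 i.1 i.2, h2⟩
  -- monotonicity when `Z` is fixed
  have hmono : ∀ x x' : I → Bool, x ≤ x' → (∀ i ∈ Z, x i = x' i) → ∀ p ∈ L,
      p.2 x = true → p.2 x' = true := by
    intro x x' hx hZ p hp hpx
    obtain ⟨f, -, hf1, hf2⟩ := hL x p hp
    have e1 := hf2 x (fun _ _ => rfl)
    have e2 := hf2 x' (fun i hi => (hZ i hi).symm)
    have := hf1 x x' hx
    rw [e1, e2, hpx] at this
    exact top_le_iff.mp this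
  let rk : (I → Bool) → ℕ := fun x => (Z.filter (fun i => x i = true)).card * (L.length + 1) +
    L.countP (fun p => p.2 x)
  have hcnt : ∀ x, L.countP (fun p => p.2 x) ≤ L.length := fun x => List.countP_le_length
  have hZcase : ∀ x x' : I → Bool, x ≤ x' → (∃ i ∈ Z, x i ≠ x' i) → rk x < rk x' := by
    intro x x' hx hne
    obtain ⟨i, hi, hne⟩ := hne
    have h1 : (Z.filter (fun i => x i = true)).card < (Z.filter (fun i => x' i = true)).card := by
      apply Finset.card_lt_card
      rw [Finset.ssubset_iff_of_subset]
      · have hi0 : x i = false := by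
          by_contra hc
          rw [Bool.not_eq_false] at hc
          have := hx i
          rw [hc] at this hne
          exact hne (top_le_iff.mp this).symm
        have hi1 : x' i = true := by
          rw [hi0] at hne
          simpa using hne.symm
        exact ⟨i, Finset.mem_filter.mpr ⟨hi, hi1⟩, fun h => by
          rw [Finset.mem_filter, hi0] at h
          exact absurd h.2 (by simp)⟩
      · intro j hj
        rw [Finset.mem_filter] at hj ⊢
        refine ⟨hj.1, ?_⟩
        have := hx j
        rw [hj.2] at this
        exact top_le_iff.mp this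
    have h2 := hcnt x
    have h3 : ((Z.filter (fun i => x i = true)).card + 1) * (L.length + 1) ≤
        (Z.filter (fun i => x' i = true)).card * (L.length + 1) := Nat.mul_le_mul_right _ h1
    simp only [rk]
    have h4 : ((Z.filter (fun i => x i = true)).card + 1) * (L.length + 1) =
        (Z.filter (fun i => x i = true)).card * (L.length + 1) + (L.length + 1) := by ring
    omega
  have hZeq : ∀ x x' : I → Bool, (∀ i ∈ Z, x i = x' i) →
      (Z.filter (fun i => x i = true)) = (Z.filter (fun i => x' i = true)) := by
    intro x x' h
    apply Finset.filter_congr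
    intro i hi
    rw [h i hi]
  refine ⟨_, pr, fun M x hx J hJ => changes_of_rank pr rk _ ?_ ?_ ?_ x hx J hJ, ?_⟩
  · intro x x' hx
    by_cases hZ : ∀ i ∈ Z, x i = x' i
    · simp only [rk, hZeq x x' hZ]
      exact Nat.add_le_add_left (List.countP_mono_left (fun p hp => hmono x x' hx hZ p hp)) _
    · push Not at hZ
      exact (hZcase x x' hx hZ).le
  · intro x x' hx hne
    by_cases hZ : ∀ i ∈ Z, x i = x' i
    · rw [Ne, hpr, not_and] at hne
      have := hne hZ
      push Not at this
      have h5 := countP_lt L (fun p => p.2 x) (fun p => p.2 x')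
        (fun p hp => hmono x x' hx hZ p hp) this
      simp only [rk, hZeq x x' hZ]
      omega
    · push Not at hZ
      exact hZcase x x' hx hZ
  · intro x
    have h1 : (Z.filter (fun i => x i = true)).card ≤ Z.card := Finset.card_filter_le _ _
    have h2 := hcnt x
    have h3 := Nat.mul_le_mul_right (L.length + 1) h1
    simp only [rk]
    have h4 : (L.length + 1) * (Z.card + 1) = Z.card * (L.length + 1) + (L.length + 1) := by ring
    omega
  · intro x0
    by_cases ho : out x0 = true
    · refine ⟨fun _ => true, (RBall.const true).weak (Nat.zero_le _), fun x hx => ?_⟩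
      simp only [true_iff]
      by_cases hp : pr x = pr x0
      · right
        obtain ⟨h1, h2⟩ := (hpr _ _).mp hp
        rw [hdet x x0 h1 h2]
        exact ho
      · exact Or.inl hp
    · rw [Bool.not_eq_true] at ho
      choose! f hf1 hf2 hf3 using hL x0
      let Q1 : List (ℕ × ((I → Bool) → Bool)) :=
        ((Z.filter (fun i => x0 i = false)).toList).map (fun i => (1, fun x => x i))
      let Q2 : List (ℕ × ((I → Bool) → Bool)) :=
        (L.filter (fun p => !(p.2 x0))).map (fun p => (p.1, f p))
      have hQ : ∀ p ∈ Q1 ++ Q2, RBall K p.1 p.2 := by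
        intro p hp
        rcases List.mem_append.mp hp with hp | hp
        · obtain ⟨i, -, rfl⟩ := List.mem_map.mp hp
          exact RBall.var i
        · obtain ⟨p', hp', rfl⟩ := List.mem_map.mp hp
          exact hf1 p' (List.mem_of_mem_filter hp')
      refine ⟨_, (RBall.any (Q1 ++ Q2) hQ).weak ?_, fun x hx => ?_⟩
      · rw [List.map_append, List.sum_append]
        apply Nat.add_le_add
        · have : (Q1.map Prod.fst).sum = (Z.filter (fun i => x0 i = false)).card := by
            simp only [Q1, List.map_map]
            have : (Prod.fst ∘ fun i => ((1 : ℕ), fun x : I → Bool => x i)) = fun _ => 1 := rfl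
            rw [this, List.map_const', List.sum_replicate, Finset.length_toList, smul_eq_mul,
              mul_one]
          rw [this]
          exact Finset.card_filter_le _ _
        · have : (Q2.map Prod.fst) = (L.filter (fun p => !(p.2 x0))).map Prod.fst := by
            simp only [Q2, List.map_map]
            rfl
          rw [this]
          exact sum_filter_le L _
      · rw [List.any_eq_true]
        constructor
        · rintro ⟨p, hp, hpx⟩
          left
          intro heq
          obtain ⟨h1, h2⟩ := (hpr _ _).mp heq
          rcases List.mem_append.mp hp with hp | hp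
          · obtain ⟨i, hi, rfl⟩ := List.mem_map.mp hp
            rw [Finset.mem_toList, Finset.mem_filter] at hi
            have := h1 i hi.1
            simp only at hpx
            rw [hpx, hi.2] at this
            exact absurd this (by simp)
          · obtain ⟨p', hp', rfl⟩ := List.mem_map.mp hp
            obtain ⟨hp1, hp2⟩ := List.mem_filter.mp hp'
            simp only at hpx
            rw [hf3 p' hp1 x h1, h2 p' hp1] at hpx
            rw [hpx] at hp2
            exact absurd hp2 (by simp)
        · intro hor
          have hne : pr x ≠ pr x0 := by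
            rcases hor with h | h
            · exact h
            · intro heq
              obtain ⟨h1, h2⟩ := (hpr _ _).mp heq
              rw [hdet x x0 h1 h2, ho] at h
              exact absurd h (by simp)
          by_cases hZ : ∀ i ∈ Z, x i = x0 i
          · rw [Ne, hpr, not_and] at hne
            have := hne hZ
            push Not at this
            obtain ⟨p, hp, hpne⟩ := this
            have h0 : p.2 x0 = false := by
              by_contra hc
              rw [Bool.not_eq_false] at hc
              have := hmono x0 x hx (fun i hi => (hZ i hi).symm) p hp hc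
              rw [this, hc] at hpne
              exact hpne rfl
            have h1 : p.2 x = true := by
              rw [h0] at hpne
              simpa using hpne
            refine ⟨(p.1, f p), List.mem_append_right _ (List.mem_map.mpr ⟨p,
              List.mem_filter.mpr ⟨hp, by simp [h0]⟩, rfl⟩), ?_⟩
            simp only
            rw [hf3 p hp x hZ]
            exact h1
          · push Not at hZ
            obtain ⟨i, hi, hne'⟩ := hZ
            have h0 : x0 i = false := by
              by_contra hc
              rw [Bool.not_eq_false] at hc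
              have := hx i
              rw [hc] at this hne'
              exact hne' (top_le_iff.mp this)
            have h1 : x i = true := by
              rw [h0] at hne'
              simpa using hne'
            refine ⟨(1, fun x => x i), List.mem_append_left _ (List.mem_map.mpr ⟨i, ?_, rfl⟩), h1⟩
            rw [Finset.mem_toList]
            exact Finset.mem_filter.mpr ⟨hi, h0⟩

end

section

variable {I : Type} {s : ℕ} {T : Finset (Fin s)} {w : Fin s → ℕ}
  {a : ∀ i, Fin (w i) → I ⊕ Fin s} {op : ∀ i, (Fin (w i) → Bool) → Bool} {dep : Fin s → ℕ}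

/-- circuits of small depth -/
theorem probe_circuit {K : Type} [Field K] (hd1 : ∀ i, 1 ≤ dep i)
    (hdep : ∀ i j k, a i j = Sum.inr k → k < i ∧ dep k < dep i)
    (hmon : ∀ i ∉ T, w i ≤ 2 ∧ Monotone (op i)) {D : ℕ} (hD : ∀ i, dep i ≤ D)
    (val : (I → Bool) → Fin s → Bool)
    (hval : ∀ x i, val x i = op i (fun j => Sum.elim x (val x) (a i j)))
    (o : Fin s) (t : ℕ) (ht : ∏ i ∈ T, (w i + 1) ≤ t + 1) :
    Probe K t (2 ^ D * (2 * (t + 1))) (fun x => val x o) := by
  classical
  have h1 : ∀ S : Finset (Fin s), 1 + ∑ i ∈ S, w i ≤ ∏ i ∈ S, (w i + 1) := by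
    intro S
    induction S using Finset.induction_on with
    | empty => simp
    | insert i S hi ih =>
      rw [Finset.sum_insert hi, Finset.prod_insert hi]
      nlinarith [Nat.zero_le (w i), Nat.zero_le (∑ i ∈ S, w i)]
  obtain ⟨k, hk⟩ : ∃ k, k = Nat.log 2 (t + 1) + 1 := ⟨_, rfl⟩
  have h2 : t + 1 < 2 ^ k := by rw [hk]; exact Nat.lt_pow_succ_log_self (by norm_num) _
  have h3 : 2 ^ k ≤ 2 * (t + 1) := by
    rw [hk, pow_succ, mul_comm]
    exact Nat.mul_le_mul_left _ (Nat.pow_log_le_self 2 (by omega))
  obtain ⟨C, -, -, -, c4, c5⟩ := to_circuit_iff T w a op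
    (fun i j k h => (hdep i j k h).1) hmon (fun p (x : I → Bool) => x p) val hval s le_rfl
  have hTf : T.filter (fun i => i.val < s) = T :=
    Finset.filter_true_of_mem (fun i _ => i.isLt)
  rw [hTf] at c4
  let pr : (I → Bool) → (∀ i : Fin s, Fin (w i) → Bool) := fun x i j =>
    if i ∈ T then Sum.elim x (val x) (a i j) else false
  have hpr : ∀ x x', pr x = pr x' ↔ ∀ i ∈ T, ∀ j, Sum.elim x (val x) (a i j) =
      Sum.elim x' (val x') (a i j) := by
    intro x x'
    constructor
    · intro h i hi j
      have := congrFun (congrFun h i) j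
      simpa only [pr, if_pos hi] using this
    · intro h
      funext i j
      simp only [pr]
      by_cases hi : i ∈ T
      · rw [if_pos hi, if_pos hi]
        exact h i hi j
      · rw [if_neg hi, if_neg hi]
  have hprC : ∀ x x', pr x ≠ pr x' → C.probes x ≠ C.probes x' := by
    intro x x' hne h
    exact hne ((hpr _ _).mpr (fun i hi j => (c5 x x').mp h i hi i.isLt j))
  refine ⟨_, pr, fun M x hx J hJ => ?_, fun x0 => ?_⟩
  · have h5 := changes_le C M x hx
    have h6 : J ⊆ (Finset.range M).filter (fun i => C.probes (x i) ≠ C.probes (x (i + 1))) := by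
      intro i hi
      rw [Finset.mem_filter, Finset.mem_range]
      exact ⟨(hJ i hi).1, hprC _ _ (hJ i hi).2⟩
    have h7 := Finset.card_le_card h6
    rw [c4] at h5
    omega
  · obtain ⟨g, hg, hgx⟩ := flip_depth2 (T := T) hd1 (fun i j k h => (hdep i j k h).2) hmon hD val
      hval o x0 k (by have := h1 T; omega)
    refine ⟨g, (RBall.of_MD hg).weak ?_, fun x hx => ?_⟩
    · rw [pow_add]
      exact Nat.mul_le_mul_left _ h3
    · rw [hgx x hx, Ne, hpr]
      push Not
      rfl

end

section

variable {I : Type}

/-- formulas -/
theorem probe_formula {K : Type} [Field K] (φ : GF I) :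
    Probe K (6 * φ.free) (2 * φ.leaves) φ.eval := by
  classical
  by_cases hf : φ.free = 0
  · obtain ⟨n, h1, h2⟩ := GF.mono_of_free φ hf
    exact (probe_mono n φ.eval (RBall.of_ML h2)).weak (Nat.zero_le _) (by omega)
  · obtain ⟨Q, q1, q2, q3, q4⟩ := GF.good φ
    refine (probe_pieces ∅ Q (fun x0 p hp =>
      ⟨p.2, RBall.of_ML (q1 p hp), (q1 p hp).le_of_le, fun _ _ => rfl⟩) φ.eval
      (fun x x' _ h => q4 x x' h)).weak ?_ ?_
    · simp only [Finset.card_empty, zero_add, mul_one, Nat.add_sub_cancel]
      omega
    · simp only [Finset.card_empty, zero_add]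
      exact q3

/-- span programs with positive labels -/
theorem probe_span {K : Type} [Field K] (n d : ℕ) (lab : Fin n → I × Bool)
    (hlab : ∀ j, (lab j).2 = true) (row : Fin n → (Fin d → K)) (tgt : Fin d → K)
    (g : (I → Bool) → Bool)
    (hg : ∀ x, g x = true ↔ tgt ∈ Submodule.span K (row '' {j | x (lab j).1 = (lab j).2})) :
    Probe K 0 n g :=
  probe_mono n g (RBall.span (fun j => (lab j).1) row tgt g (fun x => by
    rw [hg]
    simp only [hlab]))

/-- functions of span programs with few negative literals -/
theorem probe_spans [DecidableEq I] {K : Type} [Field K] (Z : Finset I) {r : ℕ}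
    (size dim : Fin r → ℕ) (lab : (k : Fin r) → Fin (size k) → I × Bool)
    (hlab : ∀ k j, (lab k j).2 = false → (lab k j).1 ∈ Z)
    (row : (k : Fin r) → Fin (size k) → (Fin (dim k) → K)) (tgt : (k : Fin r) → (Fin (dim k) → K))
    (Φ : (Fin r → Prop) → Prop) (g : (I → Bool) → Bool)
    (hΦ : ∀ x, g x = true ↔
      Φ (fun k => tgt k ∈ Submodule.span K (row k '' {j | x (lab k j).1 = (lab k j).2}))) :
    Probe K ((r + 1) * (Z.card + 1) - 1) (Z.card + ∑ k, size k) g := by
  classical
  let acc : Fin r → (I → Bool) → Bool := fun k x =>
    decide (tgt k ∈ Submodule.span K (row k '' {j | x (lab k j).1 = (lab k j).2}))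
  have h := probe_pieces (K := K) Z ((List.finRange r).map (fun k => (size k, acc k)))
    (by
      intro x0 p hp
      obtain ⟨k, -, rfl⟩ := List.mem_map.mp hp
      let fz : (I → Bool) → I → Bool := fun x i => if i ∈ Z then x0 i else x i
      let f : (I → Bool) → Bool := fun x =>
        decide (tgt k ∈ Submodule.span K (row k '' {j | fz x (lab k j).1 = (lab k j).2}))
      have hf : ∀ x, f x = true ↔
          tgt k ∈ Submodule.span K (row k '' {j | fz x (lab k j).1 = (lab k j).2}) :=
        fun x => decide_eq_true_iff
      refine ⟨f, ?_, ?_, ?_⟩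
      · refine RBall.span' (I' := Fin (size k)) id (row k) (tgt k)
          (fun x j => decide (fz x (lab k j).1 = (lab k j).2)) (fun j => ?_) f (fun x => ?_)
        · by_cases hv : (lab k j).1 ∈ Z
          · left
            refine ⟨decide (x0 (lab k j).1 = (lab k j).2), fun x => ?_⟩
            simp only [fz, hv, if_true]
          · right
            refine ⟨(lab k j).1, fun x => ?_⟩
            rcases hb : (lab k j).2 with _ | _
            · exact absurd (hlab k j hb) hv
            · simp only [fz, hv, if_false]
              cases x (lab k j).1 <;> simp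
        · rw [hf]
          simp only [id, decide_eq_true_eq]
      · intro x x' hx
        rw [Bool.le_iff_imp, hf, hf]
        intro hmem
        refine Submodule.span_mono (Set.image_mono ?_) hmem
        intro j hj
        simp only [Set.mem_ofPred_eq] at hj ⊢
        by_cases hv : (lab k j).1 ∈ Z
        · simp only [fz, hv, if_true] at hj ⊢
          exact hj
        · rcases hb : (lab k j).2 with _ | _
          · exact absurd (hlab k j hb) hv
          · simp only [fz, hv, if_false, hb] at hj ⊢
            have := hx (lab k j).1
            rw [hj] at this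
            exact top_le_iff.mp this
      · intro x hxZ
        have : fz x = x := by
          funext i
          simp only [fz]
          split_ifs with hi
          · exact (hxZ i hi).symm
          · rfl
        simp only [f, this]
        rfl)
    g (by
      intro x x' _ hp
      have e : (fun k => tgt k ∈ Submodule.span K (row k '' {j | x (lab k j).1 = (lab k j).2})) =
          fun k => tgt k ∈ Submodule.span K (row k '' {j | x' (lab k j).1 = (lab k j).2}) := by
        funext k
        have := hp (size k, acc k) (List.mem_map.mpr ⟨k, List.mem_finRange k, rfl⟩)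
        simp only [acc, decide_eq_decide] at this
        exact propext this
      have h1 := hΦ x
      have h2 := hΦ x'
      rw [e, ← h2] at h1
      cases hgx : g x <;> cases hgx' : g x' <;> simp_all)
  have e1 : ((List.finRange r).map (fun k => (size k, acc k))).length = r := by
    rw [List.length_map, List.length_finRange]
  have e2 : (((List.finRange r).map (fun k => (size k, acc k))).map Prod.fst).sum =
      ∑ k, size k := by
    rw [List.map_map]
    exact ((List.sum_ofFn (f := size)).symm ▸ (by rw [List.ofFn_eq_map]; rfl))
  rw [e1, e2] at h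
  exact h

end

end Pool.Agent.H560R2
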