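import Pool.Agent.H560R2.Rob8

/-! The chain argument on average, for blocks of different sizes. -/

set_option linter.unusedSectionVars false
set_option linter.unusedVariables false

namespace Pool.Agent.H560R2

open Finset

lemma AHard.mono {K : Type} [Field K] {s s' : ℕ} {Ω P N : Type} [Fintype P] [Fintype N]
    {α : P → Ω → Bool} {β : N → Ω → Bool} (h : AHard K s α β) (hs : s' ≤ s) :
    AHard K s' α β := by
  intro I n g hg ζ hζ
  have h1 := h I n g hg ζ hζ
  obtain ⟨d, rfl⟩ := Nat.exists_eq_add_of_le hs
  have h2 : 0 < 2 ^ d := by positivity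
  refine Nat.le_of_mul_le_mul_left ?_ h2
  calc 2 ^ d * (2 ^ s' * ((univ.filter (fun p => g (ζ (α p)) = true)).card * Fintype.card N)) =
        2 ^ (s' + d) * ((univ.filter (fun p => g (ζ (α p)) = true)).card * Fintype.card N) := by
        rw [pow_add]; ring
    _ ≤ _ := h1
    _ ≤ 2 ^ (s' + d) * ((univ.filter (fun y => g (ζ (β y)) = true)).card * Fintype.card P) +
        2 ^ d * (n * (Fintype.card P * Fintype.card N)) :=
        Nat.add_le_add_left (Nat.le_mul_of_pos_left _ h2) _
    _ = _ := by rw [pow_add]; ring

section

variable {I : Type} {M : ℕ} {Ω P N : Fin M → Type}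

/-- the input composed of the blocks -/
def filH (loc : I → Option (Σ j, Ω j)) (Y : ∀ j, Ω j → Bool) (i : I) : Bool :=
  match loc i with
  | none => false
  | some p => Y p.1 p.2

lemma filH_le (loc : I → Option (Σ j, Ω j)) (Y : ∀ j, Ω j → Bool)
    (J : Fin M) (X : Ω J → Bool) (hJ : Y J = (fun _ => false)) :
    filH loc Y ≤ filH loc (Function.update Y J X) := by
  intro i
  unfold filH
  rcases loc i with _ | ⟨j, ω⟩
  · exact le_rfl
  · by_cases hJ' : j = J
    · subst hJ'
      simp only [hJ]
      exact Bool.false_le _
    · simp only [Function.update_of_ne hJ']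
      exact le_rfl

lemma filH_coord (loc : I → Option (Σ j, Ω j)) (Y : ∀ j, Ω j → Bool)
    (J : Fin M) (i : I) : (∃ c, ∀ z, filH loc (Function.update Y J z) i = c) ∨
      ∃ ω, ∀ z, filH loc (Function.update Y J z) i = z ω := by
  unfold filH
  rcases loc i with _ | ⟨j, ω⟩
  · exact Or.inl ⟨false, fun _ => rfl⟩
  · by_cases hi : j = J
    · subst hi
      right
      refine ⟨ω, fun z => ?_⟩
      simp only [Function.update_self]
    · left
      refine ⟨Y j ω, fun z => ?_⟩
      simp only [Function.update_of_ne hi]

/-- the state of the chain -/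
def stH (β : ∀ j, N j → Ω j → Bool) (y : ∀ j, N j) (i : ℕ) : ∀ j, Ω j → Bool :=
  fun j => if j.val < i then β j (y j) else fun _ => false

lemma stH_mono (loc : I → Option (Σ j, Ω j)) (β : ∀ j, N j → Ω j → Bool) (y : ∀ j, N j) (i : ℕ) :
    filH loc (stH β y i) ≤ filH loc (stH β y (i + 1)) := by
  intro l
  unfold filH
  rcases loc l with _ | ⟨j, ω⟩
  · exact le_rfl
  · simp only [stH]
    by_cases h : j.val < i
    · rw [if_pos h, if_pos (by omega)]
    · rw [if_neg h]
      exact Bool.false_le _

lemma stH_self (β : ∀ j, N j → Ω j → Bool) (y : ∀ j, N j) (i : Fin M) :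
    stH β y i i = fun _ => false := by
  simp [stH]

lemma stH_update (β : ∀ j, N j → Ω j → Bool) (y : ∀ j, N j) (i : Fin M) (ω : N i) :
    stH β (Function.update y i ω) i = stH β y i := by
  funext j
  simp only [stH]
  by_cases h : j.val < i
  · rw [if_pos h, if_pos h]
    have : j ≠ i := by rintro rfl; omega
    rw [Function.update_of_ne this]
  · rw [if_neg h, if_neg h]

lemma stH_succ (β : ∀ j, N j → Ω j → Bool) (y : ∀ j, N j) (i : Fin M) (ω : N i) :
    stH β (Function.update y i ω) (i + 1) = Function.update (stH β y i) i (β i ω) := by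
  funext j
  by_cases hj : j = i
  · subst hj
    rw [Function.update_self]
    simp [stH]
  · rw [Function.update_of_ne hj]
    have : (j : ℕ) ≠ i := fun h => hj (Fin.ext h)
    simp only [stH, Function.update_of_ne hj]
    by_cases h : j.val < i
    · rw [if_pos h, if_pos (by omega)]
    · rw [if_neg h, if_neg (by omega)]

lemma sum_updateH [∀ j, Fintype (N j)] (i : Fin M)
    (f : (∀ j, N j) → ℚ) :
    ∑ y : ∀ j, N j, ∑ ω : N i, f (Function.update y i ω) = Fintype.card (N i) * ∑ y, f y := by
  classical
  let e : (∀ j, N j) × N i ≃ (∀ j, N j) × N i :=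
    { toFun := fun p => (Function.update p.1 i p.2, p.1 i)
      invFun := fun p => (Function.update p.1 i p.2, p.1 i)
      left_inv := by
        rintro ⟨y, ω⟩
        simp
      right_inv := by
        rintro ⟨y, ω⟩
        simp }
  calc ∑ y : ∀ j, N j, ∑ ω : N i, f (Function.update y i ω)
      = ∑ p : (∀ j, N j) × N i, f (e p).1 := by
        rw [Fintype.sum_prod_type]
        rfl
    _ = ∑ p : (∀ j, N j) × N i, f p.1 := Equiv.sum_comp e (fun p => f p.1)
    _ = ∑ y : ∀ j, N j, ∑ _ω : N i, f y := by rw [Fintype.sum_prod_type]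
    _ = _ := by
        rw [Finset.mul_sum]
        apply Finset.sum_congr rfl
        intro y _
        rw [Finset.sum_const, Finset.card_univ, nsmul_eq_mul]

open Classical in
/-- The chain argument on average. -/
theorem rchainH [∀ j, Fintype (P j)] [∀ j, Nonempty (P j)] [∀ j, Fintype (N j)]
    [∀ j, Nonempty (N j)] {K : Type} [Field K] {s : ℕ}
    {α : ∀ j, P j → Ω j → Bool} {β : ∀ j, N j → Ω j → Bool} (hA : ∀ j, AHard K s (α j) (β j))
    (loc : I → Option (Σ j, Ω j)) {κ S : ℕ} {out : (I → Bool) → Bool} (hout : Probe K κ S out) :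
    ∑ i : Fin M, ∑ y : ∀ j, N j, ((univ.filter (fun p : P i =>
        out (filH loc (Function.update (stH β y i) i (α i p))) = true)).card : ℚ) /
          Fintype.card (P i) ≤
      ∑ i : Fin M, ((univ.filter (fun y : ∀ j, N j =>
        out (filH loc (stH β y (i + 1))) = true)).card : ℚ) +
      (κ + M * (S / 2 ^ s)) * (Fintype.card (∀ j, N j) : ℚ) := by
  obtain ⟨π, pr, hκ, hg⟩ := hout
  have h2s : (0 : ℚ) < 2 ^ s := by positivity
  let E : (∀ j, Ω j → Bool) → I → Bool := filH loc
  let b : Fin M → (∀ j, N j) → ℚ := fun i y => ((univ.filter (fun p : P i =>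
    out (E (Function.update (stH β y i) i (α i p))) = true)).card : ℚ) / Fintype.card (P i)
  let a : Fin M → (∀ j, N j) → ℚ := fun i y => if out (E (stH β y (i + 1))) = true then 1 else 0
  let ch : Fin M → (∀ j, N j) → ℚ := fun i y =>
    if pr (E (stH β y i)) ≠ pr (E (stH β y (i + 1))) then 1 else 0
  have hstep : ∀ i y, b i y * Fintype.card (N i) ≤
      (∑ ω : N i, (a i (Function.update y i ω) + ch i (Function.update y i ω))) +
        S / 2 ^ s * Fintype.card (N i) := by
    intro i y
    have hNpos : (0 : ℚ) < Fintype.card (N i) := by exact_mod_cast Fintype.card_pos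
    have hPpos : (0 : ℚ) < Fintype.card (P i) := by exact_mod_cast Fintype.card_pos
    have hle : ∀ X, E (stH β y i) ≤ E (Function.update (stH β y i) i X) := fun X =>
      filH_le loc (stH β y i) i X (stH_self β y i)
    obtain ⟨G, hG, hGx⟩ := hg (E (stH β y i))
    have h1 := hA i I S G hG (fun X => E (Function.update (stH β y i) i X))
      (filH_coord loc (stH β y i) i)
    have h1' : (2 ^ s : ℚ) * (((univ.filter (fun p =>
        G (E (Function.update (stH β y i) i (α i p))) = true)).card : ℚ) *
          Fintype.card (N i)) ≤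
        2 ^ s * (((univ.filter (fun ω =>
        G (E (Function.update (stH β y i) i (β i ω))) = true)).card : ℚ) *
          Fintype.card (P i)) + S * (Fintype.card (P i) * Fintype.card (N i)) := by
      exact_mod_cast h1
    have hb : ((univ.filter (fun p : P i =>
        out (E (Function.update (stH β y i) i (α i p))) = true)).card : ℚ) ≤
        ((univ.filter (fun p =>
        G (E (Function.update (stH β y i) i (α i p))) = true)).card : ℚ) := by
      have : (univ.filter (fun p : P i =>
          out (E (Function.update (stH β y i) i (α i p))) = true)) ⊆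
          (univ.filter (fun p => G (E (Function.update (stH β y i) i (α i p))) = true)) := by
        intro p hp
        rw [Finset.mem_filter] at hp ⊢
        exact ⟨mem_univ _, (hGx _ (hle _)).mpr (Or.inr hp.2)⟩
      exact_mod_cast Finset.card_le_card this
    have hw : ((univ.filter (fun ω =>
        G (E (Function.update (stH β y i) i (β i ω))) = true)).card : ℚ) ≤
        ∑ ω : N i, (a i (Function.update y i ω) + ch i (Function.update y i ω)) := by
      rw [Finset.card_filter]
      push_cast
      apply Finset.sum_le_sum
      intro ω _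
      have ha0 : (0 : ℚ) ≤ a i (Function.update y i ω) := by
        simp only [a]; split_ifs <;> norm_num
      have hc0 : (0 : ℚ) ≤ ch i (Function.update y i ω) := by
        simp only [ch]; split_ifs <;> norm_num
      by_cases hgω : G (E (Function.update (stH β y i) i (β i ω))) = true
      · rw [if_pos hgω]
        rcases (hGx _ (hle _)).mp hgω with h | h
        · have : ch i (Function.update y i ω) = 1 := by
            simp only [ch]
            rw [if_pos]
            rw [stH_update, stH_succ]
            exact fun h' => h h'.symm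
          rw [this]
          linarith
        · have : a i (Function.update y i ω) = 1 := by
            simp only [a]
            rw [if_pos]
            rw [stH_succ]
            exact h
          rw [this]
          linarith
      · rw [if_neg hgω]
        linarith
    set g1 := ((univ.filter (fun p =>
        G (E (Function.update (stH β y i) i (α i p))) = true)).card : ℚ)
    set g2 := ((univ.filter (fun ω =>
        G (E (Function.update (stH β y i) i (β i ω))) = true)).card : ℚ)
    have h3 : g1 / Fintype.card (P i) * Fintype.card (N i) ≤ g2 +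
        S / 2 ^ s * Fintype.card (N i) := by
      have e1 : g1 / Fintype.card (P i) * Fintype.card (N i) =
          (2 ^ s * (g1 * Fintype.card (N i))) / (2 ^ s * Fintype.card (P i)) := by
        field_simp
      have e2 : g2 + S / 2 ^ s * Fintype.card (N i) =
          (2 ^ s * (g2 * Fintype.card (P i)) + S * (Fintype.card (P i) * Fintype.card (N i))) /
            (2 ^ s * Fintype.card (P i)) := by
        field_simp
      rw [e1, e2]
      exact div_le_div_of_nonneg_right h1' (by positivity)
    have h4 : b i y * Fintype.card (N i) ≤ g1 / Fintype.card (P i) * Fintype.card (N i) :=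
      mul_le_mul_of_nonneg_right (div_le_div_of_nonneg_right hb hPpos.le) hNpos.le
    linarith
  have hsum : ∀ i, (∑ y, b i y) ≤
      (∑ y, (a i y + ch i y)) + S / 2 ^ s * (Fintype.card (∀ j, N j) : ℚ) := by
    intro i
    have hNpos : (0 : ℚ) < Fintype.card (N i) := by exact_mod_cast Fintype.card_pos
    have h1 : (∑ y, b i y) * Fintype.card (N i) ≤
        (∑ y, ∑ ω : N i, (a i (Function.update y i ω) + ch i (Function.update y i ω))) +
          Fintype.card (∀ j, N j) * (S / 2 ^ s * Fintype.card (N i)) := by
      have : (Fintype.card (∀ j, N j) : ℚ) * (S / 2 ^ s * Fintype.card (N i)) =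
          ∑ _y : ∀ j, N j, (S : ℚ) / 2 ^ s * Fintype.card (N i) := by
        rw [Finset.sum_const, Finset.card_univ, nsmul_eq_mul]
      rw [this, Finset.sum_mul, ← Finset.sum_add_distrib]
      exact Finset.sum_le_sum (fun y _ => hstep i y)
    rw [sum_updateH i (fun y => a i y + ch i y)] at h1
    refine le_of_mul_le_mul_right ?_ hNpos
    calc (∑ y, b i y) * Fintype.card (N i) ≤ _ := h1
      _ = _ := by ring
  have hall : (∑ i, ∑ y, b i y) ≤ (∑ i, ∑ y, a i y) + (∑ i, ∑ y, ch i y) +
        M * (S / 2 ^ s * (Fintype.card (∀ j, N j) : ℚ)) := by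
    refine (Finset.sum_le_sum (fun i _ => hsum i)).trans (le_of_eq ?_)
    rw [Finset.sum_add_distrib, Finset.sum_const, Finset.card_univ, Fintype.card_fin, nsmul_eq_mul]
    congr 1
    rw [← Finset.sum_add_distrib]
    apply Finset.sum_congr rfl
    intro i _
    rw [Finset.sum_add_distrib]
  have hch : (∑ i, ∑ y, ch i y) ≤ Fintype.card (∀ j, N j) * (κ : ℚ) := by
    rw [Finset.sum_comm]
    have h1 : ∀ y : ∀ j, N j, ∑ i, ch i y ≤ (κ : ℚ) := by
      intro y
      have h2 := hκ M (fun i => E (stH β y i)) (fun i _ => stH_mono loc β y i)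
        ((Finset.range M).filter (fun i => pr (E (stH β y i)) ≠ pr (E (stH β y (i + 1)))))
        (fun i hi => by
          rw [Finset.mem_filter, Finset.mem_range] at hi
          exact hi)
      have h3 : ∑ i : Fin M, ch i y = (((Finset.range M).filter (fun i =>
          pr (E (stH β y i)) ≠ pr (E (stH β y (i + 1))))).card : ℚ) := by
        rw [Finset.card_filter, Finset.sum_range]
        push_cast
        rfl
      rw [h3]
      exact_mod_cast h2
    calc ∑ y, ∑ i, ch i y ≤ ∑ _y : ∀ j, N j, (κ : ℚ) :=
          Finset.sum_le_sum (fun y _ => h1 y)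
      _ = _ := by rw [Finset.sum_const, Finset.card_univ, nsmul_eq_mul]
  have ha : (∑ i, ∑ y, a i y) = ∑ i : Fin M, ((univ.filter (fun y : ∀ j, N j =>
      out (E (stH β y (i + 1))) = true)).card : ℚ) := by
    apply Finset.sum_congr rfl
    intro i _
    rw [Finset.card_filter]
    push_cast
    rfl
  rw [ha] at hall
  calc _ ≤ _ := hall
    _ ≤ (∑ i : Fin M, ((univ.filter (fun y : ∀ j, N j =>
      out (E (stH β y (i + 1))) = true)).card : ℚ)) +
        (Fintype.card (∀ j, N j) * (κ : ℚ)) +
        M * (S / 2 ^ s * (Fintype.card (∀ j, N j) : ℚ)) := by linarith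
    _ = _ := by ring

end

end Pool.Agent.H560R2
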