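import Pool.Agent.H560R2.Dep4
import Pool.Agent.H560R2.Gen1

/-! Circuits of small depth for functions that contain the OR of copies of the pebbling function. -/

namespace Pool.Agent.H560R2

open Finset Pool.Agent.H520R2 Pool.Agent.H520R2.NM

section

variable {I : Type} {s : ℕ} {T : Finset (Fin s)} {w : Fin s → ℕ}
  {a : ∀ i, Fin (w i) → I ⊕ Fin s}
  {op : ∀ i, (Fin (w i) → Bool) → Bool} {dep : Fin s → ℕ}

/-- the chain, for any function that contains the OR of copies -/
theorem dep_chain' (D M q : ℕ) (hq : q = 4 * (D + 1) ^ 2) (e : Fin M × PVar (ppred D) q → I)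
    (hd1 : ∀ i, 1 ≤ dep i)
    (hdep : ∀ i j k, a i j = Sum.inr k → dep k < dep i)
    (hmon : ∀ i ∉ T, w i ≤ 2 ∧ Monotone (op i)) (hD : ∀ i, dep i ≤ D)
    (val : (I → Bool) → Fin s → Bool)
    (hval : ∀ x i, val x i = op i (fun j => Sum.elim x (val x) (a i j)))
    (o : Fin s) (hfill : ∀ Y : Fin M → PVar (ppred D) q → Bool, val (fill e Y) o = true ↔
      ∃ J, pebF (ppred D) (psink D) q (Y J))
    (hT : ∑ i ∈ T, w i < 2 ^ (D + 1)) :
    ∃ x : ℕ → I → Bool, (∀ i < M, x i ≤ x (i + 1) ∧ ∃ t ∈ T, ∃ j,
        Sum.elim (x i) (val (x i)) (a t j) ≠ Sum.elim (x (i + 1)) (val (x (i + 1))) (a t j)) ∧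
      ∀ i ≤ M, val (x i) o = false := by
  classical
  have hz0 : ¬ pebF (ppred D) (psink D) q (fun _ => false) := by
    rintro ⟨c, h, -⟩
    exact absurd h (by simp)
  -- the probes
  let pr : (Fin M → PVar (ppred D) q → Bool) → (∀ t : Fin s, Fin (w t) → Bool) := fun Y t j =>
    if t ∈ T then Sum.elim (fill e Y) (val (fill e Y)) (a t j) else false
  obtain ⟨Y, h1, h2, h3⟩ := chain_core (κ := Fin M) (m := M)
    (fun X => ¬ pebF (ppred D) (psink D) q X) (fun _ => false) hz0 id (fun _ _ h => h) pr (by
      intro y J hy hyJ
      by_contra hcon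
      push Not at hcon
      obtain ⟨g, hg, hgx⟩ := flip_depth (T := T) hd1 hdep hmon hD val hval o (fill e y)
        {x | ∃ X, x = fill e (Function.update y J X)} (by
          rintro _ ⟨X, rfl⟩
          refine fill_mono e _ _ fun J' r => ?_
          by_cases hJ : J' = J
          · subst hJ
            rw [hyJ]
            exact Bool.false_le _
          · rw [Function.update_of_ne hJ]) (by
          rintro _ ⟨X, rfl⟩ hfalse t ht j
          have hX : ¬ pebF (ppred D) (psink D) q X := by
            intro hX
            have := (hfill (Function.update y J X)).mpr ⟨J, by rwa [Function.update_self]⟩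
            rw [this] at hfalse
            exact absurd hfalse (by simp)
          have := congrFun (congrFun (hcon X hX) t) j
          simp only [pr, if_pos ht] at this
          exact this) (D + 1) (by omega)
      have hg' := MD.comp (B' := pbase (PVar (ppred D) q)) (fun X => fill e (Function.update y J X))
        (fill_base e y J) hg
      have hiff : ∀ X, g (fill e (Function.update y J X)) = true ↔
          pebF (ppred D) (psink D) q X := by
        intro X
        rw [hgx _ ⟨X, rfl⟩, hfill]
        constructor
        · rintro ⟨J', hJ'⟩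
          by_cases hJ : J' = J
          · subst hJ
            rwa [Function.update_self] at hJ'
          · rw [Function.update_of_ne hJ] at hJ'
            exact absurd hJ' (hy J')
        · intro hX
          exact ⟨J, by rwa [Function.update_self]⟩
      have := peb_depth D q hq hg' (fun x => (hiff _).mpr
        (peb_pos (fun v => v.1.val) (fun v u hu => by
          unfold ppred at hu
          rw [Finset.mem_filter] at hu
          have := hu.2.1
          show u.1.val < v.1.val
          omega) x)) (fun y' => by
          rw [← Bool.not_eq_true]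
          intro h
          exact peb_neg y' ((hiff _).mp h))
      omega)
  refine ⟨fun i => fill e (Y i), fun i hi => ⟨?_, ?_⟩, fun i hi => ?_⟩
  · obtain ⟨J, X, hJ, hX⟩ := h1 i hi
    show fill e (Y i) ≤ fill e (Y (i + 1))
    rw [hX]
    refine fill_mono e _ _ fun J' r => ?_
    by_cases hJ' : J' = J
    · subst hJ'
      rw [hJ]
      exact Bool.false_le _
    · rw [Function.update_of_ne hJ']
  · by_contra hcon
    push Not at hcon
    apply h2 i hi
    funext t j
    by_cases ht : t ∈ T
    · simp only [pr, if_pos ht]
      exact hcon t ht j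
    · simp only [pr, if_neg ht]
  · show val (fill e (Y i)) o = false
    rw [← Bool.not_eq_true, hfill]
    rintro ⟨J, hJ⟩
    exact h3 i hi J hJ

end

end Pool.Agent.H560R2
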