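import Pool.Agent.H560R2.Real3

/-! Real programs against systems of tests any two elements of which determine the test. -/

set_option linter.unusedSectionVars false
set_option linter.unusedVariables false

namespace Pool.Agent.H560R2

open Finset

section lin

variable {V P N : Type} [Fintype V] [DecidableEq V] [Fintype P] [DecidableEq P] [Fintype N]
  [DecidableEq N]

/-- `max (β, u v)`, `v` in the input, approximates `f` -/
structure ApL (r : ℕ) (sp : P → Finset V) (sn : N → Finset V) (E : Finset P) (E' : Finset N)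
    (f : Set V → ℝ) (β : ℝ) (u : V → ℝ) : Prop where
  base : ∀ v, β ≤ u v
  few : (univ.filter (fun v => β < u v)).card ≤ r
  pos : ∀ p, p ∉ E → ∃ v ∈ sp p, f (sp p : Set V) ≤ u v
  neg : ∀ n, n ∉ E' → β ≤ f (sn n : Set V) ∧ ∀ v ∈ sn n, u v ≤ f (sn n : Set V)

lemma ApL.mono {r : ℕ} {sp : P → Finset V} {sn : N → Finset V} {E F : Finset P} {E' F' : Finset N}
    {f : Set V → ℝ} {β : ℝ} {u : V → ℝ} (h : ApL r sp sn E E' f β u) (hE : E ⊆ F)
    (hE' : E' ⊆ F') : ApL r sp sn F F' f β u :=
  ⟨h.base, h.few, fun p hp => h.pos p (fun h' => hp (hE h')),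
    fun n hn => h.neg n (fun h' => hn (hE' h'))⟩

/-- reducing the number of exceptional variables -/
lemma ApL.trim {r k : ℕ} {sp : P → Finset V} {sn : N → Finset V} {E : Finset P} {E' : Finset N}
    {f : Set V → ℝ} {β : ℝ} {u : V → ℝ} (h : ApL k sp sn E E' f β u) {D : ℕ}
    (hmiss : ∀ T : Finset V, r < T.card →
      (univ.filter (fun n => Disjoint (sn n) T)).card ≤ D) :
    ∃ (F' : Finset N) (β' : ℝ) (u' : V → ℝ), F'.card ≤ D ∧ ApL r sp sn E (E' ∪ F') f β' u' := by
  classical
  set exc := univ.filter (fun v => β < u v) with hexc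
  by_cases hle : exc.card ≤ r
  · exact ⟨∅, β, u, by simp, ⟨h.base, hle, h.pos, fun n hn => h.neg n (fun h' => hn
      (Finset.mem_union_left _ h'))⟩⟩
  · have hne : exc.Nonempty := by
      rw [← Finset.card_pos]; omega
    let S0 := (exc.image u).filter (fun b => (univ.filter (fun v => b < u v)).card ≤ r)
    have hS0 : S0.Nonempty := by
      obtain ⟨v0, hv0, hmax⟩ := Finset.exists_max_image exc u hne
      refine ⟨u v0, ?_⟩
      simp only [S0, Finset.mem_filter]
      refine ⟨Finset.mem_image_of_mem _ hv0, ?_⟩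
      have : univ.filter (fun v => u v0 < u v) = ∅ := by
        rw [Finset.filter_eq_empty_iff]
        intro v _ hv
        have hv' : v ∈ exc := by
          rw [hexc, Finset.mem_filter]
          exact ⟨mem_univ _, (Finset.mem_filter.mp hv0).2.trans hv⟩
        exact absurd (hmax v hv') (not_le.mpr hv)
      rw [this]
      simp
    set β' := S0.min' hS0 with hβ'
    have hβ'mem := Finset.min'_mem S0 hS0
    rw [← hβ'] at hβ'mem
    have hβ'1 : (univ.filter (fun v => β' < u v)).card ≤ r := (Finset.mem_filter.mp hβ'mem).2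
    have hβ'2 : β < β' := by
      obtain ⟨v, hv, hvb⟩ := Finset.mem_image.mp (Finset.mem_filter.mp hβ'mem).1
      rw [← hvb]
      exact (Finset.mem_filter.mp hv).2
    set T := exc.filter (fun v => β' ≤ u v) with hT
    have hTc : r < T.card := by
      by_contra hcon
      rw [not_lt] at hcon
      rcases Finset.eq_empty_or_nonempty (exc.filter (fun v => u v < β')) with he | he
      · have : T = exc := by
          rw [hT, Finset.filter_eq_self]
          intro v hv
          by_contra hc
          rw [not_le] at hc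
          have : v ∈ exc.filter (fun v => u v < β') := Finset.mem_filter.mpr ⟨hv, hc⟩
          rw [he] at this
          simp at this
        rw [this] at hcon
        exact hle hcon
      · obtain ⟨v0, hv0, hmax⟩ := Finset.exists_max_image _ u he
        rw [Finset.mem_filter] at hv0
        have hin : u v0 ∈ S0 := by
          simp only [S0, Finset.mem_filter]
          refine ⟨Finset.mem_image_of_mem _ hv0.1, ?_⟩
          refine (Finset.card_le_card ?_).trans hcon
          intro v hv
          have hv2 := (Finset.mem_filter.mp hv).2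
          have hve : v ∈ exc := by
            rw [hexc, Finset.mem_filter]
            exact ⟨mem_univ _, (Finset.mem_filter.mp hv0.1).2.trans hv2⟩
          rw [hT, Finset.mem_filter]
          refine ⟨hve, ?_⟩
          by_contra hc
          rw [not_le] at hc
          exact absurd (hmax v (Finset.mem_filter.mpr ⟨hve, hc⟩)) (not_le.mpr hv2)
        have := Finset.min'_le S0 _ hin
        rw [← hβ'] at this
        exact absurd this (not_le.mpr hv0.2)
    refine ⟨univ.filter (fun n => Disjoint (sn n) T), β', fun v => max (u v) β', hmiss T hTc,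
      fun v => le_max_right _ _, ?_, ?_, ?_⟩
    · refine (Finset.card_le_card ?_).trans hβ'1
      intro v hv
      rw [Finset.mem_filter] at hv ⊢
      refine ⟨mem_univ _, ?_⟩
      rcases lt_max_iff.mp hv.2 with h1 | h1
      · exact h1
      · exact absurd h1 (lt_irrefl _)
    · intro p hp
      obtain ⟨v, hv, hfv⟩ := h.pos p hp
      exact ⟨v, hv, hfv.trans (le_max_left _ _)⟩
    · intro n hn
      rw [Finset.mem_union, not_or] at hn
      obtain ⟨h1, h2⟩ := h.neg n hn.1
      have h3 : ¬ Disjoint (sn n) T := fun hd => hn.2 (Finset.mem_filter.mpr ⟨mem_univ _, hd⟩)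
      rw [Finset.not_disjoint_iff] at h3
      obtain ⟨v, hv, hvT⟩ := h3
      have h4 : β' ≤ f (sn n : Set V) := (Finset.mem_filter.mp hvT).2.trans (h2 v hv)
      exact ⟨h4, fun v' hv' => max_le (h2 v' hv') h4⟩

/-- one gate -/
lemma ApL.gate {r : ℕ} {sp : P → Finset V} {sn : N → Finset V} {E : Finset P} {E' : Finset N}
    (hne : ∀ p, (sp p).Nonempty)
    (hlin : ∀ v v', v ≠ v' → (univ.filter (fun p => v ∈ sp p ∧ v' ∈ sp p)).card ≤ 1)
    {w : ℕ} (hw : w ≤ 2) {φ : (Fin w → ℝ) → ℝ} (hφ : Monotone φ) {f : Fin w → Set V → ℝ}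
    (β : Fin w → ℝ) (u : Fin w → V → ℝ) (h : ∀ j, ApL r sp sn E E' (f j) (β j) (u j)) :
    ∃ F : Finset P, F.card ≤ r ^ 2 ∧
      ApL (2 * r) sp sn (E ∪ F) E' (fun x => φ (fun j => f j x)) (φ β)
        (fun v => φ (fun j => u j v)) := by
  classical
  -- exceptional sets
  let exc : Fin w → Finset V := fun j => univ.filter (fun v => β j < u j v)
  have hexc : ∀ j, (exc j).card ≤ r := fun j => (h j).few
  have hnot : ∀ j v, v ∉ exc j → u j v = β j := by
    intro j v hv
    simp only [exc, Finset.mem_filter, Finset.mem_univ, true_and, not_lt] at hv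
    exact le_antisymm hv ((h j).base v)
  let F : Finset P := univ.filter (fun p => ∃ j j', j ≠ j' ∧ ∃ v ∈ exc j, ∃ v' ∈ exc j', v ≠ v' ∧
    v ∈ sp p ∧ v' ∈ sp p)
  have hfew : (univ.filter (fun v => φ β < φ (fun j => u j v))).card ≤ 2 * r := by
    have hsub : (univ.filter (fun v => φ β < φ (fun j => u j v))) ⊆ univ.biUnion exc := by
      intro v hv
      rw [Finset.mem_filter] at hv
      rw [Finset.mem_biUnion]
      by_contra hcon
      push Not at hcon
      have : (fun j => u j v) = β := by
        funext j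
        exact hnot j v (hcon j (mem_univ _))
      rw [this] at hv
      exact absurd hv.2 (lt_irrefl _)
    refine (Finset.card_le_card hsub).trans (Finset.card_biUnion_le.trans ?_)
    calc ∑ j : Fin w, (exc j).card ≤ ∑ _j : Fin w, r := Finset.sum_le_sum (fun j _ => hexc j)
      _ = w * r := by rw [Finset.sum_const, Finset.card_univ, Fintype.card_fin, smul_eq_mul]
      _ ≤ 2 * r := Nat.mul_le_mul_right _ hw
  have hneg : ∀ n, n ∉ E' → φ β ≤ φ (fun j => f j (sn n : Set V)) ∧
      ∀ v ∈ sn n, φ (fun j => u j v) ≤ φ (fun j => f j (sn n : Set V)) :=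
    fun n hn => ⟨hφ (fun j => ((h j).neg n hn).1), fun v hv => hφ (fun j => ((h j).neg n hn).2 v hv)⟩
  have hbase : ∀ v, φ β ≤ φ (fun j => u j v) := fun v => hφ (fun j => (h j).base v)
  rcases Nat.lt_or_ge w 2 with hw2 | hw2
  · -- at most one input
    refine ⟨∅, by simp, hbase, hfew, ?_, hneg⟩
    intro p hp
    rw [Finset.union_empty] at hp
    rcases Nat.lt_or_ge w 1 with hw1 | hw1
    · obtain ⟨v, hv⟩ := hne p
      refine ⟨v, hv, le_of_eq ?_⟩
      show φ (fun j => f j _) = φ (fun j => u j v)
      congr 1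
      funext j
      have := j.isLt
      omega
    · have hw' : w = 1 := by omega
      subst hw'
      obtain ⟨v, hv, hfv⟩ := (h 0).pos p hp
      refine ⟨v, hv, hφ (fun j => ?_)⟩
      have hj : j = 0 := Subsingleton.elim _ _
      subst hj
      exact hfv
  · have hw' : w = 2 := by omega
    subst hw'
    refine ⟨F, ?_, hbase, hfew, ?_, hneg⟩
    · have hsub : F ⊆ ((exc 0 ×ˢ exc 1).filter (fun q => q.1 ≠ q.2)).biUnion
          (fun q => univ.filter (fun p => q.1 ∈ sp p ∧ q.2 ∈ sp p)) := by
        intro p hp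
        simp only [F, Finset.mem_filter, Finset.mem_univ, true_and] at hp
        obtain ⟨j, j', hjj, v, hv, v', hv', hvv, h1, h2⟩ := hp
        rw [Finset.mem_biUnion]
        have hcase : (j = 0 ∧ j' = 1) ∨ (j = 1 ∧ j' = 0) := by
          rcases j with ⟨_ | _ | j, hj⟩ <;> rcases j' with ⟨_ | _ | j', hj'⟩ <;>
            simp_all <;> omega
        rcases hcase with ⟨rfl, rfl⟩ | ⟨rfl, rfl⟩
        · exact ⟨(v, v'), by
            rw [Finset.mem_filter, Finset.mem_product]
            exact ⟨⟨hv, hv'⟩, hvv⟩, by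
            rw [Finset.mem_filter]
            exact ⟨mem_univ _, h1, h2⟩⟩
        · exact ⟨(v', v), by
            rw [Finset.mem_filter, Finset.mem_product]
            exact ⟨⟨hv', hv⟩, hvv.symm⟩, by
            rw [Finset.mem_filter]
            exact ⟨mem_univ _, h2, h1⟩⟩
      refine (Finset.card_le_card hsub).trans (Finset.card_biUnion_le.trans ?_)
      calc _ ≤ ∑ _q ∈ (exc 0 ×ˢ exc 1).filter (fun q => q.1 ≠ q.2), 1 :=
            Finset.sum_le_sum (fun q hq => hlin _ _ (Finset.mem_filter.mp hq).2)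
        _ = ((exc 0 ×ˢ exc 1).filter (fun q => q.1 ≠ q.2)).card := by simp
        _ ≤ (exc 0 ×ˢ exc 1).card := Finset.card_filter_le _ _
        _ = (exc 0).card * (exc 1).card := Finset.card_product _ _
        _ ≤ r * r := Nat.mul_le_mul (hexc 0) (hexc 1)
        _ = r ^ 2 := by ring
    · intro p hp
      rw [Finset.mem_union, not_or] at hp
      obtain ⟨v0, hv0, h0⟩ := (h 0).pos p hp.1
      obtain ⟨v1, hv1, h1⟩ := (h 1).pos p hp.1
      have two : ∀ (x y : Fin 2 → ℝ), x 0 ≤ y 0 → x 1 ≤ y 1 → x ≤ y := by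
        intro x y e0 e1 j
        rcases j with ⟨_ | _ | j, hj⟩
        · exact e0
        · exact e1
        · omega
      by_cases hvv : v0 = v1
      · subst hvv
        exact ⟨v0, hv0, hφ (two _ _ h0 h1)⟩
      · by_cases he0 : v0 ∈ exc 0
        · by_cases he1 : v1 ∈ exc 1
          · exfalso
            apply hp.2
            simp only [F, Finset.mem_filter, Finset.mem_univ, true_and]
            exact ⟨0, 1, by simp, v0, he0, v1, he1, hvv, hv0, hv1⟩
          · refine ⟨v0, hv0, hφ (two _ _ h0 ?_)⟩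
            rw [hnot 1 v1 he1] at h1
            exact h1.trans ((h 1).base v0)
        · refine ⟨v1, hv1, hφ (two _ _ ?_ h1)⟩
          rw [hnot 0 v0 he0] at h0
          exact h0.trans ((h 0).base v1)

/-- approximation of programs -/
theorem apL_prog {r D : ℕ} {sp : P → Finset V} {sn : N → Finset V}
    (hne : ∀ p, (sp p).Nonempty)
    (hlin : ∀ v v', v ≠ v' → (univ.filter (fun p => v ∈ sp p ∧ v' ∈ sp p)).card ≤ 1)
    (hmiss : ∀ T : Finset V, r < T.card →
      (univ.filter (fun n => Disjoint (sn n) T)).card ≤ D)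
    {B : Set (Set V → ℝ)} (hB : ∀ b ∈ B, ∃ β u, ApL r sp sn ∅ ∅ b β u)
    {L : List (Set V → ℝ)} (hL : RProg B L) :
    ∃ (E : Finset P) (E' : Finset N), E.card ≤ L.length * r ^ 2 ∧ E'.card ≤ L.length * D ∧
      ∀ f, (f ∈ B ∨ f ∈ L) → ∃ β u, ApL r sp sn E E' f β u := by
  classical
  induction hL with
  | nil =>
    refine ⟨∅, ∅, by simp, by simp, fun f hf => ?_⟩
    rcases hf with hf | hf
    · exact hB f hf
    · simp at hf
  | @gate L w hw φ hφ f hL hf ih =>
    obtain ⟨E, E', hE, hE', hap⟩ := ih
    choose β u hβu using fun j => hap (f j) (hf j)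
    obtain ⟨F, hF, hg⟩ := ApL.gate hne hlin hw hφ β u hβu
    obtain ⟨F', β', u', hF', hg'⟩ := hg.trim hmiss
    refine ⟨E ∪ F, E' ∪ F', ?_, ?_, ?_⟩
    · rw [List.length_cons, Nat.add_mul, Nat.one_mul]
      exact (Finset.card_union_le _ _).trans (Nat.add_le_add hE hF)
    · rw [List.length_cons, Nat.add_mul, Nat.one_mul]
      exact (Finset.card_union_le _ _).trans (Nat.add_le_add hE' hF')
    · intro g hgm
      rcases hgm with hgB | hgL
      · obtain ⟨b, v, hbv⟩ := hap g (Or.inl hgB)
        exact ⟨b, v, hbv.mono Finset.subset_union_left Finset.subset_union_left⟩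
      · rcases List.mem_cons.mp hgL with rfl | hgL
        · exact ⟨β', u', hg'⟩
        · obtain ⟨b, v, hbv⟩ := hap g (Or.inr hgL)
          exact ⟨b, v, hbv.mono Finset.subset_union_left Finset.subset_union_left⟩

/-- The acceptance probabilities. -/
theorem lin_hard {r D Dg : ℕ} {sp : P → Finset V} {sn : N → Finset V}
    (hne : ∀ p, (sp p).Nonempty)
    (hlin : ∀ v v', v ≠ v' → (univ.filter (fun p => v ∈ sp p ∧ v' ∈ sp p)).card ≤ 1)
    (hdeg : ∀ v, (univ.filter (fun p => v ∈ sp p)).card ≤ Dg)
    (hmiss : ∀ T : Finset V, r < T.card →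
      (univ.filter (fun n => Disjoint (sn n) T)).card ≤ D)
    {B : Set (Set V → ℝ)} (hB : ∀ b ∈ B, ∃ β u, ApL r sp sn ∅ ∅ b β u)
    {L : List (Set V → ℝ)} (hL : RProg B L) (g : Set V → ℝ) (hg : g ∈ B ∨ g ∈ L) (τ : ℝ) :
    (univ.filter (fun p => τ ≤ g (sp p : Set V))).card * Fintype.card N ≤
      (univ.filter (fun n => τ ≤ g (sn n : Set V))).card * Fintype.card P +
      ((L.length * r ^ 2 + r * Dg) * Fintype.card N + L.length * D * Fintype.card P) := by
  classical
  obtain ⟨E, E', hE, hE', hap⟩ := apL_prog hne hlin hmiss hB hL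
  obtain ⟨β, u, h⟩ := hap g hg
  by_cases hβ : τ ≤ β
  · -- most negative tests are accepted
    have h1 : univ ⊆ E' ∪ univ.filter (fun n => τ ≤ g (sn n : Set V)) := by
      intro n _
      by_cases hn : n ∈ E'
      · exact Finset.mem_union_left _ hn
      · exact Finset.mem_union_right _ (Finset.mem_filter.mpr ⟨mem_univ _,
          hβ.trans (h.neg n hn).1⟩)
    have h2 := (Finset.card_le_card h1).trans (Finset.card_union_le _ _)
    rw [Finset.card_univ] at h2
    have h3 : (univ.filter (fun p => τ ≤ g (sp p : Set V))).card ≤ Fintype.card P := by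
      rw [← Finset.card_univ]; exact Finset.card_filter_le _ _
    calc _ ≤ Fintype.card P * Fintype.card N := Nat.mul_le_mul_right _ h3
      _ ≤ Fintype.card P * (L.length * D + (univ.filter (fun n => τ ≤ g (sn n : Set V))).card) :=
          Nat.mul_le_mul_left _ (h2.trans (Nat.add_le_add_right hE' _))
      _ = (univ.filter (fun n => τ ≤ g (sn n : Set V))).card * Fintype.card P +
          L.length * D * Fintype.card P := by ring
      _ ≤ _ := by
          apply Nat.add_le_add_left
          exact Nat.le_add_left _ _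
  · -- few positive tests are accepted
    rw [not_le] at hβ
    have h1 : univ.filter (fun p => τ ≤ g (sp p : Set V)) ⊆
        E ∪ (univ.filter (fun v => β < u v)).biUnion (fun v => univ.filter (fun p => v ∈ sp p)) := by
      intro p hp
      rw [Finset.mem_filter] at hp
      by_cases hpE : p ∈ E
      · exact Finset.mem_union_left _ hpE
      · obtain ⟨v, hv, hgv⟩ := h.pos p hpE
        refine Finset.mem_union_right _ (Finset.mem_biUnion.mpr ⟨v, ?_, ?_⟩)
        · exact Finset.mem_filter.mpr ⟨mem_univ _, hβ.trans_le (hp.2.trans hgv)⟩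
        · exact Finset.mem_filter.mpr ⟨mem_univ _, hv⟩
    have h2 : (univ.filter (fun p => τ ≤ g (sp p : Set V))).card ≤ L.length * r ^ 2 + r * Dg := by
      refine (Finset.card_le_card h1).trans ((Finset.card_union_le _ _).trans ?_)
      refine Nat.add_le_add hE (Finset.card_biUnion_le.trans ?_)
      calc _ ≤ ∑ _v ∈ univ.filter (fun v => β < u v), Dg := Finset.sum_le_sum (fun v _ => hdeg v)
        _ = (univ.filter (fun v => β < u v)).card * Dg := by
            rw [Finset.sum_const, smul_eq_mul]
        _ ≤ r * Dg := Nat.mul_le_mul_right _ h.few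
    calc _ ≤ (L.length * r ^ 2 + r * Dg) * Fintype.card N := Nat.mul_le_mul_right _ h2
      _ ≤ (L.length * r ^ 2 + r * Dg) * Fintype.card N + L.length * D * Fintype.card P :=
          Nat.le_add_right _ _
      _ ≤ _ := Nat.le_add_left _ _

/-- constants and single variables -/
lemma apL_const {r : ℕ} (sp : P → Finset V) (sn : N → Finset V) (hne : ∀ p, (sp p).Nonempty)
    (c : ℝ) : ∃ β u, ApL r sp sn ∅ ∅ (fun _ => c) β u := by
  classical
  refine ⟨c, fun _ => c, fun _ => le_rfl, by simp, fun p _ => ?_, fun n _ => ⟨le_rfl, fun _ _ => le_rfl⟩⟩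
  obtain ⟨v, hv⟩ := hne p
  exact ⟨v, hv, le_rfl⟩

lemma apL_var {r : ℕ} (hr : 1 ≤ r) (sp : P → Finset V) (sn : N → Finset V)
    (hne : ∀ p, (sp p).Nonempty) (v0 : V) (f : Set V → ℝ) (c d : ℝ) (hcd : c ≤ d)
    (h1 : ∀ X : Set V, v0 ∈ X → f X = d) (h0 : ∀ X : Set V, v0 ∉ X → f X = c) :
    ∃ β u, ApL r sp sn ∅ ∅ f β u := by
  classical
  refine ⟨c, fun v => if v = v0 then d else c, fun v => ?_, ?_, fun p _ => ?_, fun n _ => ?_⟩
  · beta_reduce
    split_ifs
    · exact hcd
    · exact le_rfl
  · refine (Finset.card_le_card (t := {v0}) ?_).trans (by simpa using hr)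
    intro v hv
    rw [Finset.mem_filter] at hv
    rw [Finset.mem_singleton]
    by_contra hne
    have := hv.2
    rw [if_neg hne] at this
    exact absurd this (lt_irrefl _)
  · by_cases hp : v0 ∈ sp p
    · refine ⟨v0, hp, ?_⟩
      rw [h1 _ (by exact_mod_cast hp), if_pos rfl]
    · obtain ⟨v, hv⟩ := hne p
      refine ⟨v, hv, ?_⟩
      rw [h0 _ (by exact_mod_cast hp)]
      split_ifs
      · exact hcd
      · exact le_rfl
  · by_cases hn : v0 ∈ sn n
    · rw [h1 _ (by exact_mod_cast hn)]
      refine ⟨hcd, fun v _ => ?_⟩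
      split_ifs
      · exact le_rfl
      · exact hcd
    · rw [h0 _ (by exact_mod_cast hn)]
      refine ⟨le_rfl, fun v hv => ?_⟩
      rw [if_neg (by rintro rfl; exact hn hv)]

end lin

end Pool.Agent.H560R2
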