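import Mathlib

/-! Large sets of words contain large cubes (Natarajan). -/

set_option linter.unusedSectionVars false
set_option linter.unusedVariables false

namespace Pool.Agent.H560R2

open Finset

section nat

variable {q : ℕ}

/-- pairs of different letters -/
abbrev Pr (q : ℕ) : Type := {p : Fin q × Fin q // p.1 < p.2}

/-- the pattern `s` is shattered by `R` -/
def Shat {k : ℕ} (R : Finset (Fin k → Fin q)) (s : Fin k → Option (Pr q)) : Prop :=
  ∀ w : Fin k → Bool, ∃ a ∈ R, ∀ i, ∀ p, s i = some p → a i = if w i = true then p.1.2 else p.1.1

/-- the support of a pattern -/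
def psupp {k : ℕ} (s : Fin k → Option (Pr q)) : Finset (Fin k) := univ.filter (fun i => s i ≠ none)

open Classical in
theorem natarajan {k : ℕ} (R : Finset (Fin k → Fin q)) :
    R.card ≤ (univ.filter (fun s => Shat R s)).card := by
  induction k with
  | zero =>
    rcases Finset.eq_empty_or_nonempty R with rfl | hne
    · simp
    · have h1 : R.card ≤ 1 := Finset.card_le_one.mpr (fun a _ b _ => Subsingleton.elim a b)
      refine h1.trans ?_
      rw [Nat.one_le_iff_ne_zero, ← Nat.pos_iff_ne_zero, Finset.card_pos]
      obtain ⟨a, ha⟩ := hne
      exact ⟨fun i => none, Finset.mem_filter.mpr ⟨mem_univ _, fun w => ⟨a, ha, fun i => i.elim0⟩⟩⟩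
  | succ k ih =>
    let Rc : Fin q → Finset (Fin k → Fin q) := fun c => univ.filter (fun a => Fin.cons c a ∈ R)
    have h1 : R.card ≤ ∑ c, (Rc c).card := by
      rw [Finset.card_eq_sum_card_fiberwise (f := fun a : Fin (k + 1) → Fin q => a 0) (t := univ)
        (fun _ _ => Finset.mem_coe.mpr (mem_univ _))]
      refine Finset.sum_le_sum (fun c _ => ?_)
      refine Finset.card_le_card_of_injOn (fun a => Fin.tail a) ?_ ?_
      · intro a ha
        have ha' := Finset.mem_filter.mp (Finset.mem_coe.mp ha)
        refine Finset.mem_coe.mpr (Finset.mem_filter.mpr ⟨mem_univ _, ?_⟩)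
        rw [← ha'.2, Fin.cons_self_tail]
        exact ha'.1
      · intro a ha b hb hab
        have ha' := (Finset.mem_filter.mp (Finset.mem_coe.mp ha)).2
        have hb' := (Finset.mem_filter.mp (Finset.mem_coe.mp hb)).2
        rw [← Fin.cons_self_tail a, ← Fin.cons_self_tail b]
        have e1 : a 0 = b 0 := ha'.trans hb'.symm
        have e2 : Fin.tail a = Fin.tail b := hab
        rw [e1, e2]
    refine h1.trans ((Finset.sum_le_sum (fun c _ => ih (Rc c))).trans ?_)
    have h2 : ∑ c, (univ.filter (fun s => Shat (Rc c) s)).card =
        ∑ s' : Fin k → Option (Pr q), (univ.filter (fun c => Shat (Rc c) s')).card := by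
      simp only [Finset.card_filter]
      exact Finset.sum_comm
    rw [h2, Finset.card_eq_sum_card_fiberwise (s := univ.filter (fun s => Shat R s))
      (f := fun s : Fin (k + 1) → Option (Pr q) => Fin.tail s) (t := univ)
      (fun _ _ => Finset.mem_coe.mpr (mem_univ _))]
    refine Finset.sum_le_sum (fun s' _ => ?_)
    set I := univ.filter (fun c => Shat (Rc c) s') with hI
    rcases Finset.eq_empty_or_nonempty I with he | he
    · rw [he]; simp
    · set c0 := I.min' he with hc0
      have hc0I : c0 ∈ I := Finset.min'_mem I he
      have hsh0 : Shat (Rc c0) s' := (Finset.mem_filter.mp hc0I).2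
      have hlt : ∀ c ∈ I, c ≠ c0 → c0 < c := fun c hc hne =>
        lt_of_le_of_ne (Finset.min'_le I c hc) (Ne.symm hne)
      refine Finset.card_le_card_of_injOn (fun c =>
        Fin.cons (if h : c0 < c then some ⟨(c0, c), h⟩ else none) s') ?_ ?_
      · intro c hc
        have hc' : c ∈ I := Finset.mem_coe.mp hc
        have hsh : Shat (Rc c) s' := (Finset.mem_filter.mp hc').2
        refine Finset.mem_coe.mpr (Finset.mem_filter.mpr ⟨Finset.mem_filter.mpr
          ⟨mem_univ _, ?_⟩, Fin.tail_cons _ _⟩)
        intro w
        by_cases hlt' : c0 < c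
        · beta_reduce
          rw [dif_pos hlt']
          by_cases hw : w 0 = true
          · obtain ⟨a, ha, hag⟩ := hsh (fun i => w i.succ)
            refine ⟨Fin.cons c a, (Finset.mem_filter.mp ha).2, ?_⟩
            intro i p hp
            refine Fin.cases (fun hp => ?_) (fun j hp => ?_) i hp
            · rw [Fin.cons_zero, Option.some_inj] at hp
              rw [Fin.cons_zero, if_pos hw, ← hp]
            · rw [Fin.cons_succ] at hp
              rw [Fin.cons_succ]
              exact hag j p hp
          · obtain ⟨a, ha, hag⟩ := hsh0 (fun i => w i.succ)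
            refine ⟨Fin.cons c0 a, (Finset.mem_filter.mp ha).2, ?_⟩
            intro i p hp
            refine Fin.cases (fun hp => ?_) (fun j hp => ?_) i hp
            · rw [Fin.cons_zero, Option.some_inj] at hp
              rw [Fin.cons_zero, if_neg hw, ← hp]
            · rw [Fin.cons_succ] at hp
              rw [Fin.cons_succ]
              exact hag j p hp
        · beta_reduce
          rw [dif_neg hlt']
          obtain ⟨a, ha, hag⟩ := hsh0 (fun i => w i.succ)
          refine ⟨Fin.cons c0 a, (Finset.mem_filter.mp ha).2, ?_⟩
          intro i p hp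
          refine Fin.cases (fun hp => ?_) (fun j hp => ?_) i hp
          · rw [Fin.cons_zero] at hp
            exact absurd hp (by simp)
          · rw [Fin.cons_succ] at hp
            rw [Fin.cons_succ]
            exact hag j p hp
      · intro c hc c' hc' heq
        have h0 := congrFun heq 0
        simp only [Fin.cons_zero] at h0
        by_cases h1 : c0 < c
        · by_cases h2 : c0 < c'
          · rw [dif_pos h1, dif_pos h2, Option.some_inj, Subtype.mk.injEq, Prod.mk.injEq] at h0
            exact h0.2
          · rw [dif_pos h1, dif_neg h2] at h0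
            exact absurd h0 (by simp)
        · by_cases h2 : c0 < c'
          · rw [dif_neg h1, dif_pos h2] at h0
            exact absurd h0 (by simp)
          · have e1 : c = c0 := by
              by_contra hne
              exact h1 (hlt c (Finset.mem_coe.mp hc) hne)
            have e2 : c' = c0 := by
              by_contra hne
              exact h2 (hlt c' (Finset.mem_coe.mp hc') hne)
            rw [e1, e2]

/-- the number of patterns with small support -/
lemma pattern_count (k d L : ℕ) (hL : 1 ≤ L) (hd : d ≤ k) :
    (univ.filter (fun s : Fin k → Option (Pr q) => (psupp s).card ≤ d)).card * L ^ (k - d) ≤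
      (L + Fintype.card (Pr q)) ^ k := by
  classical
  have h1 : ∑ s : Fin k → Option (Pr q), ∏ i, (if s i = none then L else 1) =
      (L + Fintype.card (Pr q)) ^ k := by
    rw [← Fintype.prod_sum (fun (_ : Fin k) (o : Option (Pr q)) => if o = none then L else 1)]
    rw [Finset.prod_const, Finset.card_univ, Fintype.card_fin]
    congr 1
    rw [Fintype.sum_option]
    simp
  rw [← h1]
  calc _ = ∑ s ∈ univ.filter (fun s : Fin k → Option (Pr q) => (psupp s).card ≤ d),
        L ^ (k - d) := by rw [Finset.sum_const, smul_eq_mul]
    _ ≤ ∑ s ∈ univ.filter (fun s : Fin k → Option (Pr q) => (psupp s).card ≤ d),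
        ∏ i, (if s i = none then L else 1) := by
      refine Finset.sum_le_sum (fun s hs => ?_)
      have hs' := (Finset.mem_filter.mp hs).2
      rw [Finset.prod_ite, Finset.prod_const, Finset.prod_const_one, mul_one]
      apply Nat.pow_le_pow_right hL
      have : (univ.filter (fun i => s i = none)).card + (psupp s).card = k := by
        have := Finset.card_filter_add_card_filter_not (s := (univ : Finset (Fin k)))
          (fun i => s i = none)
        rw [Finset.card_univ, Fintype.card_fin] at this
        exact this
      omega
    _ ≤ _ := Finset.sum_le_sum_of_subset (Finset.filter_subset _ _)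

/-- A large set of words shatters a large set of positions. -/
theorem exists_cube {k : ℕ} (R : Finset (Fin k → Fin q)) (d L : ℕ) (hL : 1 ≤ L) (hd : d ≤ k)
    (h : (L + Fintype.card (Pr q)) ^ k < R.card * L ^ (k - d)) :
    ∃ s : Fin k → Option (Pr q), Shat R s ∧ d < (psupp s).card := by
  classical
  by_contra hcon
  push Not at hcon
  have h1 := natarajan R
  have h2 : (univ.filter (fun s => Shat R s)).card ≤
      (univ.filter (fun s : Fin k → Option (Pr q) => (psupp s).card ≤ d)).card := by
    apply Finset.card_le_card
    intro s hs
    exact Finset.mem_filter.mpr ⟨mem_univ _, hcon s (Finset.mem_filter.mp hs).2⟩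
  have h3 := pattern_count (q := q) k d L hL hd
  have h4 : R.card * L ^ (k - d) ≤ (L + Fintype.card (Pr q)) ^ k :=
    (Nat.mul_le_mul_right _ (h1.trans h2)).trans h3
  omega

lemma card_Pr : Fintype.card (Pr q) ≤ q ^ 2 := by
  classical
  calc Fintype.card (Pr q) ≤ Fintype.card (Fin q × Fin q) := Fintype.card_subtype_le _
    _ = q ^ 2 := by rw [Fintype.card_prod, Fintype.card_fin, sq]

end nat

end Pool.Agent.H560R2
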