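import Pool.Agent.H560R2.Sum2

/-! Random linear functions modulo a prime hit every large set of words. -/

set_option linter.unusedSectionVars false
set_option linter.unusedVariables false

namespace Pool.Agent.H560R2

open Finset

/-- pairs of bit vectors with the same number of ones -/
def eqw (t : ℕ) : Finset ((Fin t → Bool) × (Fin t → Bool)) :=
  univ.filter (fun b => (univ.filter (fun l => b.1 l = true)).card =
    (univ.filter (fun l => b.2 l = true)).card)

lemma eqw_card (t : ℕ) : (eqw t).card ≤ t.centralBinom := by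
  classical
  have h1 : (powersetCard t (univ : Finset (Fin t ⊕ Fin t))).card = t.centralBinom := by
    rw [Finset.card_powersetCard, Finset.card_univ, Fintype.card_sum, Fintype.card_fin,
      Nat.centralBinom_eq_two_mul_choose, two_mul]
  rw [← h1]
  refine Finset.card_le_card_of_injOn (fun b => univ.filter (fun x : Fin t ⊕ Fin t =>
    Sum.elim (fun l => b.1 l = true) (fun l => b.2 l = false) x)) ?_ ?_
  · intro b hb
    have hb' := (Finset.mem_filter.mp (Finset.mem_coe.mp hb)).2
    refine Finset.mem_coe.mpr (Finset.mem_powersetCard.mpr ⟨Finset.subset_univ _, ?_⟩)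
    have e1 : (univ.filter (fun x : Fin t ⊕ Fin t =>
        Sum.elim (fun l => b.1 l = true) (fun l => b.2 l = false) x)).card =
        (univ.filter (fun l => b.1 l = true)).card + (univ.filter (fun l => b.2 l = false)).card := by
      simp only [Finset.card_filter, Fintype.sum_sum_type, Sum.elim_inl, Sum.elim_inr]
      congr 1
      · exact Finset.sum_congr rfl (fun l _ => by by_cases hx : b.1 l = true <;> simp [hx])
      · exact Finset.sum_congr rfl (fun l _ => by by_cases hx : b.2 l = false <;> simp [hx])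
    rw [e1, hb']
    have := Finset.card_filter_add_card_filter_not (s := (univ : Finset (Fin t)))
      (fun l => b.2 l = true)
    rw [Finset.card_univ, Fintype.card_fin] at this
    simpa only [Bool.not_eq_true] using this
  · intro b _ b' _ h
    have h' := fun x => Finset.ext_iff.mp h x
    simp only [Finset.mem_filter, Finset.mem_univ, true_and] at h'
    refine Prod.ext (funext fun l => ?_) (funext fun l => ?_)
    · have := h' (Sum.inl l)
      simp only [Sum.elim_inl] at this
      exact Bool.eq_iff_iff.mpr this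
    · have := h' (Sum.inr l)
      simp only [Sum.elim_inr] at this
      rcases hb : b.2 l with _ | _ <;> rcases hb' : b'.2 l with _ | _ <;> simp_all

lemma central_sq (t : ℕ) : (2 * t + 1) * t.centralBinom ^ 2 ≤ 16 ^ t := by
  induction t with
  | zero => simp
  | succ n ih =>
    have h := Nat.succ_mul_centralBinom_succ n
    have h2 : (n + 1) ^ 2 * ((2 * (n + 1) + 1) * (n + 1).centralBinom ^ 2) ≤
        (n + 1) ^ 2 * 16 ^ (n + 1) := by
      calc (n + 1) ^ 2 * ((2 * (n + 1) + 1) * (n + 1).centralBinom ^ 2)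
          = (2 * n + 3) * ((n + 1) * (n + 1).centralBinom) ^ 2 := by ring
        _ = (2 * n + 3) * (2 * (2 * n + 1) * n.centralBinom) ^ 2 := by rw [h]
        _ = (4 * ((2 * n + 3) * (2 * n + 1))) * ((2 * n + 1) * n.centralBinom ^ 2) := by ring
        _ ≤ (16 * (n + 1) ^ 2) * 16 ^ n := Nat.mul_le_mul (by nlinarith) ih
        _ = _ := by ring
    exact Nat.le_of_mul_le_mul_left h2 (by positivity)

section moment

variable {Q : ℕ} [Fact Q.Prime] {q k : ℕ}

/-- the value of the word `a` under the linear function `α` -/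
def lval (α : Fin k → ZMod Q) (a : Fin k → Fin q) : ZMod Q := ∑ i, α i * ((a i : ℕ) : ZMod Q)

/-- the sum of characters -/
noncomputable def csum {W : Type} [Fintype W] (f : W → Fin k → Fin q) (h : ZMod Q)
    (α : Fin k → ZMod Q) : ℂ := ∑ w, ZMod.stdAddChar (h * lval α (f w))

lemma norm_char (x : ZMod Q) : ‖(ZMod.stdAddChar x : ℂ)‖ = 1 :=
  AddChar.norm_apply _ _

lemma conj_char (x : ZMod Q) :
    (starRingEnd ℂ) (ZMod.stdAddChar x : ℂ) = ZMod.stdAddChar (-x) := by
  rw [AddChar.map_neg_eq_conj]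

lemma char_fsum {ι : Type} (S : Finset ι) (g : ι → ZMod Q) :
    (ZMod.stdAddChar (∑ i ∈ S, g i) : ℂ) = ∏ i ∈ S, (ZMod.stdAddChar (g i) : ℂ) := by
  classical
  induction S using Finset.induction_on with
  | empty => simp
  | insert a S ha ih => rw [Finset.sum_insert ha, Finset.prod_insert ha, AddChar.map_add_eq_mul, ih]

lemma char_sum (y : ZMod Q) : ∑ x : ZMod Q, (ZMod.stdAddChar (x * y) : ℂ) =
    if y = 0 then (Q : ℂ) else 0 := by
  have := AddChar.sum_mulShift y (ZMod.isPrimitive_stdAddChar Q)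
  rw [this, ZMod.card]
  simp

lemma char_sum_vec (y : Fin k → ZMod Q) :
    ∑ α : Fin k → ZMod Q, (ZMod.stdAddChar (∑ i, α i * y i) : ℂ) =
    if (∀ i, y i = 0) then (Q : ℂ) ^ k else 0 := by
  classical
  have h1 : ∀ α : Fin k → ZMod Q, (ZMod.stdAddChar (∑ i, α i * y i) : ℂ) =
      ∏ i, (ZMod.stdAddChar (α i * y i) : ℂ) := fun α => char_fsum _ _
  simp only [h1]
  rw [← Fintype.prod_sum (fun (i : Fin k) (x : ZMod Q) => (ZMod.stdAddChar (x * y i) : ℂ))]
  simp only [char_sum]
  by_cases h : ∀ i, y i = 0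
  · rw [if_pos h]
    simp [h]
  · rw [if_neg h]
    push Not at h
    obtain ⟨i, hi⟩ := h
    exact Finset.prod_eq_zero (mem_univ i) (if_neg hi)

/-- the sum of the digits of the words in a tuple -/
def dsum {W : Type} {t : ℕ} (f : W → Fin k → Fin q) (p : Fin t → W) (i : Fin k) : ZMod Q :=
  ∑ l, ((f (p l) i : ℕ) : ZMod Q)

lemma lval_sum {W : Type} {t : ℕ} (f : W → Fin k → Fin q) (p : Fin t → W) (α : Fin k → ZMod Q) :
    ∑ l, lval α (f (p l)) = ∑ i, α i * dsum (Q := Q) f p i := by
  unfold lval dsum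
  rw [Finset.sum_comm]
  apply Finset.sum_congr rfl
  intro i _
  rw [Finset.mul_sum]

/-- the moments -/
theorem moment_eq {W : Type} [Fintype W] (f : W → Fin k → Fin q) (h : ZMod Q)
    (hh : h ≠ 0) (t : ℕ) :
    ∑ α : Fin k → ZMod Q, ‖csum f h α‖ ^ (2 * t) =
      (Q : ℝ) ^ k * ((univ.filter (fun p : (Fin t → W) × (Fin t → W) =>
        ∀ i, dsum (Q := Q) f p.1 i = dsum f p.2 i)).card : ℝ) := by
  classical
  have hc : ((∑ α : Fin k → ZMod Q, ‖csum f h α‖ ^ (2 * t) : ℝ) : ℂ) =
      ((Q : ℝ) ^ k * ((univ.filter (fun p : (Fin t → W) × (Fin t → W) =>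
        ∀ i, dsum (Q := Q) f p.1 i = dsum f p.2 i)).card : ℝ) : ℝ) := by
    push_cast
    have h1 : ∀ α : Fin k → ZMod Q, ((‖csum f h α‖ : ℂ)) ^ (2 * t) =
        ∑ p : (Fin t → W) × (Fin t → W), ZMod.stdAddChar
          (∑ i, α i * (h * (dsum (Q := Q) f p.1 i - dsum f p.2 i))) := by
      intro α
      have e1 : ((‖csum f h α‖ : ℂ)) ^ (2 * t) =
          (csum f h α) ^ t * ((starRingEnd ℂ) (csum f h α)) ^ t := by
        rw [← mul_pow, Complex.mul_conj, pow_mul, Complex.normSq_eq_norm_sq]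
        push_cast
        rfl
      have e2 : (csum f h α) ^ t = ∑ p : Fin t → W,
          (ZMod.stdAddChar (h * ∑ l, lval α (f (p l))) : ℂ) := by
        unfold csum
        rw [Fintype.sum_pow]
        apply Finset.sum_congr rfl
        intro p _
        rw [Finset.mul_sum, char_fsum]
      have e3 : ((starRingEnd ℂ) (csum f h α)) ^ t = ∑ p : Fin t → W,
          (ZMod.stdAddChar (-(h * ∑ l, lval α (f (p l)))) : ℂ) := by
        rw [← map_pow, e2, map_sum]
        apply Finset.sum_congr rfl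
        intro p _
        exact conj_char _
      rw [e1, e2, e3, Finset.sum_mul_sum, Fintype.sum_prod_type]
      apply Finset.sum_congr rfl
      intro p _
      apply Finset.sum_congr rfl
      intro p' _
      rw [← AddChar.map_add_eq_mul, lval_sum, lval_sum]
      congr 1
      rw [← sub_eq_add_neg, ← mul_sub, ← Finset.sum_sub_distrib, Finset.mul_sum]
      apply Finset.sum_congr rfl
      intro i _
      ring
    simp only [h1]
    rw [Finset.sum_comm]
    simp only [char_sum_vec]
    rw [← Finset.sum_filter, Finset.sum_const, nsmul_eq_mul, mul_comm]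
    congr 2
    apply congrArg
    apply Finset.filter_congr
    intro p _
    apply forall_congr'
    intro i
    rw [mul_eq_zero, sub_eq_zero]
    exact or_iff_right hh
  exact_mod_cast hc

/-- if no word is mapped to `1`, then some character sum is large -/
lemma miss_large {W : Type} [Fintype W] (f : W → Fin k → Fin q) (α : Fin k → ZMod Q)
    (hmiss : ∀ w, lval α (f w) ≠ 1) :
    ∃ h : ZMod Q, h ≠ 0 ∧ (Fintype.card W : ℝ) ≤ Q * ‖csum f h α‖ := by
  classical
  have h1 : ∑ h : ZMod Q, (ZMod.stdAddChar (-h) : ℂ) * csum f h α = 0 := by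
    unfold csum
    simp only [Finset.mul_sum]
    rw [Finset.sum_comm]
    apply Finset.sum_eq_zero
    intro w _
    have : ∀ h : ZMod Q, (ZMod.stdAddChar (-h) : ℂ) * ZMod.stdAddChar (h * lval α (f w)) =
        ZMod.stdAddChar (h * (lval α (f w) - 1)) := by
      intro h
      rw [← AddChar.map_add_eq_mul]
      congr 1
      ring
    simp only [this]
    rw [char_sum, if_neg (sub_ne_zero.mpr (hmiss w))]
  rw [← Finset.add_sum_erase univ _ (mem_univ (0 : ZMod Q))] at h1
  have h0 : (ZMod.stdAddChar (-(0 : ZMod Q)) : ℂ) * csum f 0 α = Fintype.card W := by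
    unfold csum
    simp
  rw [h0] at h1
  have h2 : (Fintype.card W : ℝ) ≤ ∑ h ∈ univ.erase (0 : ZMod Q), ‖csum f h α‖ := by
    have h3 : (Fintype.card W : ℂ) = -∑ h ∈ univ.erase (0 : ZMod Q),
        (ZMod.stdAddChar (-h) : ℂ) * csum f h α := eq_neg_of_add_eq_zero_left h1
    have h4 : ‖(Fintype.card W : ℂ)‖ = (Fintype.card W : ℝ) := by simp
    rw [← h4, h3, norm_neg]
    refine (norm_sum_le _ _).trans (Finset.sum_le_sum (fun h _ => ?_))
    rw [norm_mul, norm_char, one_mul]
  by_contra hcon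
  push Not at hcon
  have hQ1 : 1 < Q := (Fact.out : Q.Prime).one_lt
  have hQ0 : (0 : ℝ) < Q := by exact_mod_cast (by omega : 0 < Q)
  have hcard : (univ.erase (0 : ZMod Q)).card = Q - 1 := by
    rw [Finset.card_erase_of_mem (mem_univ _), Finset.card_univ, ZMod.card]
  have hne : (univ.erase (0 : ZMod Q)).Nonempty := by
    rw [← Finset.card_pos, hcard]; omega
  have h5 : (Q : ℝ) * ∑ h ∈ univ.erase (0 : ZMod Q), ‖csum f h α‖ <
      ∑ _h ∈ univ.erase (0 : ZMod Q), (Fintype.card W : ℝ) := by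
    rw [Finset.mul_sum]
    exact Finset.sum_lt_sum_of_nonempty hne (fun h hh => hcon h (Finset.mem_erase.mp hh).1)
  rw [Finset.sum_const, hcard, nsmul_eq_mul] at h5
  have h6 : ((Q - 1 : ℕ) : ℝ) ≤ Q := by exact_mod_cast Nat.sub_le _ _
  have h7 : (Q : ℝ) * (Fintype.card W : ℝ) < Q * (Fintype.card W : ℝ) :=
    lt_of_le_of_lt (mul_le_mul_of_nonneg_left h2 hQ0.le)
      (h5.trans_le (mul_le_mul_of_nonneg_right h6 (Nat.cast_nonneg _)))
  exact absurd h7 (lt_irrefl _)

/-- The number of linear functions that miss a set that shatters `d` positions. -/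
theorem miss_count (R : Finset (Fin k → Fin q)) (s : Fin k → Option (Pr q)) (hs : Shat R s)
    (hqQ : q ≤ Q) (t : ℕ) (ht : t < Q) :
    (univ.filter (fun α : Fin k → ZMod Q => ∀ a ∈ R, lval α a ≠ 1)).card *
      (4 ^ t) ^ (psupp s).card ≤ Q ^ (2 * t + 1) * Q ^ k * (eqw t).card ^ (psupp s).card := by
  classical
  set D := psupp s with hD
  let W := {i // i ∈ D} → Bool
  have hex : ∀ w : W, ∃ a ∈ R, ∀ i, ∀ p, s i = some p →
      a i = if (if h : i ∈ D then w ⟨i, h⟩ else false) = true then p.1.2 else p.1.1 :=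
    fun w => hs (fun i => if h : i ∈ D then w ⟨i, h⟩ else false)
  choose f hfR hf using hex
  have hW : Fintype.card W = 2 ^ D.card := by
    simp [W]
  -- the count
  have hcount : ((univ.filter (fun p : (Fin t → W) × (Fin t → W) =>
      ∀ i, dsum (Q := Q) f p.1 i = dsum f p.2 i)).card) ≤ (eqw t).card ^ D.card := by
    have e1 : (eqw t).card ^ D.card =
        (Fintype.piFinset (fun _ : {i // i ∈ D} => eqw t)).card := by
      rw [Fintype.card_piFinset, Finset.prod_const, Finset.card_univ, Fintype.card_coe]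
    rw [e1]
    refine Finset.card_le_card_of_injOn (fun p i => (fun l => p.1 l i, fun l => p.2 l i)) ?_ ?_
    · intro p hp
      have hp' := (Finset.mem_filter.mp (Finset.mem_coe.mp hp)).2
      refine Finset.mem_coe.mpr (Fintype.mem_piFinset.mpr (fun i => ?_))
      obtain ⟨i, hi⟩ := i
      have hsi : s i ≠ none := by
        rw [hD] at hi
        exact (Finset.mem_filter.mp hi).2
      obtain ⟨pr, hpr⟩ := Option.ne_none_iff_exists'.mp hsi
      have key : ∀ w : W, ((f w i : ℕ) : ZMod Q) = ((pr.1.1 : ℕ) : ZMod Q) +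
          (if w ⟨i, hi⟩ = true then (((pr.1.2 : ℕ) : ZMod Q) - ((pr.1.1 : ℕ) : ZMod Q)) else 0) := by
        intro w
        rw [hf w i pr hpr, dif_pos hi]
        split_ifs <;> simp
      have hsum : ∀ p : Fin t → W, dsum (Q := Q) f p i = t * ((pr.1.1 : ℕ) : ZMod Q) +
          ((univ.filter (fun l => p l ⟨i, hi⟩ = true)).card : ZMod Q) *
            (((pr.1.2 : ℕ) : ZMod Q) - ((pr.1.1 : ℕ) : ZMod Q)) := by
        intro p
        unfold dsum
        simp only [key]
        rw [Finset.sum_add_distrib, Finset.sum_const, Finset.card_univ, Fintype.card_fin,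
          nsmul_eq_mul, ← Finset.sum_filter, Finset.sum_const, nsmul_eq_mul]
      have h1 := hp' i
      rw [hsum, hsum] at h1
      have h2 := mul_right_cancel₀ (b := (((pr.1.2 : ℕ) : ZMod Q) - ((pr.1.1 : ℕ) : ZMod Q))) (by
        rw [sub_ne_zero]
        intro heq
        rw [ZMod.natCast_eq_natCast_iff'] at heq
        have l1 : (pr.1.2 : ℕ) < Q := lt_of_lt_of_le pr.1.2.isLt hqQ
        have l2 : (pr.1.1 : ℕ) < Q := lt_of_lt_of_le pr.1.1.isLt hqQ
        rw [Nat.mod_eq_of_lt l1, Nat.mod_eq_of_lt l2] at heq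
        have l3 : (pr.1.1 : ℕ) < (pr.1.2 : ℕ) := pr.2
        omega) (add_left_cancel h1)
      rw [ZMod.natCast_eq_natCast_iff'] at h2
      have l1 : (univ.filter (fun l => p.1 l ⟨i, hi⟩ = true)).card < Q :=
        lt_of_le_of_lt ((Finset.card_filter_le _ _).trans (by simp)) ht
      have l2 : (univ.filter (fun l => p.2 l ⟨i, hi⟩ = true)).card < Q :=
        lt_of_le_of_lt ((Finset.card_filter_le _ _).trans (by simp)) ht
      rw [Nat.mod_eq_of_lt l1, Nat.mod_eq_of_lt l2] at h2
      exact Finset.mem_filter.mpr ⟨mem_univ _, h2⟩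
    · intro p _ p' _ h
      refine Prod.ext (funext fun l => funext fun i => ?_) (funext fun l => funext fun i => ?_)
      · have := congrFun h i
        exact congrFun (congrArg Prod.fst this) l
      · have := congrFun h i
        exact congrFun (congrArg Prod.snd this) l
  -- summing over the missing functions
  set Ms := univ.filter (fun α : Fin k → ZMod Q => ∀ a ∈ R, lval α a ≠ 1) with hMs
  have hQ0 : (0 : ℝ) < Q := by
    have := (Fact.out : Q.Prime).pos
    exact_mod_cast this
  have h1 : (Ms.card : ℝ) * (2 ^ D.card) ^ (2 * t) ≤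
      ∑ α : Fin k → ZMod Q, ∑ h ∈ univ.filter (fun h : ZMod Q => h ≠ 0),
        (Q * ‖csum f h α‖) ^ (2 * t) := by
    calc (Ms.card : ℝ) * (2 ^ D.card) ^ (2 * t) = ∑ _α ∈ Ms, ((2 : ℝ) ^ D.card) ^ (2 * t) := by
          rw [Finset.sum_const, nsmul_eq_mul]
      _ ≤ ∑ α ∈ Ms, ∑ h ∈ univ.filter (fun h : ZMod Q => h ≠ 0),
          (Q * ‖csum f h α‖) ^ (2 * t) := by
          refine Finset.sum_le_sum (fun α hα => ?_)
          have hα' := (Finset.mem_filter.mp hα).2
          obtain ⟨h, hh, hle⟩ := miss_large f α (fun w => hα' (f w) (hfR w))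
          rw [hW] at hle
          push_cast at hle
          refine le_trans (pow_le_pow_left₀ (by positivity) hle (2 * t)) ?_
          exact Finset.single_le_sum (f := fun h => (Q * ‖csum f h α‖) ^ (2 * t))
            (fun _ _ => by positivity) (Finset.mem_filter.mpr ⟨mem_univ _, hh⟩)
      _ ≤ _ := Finset.sum_le_sum_of_subset_of_nonneg (Finset.subset_univ _)
          (fun _ _ _ => Finset.sum_nonneg (fun _ _ => by positivity))
  have h2 : ∑ α : Fin k → ZMod Q, ∑ h ∈ univ.filter (fun h : ZMod Q => h ≠ 0),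
      (Q * ‖csum f h α‖) ^ (2 * t) ≤
      (Q : ℝ) * ((Q : ℝ) ^ (2 * t) * ((Q : ℝ) ^ k * ((eqw t).card : ℝ) ^ D.card)) := by
    rw [Finset.sum_comm]
    have hb : ∀ h ∈ univ.filter (fun h : ZMod Q => h ≠ 0),
        ∑ α : Fin k → ZMod Q, (Q * ‖csum f h α‖) ^ (2 * t) ≤
        (Q : ℝ) ^ (2 * t) * ((Q : ℝ) ^ k * ((eqw t).card : ℝ) ^ D.card) := by
      intro h hh
      simp only [mul_pow]
      rw [← Finset.mul_sum, moment_eq f h (Finset.mem_filter.mp hh).2 t]
      apply mul_le_mul_of_nonneg_left _ (by positivity)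
      apply mul_le_mul_of_nonneg_left _ (by positivity)
      exact_mod_cast hcount
    refine (Finset.sum_le_sum hb).trans ?_
    rw [Finset.sum_const, nsmul_eq_mul]
    apply mul_le_mul_of_nonneg_right _ (by positivity)
    have : (univ.filter (fun h : ZMod Q => h ≠ 0)).card ≤ Q := by
      refine (Finset.card_filter_le _ _).trans ?_
      rw [Finset.card_univ, ZMod.card]
    exact_mod_cast this
  have h3 := h1.trans h2
  have h4 : (Ms.card : ℝ) * (4 ^ t) ^ D.card ≤
      (Q : ℝ) ^ (2 * t + 1) * (Q : ℝ) ^ k * ((eqw t).card : ℝ) ^ D.card := by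
    have e1 : ((2 : ℝ) ^ D.card) ^ (2 * t) = (4 ^ t) ^ D.card := by
      rw [← pow_mul, ← pow_mul, show (4 : ℝ) = 2 ^ 2 by norm_num, ← pow_mul]
      congr 1
      ring
    rw [e1] at h3
    calc _ ≤ _ := h3
      _ = _ := by rw [pow_succ]; ring
  exact_mod_cast h4

/-- Squared form. -/
theorem miss_count_sq (R : Finset (Fin k → Fin q)) (s : Fin k → Option (Pr q)) (hs : Shat R s)
    (hqQ : q ≤ Q) (t : ℕ) (ht : t < Q) :
    (univ.filter (fun α : Fin k → ZMod Q => ∀ a ∈ R, lval α a ≠ 1)).card ^ 2 *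
      (2 * t + 1) ^ (psupp s).card ≤ (Q ^ (2 * t + 1) * Q ^ k) ^ 2 := by
  have h1 := miss_count R s hs hqQ t ht
  set m := (univ.filter (fun α : Fin k → ZMod Q => ∀ a ∈ R, lval α a ≠ 1)).card
  set D := (psupp s).card
  have h2 : (2 * t + 1) * (eqw t).card ^ 2 ≤ 16 ^ t :=
    (Nat.mul_le_mul_left _ (Nat.pow_le_pow_left (eqw_card t) 2)).trans (central_sq t)
  have e4 : (16 ^ t) ^ D = ((4 ^ t) ^ D) ^ 2 := by
    have : (16 : ℕ) = 4 ^ 2 := by norm_num
    rw [this, ← pow_mul, ← pow_mul, ← pow_mul, ← pow_mul]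
    congr 1
    ring
  have h3 : (16 ^ t) ^ D * (m ^ 2 * (2 * t + 1) ^ D) ≤
      (16 ^ t) ^ D * (Q ^ (2 * t + 1) * Q ^ k) ^ 2 := by
    calc (16 ^ t) ^ D * (m ^ 2 * (2 * t + 1) ^ D)
        = (m * (4 ^ t) ^ D) ^ 2 * (2 * t + 1) ^ D := by
          rw [e4]; ring
      _ ≤ (Q ^ (2 * t + 1) * Q ^ k * (eqw t).card ^ D) ^ 2 * (2 * t + 1) ^ D :=
          Nat.mul_le_mul_right _ (Nat.pow_le_pow_left h1 2)
      _ = (Q ^ (2 * t + 1) * Q ^ k) ^ 2 * ((2 * t + 1) ^ D * ((eqw t).card ^ 2) ^ D) := by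
          rw [mul_pow (Q ^ (2 * t + 1) * Q ^ k) ((eqw t).card ^ D) 2, ← pow_mul (eqw t).card D 2,
            ← pow_mul (eqw t).card 2 D, Nat.mul_comm D 2]
          ring
      _ = (Q ^ (2 * t + 1) * Q ^ k) ^ 2 * ((2 * t + 1) * (eqw t).card ^ 2) ^ D := by
          rw [mul_pow (2 * t + 1) ((eqw t).card ^ 2) D]
      _ ≤ (Q ^ (2 * t + 1) * Q ^ k) ^ 2 * (16 ^ t) ^ D :=
          Nat.mul_le_mul_left _ (Nat.pow_le_pow_left h2 _)
      _ = _ := Nat.mul_comm _ _
  exact Nat.le_of_mul_le_mul_left h3 (by positivity)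

end moment

end Pool.Agent.H560R2
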