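import Pool.Agent.H560R2.Sum3
import Pool.Agent.H560R2.Sum1

/-! One block: triples of words with `a + b = c` against zero-free sets of words. -/

set_option linter.unusedSectionVars false
set_option linter.unusedVariables false

namespace Pool.Agent.H560R2

open Finset

section block

variable {m k : ℕ}

/-- the elements: words of three kinds -/
abbrev Vw (m k : ℕ) : Type := (Fin k → Fin m) ⊕ ((Fin k → Fin m) ⊕ (Fin k → Fin (2 * m)))

/-- digitwise addition -/
def wadd (a b : Fin k → Fin m) : Fin k → Fin (2 * m) :=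
  fun i => ⟨a i + b i, by have := (a i).isLt; have := (b i).isLt; omega⟩

/-- the word with larger alphabet -/
def wup (a : Fin k → Fin m) : Fin k → Fin (2 * m) := fun i => ⟨a i, by have := (a i).isLt; omega⟩

/-- the word of an element -/
def word : Vw m k → Fin k → Fin (2 * m)
  | Sum.inl a => wup a
  | Sum.inr (Sum.inl b) => wup b
  | Sum.inr (Sum.inr c) => c

/-- positive tests -/
def spos (p : (Fin k → Fin m) × (Fin k → Fin m)) : Finset (Vw m k) :=
  {Sum.inl p.1, Sum.inr (Sum.inl p.2), Sum.inr (Sum.inr (wadd p.1 p.2))}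

/-- negative tests -/
def sneg {Q : ℕ} [Fact Q.Prime] (α : Fin k → ZMod Q) : Finset (Vw m k) :=
  univ.filter (fun v => lval α (word v) = 1)

lemma wup_inj : Function.Injective (wup : (Fin k → Fin m) → _) := by
  intro a b h
  funext i
  have := congrArg Fin.val (congrFun h i)
  exact Fin.ext this

lemma wadd_left {a b b' : Fin k → Fin m} (h : wadd a b = wadd a b') : b = b' := by
  funext i
  have := congrArg Fin.val (congrFun h i)
  simp only [wadd] at this
  exact Fin.ext (by omega)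

lemma wadd_right {a a' b : Fin k → Fin m} (h : wadd a b = wadd a' b) : a = a' := by
  funext i
  have := congrArg Fin.val (congrFun h i)
  simp only [wadd] at this
  exact Fin.ext (by omega)

lemma mem_spos0 (p : (Fin k → Fin m) × (Fin k → Fin m)) (a : Fin k → Fin m) :
    (Sum.inl a : Vw m k) ∈ spos p ↔ a = p.1 := by
  simp [spos]

lemma mem_spos1 (p : (Fin k → Fin m) × (Fin k → Fin m)) (b : Fin k → Fin m) :
    (Sum.inr (Sum.inl b) : Vw m k) ∈ spos p ↔ b = p.2 := by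
  simp [spos]

lemma mem_spos2 (p : (Fin k → Fin m) × (Fin k → Fin m)) (c : Fin k → Fin (2 * m)) :
    (Sum.inr (Sum.inr c) : Vw m k) ∈ spos p ↔ c = wadd p.1 p.2 := by
  simp [spos]

lemma spos_lin (v v' : Vw m k) (hne : v ≠ v') :
    (univ.filter (fun p => v ∈ spos p ∧ v' ∈ spos p)).card ≤ 1 := by
  rw [Finset.card_le_one]
  intro p hp p' hp'
  simp only [Finset.mem_filter, Finset.mem_univ, true_and] at hp hp'
  obtain ⟨p1, p2⟩ := p
  obtain ⟨q1, q2⟩ := p'
  rcases v with a | b | c <;> rcases v' with a' | b' | c' <;>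
    simp only [mem_spos0, mem_spos1, mem_spos2] at hp hp'
  · exact absurd (by rw [hp.1, hp.2]) hne
  · exact Prod.ext (hp.1.symm.trans hp'.1) (hp.2.symm.trans hp'.2)
  · have e1 : p1 = q1 := hp.1.symm.trans hp'.1
    subst e1
    exact Prod.ext rfl (wadd_left (hp.2.symm.trans hp'.2))
  · exact Prod.ext (hp.2.symm.trans hp'.2) (hp.1.symm.trans hp'.1)
  · exact absurd (by rw [hp.1, hp.2]) hne
  · have e1 : p2 = q2 := hp.1.symm.trans hp'.1
    subst e1
    exact Prod.ext (wadd_right (hp.2.symm.trans hp'.2)) rfl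
  · have e1 : p1 = q1 := hp.2.symm.trans hp'.2
    subst e1
    exact Prod.ext rfl (wadd_left (hp.1.symm.trans hp'.1))
  · have e1 : p2 = q2 := hp.2.symm.trans hp'.2
    subst e1
    exact Prod.ext (wadd_right (hp.1.symm.trans hp'.1)) rfl
  · exact absurd (by rw [hp.1, hp.2]) hne

lemma spos_deg (v : Vw m k) :
    (univ.filter (fun p : (Fin k → Fin m) × (Fin k → Fin m) => v ∈ spos p)).card ≤ m ^ k := by
  classical
  have hc : Fintype.card (Fin k → Fin m) = m ^ k := by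
    rw [Fintype.card_fun, Fintype.card_fin, Fintype.card_fin]
  rw [← hc, ← Finset.card_univ]
  rcases v with a | b | c
  · refine Finset.card_le_card_of_injOn (fun p => p.2) (fun _ _ => Finset.mem_coe.mpr (mem_univ _)) ?_
    intro p hp p' hp' h
    simp only [Finset.coe_filter, Set.mem_ofPred_eq, mem_univ, true_and, mem_spos0] at hp hp'
    exact Prod.ext (hp.symm.trans hp') h
  · refine Finset.card_le_card_of_injOn (fun p => p.1) (fun _ _ => Finset.mem_coe.mpr (mem_univ _)) ?_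
    intro p hp p' hp' h
    simp only [Finset.coe_filter, Set.mem_ofPred_eq, mem_univ, true_and, mem_spos1] at hp hp'
    exact Prod.ext h (hp.symm.trans hp')
  · refine Finset.card_le_card_of_injOn (fun p => p.1) (fun _ _ => Finset.mem_coe.mpr (mem_univ _)) ?_
    intro p hp p' hp' h
    simp only [Finset.coe_filter, Set.mem_ofPred_eq, mem_univ, true_and, mem_spos2] at hp hp'
    obtain ⟨p1, p2⟩ := p
    obtain ⟨q1, q2⟩ := p'
    have e1 : p1 = q1 := h
    subst e1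
    exact Prod.ext rfl (wadd_left (hp.symm.trans hp'))

lemma spos_ne (p : (Fin k → Fin m) × (Fin k → Fin m)) : (spos p).Nonempty :=
  ⟨Sum.inl p.1, (mem_spos0 p _).mpr rfl⟩

lemma mem_sneg {Q : ℕ} [Fact Q.Prime] (α : Fin k → ZMod Q) (v : Vw m k) :
    v ∈ sneg α ↔ lval α (word v) = 1 := by
  rw [sneg, Finset.mem_filter]
  exact ⟨fun h => h.2, fun h => ⟨Finset.mem_univ _, h⟩⟩

/-- negative tests contain no solution -/
lemma sneg_free {Q : ℕ} [Fact Q.Prime] (α : Fin k → ZMod Q) (a b : Fin k → Fin m)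
    (h0 : (Sum.inl a : Vw m k) ∈ sneg α) (h1 : (Sum.inr (Sum.inl b) : Vw m k) ∈ sneg α) :
    (Sum.inr (Sum.inr (wadd a b)) : Vw m k) ∉ sneg α := by
  rw [mem_sneg] at h0 h1 ⊢
  have h0' : lval α (wup a) = 1 := h0
  have h1' : lval α (wup b) = 1 := h1
  show ¬ lval α (wadd a b) = 1
  have e : lval α (wadd a b) = lval α (wup a) + lval α (wup b) := by
    unfold lval
    rw [← Finset.sum_add_distrib]
    apply Finset.sum_congr rfl
    intro i _
    simp only [wadd, wup]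
    push_cast
    ring
  rw [e, h0', h1']
  intro h
  have h2 : (1 : ZMod Q) = 0 := by
    have : (1 : ZMod Q) + 1 - 1 = 1 - 1 := by rw [h]
    simp at this
  exact one_ne_zero h2

/-- negative tests hit all large sets -/
lemma sneg_hit {Q : ℕ} [Fact Q.Prime] (hmQ : 2 * m ≤ Q) (t u : ℕ) (ht : t < Q)
    (htu : 2 * t + 1 = u ^ 2) (r d L : ℕ) (hL : 1 ≤ L) (hd : d ≤ k)
    (hcube : (L + Fintype.card (Pr (2 * m))) ^ k ≤ r * L ^ (k - d))
    (T : Finset (Vw m k)) (hT : 3 * r < T.card) :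
    (univ.filter (fun α : Fin k → ZMod Q => Disjoint (sneg α) T)).card ≤
      Q ^ (2 * t + 1) * Q ^ k / u ^ d := by
  classical
  have hu : 1 ≤ u := by
    by_contra hc
    have : u = 0 := by omega
    rw [this] at htu
    simp at htu
  -- one kind
  obtain ⟨R, hRc, hR⟩ : ∃ R : Finset (Fin k → Fin (2 * m)), r < R.card ∧
      ∀ a ∈ R, ∃ v ∈ T, word v = a := by
    by_contra hcon
    push Not at hcon
    let T0 := T.filter (fun v => ∃ a, v = Sum.inl a)
    let T1 := T.filter (fun v => ∃ b, v = Sum.inr (Sum.inl b))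
    let T2 := T.filter (fun v => ∃ c, v = Sum.inr (Sum.inr c))
    have hsub : T ⊆ T0 ∪ (T1 ∪ T2) := by
      intro v hv
      rcases v with a | b | c
      · exact Finset.mem_union_left _ (Finset.mem_filter.mpr ⟨hv, a, rfl⟩)
      · exact Finset.mem_union_right _ (Finset.mem_union_left _
          (Finset.mem_filter.mpr ⟨hv, b, rfl⟩))
      · exact Finset.mem_union_right _ (Finset.mem_union_right _
          (Finset.mem_filter.mpr ⟨hv, c, rfl⟩))
    have hle : ∀ T' : Finset (Vw m k), T' ⊆ T → Set.InjOn word (T' : Set (Vw m k)) →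
        T'.card ≤ r := by
      intro T' hT' hinj
      by_contra hc
      rw [not_le] at hc
      obtain ⟨a, ha, hna⟩ := hcon (T'.image word) (by
        rw [Finset.card_image_of_injOn hinj]; exact hc)
      obtain ⟨v, hv, hva⟩ := Finset.mem_image.mp ha
      exact hna v (hT' hv) hva
    have h0 := hle T0 (Finset.filter_subset _ _) (by
      intro v hv v' hv' h
      obtain ⟨a, rfl⟩ := (Finset.mem_filter.mp (Finset.mem_coe.mp hv)).2
      obtain ⟨a', rfl⟩ := (Finset.mem_filter.mp (Finset.mem_coe.mp hv')).2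
      rw [wup_inj h])
    have h1 := hle T1 (Finset.filter_subset _ _) (by
      intro v hv v' hv' h
      obtain ⟨a, rfl⟩ := (Finset.mem_filter.mp (Finset.mem_coe.mp hv)).2
      obtain ⟨a', rfl⟩ := (Finset.mem_filter.mp (Finset.mem_coe.mp hv')).2
      rw [wup_inj h])
    have h2 := hle T2 (Finset.filter_subset _ _) (by
      intro v hv v' hv' h
      obtain ⟨a, rfl⟩ := (Finset.mem_filter.mp (Finset.mem_coe.mp hv)).2
      obtain ⟨a', rfl⟩ := (Finset.mem_filter.mp (Finset.mem_coe.mp hv')).2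
      have : a = a' := h
      rw [this])
    have h3 := (Finset.card_le_card hsub).trans ((Finset.card_union_le _ _).trans
      (Nat.add_le_add_left (Finset.card_union_le _ _) _))
    omega
  obtain ⟨s, hs, hsd⟩ := exists_cube R d L hL hd (by
    have hLp : 0 < L ^ (k - d) := by positivity
    calc _ ≤ r * L ^ (k - d) := hcube
      _ < R.card * L ^ (k - d) := Nat.mul_lt_mul_of_pos_right hRc hLp)
  have h1 := miss_count_sq R s hs hmQ t ht
  rw [Nat.le_div_iff_mul_le (by positivity)]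
  have hsub : univ.filter (fun α : Fin k → ZMod Q => Disjoint (sneg α) T) ⊆
      univ.filter (fun α : Fin k → ZMod Q => ∀ a ∈ R, lval α a ≠ 1) := by
    intro α hα
    rw [Finset.mem_filter] at hα ⊢
    refine ⟨mem_univ _, fun a ha h => ?_⟩
    obtain ⟨v, hv, rfl⟩ := hR a ha
    exact Finset.disjoint_left.mp hα.2 (Finset.mem_filter.mpr ⟨mem_univ _, h⟩) hv
  have hc := Finset.card_le_card hsub
  have h2 : ((univ.filter (fun α : Fin k → ZMod Q => Disjoint (sneg α) T)).card * u ^ d) ^ 2 ≤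
      (Q ^ (2 * t + 1) * Q ^ k) ^ 2 := by
    calc _ = (univ.filter (fun α : Fin k → ZMod Q => Disjoint (sneg α) T)).card ^ 2 *
          (u ^ 2) ^ d := by rw [mul_pow, ← pow_mul, ← pow_mul, Nat.mul_comm d 2]
      _ ≤ (univ.filter (fun α : Fin k → ZMod Q => ∀ a ∈ R, lval α a ≠ 1)).card ^ 2 *
          (2 * t + 1) ^ (psupp s).card := by
          rw [← htu]
          exact Nat.mul_le_mul (Nat.pow_le_pow_left hc 2)
            (Nat.pow_le_pow_right (by omega) hsd.le)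
      _ ≤ _ := h1
  exact (Nat.pow_le_pow_iff_left (by norm_num)).mp h2

end block

/-- the condition on the parameters -/
lemma cube_cond (h κ : ℕ) :
    (2 ^ (2 * h + 4) + Fintype.card (Pr (2 * 2 ^ h))) ^ ((4 * h + 10) * κ) ≤
      2 ^ ((4 * h + 10) * κ) * (2 ^ (2 * h + 4)) ^ ((4 * h + 10) * κ - κ) := by
  set P := Fintype.card (Pr (2 * 2 ^ h)) with hP
  have hPle : 4 * P ≤ 2 ^ (2 * h + 4) := by
    have := card_Pr (q := 2 * 2 ^ h)
    calc 4 * P ≤ 4 * (2 * 2 ^ h) ^ 2 := Nat.mul_le_mul_left _ this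
      _ = 2 ^ (2 * h + 4) := by
        rw [mul_pow, ← pow_mul, pow_add, Nat.mul_comm h 2]; ring
  set L := 2 ^ (2 * h + 4) with hL
  have h1 : (L + P) ^ 2 ≤ 2 * L ^ 2 := by nlinarith
  have h2 : (L + P) ^ ((4 * h + 10) * κ) ≤ 2 ^ ((2 * h + 5) * κ) * L ^ ((4 * h + 10) * κ) := by
    have e : (4 * h + 10) * κ = 2 * ((2 * h + 5) * κ) := by ring
    rw [e, pow_mul, pow_mul L 2]
    calc ((L + P) ^ 2) ^ ((2 * h + 5) * κ) ≤ (2 * L ^ 2) ^ ((2 * h + 5) * κ) :=
          Nat.pow_le_pow_left h1 _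
      _ = _ := mul_pow _ _ _
  refine h2.trans ?_
  have hsplit : L ^ ((4 * h + 10) * κ) = L ^ κ * L ^ ((4 * h + 10) * κ - κ) := by
    rw [← pow_add]
    congr 1
    have : κ ≤ (4 * h + 10) * κ := Nat.le_mul_of_pos_left _ (by omega)
    omega
  rw [hsplit, ← mul_assoc]
  apply Nat.mul_le_mul_right
  rw [hL, ← pow_mul, ← pow_add]
  apply Nat.pow_le_pow_right (by norm_num)
  nlinarith

/-- One block is hard for monotone real programs. -/
theorem block_hard (h : ℕ) : ∃ (C0 Q : ℕ) (_ : Fact Q.Prime), 0 < C0 ∧ ∀ κ k : ℕ,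
    k = (4 * h + 10) * κ →
    ∀ (B : Set (Set (Vw (2 ^ h) k) → ℝ)),
    (∀ b ∈ B, (∃ c, b = fun _ => c) ∨ ∃ (v : Vw (2 ^ h) k) (c d : ℝ), c ≤ d ∧
      (∀ X, v ∈ X → b X = d) ∧ ∀ X, v ∉ X → b X = c) →
    ∀ L, RProg B L → ∀ g, (g ∈ B ∨ g ∈ L) → ∀ τ : ℝ,
    ((univ.filter (fun p : (Fin k → Fin (2 ^ h)) × (Fin k → Fin (2 ^ h)) =>
        τ ≤ g ((spos p : Finset (Vw (2 ^ h) k)) : Set _))).card : ℝ) /
        Fintype.card ((Fin k → Fin (2 ^ h)) × (Fin k → Fin (2 ^ h))) ≤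
      ((univ.filter (fun α : Fin k → ZMod Q =>
        τ ≤ g ((sneg α : Finset (Vw (2 ^ h) k)) : Set _))).card : ℝ) /
          Fintype.card (Fin k → ZMod Q) +
      ((9 * (2 ^ k) ^ 2 * L.length + 3 * 2 ^ k * (2 ^ k) ^ h) / (2 ^ k) ^ (2 * h) +
        C0 * L.length / (2 ^ k) ^ (3 * h + 3)) := by
  classical
  -- parameters
  obtain ⟨u, hu⟩ : ∃ u, u = 2 ^ (3 * (h + 1) * (4 * h + 10)) + 1 := ⟨_, rfl⟩
  have hodd : Odd (u ^ 2) := by
    rw [hu]
    apply Odd.pow
    refine Even.add_one ?_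
    refine (Nat.even_pow.mpr ⟨even_two, ?_⟩)
    positivity
  obtain ⟨t, ht⟩ := hodd
  obtain ⟨Q, hQge, hQp⟩ := Nat.exists_infinite_primes (2 * 2 ^ h + t + 1)
  have hfact : Fact Q.Prime := ⟨hQp⟩
  refine ⟨Q ^ (2 * t + 1), Q, ⟨hQp⟩, by have := hQp.pos; positivity, ?_⟩
  intro κ k hk B hB L hL g hg τ
  obtain ⟨y, hy⟩ : ∃ y, y = (2 : ℕ) ^ k := ⟨_, rfl⟩
  have hypos : 0 < y := by rw [hy]; positivity
  have hne : ∀ p : (Fin k → Fin (2 ^ h)) × (Fin k → Fin (2 ^ h)), (spos p).Nonempty := spos_ne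
  have hmain := lin_hard (r := 3 * y) (D := Q ^ (2 * t + 1) * Q ^ k / u ^ κ) (Dg := (2 ^ h) ^ k)
    (sp := spos) (sn := fun α : Fin k → ZMod Q => sneg α) hne spos_lin spos_deg (by
      intro T hT
      exact sneg_hit (by omega) t u (by omega) ht.symm y κ (2 ^ (2 * h + 4))
        (Nat.one_le_two_pow) (by rw [hk]; exact Nat.le_mul_of_pos_left _ (by omega))
        (by rw [hy, hk]; exact cube_cond h κ) T hT)
    (B := B) (by
      intro b hb
      rcases hB b hb with ⟨c, rfl⟩ | ⟨v, c, d, hcd, h1, h0⟩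
      · exact apL_const spos _ hne c
      · exact apL_var (by omega) spos _ hne v b c d hcd h1 h0) hL g hg τ
  -- cardinalities
  have hcN : Fintype.card (Fin k → ZMod Q) = Q ^ k := by
    rw [Fintype.card_fun, ZMod.card, Fintype.card_fin]
  have hcP : Fintype.card ((Fin k → Fin (2 ^ h)) × (Fin k → Fin (2 ^ h))) = y ^ (2 * h) := by
    rw [Fintype.card_prod, Fintype.card_fun, Fintype.card_fin, Fintype.card_fin, hy, ← pow_mul,
      ← pow_mul, ← pow_add]
    congr 1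
    ring
  have hDg : (2 ^ h) ^ k = y ^ h := by
    rw [hy, ← pow_mul, ← pow_mul, Nat.mul_comm]
  have hD : (Q ^ (2 * t + 1) * Q ^ k / u ^ κ) * y ^ (3 * h + 3) ≤ Q ^ (2 * t + 1) * Q ^ k := by
    have h1 : y ^ (3 * h + 3) ≤ u ^ κ := by
      calc y ^ (3 * h + 3) = (2 ^ (3 * (h + 1) * (4 * h + 10))) ^ κ := by
            rw [hy, ← pow_mul, ← pow_mul, hk]
            congr 1
            ring
        _ ≤ u ^ κ := Nat.pow_le_pow_left (by omega) _
    exact (Nat.mul_le_mul_left _ h1).trans (Nat.div_mul_le_self _ _)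
  rw [hcN, hcP, hDg] at hmain
  set A := (univ.filter (fun p : (Fin k → Fin (2 ^ h)) × (Fin k → Fin (2 ^ h)) =>
    τ ≤ g ((spos p : Finset (Vw (2 ^ h) k)) : Set _))).card
  set A' := (univ.filter (fun α : Fin k → ZMod Q =>
    τ ≤ g ((sneg α : Finset (Vw (2 ^ h) k)) : Set _))).card
  set DD := Q ^ (2 * t + 1) * Q ^ k / u ^ κ
  set ℓ := L.length
  have hQk : (0 : ℝ) < (Q : ℝ) ^ k := by
    have := hQp.pos
    positivity
  have hyR : (0 : ℝ) < (y : ℝ) := by exact_mod_cast hypos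
  have hm' : (A : ℝ) * (Q : ℝ) ^ k ≤ A' * (y : ℝ) ^ (2 * h) +
      ((ℓ * (3 * y) ^ 2 + 3 * y * y ^ h) * (Q : ℝ) ^ k + ℓ * DD * (y : ℝ) ^ (2 * h)) := by
    exact_mod_cast hmain
  have hD' : (DD : ℝ) * (y : ℝ) ^ (3 * h + 3) ≤ (Q : ℝ) ^ (2 * t + 1) * (Q : ℝ) ^ k := by
    exact_mod_cast hD
  have hD2 : (DD : ℝ) ≤ (Q : ℝ) ^ (2 * t + 1) * (Q : ℝ) ^ k / (y : ℝ) ^ (3 * h + 3) := by
    rw [le_div_iff₀ (by positivity)]
    exact hD'
  have hyc : ((2 : ℝ) ^ k) = (y : ℝ) := by rw [hy]; push_cast; rfl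
  rw [hcN, hcP]
  push_cast
  rw [hyc]
  rw [div_le_iff₀ (by positivity)]
  have h5 : (A : ℝ) ≤ (A' * (y : ℝ) ^ (2 * h) +
      ((ℓ * (3 * y) ^ 2 + 3 * y * y ^ h) * (Q : ℝ) ^ k + ℓ * DD * (y : ℝ) ^ (2 * h))) / (Q : ℝ) ^ k := by
    rw [le_div_iff₀ hQk]
    exact hm'
  refine h5.trans ?_
  have h6 : (ℓ : ℝ) * DD * (y : ℝ) ^ (2 * h) ≤
      ℓ * ((Q : ℝ) ^ (2 * t + 1) * (Q : ℝ) ^ k / (y : ℝ) ^ (3 * h + 3)) * (y : ℝ) ^ (2 * h) := by
    apply mul_le_mul_of_nonneg_right _ (by positivity)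
    exact mul_le_mul_of_nonneg_left hD2 (Nat.cast_nonneg _)
  have h7 : (A' * (y : ℝ) ^ (2 * h) +
      ((ℓ * (3 * y) ^ 2 + 3 * y * y ^ h) * (Q : ℝ) ^ k + ℓ * DD * (y : ℝ) ^ (2 * h))) / (Q : ℝ) ^ k ≤
      (A' * (y : ℝ) ^ (2 * h) +
      ((ℓ * (3 * y) ^ 2 + 3 * y * y ^ h) * (Q : ℝ) ^ k +
        ℓ * ((Q : ℝ) ^ (2 * t + 1) * (Q : ℝ) ^ k / (y : ℝ) ^ (3 * h + 3)) *
          (y : ℝ) ^ (2 * h))) / (Q : ℝ) ^ k := by
    apply div_le_div_of_nonneg_right _ hQk.le
    linarith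
  refine h7.trans (le_of_eq ?_)
  field_simp
  ring

end Pool.Agent.H560R2
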