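import Pool.Agent.H560R2.Real4
import Pool.Agent.H560R2.Sum4

/-! The chain argument on average for real circuits. -/

set_option linter.unusedSectionVars false
set_option linter.unusedVariables false

namespace Pool.Agent.H560R2

open Finset

section

variable {I V P N : Type} {M : ℕ}

open Classical in
/-- the input with the set `y j` in block `j` -/
noncomputable def Es (loc : I → Option (Fin M × V)) (y : Fin M → Set V) : I → Bool := fun l =>
  match loc l with
  | none => false
  | some p => decide (p.2 ∈ y p.1)

lemma Es_mono (loc : I → Option (Fin M × V)) {y y' : Fin M → Set V} (h : ∀ j, y j ⊆ y' j) :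
    Es loc y ≤ Es loc y' := by
  classical
  intro l
  unfold Es
  rcases loc l with _ | p
  · exact le_rfl
  · simp only
    by_cases h1 : p.2 ∈ y p.1
    · rw [decide_eq_true h1, decide_eq_true (h p.1 h1)]
    · rw [decide_eq_false h1]
      exact Bool.false_le _

/-- the base functions are constants and variables of the block -/
lemma Es_base (loc : I → Option (Fin M × V)) (y : Fin M → Set V) (J : Fin M)
    (b : (I → Bool) → ℝ) (hb : b ∈ RB I) :
    (∃ c, (fun X : Set V => b (Es loc (Function.update y J X))) = fun _ => c) ∨
      ∃ (v : V) (c d : ℝ), c ≤ d ∧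
      (∀ X : Set V, v ∈ X → b (Es loc (Function.update y J X)) = d) ∧
      ∀ X : Set V, v ∉ X → b (Es loc (Function.update y J X)) = c := by
  rcases hb with ⟨c, rfl⟩ | ⟨l, rfl⟩
  · exact Or.inl ⟨c, rfl⟩
  · rcases hl : loc l with _ | p
    · left
      refine ⟨0, ?_⟩
      funext X
      simp [bit, Es, hl]
    · by_cases hp : p.1 = J
      · right
        refine ⟨p.2, 0, 1, zero_le_one, fun X hX => ?_, fun X hX => ?_⟩
        · simp [bit, Es, hl, hp, hX]
        · simp [bit, Es, hl, hp, hX]
      · left
        refine ⟨bit (Es loc y) l, ?_⟩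
        funext X
        have hE : Es loc (Function.update y J X) l = Es loc y l := by
          have h1 : Function.update y J X p.1 = y p.1 := Function.update_of_ne hp _ _
          unfold Es
          rw [hl]
          simp only
          rw [h1]
        show bit (Es loc (Function.update y J X)) l = bit (Es loc y) l
        unfold bit
        rw [hE]

/-- the state of the chain -/
def stS (sn : N → Finset V) (y : Fin M → N) (i : ℕ) : Fin M → Set V :=
  fun j => if j.val < i then (sn (y j) : Set V) else ∅

lemma stS_mono (sn : N → Finset V) (y : Fin M → N) (i : ℕ) :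
    ∀ j, stS sn y i j ⊆ stS sn y (i + 1) j := by
  intro j
  simp only [stS]
  by_cases h : j.val < i
  · rw [if_pos h, if_pos (by omega)]
  · rw [if_neg h]
    exact Set.empty_subset _

lemma stS_self (sn : N → Finset V) (y : Fin M → N) (i : Fin M) : stS sn y i i = ∅ := by
  simp [stS]

lemma stS_update (sn : N → Finset V) (y : Fin M → N) (i : Fin M) (ω : N) :
    stS sn (Function.update y i ω) i = stS sn y i := by
  funext j
  simp only [stS]
  by_cases h : j.val < i
  · rw [if_pos h, if_pos h]
    have : j ≠ i := by rintro rfl; omega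
    rw [Function.update_of_ne this]
  · rw [if_neg h, if_neg h]

lemma stS_succ (sn : N → Finset V) (y : Fin M → N) (i : Fin M) (ω : N) :
    stS sn (Function.update y i ω) (i + 1) = Function.update (stS sn y i) i (sn ω : Set V) := by
  funext j
  by_cases hj : j = i
  · subst hj
    rw [Function.update_self]
    simp [stS]
  · rw [Function.update_of_ne hj]
    have : (j : ℕ) ≠ i := fun h => hj (Fin.ext h)
    simp only [stS, Function.update_of_ne hj]
    by_cases h : j.val < i
    · rw [if_pos h, if_pos (by omega)]
    · rw [if_neg h, if_neg (by omega)]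

/-- positive inputs -/
noncomputable def yesD (loc : I → Option (Fin M × V)) (sp : P → Finset V) (sn : N → Finset V)
    (l : Fin M × (Fin M → N) × P) : I → Bool :=
  Es loc (Function.update (stS sn l.2.1 l.1) l.1 (sp l.2.2 : Set V))

/-- negative inputs -/
noncomputable def noD (loc : I → Option (Fin M × V)) (sn : N → Finset V)
    (l : Fin M × (Fin M → N) × P) : I → Bool :=
  Es loc (stS sn l.2.1 (l.1 + 1))

open Classical in
/-- one block is hard on average -/
def BlockHard [Fintype P] [Fintype N] (S : ℕ) (ε : ℝ) (sp : P → Finset V) (sn : N → Finset V) :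
    Prop :=
  ∀ (B : Set (Set V → ℝ)),
    (∀ b ∈ B, (∃ c, b = fun _ => c) ∨ ∃ (v : V) (c d : ℝ), c ≤ d ∧
      (∀ X, v ∈ X → b X = d) ∧ ∀ X, v ∉ X → b X = c) →
    ∀ L, RProg B L → L.length ≤ S → ∀ g, (g ∈ B ∨ g ∈ L) → ∀ τ : ℝ,
    ((univ.filter (fun p : P => τ ≤ g (sp p : Set V))).card : ℝ) / Fintype.card P ≤
      ((univ.filter (fun n : N => τ ≤ g (sn n : Set V))).card : ℝ) / Fintype.card N + ε

lemma changes_rk {π : Type} (pr : (I → Bool) → π) (rk : (I → Bool) → ℕ) (κ : ℕ)
    (h1 : ∀ x x' : I → Bool, x ≤ x' → rk x ≤ rk x')
    (h2 : ∀ x x' : I → Bool, x ≤ x' → pr x ≠ pr x' → rk x < rk x') (h3 : ∀ x, rk x ≤ κ)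
    (x : ℕ → I → Bool) (hx : ∀ i < M, x i ≤ x (i + 1)) (J : Finset ℕ)
    (hJ : ∀ i ∈ J, i < M ∧ pr (x i) ≠ pr (x (i + 1))) : J.card ≤ κ := by
  classical
  have key : ∀ k ≤ M, (J.filter (fun i => i < k)).card ≤ rk (x k) := by
    intro k
    induction k with
    | zero => intro _; simp
    | succ k ih =>
      intro hk
      have ih' := ih (by omega)
      have hs : J.filter (fun i => i < k + 1) ⊆
          (if k ∈ J then insert k (J.filter (fun i => i < k)) else J.filter (fun i => i < k)) := by
        intro i hi
        rw [Finset.mem_filter] at hi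
        by_cases hik : i = k
        · subst hik
          rw [if_pos hi.1]
          exact Finset.mem_insert_self _ _
        · split_ifs
          · exact Finset.mem_insert_of_mem (Finset.mem_filter.mpr ⟨hi.1, by omega⟩)
          · exact Finset.mem_filter.mpr ⟨hi.1, by omega⟩
      refine (Finset.card_le_card hs).trans ?_
      by_cases hkJ : k ∈ J
      · rw [if_pos hkJ]
        have := h2 _ _ (hx k (by omega)) (hJ k hkJ).2
        exact (Finset.card_insert_le _ _).trans (by omega)
      · rw [if_neg hkJ]
        exact ih'.trans (h1 _ _ (hx k (by omega)))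
  have h5 : J.filter (fun i => i < M) = J := Finset.filter_true_of_mem (fun i hi => (hJ i hi).1)
  have := key M le_rfl
  rw [h5] at this
  exact this.trans (h3 _)

variable {s : ℕ} {T : Finset (Fin s)} {w : Fin s → ℕ}
  {a : ∀ i, Fin (w i) → I ⊕ Fin s}
  {op : ∀ i, (Fin (w i) → ℝ) → ℝ} {θ : ∀ i, Fin (w i) → ℝ} {val : (I → Bool) → Fin s → ℝ}

open Classical in
/-- The chain argument on average for real circuits. -/
theorem avg_chain [Fintype P] [Nonempty P] [Fintype N] [Nonempty N] {S : ℕ} {ε : ℝ}
    {sp : P → Finset V} {sn : N → Finset V} (hA : BlockHard S ε sp sn) (hM : 0 < M)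
    (loc : I → Option (Fin M × V))
    (htop : ∀ i j k, a i j = Sum.inr k → k < i)
    (hmon : ∀ i ∉ T, w i ≤ 2 ∧ Monotone (op i))
    (hT : ∀ i ∈ T, ∀ z z' : Fin (w i) → ℝ, (∀ j, θ i j ≤ z j ↔ θ i j ≤ z' j) → op i z = op i z')
    (hval : ∀ x i, val x i = op i (fun j => Sum.elim (bit x) (val x) (a i j)))
    (hS : s + ∑ i ∈ T, w i ≤ S) (o : Fin s) (τ : ℝ) :
    ((univ.filter (fun l : Fin M × (Fin M → N) × P =>
        τ ≤ val (yesD loc sp sn l) o)).card : ℝ) / Fintype.card (Fin M × (Fin M → N) × P) ≤
      ((univ.filter (fun l : Fin M × (Fin M → N) × P =>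
        τ ≤ val (noD loc sn l) o)).card : ℝ) / Fintype.card (Fin M × (Fin M → N) × P) +
      ((∏ i ∈ T, (w i + 1) : ℕ) : ℝ) / M + ε := by
  set κ := ∏ i ∈ T, (w i + 1) with hκd
  set Nn : ℝ := (Fintype.card N : ℝ) with hN
  set Pp : ℝ := (Fintype.card P : ℝ) with hP
  have hNpos : 0 < Nn := by rw [hN]; exact_mod_cast Fintype.card_pos
  have hPpos : 0 < Pp := by rw [hP]; exact_mod_cast Fintype.card_pos
  have hMR : (0 : ℝ) < M := by exact_mod_cast hM
  set F : ℝ := (Fintype.card (Fin M → N) : ℝ) with hF
  have hFpos : 0 < F := by rw [hF]; exact_mod_cast Fintype.card_pos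
  -- the probes
  let pr : (I → Bool) → (∀ t : Fin s, Fin (w t) → Prop) := fun x t j => t ∈ T ∧ prb a θ val x t j
  have hprne : ∀ x x', pr x ≠ pr x' ↔
      ∃ i ∈ T, ∃ j, ¬ (prb a θ val x i j ↔ prb a θ val x' i j) := by
    intro x x'
    constructor
    · intro h
      by_contra hcon
      push Not at hcon
      apply h
      funext t j
      simp only [pr]
      by_cases ht : t ∈ T
      · have := hcon t ht j
        simp only [ht, true_and]
        exact propext (by tauto)
      · simp only [ht, false_and]
    · rintro ⟨i, hi, j, h⟩ heq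
      have := congrFun (congrFun heq i) j
      simp only [pr, hi, true_and] at this
      exact h (by rw [this])
  let b : Fin M → (Fin M → N) → ℝ := fun i y => ((univ.filter (fun p : P =>
    τ ≤ val (Es loc (Function.update (stS sn y i) i (sp p : Set V))) o)).card : ℝ)
  let av : Fin M → (Fin M → N) → ℝ := fun i y => if τ ≤ val (Es loc (stS sn y (i + 1))) o then 1 else 0
  let ch : Fin M → (Fin M → N) → ℝ := fun i y =>
    if pr (Es loc (stS sn y i)) ≠ pr (Es loc (stS sn y (i + 1))) then 1 else 0
  have hav0 : ∀ i y, 0 ≤ av i y := by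
    intro i y; simp only [av]; split_ifs <;> norm_num
  have hch0 : ∀ i y, 0 ≤ ch i y := by
    intro i y; simp only [ch]; split_ifs <;> norm_num
  have hstep : ∀ i y, b i y * Nn ≤
      (∑ ω : N, (av i (Function.update y i ω) + ch i (Function.update y i ω))) * Pp +
        ε * (Pp * Nn) := by
    intro i y
    have hle : ∀ X : Set V, Es loc (stS sn y i) ≤ Es loc (Function.update (stS sn y i) i X) := by
      intro X
      apply Es_mono
      intro j
      by_cases hj : j = i
      · subst hj
        rw [stS_self]
        exact Set.empty_subset _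
      · rw [Function.update_of_ne hj]
    obtain ⟨L, G, hL, hlen, hG, hGx⟩ := flipR htop hmon hT hval o τ (Es loc (stS sn y i))
    have h1 := hA {h | ∃ b ∈ RB I, h = fun X => b (Es loc (Function.update (stS sn y i) i X))}
      (by
        rintro _ ⟨b', hb', rfl⟩
        rcases Es_base loc (stS sn y i) i b' hb' with h | ⟨v, c, d, h1, h2, h3⟩
        · exact Or.inl h
        · exact Or.inr ⟨v, c, d, h1, h2, h3⟩)
      _ (hL.comp (B' := {h | ∃ b ∈ RB I, h = fun X => b (Es loc (Function.update (stS sn y i) i X))})
          (fun X => Es loc (Function.update (stS sn y i) i X)) (fun b hb => ⟨b, hb, rfl⟩))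
      (by rw [List.length_map]; exact hlen.trans hS)
      (fun X => G (Es loc (Function.update (stS sn y i) i X)))
      (by
        rcases hG with h | h
        · exact Or.inl ⟨G, h, rfl⟩
        · exact Or.inr (List.mem_map.mpr ⟨G, h, rfl⟩)) τ
    rw [div_le_iff₀ hPpos] at h1
    have h1' : ((univ.filter (fun p : P =>
        τ ≤ G (Es loc (Function.update (stS sn y i) i (sp p : Set V))))).card : ℝ) * Nn ≤
        ((univ.filter (fun n : N =>
          τ ≤ G (Es loc (Function.update (stS sn y i) i (sn n : Set V))))).card : ℝ) * Pp +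
        ε * (Pp * Nn) := by
      calc _ ≤ ((((univ.filter (fun n : N =>
          τ ≤ G (Es loc (Function.update (stS sn y i) i (sn n : Set V))))).card : ℝ) / Nn + ε) * Pp) *
            Nn := mul_le_mul_of_nonneg_right h1 hNpos.le
        _ = _ := by field_simp
    have hb : b i y ≤ ((univ.filter (fun p : P =>
        τ ≤ G (Es loc (Function.update (stS sn y i) i (sp p : Set V))))).card : ℝ) := by
      simp only [b]
      have : (univ.filter (fun p : P =>
          τ ≤ val (Es loc (Function.update (stS sn y i) i (sp p : Set V))) o)) ⊆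
          (univ.filter (fun p : P =>
          τ ≤ G (Es loc (Function.update (stS sn y i) i (sp p : Set V))))) := by
        intro p hp
        rw [Finset.mem_filter] at hp ⊢
        exact ⟨mem_univ _, (hGx _ (hle _)).mpr (Or.inr hp.2)⟩
      exact_mod_cast Finset.card_le_card this
    have hw : ((univ.filter (fun n : N =>
          τ ≤ G (Es loc (Function.update (stS sn y i) i (sn n : Set V))))).card : ℝ) ≤
        ∑ ω : N, (av i (Function.update y i ω) + ch i (Function.update y i ω)) := by
      rw [Finset.card_filter]
      push_cast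
      apply Finset.sum_le_sum
      intro ω _
      have ha0 := hav0 i (Function.update y i ω)
      have hc0 := hch0 i (Function.update y i ω)
      by_cases hgω : τ ≤ G (Es loc (Function.update (stS sn y i) i (sn ω : Set V)))
      · rw [if_pos hgω]
        rcases (hGx _ (hle _)).mp hgω with h | h
        · have : ch i (Function.update y i ω) = 1 := by
            simp only [ch]
            rw [if_pos]
            rw [stS_update, stS_succ]
            exact fun h' => (hprne _ _).mpr h h'.symm
          rw [this]
          linarith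
        · have : av i (Function.update y i ω) = 1 := by
            simp only [av]
            rw [if_pos]
            rw [stS_succ]
            exact h
          rw [this]
          linarith
      · rw [if_neg hgω]
        linarith
    calc b i y * Nn ≤ _ := mul_le_mul_of_nonneg_right hb hNpos.le
      _ ≤ _ := h1'
      _ ≤ _ := by
          have h2 := mul_le_mul_of_nonneg_right hw hPpos.le
          linarith
  have hsum : ∀ i, (∑ y, b i y) ≤ (∑ y, (av i y + ch i y)) * Pp + ε * (F * Pp) := by
    intro i
    have h1 : (∑ y, b i y) * Nn ≤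
        (∑ y, ∑ ω : N, (av i (Function.update y i ω) + ch i (Function.update y i ω))) * Pp +
          F * (ε * (Pp * Nn)) := by
      have : F * (ε * (Pp * Nn)) = ∑ _y : Fin M → N, ε * (Pp * Nn) := by
        rw [Finset.sum_const, Finset.card_univ, nsmul_eq_mul]
      rw [this, Finset.sum_mul, Finset.sum_mul, ← Finset.sum_add_distrib]
      exact Finset.sum_le_sum (fun y _ => hstep i y)
    have hsu : (∑ y : Fin M → N, ∑ ω : N, (av i (Function.update y i ω) +
        ch i (Function.update y i ω))) = Nn * ∑ y, (av i y + ch i y) := by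
      rw [Finset.mul_sum]
      have key : ∀ f : (Fin M → N) → ℝ, ∑ y : Fin M → N, ∑ ω : N, f (Function.update y i ω) =
          ∑ y, Nn * f y := by
        intro f
        have e1 : ∑ y : Fin M → N, ∑ ω : N, f (Function.update y i ω) =
            ∑ q : (Fin M → N) × N, f (Function.update q.1 i q.2) := by
          rw [Fintype.sum_prod_type]
        have e2 : ∑ y : Fin M → N, Nn * f y = ∑ q : (Fin M → N) × N, f q.1 := by
          rw [Fintype.sum_prod_type]
          apply Finset.sum_congr rfl
          intro y _
          show Nn * f y = ∑ _n : N, f y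
          rw [Finset.sum_const, Finset.card_univ, nsmul_eq_mul]
        rw [e1, e2]
        refine Fintype.sum_bijective (fun q : (Fin M → N) × N => (Function.update q.1 i q.2, q.1 i))
          ?_ _ _ (fun q => rfl)
        have hinv : Function.Involutive
            (fun q : (Fin M → N) × N => (Function.update q.1 i q.2, q.1 i)) := by
          intro q
          simp
        exact hinv.bijective
      exact key (fun y => av i y + ch i y)
    rw [hsu] at h1
    refine le_of_mul_le_mul_right ?_ hNpos
    calc (∑ y, b i y) * Nn ≤ _ := h1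
      _ = _ := by ring
  have hall : (∑ i, ∑ y, b i y) ≤
      (∑ i, ∑ y, av i y) * Pp + (∑ i, ∑ y, ch i y) * Pp + M * (ε * (F * Pp)) := by
    refine (Finset.sum_le_sum (fun i _ => hsum i)).trans (le_of_eq ?_)
    rw [Finset.sum_add_distrib, Finset.sum_const, Finset.card_univ, Fintype.card_fin, nsmul_eq_mul,
      ← Finset.sum_mul, ← add_mul, ← Finset.sum_add_distrib]
    simp only [Finset.sum_add_distrib]
  have hch : (∑ i, ∑ y, ch i y) ≤ F * (κ : ℝ) := by
    rw [Finset.sum_comm]
    have h1 : ∀ y : Fin M → N, ∑ i, ch i y ≤ (κ : ℝ) := by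
      intro y
      have h2 := changes_rk (M := M) pr (fun x => rk T a θ val x s) κ
        (fun x x' hxx' => by
          rcases rk_mono htop hmon hT hval hxx' s le_rfl with h | h
          · exact h.le
          · exact h.1.le)
        (fun x x' hxx' hne => by
          rcases rk_mono htop hmon hT hval hxx' s le_rfl with h | ⟨_, h, _⟩
          · exact h
          · exfalso
            obtain ⟨i, hi, j, hj⟩ := (hprne x x').mp hne
            exact hj (h i hi i.isLt j))
        (fun x => by
          have h3 := rk_lt (T := T) (a := a) (θ := θ) (val := val) x s le_rfl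
          have hTf : T.filter (fun i => i.val < s) = T :=
            Finset.filter_true_of_mem (fun i _ => i.isLt)
          rw [hTf] at h3
          exact h3.le)
        (fun i => Es loc (stS sn y i)) (fun i _ => Es_mono loc (stS_mono sn y i))
        ((Finset.range M).filter (fun i => pr (Es loc (stS sn y i)) ≠ pr (Es loc (stS sn y (i + 1)))))
        (fun i hi => by
          rw [Finset.mem_filter, Finset.mem_range] at hi
          exact hi)
      have h3 : ∑ i : Fin M, ch i y = (((Finset.range M).filter (fun i =>
          pr (Es loc (stS sn y i)) ≠ pr (Es loc (stS sn y (i + 1))))).card : ℝ) := by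
        rw [Finset.card_filter, Finset.sum_range]
        push_cast
        rfl
      rw [h3]
      exact_mod_cast h2
    calc ∑ y, ∑ i, ch i y ≤ ∑ _y : Fin M → N, (κ : ℝ) :=
          Finset.sum_le_sum (fun y _ => h1 y)
      _ = _ := by rw [Finset.sum_const, Finset.card_univ, nsmul_eq_mul]
  have e1 : (((univ.filter (fun l : Fin M × (Fin M → N) × P =>
        τ ≤ val (yesD loc sp sn l) o)).card : ℕ) : ℝ) = ∑ i : Fin M, ∑ y : Fin M → N, b i y := by
    rw [Finset.card_filter]
    push_cast
    rw [Fintype.sum_prod_type]
    apply Finset.sum_congr rfl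
    intro i _
    rw [Fintype.sum_prod_type]
    apply Finset.sum_congr rfl
    intro y _
    simp only [b]
    rw [Finset.card_filter]
    push_cast
    rfl
  have e2 : (((univ.filter (fun l : Fin M × (Fin M → N) × P =>
        τ ≤ val (noD loc sn l) o)).card : ℕ) : ℝ) =
      (∑ i : Fin M, ∑ y : Fin M → N, av i y) * Pp := by
    rw [Finset.card_filter]
    push_cast
    rw [Fintype.sum_prod_type, Finset.sum_mul]
    apply Finset.sum_congr rfl
    intro i _
    rw [Fintype.sum_prod_type, Finset.sum_mul]
    apply Finset.sum_congr rfl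
    intro y _
    have : ∀ p : P, noD loc sn (i, y, p) = Es loc (stS sn y (i + 1)) := fun _ => rfl
    simp only [this]
    rw [Finset.sum_const, Finset.card_univ, nsmul_eq_mul, mul_comm]
  have e3 : (Fintype.card (Fin M × (Fin M → N) × P) : ℝ) = M * (F * Pp) := by
    rw [Fintype.card_prod, Fintype.card_prod, Fintype.card_fin]
    push_cast
    rfl
  rw [e1, e2, e3]
  have hcard : 0 < (M : ℝ) * (F * Pp) := by positivity
  have h10 := mul_le_mul_of_nonneg_right hch hPpos.le
  rw [div_le_iff₀ hcard]
  have e4 : ((∑ i : Fin M, ∑ y : Fin M → N, av i y) * Pp / (M * (F * Pp)) + (κ : ℝ) / M + ε) *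
      (M * (F * Pp)) = (∑ i : Fin M, ∑ y : Fin M → N, av i y) * Pp + (F * κ) * Pp +
      M * (ε * (F * Pp)) := by
    field_simp
  rw [e4]
  linarith

end

end Pool.Agent.H560R2
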