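import Pool.Agent.H560R2.Sum5

/-! The blocks as sets of integers. -/

set_option linter.unusedSectionVars false
set_option linter.unusedVariables false

namespace Pool.Agent.H560R2

open Finset

section emb

variable {m k M : ℕ}

/-- the number with given digits -/
def enc {q : ℕ} (c : Fin k → Fin q) : ℕ := (finFunctionFinEquiv c : ℕ)

lemma enc_lt {q : ℕ} (c : Fin k → Fin q) : enc c < q ^ k := (finFunctionFinEquiv c).isLt

lemma enc_inj {q : ℕ} {c c' : Fin k → Fin q} (h : enc c = enc c') : c = c' :=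
  finFunctionFinEquiv.injective (Fin.ext h)

lemma enc_wadd (a b : Fin k → Fin m) : enc (wadd a b) = enc (wup a) + enc (wup b) := by
  unfold enc
  rw [finFunctionFinEquiv_apply, finFunctionFinEquiv_apply, finFunctionFinEquiv_apply,
    ← Finset.sum_add_distrib]
  apply Finset.sum_congr rfl
  intro i _
  simp only [wadd, wup]
  ring

/-- the offset of an element within its kind -/
def off (M : ℕ) (i : ℕ) : Vw m k → ℕ
  | Sum.inl a => i * M * (2 * m) ^ k + enc (wup a)
  | Sum.inr (Sum.inl b) => i * (2 * m) ^ k + enc (wup b)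
  | Sum.inr (Sum.inr c) => (i * M + i) * (2 * m) ^ k + enc c

/-- the coefficient of the kind of an element -/
def knd : Vw m k → ℕ
  | Sum.inl _ => 1
  | Sum.inr (Sum.inl _) => 3
  | Sum.inr (Sum.inr _) => 4

/-- half of the base -/
def hb (m k M : ℕ) : ℕ := M * M * (2 * m) ^ k

/-- the number of an element of block `i` -/
def num (q : Fin M × Vw m k) : ℕ := knd q.2 * (2 * hb m k M) + off M q.1 q.2

lemma off_lt (i : Fin M) (v : Vw m k) : off M i v < hb m k M := by
  have hi := i.isLt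
  have hM : 1 ≤ M := by omega
  obtain ⟨W, hW⟩ : ∃ W, W = (2 * m) ^ k := ⟨_, rfl⟩
  have h2 : (i : ℕ) * M + i + 1 ≤ M * M := by
    have : ((i : ℕ) + 1) * (M + 1) ≤ M * (M + 1) := Nat.mul_le_mul_right _ hi
    have e1 : ((i : ℕ) + 1) * (M + 1) = i * M + i + M + 1 := by ring
    have e2 : M * (M + 1) = M * M + M := by ring
    omega
  have key : ∀ j e : ℕ, j + 1 ≤ M * M → e < W → j * W + e < M * M * W := by
    intro j e hj he
    calc j * W + e < j * W + W := by omega
      _ = (j + 1) * W := by ring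
      _ ≤ M * M * W := Nat.mul_le_mul_right _ hj
  unfold hb
  rcases v with a | b | c
  · simp only [off]
    rw [← hW]
    exact key _ _ (by omega) (by rw [hW]; exact enc_lt _)
  · simp only [off]
    rw [← hW]
    exact key _ _ (by omega) (by rw [hW]; exact enc_lt _)
  · simp only [off]
    rw [← hW]
    exact key _ _ (by omega) (by rw [hW]; exact enc_lt _)

lemma num_le (q : Fin M × Vw m k) : num q ≤ 9 * hb m k M := by
  obtain ⟨i, v⟩ := q
  have h := off_lt i v
  unfold num
  rcases v with a | b | c <;> simp only [knd] <;> omega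

lemma split_eq {W j j' e e' : ℕ} (he : e < W) (he' : e' < W) (h : j * W + e = j' * W + e') :
    j = j' ∧ e = e' := by
  have hW : 0 < W := by omega
  have h1 : (j * W + e) / W = j := by
    rw [Nat.mul_comm, Nat.mul_add_div hW, Nat.div_eq_of_lt he, Nat.add_zero]
  have h2 : (j' * W + e') / W = j' := by
    rw [Nat.mul_comm, Nat.mul_add_div hW, Nat.div_eq_of_lt he', Nat.add_zero]
  have h3 : j = j' := by rw [← h1, ← h2, h]
  subst h3
  exact ⟨rfl, by omega⟩

lemma blk_eq {i j l : ℕ} (hj : j < M) (hl : l < M) (h : i * M + j = l * M + l) : i = l ∧ j = l :=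
  split_eq hj hl h

lemma num_inj : Function.Injective (num : Fin M × Vw m k → ℕ) := by
  rintro ⟨i, v⟩ ⟨i', v'⟩ h
  have h1 := off_lt i v
  have h2 := off_lt i' v'
  have hiM : 0 < M := by have := i.isLt; omega
  unfold num at h
  obtain ⟨H, hH⟩ : ∃ H, H = hb m k M := ⟨_, rfl⟩
  rw [← hH] at h h1 h2
  simp only at h
  have hsame : knd v = knd v' → off M i v = off M i' v' := by
    intro e
    rw [e] at h
    omega
  rcases v with a | b | c <;> rcases v' with a' | b' | c' <;> simp only [knd] at h hsame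
  · have h3 := hsame trivial
    simp only [off] at h3
    obtain ⟨h4, h5⟩ := split_eq (enc_lt _) (enc_lt _) h3
    have h6 : (i : ℕ) = i' := Nat.eq_of_mul_eq_mul_right hiM h4
    rw [Fin.ext h6, wup_inj (enc_inj h5)]
  · omega
  · omega
  · omega
  · have h3 := hsame trivial
    simp only [off] at h3
    obtain ⟨h4, h5⟩ := split_eq (enc_lt _) (enc_lt _) h3
    rw [Fin.ext h4, wup_inj (enc_inj h5)]
  · omega
  · omega
  · omega
  · have h3 := hsame trivial
    simp only [off] at h3
    obtain ⟨h4, h5⟩ := split_eq (enc_lt _) (enc_lt _) h3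
    have h6 : (i : ℕ) * (M + 1) = i' * (M + 1) := by
      calc (i : ℕ) * (M + 1) = i * M + i := by ring
        _ = i' * M + i' := h4
        _ = i' * (M + 1) := by ring
    have h7 : (i : ℕ) = i' := Nat.eq_of_mul_eq_mul_right (by omega) h6
    rw [Fin.ext h7, enc_inj h5]

/-- the only sums -/
lemma num_sum {p q r : Fin M × Vw m k} (h : num p + num q = num r) :
    ∃ (i : Fin M) (a b : Fin k → Fin m), r = (i, Sum.inr (Sum.inr (wadd a b))) ∧
      ((p = (i, Sum.inl a) ∧ q = (i, Sum.inr (Sum.inl b))) ∨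
        (q = (i, Sum.inl a) ∧ p = (i, Sum.inr (Sum.inl b)))) := by
  obtain ⟨i, v⟩ := p
  obtain ⟨j, v'⟩ := q
  obtain ⟨l, v''⟩ := r
  have h1 := off_lt i v
  have h2 := off_lt j v'
  have h3 := off_lt l v''
  unfold num at h
  obtain ⟨H, hH⟩ : ∃ H, H = hb m k M := ⟨_, rfl⟩
  rw [← hH] at h h1 h2 h3
  simp only at h
  have main : ∀ (i j l : Fin M) (a b : Fin k → Fin m) (c : Fin k → Fin (2 * m)),
      i * M * (2 * m) ^ k + enc (wup a) + (j * (2 * m) ^ k + enc (wup b)) =
        (l * M + l) * (2 * m) ^ k + enc c → i = l ∧ j = l ∧ c = wadd a b := by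
    intro i j l a b c h
    have h4 : (i * M + j) * (2 * m) ^ k + enc (wadd a b) = (l * M + l) * (2 * m) ^ k + enc c := by
      rw [enc_wadd, ← h]
      ring
    obtain ⟨h5, h6⟩ := split_eq (enc_lt _) (enc_lt _) h4
    obtain ⟨h7, h8⟩ := blk_eq j.isLt l.isLt h5
    exact ⟨Fin.ext h7, Fin.ext h8, (enc_inj h6).symm⟩
  rcases v with a | a | a <;> rcases v' with b | b | b <;> rcases v'' with c | c | c <;>
    simp only [knd] at h <;> try omega
  · have h4 : off M i (Sum.inl a : Vw m k) + off M j (Sum.inr (Sum.inl b) : Vw m k) =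
        off M l (Sum.inr (Sum.inr c) : Vw m k) := by omega
    simp only [off] at h4
    obtain ⟨h5, h6, h7⟩ := main i j l a b c h4
    subst h5 h6 h7
    exact ⟨_, a, b, rfl, Or.inl ⟨rfl, rfl⟩⟩
  · have h4 : off M j (Sum.inl b : Vw m k) + off M i (Sum.inr (Sum.inl a) : Vw m k) =
        off M l (Sum.inr (Sum.inr c) : Vw m k) := by omega
    simp only [off] at h4
    obtain ⟨h5, h6, h7⟩ := main j i l b a c h4
    subst h5 h6 h7
    exact ⟨_, b, a, rfl, Or.inr ⟨rfl, rfl⟩⟩

open Classical in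
/-- the positions -/
noncomputable def locZ (m k M : ℕ) : ℤ → Option (Fin M × Vw m k) := fun z =>
  if h : ∃ q : Fin M × Vw m k, (num q : ℤ) = z then some (Classical.choose h) else none

lemma locZ_num (q : Fin M × Vw m k) : locZ m k M (num q) = some q := by
  have h : ∃ q' : Fin M × Vw m k, (num q' : ℤ) = num q := ⟨q, rfl⟩
  unfold locZ
  rw [dif_pos h]
  congr 1
  apply num_inj
  exact_mod_cast Classical.choose_spec h

open Classical in
/-- the set of integers -/
noncomputable def setZ (y : Fin M → Set (Vw m k)) : Finset ℤ :=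
  (univ.filter (fun q : Fin M × Vw m k => q.2 ∈ y q.1)).image (fun q => (num q : ℤ))

lemma mem_setZ (y : Fin M → Set (Vw m k)) (z : ℤ) :
    z ∈ setZ y ↔ ∃ q : Fin M × Vw m k, q.2 ∈ y q.1 ∧ (num q : ℤ) = z := by
  classical
  unfold setZ
  rw [Finset.mem_image]
  constructor
  · rintro ⟨q, hq, h⟩
    exact ⟨q, (Finset.mem_filter.mp hq).2, h⟩
  · rintro ⟨q, hq, h⟩
    exact ⟨q, Finset.mem_filter.mpr ⟨mem_univ _, hq⟩, h⟩

lemma setZ_card (y : Fin M → Set (Vw m k)) : (setZ y).card ≤ 3 * (M * (2 * m) ^ k) := by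
  classical
  unfold setZ
  refine Finset.card_image_le.trans ((Finset.card_filter_le _ _).trans ?_)
  rw [Finset.card_univ, Fintype.card_prod, Fintype.card_sum, Fintype.card_sum, Fintype.card_fun,
    Fintype.card_fun, Fintype.card_fin, Fintype.card_fin, Fintype.card_fin, Fintype.card_fin]
  have h : m ^ k ≤ (2 * m) ^ k := Nat.pow_le_pow_left (by omega) k
  calc M * (m ^ k + (m ^ k + (2 * m) ^ k)) ≤ M * (3 * (2 * m) ^ k) :=
        Nat.mul_le_mul_left _ (by omega)
    _ = _ := by ring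

lemma setZ_range (y : Fin M → Set (Vw m k)) (z : ℤ) (hz : z ∈ setZ y) :
    0 ≤ z ∧ z ≤ 9 * (hb m k M : ℤ) := by
  obtain ⟨q, -, rfl⟩ := (mem_setZ y z).mp hz
  refine ⟨Int.natCast_nonneg _, ?_⟩
  exact_mod_cast num_le q

open Classical in
lemma setZ_bits (y : Fin M → Set (Vw m k)) :
    (fun z : ℤ => if z ∈ setZ y then (1 : ℝ) else 0) = bit (Es (locZ m k M) y) := by
  funext z
  unfold bit
  have h : z ∈ setZ y ↔ Es (locZ m k M) y z = true := by
    rw [mem_setZ]
    constructor
    · rintro ⟨q, hq, rfl⟩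
      unfold Es
      rw [locZ_num]
      simpa using hq
    · intro h
      unfold Es at h
      rcases hl : locZ m k M z with _ | q
      · rw [hl] at h
        simp at h
      · rw [hl] at h
        simp only [decide_eq_true_eq] at h
        refine ⟨q, h, ?_⟩
        unfold locZ at hl
        split_ifs at hl with h1
        rw [← Option.some.inj hl]
        exact Classical.choose_spec h1
  by_cases hz : z ∈ setZ y
  · rw [if_pos hz, if_pos (h.mp hz)]
  · rw [if_neg hz, if_neg (fun h' => hz (h.mpr h'))]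

/-- three different elements, one of which is the sum of the others -/
def Has3 (S : Finset ℤ) : Prop :=
  ∃ a ∈ S, ∃ b ∈ S, ∃ c ∈ S, a ≠ b ∧ a ≠ c ∧ b ≠ c ∧ a + b = c

lemma has3_setZ (y : Fin M → Set (Vw m k)) : Has3 (setZ y) ↔
    ∃ (i : Fin M) (a b : Fin k → Fin m), (Sum.inl a : Vw m k) ∈ y i ∧
      (Sum.inr (Sum.inl b) : Vw m k) ∈ y i ∧ (Sum.inr (Sum.inr (wadd a b)) : Vw m k) ∈ y i := by
  constructor
  · rintro ⟨x, hx, x', hx', x'', hx'', -, -, -, hs⟩
    obtain ⟨p, hp, rfl⟩ := (mem_setZ y x).mp hx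
    obtain ⟨q, hq, rfl⟩ := (mem_setZ y x').mp hx'
    obtain ⟨r, hr, rfl⟩ := (mem_setZ y x'').mp hx''
    have hs' : num p + num q = num r := by exact_mod_cast hs
    obtain ⟨i, a, b, rfl, ⟨rfl, rfl⟩ | ⟨rfl, rfl⟩⟩ := num_sum hs'
    · exact ⟨i, a, b, hp, hq, hr⟩
    · exact ⟨i, a, b, hq, hp, hr⟩
  · rintro ⟨i, a, b, ha, hb', hc⟩
    have hne : ∀ v v' : Vw m k, v ≠ v' → (num (i, v) : ℤ) ≠ num (i, v') := by
      intro v v' hv h
      have h1 : num (i, v) = num (i, v') := by exact_mod_cast h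
      exact hv (congrArg Prod.snd (num_inj h1))
    refine ⟨num (i, (Sum.inl a : Vw m k)), (mem_setZ y _).mpr ⟨_, ha, rfl⟩,
      num (i, (Sum.inr (Sum.inl b) : Vw m k)), (mem_setZ y _).mpr ⟨_, hb', rfl⟩,
      num (i, (Sum.inr (Sum.inr (wadd a b)) : Vw m k)), (mem_setZ y _).mpr ⟨_, hc, rfl⟩,
      hne _ _ (by simp), hne _ _ (by simp), hne _ _ (by simp), ?_⟩
    have h : num (i, (Sum.inl a : Vw m k)) + num (i, (Sum.inr (Sum.inl b) : Vw m k)) =
        num (i, (Sum.inr (Sum.inr (wadd a b)) : Vw m k)) := by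
      unfold num
      simp only [knd, off]
      rw [enc_wadd]
      ring
    exact_mod_cast h

/-- positive inputs have a solution -/
lemma has3_yes {N' : Type} (sn : N' → Finset (Vw m k)) (i : Fin M) (y : Fin M → N')
    (p : (Fin k → Fin m) × (Fin k → Fin m)) :
    Has3 (setZ (Function.update (stS sn y i) i ((spos p : Finset (Vw m k)) : Set (Vw m k)))) := by
  rw [has3_setZ]
  refine ⟨i, p.1, p.2, ?_, ?_, ?_⟩
  · rw [Function.update_self]
    exact Finset.mem_coe.mpr ((mem_spos0 p _).mpr rfl)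
  · rw [Function.update_self]
    exact Finset.mem_coe.mpr ((mem_spos1 p _).mpr rfl)
  · rw [Function.update_self]
    exact Finset.mem_coe.mpr ((mem_spos2 p _).mpr rfl)

/-- negative inputs have no solution -/
lemma has3_no {Q : ℕ} [Fact Q.Prime] (y : Fin M → (Fin k → ZMod Q)) (i : ℕ) :
    ¬ Has3 (setZ (stS (fun α : Fin k → ZMod Q => (sneg α : Finset (Vw m k))) y i)) := by
  rw [has3_setZ]
  rintro ⟨j, a, b, h0, h1, h2⟩
  by_cases hj : j.val < i
  · simp only [stS, if_pos hj] at h0 h1 h2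
    exact sneg_free (y j) a b (Finset.mem_coe.mp h0) (Finset.mem_coe.mp h1) (Finset.mem_coe.mp h2)
  · simp only [stS, if_neg hj] at h0
    exact h0

end emb

end Pool.Agent.H560R2
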