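import Pool.Agent.H560R2.Sum6

/-! Parameters. -/

set_option linter.unusedSectionVars false
set_option linter.unusedVariables false

namespace Pool.Agent.H560R2

open Finset Filter

lemma small_eventually (C : ℝ) (e a : ℝ) (h : a < e) :
    ∃ n0 : ℕ, ∀ n : ℕ, n0 ≤ n → C * (n : ℝ) ^ (-e) ≤ (n : ℝ) ^ (-a) / 4 := by
  have h1 : Tendsto (fun n : ℕ => C * (n : ℝ) ^ (-(e - a))) atTop (nhds (C * 0)) :=
    ((tendsto_rpow_neg_atTop (by linarith : 0 < e - a)).comp tendsto_natCast_atTop_atTop).const_mul C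
  rw [mul_zero] at h1
  have h2 : ∀ᶠ n : ℕ in atTop, C * (n : ℝ) ^ (-(e - a)) < 1 / 4 :=
    h1.eventually_lt_const (by norm_num)
  obtain ⟨n0, hn0⟩ := eventually_atTop.mp (h2.and (eventually_ge_atTop 1))
  refine ⟨n0, fun n hn => ?_⟩
  obtain ⟨h3, h4⟩ := hn0 n hn
  have hn1 : (0 : ℝ) < n := by exact_mod_cast h4
  have h5 : (n : ℝ) ^ (-e) = (n : ℝ) ^ (-(e - a)) * (n : ℝ) ^ (-a) := by
    rw [← Real.rpow_add hn1]
    congr 1
    ring
  rw [h5]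
  have h6 : 0 < (n : ℝ) ^ (-a) := Real.rpow_pos_of_pos hn1 _
  nlinarith

lemma big_eventually (C : ℝ) (e : ℝ) (h : 0 < e) :
    ∃ n0 : ℕ, ∀ n : ℕ, n0 ≤ n → C ≤ (n : ℝ) ^ e := by
  have h1 : Tendsto (fun n : ℕ => (n : ℝ) ^ e) atTop atTop :=
    (tendsto_rpow_atTop h).comp tendsto_natCast_atTop_atTop
  obtain ⟨n0, hn0⟩ := eventually_atTop.mp (h1.eventually_ge_atTop C)
  exact ⟨n0, hn0⟩

lemma quot_bound {n y c δ s C : ℝ} (hn : 1 ≤ n) (hc : 0 < c) (hC : 0 ≤ C) (hy : c * n ^ δ ≤ y)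
    (j : ℕ) : C * n ^ s / y ^ j ≤ (C * (c ^ j)⁻¹) * n ^ (-(δ * j - s)) := by
  have hn0 : 0 < n := by linarith
  have h1 : 0 < c * n ^ δ := mul_pos hc (Real.rpow_pos_of_pos hn0 _)
  have h2 : (c * n ^ δ) ^ j ≤ y ^ j := pow_le_pow_left₀ h1.le hy j
  have h3 : C * n ^ s / y ^ j ≤ C * n ^ s / (c * n ^ δ) ^ j := by
    apply div_le_div_of_nonneg_left _ (pow_pos h1 j) h2
    exact mul_nonneg hC (Real.rpow_nonneg hn0.le _)
  refine h3.trans (le_of_eq ?_)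
  rw [mul_pow, ← Real.rpow_natCast (n ^ δ) j, ← Real.rpow_mul hn0.le,
    show -(δ * j - s) = s - δ * j by ring, Real.rpow_sub hn0]
  field_simp

/-- the error of one block -/
noncomputable def blkerr (h C0 y : ℕ) (S : ℝ) : ℝ :=
  (9 * (y : ℝ) ^ 2 * S + 3 * y * (y : ℝ) ^ h) / (y : ℝ) ^ (2 * h) + C0 * S / (y : ℝ) ^ (3 * h + 3)

lemma blkerr_eq {h C0 y : ℕ} {S : ℝ} (hh : 1 ≤ h) (hy : 0 < y) : blkerr h C0 y S =
    9 * S / (y : ℝ) ^ (2 * h - 2) + 3 / (y : ℝ) ^ (h - 1) + C0 * S / (y : ℝ) ^ (3 * h + 3) := by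
  have hyR : (0 : ℝ) < y := by exact_mod_cast hy
  obtain ⟨j, rfl⟩ : ∃ j, h = j + 1 := ⟨h - 1, by omega⟩
  have e1 : 2 * (j + 1) - 2 = 2 * j := by omega
  have e2 : j + 1 - 1 = j := by omega
  unfold blkerr
  rw [e1, e2]
  congr 1
  rw [show 2 * (j + 1) = 2 * j + 2 by ring, pow_add, pow_add]
  have e3 : (y : ℝ) ^ (2 * j) = (y : ℝ) ^ j * (y : ℝ) ^ j := by rw [← pow_add]; ring_nf
  rw [e3]
  field_simp

/-- the choice of the parameters -/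
theorem params (g t b : ℝ) (hg : 0 ≤ g) (ht : 0 ≤ t) (hb : 0 < b) (htg : t + 2 * g < 2) :
    ∃ h : ℕ, ∀ C0 : ℕ, ∃ a : ℝ, 0 < a ∧ ∃ n0 : ℕ, ∀ n : ℕ, n0 ≤ n → ∃ κ M : ℕ, 0 < M ∧
      3 * (M * (2 * 2 ^ h) ^ ((4 * h + 10) * κ)) ≤ n ∧
      9 * ((M : ℝ) * M * (2 * 2 ^ h) ^ ((4 * h + 10) * κ)) ≤ (n : ℝ) ^ (1 + g + b) ∧
      (n : ℝ) ^ g / M + blkerr h C0 (2 ^ ((4 * h + 10) * κ)) ((n : ℝ) ^ t) ≤ (n : ℝ) ^ (-a) := by
  obtain ⟨a', ha'⟩ : ∃ a', a' = min (b / 2) ((2 - 2 * g - t) / 8) := ⟨_, rfl⟩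
  have ha0 : 0 < a' := by
    rw [ha']
    exact lt_min (by linarith) (by linarith)
  have hab : a' ≤ b / 2 := by rw [ha']; exact min_le_left _ _
  have hag : a' ≤ (2 - 2 * g - t) / 8 := by rw [ha']; exact min_le_right _ _
  obtain ⟨ρ, hρ⟩ : ∃ ρ, ρ = 1 - g - a' := ⟨_, rfl⟩
  have hρ0 : 0 < ρ := by rw [hρ]; linarith
  have hρt : t < 2 * ρ := by rw [hρ]; linarith
  have hd : 0 < 2 * ρ - t := by linarith
  obtain ⟨h, hh⟩ := exists_nat_gt (max 2 (8 * ρ / (2 * ρ - t)))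
  have hh2 : (2 : ℝ) < h := (le_max_left _ _).trans_lt hh
  have hh3 : 8 * ρ / (2 * ρ - t) < h := (le_max_right _ _).trans_lt hh
  have hhN : 2 < h := by exact_mod_cast hh2
  refine ⟨h, fun C0 => ?_⟩
  have hh0 : (0 : ℝ) < (h : ℝ) + 1 := by linarith
  obtain ⟨δ, hδ⟩ : ∃ δ, δ = ρ / ((h : ℝ) + 1) := ⟨_, rfl⟩
  have hδ0 : 0 < δ := by rw [hδ]; positivity
  have hδh : δ * ((h : ℝ) + 1) = ρ := by rw [hδ]; field_simp
  have c1 : ((2 * h - 2 : ℕ) : ℝ) = 2 * (h : ℝ) - 2 := by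
    rw [Nat.cast_sub (by omega)]; push_cast; ring
  have c2 : ((h - 1 : ℕ) : ℝ) = (h : ℝ) - 1 := by
    rw [Nat.cast_sub (by omega)]; push_cast; ring
  have c3 : ((3 * h + 3 : ℕ) : ℝ) = 3 * ((h : ℝ) + 1) := by push_cast; ring
  have e1 : 0 < δ * (2 * h - 2 : ℕ) - t := by
    rw [c1]
    have h1 : 8 * ρ < h * (2 * ρ - t) := by rwa [div_lt_iff₀ hd] at hh3
    have h2 : δ * (2 * (h : ℝ) - 2) = 2 * ρ - 4 * δ := by rw [← hδh]; ring
    have h3 : 4 * δ < 2 * ρ - t := by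
      have : 8 * δ * (h + 1) < (h + 1) * (2 * ρ - t) := by
        calc 8 * δ * ((h : ℝ) + 1) = 8 * ρ := by rw [← hδh]; ring
          _ < h * (2 * ρ - t) := h1
          _ ≤ _ := by nlinarith
      have h4 : 8 * δ < 2 * ρ - t := by nlinarith
      linarith
    rw [h2]
    linarith
  have e2 : 0 < δ * (h - 1 : ℕ) - 0 := by
    rw [c2, sub_zero]
    exact mul_pos hδ0 (by linarith)
  have e3 : 0 < δ * (3 * h + 3 : ℕ) - t := by
    rw [c3]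
    have : δ * (3 * ((h : ℝ) + 1)) = 3 * ρ := by rw [← hδh]; ring
    rw [this]
    linarith
  obtain ⟨a, haa⟩ : ∃ a, a = min (min a' (δ * (2 * h - 2 : ℕ) - t))
    (min (δ * (h - 1 : ℕ) - 0) (δ * (3 * h + 3 : ℕ) - t)) / 2 := ⟨_, rfl⟩
  have hmin : 0 < min (min a' (δ * (2 * h - 2 : ℕ) - t))
    (min (δ * (h - 1 : ℕ) - 0) (δ * (3 * h + 3 : ℕ) - t)) := lt_min (lt_min ha0 e1) (lt_min e2 e3)
  have hapos : 0 < a := by rw [haa]; linarith
  have l0 : a < a' := by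
    have : min (min a' (δ * (2 * h - 2 : ℕ) - t))
      (min (δ * (h - 1 : ℕ) - 0) (δ * (3 * h + 3 : ℕ) - t)) ≤ a' :=
      (min_le_left _ _).trans (min_le_left _ _)
    linarith
  have l1 : a < δ * (2 * h - 2 : ℕ) - t := by
    have : min (min a' (δ * (2 * h - 2 : ℕ) - t))
      (min (δ * (h - 1 : ℕ) - 0) (δ * (3 * h + 3 : ℕ) - t)) ≤ δ * (2 * h - 2 : ℕ) - t :=
      (min_le_left _ _).trans (min_le_right _ _)
    linarith
  have l2 : a < δ * (h - 1 : ℕ) - 0 := by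
    have : min (min a' (δ * (2 * h - 2 : ℕ) - t))
      (min (δ * (h - 1 : ℕ) - 0) (δ * (3 * h + 3 : ℕ) - t)) ≤ δ * (h - 1 : ℕ) - 0 :=
      (min_le_right _ _).trans (min_le_left _ _)
    linarith
  have l3 : a < δ * (3 * h + 3 : ℕ) - t := by
    have : min (min a' (δ * (2 * h - 2 : ℕ) - t))
      (min (δ * (h - 1 : ℕ) - 0) (δ * (3 * h + 3 : ℕ) - t)) ≤ δ * (3 * h + 3 : ℕ) - t :=
      (min_le_right _ _).trans (min_le_right _ _)
    linarith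
  obtain ⟨D, hD⟩ : ∃ D : ℕ, D = 2 ^ ((h + 1) * (4 * h + 10)) := ⟨_, rfl⟩
  have hD1 : 1 < D := by
    rw [hD]
    exact Nat.one_lt_two_pow (by positivity)
  have hDR : (0 : ℝ) < D := by exact_mod_cast (by omega : 0 < D)
  obtain ⟨c, hc⟩ : ∃ c : ℝ, c = ((6 * (D : ℝ))⁻¹) ^ (((h + 1 : ℕ) : ℝ)⁻¹) := ⟨_, rfl⟩
  have hc0 : 0 < c := by rw [hc]; positivity
  obtain ⟨n1, hn1⟩ := small_eventually (9 * (c ^ (2 * h - 2))⁻¹) _ a l1
  obtain ⟨n2, hn2⟩ := small_eventually (3 * (c ^ (h - 1))⁻¹) _ a l2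
  obtain ⟨n3, hn3⟩ := small_eventually (C0 * (c ^ (3 * h + 3))⁻¹) _ a l3
  obtain ⟨n4, hn4⟩ := small_eventually 1 _ a l0
  obtain ⟨n5, hn5⟩ := big_eventually 6 ρ hρ0
  obtain ⟨n6, hn6⟩ := big_eventually 6 (b - a') (by linarith)
  refine ⟨a, hapos, n1 + n2 + n3 + n4 + n5 + n6 + 1, fun n hn => ?_⟩
  have hn1' := hn1 n (by omega)
  have hn2' := hn2 n (by omega)
  have hn3' := hn3 n (by omega)
  have hn4' := hn4 n (by omega)
  have hn5' := hn5 n (by omega)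
  have hn6' := hn6 n (by omega)
  have hnR : (1 : ℝ) ≤ n := by exact_mod_cast (by omega : 1 ≤ n)
  have hn0R : (0 : ℝ) < n := by linarith
  -- the number of blocks
  obtain ⟨x, hx⟩ : ∃ x, x = (n : ℝ) ^ (g + a') := ⟨_, rfl⟩
  have hx1 : 1 ≤ x := by rw [hx]; exact Real.one_le_rpow hnR (by linarith)
  obtain ⟨M, hM⟩ : ∃ M : ℕ, M = ⌈x⌉₊ := ⟨_, rfl⟩
  have hMx : x ≤ M := by rw [hM]; exact Nat.le_ceil x
  have hM2 : (M : ℝ) ≤ 2 * x := by
    have : (M : ℝ) < x + 1 := by rw [hM]; exact Nat.ceil_lt_add_one (by linarith)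
    linarith
  have hM0R : (0 : ℝ) < M := by linarith
  have hM0 : 0 < M := by exact_mod_cast hM0R
  have hxn : x * (n : ℝ) ^ ρ = n := by
    rw [hx, ← Real.rpow_add hn0R]
    have : g + a' + ρ = 1 := by rw [hρ]; ring
    rw [this, Real.rpow_one]
  have h3M : 3 * M ≤ n := by
    have : (3 : ℝ) * M ≤ n := by
      calc (3 : ℝ) * M ≤ x * 6 := by linarith
        _ ≤ x * (n : ℝ) ^ ρ := mul_le_mul_of_nonneg_left hn5' (by linarith)
        _ = n := hxn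
    exact_mod_cast this
  obtain ⟨κ, hκ⟩ : ∃ κ, κ = Nat.log D (n / (3 * M)) := ⟨_, rfl⟩
  have hq1 : n / (3 * M) ≠ 0 := by
    have := (Nat.one_le_div_iff (by omega : 0 < 3 * M)).mpr h3M
    omega
  have hκ1 : D ^ κ ≤ n / (3 * M) := by
    rw [hκ]; exact Nat.pow_log_le_self D hq1
  have hκ2 : n / (3 * M) < D ^ (κ + 1) := by
    rw [hκ]; exact Nat.lt_pow_succ_log_self hD1 _
  have hW : (2 * 2 ^ h) ^ ((4 * h + 10) * κ) = D ^ κ := by
    rw [hD, ← pow_mul, show 2 * 2 ^ h = 2 ^ (h + 1) by rw [pow_succ]; ring, ← pow_mul]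
    congr 1
    ring
  have hWR : ((2 : ℝ) * 2 ^ h) ^ ((4 * h + 10) * κ) = (D : ℝ) ^ κ := by exact_mod_cast hW
  have hn3M : 3 * (M * D ^ κ) ≤ n := by
    calc 3 * (M * D ^ κ) = (3 * M) * D ^ κ := by ring
      _ ≤ (3 * M) * (n / (3 * M)) := Nat.mul_le_mul_left _ hκ1
      _ ≤ n := Nat.mul_div_le _ _
  have hWlow : (n : ℝ) ^ ρ / (6 * D) ≤ (D : ℝ) ^ κ := by
    have h1 : n < 3 * M * D ^ (κ + 1) := by
      have := Nat.lt_mul_div_succ n (by omega : 0 < 3 * M)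
      calc n < 3 * M * (n / (3 * M) + 1) := this
        _ ≤ _ := Nat.mul_le_mul_left _ hκ2
    have h2 : (n : ℝ) < 3 * M * (D : ℝ) ^ (κ + 1) := by exact_mod_cast h1
    have h3 : x * (n : ℝ) ^ ρ ≤ x * (6 * D * (D : ℝ) ^ κ) := by
      rw [hxn]
      calc (n : ℝ) ≤ 3 * M * (D : ℝ) ^ (κ + 1) := h2.le
        _ ≤ 3 * (2 * x) * (D : ℝ) ^ (κ + 1) := by
            apply mul_le_mul_of_nonneg_right _ (by positivity)
            linarith
        _ = _ := by rw [pow_succ]; ring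
    have h4 : (n : ℝ) ^ ρ ≤ 6 * D * (D : ℝ) ^ κ := le_of_mul_le_mul_left h3 (by linarith)
    rw [div_le_iff₀ (by positivity)]
    linarith
  obtain ⟨y, hy⟩ : ∃ y : ℕ, y = 2 ^ ((4 * h + 10) * κ) := ⟨_, rfl⟩
  have hy0 : 0 < y := by rw [hy]; positivity
  have hyW : (y : ℝ) ^ (h + 1) = (D : ℝ) ^ κ := by
    rw [hy, hD]
    push_cast
    rw [← pow_mul, ← pow_mul]
    congr 1
    ring
  have hylow : c * (n : ℝ) ^ δ ≤ y := by
    have h1 : (y : ℝ) = ((y : ℝ) ^ (h + 1)) ^ (((h + 1 : ℕ) : ℝ)⁻¹) := by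
      rw [Real.pow_rpow_inv_natCast (Nat.cast_nonneg _) (by omega)]
    rw [h1, hyW]
    have h2 : ((n : ℝ) ^ ρ / (6 * D)) ^ (((h + 1 : ℕ) : ℝ)⁻¹) ≤
        ((D : ℝ) ^ κ) ^ (((h + 1 : ℕ) : ℝ)⁻¹) :=
      Real.rpow_le_rpow (by positivity) hWlow (by positivity)
    refine le_trans (le_of_eq ?_) h2
    rw [div_eq_mul_inv, Real.mul_rpow (by positivity) (by positivity), ← hc,
      ← Real.rpow_mul hn0R.le, mul_comm]
    congr 2
    rw [hδ]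
    push_cast
    rw [div_eq_mul_inv]
  refine ⟨κ, M, hM0, by rw [hW]; exact hn3M, ?_, ?_⟩
  · rw [hWR]
    have h1 : (3 : ℝ) * (M * (D : ℝ) ^ κ) ≤ n := by exact_mod_cast hn3M
    calc 9 * ((M : ℝ) * M * (D : ℝ) ^ κ) = 3 * M * (3 * (M * (D : ℝ) ^ κ)) := by ring
      _ ≤ 3 * M * n := mul_le_mul_of_nonneg_left h1 (by positivity)
      _ ≤ 3 * (2 * x) * n := by
          apply mul_le_mul_of_nonneg_right _ hn0R.le
          linarith
      _ = 6 * (x * n) := by ring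
      _ ≤ (n : ℝ) ^ (b - a') * (x * n) := mul_le_mul_of_nonneg_right hn6' (by positivity)
      _ = (n : ℝ) ^ (1 + g + b) := by
          rw [hx]
          nth_rewrite 3 [← Real.rpow_one (n : ℝ)]
          rw [← Real.rpow_add hn0R, ← Real.rpow_add hn0R]
          congr 1
          ring
  · rw [← hy, blkerr_eq (by omega) hy0]
    have q1 := quot_bound (s := t) (C := 9) hnR hc0 (by norm_num) hylow (2 * h - 2)
    have q2 := quot_bound (s := 0) (C := 3) hnR hc0 (by norm_num) hylow (h - 1)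
    have q3 := quot_bound (s := t) (C := C0) hnR hc0 (Nat.cast_nonneg _) hylow (3 * h + 3)
    rw [Real.rpow_zero, mul_one] at q2
    have q4 : (n : ℝ) ^ g / M ≤ (n : ℝ) ^ (-a') := by
      calc (n : ℝ) ^ g / M ≤ (n : ℝ) ^ g / x :=
            div_le_div_of_nonneg_left (Real.rpow_nonneg hn0R.le _) (by linarith) hMx
        _ = (n : ℝ) ^ (-a') := by
            rw [hx, ← Real.rpow_sub hn0R]
            congr 1
            ring
    linarith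

end Pool.Agent.H560R2
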