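import Pool.Agent.H560R2.Cmp3

/-! Switching networks and directed networks. -/

set_option linter.unusedSectionVars false
set_option linter.unusedVariables false

namespace Pool.Agent.H560R2

open Finset

section

variable {K : Type} [Field K] {n : ℕ}

/-- connectivity in terms of spans -/
theorem conn_span (S : Set (Fin n × Fin n)) (s t : Fin n) :
    (Pi.single s 1 - Pi.single t 1 : Fin n → K) ∈ Submodule.span K
      ((fun e : Fin n × Fin n => (Pi.single e.1 1 - Pi.single e.2 1 : Fin n → K)) '' S) ↔
      Relation.ReflTransGen (fun u v => (u, v) ∈ S ∨ (v, u) ∈ S) s t := by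
  classical
  constructor
  · intro hmem
    by_contra hcon
    let C : Finset (Fin n) := univ.filter (fun v =>
      Relation.ReflTransGen (fun u v => (u, v) ∈ S ∨ (v, u) ∈ S) s v)
    have hCmem : ∀ v, v ∈ C ↔ Relation.ReflTransGen (fun u v => (u, v) ∈ S ∨ (v, u) ∈ S) s v := by
      intro v
      simp [C]
    let φ : (Fin n → K) →ₗ[K] K := ∑ v ∈ C, LinearMap.proj v
    have hφ : ∀ u : Fin n, φ (Pi.single u 1) = if u ∈ C then 1 else 0 := by
      intro u
      simp only [φ, LinearMap.sum_apply, LinearMap.proj_apply, Pi.single_apply]
      rw [Finset.sum_ite_eq' C u]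
    have hker : Submodule.span K
        ((fun e : Fin n × Fin n => (Pi.single e.1 1 - Pi.single e.2 1 : Fin n → K)) '' S) ≤
        LinearMap.ker φ := by
      rw [Submodule.span_le]
      rintro _ ⟨⟨u, v⟩, he, rfl⟩
      rw [SetLike.mem_coe, LinearMap.mem_ker, map_sub, hφ, hφ]
      by_cases hu : u ∈ C
      · have hv : v ∈ C := by
          rw [hCmem] at hu ⊢
          exact hu.tail (Or.inl he)
        simp [hu, hv]
      · have hv : v ∉ C := by
          intro hv
          apply hu
          rw [hCmem] at hv ⊢
          exact hv.tail (Or.inr he)
        simp [hu, hv]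
    have := hker hmem
    rw [LinearMap.mem_ker, map_sub, hφ, hφ] at this
    have hs : s ∈ C := by rw [hCmem]
    have ht : t ∉ C := by rw [hCmem]; exact hcon
    simp [hs, ht] at this
  · intro h
    induction h with
    | refl => rw [sub_self]; exact Submodule.zero_mem _
    | @tail u v _ huv ih =>
      have e : (Pi.single s 1 - Pi.single v 1 : Fin n → K) =
          (Pi.single s 1 - Pi.single u 1) + (Pi.single u 1 - Pi.single v 1) := by abel
      rw [e]
      refine Submodule.add_mem _ ih ?_
      rcases huv with he | he
      · exact Submodule.subset_span ⟨(u, v), he, rfl⟩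
      · have e2 : (Pi.single u 1 - Pi.single v 1 : Fin n → K) =
            -(Pi.single v 1 - Pi.single u 1) := by abel
        rw [e2]
        exact Submodule.neg_mem _ (Submodule.subset_span ⟨(v, u), he, rfl⟩)

end

/-- balanced conjunctions -/
lemma MD.all {I : Type} {B : Set ((I → Bool) → Bool)} {D : ℕ} :
    ∀ (k : ℕ) (l : List ((I → Bool) → Bool)), l ≠ [] → l.length ≤ 2 ^ k →
      (∀ f ∈ l, MD B D f) → MD B (D + k) (fun x => l.all (fun f => f x)) := by
  intro k
  induction k with
  | zero =>
    intro l hl hlen hB
    rcases l with _ | ⟨f, _ | ⟨g, l⟩⟩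
    · exact absurd rfl hl
    · have : (fun x => [f].all (fun f => f x)) = f := by
        funext x; simp
      rw [this]
      exact hB f (by simp)
    · simp at hlen
  | succ k ih =>
    intro l hl hlen hB
    by_cases h : l.length ≤ 2 ^ k
    · exact MD.weak (ih l hl h hB)
    · have h1 : 0 < 2 ^ k := by positivity
      have e : (fun x => l.all (fun f => f x)) = fun x =>
          ((l.take (2 ^ k)).all (fun f => f x) && (l.drop (2 ^ k)).all (fun f => f x)) := by
        funext x
        rw [← List.all_append, List.take_append_drop]
      rw [e]
      rw [pow_succ] at hlen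
      refine MD.and (ih _ ?_ ?_ ?_) (ih _ ?_ ?_ ?_)
      · intro h2
        have h3 : (l.take (2 ^ k)).length = 0 := by rw [h2]; rfl
        rw [List.length_take] at h3
        omega
      · rw [List.length_take]; omega
      · intro f hf
        exact hB f (List.mem_of_mem_take hf)
      · intro h2
        have h3 : (l.drop (2 ^ k)).length = 0 := by rw [h2]; rfl
        rw [List.length_drop] at h3
        omega
      · rw [List.length_drop]; omega
      · intro f hf
        exact hB f (List.mem_of_mem_drop hf)

/-- disjunction over a finite type -/
lemma MD.ex {I ι : Type} [Fintype ι] [Nonempty ι] {B : Set ((I → Bool) → Bool)} {D k : ℕ}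
    (f : ι → (I → Bool) → Bool) (hc : Fintype.card ι ≤ 2 ^ k) (hf : ∀ i, MD B D (f i))
    (g : (I → Bool) → Bool) (hg : ∀ x, g x = true ↔ ∃ i, f i x = true) : MD B (D + k) g := by
  classical
  have h1 := MD.any (B := B) (D := D) k ((univ : Finset ι).toList.map f) (by
    simp [Finset.toList_eq_nil, Finset.univ_eq_empty_iff]) (by
    rw [List.length_map, Finset.length_toList, Finset.card_univ]; exact hc) (by
    intro h hh
    obtain ⟨i, -, rfl⟩ := List.mem_map.mp hh
    exact hf i)
  have e : g = fun x => ((univ : Finset ι).toList.map f).any (fun f => f x) := by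
    funext x
    rw [Bool.eq_iff_iff, hg, List.any_eq_true]
    constructor
    · rintro ⟨i, hi⟩
      exact ⟨f i, List.mem_map.mpr ⟨i, by simp, rfl⟩, hi⟩
    · rintro ⟨_, hh, hx⟩
      obtain ⟨i, -, rfl⟩ := List.mem_map.mp hh
      exact ⟨i, hx⟩
  rw [e]
  exact h1

/-- conjunction over a finite type -/
lemma MD.fa {I ι : Type} [Fintype ι] [Nonempty ι] {B : Set ((I → Bool) → Bool)} {D k : ℕ}
    (f : ι → (I → Bool) → Bool) (hc : Fintype.card ι ≤ 2 ^ k) (hf : ∀ i, MD B D (f i))
    (g : (I → Bool) → Bool) (hg : ∀ x, g x = true ↔ ∀ i, f i x = true) : MD B (D + k) g := by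
  classical
  have h1 := MD.all (B := B) (D := D) k ((univ : Finset ι).toList.map f) (by
    simp [Finset.toList_eq_nil, Finset.univ_eq_empty_iff]) (by
    rw [List.length_map, Finset.length_toList, Finset.card_univ]; exact hc) (by
    intro h hh
    obtain ⟨i, -, rfl⟩ := List.mem_map.mp hh
    exact hf i)
  have e : g = fun x => ((univ : Finset ι).toList.map f).all (fun f => f x) := by
    funext x
    rw [Bool.eq_iff_iff, hg, List.all_eq_true]
    constructor
    · rintro h _ hh
      obtain ⟨i, -, rfl⟩ := List.mem_map.mp hh
      exact h i
    · intro h i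
      exact h (f i) (List.mem_map.mpr ⟨i, by simp, rfl⟩)
  rw [e]
  exact h1

/-- the walks of length at most `2 ^ p` (Savitch) -/
theorem savitch {I : Type} {n q : ℕ} (hn : n ≤ 2 ^ q) (adj : Fin n → Fin n → (I → Bool) → Bool)
    (hadj : ∀ u v, MD (pbase I) 0 (adj u v)) (s t : Fin n) (g : (I → Bool) → Bool)
    (hg : ∀ x, g x = true ↔ Relation.ReflTransGen (fun u v => adj u v x = true) s t) :
    MD (pbase I) ((q + 1) * q) g := by
  classical
  have : Nonempty (Fin n) := ⟨s⟩
  -- reachability by walks of length exactly at most `m`
  let R : ℕ → Fin n → Fin n → (I → Bool) → Bool := fun p => Nat.rec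
    (fun u v x => decide (u = v) || adj u v x)
    (fun _ R u v x => decide (∃ w, R u w x = true ∧ R w v x = true)) p
  have hR0 : ∀ u v x, R 0 u v x = (decide (u = v) || adj u v x) := fun _ _ _ => rfl
  have hRs : ∀ p u v x, R (p + 1) u v x = true ↔ ∃ w, R p u w x = true ∧ R p w v x = true :=
    fun p u v x => decide_eq_true_iff
  have hMD : ∀ p u v, MD (pbase I) ((q + 1) * p) (R p u v) := by
    intro p
    induction p with
    | zero =>
      intro u v
      by_cases h : u = v
      · have : R 0 u v = fun _ => true := by
          funext x
          rw [hR0]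
          simp [h]
        rw [this]
        exact (MD.base (Or.inl ⟨true, rfl⟩)).mono (Nat.zero_le _)
      · have : R 0 u v = adj u v := by
          funext x
          rw [hR0]
          simp [h]
        rw [this]
        exact (hadj u v).mono (Nat.zero_le _)
    | succ p ih =>
      intro u v
      have := MD.ex (D := (q + 1) * p + 1) (k := q) (fun w x => R p u w x && R p w v x)
        (by rw [Fintype.card_fin]; exact hn) (fun w => MD.and (ih u w) (ih w v)) (R (p + 1) u v)
        (fun x => by rw [hRs]; simp only [Bool.and_eq_true])
      exact this.mono (by ring_nf; omega)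
  -- soundness
  have hsound : ∀ p u v x, R p u v x = true →
      Relation.ReflTransGen (fun u v => adj u v x = true) u v := by
    intro p
    induction p with
    | zero =>
      intro u v x h
      rw [hR0, Bool.or_eq_true] at h
      rcases h with h | h
      · rw [decide_eq_true_iff] at h
        rw [h]
      · exact Relation.ReflTransGen.single h
    | succ p ih =>
      intro u v x h
      obtain ⟨w, h1, h2⟩ := (hRs p u v x).mp h
      exact (ih u w x h1).trans (ih w v x h2)
  -- completeness: walks of length at most `2 ^ p`
  have hcomp : ∀ p u v x (l : ℕ) (w : ℕ → Fin n), l ≤ 2 ^ p → w 0 = u → w l = v →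
      (∀ i < l, adj (w i) (w (i + 1)) x = true) → R p u v x = true := by
    intro p
    induction p with
    | zero =>
      intro u v x l w hl h0 h1 hw
      rw [hR0, Bool.or_eq_true]
      rcases Nat.eq_zero_or_pos l with rfl | hpos
      · left
        rw [decide_eq_true_iff, ← h0, ← h1]
      · right
        have : l = 1 := by
          rw [pow_zero] at hl; omega
        subst this
        rw [← h0, ← h1]
        exact hw 0 (by omega)
    | succ p ih =>
      intro u v x l w hl h0 h1 hw
      rw [hRs]
      by_cases hlp : l ≤ 2 ^ p
      · exact ⟨v, ih u v x l w hlp h0 h1 hw, ih v v x 0 (fun _ => v) (Nat.zero_le _) rfl rfl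
          (fun i hi => by omega)⟩
      · refine ⟨w (2 ^ p), ih u _ x (2 ^ p) w le_rfl h0 rfl (fun i hi => hw i (by omega)),
          ih _ v x (l - 2 ^ p) (fun i => w (2 ^ p + i)) (by rw [pow_succ] at hl; omega)
            (by simp) (by
              show w (2 ^ p + (l - 2 ^ p)) = v
              rw [← h1]; congr 1; omega) (fun i hi => ?_)⟩
        have := hw (2 ^ p + i) (by omega)
        rw [show 2 ^ p + (i + 1) = 2 ^ p + i + 1 by ring]
        exact this
  have e : g = R q s t := by
    funext x
    rw [Bool.eq_iff_iff, hg]
    constructor
    · intro h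
      -- a shortest walk
      have hwalk : ∀ v, Relation.ReflTransGen (fun u v => adj u v x = true) s v →
          ∃ (l : ℕ) (w : ℕ → Fin n), w 0 = s ∧ w l = v ∧
          ∀ i < l, adj (w i) (w (i + 1)) x = true := by
        intro v hv
        induction hv with
        | refl => exact ⟨0, fun _ => s, rfl, rfl, fun i hi => by omega⟩
        | @tail a b _ hab ih =>
          obtain ⟨l, w, h0, h1, hw⟩ := ih
          refine ⟨l + 1, fun i => if i ≤ l then w i else b, ?_, ?_, ?_⟩
          · simp [h0]
          · simp
          · intro i hi
            beta_reduce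
            by_cases hil : i + 1 ≤ l
            · rw [if_pos (by omega), if_pos hil]
              exact hw i (by omega)
            · have hil' : i = l := by omega
              rw [if_pos (by omega), if_neg hil, hil', h1]
              exact hab
      have hex := hwalk t h
      let l0 := Nat.find hex
      obtain ⟨w, h0, h1, hw⟩ := Nat.find_spec hex
      have hinj : Set.InjOn w (Finset.range (l0 + 1) : Set ℕ) := by
        have key : ∀ a b, a < b → b ≤ l0 → w a ≠ w b := by
          intro a b hab hb heq
          have hlt : l0 - (b - a) < l0 := by omega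
          apply Nat.find_min hex hlt
          refine ⟨fun i => if i ≤ a then w i else w (i + (b - a)), ?_, ?_, ?_⟩
          · simp [h0]
          · beta_reduce
            by_cases hc : l0 - (b - a) ≤ a
            · have hbl : b = l0 := by omega
              have : l0 - (b - a) = a := by omega
              rw [if_pos hc, this, heq, hbl]
              exact h1
            · rw [if_neg hc]
              rw [← h1]; congr 1; omega
          · intro i hi
            beta_reduce
            by_cases hia : i + 1 ≤ a
            · rw [if_pos (by omega), if_pos hia]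
              exact hw i (by omega)
            · by_cases hia2 : i ≤ a
              · have : i = a := by omega
                rw [if_pos hia2, if_neg hia, this, heq]
                have h9 := hw b (by omega)
                rw [show a + 1 + (b - a) = b + 1 by omega]
                exact h9
              · rw [if_neg hia2, if_neg hia]
                have h9 := hw (i + (b - a)) (by omega)
                rw [show i + 1 + (b - a) = i + (b - a) + 1 by omega]
                exact h9
        intro a ha b hb hab
        rw [Finset.coe_range, Set.mem_Iio] at ha hb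
        rcases Nat.lt_trichotomy a b with h1 | h1 | h1
        · exact absurd hab (key a b h1 (by omega))
        · exact h1
        · exact absurd hab.symm (key b a h1 (by omega))
      have hcard : (Finset.range (l0 + 1)).card ≤ (univ : Finset (Fin n)).card :=
        Finset.card_le_card_of_injOn w (fun _ _ => Finset.mem_coe.mpr (mem_univ _)) hinj
      rw [Finset.card_range, Finset.card_univ, Fintype.card_fin] at hcard
      exact hcomp q s t x l0 w (by omega) h0 h1 hw
    · exact hsound q s t x
  rw [e]
  exact hMD q s t

end Pool.Agent.H560R2
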