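import Pool.Agent.H560R2.Sw1

/-! Layered circuits of small width. -/

set_option linter.unusedSectionVars false
set_option linter.unusedVariables false

namespace Pool.Agent.H560R2

open Finset

section

variable {I : Type} {W : ℕ} {fan : ℕ → Fin W → ℕ}
  {arg : (k : ℕ) → (i : Fin W) → Fin (fan k i) → I ⊕ Fin W}
  {op : (k : ℕ) → (i : Fin W) → (Fin (fan k i) → Bool) → Bool}
  {T : ℕ → Finset (Fin W)}
  {val : (I → Bool) → ℕ → Fin W → Bool}

/-- the bits that enter the gate `i` of the layer `k` -/
def lpr (arg : (k : ℕ) → (i : Fin W) → Fin (fan k i) → I ⊕ Fin W)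
    (val : (I → Bool) → ℕ → Fin W → Bool) (x : I → Bool) (k : ℕ) (i : Fin W)
    (j : Fin (fan k i)) : Bool := Sum.elim x (val x k) (arg k i j)

/-- number of ones among the bits that enter the arbitrary gates of the layer `k` -/
def lcnt (T : ℕ → Finset (Fin W)) (arg : (k : ℕ) → (i : Fin W) → Fin (fan k i) → I ⊕ Fin W)
    (val : (I → Bool) → ℕ → Fin W → Bool) (x : I → Bool) (k : ℕ) : ℕ :=
  ∑ i ∈ T k, (univ.filter (fun j => lpr arg val x k i j = true)).card

/-- mixed radix number -/
def lrnk (T : ℕ → Finset (Fin W)) (arg : (k : ℕ) → (i : Fin W) → Fin (fan k i) → I ⊕ Fin W)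
    (val : (I → Bool) → ℕ → Fin W → Bool) (x : I → Bool) : ℕ → ℕ
  | 0 => 0
  | k + 1 => lrnk T arg val x k * (1 + ∑ i ∈ T k, fan k i) + lcnt T arg val x k

lemma lcnt_le (x : I → Bool) (k : ℕ) : lcnt T arg val x k ≤ ∑ i ∈ T k, fan k i := by
  unfold lcnt
  apply Finset.sum_le_sum
  intro i _
  refine (Finset.card_filter_le _ _).trans ?_
  simp

lemma lrnk_lt (x : I → Bool) : ∀ k, lrnk T arg val x k <
    ∏ j ∈ Finset.range k, (1 + ∑ i ∈ T j, fan j i) := by
  intro k
  induction k with
  | zero => simp [lrnk]
  | succ k ih =>
    rw [Finset.prod_range_succ]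
    simp only [lrnk]
    have h1 := lcnt_le (T := T) (arg := arg) (val := val) x k
    have h2 : (lrnk T arg val x k + 1) * (1 + ∑ i ∈ T k, fan k i) ≤
      (∏ j ∈ Finset.range k, (1 + ∑ i ∈ T j, fan j i)) * (1 + ∑ i ∈ T k, fan k i) :=
      Nat.mul_le_mul_right _ ih
    have h3 : (lrnk T arg val x k + 1) * (1 + ∑ i ∈ T k, fan k i) =
      lrnk T arg val x k * (1 + ∑ i ∈ T k, fan k i) + (1 + ∑ i ∈ T k, fan k i) := by ring
    omega

lemma lrnk_mono (hmon : ∀ k, ∀ i ∉ T k, Monotone (op k i))
    (hval0 : ∀ x i, val x 0 i = false)
    (hval : ∀ x k i, val x (k + 1) i = op k i (lpr arg val x k i))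
    {x x' : I → Bool} (hx : x ≤ x') : ∀ k,
    ((∀ j < k, ∀ i ∈ T j, lpr arg val x j i = lpr arg val x' j i) ∧ val x k ≤ val x' k ∧
      lrnk T arg val x k = lrnk T arg val x' k) ∨
    lrnk T arg val x k < lrnk T arg val x' k := by
  classical
  intro k
  induction k with
  | zero =>
    left
    refine ⟨fun j hj => absurd hj (by omega), fun i => by rw [hval0, hval0], rfl⟩
  | succ k ih =>
    rcases ih with ⟨h1, h2, h3⟩ | h
    · -- the probes of layer `k` are monotone
      have hp : ∀ i, lpr arg val x k i ≤ lpr arg val x' k i := by
        intro i j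
        unfold lpr
        rcases arg k i j with v | l
        · exact hx v
        · exact h2 l
      have hcle : ∀ i, (univ.filter (fun j => lpr arg val x k i j = true)).card ≤
          (univ.filter (fun j => lpr arg val x' k i j = true)).card := by
        intro i
        apply Finset.card_le_card
        intro j hj
        rw [Finset.mem_filter] at hj ⊢
        refine ⟨mem_univ _, ?_⟩
        have := hp i j
        rw [hj.2] at this
        exact top_le_iff.mp this
      by_cases hall : ∀ i ∈ T k, lpr arg val x k i = lpr arg val x' k i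
      · left
        refine ⟨?_, ?_, ?_⟩
        · intro j hj i hi
          by_cases hjk : j = k
          · subst hjk
            exact hall i hi
          · exact h1 j (by omega) i hi
        · intro i
          rw [hval, hval]
          by_cases hi : i ∈ T k
          · rw [hall i hi]
          · exact hmon k i hi (hp i)
        · simp only [lrnk, h3]
          congr 1
          unfold lcnt
          apply Finset.sum_congr rfl
          intro i hi
          rw [hall i hi]
      · right
        push Not at hall
        obtain ⟨i0, hi0, hne⟩ := hall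
        have hlt : lcnt T arg val x k < lcnt T arg val x' k := by
          unfold lcnt
          apply Finset.sum_lt_sum (fun i _ => hcle i)
          refine ⟨i0, hi0, ?_⟩
          obtain ⟨j, hj⟩ := Function.ne_iff.mp hne
          apply Finset.card_lt_card
          rw [Finset.ssubset_iff_of_subset]
          · have h5 := hp i0 j
            refine ⟨j, ?_, ?_⟩
            · rw [Finset.mem_filter]
              refine ⟨mem_univ _, ?_⟩
              by_contra hc
              rw [Bool.not_eq_true] at hc
              rw [hc] at h5 hj
              exact hj (le_bot_iff.mp h5)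
            · rw [Finset.mem_filter]
              rintro ⟨-, hc⟩
              rw [hc] at h5 hj
              exact hj (top_le_iff.mp h5).symm
          · intro j hj
            rw [Finset.mem_filter] at hj ⊢
            refine ⟨mem_univ _, ?_⟩
            have := hp i0 j
            rw [hj.2] at this
            exact top_le_iff.mp this
        simp only [lrnk, h3]
        omega
    · right
      simp only [lrnk]
      have h1 := lcnt_le (T := T) (arg := arg) (val := val) x k
      have h2 : (lrnk T arg val x k + 1) * (1 + ∑ i ∈ T k, fan k i) ≤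
        lrnk T arg val x' k * (1 + ∑ i ∈ T k, fan k i) := Nat.mul_le_mul_right _ h
      have h3 : (lrnk T arg val x k + 1) * (1 + ∑ i ∈ T k, fan k i) =
        lrnk T arg val x k * (1 + ∑ i ∈ T k, fan k i) + (1 + ∑ i ∈ T k, fan k i) := by ring
      omega

/-- one frozen layer -/
def fst' (T : ℕ → Finset (Fin W)) (arg : (k : ℕ) → (i : Fin W) → Fin (fan k i) → I ⊕ Fin W)
    (op : (k : ℕ) → (i : Fin W) → (Fin (fan k i) → Bool) → Bool) (c : ℕ → Fin W → Bool)
    (x : I → Bool) (k : ℕ) (v : Fin W → Bool) (i : Fin W) : Bool :=
  if i ∈ T k then c (k + 1) i else op k i (fun j => Sum.elim x v (arg k i j))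

/-- several frozen layers -/
def fev (T : ℕ → Finset (Fin W)) (arg : (k : ℕ) → (i : Fin W) → Fin (fan k i) → I ⊕ Fin W)
    (op : (k : ℕ) → (i : Fin W) → (Fin (fan k i) → Bool) → Bool) (c : ℕ → Fin W → Bool)
    (x : I → Bool) (k : ℕ) : ℕ → (Fin W → Bool) → Fin W → Bool
  | 0, v => v
  | j + 1, v => fst' T arg op c x (k + j) (fev T arg op c x k j v)

variable {c : ℕ → Fin W → Bool}

lemma fev_add (x : I → Bool) (k j1 j2 : ℕ) (v : Fin W → Bool) :
    fev T arg op c x k (j1 + j2) v = fev T arg op c x (k + j1) j2 (fev T arg op c x k j1 v) := by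
  induction j2 with
  | zero => rfl
  | succ j ih =>
    show fst' T arg op c x (k + (j1 + j)) (fev T arg op c x k (j1 + j) v) =
      fst' T arg op c x (k + j1 + j) (fev T arg op c x (k + j1) j (fev T arg op c x k j1 v))
    rw [ih, Nat.add_assoc]

lemma fst_mono (hmon : ∀ k, ∀ i ∉ T k, Monotone (op k i)) {x x' : I → Bool} (hx : x ≤ x') (k : ℕ)
    {v v' : Fin W → Bool} (hv : v ≤ v') :
    fst' T arg op c x k v ≤ fst' T arg op c x' k v' := by
  intro i
  unfold fst'
  split_ifs with hi
  · exact le_rfl
  · apply hmon k i hi
    intro j
    show Sum.elim x v (arg k i j) ≤ Sum.elim x' v' (arg k i j)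
    rcases arg k i j with p | l
    · exact hx p
    · exact hv l

lemma fev_mono (hmon : ∀ k, ∀ i ∉ T k, Monotone (op k i)) {x x' : I → Bool} (hx : x ≤ x') (k : ℕ) :
    ∀ (j : ℕ) {v v' : Fin W → Bool}, v ≤ v' →
      fev T arg op c x k j v ≤ fev T arg op c x' k j v' := by
  intro j
  induction j with
  | zero => exact fun hv => hv
  | succ j ih => exact fun hv => fst_mono hmon hx _ (ih hv)

/-- The state after few layers is at least `b`. -/
theorem reach_depth (hW : 0 < W) (hmon : ∀ k, ∀ i ∉ T k, fan k i ≤ 2 ∧ Monotone (op k i)) :
    ∀ p k j, j ≤ 2 ^ p → ∀ (a b : Fin W → Bool) (g : (I → Bool) → Bool),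
      (∀ x, g x = true ↔ b ≤ fev T arg op c x k j a) → MD (pbase I) ((W + 1) * (p + 1)) g := by
  classical
  have : Nonempty (Fin W) := ⟨⟨0, hW⟩⟩
  have hmon' : ∀ k, ∀ i ∉ T k, Monotone (op k i) := fun k i hi => (hmon k i hi).2
  have hconst : ∀ (k : ℕ) (a b : Fin W → Bool) (g : (I → Bool) → Bool) (D : ℕ),
      (∀ x, g x = true ↔ b ≤ fev T arg op c x k 0 a) → MD (pbase I) D g := by
    intro k a b g D hg
    have : g = fun _ => decide (b ≤ a) := by
      funext x
      rw [Bool.eq_iff_iff, hg, decide_eq_true_iff]
      rfl
    rw [this]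
    exact (MD.base (Or.inl ⟨_, rfl⟩)).mono (Nat.zero_le _)
  have hone : ∀ (k : ℕ) (a : Fin W → Bool) (i : Fin W),
      MD (pbase I) 1 (fun x => fst' T arg op c x k a i) := by
    intro k a i
    by_cases hi : i ∈ T k
    · have : (fun x => fst' T arg op c x k a i) = fun _ => c (k + 1) i := by
        funext x
        unfold fst'
        rw [if_pos hi]
      rw [this]
      exact (MD.base (Or.inl ⟨_, rfl⟩)).mono (Nat.zero_le _)
    · obtain ⟨e, p, q, hpq⟩ := mono_two (fan k i) (hmon k i hi).1 (op k i) (hmon k i hi).2
      let wr : Bool ⊕ Fin (fan k i) → (I → Bool) → Bool := fun p x =>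
        Sum.elim id (fun j => Sum.elim x a (arg k i j)) p
      have hwr : ∀ p, MD (pbase I) 0 (wr p) := by
        rintro (e | j)
        · exact MD.base (Or.inl ⟨e, rfl⟩)
        · rcases hj : arg k i j with v | l
          · have : wr (Sum.inr j) = fun x => x v := by
              funext x
              simp [wr, hj]
            rw [this]
            exact MD.base (Or.inr ⟨v, rfl⟩)
          · have : wr (Sum.inr j) = fun _ => a l := by
              funext x
              simp [wr, hj]
            rw [this]
            exact MD.base (Or.inl ⟨_, rfl⟩)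
      rcases e with _ | _
      · have : (fun x => fst' T arg op c x k a i) = fun x => wr p x || wr q x := by
          funext x
          unfold fst'
          rw [if_neg hi, hpq]
          simp [wr]
        rw [this]
        exact MD.or (hwr p) (hwr q)
      · have : (fun x => fst' T arg op c x k a i) = fun x => wr p x && wr q x := by
          funext x
          unfold fst'
          rw [if_neg hi, hpq]
          simp [wr]
        rw [this]
        exact MD.and (hwr p) (hwr q)
  intro p
  induction p with
  | zero =>
    intro k j hj a b g hg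
    have hj' : j = 0 ∨ j = 1 := by rw [pow_zero] at hj; omega
    rcases hj' with rfl | rfl
    · exact hconst k a b g _ hg
    · have := MD.fa (I := I) (ι := Fin W) (D := 1) (k := W) (B := pbase I)
        (fun i => if b i = true then (fun x => fst' T arg op c x k a i) else fun _ => true)
        (by rw [Fintype.card_fin]; exact Nat.lt_two_pow_self.le) (by
          intro i
          split_ifs
          · exact hone k a i
          · exact (MD.base (Or.inl ⟨_, rfl⟩)).mono (Nat.zero_le _)) g (by
          intro x
          rw [hg]
          have e1 : fev T arg op c x k 1 a = fst' T arg op c x k a := rfl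
          rw [e1]
          constructor
          · intro h i
            by_cases hb : b i = true
            · simp only [hb, if_true]
              have := h i
              rw [hb] at this
              exact top_le_iff.mp this
            · simp only [if_neg hb]
          · intro h i
            by_cases hb : b i = true
            · have := h i
              simp only [hb, if_true] at this
              rw [this]
              exact le_top
            · rw [Bool.not_eq_true] at hb
              rw [hb]
              exact Bool.false_le _)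
      exact this.mono (by ring_nf; omega)
  | succ p ih =>
    intro k j hj a b g hg
    by_cases hjp : j ≤ 2 ^ p
    · exact (ih k j hjp a b g hg).mono (Nat.mul_le_mul_left _ (by omega))
    · obtain ⟨j2, rfl⟩ : ∃ j2, j = 2 ^ p + j2 := ⟨j - 2 ^ p, by omega⟩
      have hj2 : j2 ≤ 2 ^ p := by rw [pow_succ] at hj; omega
      have := MD.ex (I := I) (ι := Fin W → Bool) (D := (W + 1) * (p + 1) + 1) (k := W)
        (B := pbase I)
        (fun d x => decide (d ≤ fev T arg op c x k (2 ^ p) a) &&
          decide (b ≤ fev T arg op c x (k + 2 ^ p) j2 d))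
        (by rw [Fintype.card_fun, Fintype.card_bool, Fintype.card_fin]) (by
          intro d
          exact MD.and (ih k (2 ^ p) le_rfl a d _ (fun x => decide_eq_true_iff))
            (ih (k + 2 ^ p) j2 hj2 d b _ (fun x => decide_eq_true_iff))) g (by
          intro x
          rw [hg, fev_add]
          constructor
          · intro h
            refine ⟨fev T arg op c x k (2 ^ p) a, ?_⟩
            rw [Bool.and_eq_true, decide_eq_true_iff, decide_eq_true_iff]
            exact ⟨le_rfl, h⟩
          · rintro ⟨d, hd⟩
            rw [Bool.and_eq_true, decide_eq_true_iff, decide_eq_true_iff] at hd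
            exact hd.2.trans (fev_mono hmon' le_rfl _ _ hd.1))
      exact this.mono (by ring_nf; omega)

/-- frozen values have small depth -/
lemma fev_depth (hW : 0 < W) (hmon : ∀ k, ∀ i ∉ T k, fan k i ≤ 2 ∧ Monotone (op k i)) (p k : ℕ)
    (hk : k ≤ 2 ^ p) (i : Fin W) :
    MD (pbase I) ((W + 1) * (p + 1)) (fun x => fev T arg op c x 0 k (fun _ => false) i) := by
  refine reach_depth (arg := arg) (c := c) hW hmon p 0 k hk (fun _ => false)
    (fun i' => decide (i' = i)) _ (fun x => ?_)
  constructor
  · intro h i'
    by_cases hi : i' = i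
    · subst hi
      rw [h]
      exact le_top
    · simp only [hi, decide_false]
      exact Bool.false_le _
  · intro h
    have := h i
    simp only [decide_true] at this
    exact top_le_iff.mp this

/-- The flip lemma for layered circuits. -/
theorem flip_layer (hW : 0 < W) (hmon : ∀ k, ∀ i ∉ T k, fan k i ≤ 2 ∧ Monotone (op k i))
    (hval0 : ∀ x i, val x 0 i = false)
    (hval : ∀ x k i, val x (k + 1) i = op k i (lpr arg val x k i))
    (l p q : ℕ) (hl : l ≤ 2 ^ p) (hq : 1 + ∑ k ∈ Finset.range l, ∑ i ∈ T k, fan k i ≤ 2 ^ q)
    (o : Fin W) (x0 : I → Bool) (Dm : Set (I → Bool)) (hDm : ∀ x ∈ Dm, x0 ≤ x)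
    (h : ∀ x ∈ Dm, val x l o = false → ∀ k < l, ∀ i ∈ T k, lpr arg val x k i =
      lpr arg val x0 k i) :
    ∃ g, MD (pbase I) ((W + 1) * (p + 1) + q) g ∧ ∀ x ∈ Dm, g x = val x l o := by
  classical
  have hmon' : ∀ k, ∀ i ∉ T k, Monotone (op k i) := fun k i hi => (hmon k i hi).2
  set fz : (I → Bool) → ℕ → Fin W → Bool := fun x k =>
    fev T arg op (val x0) x 0 k (fun _ => false) with hfz
  have hfs : ∀ x k i, fz x (k + 1) i = if i ∈ T k then val x0 (k + 1) i else
      op k i (lpr arg fz x k i) := by
    intro x k i
    show fst' T arg op (val x0) x (0 + k) (fz x k) i = _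
    rw [Nat.zero_add]
    rfl
  have hfm : ∀ x x' k, x ≤ x' → fz x k ≤ fz x' k := fun x x' k hx => fev_mono hmon' hx 0 k le_rfl
  -- agreement of the frozen values
  have hag : ∀ x m, (∀ k < m, ∀ i ∈ T k, lpr arg fz x k i = lpr arg val x0 k i) →
      ∀ k ≤ m, fz x k = val x k := by
    intro x m hx k
    induction k with
    | zero =>
      intro _
      funext i
      rw [hval0]
      rfl
    | succ k ih =>
      intro hk
      have h1 := ih (by omega)
      have h2 : ∀ i, lpr arg fz x k i = lpr arg val x k i := by
        intro i
        funext j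
        unfold lpr
        rw [h1]
      funext i
      rw [hfs]
      by_cases hi : i ∈ T k
      · rw [if_pos hi, hval, hval, ← h2, hx k (by omega) i hi]
      · rw [if_neg hi, hval, h2]
  have hag2 : ∀ x m, (∀ k < m, ∀ i ∈ T k, lpr arg val x k i = lpr arg val x0 k i) →
      ∀ k ≤ m, fz x k = val x k := by
    intro x m hx k
    induction k with
    | zero =>
      intro _
      funext i
      rw [hval0]
      rfl
    | succ k ih =>
      intro hk
      have h1 := ih (by omega)
      have h2 : ∀ i, lpr arg fz x k i = lpr arg val x k i := by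
        intro i
        funext j
        unfold lpr
        rw [h1]
      funext i
      rw [hfs]
      by_cases hi : i ∈ T k
      · rw [if_pos hi, hval, hval, hx k (by omega) i hi]
      · rw [if_neg hi, hval, h2]
  -- the bits that are `0` for `x0`
  let S : Finset (Σ k : ℕ, Σ i : Fin W, Fin (fan k i)) :=
    ((Finset.range l).sigma (fun k => (T k).sigma (fun i => univ))).filter
      (fun e => lpr arg val x0 e.1 e.2.1 e.2.2 = false)
  have hScard : S.card ≤ ∑ k ∈ Finset.range l, ∑ i ∈ T k, fan k i := by
    refine (Finset.card_filter_le _ _).trans ?_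
    rw [Finset.card_sigma]
    apply Finset.sum_le_sum
    intro k _
    rw [Finset.card_sigma]
    apply Finset.sum_le_sum
    intro i _
    simp
  let fp : (Σ k : ℕ, Σ i : Fin W, Fin (fan k i)) → (I → Bool) → Bool := fun e x =>
    lpr arg fz x e.1 e.2.1 e.2.2
  have hfp : ∀ e, e.1 < l → MD (pbase I) ((W + 1) * (p + 1)) (fp e) := by
    rintro ⟨k, i, j⟩ hk
    rcases hj : arg k i j with v | m
    · have : fp ⟨k, i, j⟩ = fun x => x v := by
        funext x
        simp [fp, lpr, hj]
      rw [this]
      exact (MD.base (Or.inr ⟨v, rfl⟩)).mono (Nat.zero_le _)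
    · have : fp ⟨k, i, j⟩ = fun x => fz x k m := by
        funext x
        simp [fp, lpr, hj]
      rw [this]
      exact fev_depth hW hmon p k (by simp only at hk; omega) m
  let lst : List ((I → Bool) → Bool) := (fun x => fz x l o) :: S.toList.map fp
  refine ⟨fun x => lst.any (fun f => f x), MD.any q lst (by simp [lst]) ?_ ?_, ?_⟩
  · simp only [lst, List.length_cons, List.length_map, Finset.length_toList]
    omega
  · intro f hf
    rcases List.mem_cons.mp hf with rfl | hf
    · exact fev_depth hW hmon p l hl o
    · obtain ⟨e, he, rfl⟩ := List.mem_map.mp hf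
      rw [Finset.mem_toList] at he
      simp only [S, Finset.mem_filter, Finset.mem_sigma, Finset.mem_range] at he
      exact hfp e he.1.1
  · intro x hx
    have hx0 := hag2 x0 l (fun _ _ _ _ => rfl)
    by_cases hall : ∀ k < l, ∀ i ∈ T k, lpr arg fz x k i = lpr arg val x0 k i
    · have hrest : (S.toList.map fp).any (fun f => f x) = false := by
        rw [List.any_eq_false]
        intro f hf
        obtain ⟨e, he, rfl⟩ := List.mem_map.mp hf
        rw [Finset.mem_toList] at he
        simp only [S, Finset.mem_filter, Finset.mem_sigma, Finset.mem_range] at he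
        have h1 := congrFun (hall e.1 he.1.1 e.2.1 he.1.2.1) e.2.2
        show ¬ (fp e x = true)
        have e2 : fp e x = false := h1.trans he.2
        rw [e2]
        simp
      simp only [lst, List.any_cons, hrest, Bool.or_false]
      rw [hag x l hall l le_rfl]
    · have htrue : val x l o = true := by
        by_contra hne
        rw [Bool.not_eq_true] at hne
        apply hall
        have h1 := h x hx hne
        have h2 := hag2 x l h1
        intro k hk i hi
        rw [← h1 k hk i hi]
        funext j
        unfold lpr
        rw [h2 k hk.le]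
      rw [htrue]
      push Not at hall
      obtain ⟨k, hk, i, hi, hne⟩ := hall
      obtain ⟨j, hij⟩ := Function.ne_iff.mp hne
      have hle : lpr arg fz x0 k i j ≤ lpr arg fz x k i j := by
        unfold lpr
        rcases arg k i j with v | m
        · exact hDm x hx v
        · exact hfm x0 x k (hDm x hx) m
      have e0 : lpr arg fz x0 k i j = lpr arg val x0 k i j := by
        unfold lpr
        rw [hx0 k hk.le]
      rw [e0] at hle
      have h0 : lpr arg val x0 k i j = false := by
        by_contra hcon
        rw [Bool.not_eq_false] at hcon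
        rw [hcon] at hle hij
        exact hij (top_le_iff.mp hle)
      have h1 : lpr arg fz x k i j = true := by
        rw [h0] at hij
        simpa using hij
      simp only [lst, List.any_cons]
      have : (S.toList.map fp).any (fun f => f x) = true := by
        rw [List.any_eq_true]
        refine ⟨fp ⟨k, i, j⟩, List.mem_map.mpr ⟨⟨k, i, j⟩, ?_, rfl⟩, h1⟩
        rw [Finset.mem_toList]
        simp only [S, Finset.mem_filter, Finset.mem_sigma, Finset.mem_range]
        exact ⟨⟨hk, hi, mem_univ _⟩, h0⟩
      rw [this, Bool.or_true]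

/-- layered circuits of small width and length -/
theorem Blk.layered {K : Type} [Field K] {S M : ℕ} {F : (I → Bool) → Prop}
    (h : Blk K S M F) (hmon : ∀ k, ∀ i ∉ T k, fan k i ≤ 2 ∧ Monotone (op k i))
    (hval0 : ∀ x i, val x 0 i = false)
    (hval : ∀ x k i, val x (k + 1) i = op k i (lpr arg val x k i))
    (l p : ℕ) (hl : l ≤ 2 ^ p) (o : Fin W) (ho : ∀ x, val x l o = true ↔ F x)
    (hM : ∏ k ∈ Finset.range l, (1 + ∑ i ∈ T k, fan k i) ≤ M) :
    S ≤ (W + 1) * (p + 1) + Nat.log 2 M + 1 := by
  classical
  have hmon' : ∀ k, ∀ i ∉ T k, Monotone (op k i) := fun k i hi => (hmon k i hi).2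
  have hW : 0 < W := o.pos
  by_contra hcon
  have h1 : ∀ m, 1 + ∑ k ∈ Finset.range m, ∑ i ∈ T k, fan k i ≤
      ∏ k ∈ Finset.range m, (1 + ∑ i ∈ T k, fan k i) := by
    intro m
    induction m with
    | zero => simp
    | succ m ih =>
      rw [Finset.sum_range_succ, Finset.prod_range_succ]
      nlinarith [Nat.zero_le (∑ i ∈ T m, fan m i),
        Nat.zero_le (∑ k ∈ Finset.range m, ∑ i ∈ T k, fan k i)]
  have h2 : M < 2 ^ (Nat.log 2 M + 1) := Nat.lt_pow_succ_log_self (by norm_num) M
  obtain ⟨Ω, f, loc, hh, hbot, hfl⟩ := h
  let fl : (Fin M → Ω → Bool) → I → Bool := fil loc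
  have hfill : ∀ Y, val (fl Y) l o = true ↔ ∃ J, f (Y J) := fun Y => (ho _).trans (hfl Y)
  have hle : ∀ (Y : Fin M → Ω → Bool) (J : Fin M) (X : Ω → Bool),
      Y J = (fun _ => false) → fl Y ≤ fl (Function.update Y J X) := fil_le loc
  let pr : (Fin M → Ω → Bool) → ((k : ℕ) → (i : Fin W) → Fin (fan k i) → Bool) := fun Y k i j =>
    if k < l ∧ i ∈ T k then lpr arg val (fl Y) k i j else false
  obtain ⟨Y, k1, k2, k3⟩ := chain_core (κ := Fin M) (m := M)
    (fun X => ¬ f X) (fun _ => false) hbot id (fun _ _ h => h) pr (by
      intro y J hy hyJ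
      by_contra hcon2
      push Not at hcon2
      obtain ⟨g, hg, hgx⟩ := flip_layer (T := T) hW hmon hval0 hval l p (Nat.log 2 M + 1) hl
        (by have := h1 l; omega) o (fl y)
        {x | ∃ X, x = fl (Function.update y J X)} (by
          rintro _ ⟨X, rfl⟩
          exact hle y J X hyJ) (by
          rintro _ ⟨X, rfl⟩ hfalse k hk i hi
          have hX : ¬ f X := by
            intro hX
            have := (hfill (Function.update y J X)).mpr ⟨J, by rwa [Function.update_self]⟩
            rw [this] at hfalse
            exact absurd hfalse (by simp)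
          have := congrFun (congrFun (hcon2 X hX) k) i
          funext j
          have := congrFun this j
          simp only [pr, if_pos (And.intro hk hi)] at this
          exact this)
      have hiff : ∀ X, g (fl (Function.update y J X)) = true ↔ f X := by
        intro X
        rw [hgx _ ⟨X, rfl⟩, hfill]
        constructor
        · rintro ⟨J', hJ'⟩
          by_cases hJ : J' = J
          · subst hJ
            rwa [Function.update_self] at hJ'
          · rw [Function.update_of_ne hJ] at hJ'
            exact absurd hJ' (hy J')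
        · intro hX
          exact ⟨J, by rwa [Function.update_self]⟩
      have := hh.lower (RBall.of_MD (K := K) hg) (fun X => fl (Function.update y J X))
        (fil_coord loc y J)
        (fun X hX => (hiff X).mpr hX) (fun X hX => by
          rw [← Bool.not_eq_true, hiff]
          exact hX)
      have := (Nat.pow_le_pow_iff_right (by norm_num)).mp this
      omega)
  -- the rank increases
  have hstep : ∀ i ≤ M, i ≤ lrnk T arg val (fl (Y i)) l := by
    intro i
    induction i with
    | zero => intro _; exact Nat.zero_le _
    | succ i ih =>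
      intro hi
      have h3 := ih (by omega)
      obtain ⟨J, X, hJ, hX⟩ := k1 i (by omega)
      have h4 : fl (Y i) ≤ fl (Y (i + 1)) := by
        rw [hX]
        exact hle _ _ _ hJ
      rcases lrnk_mono (T := T) (arg := arg) hmon' hval0 hval h4 l with ⟨h5, -, -⟩ | h5
      · exfalso
        apply k2 i (by omega)
        funext k i' j
        by_cases hc : k < l ∧ i' ∈ T k
        · simp only [pr, if_pos hc]
          exact congrFun (h5 k hc.1 i' hc.2) j
        · simp only [pr, if_neg hc]
      · omega
  have h6 := hstep M le_rfl
  have h7 := lrnk_lt (T := T) (arg := arg) (val := val) (fl (Y M)) l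
  omega

end

end Pool.Agent.H560R2
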