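import Pool.Agent.H560R2.Sw2

/-! Families of networks over literals. -/

set_option linter.unusedSectionVars false
set_option linter.unusedVariables false

namespace Pool.Agent.H560R2

open Finset

/-- value of a label -/
def pres {I : Type} (l : Bool ⊕ (I × Bool)) (x : I → Bool) : Bool :=
  Sum.elim id (fun l => decide (x l.1 = l.2)) l

lemma pres_coord {I : Type} [DecidableEq I] (Z : Finset I) (l : Bool ⊕ (I × Bool))
    (hl : ∀ v, l = Sum.inr (v, false) → v ∈ Z) :
    (∃ c, ∀ x, pres l (rst Z x) = c) ∨ ∃ i, ∀ x : I → Bool, pres l (rst Z x) = x i := by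
  rcases l with b | ⟨v, b⟩
  · exact Or.inl ⟨b, fun x => rfl⟩
  · exact rst_lit Z (v, b) (fun hb => hl v (by
      simp only at hb
      rw [hb]))

section

variable {K : Type} [Field K] {I : Type} [DecidableEq I]

/-- families of monotone functions -/
theorem Blk.family {s M : ℕ} {F : (I → Bool) → Prop} (h : Blk K s M F) (Z : Finset I) {r : ℕ}
    (hM : r + Z.card < M) (A : Fin r → (I → Bool) → Prop) (size : Fin r → ℕ)
    (hmono : ∀ k x x', x ≤ x' → A k (rst Z x) → A k (rst Z x'))
    (hRB : ∀ k (g : (I → Bool) → Bool), (∀ x, g x = true ↔ A k (rst Z x)) → RBall K (size k) g)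
    (Φ : (Fin r → Prop) → Prop) (hΦ : ∀ x, Φ (fun k => A k x) ↔ F x) :
    2 ^ s ≤ ∑ k, size k := by
  classical
  let g : Fin r → (I → Bool) → Bool := fun k x => decide (A k (rst Z x))
  have hg : ∀ k x, g k x = true ↔ A k (rst Z x) := fun k x => decide_eq_true_iff
  have h1 := (h.restrict Z).fam ((List.finRange r).map (fun k => (size k, g k)))
    (by
      intro p hp
      obtain ⟨k, -, rfl⟩ := List.mem_map.mp hp
      intro x x' hx
      rw [Bool.le_iff_imp, hg, hg]
      exact hmono k x x' hx)
    (by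
      intro p hp
      obtain ⟨k, -, rfl⟩ := List.mem_map.mp hp
      exact hRB k (g k) (hg k))
    (by
      intro x x' hx
      show F (rst Z x) ↔ F (rst Z x')
      rw [← hΦ, ← hΦ]
      have : ∀ k, g k x = g k x' := fun k =>
        hx (size k, g k) (List.mem_map.mpr ⟨k, List.mem_finRange k, rfl⟩)
      have e : (fun k => A k (rst Z x)) = fun k => A k (rst Z x') := by
        funext k
        rw [eq_iff_iff, ← hg, ← hg, this k]
      rw [e])
    (by rw [List.length_map, List.length_finRange]; omega)
  refine h1.trans (le_of_eq ?_)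
  rw [List.map_map]
  exact (List.sum_ofFn (f := size)).symm ▸ (by rw [List.ofFn_eq_map]; rfl)

variable {n : ℕ}

lemma pres_mono (Z : Finset I) (l : Bool ⊕ (I × Bool))
    (hl : ∀ v, l = Sum.inr (v, false) → v ∈ Z) {x x' : I → Bool} (hx : x ≤ x')
    (h : pres l (rst Z x) = true) : pres l (rst Z x') = true := by
  rcases pres_coord Z l hl with ⟨c, hc⟩ | ⟨i, hi⟩
  · rw [hc] at h ⊢
    exact h
  · rw [hi] at h ⊢
    have := hx i
    rw [h] at this
    exact top_le_iff.mp this

/-- undirected networks -/
lemma RBall.net (Z : Finset I) (label : Fin n → Fin n → Bool ⊕ (I × Bool))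
    (hl : ∀ u v w, label u v = Sum.inr (w, false) → w ∈ Z) (s t : Fin n)
    (g : (I → Bool) → Bool)
    (hg : ∀ x, g x = true ↔ Relation.ReflTransGen (fun u v =>
      pres (label u v) (rst Z x) = true ∨ pres (label v u) (rst Z x) = true) s t) :
    RBall K (n * n) g := by
  classical
  refine RBall.span' (I' := Fin n × Fin n) (fun j => finProdFinEquiv.symm j)
    (fun j => (fun e : Fin n × Fin n => (Pi.single e.1 1 - Pi.single e.2 1 : Fin n → K))
      (finProdFinEquiv.symm j))
    (Pi.single s 1 - Pi.single t 1) (fun x e => pres (label e.1 e.2) (rst Z x))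
    (fun e => pres_coord Z _ (fun w hw => hl _ _ w hw)) g (fun x => ?_)
  rw [hg]
  have h1 := conn_span (K := K) {e : Fin n × Fin n | pres (label e.1 e.2) (rst Z x) = true} s t
  simp only [Set.mem_ofPred_eq] at h1
  rw [← h1]
  have e : ((fun e : Fin n × Fin n => (Pi.single e.1 1 - Pi.single e.2 1 : Fin n → K)) ''
      {e : Fin n × Fin n | pres (label e.1 e.2) (rst Z x) = true}) =
      ((fun j => (fun e : Fin n × Fin n => (Pi.single e.1 1 - Pi.single e.2 1 : Fin n → K))
      (finProdFinEquiv.symm j)) '' {j | pres (label (finProdFinEquiv.symm j).1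
        (finProdFinEquiv.symm j).2) (rst Z x) = true}) := by
    ext y
    constructor
    · rintro ⟨e, he, rfl⟩
      refine ⟨finProdFinEquiv e, ?_, ?_⟩
      · simp only [Set.mem_ofPred_eq, Equiv.symm_apply_apply]
        exact he
      · simp only [Equiv.symm_apply_apply]
    · rintro ⟨j, hj, rfl⟩
      exact ⟨finProdFinEquiv.symm j, hj, rfl⟩
  rw [e]

/-- directed networks -/
lemma RBall.dnet (Z : Finset I) (label : Fin n → Fin n → Bool ⊕ (I × Bool))
    (hl : ∀ u v w, label u v = Sum.inr (w, false) → w ∈ Z) (s t : Fin n) (q : ℕ) (hn : n ≤ 2 ^ q)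
    (g : (I → Bool) → Bool)
    (hg : ∀ x, g x = true ↔ Relation.ReflTransGen (fun u v =>
      pres (label u v) (rst Z x) = true) s t) :
    RBall K (2 ^ ((q + 1) * q)) g := by
  refine RBall.of_MD (savitch hn (fun u v x => pres (label u v) (rst Z x)) (fun u v => ?_) s t g
    hg)
  rcases pres_coord Z (label u v) (fun w hw => hl _ _ w hw) with ⟨c, hc⟩ | ⟨i, hi⟩
  · have : (fun x => pres (label u v) (rst Z x)) = fun _ => c := funext hc
    rw [this]
    exact MD.base (Or.inl ⟨c, rfl⟩)
  · have : (fun x => pres (label u v) (rst Z x)) = fun x => x i := funext hi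
    rw [this]
    exact MD.base (Or.inr ⟨i, rfl⟩)

end

end Pool.Agent.H560R2
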