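import Pool.Agent.H520R2.Prog

/-! Windows of slices: monotone circuits for the functions between two slices. -/

namespace Pool.Agent.H560R2

open Finset Pool.Agent.H520R2

section gen

variable {X : Type} {B : Set (X → Bool)}

lemma MCadd {s s' : ℕ} {f : X → Bool} (h : MComp B s f) (hs : s ≤ s') : MComp B s' f := by
  obtain ⟨L, h1, h2, h3⟩ := h
  exact ⟨L, h1, h2.trans hs, h3⟩

lemma MCand {s s' : ℕ} {f g : X → Bool} (hf : MComp B s f) (hg : MComp B s' g) :
    MComp B (s + s' + 1) (fun x => f x && g x) := by
  obtain ⟨L, h1, h2, h3⟩ := hf
  obtain ⟨L', k1, k2, k3⟩ := hg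
  have h4 := h1.append k1
  have a1 : Av B (L' ++ L) f := Av.mono h3 L'
  have a2 : Av B (L' ++ L) g := by
    rcases k3 with k | k
    · exact Or.inl k
    · exact Or.inr (List.mem_append_left _ k)
  refine ⟨_, MProg.and h4 a1 a2, ?_, Or.inr List.mem_cons_self⟩
  simp only [List.length_cons, List.length_append]
  omega

lemma MCor {s s' : ℕ} {f g : X → Bool} (hf : MComp B s f) (hg : MComp B s' g) :
    MComp B (s + s' + 1) (fun x => f x || g x) := by
  obtain ⟨L, h1, h2, h3⟩ := hf
  obtain ⟨L', k1, k2, k3⟩ := hg
  have h4 := h1.append k1
  have a1 : Av B (L' ++ L) f := Av.mono h3 L'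
  have a2 : Av B (L' ++ L) g := by
    rcases k3 with k | k
    · exact Or.inl k
    · exact Or.inr (List.mem_append_left _ k)
  refine ⟨_, MProg.or h4 a1 a2, ?_, Or.inr List.mem_cons_self⟩
  simp only [List.length_cons, List.length_append]
  omega

lemma MClist (c : ℕ) (gs : List (X → Bool)) (h : ∀ g ∈ gs, MComp B c g) :
    ∃ L, MProg B L ∧ L.length ≤ c * gs.length ∧ ∀ g ∈ gs, Av B L g := by
  induction gs with
  | nil => exact ⟨[], MProg.nil, by simp, by simp⟩
  | cons g gs ih =>
    obtain ⟨L, h1, h2, h3⟩ := ih (fun f hf => h f (List.mem_cons_of_mem _ hf))
    obtain ⟨L', k1, k2, k3⟩ := h g List.mem_cons_self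
    refine ⟨L' ++ L, h1.append k1, ?_, ?_⟩
    · simp only [List.length_cons, List.length_append]
      nlinarith
    · intro f hf
      rcases List.mem_cons.mp hf with rfl | hf
      · rcases k3 with k | k
        · exact Or.inl k
        · exact Or.inr (List.mem_append_left _ k)
      · exact (h3 f hf).mono L'

lemma MCthr (htrue : (fun _ => true) ∈ B) (hfalse : (fun _ => false) ∈ B) (c b : ℕ)
    (gs : List (X → Bool)) (h : ∀ g ∈ gs, MComp B c g) :
    MComp B (c * gs.length + 2 * b * gs.length) (thr gs b) := by
  obtain ⟨L, h1, h2, h3⟩ := MClist c gs h
  obtain ⟨L', k1, k2, k3⟩ := thr_prog h1 gs h3 htrue hfalse b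
  refine ⟨L' ++ L, k1, ?_, k3 b le_rfl⟩
  rw [List.length_append]
  omega

end gen

section dual

variable {X : Type} {B : Set (X → Bool)} {N s : ℕ}

/-- gate types: `some true` is AND, `some false` is OR, `none` is NOT -/
def gop (k : Option Bool) (a b : Bool) : Bool :=
  match k with
  | some true => a && b
  | some false => a || b
  | none => !a

/-- Dual-rail simulation with approximate negations. -/
theorem dual_rail (htrue : (fun _ => true) ∈ B) (hfalse : (fun _ => false) ∈ B)
    {L : List (X → Bool)} (hL : MProg B L) (ρ z : Fin N → X → Bool)
    (hρ : ∀ j, Av B L (ρ j)) (hz : ∀ j, Av B L (z j))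
    (k : Fin s → Option Bool) (l r : Fin s → (Fin N ⊕ Bool) ⊕ Fin s)
    (htop : ∀ i j, l i = Sum.inr j ∨ r i = Sum.inr j → j < i)
    (v : (Fin N → Bool) → Fin s → Bool)
    (hv : ∀ y i, v y i = gop (k i) (Sum.elim (Sum.elim y id) (v y) (l i))
      (Sum.elim (Sum.elim y id) (v y) (r i))) :
    ∀ n ≤ s, ∃ L', MProg B (L' ++ L) ∧ L'.length ≤ 2 * n ∧ ∃ P : Fin s → Bool → X → Bool,
      (∀ i : Fin s, i.val < n → ∀ p, Av B (L' ++ L) (P i p)) ∧
      (∀ x y, (∀ j, (ρ j x = true → y j = true) ∧ (z j x = true → y j = false)) →
        ∀ i : Fin s, i.val < n → ∀ p, P i p x = true → v y i = p) ∧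
      (∀ x y, (∀ j, (y j = true → ρ j x = true) ∧ (y j = false → z j x = true)) →
        ∀ i : Fin s, i.val < n → ∀ p, v y i = p → P i p x = true) := by
  intro n
  induction n with
  | zero =>
    intro _
    exact ⟨[], by simpa using hL, by simp, fun _ _ _ => false, fun i hi => absurd hi (by omega),
      fun _ _ _ i hi => absurd hi (by omega), fun _ _ _ i hi => absurd hi (by omega)⟩
  | succ n ih =>
    intro hn
    obtain ⟨L', h1, h2, P, h3, h4, h5⟩ := ih (by omega)
    let i : Fin s := ⟨n, hn⟩
    let wf : (Fin N ⊕ Bool) ⊕ Fin s → Bool → X → Bool := fun a p => match a with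
      | Sum.inl (Sum.inl j) => if p = true then ρ j else z j
      | Sum.inl (Sum.inr c) => fun _ => c == p
      | Sum.inr j => P j p
    have hwav : ∀ a, (∀ j, a = Sum.inr j → j < i) → ∀ p, Av B (L' ++ L) (wf a p) := by
      intro a ha p
      rcases a with (j | c) | j
      · rcases p with _ | _
        · exact (hz j).mono L'
        · exact (hρ j).mono L'
      · rcases c with _ | _ <;> rcases p with _ | _
        · exact Or.inl htrue
        · exact Or.inl hfalse
        · exact Or.inl hfalse
        · exact Or.inl htrue
      · exact h3 j (ha j rfl) p
    have hw4 : ∀ x y, (∀ j, (ρ j x = true → y j = true) ∧ (z j x = true → y j = false)) →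
        ∀ a, (∀ j, a = Sum.inr j → j < i) → ∀ p, wf a p x = true →
          Sum.elim (Sum.elim y id) (v y) a = p := by
      intro x y hxy a ha p hp
      rcases a with (j | c) | j
      · rcases p with _ | _
        · exact (hxy j).2 hp
        · exact (hxy j).1 hp
      · rcases c with _ | _ <;> rcases p with _ | _
        · rfl
        · exact absurd hp (by simp [wf])
        · exact absurd hp (by simp [wf])
        · rfl
      · exact h4 x y hxy j (ha j rfl) p hp
    have hw5 : ∀ x y, (∀ j, (y j = true → ρ j x = true) ∧ (y j = false → z j x = true)) →
        ∀ a, (∀ j, a = Sum.inr j → j < i) → ∀ p, Sum.elim (Sum.elim y id) (v y) a = p →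
          wf a p x = true := by
      intro x y hxy a ha p hp
      rcases a with (j | c) | j
      · rcases p with _ | _
        · exact (hxy j).2 hp
        · exact (hxy j).1 hp
      · have : c = p := hp
        subst this
        simp [wf]
      · exact h5 x y hxy j (ha j rfl) p hp
    have hl : ∀ j, l i = Sum.inr j → j < i := fun j hj => htop i j (Or.inl hj)
    have hr : ∀ j, r i = Sum.inr j → j < i := fun j hj => htop i j (Or.inr hj)
    have hlt : ∀ j : Fin s, j.val < n + 1 → j.val < n ∨ j = i := by
      intro j hj
      by_cases h : j.val < n
      · exact Or.inl h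
      · exact Or.inr (Fin.ext (by simp only [i]; omega))
    -- the two new functions
    let A : Bool → X → Bool := fun p => match k i, p with
      | some true, true => fun x => wf (l i) true x && wf (r i) true x
      | some true, false => fun x => wf (l i) false x || wf (r i) false x
      | some false, true => fun x => wf (l i) true x || wf (r i) true x
      | some false, false => fun x => wf (l i) false x && wf (r i) false x
      | none, p => wf (l i) (!p)
    have hprog : ∃ L'', MProg B (L'' ++ (L' ++ L)) ∧ L''.length ≤ 2 ∧
        ∀ p, Av B (L'' ++ (L' ++ L)) (A p) := by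
      rcases hk : k i with _ | b
      · refine ⟨[], by simpa using h1, by simp, fun p => ?_⟩
        have : A p = wf (l i) (!p) := by
          simp only [A, hk]
        rw [this]
        simpa using hwav (l i) hl (!p)
      · rcases b with _ | _
        · have g1 := MProg.or h1 (hwav (l i) hl true) (hwav (r i) hr true)
          have g2 := MProg.and g1 ((hwav (l i) hl false).cons _) ((hwav (r i) hr false).cons _)
          refine ⟨[_, _], g2, by simp, fun p => ?_⟩
          rcases p with _ | _
          · have : A false = fun x => wf (l i) false x && wf (r i) false x := by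
              simp only [A, hk]
            rw [this]
            exact Or.inr List.mem_cons_self
          · have : A true = fun x => wf (l i) true x || wf (r i) true x := by
              simp only [A, hk]
            rw [this]
            exact Or.inr (List.mem_cons_of_mem _ List.mem_cons_self)
        · have g1 := MProg.and h1 (hwav (l i) hl true) (hwav (r i) hr true)
          have g2 := MProg.or g1 ((hwav (l i) hl false).cons _) ((hwav (r i) hr false).cons _)
          refine ⟨[_, _], g2, by simp, fun p => ?_⟩
          rcases p with _ | _
          · have : A false = fun x => wf (l i) false x || wf (r i) false x := by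
              simp only [A, hk]
            rw [this]
            exact Or.inr List.mem_cons_self
          · have : A true = fun x => wf (l i) true x && wf (r i) true x := by
              simp only [A, hk]
            rw [this]
            exact Or.inr (List.mem_cons_of_mem _ List.mem_cons_self)
    obtain ⟨L'', g1, g2, g3⟩ := hprog
    refine ⟨L'' ++ L', by simpa using g1, by rw [List.length_append]; omega,
      fun j p => if j = i then A p else P j p, ?_, ?_, ?_⟩
    · intro j hj p
      show Av B _ (if j = i then A p else P j p)
      by_cases hji : j = i
      · rw [if_pos hji, List.append_assoc]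
        exact g3 p
      · rw [if_neg hji, List.append_assoc]
        rcases hlt j hj with h | h
        · exact (h3 j h p).mono L''
        · exact absurd h hji
    · intro x y hxy j hj p hp
      change (if j = i then A p else P j p) x = true at hp
      by_cases hji : j = i
      · rw [if_pos hji] at hp
        rw [hji, hv]
        have e1 := hw4 x y hxy (l i) hl
        have e2 := hw4 x y hxy (r i) hr
        rcases hk : k i with _ | b
        · simp only [A, hk] at hp
          have := e1 (!p) hp
          simp only [gop, this, Bool.not_not]
        · rcases b with _ | _ <;> rcases p with _ | _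
          · simp only [A, hk, Bool.and_eq_true] at hp
            simp only [gop, e1 false hp.1, e2 false hp.2, Bool.or_self]
          · simp only [A, hk, Bool.or_eq_true] at hp
            rcases hp with hp | hp
            · simp only [gop, e1 true hp, Bool.true_or]
            · simp only [gop, e2 true hp, Bool.or_true]
          · simp only [A, hk, Bool.or_eq_true] at hp
            rcases hp with hp | hp
            · simp only [gop, e1 false hp, Bool.false_and]
            · simp only [gop, e2 false hp, Bool.and_false]
          · simp only [A, hk, Bool.and_eq_true] at hp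
            simp only [gop, e1 true hp.1, e2 true hp.2, Bool.and_self]
      · rw [if_neg hji] at hp
        rcases hlt j hj with h | h
        · exact h4 x y hxy j h p hp
        · exact absurd h hji
    · intro x y hxy j hj p hp
      change (if j = i then A p else P j p) x = true
      by_cases hji : j = i
      · rw [if_pos hji]
        rw [hji, hv] at hp
        have e1 := hw5 x y hxy (l i) hl
        have e2 := hw5 x y hxy (r i) hr
        rcases hk : k i with _ | b
        · simp only [A, hk]
          apply e1
          rw [hk] at hp
          simp only [gop] at hp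
          rw [← hp, Bool.not_not]
        · rw [hk] at hp
          rcases b with _ | _ <;> rcases p with _ | _
          · simp only [gop, Bool.or_eq_false_iff] at hp
            simp only [A, hk, e1 false hp.1, e2 false hp.2, Bool.and_self]
          · simp only [gop, Bool.or_eq_true] at hp
            rcases hp with hp | hp
            · simp only [A, hk, e1 true hp, Bool.true_or]
            · simp only [A, hk, e2 true hp, Bool.or_true]
          · simp only [gop, Bool.and_eq_false_iff] at hp
            rcases hp with hp | hp
            · simp only [A, hk, e1 false hp, Bool.true_or]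
            · simp only [A, hk, e2 false hp, Bool.or_true]
          · simp only [gop, Bool.and_eq_true] at hp
            simp only [A, hk, e1 true hp.1, e2 true hp.2, Bool.and_self]
      · rw [if_neg hji]
        rcases hlt j hj with h | h
        · exact h5 x y hxy j h p hp
        · exact absurd h hji

end dual

end Pool.Agent.H560R2
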