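import Pool.Agent.H560R2.Wd1

/-! Monotone circuits that are right on several consecutive slices. -/

namespace Pool.Agent.H560R2

open Finset Pool.Agent.H520R2

/-- constants and variables -/
def cbase (N : ℕ) : Set ((Fin N → Bool) → Bool) :=
  {f | (∃ b, f = fun _ => b) ∨ ∃ i, f = fun x => x i}

/-- the number of ones -/
def wt {N : ℕ} (x : Fin N → Bool) : ℕ := (univ.filter (fun i => x i = true)).card

/-- erase a variable -/
def er {N : ℕ} (i : Fin N) (x : Fin N → Bool) : Fin N → Bool := Function.update x i false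

variable {N : ℕ}

lemma wt_le (x : Fin N → Bool) : wt x ≤ N := by
  unfold wt
  exact (Finset.card_le_univ _).trans (by rw [Fintype.card_fin])

lemma er_of_false {i : Fin N} {x : Fin N → Bool} (h : x i = false) : er i x = x := by
  unfold er
  rw [← h]
  exact Function.update_eq_self i x

lemma wt_er {i : Fin N} {x : Fin N → Bool} (h : x i = true) : wt (er i x) + 1 = wt x := by
  unfold wt er
  have h1 : (univ.filter (fun j => x j = true)) =
      insert i (univ.filter (fun j => Function.update x i false j = true)) := by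
    ext j
    simp only [Finset.mem_filter, Finset.mem_univ, true_and, Finset.mem_insert]
    by_cases hj : j = i
    · subst hj; simp [h]
    · rw [Function.update_of_ne hj]; simp [hj]
  rw [h1, Finset.card_insert_of_notMem]
  simp

lemma er_le (i : Fin N) (x : Fin N → Bool) : er i x ≤ x := by
  intro j
  unfold er
  by_cases hj : j = i
  · subst hj; rw [Function.update_self]; exact Bool.false_le _
  · rw [Function.update_of_ne hj]

lemma cbase_er (i : Fin N) : ∀ b ∈ cbase N, b ∘ er i ∈ cbase N := by
  rintro b (⟨c, rfl⟩ | ⟨j, rfl⟩)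
  · exact Or.inl ⟨c, rfl⟩
  · by_cases hj : j = i
    · subst hj
      left
      refine ⟨false, ?_⟩
      funext x
      simp [er]
    · right
      refine ⟨j, ?_⟩
      funext x
      simp only [Function.comp, er]
      rw [Function.update_of_ne hj]

/-- a list of `N` functions -/
def lst (g : Fin N → (Fin N → Bool) → Bool) : List ((Fin N → Bool) → Bool) :=
  (List.finRange N).map g

lemma lst_length (g : Fin N → (Fin N → Bool) → Bool) : (lst g).length = N := by
  simp [lst]

lemma cnt_lst (g : Fin N → (Fin N → Bool) → Bool) (x : Fin N → Bool) :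
    cnt (lst g) x = (univ.filter (fun i => g i x = true)).card := by
  unfold cnt lst
  rw [List.countP_map, List.countP_eq_length_filter, Finset.card_def, Finset.filter_val]
  have : (univ : Finset (Fin N)).val = ((List.finRange N : List (Fin N)) : Multiset (Fin N)) := rfl
  rw [this, Multiset.filter_coe, Multiset.coe_card]
  congr 1
  apply List.filter_congr
  intro i _
  simp

lemma MComp_er {c : ℕ} {f : (Fin N → Bool) → Bool} (i : Fin N) (h : MComp (cbase N) c f) :
    MComp (cbase N) c (fun x => f (er i x)) :=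
  h.comp (er i) (cbase_er i)

lemma htrue : (fun _ => true) ∈ cbase N := Or.inl ⟨true, rfl⟩
lemma hfalse : (fun _ => false) ∈ cbase N := Or.inl ⟨false, rfl⟩

/-- threshold functions of the weight -/
lemma thr_wt (b : ℕ) : MComp (cbase N) (2 * N * (N + 1)) (fun x => decide (b ≤ wt x)) := by
  have h := MCthr (htrue (N := N)) hfalse 0 (min b (N + 1)) (lst (fun i x => x i)) (by
    intro g hg
    obtain ⟨i, -, rfl⟩ := List.mem_map.mp hg
    exact ⟨[], MProg.nil, by simp, Or.inl (Or.inr ⟨i, rfl⟩)⟩)
  rw [lst_length] at h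
  have e : thr (lst (fun i x => x i)) (min b (N + 1)) = fun x : Fin N → Bool => decide (b ≤ wt x) := by
    funext x
    unfold thr
    rw [cnt_lst]
    congr 1
    apply propext
    have := wt_le x
    unfold wt at this ⊢
    omega
  rw [e] at h
  refine MCadd h ?_
  have h2 : min b (N + 1) ≤ N + 1 := min_le_right _ _
  calc 0 * N + 2 * min b (N + 1) * N ≤ 0 * N + 2 * (N + 1) * N := by gcongr
    _ = 2 * N * (N + 1) := by ring

/-- `h` is right on the slices `m, ..., m + d - 1`, at most `f` below and at least `f` above. -/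
def Rt (f : (Fin N → Bool) → Bool) (m d c : ℕ) (h : (Fin N → Bool) → Bool) : Prop :=
  MComp (cbase N) c h ∧ (∀ x, wt x < m → h x = true → f x = true) ∧
    (∀ x, m ≤ wt x → wt x < m + d → h x = f x) ∧ (∀ x, m + d ≤ wt x → f x = true → h x = true)

/-- one slice (Berkowitz) -/
theorem Rt_one {s : ℕ} (k : Fin s → Option Bool) (l r : Fin s → (Fin N ⊕ Bool) ⊕ Fin s)
    (htop : ∀ i j, l i = Sum.inr j ∨ r i = Sum.inr j → j < i)
    (v : (Fin N → Bool) → Fin s → Bool)
    (hv : ∀ y i, v y i = gop (k i) (Sum.elim (Sum.elim y id) (v y) (l i))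
      (Sum.elim (Sum.elim y id) (v y) (r i))) (o : Fin s) (f : (Fin N → Bool) → Bool)
    (ho : ∀ y, v y o = f y) (m : ℕ) :
    ∃ h, Rt f m 1 (2 * s + 2 * N ^ 2 * (N + 1)) h := by
  -- the approximate negations
  let z : Fin N → (Fin N → Bool) → Bool := fun j x => decide (m ≤ wt (er j x))
  obtain ⟨L, h1, h2, h3⟩ := MClist (B := cbase N) (2 * N * (N + 1)) (lst z) (by
    intro g hg
    obtain ⟨j, -, rfl⟩ := List.mem_map.mp hg
    exact MComp_er j (thr_wt m))
  rw [lst_length] at h2
  obtain ⟨L', k1, k2, P, k3, k4, k5⟩ := dual_rail htrue hfalse h1 (fun j x => x j) z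
    (fun j => Or.inl (Or.inr ⟨j, rfl⟩)) (fun j => h3 (z j) (List.mem_map.mpr
      ⟨j, List.mem_finRange j, rfl⟩)) k l r htop v hv s le_rfl
  have hz1 : ∀ x, wt x ≤ m → ∀ j, z j x = true → x j = false := by
    intro x hx j hj
    by_contra hne
    rw [Bool.not_eq_false] at hne
    have e1 := wt_er hne
    have e2 : m ≤ wt (er j x) := of_decide_eq_true hj
    omega
  have hz2 : ∀ x, m ≤ wt x → ∀ j, x j = false → z j x = true := by
    intro x hx j hj
    apply decide_eq_true
    rw [er_of_false hj]
    exact hx
  have A : ∀ x, wt x ≤ m → P o true x = true → f x = true := by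
    intro x hx hP
    rw [← ho]
    exact k4 x x (fun j => ⟨fun h => h, hz1 x hx j⟩) o o.isLt true hP
  have A' : ∀ x, m ≤ wt x → f x = true → P o true x = true := by
    intro x hx hP
    rw [← ho] at hP
    exact k5 x x (fun j => ⟨fun h => h, hz2 x hx j⟩) o o.isLt true hP
  refine ⟨P o true, ⟨L' ++ L, k1, ?_, k3 o o.isLt true⟩, fun x hx => A x (by omega), ?_,
    fun x hx => A' x (by omega)⟩
  · rw [List.length_append]
    calc L'.length + L.length ≤ 2 * s + 2 * N * (N + 1) * N := Nat.add_le_add k2 h2
      _ = 2 * s + 2 * N ^ 2 * (N + 1) := by ring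
  · intro x hx1 hx2
    rw [Bool.eq_iff_iff]
    exact ⟨A x (by omega), A' x (by omega)⟩

/-- one more slice -/
theorem Rt_step (f : (Fin N → Bool) → Bool) (hf : Monotone f) {d c : ℕ} (hd : 1 ≤ d)
    (h : ∀ m, ∃ h, Rt f m d c h) (m : ℕ) :
    ∃ h, Rt f m (d + 1) ((N + 2) * c + 2 * N ^ 2 + 2) h := by
  obtain ⟨U, u1, u2, u3, u4⟩ := h m
  obtain ⟨V, v1, v2, v3, v4⟩ := h (m + 1)
  let W : (Fin N → Bool) → Bool := thr (lst (fun i x => U (er i x))) (N - m)
  have hW : MComp (cbase N) (c * N + 2 * N * N) W := by
    have := MCthr (htrue (N := N)) hfalse c (N - m) (lst (fun i x => U (er i x))) (by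
      intro g hg
      obtain ⟨i, -, rfl⟩ := List.mem_map.mp hg
      exact MComp_er i u1)
    rw [lst_length] at this
    refine MCadd this ?_
    have : N - m ≤ N := Nat.sub_le _ _
    gcongr
  have hWx : ∀ x, W x = true ↔ N - m ≤ (univ.filter (fun i => U (er i x) = true)).card := by
    intro x
    show thr _ _ x = true ↔ _
    unfold thr
    rw [decide_eq_true_iff, cnt_lst]
  refine ⟨fun x => V x || (U x && W x), ?_, ?_, ?_, ?_⟩
  · refine MCadd (MCor v1 (MCand u1 hW)) ?_
    have : (N + 2) * c + 2 * N ^ 2 + 2 = c + (c + (c * N + 2 * N * N) + 1) + 1 := by ring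
    omega
  · intro x hx hxx
    simp only [Bool.or_eq_true, Bool.and_eq_true] at hxx
    rcases hxx with hxx | hxx
    · exact v2 x (by omega) hxx
    · exact u2 x hx hxx.1
  · intro x hx1 hx2
    rw [Bool.eq_iff_iff]
    simp only [Bool.or_eq_true, Bool.and_eq_true]
    by_cases hm : wt x = m
    · -- the lowest slice
      constructor
      · rintro (hxx | ⟨hxx, -⟩)
        · exact v2 x (by omega) hxx
        · rw [← u3 x (by omega) (by omega)]; exact hxx
      · intro hfx
        right
        have hU : U x = true := by rw [u3 x (by omega) (by omega)]; exact hfx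
        refine ⟨hU, (hWx x).mpr ?_⟩
        have hsub : (univ.filter (fun i => x i = true))ᶜ ⊆
            univ.filter (fun i => U (er i x) = true) := by
          intro i hi
          simp only [Finset.mem_compl, Finset.mem_filter, Finset.mem_univ, true_and,
            Bool.not_eq_true] at hi ⊢
          rw [er_of_false hi]
          exact hU
        have := Finset.card_le_card hsub
        rw [Finset.card_compl, Fintype.card_fin] at this
        unfold wt at hm
        omega
    · by_cases hm2 : wt x = m + d
      · -- the highest slice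
        rw [v3 x (by omega) (by omega)]
        constructor
        · rintro (hxx | ⟨-, hxx⟩)
          · exact hxx
          · by_contra hfx
            rw [Bool.not_eq_true] at hfx
            rw [hWx] at hxx
            have hsub : univ.filter (fun i => U (er i x) = true) ⊆
                (univ.filter (fun i => x i = true))ᶜ := by
              intro i hi
              simp only [Finset.mem_compl, Finset.mem_filter, Finset.mem_univ, true_and] at hi ⊢
              intro hxi
              have e1 := wt_er hxi
              rw [u3 (er i x) (by omega) (by omega)] at hi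
              have e2 := hf (er_le i x)
              rw [hi, hfx] at e2
              exact absurd e2 (by decide)
            have h3 := Finset.card_le_card hsub
            rw [Finset.card_compl, Fintype.card_fin] at h3
            have h4 := wt_le x
            unfold wt at hm2 h4
            omega
        · exact fun hfx => Or.inl hfx
      · rw [v3 x (by omega) (by omega), u3 x (by omega) (by omega)]
        constructor
        · rintro (hxx | ⟨hxx, -⟩)
          · exact hxx
          · exact hxx
        · exact fun hfx => Or.inl hfx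
  · intro x hx hfx
    simp only [Bool.or_eq_true]
    exact Or.inl (v4 x (by omega) hfx)

/-- `w` slices -/
theorem Rt_window {s : ℕ} (k : Fin s → Option Bool) (l r : Fin s → (Fin N ⊕ Bool) ⊕ Fin s)
    (htop : ∀ i j, l i = Sum.inr j ∨ r i = Sum.inr j → j < i)
    (v : (Fin N → Bool) → Fin s → Bool)
    (hv : ∀ y i, v y i = gop (k i) (Sum.elim (Sum.elim y id) (v y) (l i))
      (Sum.elim (Sum.elim y id) (v y) (r i))) (o : Fin s) (f : (Fin N → Bool) → Bool)
    (hf : Monotone f) (ho : ∀ y, v y o = f y) (w : ℕ) : ∃ c, (c + (2 * N ^ 2 + 2) ≤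
      (N + 2) ^ w * (2 * s + 2 * (N + 2) ^ 3)) ∧ ∀ m, ∃ h, Rt f m (w + 1) c h := by
  induction w with
  | zero =>
    refine ⟨2 * s + 2 * N ^ 2 * (N + 1), ?_, fun m => Rt_one k l r htop v hv o f ho m⟩
    have : (N + 2) ^ 0 * (2 * s + 2 * (N + 2) ^ 3) =
      2 * s + (2 * N ^ 3 + 12 * N ^ 2 + 24 * N + 16) := by ring
    rw [this]
    have : 2 * N ^ 2 * (N + 1) = 2 * N ^ 3 + 2 * N ^ 2 := by ring
    rw [this]
    have : 0 ≤ N ^ 2 := Nat.zero_le _
    omega
  | succ w ih =>
    obtain ⟨c, hc, h⟩ := ih
    refine ⟨(N + 2) * c + 2 * N ^ 2 + 2, ?_, fun m => Rt_step f hf (by omega) h m⟩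
    calc (N + 2) * c + 2 * N ^ 2 + 2 + (2 * N ^ 2 + 2)
        = (N + 2) * c + 2 * (2 * N ^ 2 + 2) := by ring
      _ ≤ (N + 2) * c + (N + 2) * (2 * N ^ 2 + 2) := by gcongr; omega
      _ = (N + 2) * (c + (2 * N ^ 2 + 2)) := by ring
      _ ≤ (N + 2) * ((N + 2) ^ w * (2 * s + 2 * (N + 2) ^ 3)) := Nat.mul_le_mul_left _ hc
      _ = (N + 2) ^ (w + 1) * (2 * s + 2 * (N + 2) ^ 3) := by rw [pow_succ]; ring

end Pool.Agent.H560R2
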