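import Pool.Agent.H560R2.Wd2

/-! Circuits with a limited number of NOT gates for windows of slices. -/

namespace Pool.Agent.H560R2

open Finset Pool.Agent.H520R2

/-- programs with gate types -/
inductive NPr {X : Type} (B : Set (X → Bool)) : List (Option Bool) → List (X → Bool) → Prop
  | nil : NPr B [] []
  | gate {K : List (Option Bool)} {L : List (X → Bool)} (o : Option Bool) {f g : X → Bool} :
      NPr B K L → Av B L f → Av B L g → NPr B (o :: K) ((fun x => gop o (f x) (g x)) :: L)

section gen

variable {X : Type} {B : Set (X → Bool)}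

lemma NPr.len {K : List (Option Bool)} {L : List (X → Bool)} (h : NPr B K L) :
    K.length = L.length := by
  induction h with
  | nil => rfl
  | gate _ _ _ _ ih => simp [ih]

lemma NPr_of_MProg {L : List (X → Bool)} (h : MProg B L) :
    ∃ K, NPr B K L ∧ K.count none = 0 := by
  induction h with
  | nil => exact ⟨[], NPr.nil, rfl⟩
  | and _ hf hg ih =>
    obtain ⟨K, h1, h2⟩ := ih
    exact ⟨some true :: K, NPr.gate (some true) h1 hf hg, by simpa using h2⟩
  | or _ hf hg ih =>
    obtain ⟨K, h1, h2⟩ := ih
    exact ⟨some false :: K, NPr.gate (some false) h1 hf hg, by simpa using h2⟩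

/-- extension of a program, with the numbers of gates and of NOT gates -/
def NExt (B : Set (X → Bool)) (K : List (Option Bool)) (L : List (X → Bool)) (t c : ℕ)
    (F : X → Bool) : Prop :=
  ∃ K' L', NPr B (K' ++ K) (L' ++ L) ∧ (K' ++ K).count none ≤ K.count none + t ∧
    L'.length ≤ c ∧ Av B (L' ++ L) F

/-- selection -/
theorem select (t : ℕ) : ∀ (K : List (Option Bool)) (L : List (X → Bool)), NPr B K L →
    ∀ g θ : ℕ → X → Bool, (∀ j < 2 ^ t, Av B L (g j)) →
      (∀ j, 1 ≤ j → j < 2 ^ t → Av B L (θ j)) →
      ∃ F, NExt B K L t (6 * 2 ^ t) F ∧ ∀ x j, j < 2 ^ t → (∀ i, 1 ≤ i → i ≤ j → θ i x = true) →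
        (∀ i, j < i → i < 2 ^ t → θ i x = false) → F x = g j x := by
  induction t with
  | zero =>
    intro K L hKL g θ hg hθ
    refine ⟨g 0, ⟨[], [], by simpa using hKL, by simp, by simp, by simpa using hg 0 (by simp)⟩, ?_⟩
    intro x j hj _ _
    have : j = 0 := by simpa using hj
    rw [this]
  | succ t ih =>
    intro K L hKL g θ hg hθ
    have hpos : 0 < 2 ^ t := by positivity
    have h2t : 2 ^ (t + 1) = 2 ^ t + 2 ^ t := by rw [pow_succ]; ring
    -- the NOT gate
    have p0 := NPr.gate none hKL (hθ (2 ^ t) hpos (by omega)) (hθ (2 ^ t) hpos (by omega))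
    set ν : X → Bool := fun x => gop none (θ (2 ^ t) x) (θ (2 ^ t) x) with hν
    have hνx : ∀ x, ν x = !(θ (2 ^ t) x) := fun x => rfl
    -- the new functions
    let g' : ℕ → X → Bool := fun i x => (g i x && ν x) || (g (2 ^ t + i) x && θ (2 ^ t) x)
    let θ' : ℕ → X → Bool := fun i x => (θ i x && ν x) || θ (2 ^ t + i) x
    have step : ∀ n ≤ 2 ^ t, ∃ K' L', NPr B (K' ++ (none :: K)) (L' ++ (ν :: L)) ∧
        K'.count none = 0 ∧ L'.length ≤ 5 * n ∧
        ∀ i < n, Av B (L' ++ (ν :: L)) (g' i) ∧ (1 ≤ i → Av B (L' ++ (ν :: L)) (θ' i)) := by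
      intro n
      induction n with
      | zero =>
        intro _
        exact ⟨[], [], by simpa using p0, by simp, by simp, fun i hi => absurd hi (by omega)⟩
      | succ n ihn =>
        intro hn
        obtain ⟨K', L', a1, a2, a3, a4⟩ := ihn (by omega)
        have b1 : Av B (L' ++ (ν :: L)) (g n) := ((hg n (by omega)).cons ν).mono L'
        have b2 : Av B (L' ++ (ν :: L)) ν := Av.mono (Or.inr List.mem_cons_self) L'
        have b3 : Av B (L' ++ (ν :: L)) (g (2 ^ t + n)) := ((hg _ (by omega)).cons ν).mono L'
        have b4 : Av B (L' ++ (ν :: L)) (θ (2 ^ t)) := ((hθ _ hpos (by omega)).cons ν).mono L'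
        have c1 := NPr.gate (some true) a1 b1 b2
        have c2 := NPr.gate (some true) c1 (b3.cons _) (b4.cons _)
        have c3 := NPr.gate (some false) c2 (Av.cons (Or.inr List.mem_cons_self) _)
          (Or.inr List.mem_cons_self)
        have hg' : (fun x => gop (some false) (gop (some true) (g n x) (ν x))
            (gop (some true) (g (2 ^ t + n) x) (θ (2 ^ t) x))) = g' n := rfl
        rw [hg'] at c3
        by_cases hn0 : 1 ≤ n
        · have b5 : Av B (L' ++ (ν :: L)) (θ n) := ((hθ n hn0 (by omega)).cons ν).mono L'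
          have b6 : Av B (L' ++ (ν :: L)) (θ (2 ^ t + n)) :=
            ((hθ _ (by omega) (by omega)).cons ν).mono L'
          have c4 := NPr.gate (some true) c3 (((b5.cons _).cons _).cons _)
            (((b2.cons _).cons _).cons _)
          have c5 := NPr.gate (some false) c4 (Or.inr List.mem_cons_self)
            ((((b6.cons _).cons _).cons _).cons _)
          have hθ' : (fun x => gop (some false) (gop (some true) (θ n x) (ν x))
              (θ (2 ^ t + n) x)) = θ' n := rfl
          rw [hθ'] at c5
          refine ⟨some false :: some true :: some false :: some true :: some true :: K',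
            θ' n :: _ :: g' n :: _ :: _ :: L', c5, by simpa using a2, ?_, ?_⟩
          · simp only [List.length_cons]; omega
          · intro i hi
            rcases Nat.lt_or_ge i n with hi' | hi'
            · obtain ⟨d1, d2⟩ := a4 i hi'
              exact ⟨((((d1.cons _).cons _).cons _).cons _).cons _,
                fun h => (((((d2 h).cons _).cons _).cons _).cons _).cons _⟩
            · have : i = n := by omega
              subst this
              refine ⟨Av.cons (Av.cons (Or.inr List.mem_cons_self) _) _, fun _ =>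
                Or.inr List.mem_cons_self⟩
        · refine ⟨some false :: some true :: some true :: K',
            g' n :: _ :: _ :: L', c3, by simpa using a2, ?_, ?_⟩
          · simp only [List.length_cons]; omega
          · intro i hi
            rcases Nat.lt_or_ge i n with hi' | hi'
            · obtain ⟨d1, d2⟩ := a4 i hi'
              exact ⟨((d1.cons _).cons _).cons _, fun h => (((d2 h).cons _).cons _).cons _⟩
            · have : i = n := by omega
              subst this
              exact ⟨Or.inr List.mem_cons_self, fun h => absurd h hn0⟩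
    obtain ⟨K', L', a1, a2, a3, a4⟩ := step (2 ^ t) le_rfl
    obtain ⟨F, ⟨K'', L'', b1, b2, b3, b4⟩, b5⟩ := ih (K' ++ (none :: K)) (L' ++ (ν :: L)) a1 g' θ'
      (fun j hj => (a4 j hj).1) (fun j h1 hj => (a4 j hj).2 h1)
    refine ⟨F, ⟨K'' ++ (K' ++ [none]), L'' ++ (L' ++ [ν]), by simpa using b1, ?_, ?_,
      by simpa using b4⟩, ?_⟩
    · have e1 : K'' ++ (K' ++ [none]) ++ K = K'' ++ (K' ++ (none :: K)) := by simp
      rw [e1]
      have e2 : (K' ++ (none :: K)).count none = K.count none + 1 := by
        rw [List.count_append, a2]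
        simp
      omega
    · simp only [List.length_append, List.length_cons, List.length_nil]
      omega
    · intro x j hj h1 h2
      have hK : ∀ i, 2 ^ t + i < 2 ^ (t + 1) ↔ i < 2 ^ t := fun i => by omega
      by_cases hjt : j < 2 ^ t
      · have hmid : θ (2 ^ t) x = false := h2 _ hjt (by omega)
        have hF := b5 x j hjt (fun i hi1 hi2 => by
          show ((θ i x && ν x) || θ (2 ^ t + i) x) = true
          rw [hνx, hmid, h1 i hi1 hi2]
          rfl) (fun i hi1 hi2 => by
          show ((θ i x && ν x) || θ (2 ^ t + i) x) = false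
          rw [hνx, hmid, h2 i hi1 (by omega), h2 (2 ^ t + i) (by omega) (by omega)]
          rfl)
        rw [hF]
        show ((g j x && ν x) || (g (2 ^ t + j) x && θ (2 ^ t) x)) = g j x
        rw [hνx, hmid]
        simp
      · have hmid : θ (2 ^ t) x = true := h1 _ hpos (by omega)
        have hF := b5 x (j - 2 ^ t) (by omega) (fun i hi1 hi2 => by
          show ((θ i x && ν x) || θ (2 ^ t + i) x) = true
          rw [h1 (2 ^ t + i) (by omega) (by omega)]
          simp) (fun i hi1 hi2 => by
          show ((θ i x && ν x) || θ (2 ^ t + i) x) = false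
          rw [hνx, hmid, h2 (2 ^ t + i) (by omega) (by omega)]
          simp)
        rw [hF]
        show ((g (j - 2 ^ t) x && ν x) || (g (2 ^ t + (j - 2 ^ t)) x && θ (2 ^ t) x)) = g j x
        have e : 2 ^ t + (j - 2 ^ t) = j := by omega
        rw [hνx, hmid, e]
        simp

end gen

section circ

variable {N : ℕ}

/-- From programs to circuits. -/
theorem NPr_circ {K : List (Option Bool)} {L : List ((Fin N → Bool) → Bool)}
    (h : NPr (cbase N) K L) (f : (Fin N → Bool) → Bool) (hf : f ∈ L) :
    ∃ (k : Fin L.length → Option Bool) (l r : Fin L.length → (Fin N ⊕ Bool) ⊕ Fin L.length)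
      (v : (Fin N → Bool) → Fin L.length → Bool) (o : Fin L.length),
      (∀ i j, l i = Sum.inr j ∨ r i = Sum.inr j → j < i) ∧
      (univ.filter (fun i => k i = none)).card ≤ K.count none ∧
      (∀ y i, v y i = gop (k i) (Sum.elim (Sum.elim y id) (v y) (l i))
        (Sum.elim (Sum.elim y id) (v y) (r i))) ∧ ∀ y, v y o = f y := by
  -- strengthened statement without the output
  have key : ∃ (k : Fin L.length → Option Bool)
      (l r : Fin L.length → (Fin N ⊕ Bool) ⊕ Fin L.length)
      (v : (Fin N → Bool) → Fin L.length → Bool),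
      (∀ i j, l i = Sum.inr j ∨ r i = Sum.inr j → j < i) ∧
      (univ.filter (fun i => k i = none)).card ≤ K.count none ∧
      (∀ y i, v y i = gop (k i) (Sum.elim (Sum.elim y id) (v y) (l i))
        (Sum.elim (Sum.elim y id) (v y) (r i))) ∧
      ∀ g ∈ L, ∃ i, ∀ y, v y i = g y := by
    clear hf
    induction h with
    | nil =>
      refine ⟨fun i => none, fun i => i.elim0, fun i => i.elim0, fun _ i => i.elim0, ?_, ?_, ?_, ?_⟩
      · intro i; exact i.elim0
      · simp
      · intro y i; exact i.elim0
      · intro g hg; exact absurd hg (by simp)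
    | @gate K L o f g hKL hf hg ih =>
      obtain ⟨k, l, r, v, h1, h2, h3, h4⟩ := ih
      have wire : ∀ f : (Fin N → Bool) → Bool, Av (cbase N) L f →
          ∃ a : (Fin N ⊕ Bool) ⊕ Fin L.length, ∀ y, Sum.elim (Sum.elim y id) (v y) a = f y := by
        intro f hf
        rcases hf with (⟨b, rfl⟩ | ⟨i, rfl⟩) | hf
        · exact ⟨Sum.inl (Sum.inr b), fun y => rfl⟩
        · exact ⟨Sum.inl (Sum.inl i), fun y => rfl⟩
        · obtain ⟨i, hi⟩ := h4 f hf
          exact ⟨Sum.inr i, hi⟩
      obtain ⟨a, ha⟩ := wire f hf
      obtain ⟨b, hb⟩ := wire g hg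
      let up : (Fin N ⊕ Bool) ⊕ Fin L.length → (Fin N ⊕ Bool) ⊕ Fin (L.length + 1) :=
        Sum.map id Fin.castSucc
      have hup : ∀ a j, up a = Sum.inr j → ∃ j', a = Sum.inr j' ∧ j = Fin.castSucc j' := by
        rintro (a | a) j hj
        · exact absurd hj (by simp [up])
        · exact ⟨a, rfl, (Sum.inr.inj hj).symm⟩
      have hval : ∀ y (u : Bool) a, Sum.elim (Sum.elim y id)
          (Fin.snoc (α := fun _ => Bool) (v y) u) (up a) =
          Sum.elim (Sum.elim y id) (v y) a := by
        rintro y u (a | a)
        · rfl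
        · show Fin.snoc (α := fun _ => Bool) (v y) u (Fin.castSucc a) = v y a
          rw [Fin.snoc_castSucc]
      refine ⟨Fin.snoc (α := fun _ => Option Bool) k o,
        Fin.snoc (α := fun _ => (Fin N ⊕ Bool) ⊕ Fin (L.length + 1)) (fun i => up (l i)) (up a),
        Fin.snoc (α := fun _ => (Fin N ⊕ Bool) ⊕ Fin (L.length + 1)) (fun i => up (r i)) (up b),
        fun y => Fin.snoc (α := fun _ => Bool) (v y) (gop o (f y) (g y)), ?_, ?_, ?_, ?_⟩
      · intro i
        refine Fin.lastCases ?_ (fun i => ?_) i
        · intro j hj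
          simp only [Fin.snoc_last] at hj
          rcases hj with hj | hj
          · obtain ⟨j', -, rfl⟩ := hup _ _ hj
            exact Fin.castSucc_lt_last j'
          · obtain ⟨j', -, rfl⟩ := hup _ _ hj
            exact Fin.castSucc_lt_last j'
        · intro j hj
          simp only [Fin.snoc_castSucc] at hj
          rcases hj with hj | hj
          · obtain ⟨j', hj', rfl⟩ := hup _ _ hj
            exact Fin.castSucc_lt_castSucc_iff.mpr (h1 i j' (Or.inl hj'))
          · obtain ⟨j', hj', rfl⟩ := hup _ _ hj
            exact Fin.castSucc_lt_castSucc_iff.mpr (h1 i j' (Or.inr hj'))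
      · have e : (univ.filter (fun i : Fin (L.length + 1) =>
            Fin.snoc (α := fun _ => Option Bool) k o i = none)) ⊆
            (if o = none then {Fin.last L.length} else ∅) ∪
            (univ.filter (fun i => k i = none)).map Fin.castSuccEmb := by
          intro i
          refine Fin.lastCases ?_ (fun i => ?_) i
          · intro hi
            simp only [Finset.mem_filter, Finset.mem_univ, true_and, Fin.snoc_last] at hi
            rw [Finset.mem_union, if_pos hi]
            exact Or.inl (Finset.mem_singleton_self _)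
          · intro hi
            simp only [Finset.mem_filter, Finset.mem_univ, true_and, Fin.snoc_castSucc] at hi
            rw [Finset.mem_union]
            right
            rw [Finset.mem_map]
            exact ⟨i, by simpa using hi, rfl⟩
        refine (Finset.card_le_card e).trans ((Finset.card_union_le _ _).trans ?_)
        rw [Finset.card_map, List.count_cons]
        by_cases ho : o = none
        · subst ho
          simp only [if_true, Finset.card_singleton, beq_self_eq_true]
          omega
        · rw [if_neg ho]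
          simp only [Finset.card_empty]
          omega
      · intro y i
        refine Fin.lastCases ?_ (fun i => ?_) i
        · simp only [Fin.snoc_last]
          rw [hval, hval, ha, hb]
        · simp only [Fin.snoc_castSucc]
          rw [hval, hval]
          exact h3 y i
      · intro g' hg'
        rcases List.mem_cons.mp hg' with rfl | hg'
        · exact ⟨Fin.last _, fun y => by simp only [Fin.snoc_last]⟩
        · obtain ⟨i, hi⟩ := h4 g' hg'
          exact ⟨Fin.castSucc i, fun y => by simp only [Fin.snoc_castSucc]; exact hi y⟩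
  obtain ⟨k, l, r, v, h1, h2, h3, h4⟩ := key
  obtain ⟨o, ho⟩ := h4 f hf
  exact ⟨k, l, r, v, o, h1, h2, h3, ho⟩

/-- Windows of `(w + 1) 2 ^ t` slices with `t` NOT gates. -/
theorem window_nots {s : ℕ} (k : Fin s → Option Bool) (l r : Fin s → (Fin N ⊕ Bool) ⊕ Fin s)
    (htop : ∀ i j, l i = Sum.inr j ∨ r i = Sum.inr j → j < i)
    (v : (Fin N → Bool) → Fin s → Bool)
    (hv : ∀ y i, v y i = gop (k i) (Sum.elim (Sum.elim y id) (v y) (l i))
      (Sum.elim (Sum.elim y id) (v y) (r i))) (o : Fin s) (f : (Fin N → Bool) → Bool)
    (hf : Monotone f) (ho : ∀ y, v y o = f y) (w m t : ℕ) :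
    ∃ K L, NPr (cbase N) K L ∧ K.count none ≤ t ∧
      L.length ≤ 2 ^ t * ((N + 2) ^ w * (2 * s + 4 * (N + 2) ^ 3)) ∧
      (fun x => if wt x < m then false else if wt x < m + (w + 1) * 2 ^ t then f x else true) ∈
        L := by
  obtain ⟨c, hc, hR⟩ := Rt_window k l r htop v hv o f hf ho w
  choose U hU using fun j : ℕ => hR (m + (w + 1) * j)
  let θ : ℕ → (Fin N → Bool) → Bool := fun j x => decide (m + (w + 1) * j ≤ wt x)
  -- all functions
  obtain ⟨L1, a1, a2, a3⟩ := MClist (B := cbase N) c ((List.range (2 ^ t)).map U) (by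
    intro g hg
    obtain ⟨j, -, rfl⟩ := List.mem_map.mp hg
    exact (hU j).1)
  obtain ⟨L2, b1, b2, b3⟩ := MClist (B := cbase N) (2 * N * (N + 1))
    ((List.range (2 ^ t + 1)).map θ) (by
    intro g hg
    obtain ⟨j, -, rfl⟩ := List.mem_map.mp hg
    exact thr_wt _)
  rw [List.length_map, List.length_range] at a2 b2
  have hM := a1.append b1
  obtain ⟨K, hK1, hK2⟩ := NPr_of_MProg hM
  have hU' : ∀ j < 2 ^ t, Av (cbase N) (L2 ++ L1) (U j) := fun j hj =>
    (a3 _ (List.mem_map.mpr ⟨j, List.mem_range.mpr hj, rfl⟩)).mono L2
  have hθ' : ∀ j ≤ 2 ^ t, Av (cbase N) (L2 ++ L1) (θ j) := fun j hj => by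
    rcases b3 _ (List.mem_map.mpr ⟨j, List.mem_range.mpr (Nat.lt_succ_of_le hj), rfl⟩) with h | h
    · exact Or.inl h
    · exact Or.inr (List.mem_append_left _ h)
  obtain ⟨F, ⟨K', L', d1, d2, d3, d4⟩, d5⟩ := select t K (L2 ++ L1) hK1 U θ hU'
    (fun j _ hj => hθ' j hj.le)
  have e1 := NPr.gate (some true) d1 ((hθ' 0 (Nat.zero_le _)).mono L') d4
  have e2 := NPr.gate (some false) e1 (Or.inr List.mem_cons_self)
    (((hθ' (2 ^ t) le_rfl).mono L').cons _)
  refine ⟨_, _, e2, ?_, ?_, ?_⟩
  · simp only [List.count_cons]
    have : ((some true : Option Bool) == none) = false := rfl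
    have : ((some false : Option Bool) == none) = false := rfl
    simp only [*, Bool.false_eq_true, if_false]
    omega
  · simp only [List.length_cons, List.length_append]
    have h2t : 1 ≤ 2 ^ t := Nat.one_le_two_pow
    have hp : 1 ≤ (N + 2) ^ w := Nat.one_le_pow _ _ (by omega)
    have f1 : c * 2 ^ t ≤ 2 ^ t * ((N + 2) ^ w * (2 * s + 2 * (N + 2) ^ 3)) := by
      rw [mul_comm]
      exact Nat.mul_le_mul_left _ (by omega)
    have f2 : 2 * N * (N + 1) * (2 ^ t + 1) + 6 * 2 ^ t + 2 ≤ 2 ^ t * (2 * (N + 2) ^ 3) := by
      have g1 : 2 * N * (N + 1) * (2 ^ t + 1) + 6 * 2 ^ t + 2 ≤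
          2 ^ t * (4 * N * (N + 1) + 8) := by nlinarith [Nat.zero_le (N * (N + 1) * 2 ^ t)]
      refine g1.trans (Nat.mul_le_mul_left _ ?_)
      have : 2 * (N + 2) ^ 3 = 2 * N ^ 3 + 12 * N ^ 2 + 24 * N + 16 := by ring
      rw [this]
      have : 4 * N * (N + 1) = 4 * N ^ 2 + 4 * N := by ring
      rw [this]
      omega
    have f3 : 2 ^ t * (2 * (N + 2) ^ 3) ≤ 2 ^ t * ((N + 2) ^ w * (2 * (N + 2) ^ 3)) :=
      Nat.mul_le_mul_left _ (Nat.le_mul_of_pos_left _ hp)
    have f4 : 2 ^ t * ((N + 2) ^ w * (2 * s + 4 * (N + 2) ^ 3)) =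
        2 ^ t * ((N + 2) ^ w * (2 * s + 2 * (N + 2) ^ 3)) +
        2 ^ t * ((N + 2) ^ w * (2 * (N + 2) ^ 3)) := by ring
    rw [f4]
    omega
  · have : (fun x => if wt x < m then false else if wt x < m + (w + 1) * 2 ^ t then f x else true) =
        fun x => gop (some false) (gop (some true) (θ 0 x) (F x)) (θ (2 ^ t) x) := by
      funext x
      by_cases h1 : wt x < m
      · rw [if_pos h1]
        have t0 : θ 0 x = false := by
          apply decide_eq_false
          omega
        have t1 : θ (2 ^ t) x = false := by
          apply decide_eq_false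
          omega
        rw [t0, t1]
        rfl
      · rw [if_neg h1]
        have t0 : θ 0 x = true := by
          apply decide_eq_true
          omega
        by_cases h2 : wt x < m + (w + 1) * 2 ^ t
        · rw [if_pos h2]
          have t1 : θ (2 ^ t) x = false := by
            apply decide_eq_false
            omega
          rw [t0, t1]
          have hj : (wt x - m) / (w + 1) < 2 ^ t := by
            rw [Nat.div_lt_iff_lt_mul (by omega)]
            rw [mul_comm] at h2
            omega
          have q1 : (w + 1) * ((wt x - m) / (w + 1)) ≤ wt x - m := Nat.mul_div_le _ _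
          have q2 : wt x - m < (w + 1) * ((wt x - m) / (w + 1)) + (w + 1) := by
            have := Nat.lt_mul_div_succ (wt x - m) (show 0 < w + 1 by omega)
            rw [mul_add, mul_one] at this
            exact this
          have hF := d5 x ((wt x - m) / (w + 1)) hj (fun i hi1 hi2 => by
            apply decide_eq_true
            have := Nat.mul_le_mul_left (w + 1) hi2
            omega) (fun i hi1 hi2 => by
            apply decide_eq_false
            have := Nat.mul_le_mul_left (w + 1) (Nat.succ_le_of_lt hi1)
            rw [Nat.succ_eq_add_one, mul_add, mul_one] at this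
            omega)
          have hUx := (hU ((wt x - m) / (w + 1))).2.2.1 x (by omega) (by omega)
          show f x = ((true && F x) || false)
          rw [hF, hUx]
          simp
        · rw [if_neg h2]
          have t1 : θ (2 ^ t) x = true := by
            apply decide_eq_true
            omega
          rw [t1]
          show true = (_ || true)
          rw [Bool.or_true]
    rw [this]
    exact List.mem_cons_self

end circ

end Pool.Agent.H560R2
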