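import Pool.Agent.H560R2.Neg3

/-! Padding with a Turán graph; counting edges. -/

namespace Pool.Agent.H560R2

open Finset

/-- a padding graph with a prescribed number of edges -/
lemma pad_exists {n r k : ℕ} (hk : 0 < k) (g : Fin r ↪ Fin n) (e : ℕ)
    (he : e ≤ (SimpleGraph.turanGraph r k).edgeSet.ncard) :
    ∃ P : SimpleGraph (Fin n), P.CliqueFree (k + 1) ∧
      (∀ u v, P.Adj u v → u ∈ Set.range g ∧ v ∈ Set.range g) ∧ P.edgeSet.ncard = e := by
  classical
  set G1 := (SimpleGraph.turanGraph r k).map g with hG1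
  have hcard : G1.edgeSet.ncard = (SimpleGraph.turanGraph r k).edgeSet.ncard := by
    rw [hG1, SimpleGraph.edgeSet_map]
    exact Set.ncard_image_of_injective _ g.sym2Map.injective
  obtain ⟨t, hts, htc⟩ := Set.exists_subset_card_eq (s := G1.edgeSet) (n := e)
    (by rw [hcard]; exact he)
  have hedge : (SimpleGraph.fromEdgeSet t).edgeSet = t := by
    rw [SimpleGraph.edgeSet_fromEdgeSet]
    ext x
    constructor
    · exact fun h => h.1
    · intro h
      exact ⟨h, G1.not_isDiag_of_mem_edgeSet (hts h)⟩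
  have hle : SimpleGraph.fromEdgeSet t ≤ G1 := by
    rw [← SimpleGraph.edgeSet_subset_edgeSet, hedge]
    exact hts
  refine ⟨SimpleGraph.fromEdgeSet t, ?_, ?_, by rw [hedge, htc]⟩
  · refine SimpleGraph.CliqueFree.anti hle ?_
    intro c hc
    rw [hG1, SimpleGraph.isNClique_map_iff (by omega)] at hc
    obtain ⟨s, hs, -⟩ := hc
    exact SimpleGraph.turanGraph_cliqueFree hk s hs
  · intro u v huv
    have h := hle huv
    rw [hG1, SimpleGraph.map_adj] at h
    obtain ⟨a, b, -, rfl, rfl⟩ := h
    exact ⟨⟨a, rfl⟩, ⟨b, rfl⟩⟩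

/-- number of edges of the Turán graph, lower bound -/
lemma turan_lower (r k : ℕ) (hk : 0 < k) :
    (r ^ 2 - k ^ 2) * (k - 1) ≤ 2 * k * ((SimpleGraph.turanGraph r k).edgeSet.ncard + 1) := by
  classical
  have h1 : (SimpleGraph.turanGraph r k).edgeSet.ncard =
      (SimpleGraph.turanGraph r k).edgeFinset.card := by
    rw [← SimpleGraph.coe_edgeFinset, Set.ncard_coe_finset]
  rw [h1, SimpleGraph.card_edgeFinset_turanGraph]
  set t := r % k
  have ht : t ^ 2 ≤ k ^ 2 := Nat.pow_le_pow_left (Nat.mod_lt _ hk).le 2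
  set x := (r ^ 2 - t ^ 2) * (k - 1) with hx
  have hx1 : (r ^ 2 - k ^ 2) * (k - 1) ≤ x := Nat.mul_le_mul_right _ (by omega)
  have hx2 : x < 2 * k * (x / (2 * k) + 1) := Nat.lt_mul_div_succ x (by omega)
  have hx3 : 2 * k * (x / (2 * k) + 1) ≤ 2 * k * (x / (2 * k) + t.choose 2 + 1) :=
    Nat.mul_le_mul_left _ (by omega)
  omega

section

variable {St Cl ι : Type} {cls : St → Cl} {cmp : St → St → Prop} {st : ι → St} {K K' p n : ℕ}

/-- few edges are controlled -/
lemma g0_edges [Fintype ι] [Fintype St] (y : Fin K × Fin K' → Set ι)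
    (J : Finset (Fin K × Fin K')) (hy : ∀ j, j ∉ J → y j = ∅) :
    (gG0 cls cmp st K K' p y).edgeSet.ncard ≤
      (gG0 cls cmp st K K' p (fun _ => ∅)).edgeSet.ncard + J.card * Fintype.card ι := by
  classical
  have hfin : Finite (GV st K K' p) := inferInstance
  let f : (Fin K × Fin K') × ι → Sym2 (GV st K K' p) := fun z =>
    s(Sum.inl z.1.1, Sum.inr (Sum.inl (Sum.inl (z.2, z.1.2))))
  have hsub : (gG0 cls cmp st K K' p y).edgeSet ⊆
      (gG0 cls cmp st K K' p (fun _ => ∅)).edgeSet ∪
        (((J ×ˢ (univ : Finset ι)).image f : Finset _) : Set _) := by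
    intro e
    induction e using Sym2.ind with
    | _ a b =>
      intro he
      rw [SimpleGraph.mem_edgeSet] at he
      by_cases hf : s(a, b) ∈ (J ×ˢ (univ : Finset ι)).image f
      · right; exact hf
      · left
        rw [SimpleGraph.mem_edgeSet]
        refine g0_compare ?_ he
        rintro k v hkv hv
        exfalso
        apply hf
        have hJ : (k, v.2) ∈ J := by
          by_contra hcon
          rw [hy _ hcon] at hv
          exact hv
        rw [Finset.mem_image]
        refine ⟨((k, v.2), v.1), by simp [hJ], ?_⟩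
        rcases hkv with ⟨rfl, rfl⟩ | ⟨rfl, rfl⟩
        · rfl
        · exact Sym2.eq_swap
  refine (Set.ncard_le_ncard hsub (Set.toFinite _)).trans ((Set.ncard_union_le _ _).trans ?_)
  refine Nat.add_le_add_left ?_ _
  rw [Set.ncard_coe_finset]
  refine Finset.card_image_le.trans ?_
  rw [Finset.card_product, Finset.card_univ]

lemma g0_edges_le [Fintype ι] [Fintype St] (y : Fin K × Fin K' → Set ι) (U : ℕ)
    (hU : Nat.card (GV st K K' p) ≤ U) :
    2 * (gG0 cls cmp st K K' p y).edgeSet.ncard ≤ U ^ 2 := by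
  classical
  have : Fintype (GV st K K' p) := Fintype.ofFinite _
  have h1 : (gG0 cls cmp st K K' p y).edgeSet.ncard =
      (gG0 cls cmp st K K' p y).edgeFinset.card := by
    rw [← SimpleGraph.coe_edgeFinset, Set.ncard_coe_finset]
  have h2 := SimpleGraph.card_edgeFinset_le_card_choose_two (G := gG0 cls cmp st K K' p y)
  rw [Nat.card_eq_fintype_card] at hU
  have h3 : 2 * (Fintype.card (GV st K K' p)).choose 2 ≤ (Fintype.card (GV st K K' p)) ^ 2 := by
    rw [Nat.choose_two_right, sq]
    have := Nat.div_mul_le_self (Fintype.card (GV st K K' p) * (Fintype.card (GV st K K' p) - 1)) 2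
    have h4 : Fintype.card (GV st K K' p) * (Fintype.card (GV st K K' p) - 1) ≤
        Fintype.card (GV st K K' p) * Fintype.card (GV st K K' p) :=
      Nat.mul_le_mul_left _ (by omega)
    omega
  have h5 : (Fintype.card (GV st K K' p)) ^ 2 ≤ U ^ 2 := Nat.pow_le_pow_left hU 2
  omega

/-- the number of edges of the padded graph -/
lemma gPsi_edges [Fintype ι] [Fintype St] {ψ : GV st K K' p ↪ Fin n} {P : SimpleGraph (Fin n)}
    (hP : ∀ u v, P.Adj u v → u ∉ Set.range ψ ∧ v ∉ Set.range ψ) (y : Fin K × Fin K' → Set ι) :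
    (gPsi cls cmp st K K' p ψ P y).edgeSet.ncard =
      (gG0 cls cmp st K K' p y).edgeSet.ncard + P.edgeSet.ncard := by
  classical
  unfold gPsi
  rw [SimpleGraph.edgeSet_sup, Set.ncard_union_eq _ (Set.toFinite _) (Set.toFinite _)]
  · congr 1
    rw [SimpleGraph.edgeSet_map]
    exact Set.ncard_image_of_injective _ ψ.sym2Map.injective
  · rw [Set.disjoint_left]
    intro e
    induction e using Sym2.ind with
    | _ a b =>
      intro h1 h2
      rw [SimpleGraph.mem_edgeSet] at h1 h2
      rw [SimpleGraph.map_adj] at h1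
      obtain ⟨a', b', -, rfl, rfl⟩ := h1
      exact (hP _ _ h2).1 ⟨a', rfl⟩

end

end Pool.Agent.H560R2
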