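import Pool.Agent.H560R2.Win1

/-! The family of padded graphs: all members have about `m` edges. -/

namespace Pool.Agent.H560R2

open Finset

/-- arithmetic for the padding -/
lemma pad_arith {n k D T m : ℕ} (hk : 0 < k) (hnk : n < (k + 1) ^ 2) (hkn : k ^ 2 ≤ n)
    (hD : D ≤ n) (hT : ((n - D) ^ 2 - k ^ 2) * (k - 1) ≤ 2 * k * (T + 1))
    (h2 : 2 * m + n * (k + 2 * D + 4) ≤ n ^ 2) : m ≤ T := by
  by_contra hcon
  push Not at hcon
  obtain ⟨r, rfl⟩ : ∃ r, n = r + D := ⟨n - D, by omega⟩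
  obtain ⟨l, rfl⟩ : ∃ l, k = l + 1 := ⟨k - 1, by omega⟩
  have e1 : r + D - D = r := by omega
  have e2 : l + 1 - 1 = l := by omega
  rw [e1, e2] at hT
  -- r ^ 2 ≥ k ^ 2
  have h3 : 2 * (l + 1) * (T + 1) ≤ (l + 1) * (2 * m) := by
    calc 2 * (l + 1) * (T + 1) = (l + 1) * (2 * (T + 1)) := by ring
      _ ≤ (l + 1) * (2 * m) := Nat.mul_le_mul_left _ (by omega)
  have h4 : (r ^ 2 - (l + 1) ^ 2) * l ≤ (l + 1) * (2 * m) := hT.trans h3
  have h5 : r ^ 2 * l ≤ (l + 1) * (2 * m) + (l + 1) ^ 2 * l := by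
    rcases Nat.le_total ((l + 1) ^ 2) (r ^ 2) with h | h
    · have : r ^ 2 * l = (r ^ 2 - (l + 1) ^ 2) * l + (l + 1) ^ 2 * l := by
        rw [← Nat.add_mul]
        congr 1
        omega
      omega
    · have : r ^ 2 * l ≤ (l + 1) ^ 2 * l := Nat.mul_le_mul_right _ h
      omega
  zify at h5 h2 hnk hkn
  have hr : (0 : ℤ) ≤ r := by positivity
  have hl : (0 : ℤ) ≤ l := by positivity
  have hDz : (0 : ℤ) ≤ D := by positivity
  have h6 : ((l : ℤ) + 1) * (2 * m) ≤ (l + 1) * ((r + D) ^ 2 - (r + D) * (l + 1 + 2 * D + 4)) := by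
    apply mul_le_mul_of_nonneg_left _ (by positivity)
    linarith
  have h7 : (r : ℤ) ^ 2 * l ≤ (l + 1) * ((r + D) ^ 2 - (r + D) * (l + 1 + 2 * D + 4)) +
      (l + 1) ^ 2 * l := by linarith
  -- (r+D)^2 ≤ (r+D)((l+2)^2 - 1)
  have h8 : ((r : ℤ) + D) * (r + D) ≤ (r + D) * ((l + 2) ^ 2 - 1) := by
    apply mul_le_mul_of_nonneg_left _ (by positivity)
    have : ((l : ℤ) + 1 + 1) ^ 2 = (l + 2) ^ 2 := by ring
    linarith
  have h9 : ((l : ℤ) + 1) ^ 2 * l ≤ (r + D) * l := by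
    apply mul_le_mul_of_nonneg_right _ hl
    linarith
  have hpos : (0 : ℤ) < r + D := by nlinarith
  have h10 : (0 : ℤ) ≤ (D : ℤ) ^ 2 * l := by positivity
  have h11 : (0 : ℤ) ≤ ((r : ℤ) + D) * l := by positivity
  have h12 : (0 : ℤ) ≤ ((r : ℤ) + D) * D := by positivity
  have e : (r : ℤ) ^ 2 * l = (r + D) * (r + D) * l - 2 * ((r + D) * D) * l + D ^ 2 * l := by ring
  rw [e] at h7
  have e3 : ((l : ℤ) + 1) * ((r + D) ^ 2 - (r + D) * (l + 1 + 2 * D + 4)) =
      (r + D) * (r + D) * l + (r + D) * (r + D) - (r + D) * ((l + 1) * (l + 5))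
        - 2 * ((r + D) * D) * l - 2 * ((r + D) * D) := by ring
  rw [e3] at h7
  have e4 : ((r : ℤ) + D) * ((l + 2) ^ 2 - 1) = (r + D) * ((l + 1) * (l + 5)) -
      2 * ((r + D) * l) - 2 * (r + D) := by ring
  rw [e4] at h8
  linarith

theorem window_family {St Cl ι : Type} [Fintype St] [Fintype Cl] [Fintype ι]
    (cls : St → Cl) (cmp : St → St → Prop) (st : ι → St)
    (hst : Function.Injective st) (K K' n m D : ℕ) (hK' : 0 < K')
    (hCl : Fintype.card Cl ≤ Nat.sqrt n) (hk : 0 < Nat.sqrt n)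
    (hD : K + (Fintype.card ι * K' + Fintype.card St) + Nat.sqrt n ≤ D) (hDn : D ≤ n)
    (h1 : D ^ 2 ≤ 2 * m) (h2 : 2 * m + n * (Nat.sqrt n + 2 * D + 4) ≤ n ^ 2) :
    ∃ E : (Fin K × Fin K' → Set ι) → SimpleGraph (Fin n),
      (∀ y y', (∀ j, y j ⊆ y' j) → E y ≤ E y') ∧
      (∀ y J w f, FreeOut (⊤ : SimpleGraph (Fin n)) w f →
        ∃ T : Finset ι, T.card ≤ w ∧ LeafOn T (fun X => f (E (Function.update y J X)))) ∧
      (∀ y, (∃ c : Finset (Fin n), (E y).IsClique (c : Set (Fin n)) ∧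
        Real.sqrt (n : ℝ) < (c.card : ℝ)) ↔ ∃ j, CspSat cls cmp st (y j)) ∧
      (∀ y J, (∀ j, j ∉ J → y j = ∅) → m ≤ (E y).edgeSet.ncard ∧
        (E y).edgeSet.ncard ≤ m + Finset.card J * Fintype.card ι) := by
  classical
  set k := Nat.sqrt n with hkdef
  set p := k - Fintype.card Cl with hp
  have hp1 : 1 + Fintype.card Cl + p = k + 1 := by omega
  have hcardGV : Fintype.card (GV st K K' p) ≤ D := by
    simp only [Fintype.card_sum, Fintype.card_prod, Fintype.card_fin]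
    have : Fintype.card (SFree st) ≤ Fintype.card St := Fintype.card_subtype_le _
    omega
  obtain ⟨ψ⟩ : Nonempty (GV st K K' p ↪ Fin n) := by
    apply Function.Embedding.nonempty_of_card_le
    rw [Fintype.card_fin]
    omega
  -- the unused vertices
  set R : Finset (Fin n) := (univ.map ψ)ᶜ with hR
  have hRc : R.card = n - Fintype.card (GV st K K' p) := by
    rw [hR, Finset.card_compl, Finset.card_map, Finset.card_univ, Fintype.card_fin]
  have hRmem : ∀ v, v ∈ R → v ∉ univ.map ψ := fun v hv => by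
    rw [hR, Finset.mem_compl] at hv
    exact hv
  let g : Fin R.card ↪ Fin n := ⟨fun i => (R.equivFin.symm i).1,
    fun i j h => R.equivFin.symm.injective (Subtype.ext h)⟩
  have hgR : ∀ v, v ∈ Set.range g → v ∉ Set.range ψ := by
    rintro v ⟨i, rfl⟩ ⟨a, ha⟩
    have h : g i ∈ R := (R.equivFin.symm i).2
    apply hRmem _ h
    rw [Finset.mem_map]
    exact ⟨a, mem_univ _, ha⟩
  set T := (SimpleGraph.turanGraph R.card k).edgeSet.ncard with hT
  have hTm : m ≤ T := by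
    refine pad_arith (D := D) hk (Nat.lt_succ_sqrt' n) (Nat.sqrt_le' n) hDn ?_ h2
    refine le_trans ?_ (turan_lower R.card k hk)
    apply Nat.mul_le_mul_right
    have : (n - D) ^ 2 ≤ R.card ^ 2 := Nat.pow_le_pow_left (by rw [hRc]; omega) 2
    omega
  set b0 := (gG0 cls cmp st K K' p (fun _ => ∅)).edgeSet.ncard with hb0
  have hb0m : 2 * b0 ≤ 2 * m := by
    refine le_trans (g0_edges_le _ D ?_) h1
    rw [Nat.card_eq_fintype_card]
    exact hcardGV
  obtain ⟨P, hP1, hP2, hP3⟩ := pad_exists hk g (m - b0) (by omega)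
  have hPψ : ∀ u v, P.Adj u v → u ∉ Set.range ψ ∧ v ∉ Set.range ψ := fun u v h =>
    ⟨hgR u (hP2 u v h).1, hgR v (hP2 u v h).2⟩
  refine ⟨fun y => gPsi cls cmp st K K' p ψ P y, ?_, ?_, ?_, ?_⟩
  · intro y y' h
    exact gPsi_mono h
  · intro y J w f hf
    exact gPsi_leaf (H := ⊤) (fun a b => by
      rw [SimpleGraph.top_adj]
      intro h
      have := ψ.injective h
      simp at this) y J w f hf
  · intro y
    have h := gPsi_clique (cls := cls) (cmp := cmp) hst hK' (ψ := ψ) (P := P) hPψ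
      (by rw [hp1]; exact hP1) y
    rw [hp1] at h
    simp only [real_sqrt_lt_nat]
    exact h
  · intro y J hyJ
    rw [gPsi_edges hPψ, hP3]
    have e1 := g0_edges (cls := cls) (cmp := cmp) (st := st) (p := p) y J hyJ
    have e2 : b0 ≤ (gG0 cls cmp st K K' p y).edgeSet.ncard := by
      apply Set.ncard_le_ncard _ (Set.toFinite _)
      rw [SimpleGraph.edgeSet_subset_edgeSet]
      intro a b hab
      exact g0_compare (fun _ _ _ h => absurd h (Set.notMem_empty _)) hab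
    omega

end Pool.Agent.H560R2
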