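import Pool.Agent.H560R2.Win2
import Pool.Agent.H560R2.Neg6

/-! Circuits with few negations that are only correct on graphs with about `m` edges. -/

namespace Pool.Agent.H560R2

open Finset Pool.Agent.H520R2 Pool.Agent.H520R2.NM

section ext

variable {α κ : Type} {M : ℕ}

open Classical in
/-- extension by empty blocks -/
noncomputable def extB (en : Fin M → κ) (z : Fin M → Set α) : κ → Set α :=
  fun j => if h : ∃ i, en i = j then z h.choose else ∅

lemma extB_en {en : Fin M → κ} (hen : Function.Injective en) (z : Fin M → Set α) (i : Fin M) :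
    extB en z (en i) = z i := by
  have h : ∃ i', en i' = en i := ⟨i, rfl⟩
  unfold extB
  rw [dif_pos h]
  congr 1
  exact hen h.choose_spec

lemma extB_out {en : Fin M → κ} (z : Fin M → Set α) {j : κ} (h : ¬ ∃ i, en i = j) :
    extB en z j = ∅ := by
  unfold extB
  rw [dif_neg h]

lemma extB_update [DecidableEq κ] {en : Fin M → κ} (hen : Function.Injective en) (z : Fin M → Set α) (i : Fin M)
    (X : Set α) : extB en (Function.update z i X) = Function.update (extB en z) (en i) X := by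
  funext j
  by_cases h : ∃ i', en i' = j
  · obtain ⟨i', rfl⟩ := h
    rw [extB_en hen]
    by_cases hi : i' = i
    · subst hi
      rw [Function.update_self, Function.update_self]
    · rw [Function.update_of_ne hi, Function.update_of_ne (fun h => hi (hen h)), extB_en hen]
  · have hj : j ≠ en i := fun hj => h ⟨i, hj.symm⟩
    rw [extB_out _ h, Function.update_of_ne hj, extB_out _ h]

end ext

theorem window_lower (d t n m R : ℕ) (hd : 1 ≤ d)
    (hR : R = 2 ^ ((t + 1) / 2) * (2 ^ 65 * (Nat.log 2 d + 1) ^ 6 * d ^ 4))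
    (h1 : (Nat.sqrt n + R) ^ 2 ≤ 2 * m)
    (h2 : 2 * m + n * (3 * Nat.sqrt n + 2 * R + 4) ≤ n ^ 2)
    {L : Type} (lf : L → SimpleGraph (Fin n) → Bool)
    (hlf : ∀ l, FreeOutB (⊤ : SimpleGraph (Fin n)) d (lf l))
    {N : ℕ} (C : Circuit L N) (out : Wire L N)
    (hC : ∀ G : SimpleGraph (Fin n), m ≤ G.edgeSet.ncard →
      G.edgeSet.ncard ≤ m + 2 ^ t * (2 ^ 42 * (Nat.log 2 d + 1) ^ 4 * d ^ 2) →
      (out.eval (inp lf G) (C.vals (inp lf G)) = true ↔
        ∃ c : Finset (Fin n), G.IsClique (c : Set (Fin n)) ∧ Real.sqrt (n : ℝ) < (c.card : ℝ)))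
    (hT : (C.fanins.map (· + 1)).prod ≤ 2 ^ t) :
    2 ^ d ≤ C.size + C.fanins.sum := by
  classical
  by_contra hcon
  push Not at hcon
  obtain ⟨lam, h0, hl1, hl2⟩ := exists_lam2 d hd
  obtain ⟨F, _, _, _, hq⟩ := exists_field lam h0
  set q := 2 ^ lam with hqd
  set u := Nat.log 2 d + 1 with hu
  have hu1 : 1 ≤ u := by omega
  have hlam : 1 ≤ lam := by omega
  have hd4 : 1024 * d ≤ q := by
    refine le_trans ?_ hl1
    have : 1 ≤ lam * (lam + 1) := Nat.mul_pos hlam (by omega)
    calc 1024 * d = (1024 * d) * 1 := by ring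
      _ ≤ (1024 * d) * (lam * (lam + 1)) := Nat.mul_le_mul_left _ this
      _ = _ := by ring
  have hq2 : q ^ 2 ≤ 2 ^ 42 * u ^ 4 * d ^ 2 := by
    calc q ^ 2 ≤ (2 ^ 21 * u ^ 2 * d) ^ 2 := Nat.pow_le_pow_left hl2 2
      _ = _ := by ring
  have hq3 : 4 * d * q ^ 3 ≤ 2 ^ 65 * u ^ 6 * d ^ 4 := by
    calc 4 * d * q ^ 3 ≤ 4 * d * (2 ^ 21 * u ^ 2 * d) ^ 3 :=
          Nat.mul_le_mul_left _ (Nat.pow_le_pow_left hl2 3)
      _ = _ := by ring
  have hι : Fintype.card (F × F) = q ^ 2 := by rw [Fintype.card_prod, sq, hq]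
  have hClc : Fintype.card (PCl F (2 * d)) = 2 * d + (q * (2 * d) + q) := by
    simp [PCl, hq]
  have hStc : Fintype.card (PSt F (2 * d)) = 2 * d * q + (q * (2 * d) * q ^ 2 + q ^ 2) := by
    simp [PSt, hq, sq]
  set κ := 2 ^ ((t + 1) / 2) with hκ
  have hκ1 : 1 ≤ κ := Nat.one_le_two_pow
  set M := 2 ^ t with hM
  have hMκ : M ≤ κ * κ := by
    rw [hκ, ← pow_add, hM]
    exact Nat.pow_le_pow_right (by norm_num) (by omega)
  have hRpos : 1 ≤ 2 ^ 65 * u ^ 6 * d ^ 4 := by
    have e1 : 1 ≤ u ^ 6 := Nat.one_le_pow _ _ hu1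
    have e2 : 1 ≤ d ^ 4 := Nat.one_le_pow _ _ hd
    calc 1 = 1 * 1 * 1 := rfl
      _ ≤ 2 ^ 65 * u ^ 6 * d ^ 4 := Nat.mul_le_mul (Nat.mul_le_mul (by norm_num) e1) e2
  have hRle : 2 ^ 65 * u ^ 6 * d ^ 4 ≤ R := by
    rw [hR]
    calc _ = 1 * (2 ^ 65 * u ^ 6 * d ^ 4) := (one_mul _).symm
      _ ≤ _ := Nat.mul_le_mul_right _ hκ1
  have hnpos : 0 < n := by
    by_contra hn0
    have hn0' : n = 0 := by omega
    subst hn0'
    have : R ^ 2 ≤ (Nat.sqrt 0 + R) ^ 2 := Nat.pow_le_pow_left (by omega) 2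
    have h3 : 1 ≤ R ^ 2 := Nat.one_le_pow _ _ (by omega)
    have h4 : (0 : ℕ) ^ 2 = 0 := rfl
    rw [h4] at h2
    omega
  have hRn : 3 * Nat.sqrt n + 2 * R + 4 ≤ n := by
    have h3 : n * (3 * Nat.sqrt n + 2 * R + 4) ≤ n * n := by
      rw [← sq]; omega
    exact Nat.le_of_mul_le_mul_left h3 hnpos
  have hClk : Fintype.card (PCl F (2 * d)) ≤ Nat.sqrt n := by
    rw [Nat.le_sqrt, hClc]
    have e1 : 2 * d + (q * (2 * d) + q) ≤ 4 * d * q := by
      have a1 : 2 * q ≤ 2 * (d * q) := Nat.mul_le_mul_left _ (Nat.le_mul_of_pos_left _ hd)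
      have a2 : q * (2 * d) = 2 * (d * q) := by ring
      have a3 : 4 * d * q = 4 * (d * q) := by ring
      rw [a2, a3]
      omega
    have e2 : 4 * d * q ≤ 2 ^ 23 * u ^ 2 * d ^ 2 := by
      calc 4 * d * q ≤ 4 * d * (2 ^ 21 * u ^ 2 * d) := Nat.mul_le_mul_left _ hl2
        _ = _ := by ring
    have e3 := e1.trans e2
    calc _ ≤ (2 ^ 23 * u ^ 2 * d ^ 2) * (2 ^ 23 * u ^ 2 * d ^ 2) := Nat.mul_le_mul e3 e3
      _ = 2 ^ 46 * u ^ 4 * d ^ 4 := by ring
      _ ≤ 2 ^ 65 * u ^ 6 * d ^ 4 := by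
          apply Nat.mul_le_mul_right
          exact Nat.mul_le_mul (Nat.pow_le_pow_right (by norm_num) (by norm_num))
            (Nat.pow_le_pow_right hu1 (by norm_num))
      _ ≤ R := hRle
      _ ≤ n := by omega
  have hkpos : 0 < Nat.sqrt n := by
    rw [Nat.sqrt_pos]; exact hnpos
  have hD : κ + (Fintype.card (F × F) * κ + Fintype.card (PSt F (2 * d))) + Nat.sqrt n ≤
      Nat.sqrt n + R := by
    rw [hι, hStc]
    have e1 : 1 + q ^ 2 + (2 * d * q + (q * (2 * d) * q ^ 2 + q ^ 2)) ≤ 4 * d * q ^ 3 := by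
      have hq1 : 1 ≤ q := by omega
      have b1 : 1 ≤ q ^ 2 := Nat.one_le_pow _ _ hq1
      have b2 : 1024 * q ^ 2 ≤ q ^ 3 := by
        calc 1024 * q ^ 2 ≤ q * q ^ 2 := Nat.mul_le_mul_right _ (by omega)
          _ = q ^ 3 := by ring
      have b3 : q ^ 3 ≤ d * q ^ 3 := Nat.le_mul_of_pos_left _ hd
      have b4 : 2 * d * q ≤ q ^ 2 := by rw [sq]; exact Nat.mul_le_mul_right _ (by omega)
      have b5 : q * (2 * d) * q ^ 2 = 2 * (d * q ^ 3) := by ring
      have b6 : 4 * d * q ^ 3 = 4 * (d * q ^ 3) := by ring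
      rw [b5, b6]
      omega
    have e2 := e1.trans hq3
    have e3 : κ * (1 + q ^ 2 + (2 * d * q + (q * (2 * d) * q ^ 2 + q ^ 2))) ≤ R := by
      rw [hR]; exact Nat.mul_le_mul_left _ e2
    have e4 : (2 * d * q + (q * (2 * d) * q ^ 2 + q ^ 2)) ≤
        κ * (2 * d * q + (q * (2 * d) * q ^ 2 + q ^ 2)) := Nat.le_mul_of_pos_left _ hκ1
    have e5 : κ * (1 + q ^ 2 + (2 * d * q + (q * (2 * d) * q ^ 2 + q ^ 2))) =
        κ + q ^ 2 * κ + κ * (2 * d * q + (q * (2 * d) * q ^ 2 + q ^ 2)) := by ring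
    omega
  obtain ⟨E, E1, E2, E3, E4⟩ := window_family (St := PSt F (2 * d)) (Cl := PCl F (2 * d))
    (ι := F × F) pcls pcmp pst pst_inj κ κ n m (Nat.sqrt n + R) hκ1 hClk hkpos hD (by omega) h1
    (by
      refine le_trans ?_ h2
      apply Nat.add_le_add_left
      apply Nat.mul_le_mul_left
      omega)
  let en : Fin M → Fin κ × Fin κ := fun i => finProdFinEquiv.symm (Fin.castLE hMκ i)
  have hen : Function.Injective en := by
    intro i j h
    exact Fin.castLE_injective _ (finProdFinEquiv.symm.injective h)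
  have hf0 : ¬ fPoly (F := F) (2 * d) ∅ := by
    rintro ⟨c, hc⟩
    exact hc 0
  have hJ : ∀ (z : Fin M → Set (F × F)) (j : Fin κ × Fin κ), j ∉ univ.image en →
      extB en z j = ∅ := by
    intro z j hj
    apply extB_out
    rintro ⟨i, rfl⟩
    exact hj (Finset.mem_image_of_mem _ (mem_univ _))
  have hedge : ∀ z : Fin M → Set (F × F), m ≤ (E (extB en z)).edgeSet.ncard ∧
      (E (extB en z)).edgeSet.ncard ≤ m + M * (2 ^ 42 * u ^ 4 * d ^ 2) := by
    intro z
    obtain ⟨k1, k2⟩ := E4 (extB en z) (univ.image en) (hJ z)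
    refine ⟨k1, k2.trans ?_⟩
    rw [Finset.card_image_of_injective _ hen, Finset.card_univ, Fintype.card_fin, hι]
    exact Nat.add_le_add_left (Nat.mul_le_mul_left _ hq2) _
  obtain ⟨Y, k1, k2, k3⟩ := chain_gen (m := M) (fPoly (2 * d)) hf0 (fun i : Fin M => i)
    (fun _ _ h => h) (fun z => inp lf (E (extB en z))) (by
      intro z z' hzz l
      obtain ⟨S, hS1, hS2, hS3⟩ := hlf l
      have hle : E (extB en z) ≤ E (extB en z') := by
        apply E1
        intro j
        by_cases hj : ∃ i, en i = j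
        · obtain ⟨i, rfl⟩ := hj
          rw [extB_en hen, extB_en hen]
          exact hzz i
        · rw [extB_out _ hj]
          exact Set.empty_subset _
      show lf l (E (extB en z)) ≤ lf l (E (extB en z'))
      rcases hb : lf l (E (extB en z)) with _ | _
      · exact Bool.false_le _
      · rw [hS3 (E (extB en z)) (E (extB en z')) (fun u v huv => by
          rw [SimpleGraph.top_adj, not_not] at huv
          subst huv
          simp) (fun u v _ h => hle h) hb])
    C out (fun z => by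
      rw [hC (E (extB en z)) (hedge z).1 (hedge z).2, E3]
      constructor
      · rintro ⟨j, hj⟩
        rw [csp_iff (by omega)] at hj
        by_cases hj' : ∃ i, en i = j
        · obtain ⟨i, rfl⟩ := hj'
          rw [extB_en hen] at hj
          exact ⟨i, hj⟩
        · rw [extB_out _ hj'] at hj
          exact absurd hj hf0
      · rintro ⟨i, hi⟩
        refine ⟨en i, (csp_iff (by omega) _).mpr ?_⟩
        rw [extB_en hen]
        exact hi) (by
      intro z i g hg hgf
      have := mcomp_lower (F := F) d lam hd (by rw [hq]) (by rw [hq]; exact hl1)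
        (blockBase (fun z => inp lf (E (extB en z))) z i) (by
          rintro _ ⟨b, hb, rfl⟩
          rcases hb with ⟨c, rfl⟩ | ⟨l, rfl⟩
          · exact ⟨∅, by simp, fun x x' _ h => h⟩
          · obtain ⟨T, hT1, hT2⟩ := E2 (extB en z) (en i) d (fun G => lf l G = true) (hlf l)
            refine ⟨T, hT1, fun x x' hx h => ?_⟩
            have e := hT2 x x' hx
            simp only [extB_update hen] at h ⊢
            exact e h) _ g hg hgf
      have h5 : 2 * 2 ^ d ≤ 4 ^ d := by
        have : (4 : ℕ) ^ d = 2 ^ d * 2 ^ d := by rw [← mul_pow]; norm_num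
        rw [this]
        apply Nat.mul_le_mul_right
        calc 2 = 2 ^ 1 := rfl
          _ ≤ 2 ^ d := Nat.pow_le_pow_right (by norm_num) hd
      omega)
  have hle := C.chain_le M (fun i => inp lf (E (extB en (Y i)))) (fun i hi l => by
      obtain ⟨S, hS1, hS2, hS3⟩ := hlf l
      have hle : E (extB en (Y i)) ≤ E (extB en (Y (i + 1))) := by
        apply E1
        intro j
        by_cases hj : ∃ i', en i' = j
        · obtain ⟨i', rfl⟩ := hj
          rw [extB_en hen, extB_en hen]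
          exact k1 i hi i'
        · rw [extB_out _ hj]
          exact Set.empty_subset _
      show lf l (E (extB en (Y i))) ≤ lf l (E (extB en (Y (i + 1))))
      rcases hb : lf l (E (extB en (Y i))) with _ | _
      · exact Bool.false_le _
      · rw [hS3 (E (extB en (Y i))) (E (extB en (Y (i + 1)))) (fun u v huv => by
          rw [SimpleGraph.top_adj, not_not] at huv
          subst huv
          simp) (fun u v _ h => hle h) hb]) (fun i hi => k2 i hi)
  omega

end Pool.Agent.H560R2
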